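import Pool.Agent.Work.MP_972ac7_P.Interface2

set_option autoImplicit false

open MeasureTheory NumberField IsDedekindDomain
open scoped Quaternion

noncomputable section

namespace Pool.PL

open Pool.TFD Pool.TC

lemma ANG_trig (t t' t'' : ℝ) :
    (Real.cos t' - Real.cos t) * (Real.sin t'' - Real.sin t) -
      (Real.cos t'' - Real.cos t) * (Real.sin t' - Real.sin t) =
    4 * Real.sin ((t' - t) / 2) * Real.sin ((t'' - t') / 2) * Real.sin ((t'' - t) / 2) := by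
  have h : Real.sin ((t'' - t') / 2) =
      Real.sin ((t'' + t) / 2) * Real.cos ((t' + t) / 2) -
        Real.cos ((t'' + t) / 2) * Real.sin ((t' + t) / 2) := by
    rw [← Real.sin_sub]
    congr 1
    ring
  rw [Real.cos_sub_cos, Real.cos_sub_cos, Real.sin_sub_sin, Real.sin_sub_sin, h]
  ring

lemma ANG_sin (u : ℝ) (K : ℕ) (h : |u| ≤ 2 * Real.pi / K) :
    |Real.sin u| ≤ min 1 (2 * Real.pi / K) :=
  le_min (Real.abs_sin_le_one u) ((Real.abs_sin_le_abs).trans h)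

theorem p_ANG : Stmt_ANG := by
  classical
  intro c₁ c₂ μ hc₁ hc₂ hμ K hK
  have hK0 : (0 : ℝ) < K := by exact_mod_cast hK
  have hpi := Real.pi_pos
  set z : ℝ × ℝ → ℂ := fun p => ⟨Real.sqrt c₁ * p.1, Real.sqrt c₂ * p.2⟩ with hz
  set t : ℝ × ℝ → ℝ := fun p => Complex.arg (z p) with ht
  set w : ℝ × ℝ → ℝ := fun p => (t p + Real.pi) * K / (2 * Real.pi) with hw
  have hw0 : ∀ p, 0 < w p := by
    intro p
    have h1 := Complex.neg_pi_lt_arg (z p)
    apply div_pos (mul_pos _ hK0) (by positivity)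
    simp only [ht]
    linarith
  have hw1 : ∀ p, w p ≤ K := by
    intro p
    have h1 := Complex.arg_le_pi (z p)
    simp only [hw, ht]
    rw [div_le_iff₀ (by positivity)]
    nlinarith
  have hceil : ∀ p, ⌈w p⌉₊ - 1 < K := by
    intro p
    have h1 : ⌈w p⌉₊ ≤ K := Nat.ceil_le.2 (hw1 p)
    omega
  refine ⟨fun p => ⟨⌈w p⌉₊ - 1, hceil p⟩, ?_⟩
  have hclose : ∀ p q : ℝ × ℝ, (⟨⌈w p⌉₊ - 1, hceil p⟩ : Fin K) = ⟨⌈w q⌉₊ - 1, hceil q⟩ →
      |t q - t p| ≤ 2 * Real.pi / K := by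
    intro p q h
    have h1 : ⌈w p⌉₊ - 1 = ⌈w q⌉₊ - 1 := congrArg Fin.val h
    have hp : 0 < ⌈w p⌉₊ := Nat.ceil_pos.2 (hw0 p)
    have hq : 0 < ⌈w q⌉₊ := Nat.ceil_pos.2 (hw0 q)
    have h2 : ⌈w p⌉₊ = ⌈w q⌉₊ := by omega
    have h3 := Nat.le_ceil (w p)
    have h4 := Nat.ceil_lt_add_one (hw0 p).le
    have h5 := Nat.le_ceil (w q)
    have h6 := Nat.ceil_lt_add_one (hw0 q).le
    rw [h2] at h3 h4
    have h7 : |w q - w p| ≤ 1 := by
      rw [abs_le]
      constructor <;> linarith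
    have h8 : w q - w p = (t q - t p) * (K / (2 * Real.pi)) := by
      simp only [hw]
      ring
    rw [h8, abs_mul, abs_of_pos (a := (K : ℝ) / (2 * Real.pi)) (by positivity),
      mul_div_assoc', div_le_one (by positivity)] at h7
    rw [le_div_iff₀ hK0]
    exact h7
  have hpt : ∀ p : ℝ × ℝ, c₁ * p.1 ^ 2 + c₂ * p.2 ^ 2 = μ →
      Real.sqrt c₁ * p.1 = Real.sqrt μ * Real.cos (t p) ∧
      Real.sqrt c₂ * p.2 = Real.sqrt μ * Real.sin (t p) := by
    intro p hp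
    have hn : ‖z p‖ = Real.sqrt μ := by
      rw [Complex.norm_def, Complex.normSq_apply]
      congr 1
      simp only [hz]
      rw [← hp]
      have h1 := Real.mul_self_sqrt hc₁.le
      have h2 := Real.mul_self_sqrt hc₂.le
      calc Real.sqrt c₁ * p.1 * (Real.sqrt c₁ * p.1) + Real.sqrt c₂ * p.2 * (Real.sqrt c₂ * p.2)
          = (Real.sqrt c₁ * Real.sqrt c₁) * p.1 ^ 2 + (Real.sqrt c₂ * Real.sqrt c₂) * p.2 ^ 2 := by
            ring
        _ = _ := by rw [h1, h2]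
    have h1 := Complex.norm_mul_cos_arg (z p)
    have h2 := Complex.norm_mul_sin_arg (z p)
    rw [hn] at h1 h2
    exact ⟨h1.symm, h2.symm⟩
  intro p p' p'' hp hp' hp'' h1 h2
  obtain ⟨a1, a2⟩ := hpt p hp
  obtain ⟨b1, b2⟩ := hpt p' hp'
  obtain ⟨d1, d2⟩ := hpt p'' hp''
  have e1 := hclose p p' h1
  have e2 := hclose p p'' h2
  have e3 := hclose p' p'' (h1.symm.trans h2)
  have hs : 0 < Real.sqrt (c₁ * c₂) := Real.sqrt_pos.2 (mul_pos hc₁ hc₂)
  have hdet : ((p'.1 - p.1) * (p''.2 - p.2) - (p''.1 - p.1) * (p'.2 - p.2)) * Real.sqrt (c₁ * c₂) =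
      4 * μ * (Real.sin ((t p' - t p) / 2) * Real.sin ((t p'' - t p') / 2) *
        Real.sin ((t p'' - t p) / 2)) := by
    rw [Real.sqrt_mul hc₁.le]
    have h3 : ((p'.1 - p.1) * (p''.2 - p.2) - (p''.1 - p.1) * (p'.2 - p.2)) *
        (Real.sqrt c₁ * Real.sqrt c₂) =
        (Real.sqrt c₁ * p'.1 - Real.sqrt c₁ * p.1) * (Real.sqrt c₂ * p''.2 - Real.sqrt c₂ * p.2) -
        (Real.sqrt c₁ * p''.1 - Real.sqrt c₁ * p.1) *
          (Real.sqrt c₂ * p'.2 - Real.sqrt c₂ * p.2) := by ring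
    rw [h3, a1, a2, b1, b2, d1, d2]
    have h4 := ANG_trig (t p) (t p') (t p'')
    have h5 := Real.mul_self_sqrt hμ
    calc (Real.sqrt μ * Real.cos (t p') - Real.sqrt μ * Real.cos (t p)) *
          (Real.sqrt μ * Real.sin (t p'') - Real.sqrt μ * Real.sin (t p)) -
        (Real.sqrt μ * Real.cos (t p'') - Real.sqrt μ * Real.cos (t p)) *
          (Real.sqrt μ * Real.sin (t p') - Real.sqrt μ * Real.sin (t p))
        = (Real.sqrt μ * Real.sqrt μ) *
          ((Real.cos (t p') - Real.cos (t p)) * (Real.sin (t p'') - Real.sin (t p)) -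
          (Real.cos (t p'') - Real.cos (t p)) * (Real.sin (t p') - Real.sin (t p))) := by ring
      _ = _ := by rw [h4, h5]; ring
  have hhalf : ∀ u v : ℝ, |u - v| ≤ 2 * Real.pi / K → |(u - v) / 2| ≤ 2 * Real.pi / K := by
    intro u v h
    rw [abs_div, abs_two]
    have := abs_nonneg (u - v)
    linarith
  set m : ℝ := min 1 (2 * Real.pi / K) with hm
  have hm0 : 0 ≤ m := le_min zero_le_one (by positivity)
  have f1 := ANG_sin _ K (hhalf _ _ e1)
  have f2 := ANG_sin _ K (hhalf _ _ e3)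
  have f3 := ANG_sin _ K (hhalf _ _ e2)
  have hm3 : m ^ 3 ≤ min 1 ((2 * Real.pi / K) ^ 3) := by
    apply le_min
    · exact pow_le_one₀ hm0 (min_le_left _ _)
    · exact pow_le_pow_left₀ hm0 (min_le_right _ _) 3
  have hprod : |Real.sin ((t p' - t p) / 2) * Real.sin ((t p'' - t p') / 2) *
        Real.sin ((t p'' - t p) / 2)| ≤ m ^ 3 := by
    rw [abs_mul, abs_mul, pow_succ, pow_two]
    apply mul_le_mul (mul_le_mul f1 f2 (abs_nonneg _) hm0) f3 (abs_nonneg _) (mul_nonneg hm0 hm0)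
  have habs := congrArg abs hdet
  rw [abs_mul, abs_of_pos hs, abs_mul, abs_of_nonneg (a := 4 * μ) (by positivity)] at habs
  rw [div_mul_eq_mul_div, le_div_iff₀ hs, habs]
  exact mul_le_mul_of_nonneg_left (hprod.trans hm3) (by positivity)

end Pool.PL
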