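import Pool.Agent.Work.MP_972ac7_P.Interface2

set_option autoImplicit false

/-! # THEOREM P, block LCL: finitely many residues -/

open MeasureTheory NumberField IsDedekindDomain
open scoped Quaternion

noncomputable section

namespace Pool.PL

open Pool.TFD Pool.TC

theorem LCL_mono {F : Type} [Field F] [NumberField F] (w : HeightOneSpectrum (𝓞 F)) {x y : F}
    (h : w.valuation F x ≤ w.valuation F y) : av w x ≤ av w y := by
  unfold av
  change ((_ : NNReal) : ℝ) ≤ ((_ : NNReal) : ℝ)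
  exact_mod_cast (WithZeroMulInt.toNNReal_strictMono
    (HeightOneSpectrum.one_lt_absNorm_nnreal w)).monotone h

theorem LCL_val_le_one {F : Type} [Field F] [NumberField F] (w : HeightOneSpectrum (𝓞 F)) {x : F}
    (h : av w x ≤ 1) : w.valuation F x ≤ 1 := by
  by_contra hlt
  have h1 : w.valuation F (1 : F) < w.valuation F x := by
    rw [map_one]
    exact not_le.1 hlt
  have h2 : av w (1 : F) < av w x := by
    unfold av
    change ((_ : NNReal) : ℝ) < ((_ : NNReal) : ℝ)
    exact_mod_cast (WithZeroMulInt.toNNReal_strictMono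
      (HeightOneSpectrum.one_lt_absNorm_nnreal w)) h1
  have h3 : av w (1 : F) = 1 := map_one _
  rw [h3] at h2
  exact absurd h (not_le.2 h2)

theorem p_LCL : Stmt_LCL := by
  intro F _ _ w ε hε
  obtain ⟨π, hπ, hπ0⟩ := Submodule.exists_mem_ne_zero_of_ne_bot w.ne_bot
  have hπF : (π : F) ≠ 0 := by
    intro h
    exact hπ0 (NumberField.RingOfIntegers.coe_eq_zero_iff.1 h)
  have h1 : av w (π : F) < 1 := by
    refine lt_of_le_of_ne (av_int w π) fun h => ?_
    exact (av_int_eq_one_iff w π).1 h hπ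
  obtain ⟨n, hn⟩ := exists_pow_lt_of_lt_one hε h1
  have hn1 : av w ((π : F) ^ n) < ε := by
    have : av w ((π : F) ^ n) = av w (π : F) ^ n := map_pow _ _ _
    rw [this]
    exact hn
  have hv0 : w.valuation F ((π : F) ^ n) ≠ 0 :=
    (Valuation.ne_zero_iff _).2 (pow_ne_zero _ hπF)
  obtain ⟨m, hm⟩ : ∃ m : ℕ, WithZero.exp (-(m : ℤ)) < w.valuation F ((π : F) ^ n) := by
    obtain ⟨m, hm, -⟩ := WithZero.exists_exp_neg_natCast_lt_and_lt hv0 hv0
    exact ⟨m, hm⟩
  have hfin : Finite (𝓞 F ⧸ w.asIdeal ^ m) :=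
    Ideal.finiteQuotientOfFreeOfNeBot _ (pow_ne_zero _ w.ne_bot)
  obtain ⟨N, ⟨e⟩⟩ := Finite.exists_equiv_fin (𝓞 F ⧸ w.asIdeal ^ m)
  have hap : ∀ x : F, av w x ≤ 1 → ∃ a : 𝓞 F, av w ((a : F) - x) ≤ ε := by
    intro x hx
    obtain ⟨a, ha⟩ := w.exists_valuation_sub_lt_of_integer (K := F) (LCL_val_le_one w hx)
      (Units.mk0 _ hv0)
    exact ⟨a, le_trans (LCL_mono w ha.le) hn1.le⟩
  classical
  let f : F → 𝓞 F := fun x => if h : av w x ≤ 1 then (hap x h).choose else 0
  refine ⟨N, fun x => e (Ideal.Quotient.mk _ (f x)), fun x y hx hy hxy => ?_⟩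
  have h2 : f x - f y ∈ w.asIdeal ^ m := Ideal.Quotient.eq.1 (e.injective hxy)
  have h3 : av w ((f x - f y : 𝓞 F) : F) ≤ ε := by
    refine le_trans (LCL_mono w ?_) hn1.le
    refine le_trans ?_ hm.le
    change w.valuation F (algebraMap (𝓞 F) F (f x - f y)) ≤ _
    rw [HeightOneSpectrum.valuation_of_algebraMap, HeightOneSpectrum.intValuation_le_pow_iff_mem]
    exact h2
  have hfx : f x = (hap x hx).choose := dif_pos hx
  have hfy : f y = (hap y hy).choose := dif_pos hy
  have h4 := (hap x hx).choose_spec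
  have h5 := (hap y hy).choose_spec
  rw [← hfx] at h4
  rw [← hfy] at h5
  have h6 : x - y = -((f x : F) - x) + (((f x - f y : 𝓞 F) : F) + ((f y : F) - y)) := by
    push_cast
    ring
  rw [h6]
  refine le_trans (av_add_le w _ _) (max_le ?_ (le_trans (av_add_le w _ _) (max_le h3 h5)))
  rw [av_neg]
  exact h4

end Pool.PL
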