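import Pool.Agent.Work.MP_972ac7_P.Interface2

set_option autoImplicit false

/-! # Block ICL: residues of integers -/

open NumberField IsDedekindDomain
open scoped Quaternion

noncomputable section

namespace Pool.PL

theorem p_ICL : Stmt_ICL := by
  intro F _ _ w s hs
  have hnorm : av w (s : F) * (Ideal.absNorm (w.maxPowDividing (Ideal.span {s})) : ℝ) = 1 := by
    have h := NumberField.HeightOneSpectrum.embedding_mul_absNorm (K := F) w hs
    rwa [NumberField.FinitePlace.norm_embedding] at h
  set I : Ideal (𝓞 F) := w.maxPowDividing (Ideal.span {s}) with hI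
  have hN0 : Ideal.absNorm I ≠ 0 := by
    intro h0
    rw [h0] at hnorm
    simp at hnorm
  have hcard : Nat.card (𝓞 F ⧸ I) = Ideal.absNorm I := by
    rw [Ideal.absNorm_apply, Submodule.cardQuot_apply]
  have hpos : 0 < Nat.card (𝓞 F ⧸ I) := by
    rw [hcard]
    exact Nat.pos_of_ne_zero hN0
  refine ⟨Nat.card (𝓞 F ⧸ I), fun x => Nat.equivFinOfCardPos hpos.ne' (Ideal.Quotient.mk I x), ?_, ?_⟩
  · rw [hcard, mul_comm]
    exact hnorm
  · intro x y hxy
    have h1 : Ideal.Quotient.mk I x = Ideal.Quotient.mk I y :=
      (Nat.equivFinOfCardPos hpos.ne').injective hxy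
    have h2 : x - y ∈ I := Ideal.Quotient.eq.1 h1
    rw [hI, HeightOneSpectrum.maxPowDividing] at h2
    have h3 := (w.intValuation_le_pow_iff_mem (x - y) _).2 h2
    have h4 : w.intValuation (x - y) ≤ w.intValuation s := by
      rw [w.intValuation_if_neg hs]
      exact h3
    have h5 : w.valuation F ((x : F) - (y : F)) ≤ w.valuation F (s : F) := by
      have e1 : w.valuation F (algebraMap (𝓞 F) F (x - y)) = w.intValuation (x - y) :=
        w.valuation_of_algebraMap (x - y)
      have e2 : w.valuation F (algebraMap (𝓞 F) F s) = w.intValuation s :=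
        w.valuation_of_algebraMap s
      rw [map_sub] at e1
      change w.valuation F (algebraMap (𝓞 F) F x - algebraMap (𝓞 F) F y) ≤
        w.valuation F (algebraMap (𝓞 F) F s)
      rw [e1, e2]
      exact h4
    unfold av
    rw [NumberField.HeightOneSpectrum.adicAbv_def, NumberField.HeightOneSpectrum.adicAbv_def]
    exact_mod_cast (WithZeroMulInt.toNNReal_strictMono
      (NumberField.HeightOneSpectrum.one_lt_absNorm_nnreal w)).monotone h5

end Pool.PL
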