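import Pool.Agent.Work.MP_972ac7_P.Interface2

set_option autoImplicit false

/-! # THEOREM P, block DEN -/

open NumberField IsDedekindDomain
open scoped Quaternion

noncomputable section

namespace Pool.PL

theorem DEN_one {F : Type} [Field F] [NumberField F] (w : HeightOneSpectrum (𝓞 F)) :
    ∃ x : 𝓞 F, x ≠ 0 ∧ av w (x : F) < 1 := by
  obtain ⟨x, hx, hx0⟩ := Submodule.exists_mem_ne_zero_of_ne_bot w.ne_bot
  refine ⟨x, hx0, lt_of_le_of_ne (av_int w x) fun h => ?_⟩
  exact (av_int_eq_one_iff w x).1 h hx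

theorem DEN_pow {F : Type} [Field F] [NumberField F] (w : HeightOneSpectrum (𝓞 F)) (x : F)
    (n : ℕ) : av w (x ^ n) = av w x ^ n := map_pow _ _ _

theorem DEN_pos {F : Type} [Field F] [NumberField F] (S : Finset (HeightOneSpectrum (𝓞 F)))
    (R : ℝ) (hR : 0 < R) : ∃ c : 𝓞 F, c ≠ 0 ∧ ∀ w ∈ S, av w (c : F) * R ≤ 1 := by
  classical
  induction S using Finset.induction_on with
  | empty =>
    exact ⟨1, one_ne_zero, fun w hw => absurd hw (Finset.notMem_empty w)⟩
  | insert w S hw ih =>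
    obtain ⟨c, hc0, hc⟩ := ih
    obtain ⟨x, hx0, hx⟩ := DEN_one w
    obtain ⟨n, hn⟩ := exists_pow_lt_of_lt_one (show (0 : ℝ) < R⁻¹ by positivity) hx
    refine ⟨c * x ^ n, mul_ne_zero hc0 (pow_ne_zero n hx0), fun u hu => ?_⟩
    have e1 : (((c * x ^ n : 𝓞 F)) : F) = (c : F) * (x : F) ^ n := by push_cast; rfl
    rw [e1, av_mul, DEN_pow]
    have hcu := av_int u c
    have hxu : av u (x : F) ^ n ≤ 1 := pow_le_one₀ (av_nonneg u _) (av_int u x)
    rcases Finset.mem_insert.1 hu with rfl | hu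
    · calc av u (c : F) * av u (x : F) ^ n * R ≤ 1 * R⁻¹ * R := by
            refine mul_le_mul_of_nonneg_right ?_ hR.le
            exact mul_le_mul hcu hn.le (pow_nonneg (av_nonneg u _) n) zero_le_one
        _ = 1 := by rw [one_mul, inv_mul_cancel₀ hR.ne']
    · calc av u (c : F) * av u (x : F) ^ n * R = av u (c : F) * R * av u (x : F) ^ n := by ring
        _ ≤ 1 * 1 := by
            refine mul_le_mul (hc u hu) hxu (pow_nonneg (av_nonneg u _) n) zero_le_one
        _ = 1 := one_mul 1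

theorem p_DEN : Stmt_DEN := by
  intro F _ _ S R
  obtain ⟨c, hc0, hc⟩ := DEN_pos S (max R 1) (lt_of_lt_of_le one_pos (le_max_right R 1))
  refine ⟨c, hc0, fun w hw => le_trans ?_ (hc w hw)⟩
  exact mul_le_mul_of_nonneg_left (le_max_left R 1) (av_nonneg w _)

end Pool.PL
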