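import Pool.Agent.Work.MP_972ac7_P.Interface1

set_option autoImplicit false

/-! # THEOREM P: block CTR (after `MP_972ac7_sn/CTR.lean` of helper65) -/

open MeasureTheory

noncomputable section

namespace Pool.PL

open Pool.TFD Pool.TC

/-- contractible elements -/
def CTR_set (G : Type) [Group G] [TopologicalSpace G] : Set G :=
  {a : G | ∃ b : ℕ → G, Filter.Tendsto (fun n => b n * a * (b n)⁻¹) Filter.atTop (nhds 1)}

section

variable {k : Type} [NormedField k]

theorem CTR_upp (u : k) (hu : u ≠ 0) (t : k) :
    dia u hu * upp t * (dia u hu)⁻¹ = upp (u ^ 2 * t) := by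
  rw [mul_inv_eq_iff_eq_mul]
  apply Subtype.ext
  rw [Matrix.SpecialLinearGroup.coe_mul, Matrix.SpecialLinearGroup.coe_mul]
  unfold dia upp
  ext i j
  fin_cases i <;> fin_cases j <;>
    simp [Matrix.mul_apply, Fin.sum_univ_two] <;> field_simp

theorem CTR_low (u : k) (hu : u ≠ 0) (t : k) :
    dia u⁻¹ (inv_ne_zero hu) * low t * (dia u⁻¹ (inv_ne_zero hu))⁻¹ = low (u ^ 2 * t) := by
  rw [mul_inv_eq_iff_eq_mul]
  apply Subtype.ext
  rw [Matrix.SpecialLinearGroup.coe_mul, Matrix.SpecialLinearGroup.coe_mul]
  unfold dia low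
  ext i j
  fin_cases i <;> fin_cases j <;>
    simp [Matrix.mul_apply, Fin.sum_univ_two] <;> field_simp

theorem CTR_cont_upp : Continuous (fun t : k => upp t) := by
  apply continuous_induced_rng.2
  apply continuous_matrix
  intro i j
  fin_cases i <;> fin_cases j
  · exact continuous_const
  · exact continuous_id
  · exact continuous_const
  · exact continuous_const

theorem CTR_cont_low : Continuous (fun t : k => low t) := by
  apply continuous_induced_rng.2
  apply continuous_matrix
  intro i j
  fin_cases i <;> fin_cases j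
  · exact continuous_const
  · exact continuous_const
  · exact continuous_id
  · exact continuous_const

theorem CTR_zero : upp (0 : k) = 1 ∧ low (0 : k) = 1 := by
  constructor
  · apply Subtype.ext
    unfold upp
    ext i j
    fin_cases i <;> fin_cases j <;> simp
  · apply Subtype.ext
    unfold low
    ext i j
    fin_cases i <;> fin_cases j <;> simp

theorem CTR_tend (L : LocF k) (t : k) :
    Filter.Tendsto (fun n : ℕ => (L.ϖ ^ n) ^ 2 * t) Filter.atTop (nhds 0) := by
  have h0 : ‖L.ϖ‖ < 1 := by
    rw [L.norm_ϖ]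
    exact inv_lt_one_of_one_lt₀ L.one_lt
  have h1 : Filter.Tendsto (fun n : ℕ => L.ϖ ^ n) Filter.atTop (nhds 0) :=
    tendsto_pow_atTop_nhds_zero_of_norm_lt_one h0
  have h2 := (h1.pow 2).mul_const t
  simpa using h2

/-- one factor -/
theorem CTR_one [IsUltrametricDist k] (h : Stmt_GEN) (L : LocF k) :
    Subgroup.closure (CTR_set (SL2 k)) = ⊤ := by
  have hl : ∀ n : ℕ, L.ϖ ^ n ≠ 0 := fun n => pow_ne_zero n L.ϖ_ne
  refine (h k L).1 _ ?_ ?_
  · intro t
    apply Subgroup.subset_closure
    refine ⟨fun n => dia _ (hl n), ?_⟩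
    have h1 := (CTR_cont_upp (k := k)).tendsto 0
    rw [CTR_zero.1] at h1
    exact (h1.comp (CTR_tend L t)).congr fun n => (CTR_upp _ (hl n) t).symm
  · intro t
    apply Subgroup.subset_closure
    refine ⟨fun n => dia _ (inv_ne_zero (hl n)), ?_⟩
    have h1 := (CTR_cont_low (k := k)).tendsto 0
    rw [CTR_zero.2] at h1
    exact (h1.comp (CTR_tend L t)).congr fun n => (CTR_low _ (hl n) t).symm

end

/-- CTR. -/
theorem p_CTR (hGEN : Stmt_GEN) : Stmt_CTR := by
  classical
  refine ⟨fun k _ _ L => ?_, fun ι _ k _ _ L => ?_⟩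
  · unfold Pool.TC.ContrGen
    have h1 := CTR_one hGEN L
    unfold CTR_set at h1
    rw [h1]
    exact dense_univ
  · unfold Pool.TC.ContrGen
    have h1 : Subgroup.closure (CTR_set (GG k)) = ⊤ := by
      rw [eq_top_iff]
      rintro x -
      apply Subgroup.pi_mem_of_mulSingle_mem
      intro l
      have h2 : Subgroup.closure (CTR_set (SL2 (k l))) ≤
          (Subgroup.closure (CTR_set (GG k))).comap
            (MonoidHom.mulSingle (fun l : ι => SL2 (k l)) l) := by
        rw [Subgroup.closure_le]
        rintro a ⟨b, hb⟩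
        rw [SetLike.mem_coe, Subgroup.mem_comap]
        apply Subgroup.subset_closure
        refine ⟨fun m => MonoidHom.mulSingle (fun l : ι => SL2 (k l)) l (b m), ?_⟩
        simp only [← map_mul, ← map_inv]
        have h3 : Continuous (fun y : SL2 (k l) =>
            (MonoidHom.mulSingle (fun l : ι => SL2 (k l)) l y : GG k)) :=
          continuous_mulSingle (A := fun l : ι => SL2 (k l)) l
        have h4 := h3.tendsto 1
        rw [map_one] at h4
        exact h4.comp hb
      rw [CTR_one hGEN (L l)] at h2
      exact h2 (Subgroup.mem_top (x l))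
    unfold CTR_set at h1
    rw [h1]
    exact dense_univ

end Pool.PL
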