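import Pool.Agent.Work.MP_972ac7_P.Interface1
import Pool.Agent.Work.MP_972ac7_C.Gap

/-! # THEOREM P, part I: block FIN -/

set_option autoImplicit false

open MeasureTheory

noncomputable section

namespace Pool.PL

open Pool.TFD Pool.TC

/-- the bijection of the quotients induced by an isomorphism -/
def FIN_q {G G' : Type} [Group G] [Group G'] [MeasurableSpace G] [MeasurableSpace G']
    (E : G ≃* G') (hE : Measurable E) (hE' : Measurable E.symm) (Γ : Subgroup G)
    (Γ' : Subgroup G') (h : ∀ x, E x ∈ Γ' ↔ x ∈ Γ) : G ⧸ Γ ≃ᵐ G' ⧸ Γ' where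
  toFun := Quotient.map' E (by
    intro a b hab
    rw [QuotientGroup.leftRel_apply] at hab ⊢
    have h1 := (h _).2 hab
    simpa using h1)
  invFun := Quotient.map' E.symm (by
    intro a b hab
    rw [QuotientGroup.leftRel_apply] at hab ⊢
    apply (h _).1
    simpa using hab)
  left_inv := by
    rintro ⟨x⟩
    change Quotient.mk'' (E.symm (E x)) = Quotient.mk'' x
    rw [E.symm_apply_apply]
  right_inv := by
    rintro ⟨x⟩
    change Quotient.mk'' (E (E.symm x)) = Quotient.mk'' x
    rw [E.apply_symm_apply]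
  measurable_toFun := by
    apply QuotientGroup.measurable_from_quotient.2
    exact QuotientGroup.measurable_coe.comp hE
  measurable_invFun := by
    apply QuotientGroup.measurable_from_quotient.2
    exact QuotientGroup.measurable_coe.comp hE'

section q

variable {G G' : Type} [Group G] [Group G'] [MeasurableSpace G] [MeasurableSpace G']
    (E : G ≃* G') (hE : Measurable E) (hE' : Measurable E.symm) (Γ : Subgroup G)
    (Γ' : Subgroup G') (h : ∀ x, E x ∈ Γ' ↔ x ∈ Γ)

theorem FIN_smul (g : G) (x : G ⧸ Γ) :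
    FIN_q E hE hE' Γ Γ' h (g • x) = E g • FIN_q E hE hE' Γ Γ' h x := by
  induction x using QuotientGroup.induction_on with
  | H x =>
    change ((E (g * x) : G') : G' ⧸ Γ') = ((E g * E x : G') : G' ⧸ Γ')
    rw [map_mul]

theorem FIN_inv (m : Measure (G ⧸ Γ)) (hinv : ∀ g : G, MeasurePreserving (fun x => g • x) m m)
    (hm : ∀ g' : G', Measurable fun x : G' ⧸ Γ' => g' • x) (g' : G') :
    MeasurePreserving (fun x : G' ⧸ Γ' => g' • x) (m.map (FIN_q E hE hE' Γ Γ' h))
      (m.map (FIN_q E hE hE' Γ Γ' h)) := by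
  refine ⟨hm g', ?_⟩
  rw [Measure.map_map (hm g') (MeasurableEquiv.measurable _)]
  have h1 : (fun x : G' ⧸ Γ' => g' • x) ∘ (FIN_q E hE hE' Γ Γ' h) =
      (FIN_q E hE hE' Γ Γ' h) ∘ (fun x : G ⧸ Γ => E.symm g' • x) := by
    funext x
    simp only [Function.comp_apply]
    rw [FIN_smul, E.apply_symm_apply]
  rw [h1, ← Measure.map_map (MeasurableEquiv.measurable _) (hinv _).measurable,
    (hinv _).map_eq]

end q

/-- measurability of the translations -/
theorem FIN_meas {G : Type} [Group G] [MeasurableSpace G] (Γ : Subgroup G)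
    (h : ∀ g : G, Measurable fun x : G => g * x) (g : G) :
    Measurable fun x : G ⧸ Γ => g • x := by
  apply QuotientGroup.measurable_from_quotient.2
  change Measurable fun x : G => ((g * x : G) : G ⧸ Γ)
  exact QuotientGroup.measurable_coe.comp (h g)

section split

variable {ι : Type} [DecidableEq ι] (k : ι → Type) [∀ i, NormedField (k i)] (P : ι)

theorem FIN_E1 (g : GG k) : (splitE k P g).1 = g P := rfl

theorem FIN_E2 (g : GG k) (i : {i : ι // i ≠ P}) : (splitE k P g).2 i = g i.1 := rfl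

theorem FIN_contE : Continuous (splitE k P) := by
  have h1 : Continuous fun g : GG k => (splitE k P g).1 := continuous_apply P
  have h2 : Continuous fun g : GG k => (splitE k P g).2 :=
    continuous_pi fun i => continuous_apply i.1
  exact h1.prodMk h2

theorem FIN_contE' : Continuous (splitE k P).symm := by
  exact (Homeomorph.piSplitAt P (fun i => SL2 (k i))).symm.continuous

theorem FIN_measE : Measurable (splitE k P) := by
  have h1 : Measurable fun g : GG k => (splitE k P g).1 := measurable_pi_apply P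
  have h2 : Measurable fun g : GG k => (splitE k P g).2 :=
    measurable_pi_lambda _ fun i => measurable_pi_apply i.1
  exact h1.prodMk h2

theorem FIN_measE' : Measurable (splitE k P).symm := by
  apply measurable_pi_lambda
  intro i
  by_cases hi : i = P
  · subst hi
    have h1 : (fun x : SL2 (k i) × GG (fun j : {j : ι // j ≠ i} => k j.1) =>
        (splitE k i).symm x i) = fun x => x.1 := by
      funext x
      have h2 := (splitE k i).apply_symm_apply x
      conv_rhs => rw [← h2]
      rfl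
    rw [h1]
    exact measurable_fst
  · have h1 : (fun x : SL2 (k P) × GG (fun j : {j : ι // j ≠ P} => k j.1) =>
        (splitE k P).symm x i) = fun x => x.2 ⟨i, hi⟩ := by
      funext x
      have h2 := (splitE k P).apply_symm_apply x
      conv_rhs => rw [← h2]
      rfl
    rw [h1]
    exact (measurable_pi_apply _).comp measurable_snd

end split

theorem p_FIN (hMEA : Stmt_MEA) (hSGP : Stmt_SGP) (hDNS : Stmt_DNS) (hCTR : Stmt_CTR)
    (hPTO : Stmt_PTO) (hTOP : Stmt_TOP) (hMEX : Stmt_MEX) : Stmt_FIN := by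
  intro ι _ _ k _ _ _ L Γ hι hΓ h2
  obtain ⟨W, P, hWP⟩ := hι.exists_pair_ne
  obtain ⟨hdisc, m, hm, hinv⟩ := hMEA ι k L Γ hι hΓ
  obtain ⟨M, hM1, hM2⟩ := hMEX (L W).q (L W).two_le
  obtain ⟨δ, hδ, hgap⟩ := hSGP ι k L Γ m hΓ hm hinv h2 W P hWP M hM1 hM2
  have hdns := hDNS ι k L Γ m hΓ hm hinv h2 P
  -- topology
  obtain ⟨a1, a2, a3, a4, a5⟩ := hTOP (k P) (L P)
  obtain ⟨b1, b2, b3, b4, b5, b6⟩ := hPTO {i : ι // i ≠ P} (fun i => k i.1) (fun i => L i.1)
  obtain ⟨c1, c2, c3, c4, c5, c6⟩ := hPTO ι k L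
  have hA : ContrGen (SL2 (k P)) := hCTR.1 (k P) (L P)
  have hB : ContrGen (GG fun i : {i : ι // i ≠ P} => k i.1) :=
    hCTR.2 {i : ι // i ≠ P} (fun i => k i.1) (fun i => L i.1)
  set E := splitE k P with hEdef
  have hEc : Continuous E := FIN_contE k P
  have hEc' : Continuous E.symm := FIN_contE' k P
  have hEm : Measurable E := FIN_measE k P
  have hEm' : Measurable E.symm := FIN_measE' k P
  let Γ' : Subgroup (SL2 (k P) × GG (fun i : {i : ι // i ≠ P} => k i.1)) :=
    Γ.map E.toMonoidHom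
  have hΓ' : ∀ x, E x ∈ Γ' ↔ x ∈ Γ := by
    intro x
    constructor
    · rintro ⟨y, hy, hyx⟩
      have : y = x := E.injective hyx
      rwa [← this]
    · intro hx
      exact ⟨x, hx, rfl⟩
  have hΓs : ∀ y ∈ Γ', E.symm y ∈ Γ := by
    intro y hy
    apply (hΓ' _).1
    rwa [E.apply_symm_apply]
  let Q := FIN_q E hEm hEm' Γ Γ' hΓ'
  let m' : Measure ((SL2 (k P) × GG (fun i : {i : ι // i ≠ P} => k i.1)) ⧸ Γ') := m.map Q
  have hQm : MeasurePreserving Q m m' := ⟨Q.measurable, rfl⟩
  have hm' : IsProbabilityMeasure m' := Measure.isProbabilityMeasure_map Q.measurable.aemeasurable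
  have hdisc' : DiscreteTopology Γ' := by
    have hc : Continuous fun y : Γ' => (⟨E.symm y.1, hΓs y.1 y.2⟩ : Γ) :=
      Continuous.subtype_mk (hEc'.comp continuous_subtype_val) _
    refine DiscreteTopology.of_continuous_injective hc ?_
    intro y z hyz
    apply Subtype.ext
    exact E.symm.injective (congrArg Subtype.val hyz)
  have hinv' : ∀ g : SL2 (k P) × GG (fun i : {i : ι // i ≠ P} => k i.1),
      MeasurePreserving (fun x => g • x) m' m' := by
    intro g
    refine FIN_inv E hEm hEm' Γ Γ' hΓ' m hinv ?_ g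
    intro g'
    apply FIN_meas
    intro g
    exact measurable_const_mul g
  have hdns' : Dense (Set.range fun γ : Γ' =>
      (γ : SL2 (k P) × GG (fun i : {i : ι // i ≠ P} => k i.1)).2) := by
    refine hdns.mono ?_
    rintro _ ⟨γ, rfl⟩
    exact ⟨⟨E γ, (hΓ' _).2 γ.2⟩, rfl⟩
  have hgap' : StrongGap Γ' m' := by
    refine ⟨(fun g : GG k => (E g).2) '' (KG L 0 : Set (GG k)) ∪ {(E (aW L W M)).2},
      ((c5 0).2.image (continuous_snd.comp hEc)).union isCompact_singleton, δ, hδ, ?_⟩
    intro φ hφ hφ0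
    have h3 : MemLp (φ ∘ Q) 2 m := hφ.comp_measurePreserving hQm
    have h4 : ∫ x, (φ ∘ Q) x ∂m = 0 := by
      rw [← hφ0]
      exact hQm.integral_comp' φ
    have hsq : sq m (φ ∘ Q) = ∫ x, ‖φ x‖ ^ 2 ∂m' := by
      unfold sq
      exact hQm.integral_comp' (fun x => ‖φ x‖ ^ 2)
    have key : ∀ κ : GG k, κ P = 1 → sq m (fun x => tr κ (φ ∘ Q) x - (φ ∘ Q) x) =
        ∫ x, ‖φ (((1, (E κ).2) : SL2 (k P) × GG (fun i : {i : ι // i ≠ P} => k i.1))⁻¹ • x) -
          φ x‖ ^ 2 ∂m' := by
      intro κ hκ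
      have h5 : ((1, (E κ).2) : SL2 (k P) × GG (fun i : {i : ι // i ≠ P} => k i.1)) = E κ := by
        apply Prod.ext
        · exact hκ.symm
        · rfl
      rw [h5]
      have h6 := hQm.integral_comp' (fun x => ‖φ ((E κ)⁻¹ • x) - φ x‖ ^ 2)
      rw [← h6]
      unfold sq
      congr 1
      funext x
      simp only [tr, Function.comp_apply]
      rw [FIN_smul, map_inv]
    rcases hgap (φ ∘ Q) h3 h4 with ⟨κ, hκ, hκP, hle⟩ | hle
    · refine ⟨(E κ).2, Or.inl ⟨κ, hκ, rfl⟩, ?_⟩
      rw [← key κ hκP, ← hsq]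
      exact hle
    · refine ⟨(E (aW L W M)).2, Or.inr rfl, ?_⟩
      have haP : aW L W M P = 1 := by
        unfold aW
        exact Pi.mulSingle_eq_of_ne hWP.symm _
      rw [← key _ haP, ← hsq]
      exact hle
  let e : Γ ≃* Γ' := MulEquiv.subgroupMap E Γ
  have h := allC _ _ Γ' m' hdisc' hm' hinv' hdns' hA hB hgap' Γ ⊤
    (e.symm.toMonoidHom.comp (⊤ : Subgroup Γ').subtype) inferInstance (by
      have : (e.symm.toMonoidHom.comp (⊤ : Subgroup Γ').subtype).range = ⊤ := by
        rw [MonoidHom.range_eq_top]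
        intro γ
        exact ⟨⟨e γ, trivial⟩, e.symm_apply_apply γ⟩
      rw [this]
      infer_instance)
  exact h.1

end Pool.PL
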