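import Pool.Agent.Work.MP_972ac7_P.Interface1

set_option autoImplicit false

/-! # THEOREM P, part I: block GEN, generation (helper98) -/

noncomputable section

namespace Pool.PL

section GEN

variable {k : Type} [NormedField k]

/-- small multiples -/
theorem GEN_small (L : LocF k) (x : k) (r : ℕ) :
    ∃ n : ℕ, ∀ m : ℕ, n ≤ m → ‖L.ϖ ^ m * x‖ ≤ ((L.q : ℝ) ^ r)⁻¹ := by
  have hq : (1 : ℝ) < L.q := L.one_lt
  have hq0 : (0 : ℝ) < L.q := L.q_pos
  have h1 : (L.q : ℝ)⁻¹ < 1 := inv_lt_one_of_one_lt₀ hq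
  have h2 : (0 : ℝ) < ((L.q : ℝ) ^ r)⁻¹ / (‖x‖ + 1) := by positivity
  obtain ⟨n, hn⟩ := exists_pow_lt_of_lt_one h2 h1
  refine ⟨n, fun m hm => ?_⟩
  rw [norm_mul, norm_pow, L.norm_ϖ]
  have h3 : ((L.q : ℝ)⁻¹) ^ m ≤ ((L.q : ℝ)⁻¹) ^ n :=
    pow_le_pow_of_le_one (by positivity) h1.le hm
  have h4 : ((L.q : ℝ)⁻¹) ^ m ≤ ((L.q : ℝ) ^ r)⁻¹ / (‖x‖ + 1) := h3.trans hn.le
  have h5 : ((L.q : ℝ)⁻¹) ^ m * ‖x‖ ≤ ((L.q : ℝ)⁻¹) ^ m * (‖x‖ + 1) :=
    mul_le_mul_of_nonneg_left (by linarith) (by positivity)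
  refine h5.trans ?_
  rw [le_div_iff₀ (by positivity)] at h4
  exact h4

theorem GEN_conj_upp (t y : k) (ht : t ≠ 0) :
    dia t ht * upp y * (dia t ht)⁻¹ = upp (t ^ 2 * y) := by
  rw [mul_inv_eq_iff_eq_mul]
  ext i j
  rw [Matrix.SpecialLinearGroup.coe_mul, Matrix.SpecialLinearGroup.coe_mul]
  fin_cases i <;> fin_cases j
  · simp [dia, upp, Matrix.mul_apply, Fin.sum_univ_two]
  · simp only [dia, upp, Matrix.mul_apply, Fin.sum_univ_two]
    simp
    field_simp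
  · simp [dia, upp, Matrix.mul_apply, Fin.sum_univ_two]
  · simp [dia, upp, Matrix.mul_apply, Fin.sum_univ_two]

theorem GEN_conj_low (t y : k) (ht : t ≠ 0) :
    (dia t ht)⁻¹ * low y * dia t ht = low (t ^ 2 * y) := by
  rw [mul_assoc, inv_mul_eq_iff_eq_mul]
  ext i j
  rw [Matrix.SpecialLinearGroup.coe_mul, Matrix.SpecialLinearGroup.coe_mul]
  fin_cases i <;> fin_cases j
  · simp [dia, low, Matrix.mul_apply, Fin.sum_univ_two]
  · simp [dia, low, Matrix.mul_apply, Fin.sum_univ_two]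
  · simp only [dia, low, Matrix.mul_apply, Fin.sum_univ_two]
    simp
    field_simp
  · simp [dia, low, Matrix.mul_apply, Fin.sum_univ_two]

theorem GEN_upp_mem [IsUltrametricDist k] (L : LocF k) (r : ℕ) (y : k)
    (hy : ‖y‖ ≤ ((L.q : ℝ) ^ r)⁻¹) : upp y ∈ KK L r := by
  have hq1 : ((L.q : ℝ) ^ r)⁻¹ ≤ 1 :=
    inv_le_one_of_one_le₀ (one_le_pow₀ L.one_lt.le)
  rw [mem_KK]
  unfold nm dnm
  rw [mnm_le, mnm_le]
  have h0 : (0 : ℝ) ≤ ((L.q : ℝ) ^ r)⁻¹ := by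
    have := L.q_pos
    positivity
  constructor
  · intro i j
    fin_cases i <;> fin_cases j <;> simp [upp]
    exact hy.trans hq1
  · intro i j
    fin_cases i <;> fin_cases j <;> simp [upp, h0]
    exact hy

theorem GEN_low_mem [IsUltrametricDist k] (L : LocF k) (r : ℕ) (y : k)
    (hy : ‖y‖ ≤ ((L.q : ℝ) ^ r)⁻¹) : low y ∈ KK L r := by
  have hq1 : ((L.q : ℝ) ^ r)⁻¹ ≤ 1 :=
    inv_le_one_of_one_le₀ (one_le_pow₀ L.one_lt.le)
  rw [mem_KK]
  unfold nm dnm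
  rw [mnm_le, mnm_le]
  have h0 : (0 : ℝ) ≤ ((L.q : ℝ) ^ r)⁻¹ := by
    have := L.q_pos
    positivity
  constructor
  · intro i j
    fin_cases i <;> fin_cases j <;> simp [low]
    exact hy.trans hq1
  · intro i j
    fin_cases i <;> fin_cases j <;> simp [low, h0]
    exact hy

/-- Gauss elimination, lower left entry not zero -/
theorem GEN_gauss0 (H : Subgroup (SL2 k)) (hu : ∀ x, upp x ∈ H) (hl : ∀ x, low x ∈ H)
    (g : SL2 k) (hc : (g : Matrix (Fin 2) (Fin 2) k) 1 0 ≠ 0) : g ∈ H := by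
  obtain ⟨a, ha⟩ : ∃ a, a = (g : Matrix (Fin 2) (Fin 2) k) 0 0 := ⟨_, rfl⟩
  obtain ⟨b, hb⟩ : ∃ b, b = (g : Matrix (Fin 2) (Fin 2) k) 0 1 := ⟨_, rfl⟩
  obtain ⟨c, hc'⟩ : ∃ c, c = (g : Matrix (Fin 2) (Fin 2) k) 1 0 := ⟨_, rfl⟩
  obtain ⟨d, hd⟩ : ∃ d, d = (g : Matrix (Fin 2) (Fin 2) k) 1 1 := ⟨_, rfl⟩
  have hdet : a * d - b * c = 1 := by
    have h1 := g.2
    rw [Matrix.det_fin_two] at h1
    rw [ha, hb, hc', hd]
    exact h1
  rw [← hc'] at hc
  have h2 : g = upp ((a - 1) / c) * low c * upp ((d - 1) / c) := by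
    ext i j
    rw [Matrix.SpecialLinearGroup.coe_mul, Matrix.SpecialLinearGroup.coe_mul]
    fin_cases i <;> fin_cases j
    · simp [upp, low, Matrix.mul_apply, Fin.sum_univ_two, ← ha]
      field_simp
      ring
    · simp [upp, low, Matrix.mul_apply, Fin.sum_univ_two, ← hb]
      field_simp
      linear_combination -hdet
    · simp [upp, low, Matrix.mul_apply, Fin.sum_univ_two, ← hc']
    · simp [upp, low, Matrix.mul_apply, Fin.sum_univ_two, ← hd]
      field_simp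
      ring
  rw [h2]
  exact H.mul_mem (H.mul_mem (hu _) (hl _)) (hu _)

theorem GEN_gauss (H : Subgroup (SL2 k)) (hu : ∀ x, upp x ∈ H) (hl : ∀ x, low x ∈ H) : H = ⊤ := by
  rw [Subgroup.eq_top_iff']
  intro g
  by_cases hc : (g : Matrix (Fin 2) (Fin 2) k) 1 0 = 0
  · have hd : (g : Matrix (Fin 2) (Fin 2) k) 1 1 ≠ 0 := by
      intro hd
      have h1 := g.2
      rw [Matrix.det_fin_two, hc, hd, mul_zero, mul_zero, sub_zero] at h1
      exact zero_ne_one h1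
    have h2 : g * low 1 ∈ H := by
      apply GEN_gauss0 H hu hl
      rw [Matrix.SpecialLinearGroup.coe_mul]
      simp [low, Matrix.mul_apply, Fin.sum_univ_two, hc, hd]
    have h3 : g = g * low 1 * (low 1)⁻¹ := by group
    rw [h3]
    exact H.mul_mem h2 (H.inv_mem (hl 1))
  · exact GEN_gauss0 H hu hl g hc

end GEN

theorem p_GEN : Stmt_GEN := by
  intro k _ _ L
  refine ⟨GEN_gauss, ?_, ?_⟩
  · intro H r hH
    apply GEN_gauss
    · intro x
      obtain ⟨n, hn⟩ := GEN_small L x r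
      have h1 : upp (L.ϖ ^ (2 * n) * x) ∈ KK L r := GEN_upp_mem L r _ (hn _ (by omega))
      have h2 := hH (dia (L.ϖ ^ n)⁻¹ (inv_ne_zero (pow_ne_zero _ L.ϖ_ne))) _ h1
      rw [GEN_conj_upp] at h2
      have h3 : ((L.ϖ ^ n)⁻¹) ^ 2 * (L.ϖ ^ (2 * n) * x) = x := by
        have := L.ϖ_ne
        rw [pow_mul']
        field_simp
      rwa [h3] at h2
    · intro x
      obtain ⟨n, hn⟩ := GEN_small L x r
      have h1 : low (L.ϖ ^ (2 * n) * x) ∈ KK L r := GEN_low_mem L r _ (hn _ (by omega))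
      have h2 := hH (dia (L.ϖ ^ n)⁻¹ (inv_ne_zero (pow_ne_zero _ L.ϖ_ne)))⁻¹ _ h1
      rw [inv_inv, GEN_conj_low] at h2
      have h3 : ((L.ϖ ^ n)⁻¹) ^ 2 * (L.ϖ ^ (2 * n) * x) = x := by
        have := L.ϖ_ne
        rw [pow_mul']
        field_simp
      rwa [h3] at h2
  · intro H M hM hK ha
    have hϖ := L.ϖ_ne
    have hup : ∀ (n : ℕ) (y : k), upp y ∈ H → upp ((((L.ϖ ^ M)⁻¹) ^ 2) ^ n * y) ∈ H := by
      intro n
      induction n with
      | zero => intro y hy; simpa using hy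
      | succ n ih =>
        intro y hy
        have h1 := ih y hy
        have h2 := H.mul_mem (H.mul_mem ha h1) (H.inv_mem ha)
        unfold aa at h2
        rw [GEN_conj_upp, ← mul_assoc, ← pow_succ'] at h2
        exact h2
    have hlo : ∀ (n : ℕ) (y : k), low y ∈ H → low ((((L.ϖ ^ M)⁻¹) ^ 2) ^ n * y) ∈ H := by
      intro n
      induction n with
      | zero => intro y hy; simpa using hy
      | succ n ih =>
        intro y hy
        have h1 := ih y hy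
        have h2 := H.mul_mem (H.mul_mem (H.inv_mem ha) h1) ha
        unfold aa at h2
        rw [GEN_conj_low, ← mul_assoc, ← pow_succ'] at h2
        exact h2
    have hex : ∀ x : k, ∃ (n : ℕ) (y : k), ‖y‖ ≤ ((L.q : ℝ) ^ 0)⁻¹ ∧
        (((L.ϖ ^ M)⁻¹) ^ 2) ^ n * y = x := by
      intro x
      obtain ⟨n, hn⟩ := GEN_small L x 0
      refine ⟨n, L.ϖ ^ (M * 2 * n) * x, hn _ ?_, ?_⟩
      · nlinarith
      · rw [pow_mul, pow_mul, ← mul_assoc, ← mul_pow, ← mul_pow,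
          inv_mul_cancel₀ (pow_ne_zero _ hϖ), one_pow, one_pow, one_mul]
    apply GEN_gauss
    · intro x
      obtain ⟨n, y, hy, rfl⟩ := hex x
      exact hup n y (hK (GEN_upp_mem L 0 y hy))
    · intro x
      obtain ⟨n, y, hy, rfl⟩ := hex x
      exact hlo n y (hK (GEN_low_mem L 0 y hy))

end Pool.PL
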