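import Pool.Agent.Work.MP_972ac7_P.Interface2

set_option autoImplicit false

/-! # Block ADC: the completions are local fields (helper10) -/

open NumberField IsDedekindDomain MeasureTheory

noncomputable section

namespace Pool.PL

section ADC

variable (F : Type) [Field F] [NumberField F] (w : HeightOneSpectrum (𝓞 F))

theorem ADC_norm (x : F) : ‖(algebraMap F (w.adicCompletion F) x)‖ = av w x :=
  NumberField.FinitePlace.norm_embedding w x

theorem ADC_sub (x y : w.adicCompletion F) : ‖x - y‖ ≤ max ‖x‖ ‖y‖ := by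
  have hu : IsUltrametricDist (w.adicCompletion F) := inferInstance
  rw [sub_eq_add_neg, ← norm_neg y]
  exact IsUltrametricDist.norm_add_le_max _ _

theorem ADC_q : 1 < Ideal.absNorm w.asIdeal := NumberField.HeightOneSpectrum.one_lt_absNorm w

/-- the norms are powers of `q` -/
theorem ADC_pow (x : w.adicCompletion F) (hx : x ≠ 0) :
    ∃ n : ℤ, ‖x‖ = (Ideal.absNorm w.asIdeal : ℝ) ^ n := by
  have h1 : Valued.v x ≠ (0 : WithZero (Multiplicative ℤ)) :=
    (Valuation.ne_zero_iff _).2 hx
  refine ⟨Multiplicative.toAdd (WithZero.unzero h1), ?_⟩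
  rw [NumberField.FinitePlace.norm_def, WithZeroMulInt.toNNReal_neg_apply _ h1]
  push_cast
  rfl

theorem ADC_unif : ∃ π : w.adicCompletion F, ‖π‖ = (Ideal.absNorm w.asIdeal : ℝ)⁻¹ := by
  obtain ⟨π, hπ⟩ := w.valuation_exists_uniformizer F
  refine ⟨algebraMap F (w.adicCompletion F) π, ?_⟩
  rw [ADC_norm]
  unfold av
  rw [NumberField.HeightOneSpectrum.adicAbv_def, hπ,
    WithZeroMulInt.toNNReal_neg_apply _ WithZero.exp_ne_zero]
  push_cast
  rw [← zpow_neg_one]
  rfl

/-- elements of norm at most 1 are congruent to integers -/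
theorem ADC_dense (x : w.adicCompletion F) (hx : ‖x‖ ≤ 1) :
    ∃ a : 𝓞 F, ‖x - algebraMap (𝓞 F) (w.adicCompletion F) a‖ < 1 := by
  obtain ⟨y, hy⟩ := (HeightOneSpectrum.denseRange_algebraMap (R := 𝓞 F) F w).exists_dist_lt x
    one_pos
  rw [dist_eq_norm] at hy
  have hu : IsUltrametricDist (w.adicCompletion F) := inferInstance
  have hy1 : ‖algebraMap F (w.adicCompletion F) y‖ ≤ 1 := by
    have e : algebraMap F (w.adicCompletion F) y =
        x - (x - algebraMap F (w.adicCompletion F) y) := by ring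
    rw [e]
    exact (ADC_sub F w _ _).trans (max_le hx hy.le)
  have hy2 : w.valuation F y ≤ 1 := by
    rw [NumberField.FinitePlace.norm_def] at hy1
    have h1 : WithZeroMulInt.toNNReal (NumberField.HeightOneSpectrum.absNorm_ne_zero w)
        (Valued.v (algebraMap F (w.adicCompletion F) y)) ≤ 1 := by exact_mod_cast hy1
    rw [WithZeroMulInt.toNNReal_le_one_iff
      (NumberField.HeightOneSpectrum.one_lt_absNorm_nnreal w)] at h1
    have h2 := HeightOneSpectrum.valuedAdicCompletion_eq_valuation' w y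
    rw [← h2]
    exact h1
  obtain ⟨a, ha⟩ := HeightOneSpectrum.exists_valuation_sub_lt_of_integer w hy2 1
  refine ⟨a, ?_⟩
  have h3 : ‖algebraMap F (w.adicCompletion F) ((a : F) - y)‖ < 1 := by
    rw [ADC_norm]
    unfold av
    rw [NumberField.HeightOneSpectrum.adicAbv_def]
    have h4 : WithZeroMulInt.toNNReal (NumberField.HeightOneSpectrum.absNorm_ne_zero w)
        (w.valuation F ((a : F) - y)) < 1 := by
      rw [WithZeroMulInt.toNNReal_lt_one_iff
        (NumberField.HeightOneSpectrum.one_lt_absNorm_nnreal w)]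
      exact ha
    exact_mod_cast h4
  rw [map_sub] at h3
  have e : x - algebraMap (𝓞 F) (w.adicCompletion F) a =
      (x - algebraMap F (w.adicCompletion F) y) -
        (algebraMap F (w.adicCompletion F) (a : F) - algebraMap F (w.adicCompletion F) y) := by
    have : algebraMap (𝓞 F) (w.adicCompletion F) a =
      algebraMap F (w.adicCompletion F) (a : F) := rfl
    rw [this]
    ring
  rw [e]
  exact (ADC_sub F w _ _).trans_lt (max_lt hy h3)

theorem ADC_int_lt (a : 𝓞 F) :
    ‖algebraMap (𝓞 F) (w.adicCompletion F) a‖ < 1 ↔ a ∈ w.asIdeal :=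
  NumberField.FinitePlace.norm_lt_one_iff_mem F w a

theorem ADC_int_le (a : 𝓞 F) : ‖algebraMap (𝓞 F) (w.adicCompletion F) a‖ ≤ 1 :=
  NumberField.FinitePlace.norm_le_one F w a

/-- representatives of the residue field -/
theorem ADC_rep : ∃ r : Fin (Ideal.absNorm w.asIdeal) → w.adicCompletion F,
    (∀ i, ‖r i‖ ≤ 1) ∧ (∀ i j, ‖r i - r j‖ < 1 → i = j) ∧
      ∀ x : w.adicCompletion F, ‖x‖ ≤ 1 → ∃ i, ‖x - r i‖ < 1 := by
  have hcard : Nat.card (𝓞 F ⧸ w.asIdeal) = Ideal.absNorm w.asIdeal := by
    rw [Ideal.absNorm_apply, Submodule.cardQuot_apply]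
  have hfin : Finite (𝓞 F ⧸ w.asIdeal) := by
    apply Nat.finite_of_card_ne_zero
    rw [hcard]
    have := ADC_q F w
    omega
  have E : (𝓞 F ⧸ w.asIdeal) ≃ Fin (Ideal.absNorm w.asIdeal) := Finite.equivFinOfCardEq hcard
  have hs : ∀ i, ∃ a : 𝓞 F, Ideal.Quotient.mk w.asIdeal a = E.symm i := fun i =>
    Ideal.Quotient.mk_surjective _
  choose a ha using hs
  refine ⟨fun i => algebraMap (𝓞 F) (w.adicCompletion F) (a i), fun i => ADC_int_le F w _, ?_, ?_⟩
  · intro i j h
    rw [← map_sub, ADC_int_lt, ← Ideal.Quotient.eq, ha, ha] at h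
    exact E.symm.injective h
  · intro x hx
    obtain ⟨b, hb⟩ := ADC_dense F w x hx
    refine ⟨E (Ideal.Quotient.mk w.asIdeal b), ?_⟩
    have h1 : ‖algebraMap (𝓞 F) (w.adicCompletion F) b -
        algebraMap (𝓞 F) (w.adicCompletion F) (a (E (Ideal.Quotient.mk w.asIdeal b)))‖ < 1 := by
      rw [← map_sub, ADC_int_lt, ← Ideal.Quotient.eq, ha, Equiv.symm_apply_apply]
    have hu : IsUltrametricDist (w.adicCompletion F) := inferInstance
    have e : x - algebraMap (𝓞 F) (w.adicCompletion F) (a (E (Ideal.Quotient.mk w.asIdeal b))) =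
        (x - algebraMap (𝓞 F) (w.adicCompletion F) b) +
          (algebraMap (𝓞 F) (w.adicCompletion F) b - algebraMap (𝓞 F) (w.adicCompletion F)
            (a (E (Ideal.Quotient.mk w.asIdeal b)))) := by ring
    rw [e]
    exact (IsUltrametricDist.norm_add_le_max _ _).trans_lt (max_lt hb h1)

open Valued in
theorem ADC_proper : ProperSpace (w.adicCompletion F) := by
  obtain ⟨r, hr1, hr2, hr3⟩ := ADC_rep F w
  have hmem : ∀ x : w.adicCompletion F, x ∈ 𝒪[w.adicCompletion F] ↔ ‖x‖ ≤ 1 := by
    intro x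
    exact (Valued.toNormedField.norm_le_one_iff (L := w.adicCompletion F)).symm
  have hfin : Finite 𝓀[w.adicCompletion F] := by
    apply Finite.of_surjective (fun i => IsLocalRing.residue 𝒪[w.adicCompletion F]
      ⟨r i, (hmem _).2 (hr1 i)⟩)
    intro z
    obtain ⟨x, rfl⟩ := IsLocalRing.residue_surjective z
    obtain ⟨i, hi⟩ := hr3 x.1 ((hmem _).1 x.2)
    refine ⟨i, ?_⟩
    rw [← sub_eq_zero, ← map_sub, IsLocalRing.residue_eq_zero_iff,
      IsLocalRing.mem_maximalIdeal, mem_nonunits_iff]
    intro hun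
    have h1 := (Valuation.integer.integers (Valued.v (R := w.adicCompletion F))).one_of_isUnit hun
    rw [norm_sub_rev] at hi
    have h2 : Valued.v ((r i) - x.1) < 1 :=
      (Valued.toNormedField.norm_lt_one_iff (L := w.adicCompletion F)).1 hi
    exact absurd h1 h2.ne
  exact (Valued.integer.properSpace_iff_completeSpace_and_isDiscreteValuationRing_integer_and_finite_residueField
    (K := w.adicCompletion F)).2 ⟨inferInstance,
      inferInstanceAs (IsDiscreteValuationRing (w.adicCompletionIntegers F)), hfin⟩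

end ADC

theorem p_ADC : Stmt_ADC := by
  intro F _ _ w
  refine ⟨inferInstance, ADC_proper F w, ?_, ADC_norm F w, fun x => rfl, ?_⟩
  · have h : CharZero (w.adicCompletion F) :=
      charZero_of_injective_algebraMap (algebraMap F (w.adicCompletion F)).injective
    exact two_ne_zero
  · obtain ⟨π, hπ⟩ := ADC_unif F w
    obtain ⟨r, hr1, hr2, hr3⟩ := ADC_rep F w
    exact ⟨{ q := Ideal.absNorm w.asIdeal
             two_le := ADC_q F w
             ϖ := π
             norm_ϖ := hπ
             disc := ADC_pow F w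
             rep := r
             rep_le := hr1
             rep_inj := hr2
             rep_surj := hr3 }, rfl⟩

end Pool.PL
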