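import Pool.Agent.Work.MP_972ac7_P.Interface1

set_option autoImplicit false

/-! # THEOREM P, block RES: residues modulo a power of the uniformizer -/

open MeasureTheory

noncomputable section

namespace Pool.PL

open Pool.TFD Pool.TC

theorem RES_lt {k : Type} [NormedField k] (L : LocF k) {x : k} (hx : ‖x‖ < 1) :
    ‖x‖ ≤ (L.q : ℝ)⁻¹ := by
  by_cases h0 : x = 0
  · rw [h0, norm_zero]
    exact inv_nonneg.2 L.q_pos.le
  · obtain ⟨n, hn⟩ := L.disc x h0
    rw [hn] at hx ⊢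
    have h1 : n < 0 := by
      by_contra hcon
      push Not at hcon
      exact absurd hx (not_lt.2 (one_le_zpow₀ L.one_lt.le hcon))
    have h2 : n ≤ -1 := by omega
    calc (L.q : ℝ) ^ n ≤ (L.q : ℝ) ^ (-1 : ℤ) := zpow_le_zpow_right₀ L.one_lt.le h2
      _ = (L.q : ℝ)⁻¹ := zpow_neg_one _

theorem RES_inv_lt {k : Type} [NormedField k] (L : LocF k) : (L.q : ℝ)⁻¹ < 1 :=
  inv_lt_one_of_one_lt₀ L.one_lt

theorem p_RES : Stmt_RES := by
  intro k _ _ L r
  have hq := L.q_pos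
  induction r with
  | zero =>
    refine ⟨fun _ => 0, ?_, ?_, ?_⟩
    · intro i
      rw [norm_zero]
      exact zero_le_one
    · intro i j _
      have h0 : L.q ^ 0 = 1 := pow_zero _
      have hi : (i : ℕ) < 1 := lt_of_lt_of_eq i.2 h0
      have hj : (j : ℕ) < 1 := lt_of_lt_of_eq j.2 h0
      apply Fin.ext
      omega
    · intro x hx
      refine ⟨⟨0, by rw [pow_zero]; exact Nat.one_pos⟩, ?_⟩
      rw [sub_zero, pow_zero, inv_one]
      exact hx
  | succ r ih =>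
    obtain ⟨R, hR1, hR2, hR3⟩ := ih
    let e : Fin (L.q ^ (r + 1)) ≃ Fin L.q × Fin (L.q ^ r) :=
      (finCongr (pow_succ' L.q r)).trans finProdFinEquiv.symm
    have hpow : ((L.q : ℝ) ^ (r + 1))⁻¹ = (L.q : ℝ)⁻¹ * ((L.q : ℝ) ^ r)⁻¹ := by
      rw [pow_succ', mul_inv]
    have hle : ((L.q : ℝ) ^ r)⁻¹ ≤ 1 := inv_le_one_of_one_le₀ (one_le_pow₀ L.one_lt.le)
    refine ⟨fun i => L.rep (e i).1 + L.ϖ * R (e i).2, ?_, ?_, ?_⟩
    · intro i
      refine (IsUltrametricDist.norm_add_le_max _ _).trans (max_le (L.rep_le _) ?_)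
      rw [norm_mul, L.norm_ϖ]
      exact mul_le_one₀ (RES_inv_lt L).le (norm_nonneg _) (hR1 _)
    · intro i j hij
      have h1 : ‖L.rep (e i).1 - L.rep (e j).1‖ < 1 := by
        have e1 : L.rep (e i).1 - L.rep (e j).1 =
            (L.rep (e i).1 + L.ϖ * R (e i).2 - (L.rep (e j).1 + L.ϖ * R (e j).2)) +
            L.ϖ * (R (e j).2 - R (e i).2) := by ring
        rw [e1]
        refine lt_of_le_of_lt (IsUltrametricDist.norm_add_le_max _ _) (max_lt ?_ ?_)
        · refine lt_of_le_of_lt hij ?_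
          rw [hpow]
          calc (L.q : ℝ)⁻¹ * ((L.q : ℝ) ^ r)⁻¹ ≤ (L.q : ℝ)⁻¹ * 1 :=
                mul_le_mul_of_nonneg_left hle (inv_nonneg.2 hq.le)
            _ < 1 := by rw [mul_one]; exact RES_inv_lt L
        · rw [norm_mul, L.norm_ϖ]
          have h2 : ‖R (e j).2 - R (e i).2‖ ≤ 1 := by
            rw [sub_eq_add_neg]
            refine (IsUltrametricDist.norm_add_le_max _ _).trans (max_le (hR1 _) ?_)
            rw [norm_neg]
            exact hR1 _
          calc (L.q : ℝ)⁻¹ * ‖R (e j).2 - R (e i).2‖ ≤ (L.q : ℝ)⁻¹ * 1 :=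
                mul_le_mul_of_nonneg_left h2 (inv_nonneg.2 hq.le)
            _ < 1 := by rw [mul_one]; exact RES_inv_lt L
      have h3 : (e i).1 = (e j).1 := L.rep_inj _ _ h1
      have h4 : ‖R (e i).2 - R (e j).2‖ ≤ ((L.q : ℝ) ^ r)⁻¹ := by
        have e2 : L.rep (e i).1 + L.ϖ * R (e i).2 - (L.rep (e j).1 + L.ϖ * R (e j).2) =
            L.ϖ * (R (e i).2 - R (e j).2) := by rw [h3]; ring
        rw [e2, norm_mul, L.norm_ϖ, hpow] at hij
        exact le_of_mul_le_mul_left hij (inv_pos.2 hq)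
      have h5 : (e i).2 = (e j).2 := hR2 _ _ h4
      exact e.injective (Prod.ext h3 h5)
    · intro x hx
      obtain ⟨a, ha⟩ := L.rep_surj x hx
      have h1 := RES_lt L ha
      have h2 : ‖(x - L.rep a) / L.ϖ‖ ≤ 1 := by
        rw [norm_div, L.norm_ϖ, div_inv_eq_mul]
        calc ‖x - L.rep a‖ * (L.q : ℝ) ≤ (L.q : ℝ)⁻¹ * L.q :=
              mul_le_mul_of_nonneg_right h1 hq.le
          _ = 1 := inv_mul_cancel₀ hq.ne'
      obtain ⟨j, hj⟩ := hR3 _ h2
      refine ⟨e.symm (a, j), ?_⟩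
      simp only [Equiv.apply_symm_apply]
      have e3 : x - (L.rep a + L.ϖ * R j) = L.ϖ * ((x - L.rep a) / L.ϖ - R j) := by
        have := L.ϖ_ne
        field_simp
        ring
      rw [e3, norm_mul, L.norm_ϖ, hpow]
      exact mul_le_mul_of_nonneg_left hj (inv_nonneg.2 hq.le)

end Pool.PL
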