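import Pool.Agent.Work.MP_972ac7_P.Interface2

set_option autoImplicit false

/-! # THEOREM P, block VPW -/

open NumberField IsDedekindDomain
open scoped Quaternion

noncomputable section

namespace Pool.PL

theorem VPW_gen {F : Type} [Field F] [NumberField F] (W : HeightOneSpectrum (𝓞 F)) :
    ∃ (h : ℕ) (p : 𝓞 F), 1 ≤ h ∧ p ≠ 0 ∧ Ideal.span {p} = W.asIdeal ^ h := by
  have hW : W.asIdeal ∈ nonZeroDivisors (Ideal (𝓞 F)) :=
    mem_nonZeroDivisors_of_ne_zero W.ne_bot
  set h := Fintype.card (ClassGroup (𝓞 F)) with hh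
  have h1 : (ClassGroup.mk0 ⟨W.asIdeal, hW⟩) ^ h = 1 := pow_card_eq_one
  have h2 : W.asIdeal ^ h ∈ nonZeroDivisors (Ideal (𝓞 F)) := pow_mem hW h
  have h3 : ClassGroup.mk0 ⟨W.asIdeal ^ h, h2⟩ = 1 := by
    rw [← h1, ← map_pow]
    rfl
  rw [ClassGroup.mk0_eq_one_iff] at h3
  obtain ⟨p, hp⟩ := h3.principal
  refine ⟨h, p, Fintype.card_pos, ?_, hp.symm⟩
  rintro rfl
  have h4 : W.asIdeal ^ h = ⊥ := by
    rw [hp]
    exact Ideal.span_singleton_eq_bot.2 rfl
  exact pow_ne_zero h W.ne_bot h4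

theorem VPW_val {F : Type} [Field F] [NumberField F] (W : HeightOneSpectrum (𝓞 F)) (h : ℕ)
    (p : 𝓞 F) (hp : Ideal.span {p} = W.asIdeal ^ h) :
    W.intValuation p = WithZero.exp (-(h : ℤ)) := by
  refine le_antisymm ?_ ?_
  · rw [HeightOneSpectrum.intValuation_le_pow_iff_dvd, hp]
  · by_contra hlt
    rw [not_le] at hlt
    have h1 : W.intValuation p ≤ WithZero.exp (-((h + 1 : ℕ) : ℤ)) := by
      rcases eq_or_ne (W.intValuation p) 0 with h0 | h0
      · rw [h0]
        exact zero_le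
      · obtain ⟨a, ha⟩ : ∃ a : ℤ, W.intValuation p = WithZero.exp a :=
          ⟨WithZero.log (W.intValuation p), (WithZero.exp_log h0).symm⟩
        rw [ha] at hlt ⊢
        rw [WithZero.exp_lt_exp] at hlt
        rw [WithZero.exp_le_exp]
        push_cast
        omega
    rw [HeightOneSpectrum.intValuation_le_pow_iff_dvd, hp] at h1
    have h2 := (pow_dvd_pow_iff (W.ne_bot) (fun hu => W.isPrime.ne_top
      (Ideal.isUnit_iff.1 hu))).1 h1
    omega

theorem p_VPW : Stmt_VPW := by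
  intro F _ _ hTR W
  obtain ⟨h, p, hh, hp0, hp⟩ := VPW_gen W
  refine ⟨h, p, hh, hp0, ?_, ?_, ?_⟩
  · unfold av
    rw [HeightOneSpectrum.adicAbv_def]
    have e1 : W.valuation F (p : F) = WithZero.exp (-(h : ℤ)) := by
      rw [← VPW_val W h p hp]
      exact HeightOneSpectrum.valuation_of_algebraMap W p
    rw [e1]
    have e2 : (WithZero.exp (-(h : ℤ)) : WithZero (Multiplicative ℤ)) ≠ 0 := WithZero.exp_ne_zero
    rw [WithZeroMulInt.toNNReal_neg_apply _ e2]
    have e3 : (WithZero.unzero e2).toAdd = -(h : ℤ) := by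
      rfl
    rw [e3]
    push_cast
    rw [zpow_neg, zpow_natCast]
  · intro w hw
    rw [av_int_eq_one_iff]
    intro hpw
    have h1 : W.asIdeal ^ h ≤ w.asIdeal := by
      rw [← hp, Ideal.span_singleton_le_iff_mem]
      exact hpw
    have h2 : W.asIdeal ≤ w.asIdeal := w.isPrime.le_of_pow_le h1
    have h3 : W.asIdeal = w.asIdeal := W.isMaximal.eq_of_le w.isPrime.ne_top h2
    exact hw (HeightOneSpectrum.ext h3.symm)
  · rw [← hTR.norm]
    have e1 : Ideal.absNorm (Ideal.span {p}) = (Algebra.norm ℤ p).natAbs :=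
      Ideal.absNorm_span_singleton p
    rw [hp, map_pow] at e1
    have e2 : Algebra.norm ℚ (p : F) = ((Algebra.norm ℤ p : ℤ) : ℚ) :=
      (Algebra.coe_norm_int p).symm
    rw [e2]
    have e3 : |(((Algebra.norm ℤ p : ℤ) : ℚ) : ℝ)| = (((Algebra.norm ℤ p).natAbs : ℕ) : ℝ) := by
      push_cast
      rw [Nat.cast_natAbs]
      push_cast
      rfl
    rw [e3, ← e1]
    push_cast
    rfl

end Pool.PL
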