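import Pool.Agent.Work.MP_972ac7_P.Interface2

set_option autoImplicit false

/-! # THEOREM P, block NBD (helper79): the coordinates of a quaternion and the entries of its matrix -/

open MeasureTheory NumberField IsDedekindDomain
open scoped Quaternion

noncomputable section

namespace Pool.PL

open Pool.TFD Pool.TC

theorem NBD_mul {k : Type} [NormedField k] {r s : k} {c d : ℝ} (hr : ‖r‖ ≤ c) (hs : ‖s‖ ≤ d)
    (hc : 0 ≤ c) : ‖r * s‖ ≤ c * d := by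
  rw [norm_mul]
  exact mul_le_mul hr hs (norm_nonneg _) hc

theorem NBD_add {k : Type} [NormedField k] {r s : k} {c d : ℝ} (hr : ‖r‖ ≤ c) (hs : ‖s‖ ≤ d) :
    ‖r + s‖ ≤ c + d := (norm_add_le r s).trans (add_le_add hr hs)

theorem NBD_sub {k : Type} [NormedField k] {r s : k} {c d : ℝ} (hr : ‖r‖ ≤ c) (hs : ‖s‖ ≤ d) :
    ‖r - s‖ ≤ c + d := (norm_sub_le r s).trans (add_le_add hr hs)

/-- the constants -/
def NBD_C {k : Type} [NormedField k] (A B x y : k) : ℝ :=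
  1 + (1 + ‖x‖ + ‖y‖ + ‖A‖ + ‖A‖ * ‖x‖ + ‖A‖ * ‖y‖) +
    ‖(2 : k)⁻¹‖ * (2 + ‖A⁻¹‖) +
    ‖(2 : k)⁻¹‖ * (2 + ‖A⁻¹‖) * (‖x‖ + ‖y‖ + ‖A‖ * ‖y‖) * ‖B⁻¹‖

theorem NBD_fwd {k : Type} [NormedField k] {r I J K A B x y : k} {c : ℝ} (hr : ‖r‖ ≤ c)
    (hI : ‖I‖ ≤ c) (hJ : ‖J‖ ≤ c) (hK : ‖K‖ ≤ c) :
    ‖r + J * x + K * (A * y)‖ ≤ NBD_C A B x y * c ∧
    ‖A * I - J * (A * y) - K * (A * x)‖ ≤ NBD_C A B x y * c ∧
    ‖I + J * y + K * x‖ ≤ NBD_C A B x y * c ∧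
    ‖r - J * x - K * (A * y)‖ ≤ NBD_C A B x y * c := by
  have hc : 0 ≤ c := (norm_nonneg _).trans hr
  have px := norm_nonneg x
  have py := norm_nonneg y
  have pA := norm_nonneg A
  have pAx : 0 ≤ ‖A‖ * ‖x‖ := mul_nonneg pA px
  have pAy : 0 ≤ ‖A‖ * ‖y‖ := mul_nonneg pA py
  have p2 : 0 ≤ ‖(2 : k)⁻¹‖ * (2 + ‖A⁻¹‖) := by positivity
  have p3 : 0 ≤ ‖(2 : k)⁻¹‖ * (2 + ‖A⁻¹‖) * (‖x‖ + ‖y‖ + ‖A‖ * ‖y‖) * ‖B⁻¹‖ := by positivity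
  have hAx : ‖A * x‖ ≤ ‖A‖ * ‖x‖ := (norm_mul A x).le
  have hAy : ‖A * y‖ ≤ ‖A‖ * ‖y‖ := (norm_mul A y).le
  have hAI : ‖A * I‖ ≤ ‖A‖ * c := NBD_mul le_rfl hI pA
  have q1 := NBD_mul hJ (le_refl ‖x‖) hc
  have q2 := NBD_mul hK hAy hc
  have q3 := NBD_mul hJ hAy hc
  have q4 := NBD_mul hK hAx hc
  have q5 := NBD_mul hJ (le_refl ‖y‖) hc
  have q6 := NBD_mul hK (le_refl ‖x‖) hc
  have hle : ∀ t : ℝ, t ≤ NBD_C A B x y → t * c ≤ NBD_C A B x y * c := fun t ht =>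
    mul_le_mul_of_nonneg_right ht hc
  refine ⟨?_, ?_, ?_, ?_⟩
  · refine (NBD_add (NBD_add hr q1) q2).trans ?_
    refine le_trans (le_of_eq ?_) (hle (1 + ‖x‖ + ‖A‖ * ‖y‖) ?_)
    · ring
    · unfold NBD_C
      linarith
  · refine (NBD_sub (NBD_sub hAI q3) q4).trans ?_
    refine le_trans (le_of_eq ?_) (hle (‖A‖ + ‖A‖ * ‖y‖ + ‖A‖ * ‖x‖) ?_)
    · ring
    · unfold NBD_C
      linarith
  · refine (NBD_add (NBD_add hI q5) q6).trans ?_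
    refine le_trans (le_of_eq ?_) (hle (1 + ‖y‖ + ‖x‖) ?_)
    · ring
    · unfold NBD_C
      linarith
  · refine (NBD_sub (NBD_sub hr q1) q2).trans ?_
    refine le_trans (le_of_eq ?_) (hle (1 + ‖x‖ + ‖A‖ * ‖y‖) ?_)
    · ring
    · unfold NBD_C
      linarith

theorem NBD_bwd {k : Type} [NormedField k] {r I J K A B x y : k} {c : ℝ} (h2 : (2 : k) ≠ 0)
    (hA : A ≠ 0) (hB : B ≠ 0) (hxy : x ^ 2 - A * y ^ 2 = B)
    (h00 : ‖r + J * x + K * (A * y)‖ ≤ c) (h01 : ‖A * I - J * (A * y) - K * (A * x)‖ ≤ c)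
    (h10 : ‖I + J * y + K * x‖ ≤ c) (h11 : ‖r - J * x - K * (A * y)‖ ≤ c) :
    ‖r‖ ≤ NBD_C A B x y * c ∧ ‖I‖ ≤ NBD_C A B x y * c ∧ ‖J‖ ≤ NBD_C A B x y * c ∧
      ‖K‖ ≤ NBD_C A B x y * c := by
  obtain ⟨m11, e11⟩ : ∃ m, m = r + J * x + K * (A * y) := ⟨_, rfl⟩
  obtain ⟨m12, e12⟩ : ∃ m, m = A * I - J * (A * y) - K * (A * x) := ⟨_, rfl⟩
  obtain ⟨m21, e21⟩ : ∃ m, m = I + J * y + K * x := ⟨_, rfl⟩
  obtain ⟨m22, e22⟩ : ∃ m, m = r - J * x - K * (A * y) := ⟨_, rfl⟩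
  rw [← e11] at h00
  rw [← e12] at h01
  rw [← e21] at h10
  rw [← e22] at h11
  have hc : 0 ≤ c := (norm_nonneg _).trans h00
  have px := norm_nonneg x
  have py := norm_nonneg y
  have pA := norm_nonneg A
  have pAx : 0 ≤ ‖A‖ * ‖x‖ := mul_nonneg pA px
  have pAy : 0 ≤ ‖A‖ * ‖y‖ := mul_nonneg pA py
  have pT := norm_nonneg (2 : k)⁻¹
  have pAi := norm_nonneg A⁻¹
  have pBi := norm_nonneg B⁻¹
  obtain ⟨T, hT⟩ : ∃ T, T = ‖(2 : k)⁻¹‖ * (2 + ‖A⁻¹‖) := ⟨_, rfl⟩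
  have hT0 : 0 ≤ T := by rw [hT]; positivity
  have pTc : 0 ≤ T * c := mul_nonneg hT0 hc
  -- the four linear forms
  have hr : r = (m11 + m22) * 2⁻¹ := by
    rw [e11, e22]
    field_simp
    ring
  have hI : I = (m21 + m12 * A⁻¹) * 2⁻¹ := by
    rw [e21, e12]
    field_simp
    ring
  obtain ⟨u, hu⟩ : ∃ u, u = (m11 - m22) * 2⁻¹ := ⟨_, rfl⟩
  obtain ⟨w, hw⟩ : ∃ w, w = (m21 - m12 * A⁻¹) * 2⁻¹ := ⟨_, rfl⟩
  have hu' : u = J * x + K * (A * y) := by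
    rw [hu, e11, e22]
    field_simp
    ring
  have hw' : w = J * y + K * x := by
    rw [hw, e21, e12]
    field_simp
    ring
  have hJ : J = (x * u - A * y * w) * B⁻¹ := by
    rw [eq_mul_inv_iff_mul_eq₀ hB, hu', hw', ← hxy]
    ring
  have hK : K = (x * w - y * u) * B⁻¹ := by
    rw [eq_mul_inv_iff_mul_eq₀ hB, hu', hw', ← hxy]
    ring
  have n12 : ‖m12 * A⁻¹‖ ≤ c * ‖A⁻¹‖ := NBD_mul h01 le_rfl hc
  have b1 : (c + c) * ‖(2 : k)⁻¹‖ ≤ T * c := by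
    rw [hT]
    nlinarith [mul_nonneg (mul_nonneg pT pAi) hc]
  have b2 : (c + c * ‖A⁻¹‖) * ‖(2 : k)⁻¹‖ ≤ T * c := by
    rw [hT]
    nlinarith [mul_nonneg pT hc]
  have nr : ‖r‖ ≤ T * c := by
    rw [hr]
    exact (NBD_mul (NBD_add h00 h11) le_rfl (by linarith)).trans b1
  have nu : ‖u‖ ≤ T * c := by
    rw [hu]
    exact (NBD_mul (NBD_sub h00 h11) le_rfl (by linarith)).trans b1
  have nI : ‖I‖ ≤ T * c := by
    rw [hI]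
    exact (NBD_mul (NBD_add h10 n12) le_rfl (by positivity)).trans b2
  have nw : ‖w‖ ≤ T * c := by
    rw [hw]
    exact (NBD_mul (NBD_sub h10 n12) le_rfl (by positivity)).trans b2
  have nJ : ‖J‖ ≤ T * (‖x‖ + ‖y‖ + ‖A‖ * ‖y‖) * ‖B⁻¹‖ * c := by
    rw [hJ]
    have h1 : ‖x * u‖ ≤ ‖x‖ * (T * c) := NBD_mul le_rfl nu px
    have h2 : ‖A * y * w‖ ≤ ‖A‖ * ‖y‖ * (T * c) := NBD_mul (norm_mul A y).le nw pAy
    refine (NBD_mul (NBD_sub h1 h2) le_rfl (by positivity)).trans ?_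
    nlinarith [mul_nonneg (mul_nonneg py pTc) pBi]
  have nK : ‖K‖ ≤ T * (‖x‖ + ‖y‖ + ‖A‖ * ‖y‖) * ‖B⁻¹‖ * c := by
    rw [hK]
    have h1 : ‖x * w‖ ≤ ‖x‖ * (T * c) := NBD_mul le_rfl nw px
    have h2 : ‖y * u‖ ≤ ‖y‖ * (T * c) := NBD_mul le_rfl nu py
    refine (NBD_mul (NBD_sub h1 h2) le_rfl (by positivity)).trans ?_
    nlinarith [mul_nonneg (mul_nonneg pAy pTc) pBi]
  have hC : NBD_C A B x y = 1 + (1 + ‖x‖ + ‖y‖ + ‖A‖ + ‖A‖ * ‖x‖ + ‖A‖ * ‖y‖) + T +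
      T * (‖x‖ + ‖y‖ + ‖A‖ * ‖y‖) * ‖B⁻¹‖ := by
    rw [hT]
    rfl
  have p3 : 0 ≤ T * (‖x‖ + ‖y‖ + ‖A‖ * ‖y‖) * ‖B⁻¹‖ := by positivity
  have c1 : T * c ≤ NBD_C A B x y * c := by
    rw [hC]
    exact mul_le_mul_of_nonneg_right (by linarith) hc
  have c2 : T * (‖x‖ + ‖y‖ + ‖A‖ * ‖y‖) * ‖B⁻¹‖ * c ≤ NBD_C A B x y * c := by
    rw [hC]
    exact mul_le_mul_of_nonneg_right (by linarith) hc
  exact ⟨nr.trans c1, nI.trans c1, nJ.trans c2, nK.trans c2⟩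

theorem p_NBD : Stmt_NBD := by
  intro F _ _ ι k _ _ D i
  -- there is a real embedding
  have hne : Nonempty (F →+* ℝ) := by
    rw [← Fintype.card_pos_iff, D.tr.card]
    exact Module.finrank_pos
  obtain ⟨σ⟩ := hne
  have ha : (D.a : F) ≠ 0 := by
    intro h
    have := D.ha σ
    rw [h, map_zero] at this
    exact lt_irrefl _ this
  have hb : (D.b : F) ≠ 0 := by
    intro h
    have := D.hb σ
    rw [h, map_zero] at this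
    exact lt_irrefl _ this
  have hA : D.e i (D.a : F) ≠ 0 := (map_ne_zero (D.e i)).2 ha
  have hB : D.e i (D.b : F) ≠ 0 := (map_ne_zero (D.e i)).2 hb
  have h2 : (2 : k i) ≠ 0 := by
    have h : D.e i (2 : F) ≠ 0 := (map_ne_zero (D.e i)).2 two_ne_zero
    rwa [map_ofNat] at h
  refine ⟨NBD_C (D.e i (D.a : F)) (D.e i (D.b : F)) (D.x i) (D.y i), ?_, ?_, ?_⟩
  · unfold NBD_C
    have : 0 ≤ (1 + ‖D.x i‖ + ‖D.y i‖ + ‖D.e i (D.a : F)‖ + ‖D.e i (D.a : F)‖ * ‖D.x i‖ +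
        ‖D.e i (D.a : F)‖ * ‖D.y i‖) + ‖(2 : k i)⁻¹‖ * (2 + ‖(D.e i (D.a : F))⁻¹‖) +
        ‖(2 : k i)⁻¹‖ * (2 + ‖(D.e i (D.a : F))⁻¹‖) *
          (‖D.x i‖ + ‖D.y i‖ + ‖D.e i (D.a : F)‖ * ‖D.y i‖) * ‖(D.e i (D.b : F))⁻¹‖ := by
      positivity
    linarith
  · rintro z c ⟨h1, h3, h4, h5⟩
    rw [← D.he i] at h1 h3 h4 h5
    obtain ⟨g1, g3, g4, g5⟩ := NBD_fwd (A := D.e i (D.a : F)) (B := D.e i (D.b : F))
      (x := D.x i) (y := D.y i) h1 h3 h4 h5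
    rw [mnm_le]
    intro p q
    fin_cases p <;> fin_cases q
    · exact g1
    · exact g3
    · exact g4
    · exact g5
  · intro z c hz
    rw [mnm_le] at hz
    have g := NBD_bwd (r := D.e i z.re) (I := D.e i z.imI) (J := D.e i z.imJ) (K := D.e i z.imK)
      h2 hA hB (D.spl i) (hz 0 0) (hz 0 1) (hz 1 0) (hz 1 1)
    rw [D.he i, D.he i, D.he i, D.he i] at g
    exact g

end Pool.PL
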