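import Pool.Agent.Work.MP_972ac7_P.Interface2

set_option autoImplicit false

/-! # THEOREM P, block ANI: anisotropic norm forms are bounded -/

open NumberField IsDedekindDomain
open scoped Quaternion

noncomputable section

namespace Pool.PL

section

variable {k : Type} [NormedField k]

/-- the norm form -/
def ANI_N (a b : k) (z : Fin 4 → k) : k :=
  z 0 ^ 2 - a * z 1 ^ 2 - b * z 2 ^ 2 + a * b * z 3 ^ 2

theorem ANI_sq (h2 : (2 : k) ≠ 0) {a : k} (b : k) (ha : a ≠ 0) (c : k) (hc : a = c ^ 2) :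
    ∃ x y : k, x ^ 2 - a * y ^ 2 = b := by
  have hc0 : c ≠ 0 := by
    rintro rfl
    apply ha
    rw [hc]
    ring
  refine ⟨(1 + b) / 2, (b - 1) / (2 * c), ?_⟩
  rw [hc]
  field_simp
  ring

theorem ANI_zero (h2 : (2 : k) ≠ 0) {a b : k} (ha : a ≠ 0)
    (hab : ¬ ∃ x y : k, x ^ 2 - a * y ^ 2 = b) (z : Fin 4 → k) (hz : ANI_N a b z = 0) :
    ∀ i, z i = 0 := by
  unfold ANI_N at hz
  have key : ∀ s t : k, s ^ 2 - a * t ^ 2 = 0 → s = 0 ∧ t = 0 := by
    intro s t h
    by_cases ht : t = 0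
    · rw [ht] at h
      refine ⟨?_, ht⟩
      have h1 : s ^ 2 = 0 := by linear_combination h
      exact pow_eq_zero_iff (two_ne_zero) |>.mp h1
    · exfalso
      apply hab
      apply ANI_sq h2 b ha (s / t)
      field_simp
      linear_combination -h
  by_cases hD : z 2 ^ 2 - a * z 3 ^ 2 = 0
  · obtain ⟨h3, h4⟩ := key _ _ hD
    have h5 : z 0 ^ 2 - a * z 1 ^ 2 = 0 := by linear_combination hz + b * hD
    obtain ⟨h6, h7⟩ := key _ _ h5
    intro i
    fin_cases i
    · exact h6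
    · exact h7
    · exact h3
    · exact h4
  · exfalso
    apply hab
    refine ⟨(z 0 * z 2 - a * z 1 * z 3) / (z 2 ^ 2 - a * z 3 ^ 2),
      (z 1 * z 2 - z 0 * z 3) / (z 2 ^ 2 - a * z 3 ^ 2), ?_⟩
    field_simp
    linear_combination (z 2 ^ 2 - a * z 3 ^ 2) * hz

end

theorem p_ANI : Stmt_ANI := by
  intro k _ _ L h2 a b ha hab
  have hcont : Continuous (ANI_N a b) := by
    unfold ANI_N
    fun_prop
  have hne : ∀ z ∈ Metric.sphere (0 : Fin 4 → k) 1, ANI_N a b z ≠ 0 := by
    intro z hz h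
    have h1 := ANI_zero h2 ha hab z h
    have h3 : z = 0 := funext h1
    rw [mem_sphere_zero_iff_norm, h3, norm_zero] at hz
    exact zero_ne_one hz
  obtain ⟨C, hC⟩ := (isCompact_sphere (0 : Fin 4 → k) 1).exists_bound_of_continuousOn
    (f := fun z => (ANI_N a b z)⁻¹) (hcont.continuousOn.inv₀ hne)
  refine ⟨1 + C, fun z hz i => ?_⟩
  have hz' : ANI_N a b z = 1 := hz
  obtain ⟨j, hj⟩ := Finite.exists_max (fun i => ‖z i‖)
  have hzj : z j ≠ 0 := by
    intro h
    have h1 : ∀ i, z i = 0 := by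
      intro i
      have h3 := hj i
      rw [h, norm_zero] at h3
      exact norm_le_zero_iff.mp h3
    have h4 : ANI_N a b z = 0 := by
      unfold ANI_N
      rw [h1 0, h1 1, h1 2, h1 3]
      ring
    rw [h4] at hz'
    exact zero_ne_one hz'
  have hpos : 0 < ‖z j‖ := norm_pos_iff.mpr hzj
  set z' : Fin 4 → k := fun i => z i / z j with hz'd
  have hnorm : ‖z'‖ = 1 := by
    apply le_antisymm
    · rw [pi_norm_le_iff_of_nonneg zero_le_one]
      intro i
      rw [hz'd, norm_div, div_le_one hpos]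
      exact hj i
    · have h1 := norm_le_pi_norm z' j
      have h3 : ‖z' j‖ = 1 := by
        rw [hz'd]
        show ‖z j / z j‖ = 1
        rw [div_self hzj, norm_one]
      rw [h3] at h1
      exact h1
  have hN : (ANI_N a b z')⁻¹ = z j ^ 2 := by
    have h1 : ANI_N a b z' = ANI_N a b z / z j ^ 2 := by
      unfold ANI_N
      rw [hz'd]
      field_simp
    rw [h1, hz']
    simp
  have h3 := hC z' (by rw [mem_sphere_zero_iff_norm]; exact hnorm)
  rw [hN, norm_pow] at h3
  refine (hj i).trans ?_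
  show ‖z j‖ ≤ 1 + C
  nlinarith [sq_nonneg (‖z j‖ - 1)]

end Pool.PL
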