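import Pool.Agent.Work.MP_972ac7_P.Interface1

set_option autoImplicit false

/-! # Block ARI: the exponents (helper25) -/

noncomputable section

namespace Pool.PL

/-- the main inequality; `Y = B ^ n` -/
lemma ARI_main (B D Q C c Y Z : ℝ) (hB : 0 < B) (hQ : 0 < Q) (hC : 0 < C) (hc : 0 < c)
    (hY : 0 < Y) (hZ : 0 < Z) (hZY : Z ^ 44 ≤ Y) (h1 : Q ^ 11 < (Y * B) ^ 5)
    (h2 : (C / c) ^ 220 * B ^ 215 ≤ Q ^ 33) : C * Q ^ 2 * Z < c * Y := by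
  apply lt_of_pow_lt_pow_left₀ 220 (by positivity)
  have h3 : (C * Q ^ 2 * Z) ^ 220 ≤ C ^ 220 * Q ^ 440 * Y ^ 5 := by
    have h4 : (C * Q ^ 2 * Z) ^ 220 = C ^ 220 * Q ^ 440 * (Z ^ 44) ^ 5 := by
      rw [mul_pow, mul_pow, ← pow_mul, ← pow_mul]
    rw [h4]
    apply mul_le_mul_of_nonneg_left _ (by positivity)
    exact pow_le_pow_left₀ (by positivity) hZY 5
  have h5 : Q ^ 473 < (Y ^ 5) ^ 43 * B ^ 215 := by
    have h6 : (Q ^ 11) ^ 43 < ((Y * B) ^ 5) ^ 43 := by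
      apply pow_lt_pow_left₀ h1 (by positivity) (by norm_num)
    have h7 : ((Y * B) ^ 5) ^ 43 = (Y ^ 5) ^ 43 * B ^ 215 := by
      rw [mul_pow, mul_pow, ← pow_mul B]
    have h8 : (Q ^ 11) ^ 43 = Q ^ 473 := by
      rw [← pow_mul]
    rw [h7, h8] at h6
    exact h6
  have h9 : C ^ 220 * B ^ 215 ≤ c ^ 220 * Q ^ 33 := by
    have h10 : (C / c) ^ 220 = C ^ 220 / c ^ 220 := div_pow C c 220
    rw [h10] at h2
    have h11 : 0 < c ^ 220 := by positivity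
    have h12 : C ^ 220 * B ^ 215 = c ^ 220 * (C ^ 220 / c ^ 220 * B ^ 215) := by
      field_simp
    rw [h12]
    exact mul_le_mul_of_nonneg_left h2 h11.le
  refine lt_of_le_of_lt h3 ?_
  have hBp : 0 < B ^ 215 := by positivity
  rw [← mul_lt_mul_iff_left₀ hBp]
  calc C ^ 220 * Q ^ 440 * Y ^ 5 * B ^ 215 = (C ^ 220 * B ^ 215) * (Q ^ 440 * Y ^ 5) := by ring
    _ ≤ (c ^ 220 * Q ^ 33) * (Q ^ 440 * Y ^ 5) :=
        mul_le_mul_of_nonneg_right h9 (by positivity)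
    _ = c ^ 220 * Y ^ 5 * Q ^ 473 := by
        have h13 : Q ^ 473 = Q ^ 33 * Q ^ 440 := by rw [← pow_add]
        rw [h13]
        ring
    _ < c ^ 220 * Y ^ 5 * ((Y ^ 5) ^ 43 * B ^ 215) :=
        mul_lt_mul_of_pos_left h5 (by positivity)
    _ = (c * Y) ^ 220 * B ^ 215 := by
        have h14 : (c * Y) ^ 220 = c ^ 220 * (Y ^ 5 * (Y ^ 5) ^ 43) := by
          rw [mul_pow, ← pow_mul, ← pow_add]
        rw [h14]
        ring

theorem p_ARI : Stmt_ARI := by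
  intro q M p hq hM h44 hp C c hC hc
  obtain ⟨B, hB⟩ : ∃ B : ℝ, B = (q : ℝ) ^ (2 * M) := ⟨_, rfl⟩
  obtain ⟨D, hD⟩ : ∃ D : ℝ, D = (4 * (M : ℝ) + 2) ^ 2 := ⟨_, rfl⟩
  have hq' : (2 : ℝ) ≤ q := by exact_mod_cast hq
  have hq0 : (0 : ℝ) < q := by linarith
  have hB4 : 4 ≤ B := by
    rw [hB, pow_mul]
    calc (4 : ℝ) = 4 ^ 1 := by norm_num
      _ ≤ 4 ^ M := pow_le_pow_right₀ (by norm_num) hM
      _ ≤ ((q : ℝ) ^ 2) ^ M := pow_le_pow_left₀ (by norm_num) (by nlinarith) M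
  have hB0 : 0 < B := by linarith
  have hD0 : 0 < D := by
    rw [hD]
    positivity
  have hDB : D ^ 44 ≤ B := by
    have h1 : (4 * (M : ℝ) + 2) ^ 44 ≤ (q : ℝ) ^ M := by exact_mod_cast h44
    rw [hD, hB, ← pow_mul]
    calc (4 * (M : ℝ) + 2) ^ (2 * 44) = ((4 * (M : ℝ) + 2) ^ 44) ^ 2 := by rw [← pow_mul]
      _ ≤ ((q : ℝ) ^ M) ^ 2 := pow_le_pow_left₀ (by positivity) h1 2
      _ = (q : ℝ) ^ (2 * M) := by rw [← pow_mul, mul_comm]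
  obtain ⟨r₀, hr₀⟩ := pow_unbounded_of_one_lt ((C / c) ^ 220 * B ^ 215)
    (show (1 : ℝ) < 2 by norm_num)
  refine ⟨r₀, fun r hr => ?_⟩
  obtain ⟨Q, hQ⟩ : ∃ Q : ℝ, Q = (p : ℝ) ^ r := ⟨_, rfl⟩
  have hp' : (2 : ℝ) ≤ p := by exact_mod_cast hp
  have hQ2 : (2 : ℝ) ^ r₀ ≤ Q := by
    rw [hQ]
    calc (2 : ℝ) ^ r₀ ≤ 2 ^ r := pow_le_pow_right₀ (by norm_num) hr
      _ ≤ (p : ℝ) ^ r := pow_le_pow_left₀ (by norm_num) hp' r
  have hQ1 : 1 ≤ Q := by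
    refine le_trans ?_ hQ2
    exact one_le_pow₀ (by norm_num)
  have hQ0 : 0 < Q := by linarith
  have hQ33 : (C / c) ^ 220 * B ^ 215 ≤ Q ^ 33 := by
    have h1 : Q ≤ Q ^ 33 := le_self_pow₀ hQ1 (by norm_num)
    linarith
  -- the number `n`
  have hex : ∃ n : ℕ, Q ^ 11 < (B ^ n) ^ 5 := by
    obtain ⟨n, hn⟩ := pow_unbounded_of_one_lt (Q ^ 11) (show (1 : ℝ) < B by linarith)
    refine ⟨n, lt_of_lt_of_le hn ?_⟩
    exact le_self_pow₀ (one_le_pow₀ (by linarith)) (by norm_num)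
  classical
  obtain ⟨n', hn', hmin⟩ : ∃ n', Q ^ 11 < (B ^ n') ^ 5 ∧ ∀ n < n', ¬ Q ^ 11 < (B ^ n) ^ 5 :=
    ⟨Nat.find hex, Nat.find_spec hex, fun n hn => Nat.find_min hex hn⟩
  obtain ⟨n, rfl⟩ : ∃ n, n' = n + 1 := by
    cases n' with
    | zero =>
      exfalso
      rw [pow_zero, one_pow] at hn'
      have h1 : 1 ≤ Q ^ 11 := one_le_pow₀ hQ1
      linarith
    | succ n => exact ⟨n, rfl⟩
  have hn := hmin n (Nat.lt_succ_self n)
  push Not at hn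
  have hY : (q : ℝ) ^ (2 * n * M) = B ^ n := by
    rw [hB, ← pow_mul]
    congr 1
    ring
  refine ⟨n, ?_, ?_⟩
  · rw [hY, ← hQ]
    exact hn
  · rw [← hQ]
    have hY0 : 0 < B ^ n := by positivity
    have hkey := ARI_main B D Q C c (B ^ n) (D ^ n) hB0 hQ0 hC hc hY0 (by positivity)
      (by
        rw [← pow_mul, mul_comm, pow_mul]
        exact pow_le_pow_left₀ (by positivity) hDB n)
      (by rw [← pow_succ]; exact hn') hQ33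
    have h1 : D ^ n = 2 ^ (2 * n) * (2 * (M : ℝ) + 1) ^ (2 * n) := by
      rw [hD, ← pow_mul, ← mul_pow]
      congr 1
      ring
    have h2 : ((2 * (M : ℝ) + 1) / (q : ℝ) ^ M) ^ (2 * n) = (2 * (M : ℝ) + 1) ^ (2 * n) / B ^ n := by
      rw [div_pow, ← hY, ← pow_mul]
      congr 2
      ring
    have h3 : (1 / 2 : ℝ) ^ (2 * n) = 1 / 2 ^ (2 * n) := by
      rw [div_pow, one_pow]
    rw [h2, h3, ← mul_div_assoc, ← mul_div_assoc, div_lt_div_iff₀ hY0 (by positivity)]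
    rw [h1] at hkey
    have h4 := mul_lt_mul_of_pos_left hkey hQ0
    calc C * Q ^ 3 * (2 * (M : ℝ) + 1) ^ (2 * n) * 2 ^ (2 * n) =
        Q * (C * Q ^ 2 * (2 ^ (2 * n) * (2 * (M : ℝ) + 1) ^ (2 * n))) := by ring
      _ < Q * (c * B ^ n) := h4
      _ = c * Q * 1 * B ^ n := by ring

end Pool.PL
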