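import Pool.Agent.Work.MP_972ac7_P.Interface1

set_option autoImplicit false

/-! # THEOREM P, block BES: the Bessel bound -/

open MeasureTheory

noncomputable section

namespace Pool.PL

/-- integral of a function which is constant on the orbits -/
theorem BES_integral {G : Type} [Group G] [MeasurableSpace G] (Γ K : Subgroup G)
    (m : Measure (G ⧸ Γ)) [IsProbabilityMeasure m]
    [Fintype (MulAction.orbitRel.Quotient K (G ⧸ Γ))]
    (hm : ∀ x : G ⧸ Γ, MeasurableSet (MulAction.orbit K x))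
    (F : MulAction.orbitRel.Quotient K (G ⧸ Γ) → ℝ) :
    ∫ x, F (Quotient.mk'' x) ∂m = ∑ z, (m z.orbit).toReal * F z := by
  classical
  have hmz : ∀ z : MulAction.orbitRel.Quotient K (G ⧸ Γ), MeasurableSet z.orbit := by
    intro z
    induction z using Quotient.inductionOn' with
    | h a =>
      rw [MulAction.orbitRel.Quotient.orbit_mk]
      exact hm a
  have h : (fun x : G ⧸ Γ => F (Quotient.mk'' x)) =
      fun x => ∑ z : MulAction.orbitRel.Quotient K (G ⧸ Γ),
        Set.indicator z.orbit (fun _ => F z) x := by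
    funext x
    rw [Finset.sum_eq_single (Quotient.mk'' x : MulAction.orbitRel.Quotient K (G ⧸ Γ))]
    · rw [Set.indicator_of_mem]
      exact MulAction.orbitRel.Quotient.mem_orbit.2 rfl
    · intro z _ hz
      rw [Set.indicator_of_notMem]
      intro hx
      exact hz (MulAction.orbitRel.Quotient.mem_orbit.1 hx).symm
    · intro h0
      exact absurd (Finset.mem_univ _) h0
  rw [h, integral_finset_sum]
  · refine Finset.sum_congr rfl fun z _ => ?_
    rw [integral_indicator (hmz z), integral_const]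
    simp [Measure.real]
  · intro z _
    exact (integrable_const _).indicator (hmz z)

theorem BES_cs {Z : Type} [Fintype Z] (a μ n : Z → ℝ) (μ₀ : ℝ) (h0 : 0 < μ₀)
    (hμ : ∀ z, μ₀ ≤ μ z) :
    (∑ z, n z * a z) ^ 2 ≤ (∑ z, μ z * a z ^ 2) * (μ₀⁻¹ * ∑ z, n z ^ 2) := by
  have h1 : (∑ z, n z * a z) ^ 2 ≤ (∑ z, μ z * a z ^ 2) * ∑ z, n z ^ 2 / μ z := by
    refine Finset.sum_sq_le_sum_mul_sum_of_sq_eq_mul Finset.univ ?_ ?_ ?_
    · intro z _
      have := lt_of_lt_of_le h0 (hμ z)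
      positivity
    · intro z _
      have := lt_of_lt_of_le h0 (hμ z)
      positivity
    · intro z _
      have := lt_of_lt_of_le h0 (hμ z)
      field_simp
  refine le_trans h1 (mul_le_mul_of_nonneg_left ?_ ?_)
  · rw [Finset.mul_sum]
    refine Finset.sum_le_sum fun z _ => ?_
    have h2 := lt_of_lt_of_le h0 (hμ z)
    rw [div_eq_inv_mul]
    exact mul_le_mul_of_nonneg_right (inv_anti₀ h0 (hμ z)) (sq_nonneg _)
  · refine Finset.sum_nonneg fun z _ => ?_
    have := lt_of_lt_of_le h0 (hμ z)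
    positivity

theorem p_BES : Stmt_BES := by
  intro G _ _ Γ K m hP hfin hm μ₀ hμ₀ hμ I _ w g Φ hΦ f hf
  classical
  have := hP
  haveI : Fintype (MulAction.orbitRel.Quotient K (G ⧸ Γ)) := Fintype.ofFinite _
  -- the function on the quotient
  have hconst : ∀ x y : G ⧸ Γ, (Quotient.mk'' x : MulAction.orbitRel.Quotient K (G ⧸ Γ)) =
      Quotient.mk'' y → f x = f y := by
    intro x y hxy
    have h1 : x ∈ MulAction.orbit K y := MulAction.orbitRel_apply.1 (Quotient.eq''.1 hxy)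
    obtain ⟨κ, hκ⟩ := h1
    have h2 := congrFun (hf (κ : G) κ.2) x
    have h3 : ((κ : G))⁻¹ • x = y := by
      rw [← hκ]
      exact inv_smul_smul (κ : G) y
    unfold tr at h2
    rw [h3] at h2
    exact h2.symm
  set F : MulAction.orbitRel.Quotient K (G ⧸ Γ) → ℂ := fun z => f z.out with hF
  have hFf : ∀ x : G ⧸ Γ, F (Quotient.mk'' x) = f x := by
    intro x
    exact hconst _ _ (by simp)
  have hsq : sq m f = ∑ z, (m (MulAction.orbitRel.Quotient.orbit z)).toReal * ‖F z‖ ^ 2 := by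
    unfold sq
    rw [← BES_integral Γ K m hm (fun z => ‖F z‖ ^ 2)]
    simp only [hFf]
  set y : I → G ⧸ Γ := fun i => (w i)⁻¹ • (g : G ⧸ Γ) with hy
  set c : I → MulAction.orbitRel.Quotient K (G ⧸ Γ) := fun i => Quotient.mk'' (y i) with hc
  set n : MulAction.orbitRel.Quotient K (G ⧸ Γ) → ℝ := fun z =>
    ((Finset.univ.filter fun i => c i = z).card : ℝ) with hn
  have hsum : ∑ i, f (y i) = ∑ z, (n z : ℂ) * F z := by
    rw [← Finset.sum_fiberwise_of_maps_to (s := Finset.univ) (t := Finset.univ) (g := c)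
      (fun _ _ => Finset.mem_univ _)]
    refine Finset.sum_congr rfl fun z _ => ?_
    rw [Finset.sum_congr rfl (g := fun _ => F z)]
    · simp [hn]
    · intro i hi
      rw [Finset.mem_filter] at hi
      rw [← hFf, ← hi.2]
  have hμz : ∀ z : MulAction.orbitRel.Quotient K (G ⧸ Γ), μ₀ ≤ (m z.orbit).toReal := by
    intro z
    induction z using Quotient.inductionOn' with
    | h a =>
      rw [MulAction.orbitRel.Quotient.orbit_mk]
      exact hμ a
  have hcs := BES_cs (fun z => ‖F z‖) (fun z => (m (MulAction.orbitRel.Quotient.orbit z)).toReal)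
    n μ₀ hμ₀ hμz
  have hnorm : ‖∑ i, f (y i)‖ ≤ ∑ z, n z * ‖F z‖ := by
    rw [hsum]
    refine le_trans (norm_sum_le _ _) (Finset.sum_le_sum fun z _ => ?_)
    rw [norm_mul, Complex.norm_real, Real.norm_of_nonneg (by simp [hn])]
  have hpairs : ∑ z, n z ^ 2 ≤
      ∑ γ ∈ Φ, (Nat.card {p : I × I // (w p.2)⁻¹ * (g * (γ : G) * g⁻¹) * w p.1 ∈ K} : ℝ) := by
    have h1 : ∑ z, n z ^ 2 =
        ((Finset.univ.filter fun p : I × I => c p.1 = c p.2).card : ℝ) := by
      rw [Finset.card_eq_sum_card_fiberwise (f := fun p : I × I => c p.1) (t := Finset.univ)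
        (fun _ _ => Finset.mem_univ _)]
      rw [Nat.cast_sum]
      refine Finset.sum_congr rfl fun z _ => ?_
      have h2 : (Finset.filter (fun p : I × I => c p.1 = z)
          (Finset.univ.filter fun p : I × I => c p.1 = c p.2)) =
          (Finset.univ.filter fun i => c i = z) ×ˢ (Finset.univ.filter fun i => c i = z) := by
        ext p
        simp only [Finset.mem_filter, Finset.mem_univ, true_and, Finset.mem_product]
        constructor
        · rintro ⟨h3, h4⟩
          exact ⟨h4, h3 ▸ h4⟩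
        · rintro ⟨h3, h4⟩
          exact ⟨h3.trans h4.symm, h3⟩
      rw [h2, Finset.card_product, hn]
      push_cast
      ring
    rw [h1]
    have h2 : (Finset.univ.filter fun p : I × I => c p.1 = c p.2) ⊆
        Φ.biUnion fun γ => Finset.univ.filter fun p : I × I =>
          (w p.2)⁻¹ * (g * (γ : G) * g⁻¹) * w p.1 ∈ K := by
      intro p hp
      rw [Finset.mem_filter] at hp
      have h3 : y p.2 ∈ MulAction.orbit K (y p.1) :=
        MulAction.orbitRel_apply.1 (Quotient.eq''.1 hp.2.symm)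
      obtain ⟨κ, hκ⟩ := h3
      have h4 : (κ : G) • ((w p.1)⁻¹ • (g : G ⧸ Γ)) = (w p.2)⁻¹ • (g : G ⧸ Γ) := hκ
      rw [← mul_smul] at h4
      have h5 : (((κ : G) * (w p.1)⁻¹ * g : G) : G ⧸ Γ) = (((w p.2)⁻¹ * g : G) : G ⧸ Γ) := h4
      rw [QuotientGroup.eq] at h5
      have h6 := Γ.inv_mem h5
      have h7 : (w p.2)⁻¹ * (g * ((((κ : G) * (w p.1)⁻¹ * g)⁻¹ * ((w p.2)⁻¹ * g))⁻¹) * g⁻¹) *
          w p.1 = (κ : G) := by
        group
      rw [Finset.mem_biUnion]
      refine ⟨⟨_, h6⟩, hΦ p.1 p.2 ⟨_, h6⟩ ?_, ?_⟩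
      · change (w p.2)⁻¹ * (g * ((((κ : G) * (w p.1)⁻¹ * g)⁻¹ * ((w p.2)⁻¹ * g))⁻¹) * g⁻¹) *
          w p.1 ∈ K
        rw [h7]
        exact κ.2
      · rw [Finset.mem_filter]
        refine ⟨Finset.mem_univ _, ?_⟩
        change (w p.2)⁻¹ * (g * ((((κ : G) * (w p.1)⁻¹ * g)⁻¹ * ((w p.2)⁻¹ * g))⁻¹) * g⁻¹) *
          w p.1 ∈ K
        rw [h7]
        exact κ.2
    have h3 := le_trans (Finset.card_le_card h2) Finset.card_biUnion_le
    have h4 : ((Finset.univ.filter fun p : I × I => c p.1 = c p.2).card : ℝ) ≤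
        ((∑ γ ∈ Φ, (Finset.univ.filter fun p : I × I =>
          (w p.2)⁻¹ * (g * (γ : G) * g⁻¹) * w p.1 ∈ K).card : ℕ) : ℝ) := by
      exact_mod_cast h3
    refine le_trans h4 (le_of_eq ?_)
    rw [Nat.cast_sum]
    refine Finset.sum_congr rfl fun γ _ => ?_
    rw [Nat.card_eq_fintype_card, Fintype.card_subtype]
  -- assembly
  rw [norm_mul, mul_pow, norm_inv, Complex.norm_natCast, inv_pow]
  have hA : ‖∑ i, f (y i)‖ ^ 2 ≤ sq m f * (μ₀⁻¹ *
      ∑ γ ∈ Φ, (Nat.card {p : I × I // (w p.2)⁻¹ * (g * (γ : G) * g⁻¹) * w p.1 ∈ K} : ℝ)) := by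
    calc ‖∑ i, f (y i)‖ ^ 2 ≤ (∑ z, n z * ‖F z‖) ^ 2 :=
          pow_le_pow_left₀ (norm_nonneg _) hnorm 2
      _ ≤ _ := hcs
      _ ≤ _ := by
          rw [hsq]
          refine mul_le_mul_of_nonneg_left ?_ ?_
          · exact mul_le_mul_of_nonneg_left hpairs (by positivity)
          · refine Finset.sum_nonneg fun z _ => ?_
            positivity
  calc ((Fintype.card I : ℝ) ^ 2)⁻¹ * ‖∑ i, f ((w i)⁻¹ • (g : G ⧸ Γ))‖ ^ 2
      ≤ ((Fintype.card I : ℝ) ^ 2)⁻¹ * (sq m f * (μ₀⁻¹ *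
        ∑ γ ∈ Φ, (Nat.card {p : I × I // (w p.2)⁻¹ * (g * (γ : G) * g⁻¹) * w p.1 ∈ K} : ℝ))) :=
        mul_le_mul_of_nonneg_left hA (by positivity)
    _ = _ := by ring

end Pool.PL
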