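import Pool.Agent.Work.MP_972ac7_P.Interface2

set_option autoImplicit false

open MeasureTheory NumberField IsDedekindDomain
open scoped Quaternion

noncomputable section

namespace Pool.PL

open Pool.TFD Pool.TC

theorem p_BOX : Stmt_BOX := by
  classical
  intro F _ _ hTR Z B M hB hM hZ hsep
  have hne : 0 < Fintype.card (F →+* ℝ) := by
    rw [hTR.card]
    exact Module.finrank_pos
  obtain ⟨σ₀⟩ : Nonempty (F →+* ℝ) := Fintype.card_pos_iff.1 hne
  set P : ℝ := ∏ σ ∈ Finset.univ.erase σ₀, (2 * B σ) with hP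
  have hP0 : 0 ≤ P := Finset.prod_nonneg fun σ _ => mul_nonneg zero_le_two (hB σ)
  have hprod : 2 ^ (Fintype.card (F →+* ℝ)) * (∏ σ, B σ) = 2 * B σ₀ * P := by
    rw [hP, Finset.mul_prod_erase Finset.univ (fun σ => 2 * B σ) (Finset.mem_univ σ₀),
      Finset.prod_mul_distrib, Finset.prod_const, Finset.card_univ]
  have hkey : ∀ z ∈ Z, ∀ z' ∈ Z, z ≠ z' → M ≤ |σ₀ (z : F) - σ₀ (z' : F)| * P := by
    intro z hz z' hz' hzz
    refine (hsep z hz z' hz' hzz).trans ?_
    unfold Nm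
    rw [← Finset.mul_prod_erase Finset.univ _ (Finset.mem_univ σ₀), map_sub]
    apply mul_le_mul_of_nonneg_left _ (abs_nonneg _)
    apply Finset.prod_le_prod
    · intro σ _
      exact abs_nonneg _
    · intro σ _
      rw [map_sub]
      have h1 := hZ z hz σ
      have h2 := hZ z' hz' σ
      have h3 := abs_sub (σ (z : F)) (σ (z' : F))
      linarith
  have hfrac : 0 ≤ 2 * B σ₀ * P / M :=
    div_nonneg (mul_nonneg (mul_nonneg zero_le_two (hB σ₀)) hP0) hM.le
  rcases hP0.eq_or_lt with hP1 | hP1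
  · have hsub : Z.Subsingleton := by
      intro z hz z' hz'
      by_contra hne
      have := hkey z hz z' hz' hne
      rw [← hP1, mul_zero] at this
      linarith
    refine ⟨hsub.finite, ?_⟩
    rw [hprod]
    have h1 : Nat.card Z ≤ 1 := by
      haveI := Set.subsingleton_coe Z |>.2 hsub
      exact Finite.card_le_one_iff_subsingleton.2 inferInstance
    have h2 : (Nat.card Z : ℝ) ≤ 1 := by exact_mod_cast h1
    linarith
  · set δ : ℝ := M / P with hδ
    have hδ0 : 0 < δ := div_pos hM hP1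
    have hsepδ : ∀ z ∈ Z, ∀ z' ∈ Z, z ≠ z' → δ ≤ |σ₀ (z : F) - σ₀ (z' : F)| := by
      intro z hz z' hz' hzz
      rw [hδ, div_le_iff₀ hP1]
      exact hkey z hz z' hz' hzz
    set φ : 𝓞 F → ℕ := fun z => ⌊(σ₀ (z : F) + B σ₀) / δ⌋₊ with hφ
    have hmaps : ∀ z ∈ Z, φ z ∈ (Finset.range (⌊2 * B σ₀ / δ⌋₊ + 1) : Set ℕ) := by
      intro z hz
      rw [Finset.coe_range, Set.mem_Iio, Nat.lt_succ_iff]
      apply Nat.floor_le_floor
      apply div_le_div_of_nonneg_right _ hδ0.le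
      have := (abs_le.1 (hZ z hz σ₀)).2
      linarith
    have hinj : Set.InjOn φ Z := by
      intro z hz z' hz' heq
      by_contra hne
      have h1 := hsepδ z hz z' hz' hne
      have hz0 : 0 ≤ (σ₀ (z : F) + B σ₀) / δ :=
        div_nonneg (by have := (abs_le.1 (hZ z hz σ₀)).1; linarith) hδ0.le
      have hz0' : 0 ≤ (σ₀ (z' : F) + B σ₀) / δ :=
        div_nonneg (by have := (abs_le.1 (hZ z' hz' σ₀)).1; linarith) hδ0.le
      have h2 := Nat.floor_le hz0
      have h3 := Nat.lt_floor_add_one ((σ₀ (z : F) + B σ₀) / δ)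
      have h4 := Nat.floor_le hz0'
      have h5 := Nat.lt_floor_add_one ((σ₀ (z' : F) + B σ₀) / δ)
      simp only [hφ] at heq
      rw [heq] at h2 h3
      have h6 : |(σ₀ (z : F) + B σ₀) / δ - (σ₀ (z' : F) + B σ₀) / δ| < 1 := by
        rw [abs_lt]
        constructor <;> linarith
      have h7 : (σ₀ (z : F) + B σ₀) / δ - (σ₀ (z' : F) + B σ₀) / δ =
          (σ₀ (z : F) - σ₀ (z' : F)) / δ := by ring
      rw [h7, abs_div, abs_of_pos hδ0, div_lt_one hδ0] at h6
      linarith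
    have hfin : Z.Finite := Set.Finite.of_injOn hmaps hinj (Finset.finite_toSet _)
    refine ⟨hfin, ?_⟩
    have h8 : Z.ncard ≤ ⌊2 * B σ₀ / δ⌋₊ + 1 := by
      have h9 := Set.ncard_le_ncard_of_injOn φ hmaps hinj (Finset.finite_toSet _)
      rwa [Set.ncard_coe_finset, Finset.card_range] at h9
    rw [Nat.card_coe_set_eq, hprod]
    have h10 : (⌊2 * B σ₀ / δ⌋₊ : ℝ) ≤ 2 * B σ₀ / δ :=
      Nat.floor_le (div_nonneg (mul_nonneg zero_le_two (hB σ₀)) hδ0.le)
    have h11 : 2 * B σ₀ / δ = 2 * B σ₀ * P / M := by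
      rw [hδ]
      field_simp
    have h12 : (Z.ncard : ℝ) ≤ (⌊2 * B σ₀ / δ⌋₊ : ℝ) + 1 := by exact_mod_cast h8
    rw [h11] at h10 h12
    linarith

end Pool.PL
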