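import Pool.Agent.Work.MP_972ac7_P.Interface1

set_option autoImplicit false

open MeasureTheory

noncomputable section

namespace Pool.PL

open Pool.TFD Pool.TC

section car

variable {k : Type} [NormedField k] [IsUltrametricDist k]

lemma CAR_mem (L : LocF k) {g : SL2 k} (h : nm g ≤ 1) : g ∈ KK L 0 := by
  refine mem_KK.2 ⟨h, ?_⟩
  rw [pow_zero, inv_one]
  unfold dnm
  rw [sub_eq_add_neg]
  refine mnm_add_le h ?_
  rw [mnm_le]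
  intro i j
  fin_cases i <;> fin_cases j <;> simp

/-- the Weyl element -/
def CAR_w : SL2 k := ⟨!![0, 1; -1, 0], by simp [Matrix.det_fin_two]⟩

lemma CAR_w_mem (L : LocF k) : (CAR_w : SL2 k) ∈ KK L 0 := by
  apply CAR_mem
  unfold nm
  rw [mnm_le]
  intro i j
  fin_cases i <;> fin_cases j <;> simp [CAR_w]

lemma CAR_upp_mem (L : LocF k) {x : k} (hx : ‖x‖ ≤ 1) : upp x ∈ KK L 0 := by
  apply CAR_mem
  unfold nm
  rw [mnm_le]
  intro i j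
  fin_cases i <;> fin_cases j <;> simp [upp, hx]

lemma CAR_low_mem (L : LocF k) {x : k} (hx : ‖x‖ ≤ 1) : low x ∈ KK L 0 := by
  apply CAR_mem
  unfold nm
  rw [mnm_le]
  intro i j
  fin_cases i <;> fin_cases j <;> simp [low, hx]

lemma CAR_dia_mem (L : LocF k) {x : k} (h0 : x ≠ 0) (hx : ‖x‖ = 1) : dia x h0 ∈ KK L 0 := by
  apply CAR_mem
  unfold nm
  rw [mnm_le]
  intro i j
  fin_cases i <;> fin_cases j <;> simp [dia, hx]

omit [IsUltrametricDist k] in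
lemma CAR_det (g : SL2 k) : g 0 0 * g 1 1 - g 0 1 * g 1 0 = 1 := by
  have := g.det_coe
  rwa [Matrix.det_fin_two] at this

lemma CAR_main (L : LocF k) (g : SL2 k) (h : nm g ≤ ‖g 0 0‖) :
    ∃ j : ℕ, ∃ κ ∈ KK L 0, ∃ κ' ∈ KK L 0, g = κ * aa L j * κ' := by
  have hle : ∀ i j, ‖g i j‖ ≤ ‖g 0 0‖ := fun i j => (le_mnm _ i j).trans h
  have hd := CAR_det g
  have h1 : (1 : ℝ) ≤ ‖g 0 0‖ := by
    by_contra hc
    rw [not_le] at hc
    have h2 : (1 : ℝ) ≤ max ‖g 0 0 * g 1 1‖ ‖g 0 1 * g 1 0‖ := by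
      have h3 : ‖g 0 0 * g 1 1 - g 0 1 * g 1 0‖ ≤ max ‖g 0 0 * g 1 1‖ ‖-(g 0 1 * g 1 0)‖ := by
        rw [sub_eq_add_neg]
        exact IsUltrametricDist.norm_add_le_max _ _
      rwa [hd, norm_one, norm_neg] at h3
    have h4 : ∀ i j i' j', ‖g i j * g i' j'‖ < 1 := by
      intro i j i' j'
      rw [norm_mul]
      calc ‖g i j‖ * ‖g i' j'‖ ≤ ‖g 0 0‖ * ‖g 0 0‖ :=
            mul_le_mul (hle _ _) (hle _ _) (norm_nonneg _) (norm_nonneg _)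
        _ < 1 := by nlinarith [norm_nonneg (g 0 0)]
    exact absurd h2 (not_le.2 (max_lt (h4 _ _ _ _) (h4 _ _ _ _)))
  have ha : g 0 0 ≠ 0 := by
    intro h0
    rw [h0, norm_zero] at h1
    linarith
  obtain ⟨n, hn⟩ := L.disc _ ha
  have hn0 : 0 ≤ n := by
    by_contra hc
    rw [not_le] at hc
    have h5 : (L.q : ℝ) ^ n < 1 := zpow_lt_one_of_neg₀ L.one_lt hc
    rw [← hn] at h5
    linarith
  obtain ⟨j, rfl⟩ := Int.eq_ofNat_of_zero_le hn0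
  have hϖ : L.ϖ ^ j ≠ 0 := pow_ne_zero _ L.ϖ_ne
  have hu0 : g 0 0 * L.ϖ ^ j ≠ 0 := mul_ne_zero ha hϖ
  have hu1 : ‖g 0 0 * L.ϖ ^ j‖ = 1 := by
    rw [norm_mul, norm_pow, L.norm_ϖ, hn, zpow_natCast, ← mul_pow,
      mul_inv_cancel₀ (ne_of_gt L.q_pos), one_pow]
  have hdiv : ∀ i l, ‖g i l / g 0 0‖ ≤ 1 := by
    intro i l
    rw [norm_div]
    exact div_le_one_of_le₀ (hle i l) (norm_nonneg _)
  refine ⟨j, low (g 1 0 / g 0 0) * dia (g 0 0 * L.ϖ ^ j) hu0,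
    mul_mem (CAR_low_mem L (hdiv _ _)) (CAR_dia_mem L hu0 hu1),
    upp (g 0 1 / g 0 0), CAR_upp_mem L (hdiv _ _), ?_⟩
  have hde : g 1 1 = (1 + g 0 1 * g 1 0) / g 0 0 := by
    rw [eq_div_iff ha]
    linear_combination hd
  apply Subtype.ext
  ext i l
  fin_cases i <;> fin_cases l
  · simp [low, dia, upp, aa, Matrix.mul_apply, Fin.sum_univ_two]
    field_simp
  · simp [low, dia, upp, aa, Matrix.mul_apply, Fin.sum_univ_two]
    field_simp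
  · simp [low, dia, upp, aa, Matrix.mul_apply, Fin.sum_univ_two]
    field_simp
  · simp [low, dia, upp, aa, Matrix.mul_apply, Fin.sum_univ_two]
    rw [hde]
    field_simp
    ring

end car

theorem p_CAR : Stmt_CAR := by
  intro k _ _ L g
  have hmax : nm g ≤ ‖g 0 0‖ ∨ nm g ≤ ‖g 0 1‖ ∨ nm g ≤ ‖g 1 0‖ ∨ nm g ≤ ‖g 1 1‖ := by
    show max (max ‖g 0 0‖ ‖g 0 1‖) (max ‖g 1 0‖ ‖g 1 1‖) ≤ ‖g 0 0‖ ∨
      max (max ‖g 0 0‖ ‖g 0 1‖) (max ‖g 1 0‖ ‖g 1 1‖) ≤ ‖g 0 1‖ ∨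
      max (max ‖g 0 0‖ ‖g 0 1‖) (max ‖g 1 0‖ ‖g 1 1‖) ≤ ‖g 1 0‖ ∨
      max (max ‖g 0 0‖ ‖g 0 1‖) (max ‖g 1 0‖ ‖g 1 1‖) ≤ ‖g 1 1‖
    rcases max_choice (max ‖g 0 0‖ ‖g 0 1‖) (max ‖g 1 0‖ ‖g 1 1‖) with h | h <;> rw [h]
    · rcases max_choice ‖g 0 0‖ ‖g 0 1‖ with h' | h' <;> rw [h']
      · exact Or.inl le_rfl
      · exact Or.inr (Or.inl le_rfl)
    · rcases max_choice ‖g 1 0‖ ‖g 1 1‖ with h' | h' <;> rw [h']
      · exact Or.inr (Or.inr (Or.inl le_rfl))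
      · exact Or.inr (Or.inr (Or.inr le_rfl))
  have hw := CAR_w_mem L
  have hw1 : nm (CAR_w : SL2 k) ≤ 1 := (mem_KK.1 hw).1
  have hr : ∀ x : SL2 k, nm (x * CAR_w) ≤ nm x := fun x =>
    (nm_mul_le _ _).trans (mul_le_of_le_one_right (mnm_nonneg _) hw1)
  have hl : ∀ x : SL2 k, nm (CAR_w * x) ≤ nm x := fun x =>
    (nm_mul_le _ _).trans (mul_le_of_le_one_left (mnm_nonneg _) hw1)
  rcases hmax with h | h | h | h
  · exact CAR_main L g h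
  · obtain ⟨j, κ, hκ, κ', hκ', e⟩ := CAR_main L (g * CAR_w) (by
      refine (hr g).trans (h.trans ?_)
      simp [CAR_w, Matrix.mul_apply, Fin.sum_univ_two])
    exact ⟨j, κ, hκ, κ' * CAR_w⁻¹, mul_mem hκ' (inv_mem hw), by
      rw [← mul_assoc, ← e, mul_inv_cancel_right]⟩
  · obtain ⟨j, κ, hκ, κ', hκ', e⟩ := CAR_main L (CAR_w * g) (by
      refine (hl g).trans (h.trans ?_)
      simp [CAR_w, Matrix.mul_apply, Fin.sum_univ_two])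
    exact ⟨j, CAR_w⁻¹ * κ, mul_mem (inv_mem hw) hκ, κ', hκ', by
      rw [mul_assoc, mul_assoc, ← mul_assoc κ, ← e, inv_mul_cancel_left]⟩
  · obtain ⟨j, κ, hκ, κ', hκ', e⟩ := CAR_main L (CAR_w * g * CAR_w) (by
      refine (hr _).trans ((hl g).trans (h.trans ?_))
      simp [CAR_w, Matrix.mul_apply, Fin.sum_univ_two, Matrix.vecMul, dotProduct])
    refine ⟨j, CAR_w⁻¹ * κ, mul_mem (inv_mem hw) hκ, κ' * CAR_w⁻¹, mul_mem hκ' (inv_mem hw), ?_⟩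
    have e2 : CAR_w⁻¹ * κ * aa L j * (κ' * CAR_w⁻¹) = CAR_w⁻¹ * (κ * aa L j * κ') * CAR_w⁻¹ := by
      group
    rw [e2, ← e]
    group

end Pool.PL
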