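import Pool.Agent.Work.MP_972ac7_P.Interface2

set_option autoImplicit false

/-! # Block CL1: a short vector (helper25) -/

open MeasureTheory NumberField IsDedekindDomain
open scoped Quaternion

noncomputable section

namespace Pool.PL

open Pool.TFD Pool.TC

/-- the quaternion with given coordinates -/
def CL1_qv {F : Type} [CommRing F] (a b : F) (δ : Fin 4 → F) : ℍ[F, a, b] :=
  ⟨δ 0, δ 1, δ 2, δ 3⟩

lemma CL1_sub {F : Type} [CommRing F] (a b : F) (y y' : Fin 4 → F) :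
    CL1_qv a b y - CL1_qv a b y' = CL1_qv a b (fun j => y j - y' j) := by
  ext <;> simp [CL1_qv]

lemma CL1_mq {F k : Type} [Field F] [NormedField k] (e : F →+* k) {a b : F} (x y : k)
    (δ : Fin 4 → F) (s : F) :
    mq e x y (CL1_qv a b (fun j => δ j / s)) = (e s)⁻¹ • mq e x y (CL1_qv a b δ) := by
  ext i j
  fin_cases i <;> fin_cases j <;>
  · simp [mq, CL1_qv, div_eq_mul_inv]
    ring

lemma CL1_nrq {F : Type} [Field F] (a b : F) (δ : Fin 4 → F) (s : F) :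
    nrq (CL1_qv a b (fun j => δ j / s)) = nrq (CL1_qv a b δ) / s ^ 2 := by
  simp only [nrq, CL1_qv, div_eq_mul_inv]
  rw [← inv_pow]
  ring

theorem p_CL1 (hPFM : Stmt_PFM) (hLPT : Stmt_LPT) (hNBD : Stmt_NBD) (hPGL : Stmt_PGL)
    (hICL : Stmt_ICL) (hDFN : Stmt_DFN) : Stmt_CL1 := by
  intro F _ _ ι _ k _ _ D
  classical
  cases nonempty_fintype ι
  obtain ⟨-, hP2, -, hP4⟩ := hPFM F D.tr
  obtain ⟨c, hc0, hc⟩ := hLPT F D.tr
  choose CI hCI1 hCI2 hCI3 using fun i => hNBD F ι k D i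
  obtain ⟨CD, hCD0, hCD1, hCD2, hCD3⟩ := hDFN F D.a D.b D.ha D.hb D.tr
  obtain ⟨d, hd⟩ : ∃ d, d = Fintype.card (F →+* ℝ) := ⟨_, rfl⟩
  have hd1 : 1 ≤ d := by
    rw [hd, D.tr.card]
    exact Module.finrank_pos
  obtain ⟨C₃, hC₃⟩ : ∃ C₃ : ℝ, C₃ = ∏ i, (((D.L i).q : ℝ) * CI i) ^ 4 := ⟨_, rfl⟩
  have hC₃0 : 0 ≤ C₃ := by
    rw [hC₃]
    exact Finset.prod_nonneg fun i _ => by positivity
  obtain ⟨C', hC'1, hC'2⟩ : ∃ C' : ℝ, 1 ≤ C' ∧ C₃ + 1 ≤ c * C' := by
    refine ⟨max 1 ((C₃ + 1) / c), le_max_left _ _, ?_⟩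
    calc C₃ + 1 = c * ((C₃ + 1) / c) := by field_simp
      _ ≤ c * max 1 ((C₃ + 1) / c) := mul_le_mul_of_nonneg_left (le_max_right _ _) hc0.le
  refine ⟨(4 * CD) ^ d * C' ^ 2, fun g => ?_⟩
  -- the denominator
  choose ε hε0 hε using fun i => hPGL (k i) (D.L i) (g i) (CI i) (hCI1 i)
  have hlt : ∀ i, av (D.v i) (D.n : F) < 1 := fun i =>
    lt_of_le_of_ne (av_int _ _) (fun h => (av_int_eq_one_iff _ _).1 h (D.div i))
  obtain ⟨t, ht⟩ : ∃ t : ℕ, ∀ i, av (D.v i) (D.n : F) ^ t ≤ ε i := by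
    have h1 : ∀ i, ∀ᶠ t : ℕ in Filter.atTop, av (D.v i) (D.n : F) ^ t ≤ ε i := fun i =>
      (tendsto_pow_atTop_nhds_zero_of_lt_one (av_nonneg _ _) (hlt i)).eventually_le_const (hε0 i)
    exact (Filter.eventually_all.2 h1).exists
  obtain ⟨s, hs⟩ : ∃ s : 𝓞 F, s = D.n ^ t := ⟨_, rfl⟩
  have hs0 : s ≠ 0 := by
    rw [hs]
    exact pow_ne_zero _ D.hn
  have hsF : (s : F) ≠ 0 := by simpa using hs0
  have hsav : ∀ w, av w (s : F) = av w (D.n : F) ^ t := by
    intro w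
    have h1 : (s : F) = (D.n : F) ^ t := by
      rw [hs]
      exact map_pow (algebraMap (𝓞 F) F) _ _
    rw [h1]
    exact map_pow (HeightOneSpectrum.adicAbv F w) _ _
  have hspos : ∀ w, 0 < av w (s : F) := fun w => (HeightOneSpectrum.adicAbv F w).pos hsF
  have hes : ∀ i, ‖D.e i (s : F)‖ = av (D.v i) (s : F) := fun i => D.he i _
  have hes0 : ∀ i, D.e i (s : F) ≠ 0 := fun i => (map_ne_zero (D.e i)).2 hsF
  obtain ⟨T', hT'⟩ : ∃ T' : Finset (HeightOneSpectrum (𝓞 F)),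
      T' = (hP4 D.n D.hn).toFinset.filter (fun w => ∀ i, w ≠ D.v i) := ⟨_, rfl⟩
  have hmemT' : ∀ w, w ∈ T' ↔ D.n ∈ w.asIdeal ∧ ∀ i, w ≠ D.v i := by
    intro w
    rw [hT', Finset.mem_filter, Set.Finite.mem_toFinset]
    exact Iff.rfl
  have hout : ∀ w : HeightOneSpectrum (𝓞 F), D.n ∉ w.asIdeal → av w (s : F) = 1 := by
    intro w hw
    rw [hsav, (av_int_eq_one_iff w D.n).2 hw, one_pow]
  choose NW clW hNW1 hNW2 using fun w => hICL F w s hs0
  choose NI clI hNI1 hNI2 using fun i => hε i (D.e i (s : F)) (hes0 i)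
    (by rw [hes, hsav]; exact ht i)
  obtain ⟨A, hA⟩ : ∃ A : ℝ, A = ∏ i, av (D.v i) (s : F) := ⟨_, rfl⟩
  obtain ⟨A', hA'⟩ : ∃ A' : ℝ, A' = ∏ w ∈ T', av w (s : F) := ⟨_, rfl⟩
  have hprod : Nm (s : F) * (A * A') = 1 := by
    have h1 := hP2 s hs0 (Finset.univ.image D.v ∪ T') (by
      intro w hw
      rw [Finset.mem_union, not_or] at hw
      apply hout
      intro hnw
      apply hw.2
      rw [hmemT']
      exact ⟨hnw, fun i hi => hw.1 (Finset.mem_image.2 ⟨i, Finset.mem_univ _, hi.symm⟩)⟩)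
    rw [Finset.prod_union, Finset.prod_image] at h1
    · rw [hA, hA']
      exact h1
    · exact fun i _ j _ h => D.inj h
    · rw [Finset.disjoint_left]
      intro w hw hw'
      obtain ⟨i, -, hi⟩ := Finset.mem_image.1 hw
      exact ((hmemT' w).1 hw').2 i hi.symm
  have hA0 : 0 < A := by
    rw [hA]
    exact Finset.prod_pos fun i _ => hspos _
  have hA'0 : 0 < A' := by
    rw [hA']
    exact Finset.prod_pos fun w _ => hspos _
  have hA1 : A ≤ 1 := by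
    rw [hA]
    exact Finset.prod_le_one (fun i _ => (hspos _).le) (fun i _ => av_int _ _)
  have hA'1 : A' ≤ 1 := by
    rw [hA']
    exact Finset.prod_le_one (fun i _ => (hspos _).le) (fun i _ => av_int _ _)
  have hNm0 : 0 < Nm (s : F) := Nm_pos hsF
  have hNm1 : 1 ≤ Nm (s : F) := by
    have h1 : A * A' ≤ 1 := mul_le_one₀ hA1 hA'0.le hA'1
    nlinarith
  -- the number of classes
  have hK : (Fintype.card ((∀ i, Fin (NI i)) × (∀ w : T', Fin 4 → Fin (NW w))) : ℝ) ≤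
      C₃ * Nm (s : F) ^ 4 := by
    have h1 : (Fintype.card ((∀ i, Fin (NI i)) × (∀ w : T', Fin 4 → Fin (NW w))) : ℝ) =
        (∏ i, (NI i : ℝ)) * ∏ w ∈ T', (NW w : ℝ) ^ 4 := by
      rw [Fintype.card_prod, Fintype.card_pi, Fintype.card_pi]
      simp only [Fintype.card_fin, Fintype.card_fun]
      push_cast
      rw [Finset.prod_coe_sort T' (fun w => (NW w : ℝ) ^ 4)]
    have h2 : (∏ i, (NI i : ℝ)) * A ^ 4 ≤ C₃ := by
      rw [hA, hC₃, ← Finset.prod_pow, ← Finset.prod_mul_distrib]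
      apply Finset.prod_le_prod
      · intro i _
        have := (hspos (D.v i)).le
        positivity
      · intro i _
        have h3 := hNI1 i
        rw [hes] at h3
        exact h3
    have h3 : (∏ w ∈ T', (NW w : ℝ) ^ 4) * A' ^ 4 = 1 := by
      rw [hA', ← Finset.prod_pow, ← Finset.prod_mul_distrib]
      apply Finset.prod_eq_one
      intro w _
      rw [← mul_pow, hNW1 w, one_pow]
    rw [h1]
    have h4 : (Nm (s : F) * (A * A')) ^ 4 = 1 := by rw [hprod, one_pow]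
    calc (∏ i, (NI i : ℝ)) * ∏ w ∈ T', (NW w : ℝ) ^ 4 =
        ((∏ i, (NI i : ℝ)) * ∏ w ∈ T', (NW w : ℝ) ^ 4) * (Nm (s : F) * (A * A')) ^ 4 := by
          rw [h4, mul_one]
      _ = (∏ i, (NI i : ℝ)) * A ^ 4 * ((∏ w ∈ T', (NW w : ℝ) ^ 4) * A' ^ 4) * Nm (s : F) ^ 4 := by
          ring
      _ ≤ C₃ * 1 * Nm (s : F) ^ 4 := by
          rw [h3]
          apply mul_le_mul_of_nonneg_right _ (by positivity)
          exact mul_le_mul_of_nonneg_right h2 zero_le_one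
      _ = C₃ * Nm (s : F) ^ 4 := by rw [mul_one]
  -- the box
  obtain ⟨B, hB1, hBd⟩ : ∃ B : ℝ, 1 ≤ B ∧ B ^ d = C' * Nm (s : F) := by
    refine ⟨(C' * Nm (s : F)) ^ ((d : ℝ)⁻¹), Real.one_le_rpow ?_ (by positivity),
      Real.rpow_inv_natCast_pow (by positivity) (by omega)⟩
    nlinarith
  obtain ⟨Y, hY1, hY2⟩ := hc B hB1
  rw [← hd, hBd] at hY1
  have hcard : Fintype.card ((∀ i, Fin (NI i)) × (∀ w : T', Fin 4 → Fin (NW w))) <
      Fintype.card (Fin 4 → Y) := by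
    have h1 : (Fintype.card (Fin 4 → Y) : ℝ) = (Y.card : ℝ) ^ 4 := by
      simp
    have h2 : C₃ * Nm (s : F) ^ 4 < (Y.card : ℝ) ^ 4 := by
      have h3 : (C₃ + 1) * Nm (s : F) ≤ (Y.card : ℝ) := by
        refine le_trans ?_ hY1
        rw [← mul_assoc]
        exact mul_le_mul_of_nonneg_right hC'2 hNm0.le
      have h4 : ((C₃ + 1) * Nm (s : F)) ^ 4 ≤ (Y.card : ℝ) ^ 4 :=
        pow_le_pow_left₀ (by positivity) h3 4
      refine lt_of_lt_of_le ?_ h4
      rw [mul_pow]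
      apply mul_lt_mul_of_pos_right _ (by positivity)
      have h5 : C₃ + 1 ≤ (C₃ + 1) ^ 4 := le_self_pow₀ (by linarith) (by norm_num)
      linarith
    have h3 := lt_of_le_of_lt hK h2
    rw [← h1] at h3
    exact_mod_cast h3
  obtain ⟨y, y', hne, hyy⟩ := Fintype.exists_ne_map_eq_of_card_lt
    (fun y : Fin 4 → Y => ((fun i => clI i (D.mt i (CL1_qv (D.a : F) (D.b : F)
        (fun j => ((y j : 𝓞 F) : F)))),
      fun (w : T') j => clW w (y j : 𝓞 F)) :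
        (∀ i, Fin (NI i)) × (∀ w : T', Fin 4 → Fin (NW w)))) hcard
  have hy1 : ∀ i, clI i (D.mt i (CL1_qv (D.a : F) (D.b : F) (fun j => ((y j : 𝓞 F) : F)))) =
      clI i (D.mt i (CL1_qv (D.a : F) (D.b : F) (fun j => ((y' j : 𝓞 F) : F)))) := by
    intro i
    exact congrFun (congrArg Prod.fst hyy) i
  have hy2 : ∀ w ∈ T', ∀ j, clW w (y j : 𝓞 F) = clW w (y' j : 𝓞 F) := by
    intro w hw j
    exact congrFun (congrFun (congrArg Prod.snd hyy) ⟨w, hw⟩) j
  obtain ⟨δ, hδ⟩ : ∃ δ : Fin 4 → F, δ = fun j => ((y j : 𝓞 F) : F) - ((y' j : 𝓞 F) : F) :=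
    ⟨_, rfl⟩
  have hdiv : ∀ (w : HeightOneSpectrum (𝓞 F)) (j : Fin 4), av w (δ j) ≤ av w (s : F) →
      av w (δ j / (s : F)) ≤ 1 := by
    intro w j h
    have h1 : av w (δ j / (s : F)) = av w (δ j) / av w (s : F) :=
      map_div₀ (HeightOneSpectrum.adicAbv F w) _ _
    rw [h1, div_le_one (hspos w)]
    exact h
  have hCB : ∀ w : HeightOneSpectrum (𝓞 F), (∀ j, av w (δ j) ≤ av w (s : F)) →
      CB w (CL1_qv (D.a : F) (D.b : F) (fun j => δ j / (s : F))) 1 := by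
    intro w h
    exact ⟨hdiv w 0 (h 0), hdiv w 1 (h 1), hdiv w 2 (h 2), hdiv w 3 (h 3)⟩
  refine ⟨CL1_qv (D.a : F) (D.b : F) (fun j => δ j / (s : F)), ?_, ?_, ?_, ?_, ?_⟩
  · intro h0
    apply hne
    funext j
    have h1 : ∀ j, δ j / (s : F) = 0 := by
      intro j
      have e0 := congrArg QuaternionAlgebra.re h0
      have e1 := congrArg QuaternionAlgebra.imI h0
      have e2 := congrArg QuaternionAlgebra.imJ h0
      have e3 := congrArg QuaternionAlgebra.imK h0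
      simp only [CL1_qv, QuaternionAlgebra.re_zero, QuaternionAlgebra.imI_zero,
        QuaternionAlgebra.imJ_zero, QuaternionAlgebra.imK_zero] at e0 e1 e2 e3
      fin_cases j
      · exact e0
      · exact e1
      · exact e2
      · exact e3
    have h2 : δ j = 0 := by
      rcases div_eq_zero_iff.1 (h1 j) with h | h
      · exact h
      · exact absurd h hsF
    rw [hδ] at h2
    have h3 : ((y j : 𝓞 F) : F) = ((y' j : 𝓞 F) : F) := sub_eq_zero.1 h2
    apply Subtype.ext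
    exact RingOfIntegers.ext h3
  · intro w hw
    apply hCB
    intro j
    rw [hout w hw, hδ]
    have h1 := av_int w ((y j : 𝓞 F) - (y' j : 𝓞 F))
    have h2 : (((y j : 𝓞 F) - (y' j : 𝓞 F) : 𝓞 F) : F) =
        ((y j : 𝓞 F) : F) - ((y' j : 𝓞 F) : F) := map_sub (algebraMap (𝓞 F) F) _ _
    rw [h2] at h1
    exact h1
  · intro w hw hw'
    apply hCB
    intro j
    rw [hδ]
    exact hNW2 w _ _ (hy2 w ((hmemT' w).2 ⟨hw, hw'⟩) j)
  · intro i
    have hb : ∀ y : Fin 4 → Y,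
        mnm (D.mt i (CL1_qv (D.a : F) (D.b : F) (fun j => ((y j : 𝓞 F) : F)))) ≤ CI i := by
      intro y
      have h1 := hCI2 i (CL1_qv (D.a : F) (D.b : F) (fun j => ((y j : 𝓞 F) : F))) 1
        ⟨av_int _ _, av_int _ _, av_int _ _, av_int _ _⟩
      rw [mul_one] at h1
      exact h1
    have h1 := hNI2 i _ _ (hb y) (hb y') (hy1 i)
    have h2 : D.mt i (CL1_qv (D.a : F) (D.b : F) (fun j => ((y j : 𝓞 F) : F))) -
        D.mt i (CL1_qv (D.a : F) (D.b : F) (fun j => ((y' j : 𝓞 F) : F))) =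
        D.mt i (CL1_qv (D.a : F) (D.b : F) δ) := by
      unfold Ctx.mt
      rw [← mq_sub, CL1_sub, hδ]
    rw [h2] at h1
    have h3 : D.mt i (CL1_qv (D.a : F) (D.b : F) (fun j => δ j / (s : F))) =
        (D.e i (s : F))⁻¹ • D.mt i (CL1_qv (D.a : F) (D.b : F) δ) := by
      unfold Ctx.mt
      exact CL1_mq _ _ _ _ _
    rw [h3, Matrix.mul_smul, mnm_le]
    rw [mnm_le] at h1
    intro a b
    rw [Matrix.smul_apply, smul_eq_mul, norm_mul, norm_inv, inv_mul_le_iff₀ (norm_pos_iff.2 (hes0 i)),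
      mul_one]
    exact h1 a b
  · rw [CL1_nrq]
    have hδb : ∀ (σ : F →+* ℝ) (j : Fin 4), |σ (δ j)| ≤ 2 * B := by
      intro σ j
      rw [hδ]
      simp only [map_sub]
      have h1 := hY2 _ (y j).2 σ
      have h2 := hY2 _ (y' j).2 σ
      calc _ ≤ |σ ((y j : 𝓞 F) : F)| + |σ ((y' j : 𝓞 F) : F)| := abs_sub _ _
        _ ≤ 2 * B := by linarith
    have hterm : ∀ σ : F →+* ℝ, |σ (nrq (CL1_qv (D.a : F) (D.b : F) δ) / (s : F) ^ 2)| ≤
        CD * (2 * B) ^ 2 / |σ (s : F)| ^ 2 := by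
      intro σ
      rw [map_div₀, map_pow, abs_div, abs_pow]
      apply div_le_div_of_nonneg_right _ (by positivity)
      have h1 := (hCD1 (CL1_qv (D.a : F) (D.b : F) δ) σ).1
      have h2 : 0 ≤ σ (nrq (CL1_qv (D.a : F) (D.b : F) δ)) := by
        by_contra hneg
        push Not at hneg
        nlinarith [sq_nonneg (σ (CL1_qv (D.a : F) (D.b : F) δ).re)]
      rw [abs_of_nonneg h2]
      exact hCD2 _ σ (2 * B) (hδb σ 0) (hδb σ 1) (hδb σ 2) (hδb σ 3)
    have hbound : Nm (nrq (CL1_qv (D.a : F) (D.b : F) δ) / (s : F) ^ 2) ≤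
        ∏ σ : F →+* ℝ, (CD * (2 * B) ^ 2 / |σ (s : F)| ^ 2) := by
      unfold Nm
      exact Finset.prod_le_prod (fun σ _ => abs_nonneg _) (fun σ _ => hterm σ)
    refine hbound.trans ?_
    rw [Finset.prod_div_distrib, Finset.prod_const, Finset.card_univ, ← hd, Finset.prod_pow]
    change (CD * (2 * B) ^ 2) ^ d / Nm (s : F) ^ 2 ≤ _
    rw [div_le_iff₀ (by positivity)]
    apply le_of_eq
    have h5 : (CD * (2 * B) ^ 2) ^ d = (4 * CD) ^ d * (B ^ d) ^ 2 := by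
      rw [← pow_mul, mul_comm d 2, pow_mul, ← mul_pow]
      congr 1
      ring
    rw [h5, hBd]
    ring

end Pool.PL
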