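import Pool.Agent.Work.MP_972ac7_P.Interface2

set_option autoImplicit false

/-! # Block CL2: the norm up to squares of units -/

open MeasureTheory NumberField IsDedekindDomain
open scoped Quaternion

noncomputable section

namespace Pool.PL

open Pool.TFD Pool.TC

/-- an element of the base field as a quaternion scales the norm form by its square -/
theorem CL2_nrq_smul {R : Type} [CommRing R] {a b : R} (c : R) (z : ℍ[R, a, b]) :
    nrq (c • z) = c ^ 2 * nrq z := by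
  simp only [nrq, QuaternionAlgebra.re_smul, QuaternionAlgebra.imI_smul,
    QuaternionAlgebra.imJ_smul, QuaternionAlgebra.imK_smul, smul_eq_mul]
  ring

theorem CL2_mq_smul {F k : Type} [Field F] [NormedField k] (e : F →+* k) {a b : F} (x y : k)
    (c : F) (z : ℍ[F, a, b]) : mq e x y (c • z) = e c • mq e x y z := by
  ext i j
  fin_cases i <;> fin_cases j <;>
  · simp [mq]
    ring

theorem CL2_mnm_smul {k : Type} [NormedField k] (c : k) (hc : ‖c‖ ≤ 1)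
    {m : Matrix (Fin 2) (Fin 2) k} (h : mnm m ≤ 1) : mnm (c • m) ≤ 1 := by
  rw [mnm_le] at h ⊢
  intro i j
  rw [Matrix.smul_apply, smul_eq_mul, norm_mul]
  exact mul_le_one₀ hc (norm_nonneg _) (h i j)

theorem CL2_det_le {k : Type} [NormedField k] [IsUltrametricDist k]
    {m : Matrix (Fin 2) (Fin 2) k} (h : mnm m ≤ 1) : ‖m.det‖ ≤ 1 := by
  rw [mnm_le] at h
  rw [Matrix.det_fin_two, sub_eq_add_neg]
  refine le_trans (IsUltrametricDist.norm_add_le_max _ _) (max_le ?_ ?_)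
  · rw [norm_mul]
    exact mul_le_one₀ (h 0 0) (norm_nonneg _) (h 1 1)
  · rw [norm_neg, norm_mul]
    exact mul_le_one₀ (h 0 1) (norm_nonneg _) (h 1 0)

section quat

variable {F : Type} [Field F] [NumberField F]

theorem CL2_nrq_int {w : HeightOneSpectrum (𝓞 F)} {a b : 𝓞 F} {z : ℍ[F, (a : F), (b : F)]}
    (h : CB w z 1) : av w (nrq z) ≤ 1 := by
  obtain ⟨h1, h2, h3, h4⟩ := h
  rw [← mem_OS] at h1 h2 h3 h4
  have ha : (a : F) ∈ OS w := av_int w a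
  have hb : (b : F) ∈ OS w := av_int w b
  rw [← mem_OS]
  unfold nrq
  exact add_mem (sub_mem (sub_mem (pow_mem h1 2) (mul_mem ha (pow_mem h2 2)))
    (mul_mem hb (pow_mem h3 2))) (mul_mem (mul_mem ha hb) (pow_mem h4 2))

theorem CL2_CB_smul {w : HeightOneSpectrum (𝓞 F)} {a b : F} {z : ℍ[F, a, b]} (c : F)
    (hc : av w c ≤ 1) (h : CB w z 1) : CB w (c • z) 1 := by
  obtain ⟨h1, h2, h3, h4⟩ := h
  refine ⟨?_, ?_, ?_, ?_⟩
  · rw [QuaternionAlgebra.re_smul, smul_eq_mul, av_mul]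
    exact mul_le_one₀ hc (av_nonneg _ _) h1
  · rw [QuaternionAlgebra.imI_smul, smul_eq_mul, av_mul]
    exact mul_le_one₀ hc (av_nonneg _ _) h2
  · rw [QuaternionAlgebra.imJ_smul, smul_eq_mul, av_mul]
    exact mul_le_one₀ hc (av_nonneg _ _) h3
  · rw [QuaternionAlgebra.imK_smul, smul_eq_mul, av_mul]
    exact mul_le_one₀ hc (av_nonneg _ _) h4

end quat

theorem p_CL2 (hPFM : Stmt_PFM) (hCL1 : Stmt_CL1) (hUSQ : Stmt_USQ) (hDFN : Stmt_DFN) :
    Stmt_CL2 := by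
  intro F _ _ ι _ k _ _ D
  obtain ⟨-, -, hint, -⟩ := hPFM F D.tr
  obtain ⟨-, -, -, -, hdef⟩ := hDFN F D.a D.b D.ha D.hb D.tr
  obtain ⟨C, hC⟩ := hCL1 F ι k D
  obtain ⟨Δ, hΔ0, hΔ⟩ := hUSQ F D.tr C
  refine ⟨Δ, hΔ0, ?_⟩
  intro g
  obtain ⟨x, hx0, hx1, hx2, hx3, hx4⟩ := hC g
  -- the norm is integral everywhere
  have hi : ∀ w : HeightOneSpectrum (𝓞 F), av w (nrq x) ≤ 1 := by
    intro w
    by_cases hw : D.n ∈ w.asIdeal
    · by_cases hs : ∃ i, w = D.v i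
      · obtain ⟨i, rfl⟩ := hs
        rw [← D.he i]
        have hdet : ((g i : Matrix (Fin 2) (Fin 2) (k i)) * D.mt i x).det = D.e i (nrq x) := by
          rw [Matrix.det_mul, (g i).2, one_mul]
          exact mq_det (D.e i) (D.spl i) x
        rw [← hdet]
        exact CL2_det_le (hx3 i)
      · exact CL2_nrq_int (hx2 w hw fun i hi => hs ⟨i, hi⟩)
    · exact CL2_nrq_int (hx1 w hw)
  obtain ⟨δ, hδ⟩ := hint (nrq x) hi
  have hδ0 : δ ≠ 0 := by
    intro h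
    apply hx0
    apply hdef
    rw [← hδ, h]
    simp
  obtain ⟨δ', hδ', u, hu⟩ := hΔ δ hδ0 (by rw [hδ]; exact hx4)
  -- the inverse of the unit
  have huv : ((u : 𝓞 F) : F) * (((u⁻¹ : (𝓞 F)ˣ) : 𝓞 F) : F) = 1 := by
    have h1 : (u : 𝓞 F) * ((u⁻¹ : (𝓞 F)ˣ) : 𝓞 F) = 1 := u.mul_inv
    have h2 := congrArg (algebraMap (𝓞 F) F) h1
    rw [map_mul, map_one] at h2
    exact h2
  refine ⟨((((u⁻¹ : (𝓞 F)ˣ) : 𝓞 F) : F)) • x, ⟨δ', hδ', ?_⟩, ?_, ?_⟩
  · rw [CL2_nrq_smul, ← hδ, hu]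
    have h3 : ((δ' * (u : 𝓞 F) ^ 2 : 𝓞 F) : F) = (δ' : F) * ((u : 𝓞 F) : F) ^ 2 := by
      simp only [map_mul, map_pow]
    rw [h3]
    calc _ = (δ' : F) * (((u : 𝓞 F) : F) * (((u⁻¹ : (𝓞 F)ˣ) : 𝓞 F) : F)) ^ 2 := by ring
      _ = (δ' : F) := by rw [huv, one_pow, mul_one]
  · intro w hw
    exact CL2_CB_smul _ (av_int w _) (hx1 w hw)
  · intro i
    have h4 : (g i : Matrix (Fin 2) (Fin 2) (k i)) *
        D.mt i (((((u⁻¹ : (𝓞 F)ˣ) : 𝓞 F) : F)) • x) =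
        D.e i ((((u⁻¹ : (𝓞 F)ˣ) : 𝓞 F) : F)) •
          ((g i : Matrix (Fin 2) (Fin 2) (k i)) * D.mt i x) := by
      unfold Ctx.mt
      rw [CL2_mq_smul, Matrix.mul_smul]
    rw [h4]
    refine CL2_mnm_smul _ ?_ (hx3 i)
    rw [D.he i]
    exact av_int _ _

end Pool.PL
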