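import Pool.Agent.Work.MP_972ac7_P.Interface2

set_option autoImplicit false

open MeasureTheory NumberField IsDedekindDomain
open scoped Quaternion

noncomputable section

namespace Pool.PL

open Pool.TFD Pool.TC

/-- a map to a finite type has finitely many representatives -/
theorem CL3_fin {X A : Type} [Nonempty X] [Finite A] (dat : X → A) (R : X → X → Prop)
    (h : ∀ x y, dat x = dat y → R x y) : ∃ (N : ℕ) (g : Fin N → X), ∀ x, ∃ i, R (g i) x := by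
  classical
  have e : A ≃ Fin (Nat.card A) := Finite.equivFin A
  refine ⟨Nat.card A, fun i => Function.invFun dat (e.symm i), fun x => ⟨e (dat x), ?_⟩⟩
  refine h _ _ ?_
  simp only [Equiv.symm_apply_apply]
  exact Function.invFun_eq ⟨x, rfl⟩

/-- residue classes in one local field -/
theorem CL3_res (hRES : Stmt_RES) {k : Type} [NormedField k] [IsUltrametricDist k] (L : LocF k)
    (ε : ℝ) (hε : 0 < ε) : ∃ (N : ℕ) (cl : k → Fin N), ∀ x y : k, ‖x‖ ≤ 1 → ‖y‖ ≤ 1 →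
      cl x = cl y → ‖x - y‖ ≤ ε := by
  classical
  obtain ⟨r, hr⟩ := exists_pow_lt_of_lt_one hε (inv_lt_one_of_one_lt₀ L.one_lt)
  obtain ⟨R, -, -, hR⟩ := hRES k L r
  have hpos : 0 < L.q ^ r := pow_pos (by have := L.two_le; omega) r
  refine ⟨L.q ^ r, fun x => if h : ‖x‖ ≤ 1 then (hR x h).choose else ⟨0, hpos⟩, ?_⟩
  intro x y hx hy hxy
  simp only [dif_pos hx, dif_pos hy] at hxy
  have h1 := (hR x hx).choose_spec
  have h2 := (hR y hy).choose_spec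
  rw [hxy] at h1
  have h3 : x - y = (x - R (hR y hy).choose) + -(y - R (hR y hy).choose) := by ring
  rw [h3]
  refine le_trans (IsUltrametricDist.norm_add_le_max _ _) (max_le ?_ ?_)
  · refine le_trans h1 ?_
    rw [← inv_pow]
    exact hr.le
  · rw [norm_neg]
    refine le_trans h2 ?_
    rw [← inv_pow]
    exact hr.le

section quat

variable {F : Type} [Field F] [NumberField F]

theorem CL3_CB_add {w : HeightOneSpectrum (𝓞 F)} {a b : F} {z z' : ℍ[F, a, b]}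
    (h : CB w z 1) (h' : CB w z' 1) : CB w (z + z') 1 := by
  obtain ⟨h1, h2, h3, h4⟩ := h
  obtain ⟨k1, k2, k3, k4⟩ := h'
  rw [← mem_OS] at h1 h2 h3 h4 k1 k2 k3 k4
  refine ⟨?_, ?_, ?_, ?_⟩
  · rw [← mem_OS, QuaternionAlgebra.re_add]
    exact add_mem h1 k1
  · rw [← mem_OS, QuaternionAlgebra.imI_add]
    exact add_mem h2 k2
  · rw [← mem_OS, QuaternionAlgebra.imJ_add]
    exact add_mem h3 k3
  · rw [← mem_OS, QuaternionAlgebra.imK_add]
    exact add_mem h4 k4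

theorem CL3_av_div {w : HeightOneSpectrum (𝓞 F)} {d t : F} (hd : d ≠ 0)
    (h : av w t ≤ av w d) : av w (d⁻¹ * t) ≤ 1 := by
  have h1 : av w d * av w (d⁻¹ * t) = av w t := by
    rw [← av_mul, ← mul_assoc, mul_inv_cancel₀ hd, one_mul]
  have h2 : 0 < av w d := by
    refine lt_of_le_of_ne (av_nonneg w d) fun h0 => ?_
    exact hd ((HeightOneSpectrum.adicAbv F w).eq_zero.1 h0.symm)
  by_contra h3
  push Not at h3
  have h4 : av w d * 1 < av w d * av w (d⁻¹ * t) := mul_lt_mul_of_pos_left h3 h2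
  rw [h1, mul_one] at h4
  exact absurd h (not_le.2 h4)

omit [NumberField F] in
/-- the quotient of two quaternions of the same norm -/
theorem CL3_quot {a b : F} (x x' : ℍ[F, a, b]) (d : F) (hd : d ≠ 0) (hx : nrq x = d)
    (hx' : nrq x' = d) :
    (1 + (d⁻¹ • (x' - x)) * star x) * x = x' ∧ nrq (1 + (d⁻¹ • (x' - x)) * star x) = 1 := by
  have h1 : (1 + (d⁻¹ • (x' - x)) * star x) * x = x' := by
    rw [add_mul, one_mul, mul_assoc, (star_mul_self' x).1, hx]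
    rw [← QuaternionAlgebra.coe_commutes, QuaternionAlgebra.coe_mul_eq_smul, smul_smul,
      mul_inv_cancel₀ hd, one_smul]
    abel
  refine ⟨h1, ?_⟩
  have h2 := congrArg nrq h1
  rw [nrq_mul, hx, hx'] at h2
  exact mul_right_cancel₀ hd (by rw [h2, one_mul])

theorem CL3_CB_smul_sub {w : HeightOneSpectrum (𝓞 F)} {a b : F} {d : F} (hd : d ≠ 0)
    {z z' : ℍ[F, a, b]} (h1 : av w (z'.re - z.re) ≤ av w d)
    (h2 : av w (z'.imI - z.imI) ≤ av w d) (h3 : av w (z'.imJ - z.imJ) ≤ av w d)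
    (h4 : av w (z'.imK - z.imK) ≤ av w d) : CB w (d⁻¹ • (z' - z)) 1 := by
  refine ⟨?_, ?_, ?_, ?_⟩
  · rw [QuaternionAlgebra.re_smul, QuaternionAlgebra.re_sub, smul_eq_mul]
    exact CL3_av_div hd h1
  · rw [QuaternionAlgebra.imI_smul, QuaternionAlgebra.imI_sub, smul_eq_mul]
    exact CL3_av_div hd h2
  · rw [QuaternionAlgebra.imJ_smul, QuaternionAlgebra.imJ_sub, smul_eq_mul]
    exact CL3_av_div hd h3
  · rw [QuaternionAlgebra.imK_smul, QuaternionAlgebra.imK_sub, smul_eq_mul]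
    exact CL3_av_div hd h4

theorem CL3_sub_le_one {w : HeightOneSpectrum (𝓞 F)} {s t : F} (hs : av w s ≤ 1)
    (ht : av w t ≤ 1) : av w (s - t) ≤ 1 := by
  rw [← mem_OS] at hs ht ⊢
  exact sub_mem hs ht

/-- two elements with the same data are in the same class -/
theorem CL3_main (hMIN : Stmt_MIN) {ι : Type} {k : ι → Type} [∀ i, NormedField (k i)]
    [∀ i, IsUltrametricDist (k i)] (D : Ctx F ι k) (g g' : GG k)
    (x x' : ℍ[F, (D.a : F), (D.b : F)]) (δ : 𝓞 F) (hδ : δ ≠ 0) (hx : nrq x = (δ : F))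
    (hx' : nrq x' = (δ : F)) (hc : ∀ w, D.n ∉ w.asIdeal → CB w x 1)
    (hc' : ∀ w, D.n ∉ w.asIdeal → CB w x' 1)
    (hm : ∀ i, mnm ((g i : Matrix (Fin 2) (Fin 2) (k i)) * D.mt i x) ≤ 1)
    (hm' : ∀ i, mnm ((g' i : Matrix (Fin 2) (Fin 2) (k i)) * D.mt i x') ≤ 1)
    (hw : ∀ w : HeightOneSpectrum (𝓞 F), δ ∈ w.asIdeal → D.n ∉ w.asIdeal →
      av w (x'.re - x.re) ≤ av w (δ : F) ∧ av w (x'.imI - x.imI) ≤ av w (δ : F) ∧
      av w (x'.imJ - x.imJ) ≤ av w (δ : F) ∧ av w (x'.imK - x.imK) ≤ av w (δ : F))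
    (hr : ∀ i a b, ‖((g' i : Matrix (Fin 2) (Fin 2) (k i)) * D.mt i x') a b -
      ((g i : Matrix (Fin 2) (Fin 2) (k i)) * D.mt i x) a b‖ ≤ ‖D.e i (δ : F)‖) :
    ∃ κ ∈ KG D.L 0, ∃ γ ∈ D.Γ, g' = κ * g * γ := by
  have hδF : (δ : F) ≠ 0 := by
    intro h
    exact hδ (by exact_mod_cast h)
  obtain ⟨h1, h2⟩ := CL3_quot x x' (δ : F) hδF hx hx'
  set y : ℍ[F, (D.a : F), (D.b : F)] := (δ : F)⁻¹ • (x' - x) with hy
  set z : ℍ[F, (D.a : F), (D.b : F)] := 1 + y * star x with hz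
  let ζ : unitary ℍ[F, (D.a : F), (D.b : F)] := ⟨z, (mem_unitary_iff_nrq z).2 h2⟩
  have hζ : ζ ∈ GU D.a D.b D.n := by
    rw [mem_GU]
    intro w hwn
    have hcx := hc w hwn
    have hcx' := hc' w hwn
    refine CL3_CB_add (CB_one w) (CB_mul (av_int w D.a) (av_int w D.b) ?_ (CB_star hcx))
    by_cases hδw : δ ∈ w.asIdeal
    · obtain ⟨k1, k2, k3, k4⟩ := hw w hδw hwn
      exact CL3_CB_smul_sub hδF k1 k2 k3 k4
    · have h3 : av w (δ : F) = 1 := (av_int_eq_one_iff w δ).2 hδw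
      obtain ⟨k1, k2, k3, k4⟩ := hcx
      obtain ⟨l1, l2, l3, l4⟩ := hcx'
      refine CL3_CB_smul_sub hδF ?_ ?_ ?_ ?_ <;> rw [h3]
      · exact CL3_sub_le_one l1 k1
      · exact CL3_sub_le_one l2 k2
      · exact CL3_sub_le_one l3 k3
      · exact CL3_sub_le_one l4 k4
  have hdet : ∀ i, (D.mt i x).det = D.e i (δ : F) := by
    intro i
    unfold Ctx.mt
    rw [mq_det (D.e i) (D.spl i), hx]
  have hdet' : ∀ i, (D.mt i x').det = D.e i (δ : F) := by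
    intro i
    unfold Ctx.mt
    rw [mq_det (D.e i) (D.spl i), hx']
  have hex : ∀ i, ∃ κ ∈ KK (D.L i) 0, (g' i : Matrix (Fin 2) (Fin 2) (k i)) * D.mt i x' =
      (κ : Matrix (Fin 2) (Fin 2) (k i)) * ((g i : Matrix (Fin 2) (Fin 2) (k i)) * D.mt i x) := by
    intro i
    have hd1 : ((g i : Matrix (Fin 2) (Fin 2) (k i)) * D.mt i x).det = D.e i (δ : F) := by
      rw [Matrix.det_mul, (g i).2, one_mul, hdet i]
    have hd2 : ((g' i : Matrix (Fin 2) (Fin 2) (k i)) * D.mt i x').det = D.e i (δ : F) := by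
      rw [Matrix.det_mul, (g' i).2, one_mul, hdet' i]
    refine hMIN (k i) (D.L i) _ _ (hm i) (hm' i) (hd1.trans hd2.symm) ?_ ?_
    · rw [hd1]
      exact (map_ne_zero (D.e i)).2 hδF
    · rw [hd1, mnm_le]
      intro a b
      exact hr i a b
  choose κ hκ hκ2 using hex
  refine ⟨κ, ?_, (D.Th ζ)⁻¹, inv_mem ⟨ζ, hζ, rfl⟩, ?_⟩
  · rw [mem_KG]
    intro i
    exact hκ i
  · rw [eq_mul_inv_iff_mul_eq]
    funext i
    apply Subtype.ext
    change (g' i : Matrix (Fin 2) (Fin 2) (k i)) * mq (D.e i) (D.x i) (D.y i) z =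
      (κ i : Matrix (Fin 2) (Fin 2) (k i)) * (g i : Matrix (Fin 2) (Fin 2) (k i))
    have h5 : mq (D.e i) (D.x i) (D.y i) x' =
        mq (D.e i) (D.x i) (D.y i) z * mq (D.e i) (D.x i) (D.y i) x := by
      rw [← mq_mul (D.e i) (D.spl i), h1]
    have h6 := hκ2 i
    have h7 : (D.mt i x).det ≠ 0 := by
      rw [hdet i]
      exact (map_ne_zero (D.e i)).2 hδF
    have h8 : IsUnit (D.mt i x) := (Matrix.isUnit_iff_isUnit_det _).2 (isUnit_iff_ne_zero.2 h7)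
    refine h8.mul_right_cancel ?_
    rw [Matrix.mul_assoc, Matrix.mul_assoc]
    unfold Ctx.mt at h6 ⊢
    rw [← h5]
    exact h6

end quat

theorem p_CL3 (hPFM : Stmt_PFM) (hCL2 : Stmt_CL2) (hLCL : Stmt_LCL) (hRES : Stmt_RES)
    (hMIN : Stmt_MIN) : Stmt_CL3 := by
  intro F _ _ ι _ k _ _ D
  obtain ⟨-, -, -, hfin⟩ := hPFM F D.tr
  obtain ⟨Δ, hΔ0, hC⟩ := hCL2 F ι k D
  choose X hX using hC
  have hX1 : ∀ g, ∃ δ ∈ Δ, nrq (X g) = (δ : F) := fun g => (hX g).1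
  choose d hdΔ hdn using hX1
  -- the places
  let T : Set (HeightOneSpectrum (𝓞 F)) := ⋃ δ ∈ (Δ : Set (𝓞 F)), {w | δ ∈ w.asIdeal}
  have hT : T.Finite := Δ.finite_toSet.biUnion fun δ hδ => hfin δ (hΔ0 δ hδ)
  have hTf : Finite T := hT
  have hL : ∀ (w : T) (δ : {δ // δ ∈ Δ}), ∃ (N : ℕ) (cl : F → Fin N), ∀ x y : F,
      av w.1 x ≤ 1 → av w.1 y ≤ 1 → cl x = cl y → av w.1 (x - y) ≤ av w.1 ((δ : 𝓞 F) : F) := by
    intro w δ
    refine hLCL F w.1 _ ?_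
    refine lt_of_le_of_ne (av_nonneg _ _) fun h0 => ?_
    have h1 := (HeightOneSpectrum.adicAbv F w.1).eq_zero.1 h0.symm
    exact hΔ0 δ.1 δ.2 (by exact_mod_cast h1)
  choose NL clL hclL using hL
  have hR : ∀ (i : ι) (δ : {δ // δ ∈ Δ}), ∃ (N : ℕ) (cl : k i → Fin N), ∀ x y : k i,
      ‖x‖ ≤ 1 → ‖y‖ ≤ 1 → cl x = cl y → ‖x - y‖ ≤ ‖D.e i ((δ : 𝓞 F) : F)‖ := by
    intro i δ
    refine CL3_res hRES (D.L i) _ ?_
    rw [norm_pos_iff]
    refine (map_ne_zero (D.e i)).2 fun h0 => ?_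
    exact hΔ0 δ.1 δ.2 (by exact_mod_cast h0)
  choose NR clR hclR using hR
  refine CL3_fin (A := {δ // δ ∈ Δ} ×
      ((w : T) → (δ : {δ // δ ∈ Δ}) →
        Fin (NL w δ) × Fin (NL w δ) × Fin (NL w δ) × Fin (NL w δ)) ×
      ((i : ι) → (δ : {δ // δ ∈ Δ}) → Fin 2 → Fin 2 → Fin (NR i δ)))
    (fun g => (⟨d g, hdΔ g⟩,
      (fun w δ => (clL w δ (X g).re, clL w δ (X g).imI, clL w δ (X g).imJ, clL w δ (X g).imK)),
      (fun i δ a b => clR i δ (((g i : Matrix (Fin 2) (Fin 2) (k i)) * D.mt i (X g)) a b))))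
    (fun g g' => ∃ κ ∈ KG D.L 0, ∃ γ ∈ D.Γ, g' = κ * g * γ) ?_
  intro g g' hgg
  have e1 : d g = d g' := congrArg (fun t => (t.1 : 𝓞 F)) hgg
  have e2 := congrArg (fun t => t.2.1) hgg
  have e3 := congrArg (fun t => t.2.2) hgg
  simp only [] at e2 e3
  refine CL3_main hMIN D g g' (X g) (X g') (d g) (hΔ0 _ (hdΔ g)) (hdn g)
    (by rw [e1]; exact hdn g') (hX g).2.1 (hX g').2.1 (hX g).2.2 (hX g').2.2 ?_ ?_
  · intro w hw hwn
    have hwT : w ∈ T := Set.mem_biUnion (hdΔ g) hw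
    have e4 := congrFun (congrFun e2 ⟨w, hwT⟩) ⟨d g, hdΔ g⟩
    simp only [Prod.mk.injEq] at e4
    obtain ⟨q1, q2, q3, q4⟩ := e4
    obtain ⟨k1, k2, k3, k4⟩ := (hX g).2.1 w hwn
    obtain ⟨l1, l2, l3, l4⟩ := (hX g').2.1 w hwn
    exact ⟨hclL ⟨w, hwT⟩ ⟨d g, hdΔ g⟩ _ _ l1 k1 q1.symm,
      hclL ⟨w, hwT⟩ ⟨d g, hdΔ g⟩ _ _ l2 k2 q2.symm,
      hclL ⟨w, hwT⟩ ⟨d g, hdΔ g⟩ _ _ l3 k3 q3.symm,
      hclL ⟨w, hwT⟩ ⟨d g, hdΔ g⟩ _ _ l4 k4 q4.symm⟩
  · intro i a b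
    have e5 := congrFun (congrFun (congrFun (congrFun e3 i) ⟨d g, hdΔ g⟩) a) b
    exact hclR i ⟨d g, hdΔ g⟩ _ _ (mnm_le.1 ((hX g').2.2 i) a b) (mnm_le.1 ((hX g).2.2 i) a b)
      e5.symm

end Pool.PL
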