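import Pool.Agent.Work.MP_972ac7_P.Interface2

set_option autoImplicit false

/-! # THEOREM P, block CN0 -/

open NumberField IsDedekindDomain
open scoped Quaternion

noncomputable section

namespace Pool.PL

theorem CN0_pow {F : Type} [Field F] [NumberField F] (w : HeightOneSpectrum (𝓞 F)) (x : F) :
    av w (x ^ 2) = av w x ^ 2 := by
  rw [pow_two, av_mul, pow_two]

theorem p_CN0 : Stmt_CN0 := by
  intro F _ _ a b w c hc C₁ hC₁
  set η : ℝ := av w (2 * (c : F)) with hη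
  have hcF : (c : F) ≠ 0 := by
    intro h
    apply hc
    exact_mod_cast h
  have h2c : (2 * (c : F)) ≠ 0 := mul_ne_zero two_ne_zero hcF
  have hη0 : 0 < η := by
    have h1 : HeightOneSpectrum.adicAbv F w (2 * (c : F)) ≠ 0 := by
      intro h
      exact h2c ((map_eq_zero (HeightOneSpectrum.adicAbv F w)).mp h)
    exact lt_of_le_of_ne (av_nonneg w _) (Ne.symm h1)
  refine ⟨C₁ ^ 2 / η + (C₁ / η) ^ 2, by positivity, fun P Q hP hQ y hy h0 hi => ?_⟩
  have hQ0 : 0 < Q := by linarith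
  have hyF : ((y 0 : 𝓞 F) : F) ^ 2 - (a : F) * ((y 1 : 𝓞 F) : F) ^ 2 -
      (b : F) * ((y 2 : 𝓞 F) : F) ^ 2 + (a : F) * (b : F) * ((y 3 : 𝓞 F) : F) ^ 2 =
      ((c : F) * (P : F)) ^ 2 := by
    have h1 := congrArg (fun t : 𝓞 F => (t : F)) hy
    simpa using h1
  set δ : ℝ := av w (((y 0 : 𝓞 F) : F) - (c : F) * (P : F)) with hδ
  set s : ℝ := av w (((y 0 : 𝓞 F) : F) + (c : F) * (P : F)) with hs
  have hδ0 : 0 ≤ δ := av_nonneg w _
  have hs0 : 0 ≤ s := av_nonneg w _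
  have hterm : ∀ (t : 𝓞 F) (i : Fin 4), i ≠ 0 →
      av w ((t : F) * ((y i : 𝓞 F) : F) ^ 2) ≤ (C₁ / Q) ^ 2 := by
    intro t i hi0
    rw [av_mul, CN0_pow]
    have h1 := hi i hi0
    have h2 := av_int w t
    have h3 := av_nonneg w (t : F)
    have h4 := av_nonneg w ((y i : 𝓞 F) : F)
    calc av w (t : F) * av w ((y i : 𝓞 F) : F) ^ 2 ≤ 1 * (C₁ / Q) ^ 2 := by gcongr
      _ = _ := one_mul _
  have hprod : δ * s ≤ (C₁ / Q) ^ 2 := by
    rw [hδ, hs, ← av_mul]
    have h1 : (((y 0 : 𝓞 F) : F) - (c : F) * (P : F)) * (((y 0 : 𝓞 F) : F) + (c : F) * (P : F)) =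
        (a : F) * ((y 1 : 𝓞 F) : F) ^ 2 + ((b : F) * ((y 2 : 𝓞 F) : F) ^ 2 +
          -(((a * b : 𝓞 F) : F) * ((y 3 : 𝓞 F) : F) ^ 2)) := by
      push_cast
      linear_combination hyF
    rw [h1]
    refine (av_add_le w _ _).trans (max_le (hterm a 1 (by decide)) ?_)
    refine (av_add_le w _ _).trans (max_le (hterm b 2 (by decide)) ?_)
    rw [av_neg]
    exact hterm (a * b) 3 (by decide)
  have hη1 : av w (2 * (c : F) * (P : F)) = η := by
    rw [av_mul, hP, mul_one]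
  have hηmax : η ≤ max s δ := by
    rw [← hη1]
    have h1 : 2 * (c : F) * (P : F) = (((y 0 : 𝓞 F) : F) + (c : F) * (P : F)) +
        -(((y 0 : 𝓞 F) : F) - (c : F) * (P : F)) := by ring
    rw [h1]
    refine (av_add_le w _ _).trans ?_
    rw [av_neg]
  have hQ2 : 0 < Q ^ 2 := by positivity
  rcases lt_or_ge (C₁ / Q) η with h | h
  · have h1 : η ≤ s := by
      rcases le_max_iff.mp hηmax with h2 | h2
      · exact h2
      · exact absurd (h2.trans h0) (not_le.mpr h)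
    have h2 : δ * η ≤ (C₁ / Q) ^ 2 := (mul_le_mul_of_nonneg_left h1 hδ0).trans hprod
    have h3 : δ ≤ (C₁ / Q) ^ 2 / η := by
      rw [le_div_iff₀ hη0]
      exact h2
    have h4 : (C₁ / Q) ^ 2 / η = C₁ ^ 2 / η / Q ^ 2 := by
      field_simp
    rw [h4] at h3
    refine h3.trans ?_
    apply div_le_div_of_nonneg_right _ hQ2.le
    have : 0 ≤ (C₁ / η) ^ 2 := by positivity
    linarith
  · have h1 : δ ≤ 1 := by
      have h2 : ((y 0 : 𝓞 F) : F) - (c : F) * (P : F) = ((y 0 - c * P : 𝓞 F) : F) := by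
        push_cast
        ring
      rw [hδ, h2]
      exact av_int w _
    have h2 : Q ≤ C₁ / η := by
      rw [le_div_iff₀ hη0]
      rw [le_div_iff₀ hQ0] at h
      linarith
    have h3 : 1 ≤ (C₁ / η) ^ 2 / Q ^ 2 := by
      rw [le_div_iff₀ hQ2, one_mul]
      gcongr
    refine h1.trans (h3.trans ?_)
    apply div_le_div_of_nonneg_right _ hQ2.le
    have : 0 ≤ C₁ ^ 2 / η := by positivity
    linarith

end Pool.PL
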