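import Pool.Agent.Work.MP_972ac7_P.Interface2

set_option autoImplicit false

open MeasureTheory NumberField IsDedekindDomain
open scoped Quaternion

noncomputable section

namespace Pool.PL

open Pool.TFD Pool.TC

/-- counting by fibres -/
theorem CNA_count {α β : Type} (Z : Set α) (Φ : α → β) (W : Set β) (hW : W.Finite)
    (hΦ : ∀ y ∈ Z, Φ y ∈ W) (K : ℝ)
    (hf : ∀ p, (Z ∩ Φ ⁻¹' {p}).Finite ∧ (Nat.card ↥(Z ∩ Φ ⁻¹' {p}) : ℝ) ≤ K) :
    Z.Finite ∧ (Nat.card Z : ℝ) ≤ Nat.card W * K := by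
  classical
  have hZ : Z.Finite := by
    refine Set.Finite.of_finite_fibers Φ (hW.subset ?_) (fun p _ => (hf p).1)
    rintro _ ⟨y, hy, rfl⟩
    exact hΦ y hy
  refine ⟨hZ, ?_⟩
  have h1 : (hZ.toFinset.card : ℝ) =
      ∑ b ∈ hW.toFinset, ((hZ.toFinset.filter (fun a => Φ a = b)).card : ℝ) := by
    have := Finset.card_eq_sum_card_fiberwise (s := hZ.toFinset) (t := hW.toFinset) (f := Φ)
      (fun y hy => by
        have hy' : y ∈ Z := by simpa using hy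
        have := hΦ y hy'
        simpa using this)
    exact_mod_cast this
  have h2 : ∀ b, ((hZ.toFinset.filter (fun a => Φ a = b)).card : ℝ) ≤ K := by
    intro b
    have h3 : Nat.card ↥(Z ∩ Φ ⁻¹' {b}) = (hZ.toFinset.filter (fun a => Φ a = b)).card := by
      rw [Nat.card_coe_set_eq, Set.ncard_eq_toFinset_card _ (hf b).1]
      congr 1
      ext y
      simp
    rw [← h3]
    exact (hf b).2
  rw [Nat.card_coe_set_eq, Nat.card_coe_set_eq, Set.ncard_eq_toFinset_card _ hZ,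
    Set.ncard_eq_toFinset_card _ hW, h1]
  calc ∑ b ∈ hW.toFinset, ((hZ.toFinset.filter (fun a => Φ a = b)).card : ℝ)
      ≤ ∑ b ∈ hW.toFinset, K := Finset.sum_le_sum fun b _ => h2 b
    _ = _ := by rw [Finset.sum_const, nsmul_eq_mul]

/-- counting by an injective map -/
theorem CNA_inj {α β : Type} (Z : Set α) (f : α → β) (hf : Set.InjOn f Z) (K : ℝ)
    (h : (f '' Z).Finite ∧ (Nat.card ↥(f '' Z) : ℝ) ≤ K) :
    Z.Finite ∧ (Nat.card Z : ℝ) ≤ K := by
  refine ⟨Set.Finite.of_finite_image h.1 hf, ?_⟩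
  have h1 := h.2
  rw [Nat.card_coe_set_eq, Set.ncard_image_of_injOn hf] at h1
  rw [Nat.card_coe_set_eq]
  exact h1

theorem CNA_pow {x : ℝ} (hx : 0 ≤ x) : (x ^ 2) ^ (1 / 3 : ℝ) = x ^ (2 / 3 : ℝ) := by
  rw [← Real.rpow_natCast, ← Real.rpow_mul hx]
  norm_num

theorem CNA_num {X T K α₀ α₃ α₁ : ℝ} (hX : 0 < X) (hT : 0 ≤ T) (hK : 0 < K) (hKX : 1 ≤ K * X)
    (h0 : 0 ≤ α₀) (h3 : 0 ≤ α₃) (h1 : 0 ≤ α₁) :
    (1 + α₀ * T) * (1 + α₃ * X) * (2 + α₁ * X ^ (2 / 3 : ℝ)) ≤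
      2 + ((1 + α₀) * (K + α₃) * (2 * K ^ (2 / 3 : ℝ) + α₁)) * X ^ (5 / 3 : ℝ) * (1 + T) := by
  have e1 : X ^ (5 / 3 : ℝ) = X * X ^ (2 / 3 : ℝ) := by
    have : (5 / 3 : ℝ) = 1 + 2 / 3 := by norm_num
    rw [this, Real.rpow_add hX, Real.rpow_one]
  have e2 : 1 ≤ K ^ (2 / 3 : ℝ) * X ^ (2 / 3 : ℝ) := by
    rw [← Real.mul_rpow hK.le hX.le]
    exact Real.one_le_rpow hKX (by norm_num)
  have a1 : 1 + α₀ * T ≤ (1 + α₀) * (1 + T) := by nlinarith
  have a2 : 1 + α₃ * X ≤ (K + α₃) * X := by nlinarith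
  have a3 : 2 + α₁ * X ^ (2 / 3 : ℝ) ≤ (2 * K ^ (2 / 3 : ℝ) + α₁) * X ^ (2 / 3 : ℝ) := by
    nlinarith
  have p0 : 0 ≤ X ^ (2 / 3 : ℝ) := by positivity
  have p1 : 0 ≤ 1 + α₀ * T := by positivity
  have p2 : 0 ≤ 1 + α₃ * X := by positivity
  have p3 : 0 ≤ 2 + α₁ * X ^ (2 / 3 : ℝ) := by positivity
  have b1 : (1 + α₀ * T) * (1 + α₃ * X) ≤ ((1 + α₀) * (1 + T)) * ((K + α₃) * X) :=
    mul_le_mul a1 a2 p2 (le_trans p1 a1)
  have b2 : (1 + α₀ * T) * (1 + α₃ * X) * (2 + α₁ * X ^ (2 / 3 : ℝ)) ≤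
      ((1 + α₀) * (1 + T)) * ((K + α₃) * X) *
        ((2 * K ^ (2 / 3 : ℝ) + α₁) * X ^ (2 / 3 : ℝ)) :=
    mul_le_mul b1 a3 p3 (le_trans (mul_nonneg p1 p2) b1)
  rw [e1]
  calc _ ≤ _ := b2
    _ = ((1 + α₀) * (K + α₃) * (2 * K ^ (2 / 3 : ℝ) + α₁)) * (X * X ^ (2 / 3 : ℝ)) * (1 + T) := by
        ring
    _ ≤ _ := by linarith

theorem p_CNA (hPFM : Stmt_PFM) (hBOX : Stmt_BOX) (hCON : Stmt_CON) (hCN0 : Stmt_CN0)
    (hDFN : Stmt_DFN) : Stmt_CNA := by
  intro F _ _ a b ha hb hTR w c hc C₁ hC₁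
  classical
  obtain ⟨hP1, -, -, -⟩ := hPFM F hTR
  obtain ⟨CD, hCD, hD1, -, -⟩ := hDFN F a b ha hb hTR
  obtain ⟨C₂, hC₂, hN0⟩ := hCN0 F a b w c hc C₁ hC₁
  obtain ⟨C₃, hC₃, hCN⟩ := hCON F hTR (-a) (-b)
    (fun σ => by
      have h0 := ha σ
      have e : ((-a : 𝓞 F) : F) = -(a : F) := map_neg (algebraMap (𝓞 F) F) a
      rw [e, map_neg]
      linarith)
    (fun σ => by
      have h0 := hb σ
      have e : ((-b : 𝓞 F) : F) = -(b : F) := map_neg (algebraMap (𝓞 F) F) b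
      rw [e, map_neg]
      linarith)
  have hcF : (c : F) ≠ 0 := by
    intro h
    exact hc (by exact_mod_cast h)
  have hNc : 0 < Nm (c : F) := Nm_pos hcF
  obtain ⟨d, hd⟩ : ∃ d, d = Fintype.card (F →+* ℝ) := ⟨_, rfl⟩
  obtain ⟨β, hβ⟩ : ∃ β : ℝ, β = Real.sqrt CD ^ d * Nm (c : F) := ⟨_, rfl⟩
  have hβ0 : 0 < β := by
    rw [hβ]
    have := Real.sqrt_pos.2 hCD
    positivity
  obtain ⟨K, hK⟩ : ∃ K : ℝ, K = β * C₁ := ⟨_, rfl⟩
  have hK0 : 0 < K := by rw [hK]; positivity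
  refine ⟨(1 + 2 ^ d * β * C₂) * (K + 2 ^ d * β * C₁) *
    (2 * K ^ (2 / 3 : ℝ) + C₃ * (Nm (c : F) * C₁) ^ (2 / 3 : ℝ)), by positivity, ?_⟩
  intro P Q hP hPw hQ Z hZ
  have hPF : (P : F) ≠ 0 := by
    intro h
    exact hP (by exact_mod_cast h)
  have hY : 0 < Nm (P : F) := Nm_pos hPF
  have hQ0 : 0 < Q := by linarith
  obtain ⟨B, hB⟩ : ∃ B : (F →+* ℝ) → ℝ, ∀ σ, B σ = Real.sqrt CD * |σ ((c : F) * (P : F))| :=
    ⟨_, fun σ => rfl⟩
  have hB0 : ∀ σ, 0 ≤ B σ := fun σ => by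
    rw [hB]
    positivity
  have hprod : ∏ σ, B σ = β * Nm (P : F) := by
    simp only [hB]
    rw [Finset.prod_mul_distrib, Finset.prod_const, Finset.card_univ, ← hd, hβ, mul_assoc,
      ← Nm_mul]
    rfl
  -- bounds at the real places
  have hbd : ∀ y ∈ Z, ∀ i, ∀ σ : F →+* ℝ, |σ ((y i : 𝓞 F) : F)| ≤ B σ := by
    intro y hy
    obtain ⟨heq, -, -⟩ := hZ y hy
    have heqF : ((y 0 : 𝓞 F) : F) ^ 2 - (a : F) * ((y 1 : 𝓞 F) : F) ^ 2 -
        (b : F) * ((y 2 : 𝓞 F) : F) ^ 2 + (a : F) * (b : F) * ((y 3 : 𝓞 F) : F) ^ 2 =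
        ((c : F) * (P : F)) ^ 2 := by exact_mod_cast congrArg (algebraMap (𝓞 F) F) heq
    obtain ⟨z, hz0, hz1, hz2, hz3⟩ : ∃ z : ℍ[F, (a : F), (b : F)], z.re = ((y 0 : 𝓞 F) : F) ∧
        z.imI = ((y 1 : 𝓞 F) : F) ∧ z.imJ = ((y 2 : 𝓞 F) : F) ∧ z.imK = ((y 3 : 𝓞 F) : F) :=
      ⟨⟨_, _, _, _⟩, rfl, rfl, rfl, rfl⟩
    have hn : nrq z = ((c : F) * (P : F)) ^ 2 := by
      unfold nrq
      rw [hz0, hz1, hz2, hz3]
      exact heqF
    have key : ∀ (t : F) (σ : F →+* ℝ), σ t ^ 2 ≤ CD * σ (nrq z) → |σ t| ≤ B σ := by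
      intro t σ ht
      rw [hn, map_pow] at ht
      rw [hB]
      apply abs_le_of_sq_le_sq _ (by positivity)
      rw [mul_pow, Real.sq_sqrt hCD.le, sq_abs]
      exact ht
    intro i σ
    obtain ⟨h0, h1, h2, h3⟩ := hD1 z σ
    fin_cases i
    · rw [hz0] at h0
      exact key _ σ h0
    · rw [hz1] at h1
      exact key _ σ h1
    · rw [hz2] at h2
      exact key _ σ h2
    · rw [hz3] at h3
      exact key _ σ h3
  have hNm : ∀ y ∈ Z, ∀ i, Nm ((y i : 𝓞 F) : F) ≤ β * Nm (P : F) := by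
    intro y hy i
    rw [← hprod]
    exact Finset.prod_le_prod (fun σ _ => abs_nonneg _) (fun σ _ => hbd y hy i σ)
  have hsub : ∀ s t u : F, ∀ R : ℝ, av w (s - u) ≤ R → av w (t - u) ≤ R → av w (s - t) ≤ R := by
    intro s t u R h1 h2
    have e : s - t = (s - u) + (-(t - u)) := by ring
    rw [e]
    refine le_trans (av_add_le w _ _) (max_le h1 ?_)
    rw [av_neg]
    exact h2
  by_cases hcase : K * Nm (P : F) < Q
  · -- only two elements
    have hzero : ∀ y ∈ Z, ∀ i, i ≠ 0 → y i = 0 := by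
      intro y hy i hi
      by_contra hne
      have h1 := hP1 (y i) hne w
      have h2 := (hZ y hy).2.2 i hi
      have h3 := hNm y hy i
      have h4 : Nm ((y i : 𝓞 F) : F) * av w ((y i : 𝓞 F) : F) ≤
          (β * Nm (P : F)) * (C₁ / Q) :=
        mul_le_mul h3 h2 (av_nonneg _ _) (by positivity)
      have h5 : (β * Nm (P : F)) * (C₁ / Q) = K * Nm (P : F) / Q := by
        rw [hK]
        ring
      rw [h5] at h4
      have h6 : K * Nm (P : F) / Q < 1 := by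
        rw [div_lt_one hQ0]
        exact hcase
      linarith
    have hinj : Set.InjOn (fun y : Fin 4 → 𝓞 F => y 0) Z := by
      intro y hy y' hy' h
      funext i
      by_cases hi : i = 0
      · rw [hi]
        exact h
      · rw [hzero y hy i hi, hzero y' hy' i hi]
    have himg : (fun y : Fin 4 → 𝓞 F => y 0) '' Z ⊆ ({c * P, -(c * P)} : Set (𝓞 F)) := by
      rintro _ ⟨y, hy, rfl⟩
      have h1 := (hZ y hy).1
      rw [hzero y hy 1 (by decide), hzero y hy 2 (by decide), hzero y hy 3 (by decide)] at h1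
      have h2 : y 0 ^ 2 = (c * P) ^ 2 := by
        rw [← h1]
        ring
      rcases sq_eq_sq_iff_eq_or_eq_neg.1 h2 with h | h
      · exact Or.inl h
      · exact Or.inr h
    have hfin2 : ({c * P, -(c * P)} : Set (𝓞 F)).Finite := Set.toFinite _
    have h7 := CNA_inj Z (fun y : Fin 4 → 𝓞 F => y 0) hinj 2 ⟨hfin2.subset himg, by
      rw [Nat.card_coe_set_eq]
      have h8 := Set.ncard_le_ncard himg hfin2
      have h9 := Set.ncard_insert_le (c * P) ({-(c * P)} : Set (𝓞 F))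
      rw [Set.ncard_singleton] at h9
      exact_mod_cast le_trans h8 h9⟩
    refine ⟨h7.1, le_trans h7.2 ?_⟩
    have h10 : 0 ≤ (1 + 2 ^ d * β * C₂) * (K + 2 ^ d * β * C₁) *
        (2 * K ^ (2 / 3 : ℝ) + C₃ * (Nm (c : F) * C₁) ^ (2 / 3 : ℝ)) *
        (Nm (P : F) / Q) ^ (5 / 3 : ℝ) * (1 + Nm (P : F) / Q ^ 2) := by positivity
    linarith
  · push Not at hcase
    -- the first coordinates
    have hZ0 := hBOX F hTR ((fun y : Fin 4 → 𝓞 F => y 0) '' Z) B (Q ^ 2 / C₂) hB0 (by positivity)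
      (by
        rintro _ ⟨y, hy, rfl⟩ σ
        exact hbd y hy 0 σ)
      (by
        rintro _ ⟨y, hy, rfl⟩ _ ⟨y', hy', rfl⟩ hne
        simp only at hne ⊢
        have h1 := hN0 P Q hPw hQ y (hZ y hy).1 (hZ y hy).2.1 (hZ y hy).2.2
        have h2 := hN0 P Q hPw hQ y' (hZ y' hy').1 (hZ y' hy').2.1 (hZ y' hy').2.2
        have h3 := hsub _ _ _ _ h1 h2
        have h4 := hP1 (y 0 - y' 0) (sub_ne_zero.2 hne) w
        have h5 : (((y 0 - y' 0 : 𝓞 F)) : F) = ((y 0 : 𝓞 F) : F) - ((y' 0 : 𝓞 F) : F) := by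
          exact_mod_cast rfl
        rw [h5] at h4
        rw [div_le_iff₀ hC₂]
        have h6 : Nm (((y 0 : 𝓞 F) : F) - ((y' 0 : 𝓞 F) : F)) *
            av w (((y 0 : 𝓞 F) : F) - ((y' 0 : 𝓞 F) : F)) ≤
            Nm (((y 0 : 𝓞 F) : F) - ((y' 0 : 𝓞 F) : F)) * (C₂ / Q ^ 2) :=
          mul_le_mul_of_nonneg_left h3 (Nm_nonneg _)
        have h7 : 1 ≤ Nm (((y 0 : 𝓞 F) : F) - ((y' 0 : 𝓞 F) : F)) * (C₂ / Q ^ 2) :=
          le_trans h4 h6
        rw [mul_div_assoc', le_div_iff₀ (by positivity), one_mul] at h7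
        exact h7)
    have hZ3 := hBOX F hTR ((fun y : Fin 4 → 𝓞 F => y 3) '' Z) B (Q / C₁) hB0 (by positivity)
      (by
        rintro _ ⟨y, hy, rfl⟩ σ
        exact hbd y hy 3 σ)
      (by
        rintro _ ⟨y, hy, rfl⟩ _ ⟨y', hy', rfl⟩ hne
        simp only at hne ⊢
        have h1 := (hZ y hy).2.2 3 (by decide)
        have h2 := (hZ y' hy').2.2 3 (by decide)
        have h3 := hsub ((y 3 : 𝓞 F) : F) ((y' 3 : 𝓞 F) : F) 0 (C₁ / Q) (by rw [sub_zero]; exact h1)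
          (by rw [sub_zero]; exact h2)
        have h4 := hP1 (y 3 - y' 3) (sub_ne_zero.2 hne) w
        have h5 : (((y 3 - y' 3 : 𝓞 F)) : F) = ((y 3 : 𝓞 F) : F) - ((y' 3 : 𝓞 F) : F) := by
          exact_mod_cast rfl
        rw [h5] at h4
        rw [div_le_iff₀ hC₁]
        have h6 : Nm (((y 3 : 𝓞 F) : F) - ((y' 3 : 𝓞 F) : F)) *
            av w (((y 3 : 𝓞 F) : F) - ((y' 3 : 𝓞 F) : F)) ≤
            Nm (((y 3 : 𝓞 F) : F) - ((y' 3 : 𝓞 F) : F)) * (C₁ / Q) :=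
          mul_le_mul_of_nonneg_left h3 (Nm_nonneg _)
        have h7 : 1 ≤ Nm (((y 3 : 𝓞 F) : F) - ((y' 3 : 𝓞 F) : F)) * (C₁ / Q) :=
          le_trans h4 h6
        rw [mul_div_assoc', le_div_iff₀ (by positivity), one_mul] at h7
        exact h7)
    obtain ⟨hZ0f, hZ0c⟩ := hZ0
    obtain ⟨hZ3f, hZ3c⟩ := hZ3
    rw [← hd, hprod] at hZ0c hZ3c
    -- the fibres
    have hfib : ∀ p : 𝓞 F × 𝓞 F,
        (Z ∩ (fun y : Fin 4 → 𝓞 F => (y 0, y 3)) ⁻¹' {p}).Finite ∧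
        (Nat.card ↥(Z ∩ (fun y : Fin 4 → 𝓞 F => (y 0, y 3)) ⁻¹' {p}) : ℝ) ≤
          2 + C₃ * (Nm (c : F) * C₁) ^ (2 / 3 : ℝ) * (Nm (P : F) / Q) ^ (2 / 3 : ℝ) := by
      intro p
      apply CNA_inj _ (fun y : Fin 4 → 𝓞 F => (y 1, y 2))
      · rintro y ⟨hy, hyp⟩ y' ⟨hy', hyp'⟩ h
        have e1 : y 0 = y' 0 ∧ y 3 = y' 3 := by
          have h1 : (y 0, y 3) = p := hyp
          have h2 : (y' 0, y' 3) = p := hyp'
          exact Prod.mk.inj (h1.trans h2.symm)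
        have e2 : y 1 = y' 1 ∧ y 2 = y' 2 := Prod.mk.inj h
        funext i
        fin_cases i
        · exact e1.1
        · exact e2.1
        · exact e2.2
        · exact e1.2
      · have h1 := hCN w (C₁ / Q) (((c : F) * (P : F)) ^ 2 - (p.1 : F) ^ 2 -
          (a : F) * (b : F) * (p.2 : F) ^ 2) (by positivity)
          ((fun y : Fin 4 → 𝓞 F => (y 1, y 2)) ''
            (Z ∩ (fun y : Fin 4 → 𝓞 F => (y 0, y 3)) ⁻¹' {p}))
          (by
            rintro _ ⟨y, ⟨hy, hyp⟩, rfl⟩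
            have e1 : (y 0, y 3) = p := hyp
            have heqF : ((y 0 : 𝓞 F) : F) ^ 2 - (a : F) * ((y 1 : 𝓞 F) : F) ^ 2 -
                (b : F) * ((y 2 : 𝓞 F) : F) ^ 2 + (a : F) * (b : F) * ((y 3 : 𝓞 F) : F) ^ 2 =
                ((c : F) * (P : F)) ^ 2 := by
              exact_mod_cast congrArg (algebraMap (𝓞 F) F) (hZ y hy).1
            rw [← e1]
            simp only [map_neg]
            linear_combination heqF)
          (by
            rintro _ ⟨y, ⟨hy, hyp⟩, rfl⟩ _ ⟨y', ⟨hy', hyp'⟩, rfl⟩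
            refine ⟨hsub _ _ 0 _ ?_ ?_, hsub _ _ 0 _ ?_ ?_⟩
            · rw [sub_zero]
              exact (hZ y hy).2.2 1 (by decide)
            · rw [sub_zero]
              exact (hZ y' hy').2.2 1 (by decide)
            · rw [sub_zero]
              exact (hZ y hy).2.2 2 (by decide)
            · rw [sub_zero]
              exact (hZ y' hy').2.2 2 (by decide))
        refine ⟨h1.1, ?_⟩
        by_cases hemp : (Z ∩ (fun y : Fin 4 → 𝓞 F => (y 0, y 3)) ⁻¹' {p}).Nonempty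
        · refine le_trans h1.2 ?_
          obtain ⟨y, hy, hyp⟩ := hemp
          have e1 : (y 0, y 3) = p := hyp
          have heqF : ((y 0 : 𝓞 F) : F) ^ 2 - (a : F) * ((y 1 : 𝓞 F) : F) ^ 2 -
              (b : F) * ((y 2 : 𝓞 F) : F) ^ 2 + (a : F) * (b : F) * ((y 3 : 𝓞 F) : F) ^ 2 =
              ((c : F) * (P : F)) ^ 2 := by
            exact_mod_cast congrArg (algebraMap (𝓞 F) F) (hZ y hy).1
          have h2 : Nm (((c : F) * (P : F)) ^ 2 - (p.1 : F) ^ 2 -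
              (a : F) * (b : F) * (p.2 : F) ^ 2) ≤ (Nm (c : F) * Nm (P : F)) ^ 2 := by
            rw [← Nm_mul, ← Nm_pow]
            apply Finset.prod_le_prod (fun σ _ => abs_nonneg _)
            intro σ _
            have h3 : σ (((c : F) * (P : F)) ^ 2 - (p.1 : F) ^ 2 -
                (a : F) * (b : F) * (p.2 : F) ^ 2) =
                (-(σ (a : F))) * σ ((y 1 : 𝓞 F) : F) ^ 2 +
                  (-(σ (b : F))) * σ ((y 2 : 𝓞 F) : F) ^ 2 := by
              rw [← e1, ← heqF]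
              simp only [map_sub, map_add, map_mul, map_pow]
              ring
            have h4 : 0 ≤ σ (((c : F) * (P : F)) ^ 2 - (p.1 : F) ^ 2 -
                (a : F) * (b : F) * (p.2 : F) ^ 2) := by
              rw [h3]
              have := ha σ
              have := hb σ
              have q1 : 0 ≤ (-(σ (a : F))) * σ ((y 1 : 𝓞 F) : F) ^ 2 :=
                mul_nonneg (by linarith) (sq_nonneg _)
              have q2 : 0 ≤ (-(σ (b : F))) * σ ((y 2 : 𝓞 F) : F) ^ 2 :=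
                mul_nonneg (by linarith) (sq_nonneg _)
              linarith
            rw [abs_of_nonneg h4]
            refine le_trans ?_ (le_abs_self _)
            rw [map_sub, map_sub, map_mul, map_mul, map_pow σ (p.1 : F), map_pow σ (p.2 : F)]
            have q3 : 0 ≤ σ (a : F) * σ (b : F) * σ (p.2 : F) ^ 2 := by
              have := ha σ
              have := hb σ
              have q4 : 0 ≤ σ (a : F) * σ (b : F) := by nlinarith
              positivity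
            have q5 := sq_nonneg (σ (p.1 : F))
            linarith
          have h5 : Nm (((c : F) * (P : F)) ^ 2 - (p.1 : F) ^ 2 -
              (a : F) * (b : F) * (p.2 : F) ^ 2) * (C₁ / Q) ^ 2 ≤
              ((Nm (c : F) * C₁) * (Nm (P : F) / Q)) ^ 2 := by
            calc _ ≤ (Nm (c : F) * Nm (P : F)) ^ 2 * (C₁ / Q) ^ 2 :=
                  mul_le_mul_of_nonneg_right h2 (by positivity)
              _ = _ := by
                  field_simp
          have h6 : (Nm (((c : F) * (P : F)) ^ 2 - (p.1 : F) ^ 2 -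
              (a : F) * (b : F) * (p.2 : F) ^ 2) * (C₁ / Q) ^ 2) ^ (1 / 3 : ℝ) ≤
              (Nm (c : F) * C₁) ^ (2 / 3 : ℝ) * (Nm (P : F) / Q) ^ (2 / 3 : ℝ) := by
            rw [← Real.mul_rpow (by positivity) (by positivity), ← CNA_pow (by positivity)]
            exact Real.rpow_le_rpow (mul_nonneg (Nm_nonneg _) (by positivity)) h5 (by norm_num)
          have h7 := mul_le_mul_of_nonneg_left h6 hC₃.le
          rw [← mul_assoc] at h7
          linarith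
        · rw [Set.not_nonempty_iff_eq_empty] at hemp
          rw [hemp, Set.image_empty, Nat.card_coe_set_eq, Set.ncard_empty, Nat.cast_zero]
          positivity
    have hW : (((fun y : Fin 4 → 𝓞 F => y 0) '' Z) ×ˢ ((fun y : Fin 4 → 𝓞 F => y 3) '' Z)).Finite :=
      hZ0f.prod hZ3f
    have hcount := CNA_count Z (fun y : Fin 4 → 𝓞 F => (y 0, y 3)) _ hW
      (fun y hy => ⟨⟨y, hy, rfl⟩, ⟨y, hy, rfl⟩⟩) _ hfib
    refine ⟨hcount.1, le_trans hcount.2 ?_⟩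
    have hcardW : (Nat.card ↥(((fun y : Fin 4 → 𝓞 F => y 0) '' Z) ×ˢ
        ((fun y : Fin 4 → 𝓞 F => y 3) '' Z)) : ℝ) ≤
        (1 + 2 ^ d * β * C₂ * (Nm (P : F) / Q ^ 2)) * (1 + 2 ^ d * β * C₁ * (Nm (P : F) / Q)) := by
      rw [Nat.card_coe_set_eq, Set.ncard_prod, Nat.cast_mul]
      rw [Nat.card_coe_set_eq] at hZ0c hZ3c
      refine mul_le_mul (le_trans hZ0c (le_of_eq ?_)) (le_trans hZ3c (le_of_eq ?_))
        (Nat.cast_nonneg _) (by positivity)
      · field_simp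
      · field_simp
    refine le_trans (mul_le_mul_of_nonneg_right hcardW (by positivity)) ?_
    refine CNA_num (by positivity) (by positivity) hK0 ?_ (by positivity) (by positivity)
      (by positivity)
    rw [mul_div_assoc', le_div_iff₀ hQ0, one_mul]
    exact hcase

end Pool.PL
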