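import Pool.Agent.Work.MP_972ac7_P.Interface2

set_option autoImplicit false

/-! # THEOREM P, block CNS: clearing denominators -/

open MeasureTheory NumberField IsDedekindDomain
open scoped Quaternion

noncomputable section

namespace Pool.PL

theorem CNS_nm {k : Type} [NormedField k] [IsUltrametricDist k] (g x : SL2 k) :
    nm x ≤ nm g ^ 2 * nm (g * x * g⁻¹) ∧ dnm x ≤ nm g ^ 2 * dnm (g * x * g⁻¹) := by
  have hx : x = g⁻¹ * (g * x * g⁻¹) * g := by group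
  have h0 : 0 ≤ nm g := mnm_nonneg _
  constructor
  · calc nm x = nm (g⁻¹ * (g * x * g⁻¹) * g) := by rw [← hx]
      _ ≤ nm (g⁻¹ * (g * x * g⁻¹)) * nm g := nm_mul_le _ _
      _ ≤ nm g⁻¹ * nm (g * x * g⁻¹) * nm g := mul_le_mul_of_nonneg_right (nm_mul_le _ _) h0
      _ = _ := by rw [nm_inv]; ring
  · have h1 : (x : Matrix (Fin 2) (Fin 2) k) - 1 =
        (g⁻¹ : SL2 k).1 * (((g * x * g⁻¹ : SL2 k) : Matrix (Fin 2) (Fin 2) k) - 1) * g.1 := by
      have h2 : (x : Matrix (Fin 2) (Fin 2) k) = (g⁻¹ : SL2 k).1 * (g * x * g⁻¹ : SL2 k).1 * g.1 := by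
        have := congrArg Subtype.val hx
        rw [Matrix.SpecialLinearGroup.coe_mul, Matrix.SpecialLinearGroup.coe_mul] at this
        exact this
      have h3 : (g⁻¹ : SL2 k).1 * g.1 = 1 := by
        have h4 : g⁻¹ * g = 1 := inv_mul_cancel g
        have := congrArg Subtype.val h4
        rw [Matrix.SpecialLinearGroup.coe_mul] at this
        exact this
      rw [mul_sub, sub_mul, mul_one, h3, ← h2]
    unfold dnm
    rw [h1]
    calc _ ≤ mnm ((g⁻¹ : SL2 k).1 * (((g * x * g⁻¹ : SL2 k) : Matrix (Fin 2) (Fin 2) k) - 1)) *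
          mnm g.1 := mnm_mul_le _ _
      _ ≤ mnm (g⁻¹ : SL2 k).1 * mnm (((g * x * g⁻¹ : SL2 k) : Matrix (Fin 2) (Fin 2) k) - 1) *
          mnm g.1 := mul_le_mul_of_nonneg_right (mnm_mul_le _ _) (mnm_nonneg _)
      _ = nm g⁻¹ * mnm (((g * x * g⁻¹ : SL2 k) : Matrix (Fin 2) (Fin 2) k) - 1) * nm g := rfl
      _ = _ := by rw [nm_inv]; ring

section

variable {F : Type} [Field F] [NumberField F] {ι : Type} {k : ι → Type}
  [∀ i, NormedField (k i)] [∀ i, IsUltrametricDist (k i)]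

/-- the hypotheses on `z` -/
structure CNS_hyp (D : Ctx F ι k) (W v : ι) (g : GG k) (r j : ℕ) (P : 𝓞 F)
    (z : unitary ℍ[F, (D.a : F), (D.b : F)]) : Prop where
  hP : av (D.v W) (P : F) ≤ (((D.L W).q : ℝ) ^ j)⁻¹
  mem : z ∈ GU D.a D.b D.n
  hv : (g * D.Th z * g⁻¹) v ∈ KK (D.L v) r
  hW : nm ((g * D.Th z * g⁻¹) W) ≤ ((D.L W).q : ℝ) ^ j
  hu : ∀ u, u ≠ v → u ≠ W → (g * D.Th z * g⁻¹) u ∈ KK (D.L u) 0

theorem CNS_mt (D : Ctx F ι k) (g : GG k) (u : ι) (z : unitary ℍ[F, (D.a : F), (D.b : F)]) :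
    mnm (D.mt u z.1) ≤ nm (g u) ^ 2 * nm ((g * D.Th z * g⁻¹) u) ∧
    mnm (D.mt u (z.1 - 1)) ≤ nm (g u) ^ 2 * dnm ((g * D.Th z * g⁻¹) u) := by
  have h := CNS_nm (g u) (D.Th z u)
  refine ⟨h.1, ?_⟩
  have h1 : D.mt u (z.1 - 1) = D.mt u z.1 - 1 := by
    unfold Ctx.mt
    rw [mq_sub, mq_one]
  rw [h1]
  exact h.2

/-- the four coordinates of `z`, multiplied by `P`, are bounded at `w` by `ρ` -/
def CNS_bd (w : HeightOneSpectrum (𝓞 F)) {a b : F} (P : F) (z : ℍ[F, a, b]) (ρ : ℝ) : Prop :=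
  av w P * av w z.re ≤ ρ ∧ av w P * av w z.imI ≤ ρ ∧ av w P * av w z.imJ ≤ ρ ∧
    av w P * av w z.imK ≤ ρ

theorem CNS_bd_of {w : HeightOneSpectrum (𝓞 F)} {a b : F} {P : F} {z : ℍ[F, a, b]} {c d ρ : ℝ}
    (h : CB w z c) (hP : av w P ≤ d) (hc : d * c ≤ ρ) : CNS_bd w P z ρ := by
  obtain ⟨h1, h2, h3, h4⟩ := h
  have hd : 0 ≤ d := le_trans (av_nonneg w P) hP
  have key : ∀ t : F, av w t ≤ c → av w P * av w t ≤ ρ := by
    intro t ht
    exact le_trans (mul_le_mul hP ht (av_nonneg w t) hd) hc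
  exact ⟨key _ h1, key _ h2, key _ h3, key _ h4⟩

theorem CNS_bd_mono {w : HeightOneSpectrum (𝓞 F)} {a b : F} {P : F} {z : ℍ[F, a, b]} {ρ ρ' : ℝ}
    (h : CNS_bd w P z ρ) (hc : ρ ≤ ρ') : CNS_bd w P z ρ' :=
  ⟨h.1.trans hc, h.2.1.trans hc, h.2.2.1.trans hc, h.2.2.2.trans hc⟩

/-- the bound at every place -/
theorem CNS_place (hN : Stmt_NBD) (D : Ctx F ι k) (W v : ι) (g : GG k)
    (w : HeightOneSpectrum (𝓞 F)) : ∃ ρ : ℝ, 0 ≤ ρ ∧ ∀ (r j : ℕ) (P : 𝓞 F)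
      (z : unitary ℍ[F, (D.a : F), (D.b : F)]), CNS_hyp D W v g r j P z →
      CNS_bd w (P : F) z.1 ρ := by
  by_cases hw : ∃ u, w = D.v u
  · obtain ⟨u, rfl⟩ := hw
    obtain ⟨C, hC1, hCa, hCb⟩ := hN F ι k D u
    have h0 : 0 ≤ nm (g u) := mnm_nonneg _
    refine ⟨C * nm (g u) ^ 2, by positivity, fun r j P z h => ?_⟩
    by_cases huW : u = W
    · subst huW
      have hq := (D.L u).q_pos
      have h1 : mnm (D.mt u z.1) ≤ nm (g u) ^ 2 * ((D.L u).q : ℝ) ^ j :=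
        le_trans (CNS_mt D g u z).1 (mul_le_mul_of_nonneg_left h.hW (by positivity))
      refine CNS_bd_of (hCb _ _ h1) h.hP (le_of_eq ?_)
      field_simp
    · have h2 : nm ((g * D.Th z * g⁻¹) u) ≤ 1 := by
        by_cases huv : u = v
        · subst huv
          exact h.hv.1
        · exact (h.hu u huv huW).1
      have h1 : mnm (D.mt u z.1) ≤ nm (g u) ^ 2 :=
        le_trans (CNS_mt D g u z).1 (mul_le_of_le_one_right (by positivity) h2)
      exact CNS_bd_of (hCb _ _ h1) (av_int _ P) (le_of_eq (one_mul _))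
  · push Not at hw
    by_cases hn : D.n ∈ w.asIdeal
    · obtain ⟨C, hC⟩ := D.nsp w hn hw
      refine ⟨|C|, abs_nonneg _, fun r j P z h => ?_⟩
      refine CNS_bd_of (hC z.1 ((mem_unitary_iff_nrq _).1 z.2)) (av_int _ P) ?_
      rw [one_mul]
      exact le_abs_self C
    · refine ⟨1, zero_le_one, fun r j P z h => ?_⟩
      exact CNS_bd_of (mem_GU.1 h.mem w hn) (av_int _ P) (le_of_eq (one_mul _))

end

theorem p_CNS (hPF : Stmt_PFM) (hDEN : Stmt_DEN) (hN : Stmt_NBD) : Stmt_CNS := by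
  intro F _ _ ι _ k _ _ D W v hWv g
  classical
  obtain ⟨-, -, hint, hfin⟩ := hPF F D.tr
  choose ρ hρ0 hρ using CNS_place hN D W v g
  set S := (hfin D.n D.hn).toFinset with hS
  obtain ⟨c, hc0, hc⟩ := hDEN F S (∑ w ∈ S, ρ w)
  obtain ⟨Cv, hCv1, hCva, hCvb⟩ := hN F ι k D v
  have h0 : 0 ≤ nm (g v) := mnm_nonneg _
  refine ⟨c, Cv * nm (g v) ^ 2 + 1, hc0, by positivity, ?_⟩
  intro r j P hP z hz hv hW hu
  have hyp : CNS_hyp D W v g r j P z := ⟨hP, hz, hv, hW, hu⟩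
  -- integrality
  have key : ∀ t : F, (∀ w, av w (P : F) * av w t ≤ ρ w) →
      (∀ w, D.n ∉ w.asIdeal → av w t ≤ 1) → ∃ y : 𝓞 F, (y : F) = (c : F) * P * t := by
    intro t ht ht1
    refine hint _ fun w => ?_
    rw [av_mul, av_mul, mul_assoc]
    by_cases hw : D.n ∈ w.asIdeal
    · have hwS : w ∈ S := by
        rw [hS, Set.Finite.mem_toFinset]
        exact hw
      refine le_trans (mul_le_mul_of_nonneg_left (le_trans (ht w) ?_) (av_nonneg w _)) (hc w hwS)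
      exact Finset.single_le_sum (f := ρ) (fun w _ => hρ0 w) hwS
    · exact mul_le_one₀ (av_int w c) (mul_nonneg (av_nonneg _ _) (av_nonneg _ _))
        (mul_le_one₀ (av_int w P) (av_nonneg _ _) (ht1 w hw))
  have hb : ∀ w, CNS_bd w (P : F) z.1 (ρ w) := fun w => hρ w r j P z hyp
  have hg := fun w hw => mem_GU.1 hz w hw
  obtain ⟨y0, hy0⟩ := key z.1.re (fun w => (hb w).1) (fun w hw => (hg w hw).1)
  obtain ⟨y1, hy1⟩ := key z.1.imI (fun w => (hb w).2.1) (fun w hw => (hg w hw).2.1)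
  obtain ⟨y2, hy2⟩ := key z.1.imJ (fun w => (hb w).2.2.1) (fun w hw => (hg w hw).2.2.1)
  obtain ⟨y3, hy3⟩ := key z.1.imK (fun w => (hb w).2.2.2) (fun w hw => (hg w hw).2.2.2)
  -- the bounds at `v`
  have hq := (D.L v).q_pos
  have hd : mnm (D.mt v (z.1 - 1)) ≤ nm (g v) ^ 2 * (((D.L v).q : ℝ) ^ r)⁻¹ :=
    le_trans (CNS_mt D g v z).2 (mul_le_mul_of_nonneg_left hv.2 (by positivity))
  obtain ⟨e0, e1, e2, e3⟩ := hCvb _ _ hd
  have hle : Cv * (nm (g v) ^ 2 * (((D.L v).q : ℝ) ^ r)⁻¹) ≤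
      (Cv * nm (g v) ^ 2 + 1) / ((D.L v).q : ℝ) ^ r := by
    rw [div_eq_mul_inv, ← mul_assoc]
    exact mul_le_mul_of_nonneg_right (by linarith) (by positivity)
  have hmul : ∀ t : F, av (D.v v) t ≤ Cv * (nm (g v) ^ 2 * (((D.L v).q : ℝ) ^ r)⁻¹) →
      av (D.v v) ((c : F) * P * t) ≤ (Cv * nm (g v) ^ 2 + 1) / ((D.L v).q : ℝ) ^ r := by
    intro t ht
    refine le_trans ?_ (le_trans ht hle)
    rw [av_mul, av_mul]
    exact mul_le_of_le_one_left (av_nonneg _ _)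
      (mul_le_one₀ (av_int _ c) (av_nonneg _ _) (av_int _ P))
  refine ⟨![y0, y1, y2, y3], hy0, hy1, hy2, hy3, ?_, ?_⟩
  · have h1 : (((![y0, y1, y2, y3] 0 : 𝓞 F) : F) - (c : F) * (P : F)) =
        (c : F) * P * (z.1 - 1).re := by
      have h2 : ((![y0, y1, y2, y3] 0 : 𝓞 F) : F) = (c : F) * P * z.1.re := hy0
      rw [h2, QuaternionAlgebra.re_sub, QuaternionAlgebra.re_one]
      ring
    rw [h1]
    exact hmul _ e0
  · intro i hi
    fin_cases i
    · exact absurd rfl hi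
    · change av (D.v v) (y1 : F) ≤ _
      rw [hy1]
      refine hmul _ ?_
      have : (z.1 - 1).imI = z.1.imI := by
        rw [QuaternionAlgebra.imI_sub, QuaternionAlgebra.imI_one, sub_zero]
      rwa [this] at e1
    · change av (D.v v) (y2 : F) ≤ _
      rw [hy2]
      refine hmul _ ?_
      have : (z.1 - 1).imJ = z.1.imJ := by
        rw [QuaternionAlgebra.imJ_sub, QuaternionAlgebra.imJ_one, sub_zero]
      rwa [this] at e2
    · change av (D.v v) (y3 : F) ≤ _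
      rw [hy3]
      refine hmul _ ?_
      have : (z.1 - 1).imK = z.1.imK := by
        rw [QuaternionAlgebra.imK_sub, QuaternionAlgebra.imK_one, sub_zero]
      rwa [this] at e3

end Pool.PL
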