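import Pool.Agent.Work.MP_972ac7_P.Interface2

set_option autoImplicit false

open MeasureTheory NumberField IsDedekindDomain
open scoped Quaternion

noncomputable section

namespace Pool.PL

open Pool.TFD Pool.TC

theorem CNT_num {q Q C N A : ℝ} {h : ℕ} (hq : 1 ≤ q ^ h) (hQ : 0 < Q) (hC : 0 ≤ C) (hA : 0 ≤ A)
    (hN0 : 0 ≤ N) (hN : N ≤ q ^ h * A) :
    2 + C * (N / Q) ^ (5 / 3 : ℝ) * (1 + N / Q ^ 2) ≤
      2 + (C * (q ^ h) ^ (5 / 3 : ℝ) * q ^ h) * (A / Q) ^ (5 / 3 : ℝ) * (1 + A / Q ^ 2) := by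
  have hq0 : 0 ≤ q ^ h := by linarith
  have hAQ : 0 ≤ A / Q := div_nonneg hA hQ.le
  have h1 : (N / Q) ^ (5 / 3 : ℝ) ≤ (q ^ h) ^ (5 / 3 : ℝ) * (A / Q) ^ (5 / 3 : ℝ) := by
    rw [← Real.mul_rpow hq0 hAQ]
    refine Real.rpow_le_rpow (div_nonneg hN0 hQ.le) ?_ (by norm_num)
    rw [mul_div_assoc']
    exact div_le_div_of_nonneg_right hN hQ.le
  have h2 : 1 + N / Q ^ 2 ≤ q ^ h * (1 + A / Q ^ 2) := by
    have h3 : N / Q ^ 2 ≤ q ^ h * (A / Q ^ 2) := by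
      rw [mul_div_assoc']
      exact div_le_div_of_nonneg_right hN (by positivity)
    have h4 : q ^ h * (1 + A / Q ^ 2) = q ^ h + q ^ h * (A / Q ^ 2) := by ring
    rw [h4]
    linarith
  have h5 : 0 ≤ (A / Q) ^ (5 / 3 : ℝ) := Real.rpow_nonneg hAQ _
  have h6 : 0 ≤ (q ^ h) ^ (5 / 3 : ℝ) := Real.rpow_nonneg hq0 _
  have h7 : 0 ≤ 1 + N / Q ^ 2 := by positivity
  have h8 : C * (N / Q) ^ (5 / 3 : ℝ) * (1 + N / Q ^ 2) ≤
      C * ((q ^ h) ^ (5 / 3 : ℝ) * (A / Q) ^ (5 / 3 : ℝ)) * (q ^ h * (1 + A / Q ^ 2)) := by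
    refine mul_le_mul (mul_le_mul_of_nonneg_left h1 hC) h2 h7 ?_
    positivity
  have h9 : C * ((q ^ h) ^ (5 / 3 : ℝ) * (A / Q) ^ (5 / 3 : ℝ)) * (q ^ h * (1 + A / Q ^ 2)) =
      (C * (q ^ h) ^ (5 / 3 : ℝ) * q ^ h) * (A / Q) ^ (5 / 3 : ℝ) * (1 + A / Q ^ 2) := by ring
  linarith

theorem p_CNT (hVPW : Stmt_VPW) (hCNA : Stmt_CNA) (hCNS : Stmt_CNS) : Stmt_CNT := by
  intro F _ _ ι _ k _ _ D W v hWv g
  obtain ⟨h, p, hh, hp0, hpW, hpv, hpN⟩ := hVPW F D.tr (D.v W)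
  obtain ⟨c, C₁, hc, hC₁, hS⟩ := hCNS F ι k D W v hWv g
  obtain ⟨C, hC, hA⟩ := hCNA F D.a D.b D.ha D.hb D.tr (D.v v) c hc C₁ hC₁
  have hqW := (D.L W).q_pos
  have hqW1 := (D.L W).one_lt
  have hqv := (D.L v).q_pos
  have hqv1 := (D.L v).one_lt
  rw [← D.hq W] at hpW hpN
  have hqh : 1 ≤ ((D.L W).q : ℝ) ^ h := one_le_pow₀ hqW1.le
  refine ⟨C * (((D.L W).q : ℝ) ^ h) ^ (5 / 3 : ℝ) * ((D.L W).q : ℝ) ^ h, by positivity,
    fun r j => ?_⟩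
  -- the power of p
  obtain ⟨t, ht⟩ : ∃ t : ℕ, t = (j + h - 1) / h := ⟨_, rfl⟩
  have ht1 : j ≤ h * t := by
    have h1 := Nat.div_add_mod (j + h - 1) h
    have h2 := Nat.mod_lt (j + h - 1) (by omega : 0 < h)
    rw [← ht] at h1
    omega
  have ht2 : h * t ≤ j + h := by
    have h1 := Nat.div_add_mod (j + h - 1) h
    rw [← ht] at h1
    omega
  have hP0 : p ^ t ≠ 0 := pow_ne_zero t hp0
  have havpow : ∀ (w : HeightOneSpectrum (𝓞 F)) (x : F) (n : ℕ), av w (x ^ n) = av w x ^ n := by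
    intro w x n
    unfold av
    rw [map_pow]
  have hPv : av (D.v v) ((p ^ t : 𝓞 F) : F) = 1 := by
    push_cast
    rw [havpow, hpv _ (fun e => hWv (D.inj e.symm)), one_pow]
  have hPW : av (D.v W) ((p ^ t : 𝓞 F) : F) ≤ (((D.L W).q : ℝ) ^ j)⁻¹ := by
    push_cast
    rw [havpow, hpW, inv_pow, ← pow_mul]
    exact inv_anti₀ (pow_pos hqW j) (pow_le_pow_right₀ hqW1.le ht1)
  have hPN : Nm ((p ^ t : 𝓞 F) : F) ≤ ((D.L W).q : ℝ) ^ h * ((D.L W).q : ℝ) ^ j := by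
    push_cast
    rw [Nm_pow, hpN, ← pow_mul, ← pow_add]
    exact pow_le_pow_right₀ hqW1.le (by omega)
  have hQ : 1 ≤ ((D.L v).q : ℝ) ^ r := one_le_pow₀ hqv1.le
  -- the map
  have hex : ∀ γ : cset D.L D.Γ W v g r j, ∃ (z : unitary ℍ[F, (D.a : F), (D.b : F)])
      (y : Fin 4 → 𝓞 F), D.Th z = (γ.1 : GG k) ∧
      ((y 0 : 𝓞 F) : F) = (c : F) * (p ^ t : 𝓞 F) * z.1.re ∧
        ((y 1 : 𝓞 F) : F) = (c : F) * (p ^ t : 𝓞 F) * z.1.imI ∧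
        ((y 2 : 𝓞 F) : F) = (c : F) * (p ^ t : 𝓞 F) * z.1.imJ ∧
        ((y 3 : 𝓞 F) : F) = (c : F) * (p ^ t : 𝓞 F) * z.1.imK ∧
        av (D.v v) (((y 0 : 𝓞 F) : F) - (c : F) * ((p ^ t : 𝓞 F) : F)) ≤
          C₁ / ((D.L v).q : ℝ) ^ r ∧
        ∀ i, i ≠ 0 → av (D.v v) ((y i : 𝓞 F) : F) ≤ C₁ / ((D.L v).q : ℝ) ^ r := by
    intro γ
    obtain ⟨z, hz, hzγ⟩ := γ.1.2
    obtain ⟨g1, g2, g3⟩ := γ.2
    rw [← hzγ] at g1 g2 g3
    obtain ⟨y, hy⟩ := hS r j (p ^ t) hPW z hz g1 g2 g3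
    exact ⟨z, y, hzγ, hy⟩
  choose z y hzγ hy0 hy1 hy2 hy3 hyv hyi using hex
  have hinj : Function.Injective y := by
    intro γ γ' hyy
    have hcp : (c : F) * ((p ^ t : 𝓞 F) : F) ≠ 0 := by
      refine mul_ne_zero ?_ ?_
      · exact_mod_cast hc
      · exact_mod_cast hP0
    have e0 := hy0 γ
    have e1 := hy1 γ
    have e2 := hy2 γ
    have e3 := hy3 γ
    rw [hyy] at e0 e1 e2 e3
    have f0 := mul_left_cancel₀ hcp (e0.symm.trans (hy0 γ'))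
    have f1 := mul_left_cancel₀ hcp (e1.symm.trans (hy1 γ'))
    have f2 := mul_left_cancel₀ hcp (e2.symm.trans (hy2 γ'))
    have f3 := mul_left_cancel₀ hcp (e3.symm.trans (hy3 γ'))
    have hzz : z γ = z γ' := Subtype.ext (QuaternionAlgebra.ext f0 f1 f2 f3)
    apply Subtype.ext
    apply Subtype.ext
    rw [← hzγ γ, ← hzγ γ', hzz]
  have hZ := hA (p ^ t) (((D.L v).q : ℝ) ^ r) hP0 hPv hQ (Set.range y) (by
    rintro _ ⟨γ, rfl⟩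
    refine ⟨?_, hyv γ, hyi γ⟩
    have hn := (mem_unitary_iff_nrq _).1 (z γ).2
    have a0 : algebraMap (𝓞 F) F (y γ 0) = algebraMap (𝓞 F) F c * algebraMap (𝓞 F) F (p ^ t) *
      (z γ).1.re := hy0 γ
    have a1 : algebraMap (𝓞 F) F (y γ 1) = algebraMap (𝓞 F) F c * algebraMap (𝓞 F) F (p ^ t) *
      (z γ).1.imI := hy1 γ
    have a2 : algebraMap (𝓞 F) F (y γ 2) = algebraMap (𝓞 F) F c * algebraMap (𝓞 F) F (p ^ t) *
      (z γ).1.imJ := hy2 γ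
    have a3 : algebraMap (𝓞 F) F (y γ 3) = algebraMap (𝓞 F) F c * algebraMap (𝓞 F) F (p ^ t) *
      (z γ).1.imK := hy3 γ
    have hn' : (z γ).1.re ^ 2 - algebraMap (𝓞 F) F D.a * (z γ).1.imI ^ 2 -
      algebraMap (𝓞 F) F D.b * (z γ).1.imJ ^ 2 +
      algebraMap (𝓞 F) F D.a * algebraMap (𝓞 F) F D.b * (z γ).1.imK ^ 2 = 1 := hn
    have hF : algebraMap (𝓞 F) F (y γ 0 ^ 2 - D.a * y γ 1 ^ 2 - D.b * y γ 2 ^ 2 +
        D.a * D.b * y γ 3 ^ 2) = algebraMap (𝓞 F) F ((c * p ^ t) ^ 2) := by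
      rw [map_add, map_sub, map_sub, map_mul, map_mul, map_mul, map_mul, map_pow, map_pow,
        map_pow, map_pow, a0, a1, a2, a3]
      simp only [map_pow, map_mul]
      linear_combination (algebraMap (𝓞 F) F c * algebraMap (𝓞 F) F p ^ t) ^ 2 * hn'
    exact FaithfulSMul.algebraMap_injective (𝓞 F) F hF)
  obtain ⟨hfin, hcard⟩ := hZ
  have hfin' : Finite (Set.range y) := hfin
  have hF2 : Finite (cset D.L D.Γ W v g r j) :=
    Finite.of_injective (Set.rangeFactorization y) (fun a b hab => hinj (congrArg Subtype.val hab))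
  refine ⟨Set.toFinite _, ?_⟩
  have hle : (Nat.card (cset D.L D.Γ W v g r j) : ℝ) ≤ Nat.card (Set.range y) := by
    exact_mod_cast Nat.card_le_card_of_injective (Set.rangeFactorization y)
      (fun a b hab => hinj (congrArg Subtype.val hab))
  refine hle.trans (hcard.trans ?_)
  exact CNT_num hqh (by positivity) hC.le (by positivity) (Nm_nonneg _) hPN

end Pool.PL
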