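import Pool.Agent.Work.MP_972ac7_P.Interface2

set_option autoImplicit false

/-! # Block CON: points on a conic -/

open MeasureTheory NumberField IsDedekindDomain
open scoped Quaternion

noncomputable section

namespace Pool.PL

open Pool.TFD Pool.TC

/-- three different points of a definite conic are not collinear -/
theorem CON_noncol {F : Type} [Field F] (σ : F →+* ℝ) (c₁ c₂ μ : F) (h1 : 0 < σ c₁)
    (h2 : 0 < σ c₂) (x y x' y' x'' y'' : F) (e : c₁ * x ^ 2 + c₂ * y ^ 2 = μ)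
    (e' : c₁ * x' ^ 2 + c₂ * y' ^ 2 = μ) (e'' : c₁ * x'' ^ 2 + c₂ * y'' ^ 2 = μ)
    (hΔ : (x' - x) * (y'' - y) - (x'' - x) * (y' - y) = 0)
    (n1 : ¬ (x' = x ∧ y' = y)) (n2 : ¬ (x'' = x ∧ y'' = y)) (n3 : ¬ (x'' = x' ∧ y'' = y')) :
    False := by
  have hs : ∃ s : F, x'' - x = s * (x' - x) ∧ y'' - y = s * (y' - y) := by
    by_cases hu : x' - x = 0
    · have hv : y' - y ≠ 0 := fun hv => n1 ⟨sub_eq_zero.1 hu, sub_eq_zero.1 hv⟩
      refine ⟨(y'' - y) / (y' - y), ?_, ?_⟩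
      · have h0 : (x'' - x) * (y' - y) = 0 := by
          rw [hu, zero_mul, zero_sub, neg_eq_zero] at hΔ
          exact hΔ
        rw [hu, mul_zero]
        exact (mul_eq_zero.1 h0).resolve_right hv
      · field_simp
    · refine ⟨(x'' - x) / (x' - x), ?_, ?_⟩
      · field_simp
      · field_simp
        linear_combination hΔ
  obtain ⟨s, hs1, hs2⟩ := hs
  have hx : x'' = x + s * (x' - x) := by linear_combination hs1
  have hy : y'' = y + s * (y' - y) := by linear_combination hs2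
  have hQ : c₁ * (x' - x) ^ 2 + c₂ * (y' - y) ^ 2 ≠ 0 := by
    intro h0
    have h0' : σ c₁ * (σ (x' - x)) ^ 2 + σ c₂ * (σ (y' - y)) ^ 2 = 0 := by
      rw [← map_pow, ← map_pow, ← map_mul, ← map_mul, ← map_add, h0, map_zero]
    have k1 : 0 ≤ σ c₁ * (σ (x' - x)) ^ 2 := mul_nonneg h1.le (sq_nonneg _)
    have k2 : 0 ≤ σ c₂ * (σ (y' - y)) ^ 2 := mul_nonneg h2.le (sq_nonneg _)
    have k3 : σ c₁ * (σ (x' - x)) ^ 2 = 0 := by linarith
    have k4 : σ c₂ * (σ (y' - y)) ^ 2 = 0 := by linarith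
    have k5 : σ (x' - x) = 0 := by
      rcases mul_eq_zero.1 k3 with h | h
      · exact absurd h h1.ne'
      · exact pow_eq_zero_iff (two_ne_zero) |>.1 h
    have k6 : σ (y' - y) = 0 := by
      rcases mul_eq_zero.1 k4 with h | h
      · exact absurd h h2.ne'
      · exact pow_eq_zero_iff (two_ne_zero) |>.1 h
    exact n1 ⟨sub_eq_zero.1 ((map_eq_zero σ).1 k5), sub_eq_zero.1 ((map_eq_zero σ).1 k6)⟩
  have hz : (s * (s - 1)) * (c₁ * (x' - x) ^ 2 + c₂ * (y' - y) ^ 2) = 0 := by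
    rw [hx, hy] at e''
    linear_combination e'' - e - s * (e' - e)
  rcases mul_eq_zero.1 ((mul_eq_zero.1 hz).resolve_right hQ) with h | h
  · apply n2
    rw [hx, hy, h]
    constructor <;> ring
  · apply n3
    have h1' : s = 1 := by linear_combination h
    rw [hx, hy, h1']
    constructor <;> ring

/-- counting with a map to `Fin K` with fibres of at most two elements -/
theorem CON_count {α : Type} (Z : Set α) (K : ℕ) (f : α → Fin K)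
    (h : ∀ p ∈ Z, ∀ p' ∈ Z, ∀ p'' ∈ Z, p ≠ p' → p ≠ p'' → p' ≠ p'' → f p = f p' → f p = f p'' →
      False) : Z.Finite ∧ Nat.card Z ≤ 2 * K := by
  classical
  have hT : ∀ T : Finset α, (T : Set α) ⊆ Z → T.card ≤ 2 * K := by
    intro T hT
    have h1 := Finset.card_le_mul_card_image (f := f) T 2 (by
      intro a _
      by_contra hlt
      rw [not_le, Finset.two_lt_card] at hlt
      obtain ⟨p, hp, p', hp', p'', hp'', n1, n2, n3⟩ := hlt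
      rw [Finset.mem_filter] at hp hp' hp''
      exact h p (hT hp.1) p' (hT hp'.1) p'' (hT hp''.1) n1 n2 n3 (hp.2.trans hp'.2.symm)
        (hp.2.trans hp''.2.symm))
    refine h1.trans (Nat.mul_le_mul_left 2 ?_)
    have := Finset.card_le_univ (T.image f)
    rwa [Fintype.card_fin] at this
  have hf : Z.Finite := by
    by_contra hinf
    obtain ⟨T, hTZ, hTc⟩ := Set.Infinite.exists_subset_card_eq hinf (2 * K + 1)
    have := hT T hTZ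
    omega
  refine ⟨hf, ?_⟩
  rw [Nat.card_coe_set_eq, Set.ncard_eq_toFinset_card Z hf]
  exact hT _ (by rw [Set.Finite.coe_toFinset])

/-- the valuation of the determinant -/
theorem CON_av {F : Type} [Field F] [NumberField F] (w : HeightOneSpectrum (𝓞 F)) (A : ℝ)
    (hA : 0 < A) (a b c d : F) (ha : av w a ≤ A) (hb : av w b ≤ A) (hc : av w c ≤ A)
    (hd : av w d ≤ A) : av w (a * b - c * d) ≤ A ^ 2 := by
  rw [sub_eq_add_neg]
  refine (av_add_le w _ _).trans (max_le ?_ ?_)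
  · rw [av_mul, pow_two]
    exact mul_le_mul ha hb (av_nonneg w b) hA.le
  · rw [av_neg, av_mul, pow_two]
    exact mul_le_mul hc hd (av_nonneg w d) hA.le

/-- the constant -/
def CON_D {F : Type} [Field F] [NumberField F] (c₁ c₂ : 𝓞 F) : ℝ :=
  (∏ σ : F →+* ℝ, 4 / Real.sqrt (σ (c₁ : F) * σ (c₂ : F))) * (2 * Real.pi) ^ 3

theorem CON_D_pos {F : Type} [Field F] [NumberField F] (c₁ c₂ : 𝓞 F)
    (h1 : ∀ σ : F →+* ℝ, 0 < σ (c₁ : F)) (h2 : ∀ σ : F →+* ℝ, 0 < σ (c₂ : F)) :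
    0 < CON_D c₁ c₂ := by
  unfold CON_D
  refine mul_pos (Finset.prod_pos fun σ _ => ?_) (by positivity)
  have := Real.sqrt_pos.2 (mul_pos (h1 σ) (h2 σ))
  positivity

/-- the estimate at the real places -/
theorem CON_Nm {F : Type} [Field F] [NumberField F] (hANG : Stmt_ANG) (c₁ c₂ : 𝓞 F)
    (h1 : ∀ σ : F →+* ℝ, 0 < σ (c₁ : F)) (h2 : ∀ σ : F →+* ℝ, 0 < σ (c₂ : F)) (μ : F)
    (hμ : ∀ σ : F →+* ℝ, 0 ≤ σ μ) (σ₀ : F →+* ℝ) (K : ℕ) (hK : 1 ≤ K) :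
    ∃ cl : F × F → Fin K, ∀ x y x' y' x'' y'' : F,
      (c₁ : F) * x ^ 2 + (c₂ : F) * y ^ 2 = μ → (c₁ : F) * x' ^ 2 + (c₂ : F) * y' ^ 2 = μ →
      (c₁ : F) * x'' ^ 2 + (c₂ : F) * y'' ^ 2 = μ → cl (x, y) = cl (x', y') →
      cl (x, y) = cl (x'', y'') →
      Nm ((x' - x) * (y'' - y) - (x'' - x) * (y' - y)) * (K : ℝ) ^ 3 ≤ CON_D c₁ c₂ * Nm μ := by
  classical
  obtain ⟨cl, hcl⟩ := hANG (σ₀ (c₁ : F)) (σ₀ (c₂ : F)) (σ₀ μ) (h1 σ₀) (h2 σ₀) (hμ σ₀) K hK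
  refine ⟨fun p => cl (σ₀ p.1, σ₀ p.2), ?_⟩
  intro x y x' y' x'' y'' e e' e'' k k'
  set Δ : F := (x' - x) * (y'' - y) - (x'' - x) * (y' - y) with hΔ
  have hev : ∀ σ : F →+* ℝ, ∀ a b : F, (c₁ : F) * a ^ 2 + (c₂ : F) * b ^ 2 = μ →
      σ (c₁ : F) * (σ a) ^ 2 + σ (c₂ : F) * (σ b) ^ 2 = σ μ := by
    intro σ a b h
    rw [← h, map_add, map_mul, map_mul, map_pow, map_pow]
  have hσΔ : ∀ σ : F →+* ℝ, σ Δ = (σ x' - σ x) * (σ y'' - σ y) - (σ x'' - σ x) * (σ y' - σ y) := by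
    intro σ
    rw [hΔ]
    simp only [map_sub, map_mul]
  have hKpos : (0 : ℝ) < (K : ℝ) := by exact_mod_cast hK
  have b0 : |σ₀ Δ| ≤ 4 * σ₀ μ / Real.sqrt (σ₀ (c₁ : F) * σ₀ (c₂ : F)) *
      (2 * Real.pi / K) ^ 3 := by
    rw [hσΔ]
    have := hcl (σ₀ x, σ₀ y) (σ₀ x', σ₀ y') (σ₀ x'', σ₀ y'') (hev σ₀ _ _ e) (hev σ₀ _ _ e')
      (hev σ₀ _ _ e'') k k'
    refine this.trans (mul_le_mul_of_nonneg_left (min_le_right _ _) ?_)
    have := hμ σ₀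
    positivity
  have b1 : ∀ σ : F →+* ℝ, |σ Δ| ≤ 4 * σ μ / Real.sqrt (σ (c₁ : F) * σ (c₂ : F)) := by
    intro σ
    obtain ⟨cl', hcl'⟩ := hANG (σ (c₁ : F)) (σ (c₂ : F)) (σ μ) (h1 σ) (h2 σ) (hμ σ) 1 le_rfl
    rw [hσΔ]
    have := hcl' (σ x, σ y) (σ x', σ y') (σ x'', σ y'') (hev σ _ _ e) (hev σ _ _ e')
      (hev σ _ _ e'') (Subsingleton.elim _ _) (Subsingleton.elim _ _)
    refine this.trans ?_
    have h0 : 0 ≤ 4 * σ μ / Real.sqrt (σ (c₁ : F) * σ (c₂ : F)) := by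
      have := hμ σ
      positivity
    calc _ ≤ 4 * σ μ / Real.sqrt (σ (c₁ : F) * σ (c₂ : F)) * 1 :=
          mul_le_mul_of_nonneg_left (min_le_left _ _) h0
      _ = _ := mul_one _
  have hprod : Nm Δ ≤ (∏ σ : F →+* ℝ, 4 * σ μ / Real.sqrt (σ (c₁ : F) * σ (c₂ : F))) *
      (2 * Real.pi / K) ^ 3 := by
    unfold Nm
    rw [← Finset.mul_prod_erase Finset.univ _ (Finset.mem_univ σ₀),
      ← Finset.mul_prod_erase Finset.univ
        (fun σ : F →+* ℝ => 4 * σ μ / Real.sqrt (σ (c₁ : F) * σ (c₂ : F))) (Finset.mem_univ σ₀)]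
    have hp : ∏ σ ∈ Finset.univ.erase σ₀, |σ Δ| ≤
        ∏ σ ∈ Finset.univ.erase σ₀, 4 * σ μ / Real.sqrt (σ (c₁ : F) * σ (c₂ : F)) :=
      Finset.prod_le_prod (fun σ _ => abs_nonneg _) (fun σ _ => b1 σ)
    have hp0 : 0 ≤ ∏ σ ∈ Finset.univ.erase σ₀, |σ Δ| := Finset.prod_nonneg fun σ _ => abs_nonneg _
    have h00 : 0 ≤ 4 * σ₀ μ / Real.sqrt (σ₀ (c₁ : F) * σ₀ (c₂ : F)) *
      (2 * Real.pi / K) ^ 3 := (abs_nonneg _).trans b0
    calc _ ≤ (4 * σ₀ μ / Real.sqrt (σ₀ (c₁ : F) * σ₀ (c₂ : F)) * (2 * Real.pi / K) ^ 3) *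
          ∏ σ ∈ Finset.univ.erase σ₀, 4 * σ μ / Real.sqrt (σ (c₁ : F) * σ (c₂ : F)) :=
          mul_le_mul b0 hp hp0 h00
      _ = _ := by ring
  have hsplit : (∏ σ : F →+* ℝ, 4 * σ μ / Real.sqrt (σ (c₁ : F) * σ (c₂ : F))) =
      (∏ σ : F →+* ℝ, 4 / Real.sqrt (σ (c₁ : F) * σ (c₂ : F))) * Nm μ := by
    unfold Nm
    rw [← Finset.prod_mul_distrib]
    refine Finset.prod_congr rfl fun σ _ => ?_
    rw [abs_of_nonneg (hμ σ)]
    ring
  have hK3 : (0 : ℝ) ≤ (K : ℝ) ^ 3 := by positivity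
  have := mul_le_mul_of_nonneg_right hprod hK3
  refine this.trans (le_of_eq ?_)
  rw [hsplit, CON_D]
  field_simp

theorem p_CON (hPFM : Stmt_PFM) (hANG : Stmt_ANG) : Stmt_CON := by
  intro F _ _ hTR c₁ c₂ h1 h2
  classical
  have hD := CON_D_pos c₁ c₂ h1 h2
  refine ⟨2 * (CON_D c₁ c₂) ^ (1 / 3 : ℝ), by positivity, ?_⟩
  intro w A μ hA Z hZ hZA
  have hne : Nonempty (F →+* ℝ) := by
    rw [← Fintype.card_pos_iff, hTR.card]
    exact Module.finrank_pos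
  obtain ⟨σ₀⟩ := hne
  have hNm := Nm_nonneg μ
  have hX : 0 ≤ Nm μ * A ^ 2 := by positivity
  rcases Set.eq_empty_or_nonempty Z with hE | ⟨p₀, hp₀⟩
  · subst hE
    refine ⟨Set.finite_empty, ?_⟩
    have h0 : (Nat.card (∅ : Set (𝓞 F × 𝓞 F)) : ℝ) = 0 := by simp
    rw [h0]
    positivity
  have hμ : ∀ σ : F →+* ℝ, 0 ≤ σ μ := by
    intro σ
    rw [← hZ p₀ hp₀, map_add, map_mul, map_mul, map_pow, map_pow]
    have := h1 σ
    have := h2 σ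
    positivity
  set X : ℝ := CON_D c₁ c₂ * (Nm μ * A ^ 2) with hXdef
  have hX0 : 0 ≤ X := mul_nonneg hD.le hX
  set K : ℕ := ⌊X ^ (1 / 3 : ℝ)⌋₊ + 1 with hKdef
  have hK1 : 1 ≤ K := Nat.le_add_left 1 _
  have hKlt : X ^ (1 / 3 : ℝ) < (K : ℝ) := by
    rw [hKdef]
    push_cast
    exact Nat.lt_floor_add_one _
  have hKle : (K : ℝ) ≤ X ^ (1 / 3 : ℝ) + 1 := by
    rw [hKdef]
    push_cast
    have := Nat.floor_le (Real.rpow_nonneg hX0 (1 / 3 : ℝ))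
    linarith
  have hK3 : X < (K : ℝ) ^ 3 := by
    have h0 : (X ^ (1 / 3 : ℝ)) ^ 3 = X := by
      rw [← Real.rpow_natCast, ← Real.rpow_mul hX0]
      norm_num
    calc X = (X ^ (1 / 3 : ℝ)) ^ 3 := h0.symm
      _ < (K : ℝ) ^ 3 := pow_lt_pow_left₀ hKlt (Real.rpow_nonneg hX0 _) (by norm_num)
  obtain ⟨cl, hcl⟩ := CON_Nm hANG c₁ c₂ h1 h2 μ hμ σ₀ K hK1
  obtain ⟨hfin, hcard⟩ := CON_count Z K (fun p => cl ((p.1 : F), (p.2 : F))) (by
    intro p hp p' hp' p'' hp'' n1 n2 n3 k k'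
    have hcoe : ∀ a b : 𝓞 F, (a : F) = (b : F) → a = b := fun a b h =>
      RingOfIntegers.ext h
    set δ : 𝓞 F := (p'.1 - p.1) * (p''.2 - p.2) - (p''.1 - p.1) * (p'.2 - p.2) with hδ
    have hδF : (δ : F) = ((p'.1 : F) - (p.1 : F)) * ((p''.2 : F) - (p.2 : F)) -
        ((p''.1 : F) - (p.1 : F)) * ((p'.2 : F) - (p.2 : F)) := by
      rw [hδ]
      simp only [map_sub, map_mul]
    have hδ0 : δ ≠ 0 := by
      intro h0
      have hz : (δ : F) = 0 := by rw [h0]; simp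
      refine CON_noncol σ₀ (c₁ : F) (c₂ : F) μ (h1 σ₀) (h2 σ₀) (p.1 : F) (p.2 : F) (p'.1 : F)
        (p'.2 : F) (p''.1 : F) (p''.2 : F) (hZ p hp) (hZ p' hp') (hZ p'' hp'')
        (by rw [← hδF]; exact hz) ?_ ?_ ?_
      · rintro ⟨h, h'⟩
        exact n1 (Prod.ext (hcoe _ _ h.symm) (hcoe _ _ h'.symm))
      · rintro ⟨h, h'⟩
        exact n2 (Prod.ext (hcoe _ _ h.symm) (hcoe _ _ h'.symm))
      · rintro ⟨h, h'⟩
        exact n3 (Prod.ext (hcoe _ _ h.symm) (hcoe _ _ h'.symm))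
    have hlow := (hPFM F hTR).1 δ hδ0 w
    have hav : av w (δ : F) ≤ A ^ 2 := by
      rw [hδF]
      exact CON_av w A hA _ _ _ _ (hZA p' hp' p hp).1 (hZA p'' hp'' p hp).2
        (hZA p'' hp'' p hp).1 (hZA p' hp' p hp).2
    have hup := hcl _ _ _ _ _ _ (hZ p hp) (hZ p' hp') (hZ p'' hp'') k k'
    rw [← hδF] at hup
    have hN0 := Nm_nonneg (δ : F)
    have hlow' : 1 ≤ Nm (δ : F) * A ^ 2 := hlow.trans (mul_le_mul_of_nonneg_left hav hN0)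
    have hA2 : 0 < A ^ 2 := by positivity
    have : (K : ℝ) ^ 3 ≤ X := by
      calc (K : ℝ) ^ 3 ≤ (Nm (δ : F) * A ^ 2) * (K : ℝ) ^ 3 :=
            le_mul_of_one_le_left (by positivity) hlow'
        _ = (Nm (δ : F) * (K : ℝ) ^ 3) * A ^ 2 := by ring
        _ ≤ (CON_D c₁ c₂ * Nm μ) * A ^ 2 := mul_le_mul_of_nonneg_right hup hA2.le
        _ = X := by rw [hXdef]; ring
    exact absurd this (not_le.2 hK3))
  refine ⟨hfin, ?_⟩
  have hXr : X ^ (1 / 3 : ℝ) = (CON_D c₁ c₂) ^ (1 / 3 : ℝ) * (Nm μ * A ^ 2) ^ (1 / 3 : ℝ) := by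
    rw [hXdef, Real.mul_rpow hD.le hX]
  calc (Nat.card Z : ℝ) ≤ ((2 * K : ℕ) : ℝ) := by exact_mod_cast hcard
    _ = 2 * (K : ℝ) := by push_cast; ring
    _ ≤ 2 * (X ^ (1 / 3 : ℝ) + 1) := by linarith
    _ = 2 + 2 * (CON_D c₁ c₂) ^ (1 / 3 : ℝ) * (Nm μ * A ^ 2) ^ (1 / 3 : ℝ) := by
      rw [hXr]; ring

end Pool.PL
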