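import Pool.Agent.Work.MP_972ac7_P.Interface1

set_option autoImplicit false

/-! # THEOREM P, block CTU: the counting property uniformly in `g` -/

open MeasureTheory

noncomputable section

namespace Pool.PL

/-- conjugation by an element of `KK L 0` preserves the norm and the congruence subgroups -/
theorem CTU_conj (hK : Stmt_KNR) (hN : Stmt_NRM) {k : Type} [NormedField k] [IsUltrametricDist k]
    (L : LocF k) (κ : SL2 k) (hκ : κ ∈ KK L 0) (x : SL2 k) :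
    nm (κ * x * κ⁻¹) = nm x ∧ ∀ r, (κ * x * κ⁻¹ ∈ KK L r ↔ x ∈ KK L r) := by
  obtain ⟨_, h2, _, _⟩ := hN k L
  obtain ⟨h1, _⟩ := hK k L
  have hκi : κ⁻¹ ∈ KK L 0 := (KK L 0).inv_mem hκ
  refine ⟨?_, fun r => ⟨fun h => ?_, fun h => h1 r κ hκ x h⟩⟩
  · rw [(h2 κ⁻¹ hκi (κ * x)).2, (h2 κ hκ x).1]
  · have h3 := h1 r κ⁻¹ hκi _ h
    have h4 : κ⁻¹ * (κ * x * κ⁻¹) * κ⁻¹⁻¹ = x := by group
    rwa [h4] at h3

theorem CTU_mem (hK : Stmt_KNR) (hN : Stmt_NRM) {ι : Type} {k : ι → Type}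
    [∀ i, NormedField (k i)] [∀ i, IsUltrametricDist (k i)] (L : ∀ i, LocF (k i))
    (Γ : Subgroup (GG k)) (W v : ι) (g κ : GG k) (hκ : κ ∈ KG L 0) (γ' : Γ) (r j : ℕ) (γ : Γ) :
    γ ∈ cset L Γ W v (κ * g * (γ' : GG k)) r j ↔
      MulAut.conj γ' γ ∈ cset L Γ W v g r j := by
  rw [mem_KG] at hκ
  have h1 : (κ * g * (γ' : GG k)) * (γ : GG k) * (κ * g * (γ' : GG k))⁻¹ =
      κ * (g * ((γ' : GG k) * (γ : GG k) * (γ' : GG k)⁻¹) * g⁻¹) * κ⁻¹ := by group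
  have h2 : ((MulAut.conj γ' γ : Γ) : GG k) = (γ' : GG k) * (γ : GG k) * (γ' : GG k)⁻¹ := by
    simp [MulAut.conj_apply]
  have h3 : ∀ u, ((κ * g * (γ' : GG k)) * (γ : GG k) * (κ * g * (γ' : GG k))⁻¹) u =
      κ u * ((g * ((MulAut.conj γ' γ : Γ) : GG k) * g⁻¹) u) * (κ u)⁻¹ := by
    intro u
    rw [h1, h2]
    rfl
  unfold cset
  simp only [Set.mem_ofPred_eq]
  rw [h3 v, h3 W, (CTU_conj hK hN (L v) (κ v) (hκ v) _).2 r,
    (CTU_conj hK hN (L W) (κ W) (hκ W) _).1]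
  refine and_congr Iff.rfl (and_congr Iff.rfl (forall_congr' fun u => ?_))
  rw [h3 u, (CTU_conj hK hN (L u) (κ u) (hκ u) _).2 0]

theorem p_CTU (hK : Stmt_KNR) (hN : Stmt_NRM) : Stmt_CTU := by
  intro ι _ _ k _ _ L Γ hL W v hWv
  obtain ⟨N, g₀, hg₀⟩ := hL.classes
  have hcount := hL.count W v hWv
  choose C hC hCb using fun i => hcount (g₀ i)
  have hle : ∀ i, C i ≤ 1 + ∑ i, C i := by
    intro i
    have := Finset.single_le_sum (f := C) (fun i _ => (hC i).le) (Finset.mem_univ i)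
    linarith
  refine ⟨1 + ∑ i, C i, ?_, ?_⟩
  · have : 0 ≤ ∑ i, C i := Finset.sum_nonneg fun i _ => (hC i).le
    linarith
  intro g r j
  obtain ⟨i, κ, hκ, γ', hγ', rfl⟩ := hg₀ g
  obtain ⟨hf, hb⟩ := hCb i r j
  have hmem := CTU_mem hK hN L Γ W v (g₀ i) κ hκ ⟨γ', hγ'⟩ r j
  have e : cset L Γ W v (κ * g₀ i * γ') r j ≃ cset L Γ W v (g₀ i) r j :=
    Equiv.subtypeEquiv (MulAut.conj (⟨γ', hγ'⟩ : Γ)).toEquiv hmem
  have hcard : Nat.card (cset L Γ W v (κ * g₀ i * γ') r j) = Nat.card (cset L Γ W v (g₀ i) r j) :=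
    Nat.card_congr e
  constructor
  · have := hf.to_subtype
    exact Set.finite_coe_iff.1 (Finite.of_equiv _ e.symm)
  · rw [hcard]
    refine le_trans hb ?_
    have hq1 := (L W).q_pos
    have hq2 := (L v).q_pos
    have h1 : 0 ≤ (((L W).q : ℝ) ^ j / ((L v).q : ℝ) ^ r) ^ (5 / 3 : ℝ) := by positivity
    have h2 : 0 ≤ (1 + ((L W).q : ℝ) ^ j / (((L v).q : ℝ) ^ r) ^ 2) := by positivity
    have h3 := mul_le_mul_of_nonneg_right (mul_le_mul_of_nonneg_right (hle i) h1) h2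
    linarith

end Pool.PL
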