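import Pool.Agent.Work.MP_972ac7_P.Interface1

set_option autoImplicit false

/-! # THEOREM P, block CX1 (helper68): conditional expectation -/

open MeasureTheory

noncomputable section

namespace Pool.PL

open Pool.TFD Pool.TC

theorem CX1_orb {X : Type} [MeasurableSpace X] {m : Measure X} [IsProbabilityMeasure m]
    {φ : X → ℂ} (hφ : MemLp φ 2 m) {A : Set X} (hA0 : 0 < (m A).toReal)
    {c : ℂ} (hc : c = (((m A).toReal : ℂ))⁻¹ * ∫ y in A, φ y ∂m) :
    ∫ x in A, ‖φ x‖ ^ 2 ∂m = (m A).toReal * ‖c‖ ^ 2 + ∫ x in A, ‖φ x - c‖ ^ 2 ∂m := by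
  have hint : Integrable φ m := hφ.integrable (by norm_num)
  have hsq : Integrable (fun x => ‖φ x‖ ^ 2) m := by
    have := (memLp_two_iff_integrable_sq_norm hφ.1).1 hφ
    exact this
  have hI : ∫ y in A, φ y ∂m = ((m A).toReal : ℂ) * c := by
    rw [hc, ← mul_assoc, mul_inv_cancel₀, one_mul]
    exact_mod_cast hA0.ne'
  have h1 : ∀ x, ‖φ x - c‖ ^ 2 =
      ‖φ x‖ ^ 2 + ‖c‖ ^ 2 - 2 * Complex.reCLM ((starRingEnd ℂ) c * φ x) := by
    intro x
    rw [← Complex.normSq_eq_norm_sq, ← Complex.normSq_eq_norm_sq, ← Complex.normSq_eq_norm_sq,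
      Complex.normSq_sub, Complex.reCLM_apply, mul_comm (φ x)]
  have hi2 : Integrable (fun x => (starRingEnd ℂ) c * φ x) (m.restrict A) :=
    (hint.restrict).const_mul _
  have h2 : ∫ x in A, Complex.reCLM ((starRingEnd ℂ) c * φ x) ∂m = (m A).toReal * ‖c‖ ^ 2 := by
    rw [ContinuousLinearMap.integral_comp_comm Complex.reCLM hi2, integral_const_mul, hI,
      Complex.reCLM_apply]
    have : (starRingEnd ℂ) c * (((m A).toReal : ℂ) * c) =
        (((m A).toReal * ‖c‖ ^ 2 : ℝ) : ℂ) := by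
      rw [mul_left_comm, ← Complex.normSq_eq_conj_mul_self, Complex.normSq_eq_norm_sq]
      push_cast
      ring
    rw [this, Complex.ofReal_re]
  have h3 : ∫ x in A, ‖φ x - c‖ ^ 2 ∂m =
      ∫ x in A, ‖φ x‖ ^ 2 ∂m + (m A).toReal * ‖c‖ ^ 2 - 2 * ((m A).toReal * ‖c‖ ^ 2) := by
    rw [integral_congr_ae (Filter.Eventually.of_forall h1), integral_sub, integral_add,
      integral_const_mul, h2, setIntegral_const]
    · simp [Measure.real]
    · exact hsq.restrict
    · exact integrable_const _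
    · exact hsq.restrict.add (integrable_const _)
    · exact (Complex.reCLM.integrable_comp hi2).const_mul 2
  rw [h3]
  ring

theorem p_CX1 : Stmt_CX1 := by
  intro G _ _ Γ K m hm hfin hO φ hφ
  classical
  let Ω := MulAction.orbitRel.Quotient K (G ⧸ Γ)
  have hΩ : Finite Ω := hfin
  have hFt : Fintype Ω := Fintype.ofFinite Ω
  let π : G ⧸ Γ → Ω := fun x => Quotient.mk'' x
  let s : Ω → Set (G ⧸ Γ) := fun o => {x | π x = o}
  have hs : ∀ x, MulAction.orbit K x = s (π x) := by
    intro x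
    ext y
    show y ∈ MulAction.orbit K x ↔ (Quotient.mk'' y : Ω) = Quotient.mk'' x
    rw [Quotient.eq'', MulAction.orbitRel_apply]
  have hsurj : ∀ o : Ω, ∃ x, π x = o := fun o => Quotient.exists_rep o
  have hsm : ∀ o, MeasurableSet (s o) := by
    intro o
    obtain ⟨x, rfl⟩ := hsurj o
    rw [← hs]
    exact (hO x).1
  have hs0 : ∀ o, 0 < (m (s o)).toReal := by
    intro o
    obtain ⟨x, rfl⟩ := hsurj o
    rw [← hs]
    exact (hO x).2
  have hU : (⋃ o, s o) = Set.univ := by
    ext x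
    simp only [Set.mem_iUnion, Set.mem_univ, iff_true]
    exact ⟨π x, rfl⟩
  have hdisj : Pairwise (Function.onFun Disjoint s) := by
    intro o o' hne
    rw [Function.onFun, Set.disjoint_left]
    intro x hx hx'
    exact hne (hx.symm.trans hx')
  have hsumC : ∀ g : G ⧸ Γ → ℂ, Integrable g m → ∫ x, g x ∂m = ∑ o, ∫ x in s o, g x ∂m := by
    intro g hg
    rw [← setIntegral_univ, ← hU]
    exact integral_iUnion_fintype hsm hdisj fun o => hg.integrableOn
  have hsumR : ∀ g : G ⧸ Γ → ℝ, Integrable g m → ∫ x, g x ∂m = ∑ o, ∫ x in s o, g x ∂m := by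
    intro g hg
    rw [← setIntegral_univ, ← hU]
    exact integral_iUnion_fintype hsm hdisj fun o => hg.integrableOn
  let c : Ω → ℂ := fun o => (((m (s o)).toReal : ℂ))⁻¹ * ∫ y in s o, φ y ∂m
  have hcex : ∀ x, cex m K φ x = c (π x) := by
    intro x
    show (((m (MulAction.orbit K x)).toReal : ℂ))⁻¹ * ∫ y in MulAction.orbit K x, φ y ∂m = _
    rw [hs]
  have hint : Integrable φ m := hφ.integrable (by norm_num)
  have hsq : Integrable (fun x => ‖φ x‖ ^ 2) m :=
    (memLp_two_iff_integrable_sq_norm hφ.1).1 hφ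
  have hconst : ∀ (F : ℂ → ℝ) (o : Ω), ∫ x in s o, F (cex m K φ x) ∂m = (m (s o)).toReal * F (c o) := by
    intro F o
    rw [setIntegral_congr_fun (g := fun _ => F (c o)) (hsm o) (fun x hx => by
      show F (cex m K φ x) = F (c o)
      rw [hcex, show π x = o from hx]), setIntegral_const]
    simp [Measure.real]
  have hconstC : ∀ o : Ω, ∫ x in s o, cex m K φ x ∂m = ∫ x in s o, φ x ∂m := by
    intro o
    rw [setIntegral_congr_fun (g := fun _ => c o) (hsm o) (fun x hx => by
      show cex m K φ x = c o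
      rw [hcex, show π x = o from hx]), setIntegral_const]
    show ((m (s o)).toReal : ℝ) • ((((m (s o)).toReal : ℂ))⁻¹ * ∫ y in s o, φ y ∂m) = _
    rw [Complex.real_smul, ← mul_assoc, mul_inv_cancel₀, one_mul]
    exact_mod_cast (hs0 o).ne'
  have hcm : MemLp (cex m K φ) 2 m := by
    have hmeas : Measurable (cex m K φ) := by
      intro t _
      have : (cex m K φ) ⁻¹' t = ⋃ o ∈ {o : Ω | c o ∈ t}, s o := by
        ext x
        simp only [Set.mem_preimage, Set.mem_iUnion, hcex]
        constructor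
        · intro h
          exact ⟨π x, h, rfl⟩
        · rintro ⟨o, ho, hx⟩
          rw [show π x = o from hx]
          exact ho
      rw [this]
      exact MeasurableSet.biUnion (Set.to_countable _) fun o _ => hsm o
    refine MemLp.of_bound hmeas.aestronglyMeasurable (∑ o, ‖c o‖)
      (Filter.Eventually.of_forall fun x => ?_)
    rw [hcex]
    exact Finset.single_le_sum (f := fun o => ‖c o‖) (fun o _ => norm_nonneg _)
      (Finset.mem_univ (π x))
  have hfour : sq m φ = sq m (cex m K φ) + sq m (fun x => φ x - cex m K φ x) := by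
    have hi1 : Integrable (fun x => ‖cex m K φ x‖ ^ 2) m :=
      (memLp_two_iff_integrable_sq_norm hcm.1).1 hcm
    have hi2 : Integrable (fun x => ‖φ x - cex m K φ x‖ ^ 2) m :=
      (memLp_two_iff_integrable_sq_norm (hφ.sub hcm).1).1 (hφ.sub hcm)
    unfold sq
    rw [hsumR _ hsq, hsumR _ hi1, hsumR _ hi2, ← Finset.sum_add_distrib]
    refine Finset.sum_congr rfl fun o _ => ?_
    rw [CX1_orb hφ (hs0 o) (c := c o) rfl, hconst (fun z => ‖z‖ ^ 2) o]
    congr 1
    refine setIntegral_congr_fun (hsm o) fun x hx => ?_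
    show ‖φ x - c o‖ ^ 2 = ‖φ x - cex m K φ x‖ ^ 2
    rw [hcex, show π x = o from hx]
  refine ⟨?_, ?_, ?_, hfour⟩
  · intro κ hκ
    funext x
    show cex m K φ (κ⁻¹ • x) = cex m K φ x
    have h1 : MulAction.orbit K (κ⁻¹ • x) = MulAction.orbit K x :=
      MulAction.orbit_smul (⟨κ, hκ⟩⁻¹ : K) x
    show (((m (MulAction.orbit K (κ⁻¹ • x))).toReal : ℂ))⁻¹ *
      ∫ y in MulAction.orbit K (κ⁻¹ • x), φ y ∂m = _
    rw [h1]
    rfl
  · rw [hsumC _ (hcm.integrable (by norm_num)), hsumC _ hint]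
    exact Finset.sum_congr rfl fun o _ => hconstC o
  · rw [hfour]
    have : 0 ≤ sq m (fun x => φ x - cex m K φ x) := integral_nonneg fun x => by positivity
    linarith

end Pool.PL
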