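import Pool.Agent.Work.MP_972ac7_P.Interface1

set_option autoImplicit false

/-! # Block CX2: the conditional expectations converge (helper10) -/

open MeasureTheory

noncomputable section

namespace Pool.PL

open Pool.TFD Pool.TC

/-- uniform continuity of a continuous function with compact support -/
theorem CX2_uc {G : Type} [Group G] [TopologicalSpace G] [IsTopologicalGroup G] {g : G → ℂ}
    (h1 : HasCompactSupport g) (h2 : Continuous g) {η : ℝ} (hη : 0 < η) :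
    ∃ U ∈ nhds (1 : G), ∀ κ ∈ U, ∀ y : G, ‖g (κ * y) - g y‖ ≤ η := by
  let _ : UniformSpace G := IsTopologicalGroup.rightUniformSpace G
  have h3 : UniformContinuous g := h1.uniformContinuous_of_continuous h2
  have h4 := h3 (Metric.dist_mem_uniformity hη)
  rw [Filter.mem_map] at h4
  obtain ⟨U, hU, hUs⟩ := Filter.mem_comap.1 h4
  refine ⟨U, hU, fun κ hκ y => ?_⟩
  have h5 : (y, κ * y) ∈ (fun p : G × G => p.2 * p.1⁻¹) ⁻¹' U := by
    simpa using hκ
  have h6 := hUs h5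
  have h7 : dist (g y) (g (κ * y)) < η := h6
  rw [dist_comm, dist_eq_norm] at h7
  exact h7.le

/-- density of the functions which are uniformly continuous under small translations -/
theorem CX2_dense {G : Type} [Group G] [TopologicalSpace G] [IsTopologicalGroup G]
    [LocallyCompactSpace G] [SecondCountableTopology G] [T2Space G] [MeasurableSpace G]
    [BorelSpace G] (Γ K : Subgroup G) (N : ℕ) (h : Fin N → G) (hK : IsOpen (K : Set G))
    (hc : ∀ x : G, ∃ i, ∃ κ ∈ K, ∃ γ ∈ Γ, x = κ * h i * γ)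
    (hu : ∀ i j, ∀ κ ∈ K, ∀ γ ∈ Γ, κ * h i * γ = h j → i = j ∧ κ = 1 ∧ γ = 1)
    (m : Measure (G ⧸ Γ)) [IsProbabilityMeasure m] (φ : G ⧸ Γ → ℂ) (hφ : MemLp φ 2 m)
    (ε : ℝ) (hε : 0 < ε) :
    ∃ ψ : G ⧸ Γ → ℂ, MemLp ψ 2 m ∧ sq m (fun x => φ x - ψ x) ≤ ε ∧
      ∀ η : ℝ, 0 < η → ∃ U ∈ nhds (1 : G), ∀ κ ∈ U, κ ∈ K → ∀ x : G ⧸ Γ,
        ‖ψ (κ • x) - ψ x‖ ≤ η := by
  -- the section
  have hF : ∀ x : G ⧸ Γ, ∃ d : G, (∃ i, ∃ κ ∈ K, d = κ * h i) ∧ (d : G ⧸ Γ) = x := by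
    intro x
    obtain ⟨g, rfl⟩ := QuotientGroup.mk_surjective x
    obtain ⟨i, κ, hκ, γ, hγ, e⟩ := hc g
    refine ⟨κ * h i, ⟨i, κ, hκ, rfl⟩, ?_⟩
    rw [QuotientGroup.eq, e]
    have : (κ * h i)⁻¹ * (κ * h i * γ) = γ := by group
    rw [this]
    exact hγ
  choose F hF1 hF2 using hF
  have huniq : ∀ d d' : G, (∃ i, ∃ κ ∈ K, d = κ * h i) → (∃ i, ∃ κ ∈ K, d' = κ * h i) →
      (d : G ⧸ Γ) = d' → d = d' := by
    rintro d d' ⟨i, κ, hκ, rfl⟩ ⟨j, κ', hκ', rfl⟩ e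
    rw [QuotientGroup.eq] at e
    have e2 := hu i j (κ'⁻¹ * κ) (K.mul_mem (K.inv_mem hκ') hκ) _ e (by group)
    obtain ⟨e3, e4, -⟩ := e2
    subst e3
    have e5 : κ = κ' := by
      rw [inv_mul_eq_one] at e4
      exact e4.symm
    rw [e5]
  have hFs : ∀ κ ∈ K, ∀ x : G ⧸ Γ, F (κ • x) = κ * F x := by
    intro κ hκ x
    apply huniq
    · exact hF1 _
    · obtain ⟨i, κ', hκ', e⟩ := hF1 x
      exact ⟨i, κ * κ', K.mul_mem hκ hκ', by rw [e, mul_assoc]⟩
    · rw [hF2]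
      have : ((κ * F x : G) : G ⧸ Γ) = κ • ((F x : G) : G ⧸ Γ) := rfl
      rw [this, hF2]
  have hFc : Continuous (fun g : G => F (g : G ⧸ Γ)) := by
    rw [continuous_iff_continuousAt]
    intro g
    have h1 : ContinuousAt (fun g' : G => g' * (g⁻¹ * F (g : G ⧸ Γ))) g := by fun_prop
    refine h1.congr ?_
    have h2 : {g' : G | g' * g⁻¹ ∈ K} ∈ nhds g := by
      apply IsOpen.mem_nhds
      · exact hK.preimage (by fun_prop : Continuous fun g' : G => g' * g⁻¹)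
      · change g * g⁻¹ ∈ K
        rw [mul_inv_cancel]
        exact K.one_mem
    filter_upwards [h2] with g' hg'
    have e1 : ((g' : G) : G ⧸ Γ) = (g' * g⁻¹) • ((g : G) : G ⧸ Γ) := by
      have : (g' * g⁻¹) • ((g : G) : G ⧸ Γ) = ((g' * g⁻¹ * g : G) : G ⧸ Γ) := rfl
      rw [this, inv_mul_cancel_right]
    rw [e1, hFs _ hg', mul_assoc]
  have hFm : Measurable F := QuotientGroup.measurable_from_quotient.2 hFc.measurable
  have hmk : Measurable ((↑) : G → G ⧸ Γ) := QuotientGroup.measurable_coe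
  -- the measure
  have hcomp : ((↑) : G → G ⧸ Γ) ∘ F = id := funext hF2
  have hMP : MeasurePreserving ((↑) : G → G ⧸ Γ) (m.map F) m :=
    ⟨hmk, by rw [Measure.map_map hmk hFm, hcomp, Measure.map_id]⟩
  have hMF : MeasurePreserving F m (m.map F) := ⟨hFm, rfl⟩
  have _ : IsProbabilityMeasure (m.map F) := Measure.isProbabilityMeasure_map hFm.aemeasurable
  have hφ' : MemLp (φ ∘ ((↑) : G → G ⧸ Γ)) (ENNReal.ofReal 2) (m.map F) := by
    have := hφ.comp_measurePreserving hMP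
    simpa using this
  obtain ⟨g, hg1, hg2, hg3, hg4⟩ :=
    hφ'.exists_hasCompactSupport_integral_rpow_sub_le (by norm_num) hε
  have hg4' : MemLp g 2 (m.map F) := by simpa using hg4
  refine ⟨g ∘ F, hg4'.comp_measurePreserving hMF, ?_, ?_⟩
  · have h5 : MemLp (fun x => φ ((x : G) : G ⧸ Γ) - g x) 2 (m.map F) :=
      (hφ.comp_measurePreserving hMP).sub hg4'
    have h6 : AEStronglyMeasurable (fun x : G => ‖φ ((x : G) : G ⧸ Γ) - g x‖ ^ 2) (m.map F) :=
      (h5.1.norm.pow 2)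
    have h7 := integral_map hFm.aemeasurable h6
    unfold sq
    have h8 : ∫ x, ‖φ x - (g ∘ F) x‖ ^ 2 ∂m =
        ∫ x, ‖φ ((F x : G) : G ⧸ Γ) - g (F x)‖ ^ 2 ∂m := by
      apply integral_congr_ae
      filter_upwards with x
      rw [hF2]
      rfl
    rw [h8, ← h7]
    have h9 : ∫ x : G, ‖φ ((x : G) : G ⧸ Γ) - g x‖ ^ 2 ∂(m.map F) =
        ∫ x : G, ‖(φ ∘ ((↑) : G → G ⧸ Γ)) x - g x‖ ^ (2 : ℝ) ∂(m.map F) := by
      apply integral_congr_ae
      filter_upwards with x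
      rw [Real.rpow_two]
      rfl
    rw [h9]
    exact hg2
  · intro η hη
    obtain ⟨U, hU, hUs⟩ := CX2_uc hg1 hg3 hη
    refine ⟨U, hU, fun κ hκU hκ x => ?_⟩
    change ‖g (F (κ • x)) - g (F x)‖ ≤ η
    rw [hFs κ hκ]
    exact hUs κ hκU _

/-- invariant functions are bounded and measurable -/
theorem CX2_inv {G : Type} [Group G] [MeasurableSpace G] (Γ K : Subgroup G)
    (hfin : Finite (MulAction.orbitRel.Quotient K (G ⧸ Γ)))
    (horb : ∀ x : G ⧸ Γ, MeasurableSet (MulAction.orbit K x)) {f : G ⧸ Γ → ℂ}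
    (hf : f ∈ Inv Γ K) : Measurable f ∧ ∃ C : ℝ, ∀ x, ‖f x‖ ≤ C := by
  have h1 : ∀ x y : G ⧸ Γ, y ∈ MulAction.orbit K x → f y = f x := by
    rintro x y ⟨κ, rfl⟩
    have h2 := congrFun (hf (κ : G)⁻¹ (K.inv_mem κ.2)) x
    simp only [tr, inv_inv] at h2
    exact h2
  obtain ⟨F, hF⟩ : ∃ F : MulAction.orbitRel.Quotient K (G ⧸ Γ) → ℂ,
      ∀ x, f x = F (Quotient.mk'' x) :=
    ⟨Quotient.lift f (fun a b hab => h1 b a hab), fun _ => rfl⟩
  refine ⟨?_, ?_⟩
  · intro s _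
    have h2 : f ⁻¹' s = ⋃ z ∈ {z | F z ∈ s},
        {x : G ⧸ Γ | (Quotient.mk'' x : MulAction.orbitRel.Quotient K (G ⧸ Γ)) = z} := by
      ext x
      simp only [Set.mem_preimage, Set.mem_setOf_eq, Set.mem_iUnion]
      constructor
      · intro hx
        exact ⟨Quotient.mk'' x, by rw [← hF]; exact hx, rfl⟩
      · rintro ⟨z, hz, rfl⟩
        rw [hF]
        exact hz
    rw [h2]
    apply MeasurableSet.biUnion (Set.to_countable _)
    intro z _
    obtain ⟨y, rfl⟩ := Quotient.exists_rep z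
    have h3 : {x : G ⧸ Γ | (Quotient.mk'' x : MulAction.orbitRel.Quotient K (G ⧸ Γ)) = ⟦y⟧} =
        MulAction.orbit K y := by
      ext x
      exact Quotient.eq''
    rw [h3]
    exact horb y
  · obtain ⟨C, hC⟩ := (Set.finite_range fun z => ‖F z‖).bddAbove
    exact ⟨C, fun x => by rw [hF]; exact hC ⟨_, rfl⟩⟩

/-- the distance from `φ` to its conditional expectation -/
theorem CX2_cex (hCX1 : Stmt_CX1) {G : Type} [Group G] [MeasurableSpace G] (Γ K : Subgroup G)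
    (m : Measure (G ⧸ Γ)) [hm : IsProbabilityMeasure m]
    (hfin : Finite (MulAction.orbitRel.Quotient K (G ⧸ Γ)))
    (horb : ∀ x : G ⧸ Γ, MeasurableSet (MulAction.orbit K x) ∧
      0 < (m (MulAction.orbit K x)).toReal) (φ ψ : G ⧸ Γ → ℂ) (hφ : MemLp φ 2 m)
    (hψ : MemLp ψ 2 m) (η : ℝ) (hη : ∀ κ ∈ K, ∀ x : G ⧸ Γ, ‖ψ (κ • x) - ψ x‖ ≤ η) :
    sq m (fun x => φ x - cex m K φ x) ≤ 2 * sq m (fun x => φ x - ψ x) + 2 * η ^ 2 := by
  have hη0 : 0 ≤ η := by
    have hne : Nonempty (G ⧸ Γ) := ⟨((1 : G) : G ⧸ Γ)⟩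
    exact (norm_nonneg _).trans (hη 1 K.one_mem hne.some)
  have ha : MemLp (fun x => φ x - ψ x) 2 m := hφ.sub hψ
  obtain ⟨c1, -, -, c4⟩ := hCX1 G Γ K m hm hfin horb _ ha
  obtain ⟨c5, C, hC⟩ := CX2_inv Γ K hfin (fun x => (horb x).1) c1
  have hcm : MemLp (cex m K fun x => φ x - ψ x) 2 m :=
    MemLp.of_bound c5.aestronglyMeasurable C (Filter.Eventually.of_forall hC)
  have hd : MemLp (fun x => (φ x - ψ x) - cex m K (fun x => φ x - ψ x) x) 2 m := ha.sub hcm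
  have hi := (memLp_two_iff_integrable_sq_norm hd.1).1 hd
  have h1 : sq m (fun x => (φ x - ψ x) - cex m K (fun x => φ x - ψ x) x) ≤
      sq m (fun x => φ x - ψ x) := by
    have h0 : 0 ≤ sq m (cex m K fun x => φ x - ψ x) :=
      integral_nonneg fun x => by positivity
    linarith
  have hφi : Integrable φ m := hφ.integrable (by norm_num)
  have hψi : Integrable ψ m := hψ.integrable (by norm_num)
  have h2 : ∀ x, cex m K (fun x => φ x - ψ x) x = cex m K φ x - cex m K ψ x := by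
    intro x
    unfold cex
    rw [integral_sub hφi.integrableOn hψi.integrableOn, mul_sub]
  have h3 : ∀ x, ‖ψ x - cex m K ψ x‖ ≤ η := by
    intro x
    obtain ⟨o1, o2⟩ := horb x
    have hc : (((m (MulAction.orbit K x)).toReal : ℝ) : ℂ) ≠ 0 := by
      exact_mod_cast o2.ne'
    have e1 : ψ x - cex m K ψ x = (((m (MulAction.orbit K x)).toReal)⁻¹ : ℂ) *
        ∫ y in MulAction.orbit K x, (ψ x - ψ y) ∂m := by
      rw [integral_sub (integrable_const _).integrableOn hψi.integrableOn, mul_sub]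
      have e2 : ∫ _ in MulAction.orbit K x, ψ x ∂m =
          ((m (MulAction.orbit K x)).toReal : ℂ) * ψ x := by
        rw [integral_const]
        simp [Measure.real]
      rw [e2, inv_mul_cancel_left₀ hc]
      rfl
    have e3 : ‖∫ y in MulAction.orbit K x, (ψ x - ψ y) ∂m‖ ≤
        η * m.real (MulAction.orbit K x) := by
      apply norm_setIntegral_le_of_norm_le_const (measure_lt_top _ _)
      rintro y ⟨κ, rfl⟩
      rw [norm_sub_rev]
      exact hη κ κ.2 x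
    rw [e1, norm_mul, norm_inv, Complex.norm_real, Real.norm_eq_abs, abs_of_pos o2]
    rw [inv_mul_le_iff₀ o2, mul_comm]
    exact e3
  have h4 : ∀ x, ‖φ x - cex m K φ x‖ ^ 2 ≤
      2 * ‖(φ x - ψ x) - cex m K (fun x => φ x - ψ x) x‖ ^ 2 + 2 * η ^ 2 := by
    intro x
    have e1 : φ x - cex m K φ x = ((φ x - ψ x) - cex m K (fun x => φ x - ψ x) x) +
        (ψ x - cex m K ψ x) := by
      rw [h2]
      ring
    have e2 := norm_add_le ((φ x - ψ x) - cex m K (fun x => φ x - ψ x) x) (ψ x - cex m K ψ x)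
    rw [← e1] at e2
    have e3 := h3 x
    have e4 := norm_nonneg ((φ x - ψ x) - cex m K (fun x => φ x - ψ x) x)
    have e5 := norm_nonneg (φ x - cex m K φ x)
    have e6 : ‖φ x - cex m K φ x‖ ≤ ‖(φ x - ψ x) - cex m K (fun x => φ x - ψ x) x‖ + η := by
      linarith
    nlinarith [sq_nonneg (‖(φ x - ψ x) - cex m K (fun x => φ x - ψ x) x‖ - η),
      mul_self_le_mul_self e5 e6]
  calc sq m (fun x => φ x - cex m K φ x)
      ≤ ∫ x, (2 * ‖(φ x - ψ x) - cex m K (fun x => φ x - ψ x) x‖ ^ 2 + 2 * η ^ 2) ∂m := by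
        apply integral_mono_of_nonneg
        · exact Filter.Eventually.of_forall fun x => by positivity
        · exact (hi.const_mul 2).add (integrable_const _)
        · exact Filter.Eventually.of_forall h4
    _ = 2 * sq m (fun x => (φ x - ψ x) - cex m K (fun x => φ x - ψ x) x) + 2 * η ^ 2 := by
        rw [integral_add (hi.const_mul 2) (integrable_const _), integral_const_mul]
        unfold sq
        simp
    _ ≤ 2 * sq m (fun x => φ x - ψ x) + 2 * η ^ 2 := by linarith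

theorem CX2_main (hPTO : Stmt_PTO) (hORB : Stmt_ORB) (hCX1 : Stmt_CX1) (hDSC : Stmt_DSC)
    (ι : Type) [Fintype ι] [DecidableEq ι] (k : ι → Type) [∀ i, NormedField (k i)]
    [∀ i, IsUltrametricDist (k i)] [∀ i, ProperSpace (k i)] (L : ∀ i, LocF (k i))
    (Γ : Subgroup (GG k)) (m : Measure (GG k ⧸ Γ)) (hn : Nontrivial ι) (hLat : Lat L Γ)
    (hm : IsProbabilityMeasure m) (hinv : ∀ g : GG k, MeasurePreserving (fun x => g • x) m m)
    (φ : GG k ⧸ Γ → ℂ) (hφ : MemLp φ 2 m) (ε : ℝ) (hε : 0 < ε) :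
    ∃ t : ℕ, sq m (fun x => φ x - cex m (KG L fun _ => t) φ x) ≤ ε := by
  obtain ⟨i1, i2, i3, i4, hop, hbas⟩ := hPTO ι k L
  obtain ⟨-, s, N, h, hc, hu⟩ := hDSC ι k L Γ hn hLat
  obtain ⟨ψ, hψ, hψs, hψu⟩ := CX2_dense Γ (KG L s) N h (hop s).1 hc hu m φ hφ (ε / 4)
    (by positivity)
  obtain ⟨U, hU, hUs⟩ := hψu (Real.sqrt ε / 2) (by positivity)
  have hK : (KG L s : Set (GG k)) ∈ nhds (1 : GG k) := (hop s).1.mem_nhds (KG L s).one_mem
  obtain ⟨t, ht⟩ := hbas _ (Filter.inter_mem hU hK)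
  refine ⟨t, ?_⟩
  obtain ⟨o1, o2⟩ := hORB ι k L Γ m hLat hm hinv (fun _ => t)
  have h1 := CX2_cex hCX1 Γ (KG L fun _ => t) m o1 o2 φ ψ hφ hψ (Real.sqrt ε / 2)
    (fun κ hκ x => hUs κ (ht hκ).1 (ht hκ).2 x)
  have h2 : (Real.sqrt ε / 2) ^ 2 = ε / 4 := by
    rw [div_pow, Real.sq_sqrt hε.le]
    norm_num
  rw [h2] at h1
  linarith

theorem p_CX2 (hPTO : Stmt_PTO) (hORB : Stmt_ORB) (hCX1 : Stmt_CX1) (hDSC : Stmt_DSC) :
    Stmt_CX2 := fun ι _ _ k _ _ _ L Γ m hn hL hm hinv φ hφ ε hε =>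
  CX2_main hPTO hORB hCX1 hDSC ι k L Γ m hn hL hm hinv φ hφ ε hε

end Pool.PL
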