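import Pool.Agent.Work.MP_972ac7_P.Interface1

set_option autoImplicit false

open MeasureTheory

noncomputable section

namespace Pool.PL

/-- invariance of the integral -/
theorem CX3_int {G : Type} [Group G] {Γ : Subgroup G} [MeasurableSpace (G ⧸ Γ)]
    (m : Measure (G ⧸ Γ)) (hinv : ∀ g : G, MeasurePreserving (fun x : G ⧸ Γ => g • x) m m)
    (g : G) (F : G ⧸ Γ → ℂ) : ∫ x, F (g • x) ∂m = ∫ x, F x ∂m := by
  obtain ⟨e, he⟩ : ∃ e : (G ⧸ Γ) ≃ᵐ (G ⧸ Γ), ∀ x, e x = g • x := by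
    refine ⟨{ toFun := fun x => g • x
              invFun := fun x => g⁻¹ • x
              left_inv := fun x => inv_smul_smul g x
              right_inv := fun x => smul_inv_smul g x
              measurable_toFun := (hinv g).measurable
              measurable_invFun := (hinv g⁻¹).measurable }, fun x => rfl⟩
  have hmp : MeasurePreserving e m m := by
    have h1 : (e : G ⧸ Γ → G ⧸ Γ) = fun x => g • x := funext he
    rw [h1]
    exact hinv g
  have h2 := hmp.integral_comp' F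
  simp only [he] at h2
  exact h2

/-- the orbit of `κ • x` for `κ` in the normalizer -/
theorem CX3_orb {G : Type} [Group G] {Γ : Subgroup G} {K : Subgroup G} {g : G}
    (hg : ∀ x ∈ K, g * x * g⁻¹ ∈ K) (hg' : ∀ x ∈ K, g⁻¹ * x * g ∈ K) (x y : G ⧸ Γ) :
    g • y ∈ MulAction.orbit K (g • x) ↔ y ∈ MulAction.orbit K x := by
  constructor
  · rintro ⟨κ, hκ⟩
    refine ⟨⟨g⁻¹ * κ * g, hg' κ κ.2⟩, ?_⟩
    have h1 : (κ : G) • g • x = g • y := hκ
    change (g⁻¹ * (κ : G) * g) • x = y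
    rw [mul_smul, mul_smul, h1, inv_smul_smul]
  · rintro ⟨κ, hκ⟩
    refine ⟨⟨g * κ * g⁻¹, hg κ κ.2⟩, ?_⟩
    have h1 : (κ : G) • x = y := hκ
    change (g * (κ : G) * g⁻¹) • g • x = g • y
    rw [mul_smul, mul_smul, inv_smul_smul, h1]

theorem CX3_main (hCX1 : Stmt_CX1) (hIPL : Stmt_IPL) {G : Type} [Group G] [MeasurableSpace G]
    (Γ K₁ K₂ : Subgroup G) (m : Measure (G ⧸ Γ)) (hm : IsProbabilityMeasure m)
    (hinv : ∀ g : G, MeasurePreserving (fun x : G ⧸ Γ => g • x) m m)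
    (h12 : K₁ ≤ K₂) (hnorm : ∀ κ ∈ K₂, ∀ x ∈ K₁, κ * x * κ⁻¹ ∈ K₁)
    (hfin : K₁.relIndex K₂ ≠ 0)
    (hq1 : Finite (MulAction.orbitRel.Quotient K₁ (G ⧸ Γ)))
    (ho1 : ∀ x : G ⧸ Γ, MeasurableSet (MulAction.orbit K₁ x) ∧
      0 < (m (MulAction.orbit K₁ x)).toReal)
    (ho2 : ∀ x : G ⧸ Γ, MeasurableSet (MulAction.orbit K₂ x) ∧
      0 < (m (MulAction.orbit K₂ x)).toReal)
    (A : Set G) (hA : ∀ κ ∈ K₂, ∃ κ' ∈ A, κ' ∈ K₂ ∧ κ⁻¹ * κ' ∈ K₁)
    (φ : G ⧸ Γ → ℂ) (hφ : MemLp φ 2 m) (δ : ℝ)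
    (hδ : ∀ κ ∈ A, κ ∈ K₂ → sq m (fun x => tr κ φ x - φ x) ≤ δ) :
    sq m (fun x => cex m K₂ φ x - cex m K₁ φ x) ≤ δ := by
  classical
  have hX := hCX1 G Γ K₁ m hm hq1 ho1
  obtain ⟨-, hmem, -, -⟩ := hIPL G Γ K₁ m hm hq1 ho1
  -- conjugation
  have hn2 : ∀ κ ∈ K₂, ∀ x ∈ K₁, κ⁻¹ * x * κ ∈ K₁ := by
    intro κ hκ x hx
    have := hnorm κ⁻¹ (Subgroup.inv_mem _ hκ) x hx
    rwa [inv_inv] at this
  -- the mass of a translated orbit
  have hmass : ∀ κ ∈ K₂, ∀ x : G ⧸ Γ, m (MulAction.orbit K₁ (κ • x)) = m (MulAction.orbit K₁ x) := by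
    intro κ hκ x
    have h1 := (hinv κ).measure_preimage (ho1 (κ • x)).1.nullMeasurableSet
    rw [← h1]
    congr 1
    ext y
    exact CX3_orb (hnorm κ hκ) (hn2 κ hκ) x y
  -- equivariance
  have hequi : ∀ κ ∈ K₂, ∀ ψ : G ⧸ Γ → ℂ, ∀ x, cex m K₁ (tr κ ψ) x = tr κ (cex m K₁ ψ) x := by
    intro κ hκ ψ x
    have hκ' : κ⁻¹ ∈ K₂ := Subgroup.inv_mem _ hκ
    change (((m (MulAction.orbit K₁ x)).toReal)⁻¹ : ℂ) *
        ∫ y in MulAction.orbit K₁ x, ψ (κ⁻¹ • y) ∂m =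
      (((m (MulAction.orbit K₁ (κ⁻¹ • x))).toReal)⁻¹ : ℂ) *
        ∫ y in MulAction.orbit K₁ (κ⁻¹ • x), ψ y ∂m
    rw [hmass κ⁻¹ hκ' x]
    congr 1
    rw [← integral_indicator (ho1 x).1, ← integral_indicator (ho1 (κ⁻¹ • x)).1]
    rw [← CX3_int m hinv κ⁻¹ ((MulAction.orbit K₁ (κ⁻¹ • x)).indicator ψ)]
    congr 1
    funext y
    by_cases hy : y ∈ MulAction.orbit K₁ x
    · rw [Set.indicator_of_mem hy, Set.indicator_of_mem]
      exact (CX3_orb (hnorm κ⁻¹ hκ') (hn2 κ⁻¹ hκ') x y).2 hy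
    · rw [Set.indicator_of_notMem hy, Set.indicator_of_notMem]
      exact fun hc => hy ((CX3_orb (hnorm κ⁻¹ hκ') (hn2 κ⁻¹ hκ') x y).1 hc)
  -- additivity
  have hsub : ∀ ψ ψ' : G ⧸ Γ → ℂ, MemLp ψ 2 m → MemLp ψ' 2 m → ∀ x,
      cex m K₁ (fun y => ψ y - ψ' y) x = cex m K₁ ψ x - cex m K₁ ψ' x := by
    intro ψ ψ' hψ hψ' x
    unfold cex
    rw [integral_sub (hψ.integrable one_le_two).integrableOn
      (hψ'.integrable one_le_two).integrableOn, mul_sub]
  have htr : ∀ κ : G, MemLp (tr κ φ) 2 m := fun κ => hφ.comp_measurePreserving (hinv κ⁻¹)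
  obtain ⟨F, hF⟩ : ∃ F, F = cex m K₁ φ := ⟨_, rfl⟩
  have hFI : F ∈ Inv Γ K₁ := by
    rw [hF]
    exact (hX φ hφ).1
  -- integral over `K₂` orbits
  have hint : ∀ x : G ⧸ Γ, ∫ y in MulAction.orbit K₂ x, F y ∂m =
      ∫ y in MulAction.orbit K₂ x, φ y ∂m := by
    intro x
    have hB := (ho2 x).1
    have hBinv : ∀ y : G ⧸ Γ, ∀ z ∈ MulAction.orbit K₁ y,
        (z ∈ MulAction.orbit K₂ x ↔ y ∈ MulAction.orbit K₂ x) := by
      rintro y _ ⟨κ, rfl⟩
      have h1 : (κ : G) ∈ K₂ := h12 κ.2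
      constructor
      · rintro ⟨l, hl⟩
        refine ⟨⟨(κ : G)⁻¹ * l, Subgroup.mul_mem _ (Subgroup.inv_mem _ h1) l.2⟩, ?_⟩
        have h2 : (l : G) • x = (κ : G) • y := hl
        change ((κ : G)⁻¹ * (l : G)) • x = y
        rw [mul_smul, h2, inv_smul_smul]
      · rintro ⟨l, hl⟩
        refine ⟨⟨(κ : G) * l, Subgroup.mul_mem _ h1 l.2⟩, ?_⟩
        have h2 : (l : G) • x = y := hl
        change ((κ : G) * (l : G)) • x = (κ : G) • y
        rw [mul_smul, h2]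
    have h1 := (hX _ (hφ.indicator hB)).2.1
    rw [← integral_indicator hB, ← integral_indicator hB, ← h1]
    congr 1
    funext y
    by_cases hy : y ∈ MulAction.orbit K₂ x
    · rw [Set.indicator_of_mem hy, hF]
      unfold cex
      congr 1
      refine setIntegral_congr_fun (ho1 y).1 (fun z hz => ?_)
      exact (Set.indicator_of_mem ((hBinv y z hz).2 hy) φ).symm
    · rw [Set.indicator_of_notMem hy]
      unfold cex
      have h2 : ∫ z in MulAction.orbit K₁ y, (MulAction.orbit K₂ x).indicator φ z ∂m =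
          ∫ z in MulAction.orbit K₁ y, (0 : ℂ) ∂m := by
        refine setIntegral_congr_fun (ho1 y).1 (fun z hz => ?_)
        exact Set.indicator_of_notMem (fun hc => hy ((hBinv y z hz).1 hc)) φ
      rw [h2]
      simp
  -- the cosets
  have hfi : (K₁.subgroupOf K₂).FiniteIndex := ⟨hfin⟩
  have hfq : Finite (K₂ ⧸ K₁.subgroupOf K₂) := inferInstance
  have hft : Fintype (K₂ ⧸ K₁.subgroupOf K₂) := Fintype.ofFinite _
  obtain ⟨Q, hQ1, hQ2, hQ3⟩ : ∃ Q : (K₂ ⧸ K₁.subgroupOf K₂) → (G ⧸ Γ → ℂ),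
      (∀ κ : K₂, Q (κ : K₂ ⧸ K₁.subgroupOf K₂) = tr (κ : G) F) ∧
      (∀ q, ∃ κ ∈ A, κ ∈ K₂ ∧ Q q = tr κ F) ∧ Nonempty (K₂ ⧸ K₁.subgroupOf K₂) := by
    have hwell : ∀ κ κ' : G, κ⁻¹ * κ' ∈ K₁ → tr κ' F = tr κ F := by
      intro κ κ' h
      have h1 : κ' = κ * (κ⁻¹ * κ') := by group
      rw [h1, tr_mul, hFI _ h]
    have hQ1 : ∀ κ : K₂, (fun q : K₂ ⧸ K₁.subgroupOf K₂ => tr ((Quotient.out q : K₂) : G) F)
        (κ : K₂ ⧸ K₁.subgroupOf K₂) = tr (κ : G) F := by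
      intro κ
      apply hwell
      have h1 : (QuotientGroup.mk (Quotient.out (κ : K₂ ⧸ K₁.subgroupOf K₂)) :
          K₂ ⧸ K₁.subgroupOf K₂) = QuotientGroup.mk κ := QuotientGroup.out_eq' _
      have h2 := (QuotientGroup.eq.1 h1.symm)
      exact h2
    refine ⟨fun q => tr ((Quotient.out q : K₂) : G) F, hQ1, fun q => ?_, ⟨QuotientGroup.mk 1⟩⟩
    obtain ⟨κ', h1, h2, h3⟩ := hA _ (Quotient.out q : K₂).2
    exact ⟨κ', h1, h2, (hwell _ _ h3).symm⟩
  have hcard : (0 : ℝ) < Fintype.card (K₂ ⧸ K₁.subgroupOf K₂) := by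
    exact_mod_cast Fintype.card_pos
  have hcardC : (Fintype.card (K₂ ⧸ K₁.subgroupOf K₂) : ℂ) ≠ 0 := by
    exact_mod_cast (ne_of_gt (Fintype.card_pos (α := K₂ ⧸ K₁.subgroupOf K₂)))
  -- the average
  obtain ⟨H, hH⟩ : ∃ H : G ⧸ Γ → ℂ, ∀ x, H x =
      (Fintype.card (K₂ ⧸ K₁.subgroupOf K₂) : ℂ)⁻¹ * ∑ q, Q q x := ⟨_, fun x => rfl⟩
  have hQmem : ∀ q, MemLp (Q q) 2 m := by
    intro q
    obtain ⟨κ, -, -, h⟩ := hQ2 q
    rw [h]
    exact ((hmem F hFI).2.2).comp_measurePreserving (hinv κ⁻¹)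
  have hHinv : ∀ κ ∈ K₂, ∀ x, H (κ • x) = H x := by
    intro κ hκ x
    rw [hH, hH]
    congr 1
    have hκ' : κ⁻¹ ∈ K₂ := Subgroup.inv_mem _ hκ
    rw [← Equiv.sum_comp (MulAction.toPerm (⟨κ, hκ⟩ : K₂) : Equiv.Perm (K₂ ⧸ K₁.subgroupOf K₂))
      (fun q => Q q (κ • x))]
    refine Finset.sum_congr rfl (fun q _ => ?_)
    obtain ⟨l, rfl⟩ := QuotientGroup.mk_surjective q
    have h1 : (MulAction.toPerm (⟨κ, hκ⟩ : K₂) : Equiv.Perm (K₂ ⧸ K₁.subgroupOf K₂))
        (QuotientGroup.mk l) = QuotientGroup.mk ((⟨κ, hκ⟩ : K₂) * l) := rfl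
    rw [h1, hQ1, hQ1]
    simp only [tr, Subgroup.coe_mul, mul_inv_rev, mul_smul, inv_smul_smul]
  have hkey : ∀ x, cex m K₂ φ x = H x := by
    intro x
    have hB := (ho2 x).1
    have hpos := (ho2 x).2
    have hposC : ((m (MulAction.orbit K₂ x)).toReal : ℂ) ≠ 0 := by
      exact_mod_cast ne_of_gt hpos
    have h1 : ∫ y in MulAction.orbit K₂ x, H y ∂m =
        ((m (MulAction.orbit K₂ x)).toReal : ℂ) * H x := by
      have h2 : ∫ y in MulAction.orbit K₂ x, H y ∂m =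
          ∫ y in MulAction.orbit K₂ x, H x ∂m := by
        refine setIntegral_congr_fun hB (fun y hy => ?_)
        obtain ⟨κ, rfl⟩ := hy
        exact hHinv κ κ.2 x
      rw [h2, setIntegral_const]
      simp [Measure.real]
    have h3 : ∫ y in MulAction.orbit K₂ x, H y ∂m = ∫ y in MulAction.orbit K₂ x, F y ∂m := by
      have h4 : ∀ q, ∫ y in MulAction.orbit K₂ x, Q q y ∂m =
          ∫ y in MulAction.orbit K₂ x, F y ∂m := by
        intro q
        obtain ⟨κ, -, hκ, hq⟩ := hQ2 q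
        rw [hq, ← integral_indicator hB, ← integral_indicator hB,
          ← CX3_int m hinv κ⁻¹ ((MulAction.orbit K₂ x).indicator F)]
        congr 1
        funext y
        have h5 : κ⁻¹ • y ∈ MulAction.orbit K₂ x ↔ y ∈ MulAction.orbit K₂ x := by
          constructor
          · rintro ⟨l, hl⟩
            refine ⟨⟨κ * l, Subgroup.mul_mem _ hκ l.2⟩, ?_⟩
            have h2 : (l : G) • x = κ⁻¹ • y := hl
            change (κ * (l : G)) • x = y
            rw [mul_smul, h2, smul_inv_smul]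
          · rintro ⟨l, hl⟩
            refine ⟨⟨κ⁻¹ * l, Subgroup.mul_mem _ (Subgroup.inv_mem _ hκ) l.2⟩, ?_⟩
            have h2 : (l : G) • x = y := hl
            change (κ⁻¹ * (l : G)) • x = κ⁻¹ • y
            rw [mul_smul, h2]
        by_cases hy : y ∈ MulAction.orbit K₂ x
        · rw [Set.indicator_of_mem hy, Set.indicator_of_mem (h5.2 hy)]
          rfl
        · rw [Set.indicator_of_notMem hy, Set.indicator_of_notMem (fun hc => hy (h5.1 hc))]
      simp only [hH]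
      rw [integral_const_mul, integral_finset_sum _
        (fun q _ => ((hQmem q).integrable one_le_two).integrableOn)]
      simp only [h4]
      rw [Finset.sum_const, Finset.card_univ, nsmul_eq_mul, ← mul_assoc,
        inv_mul_cancel₀ hcardC, one_mul]
    unfold cex
    rw [← hint x, ← h3, h1, ← mul_assoc]
    have h6 : ((((m (MulAction.orbit K₂ x)).toReal)⁻¹ : ℝ) : ℂ) *
        ((m (MulAction.orbit K₂ x)).toReal : ℂ) = 1 := by
      rw [Complex.ofReal_inv, inv_mul_cancel₀ hposC]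
    first
      | rw [h6, one_mul]
      | (rw [inv_mul_cancel₀ hposC, one_mul])
  -- the difference
  have hdiff : ∀ x, cex m K₂ φ x - cex m K₁ φ x =
      (Fintype.card (K₂ ⧸ K₁.subgroupOf K₂) : ℂ)⁻¹ * ∑ q, (Q q x - F x) := by
    intro x
    rw [hkey, hH, ← hF, Finset.sum_sub_distrib, Finset.sum_const, Finset.card_univ, nsmul_eq_mul,
      mul_sub, ← mul_assoc _ _ (F x), inv_mul_cancel₀ hcardC, one_mul]
  have hQF : ∀ q, MemLp (fun x => Q q x - F x) 2 m := fun q => (hQmem q).sub (hmem F hFI).2.2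
  have hone : ∀ q, sq m (fun x => Q q x - F x) ≤ δ := by
    intro q
    obtain ⟨κ, hκA, hκ, hq⟩ := hQ2 q
    have h1 : (fun x => Q q x - F x) = cex m K₁ (fun y => tr κ φ y - φ y) := by
      funext x
      rw [hsub _ _ (htr κ) hφ, hq, hF, hequi κ hκ]
    rw [h1]
    exact le_trans (hX _ ((htr κ).sub hφ)).2.2.1 (hδ κ hκA hκ)
  have hpt : ∀ x, ‖cex m K₂ φ x - cex m K₁ φ x‖ ^ 2 ≤
      (Fintype.card (K₂ ⧸ K₁.subgroupOf K₂) : ℝ)⁻¹ * ∑ q, ‖Q q x - F x‖ ^ 2 := by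
    intro x
    rw [hdiff, norm_mul, norm_inv, Complex.norm_natCast, mul_pow]
    have h1 : ‖∑ q, (Q q x - F x)‖ ^ 2 ≤
        (Fintype.card (K₂ ⧸ K₁.subgroupOf K₂) : ℝ) * ∑ q, ‖Q q x - F x‖ ^ 2 := by
      calc ‖∑ q, (Q q x - F x)‖ ^ 2 ≤ (∑ q, ‖Q q x - F x‖) ^ 2 :=
            pow_le_pow_left₀ (norm_nonneg _) (norm_sum_le _ _) 2
        _ ≤ _ := by
            have := sq_sum_le_card_mul_sum_sq (s := (Finset.univ :
              Finset (K₂ ⧸ K₁.subgroupOf K₂))) (f := fun q => ‖Q q x - F x‖)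
            rwa [Finset.card_univ] at this
    calc ((Fintype.card (K₂ ⧸ K₁.subgroupOf K₂) : ℝ)⁻¹) ^ 2 * ‖∑ q, (Q q x - F x)‖ ^ 2
        ≤ ((Fintype.card (K₂ ⧸ K₁.subgroupOf K₂) : ℝ)⁻¹) ^ 2 *
          ((Fintype.card (K₂ ⧸ K₁.subgroupOf K₂) : ℝ) * ∑ q, ‖Q q x - F x‖ ^ 2) :=
          mul_le_mul_of_nonneg_left h1 (by positivity)
      _ = _ := by
          field_simp
  have hI : ∀ q, Integrable (fun x => ‖Q q x - F x‖ ^ 2) m := fun q =>
    (hQF q).integrable_norm_pow (by norm_num)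
  calc sq m (fun x => cex m K₂ φ x - cex m K₁ φ x)
      ≤ ∫ x, (Fintype.card (K₂ ⧸ K₁.subgroupOf K₂) : ℝ)⁻¹ * ∑ q, ‖Q q x - F x‖ ^ 2 ∂m := by
        unfold sq
        refine integral_mono_of_nonneg (Filter.Eventually.of_forall fun x => by positivity) ?_
          (Filter.Eventually.of_forall hpt)
        exact (integrable_finset_sum _ (fun q _ => hI q)).const_mul _
    _ = (Fintype.card (K₂ ⧸ K₁.subgroupOf K₂) : ℝ)⁻¹ * ∑ q, sq m (fun x => Q q x - F x) := by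
        rw [integral_const_mul, integral_finset_sum _ (fun q _ => hI q)]
        rfl
    _ ≤ (Fintype.card (K₂ ⧸ K₁.subgroupOf K₂) : ℝ)⁻¹ *
          ∑ q : (K₂ ⧸ K₁.subgroupOf K₂), δ :=
        mul_le_mul_of_nonneg_left (Finset.sum_le_sum fun q _ => hone q) (by positivity)
    _ = δ := by
        rw [Finset.sum_const, Finset.card_univ, nsmul_eq_mul, ← mul_assoc,
          inv_mul_cancel₀ hcard.ne', one_mul]

theorem p_CX3 (hCX1 : Stmt_CX1) (hPNR : Stmt_PNR) (hORB : Stmt_ORB) (hIPL : Stmt_IPL) :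
    Stmt_CX3 := by
  intro ι _ _ k _ _ _ L Γ m hLat hm hinv P φ hφ δ hδ t
  classical
  obtain ⟨hP1, hP2, hP3, -, -, -⟩ := hPNR ι k L
  have h12 : KG L (fun _ => t) ≤ KG L (Function.update 0 P t) := by
    apply hP2
    intro i
    by_cases h : i = P
    · subst h
      rw [Function.update_self]
    · rw [Function.update_of_ne h]
      exact Nat.zero_le t
  have h20 : KG L (Function.update 0 P t) ≤ KG L 0 := by
    apply hP2
    intro i
    exact Nat.zero_le _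
  refine CX3_main hCX1 hIPL Γ (KG L fun _ => t) (KG L (Function.update 0 P t)) m hm hinv h12
    (fun κ hκ x hx => hP1 _ κ (h20 hκ) x hx) ?_ (hORB ι k L Γ m hLat hm hinv (fun _ => t)).1
    (hORB ι k L Γ m hLat hm hinv (fun _ => t)).2
    (hORB ι k L Γ m hLat hm hinv (Function.update 0 P t)).2 {κ | κ P = 1} ?_ φ hφ δ ?_
  · intro h0
    apply hP3 (fun _ => t)
    rw [← Subgroup.relIndex_mul_relIndex _ _ _ h12 h20, h0, zero_mul]
  · intro κ hκ
    rw [mem_KG] at hκ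
    refine ⟨Function.update κ P 1, Function.update_self _ _ _, ?_, ?_⟩
    · rw [mem_KG]
      intro i
      by_cases h : i = P
      · subst h
        have h0 : (Function.update κ i 1 : GG k) i = 1 := Function.update_self _ _ _
        rw [h0]
        exact Subgroup.one_mem _
      · have h0 : (Function.update κ P 1 : GG k) i = κ i := Function.update_of_ne h _ _
        rw [h0]
        exact hκ i
    · rw [mem_KG]
      intro i
      by_cases h : i = P
      · subst h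
        have h0 : (κ⁻¹ * Function.update κ i 1 : GG k) i = (κ i)⁻¹ := by
          rw [Pi.mul_apply, Pi.inv_apply, Function.update_self, mul_one]
        rw [h0]
        apply Subgroup.inv_mem
        have := hκ i
        rwa [Function.update_self] at this
      · have h0 : (κ⁻¹ * Function.update κ P 1 : GG k) i = 1 := by
          rw [Pi.mul_apply, Pi.inv_apply, Function.update_of_ne h, inv_mul_cancel]
        rw [h0]
        exact Subgroup.one_mem _
  · intro κ hκ hκ2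
    exact hδ κ (h20 hκ2) hκ

end Pool.PL
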