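import Pool.Agent.Work.MP_972ac7_P.Interface2

set_option autoImplicit false

/-! # THEOREM P, part II: block DFN -/

open MeasureTheory NumberField IsDedekindDomain
open scoped Quaternion

noncomputable section

namespace Pool.PL

/-- the constant for one embedding -/
def DFN_T (α β : ℝ) : ℝ := 1 + α⁻¹ + β⁻¹ + (α * β)⁻¹ + α + β + α * β

theorem DFN_T_ge {α β : ℝ} (hα : 0 < α) (hβ : 0 < β) :
    1 ≤ DFN_T α β ∧ α⁻¹ ≤ DFN_T α β ∧ β⁻¹ ≤ DFN_T α β ∧ (α * β)⁻¹ ≤ DFN_T α β ∧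
      1 + α + β + α * β ≤ DFN_T α β := by
  have h1 : 0 < α⁻¹ := inv_pos.2 hα
  have h2 : 0 < β⁻¹ := inv_pos.2 hβ
  have h3 : 0 < α * β := mul_pos hα hβ
  have h4 : 0 < (α * β)⁻¹ := inv_pos.2 h3
  unfold DFN_T
  refine ⟨?_, ?_, ?_, ?_, ?_⟩ <;> linarith

theorem DFN_sc {c α s N C : ℝ} (hα : 0 < α) (hC : α⁻¹ ≤ C) (hN : 0 ≤ N) (h : α * s ≤ N)
    (_hc : c = 0) : s ≤ C * N := by
  have h1 : α⁻¹ * N ≤ C * N := mul_le_mul_of_nonneg_right hC hN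
  have h2 : α⁻¹ * (α * s) ≤ α⁻¹ * N := mul_le_mul_of_nonneg_left h (inv_pos.2 hα).le
  have h3 : α⁻¹ * (α * s) = s := by
    field_simp
  linarith

theorem p_DFN : Stmt_DFN := by
  intro F _ _ a b ha hb hTR
  obtain ⟨C, hC⟩ : ∃ C : ℝ, C = 1 + ∑ σ : F →+* ℝ, DFN_T (-σ (a : F)) (-σ (b : F)) := ⟨_, rfl⟩
  have hT : ∀ σ : F →+* ℝ, DFN_T (-σ (a : F)) (-σ (b : F)) ≤ C := by
    intro σ
    have h0 : ∀ τ ∈ (Finset.univ : Finset (F →+* ℝ)), 0 ≤ DFN_T (-τ (a : F)) (-τ (b : F)) := by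
      intro τ _
      have h1 := (DFN_T_ge (neg_pos.2 (ha τ)) (neg_pos.2 (hb τ))).1
      linarith
    have h1 := Finset.single_le_sum h0 (Finset.mem_univ σ)
    rw [hC]
    linarith
  have hN : ∀ (z : ℍ[F, (a : F), (b : F)]) (σ : F →+* ℝ), σ (nrq z) =
      σ z.re ^ 2 + (-σ (a : F)) * σ z.imI ^ 2 + (-σ (b : F)) * σ z.imJ ^ 2 +
        ((-σ (a : F)) * (-σ (b : F))) * σ z.imK ^ 2 := by
    intro z σ
    unfold nrq
    rw [map_add, map_sub, map_sub, map_mul, map_mul, map_mul, map_mul, map_pow, map_pow, map_pow,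
      map_pow]
    ring
  have hCpos : 0 < C := by
    rw [hC]
    have h0 : 0 ≤ ∑ σ : F →+* ℝ, DFN_T (-σ (a : F)) (-σ (b : F)) := by
      refine Finset.sum_nonneg fun τ _ => ?_
      have h1 := (DFN_T_ge (neg_pos.2 (ha τ)) (neg_pos.2 (hb τ))).1
      linarith
    linarith
  have hfirst : ∀ (z : ℍ[F, (a : F), (b : F)]) (σ : F →+* ℝ), σ z.re ^ 2 ≤ C * σ (nrq z) ∧
      σ z.imI ^ 2 ≤ C * σ (nrq z) ∧ σ z.imJ ^ 2 ≤ C * σ (nrq z) ∧
      σ z.imK ^ 2 ≤ C * σ (nrq z) := by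
    intro z σ
    have hα : 0 < -σ (a : F) := neg_pos.2 (ha σ)
    have hβ : 0 < -σ (b : F) := neg_pos.2 (hb σ)
    have hαβ : 0 < (-σ (a : F)) * (-σ (b : F)) := mul_pos hα hβ
    obtain ⟨t1, t2, t3, t4, -⟩ := DFN_T_ge hα hβ
    have hTσ := hT σ
    have e := hN z σ
    have p1 : 0 ≤ σ z.re ^ 2 := sq_nonneg _
    have p2 : 0 ≤ (-σ (a : F)) * σ z.imI ^ 2 := mul_nonneg hα.le (sq_nonneg _)
    have p3 : 0 ≤ (-σ (b : F)) * σ z.imJ ^ 2 := mul_nonneg hβ.le (sq_nonneg _)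
    have p4 : 0 ≤ ((-σ (a : F)) * (-σ (b : F))) * σ z.imK ^ 2 :=
      mul_nonneg hαβ.le (sq_nonneg _)
    have hN0 : 0 ≤ σ (nrq z) := by
      rw [e]
      linarith
    refine ⟨?_, ?_, ?_, ?_⟩
    · refine DFN_sc (c := 0) one_pos ?_ hN0 ?_ rfl
      · rw [inv_one]
        exact t1.trans hTσ
      · rw [e]
        linarith
    · refine DFN_sc (c := 0) hα (t2.trans hTσ) hN0 ?_ rfl
      rw [e]
      linarith
    · refine DFN_sc (c := 0) hβ (t3.trans hTσ) hN0 ?_ rfl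
      rw [e]
      linarith
    · refine DFN_sc (c := 0) hαβ (t4.trans hTσ) hN0 ?_ rfl
      rw [e]
      linarith
  refine ⟨C, hCpos, hfirst, ?_, ?_⟩
  · intro z σ B h1 h2 h3 h4
    have hα : 0 < -σ (a : F) := neg_pos.2 (ha σ)
    have hβ : 0 < -σ (b : F) := neg_pos.2 (hb σ)
    have hαβ : 0 < (-σ (a : F)) * (-σ (b : F)) := mul_pos hα hβ
    obtain ⟨-, -, -, -, t5⟩ := DFN_T_ge hα hβ
    have hTσ := hT σ
    have hsq : ∀ x : ℝ, |x| ≤ B → x ^ 2 ≤ B ^ 2 := by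
      intro x hx
      rw [← sq_abs]
      exact pow_le_pow_left₀ (abs_nonneg x) hx 2
    have q1 := hsq _ h1
    have q2 := mul_le_mul_of_nonneg_left (hsq _ h2) hα.le
    have q3 := mul_le_mul_of_nonneg_left (hsq _ h3) hβ.le
    have q4 := mul_le_mul_of_nonneg_left (hsq _ h4) hαβ.le
    have q5 : (1 + -σ (a : F) + -σ (b : F) + -σ (a : F) * -σ (b : F)) * B ^ 2 ≤ C * B ^ 2 :=
      mul_le_mul_of_nonneg_right (t5.trans hTσ) (sq_nonneg B)
    rw [hN z σ]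
    linarith
  · intro z hz
    have hne : Nonempty (F →+* ℝ) := by
      rw [← Fintype.card_pos_iff, hTR.card]
      exact Module.finrank_pos
    obtain ⟨σ⟩ := hne
    obtain ⟨h1, h2, h3, h4⟩ := hfirst z σ
    rw [hz, map_zero, mul_zero] at h1 h2 h3 h4
    have key : ∀ x : F, σ x ^ 2 ≤ 0 → x = 0 := by
      intro x hx
      have h5 : σ x = 0 := by
        have h6 : σ x ^ 2 = 0 := le_antisymm hx (sq_nonneg _)
        exact pow_eq_zero_iff (two_ne_zero) |>.1 h6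
      exact (map_eq_zero σ).1 h5
    apply QuaternionAlgebra.ext
    · exact key _ h1
    · exact key _ h2
    · exact key _ h3
    · exact key _ h4

end Pool.PL
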