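import Pool.Agent.Work.MP_972ac7_P.Interface1

set_option autoImplicit false

/-! # THEOREM P, part I, block DIM -/

open MeasureTheory

noncomputable section

namespace Pool.PL

open Pool.TFD Pool.TC

section DIMsec

/-- a common invariant space of eigenvectors -/
theorem DIM_common {E : Type} [AddCommGroup E] [Module ℂ E] [FiniteDimensional ℂ E] {m : ℕ}
    (A : Fin m → (E →ₗ[ℂ] E)) (hA : ∀ i j v, A i (A j v) = A j (A i v)) (W0 : Submodule ℂ E)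
    (hW0 : W0 ≠ ⊥) (hinv : ∀ i, ∀ w ∈ W0, A i w ∈ W0) (s : Finset (Fin m)) :
    ∃ W : Submodule ℂ E, W ≤ W0 ∧ W ≠ ⊥ ∧ (∀ i, ∀ w ∈ W, A i w ∈ W) ∧
      ∀ i ∈ s, ∃ μ : ℂ, ∀ w ∈ W, A i w = μ • w := by
  classical
  induction s using Finset.induction_on with
  | empty => exact ⟨W0, le_rfl, hW0, hinv, by simp⟩
  | insert i s _ ih =>
    obtain ⟨W, h1, h2, h3, h4⟩ := ih
    have hnt : Nontrivial W := (Submodule.nontrivial_iff_ne_bot).mpr h2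
    obtain ⟨μ, hμ⟩ := Module.End.exists_eigenvalue ((A i).restrict (h3 i))
    obtain ⟨w, hw⟩ := hμ.exists_hasEigenvector
    have hw1 : A i (w : E) = μ • (w : E) := by
      have := hw.apply_eq_smul
      have := congrArg Subtype.val this
      simpa using this
    have hw2 : (w : E) ≠ 0 := by
      intro h
      exact hw.2 (Subtype.ext h)
    refine ⟨W ⊓ LinearMap.ker (A i - μ • LinearMap.id), inf_le_left.trans h1, ?_, ?_, ?_⟩
    · rw [Submodule.ne_bot_iff]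
      refine ⟨w, ⟨w.2, ?_⟩, hw2⟩
      rw [SetLike.mem_coe, LinearMap.mem_ker]
      simp [hw1]
    · rintro j x ⟨hx1, hx2⟩
      refine ⟨h3 j x hx1, ?_⟩
      rw [SetLike.mem_coe, LinearMap.mem_ker] at hx2 ⊢
      have hx3 : A i x = μ • x := by
        have : A i x - μ • x = 0 := by simpa using hx2
        exact sub_eq_zero.mp this
      have : A i (A j x) - μ • A j x = 0 := by
        rw [hA i j, hx3, map_smul, sub_self]
      simpa using this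
    · intro j hj
      rw [Finset.mem_insert] at hj
      rcases hj with rfl | hj
      · refine ⟨μ, ?_⟩
        rintro x ⟨hx1, hx2⟩
        rw [SetLike.mem_coe, LinearMap.mem_ker] at hx2
        have : A j x - μ • x = 0 := by simpa using hx2
        exact sub_eq_zero.mp this
      · obtain ⟨ν, hν⟩ := h4 j hj
        exact ⟨ν, fun x hx => hν x hx.1⟩

variable {k : Type} [NormedField k] [IsUltrametricDist k]

theorem DIM_sub_le (x y : k) : ‖x - y‖ ≤ max ‖x‖ ‖y‖ := by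
  have := IsUltrametricDist.norm_add_le_max x (-y)
  rwa [← sub_eq_add_neg, norm_neg] at this

omit [IsUltrametricDist k] in
theorem DIM_inv_sub {a b : k} (ha : a ≠ 0) (hb : b ≠ 0) :
    a⁻¹ - b⁻¹ = -(a - b) * a⁻¹ * b⁻¹ := by
  field_simp
  ring

theorem DIM_KK0 (L : LocF k) {g : SL2 k} (h : nm g ≤ 1) : g ∈ KK L 0 := by
  refine ⟨h, ?_⟩
  rw [pow_zero, inv_one]
  unfold dnm
  unfold nm at h
  rw [mnm_le] at h ⊢
  intro i j
  rw [Matrix.sub_apply]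
  refine (DIM_sub_le _ _).trans (max_le (h i j) ?_)
  fin_cases i <;> fin_cases j <;> simp

theorem DIM_upp (L : LocF k) {r : ℕ} {x : k} (h : ‖x‖ ≤ ((L.q : ℝ) ^ r)⁻¹) :
    upp x ∈ KK L r := by
  have h1 : ((L.q : ℝ) ^ r)⁻¹ ≤ 1 := by
    apply inv_le_one_of_one_le₀
    exact one_le_pow₀ L.one_lt.le
  refine ⟨?_, ?_⟩
  · show mnm _ ≤ 1
    rw [mnm_le]
    intro i j
    fin_cases i <;> fin_cases j <;> simp [upp]
    exact h.trans h1
  · show mnm _ ≤ _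
    rw [mnm_le]
    intro i j
    have hq := L.q_pos
    fin_cases i <;> fin_cases j <;> simp [upp]
    exact h

theorem DIM_dia (L : LocF k) {u : k} (h : ‖u‖ = 1) (hu : u ≠ 0) : dia u hu ∈ KK L 0 := by
  apply DIM_KK0
  show mnm _ ≤ 1
  rw [mnm_le]
  intro i j
  fin_cases i <;> fin_cases j <;> simp [dia, h]

omit [IsUltrametricDist k] in
theorem DIM_upp_mul (x y : k) : upp x * upp y = upp (x + y) := by
  apply Subtype.ext
  show (!![1, x; 0, 1] : Matrix (Fin 2) (Fin 2) k) * !![1, y; 0, 1] = !![1, x + y; 0, 1]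
  rw [Matrix.mul_fin_two]
  simp [add_comm]

omit [IsUltrametricDist k] in
theorem DIM_dia_upp (u : k) (hu : u ≠ 0) (x : k) :
    upp x * dia u hu = dia u hu * upp ((u ^ 2)⁻¹ * x) := by
  apply Subtype.ext
  show (!![1, x; 0, 1] : Matrix (Fin 2) (Fin 2) k) * !![u, 0; 0, u⁻¹] =
    !![u, 0; 0, u⁻¹] * !![1, (u ^ 2)⁻¹ * x; 0, 1]
  rw [Matrix.mul_fin_two, Matrix.mul_fin_two]
  have : x * u⁻¹ = u * ((u ^ 2)⁻¹ * x) := by
    field_simp
  simp [this]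

end DIMsec

theorem p_DIM (hDMG : Stmt_DMG) (hDMS : Stmt_DMS) (hRES : Stmt_RES) : Stmt_DIM := by
  intro k _ _ L h2
  obtain ⟨c, hc, hu⟩ := hDMS k L h2
  refine ⟨c, hc, ?_⟩
  intro r hr E _ _ _ π hπ1 hπ2 hnt
  obtain ⟨n, u, hn, hu1, hu2⟩ := hu r (by omega)
  obtain ⟨R, hR1, hR2, hR3⟩ := hRES k L r
  have hq := L.q_pos
  have hq1 := L.one_lt
  have hu0 : ∀ i, u i ≠ 0 := by
    intro i h
    have := hu1 i
    rw [h, norm_zero] at this
    exact zero_ne_one this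
  have hadd : ∀ {x y : k}, ‖x‖ ≤ 1 → ‖y‖ ≤ 1 → ‖x + y‖ ≤ 1 := fun {x y} hx hy =>
    (IsUltrametricDist.norm_add_le_max x y).trans (max_le hx hy)
  have hmul : ∀ {x y : k}, ‖x‖ ≤ 1 → ‖y‖ ≤ 1 → ‖x * y‖ ≤ 1 := fun {x y} hx hy => by
    rw [norm_mul]
    exact mul_le_one₀ hx (norm_nonneg _) hy
  have hup : ∀ {x : k}, ‖x‖ ≤ 1 → upp x ∈ KK L 0 := fun {x} hx =>
    DIM_upp L (by rw [pow_zero, inv_one]; exact hx)
  -- the operators
  obtain ⟨T, hT⟩ : ∃ T : {x : k // ‖x‖ ≤ 1} → (E →ₗ[ℂ] E), T = fun x => π ⟨upp x.1, hup x.2⟩ :=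
    ⟨_, rfl⟩
  have hTx : ∀ x (hx : ‖x‖ ≤ 1), T ⟨x, hx⟩ = π ⟨upp x, hup hx⟩ := fun x hx => by rw [hT]
  have hTmul : ∀ x y (hx : ‖x‖ ≤ 1) (hy : ‖y‖ ≤ 1),
      T ⟨x, hx⟩ * T ⟨y, hy⟩ = T ⟨x + y, hadd hx hy⟩ := by
    intro x y hx hy
    rw [hTx, hTx, hTx, ← map_mul]
    congr 1
    exact Subtype.ext (DIM_upp_mul x y)
  have hTone : ∀ x (hx : ‖x‖ ≤ 1), ‖x‖ ≤ ((L.q : ℝ) ^ r)⁻¹ → T ⟨x, hx⟩ = 1 := by
    intro x hx h
    rw [hTx]
    exact hπ1 _ (DIM_upp L h)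
  have hTcomm : ∀ x y v, T x (T y v) = T y (T x v) := by
    rintro ⟨x, hx⟩ ⟨y, hy⟩ v
    have h1 : T ⟨x, hx⟩ (T ⟨y, hy⟩ v) = (T ⟨x, hx⟩ * T ⟨y, hy⟩) v := rfl
    have h2 : T ⟨y, hy⟩ (T ⟨x, hx⟩ v) = (T ⟨y, hy⟩ * T ⟨x, hx⟩) v := rfl
    have h3 : (⟨x + y, hadd hx hy⟩ : {x : k // ‖x‖ ≤ 1}) = ⟨y + x, hadd hy hx⟩ :=
      Subtype.ext (add_comm x y)
    rw [h1, h2, hTmul, hTmul, h3]
  -- a small `t` acting nontrivially
  have hr1 : ((L.q : ℝ) ^ (r - 1))⁻¹ ≤ 1 := by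
    apply inv_le_one_of_one_le₀
    exact one_le_pow₀ hq1.le
  obtain ⟨t, ht, htT⟩ : ∃ t : k, ∃ ht : ‖t‖ ≤ ((L.q : ℝ) ^ (r - 1))⁻¹,
      T ⟨t, ht.trans hr1⟩ ≠ 1 := by
    by_contra hcon
    push Not at hcon
    have hH := hDMG k L r hr (π.ker.map (KK L 0).subtype) (by
      intro κ hκ t ht
      refine ⟨⟨κ, hκ⟩ * ⟨upp t, hup (ht.trans hr1)⟩ * (⟨κ, hκ⟩ : KK L 0)⁻¹, ?_, rfl⟩
      have h1 := hcon t ht
      rw [hTx] at h1
      rw [SetLike.mem_coe, MonoidHom.mem_ker, map_mul, map_mul, h1, mul_one, ← map_mul,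
        mul_inv_cancel, map_one])
    obtain ⟨v, hv⟩ := exists_ne (0 : E)
    apply hv
    apply hπ2
    intro κ hκ
    obtain ⟨κ', h1, h2⟩ := hH hκ
    have h3 : κ' = κ := Subtype.ext h2
    rw [h3] at h1
    have h4 : π κ = 1 := h1
    rw [h4]
    rfl
  have ht1 : ‖t‖ ≤ 1 := ht.trans hr1
  -- finite order
  have hTpow : ∀ (x : k) (hx : ‖x‖ ≤ 1) (j : ℕ),
      ∃ hj : ‖(j : k) * x‖ ≤ 1, T ⟨x, hx⟩ ^ j = T ⟨(j : k) * x, hj⟩ := by
    intro x hx j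
    refine ⟨hmul (IsUltrametricDist.norm_natCast_le_one k j) hx, ?_⟩
    induction j with
    | zero =>
      rw [pow_zero, hTone]
      rw [Nat.cast_zero, zero_mul, norm_zero]
      positivity
    | succ j ih =>
      rw [pow_succ, ih, hTmul]
      congr 1
      apply Subtype.ext
      show (j : k) * x + x = ((j + 1 : ℕ) : k) * x
      push_cast
      ring
  obtain ⟨m, hm0, hm⟩ : ∃ m : ℕ, m ≠ 0 ∧ T ⟨t, ht1⟩ ^ m = 1 := by
    have hch : ∀ j : ℕ, ∃ i, ‖(j : k) * t - R i‖ ≤ ((L.q : ℝ) ^ r)⁻¹ := fun j =>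
      hR3 _ (hmul (IsUltrametricDist.norm_natCast_le_one k j) ht1)
    choose f hf using hch
    obtain ⟨j, j', hne, hfe⟩ := Finite.exists_ne_map_eq_of_infinite f
    have key : ∀ j j' : ℕ, j < j' → f j = f j' → ∃ m : ℕ, m ≠ 0 ∧ T ⟨t, ht1⟩ ^ m = 1 := by
      intro j j' hlt hfe
      refine ⟨j' - j, by omega, ?_⟩
      obtain ⟨h1, h2⟩ := hTpow t ht1 (j' - j)
      rw [h2]
      apply hTone
      have h3 : ((j' - j : ℕ) : k) * t = ((j' : k) * t - R (f j')) - ((j : k) * t - R (f j)) := by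
        rw [Nat.cast_sub hlt.le, hfe]
        ring
      rw [h3]
      exact (DIM_sub_le _ _).trans (max_le (hf j') (hf j))
    rcases lt_or_gt_of_ne hne with h | h
    · exact key j j' h hfe
    · exact key j' j h hfe.symm
  -- the kernel of the sum of the powers
  obtain ⟨Sm, hSm⟩ : ∃ Sm : E →ₗ[ℂ] E, Sm = ∑ i ∈ Finset.range m, T ⟨t, ht1⟩ ^ i := ⟨_, rfl⟩
  have hSmul : Sm * (T ⟨t, ht1⟩ - 1) = 0 := by
    rw [hSm, geom_sum_mul, hm, sub_self]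
  have hkne : LinearMap.ker Sm ≠ ⊥ := by
    obtain ⟨w, hw⟩ : ∃ w, T ⟨t, ht1⟩ w ≠ w := by
      by_contra hcon
      push Not at hcon
      exact htT (LinearMap.ext hcon)
    rw [Submodule.ne_bot_iff]
    refine ⟨T ⟨t, ht1⟩ w - w, ?_, sub_ne_zero.mpr hw⟩
    rw [LinearMap.mem_ker]
    have h1 : (Sm * (T ⟨t, ht1⟩ - 1)) w = Sm (T ⟨t, ht1⟩ w - w) := rfl
    rw [← h1, hSmul]
    rfl
  have hcpow : ∀ (x : {x : k // ‖x‖ ≤ 1}) (j : ℕ) (v : E),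
      (T ⟨t, ht1⟩ ^ j) (T x v) = T x ((T ⟨t, ht1⟩ ^ j) v) := by
    intro x j v
    obtain ⟨h1, h2⟩ := hTpow t ht1 j
    rw [h2]
    exact hTcomm _ _ _
  have hkinv : ∀ x : {x : k // ‖x‖ ≤ 1}, ∀ w ∈ LinearMap.ker Sm, T x w ∈ LinearMap.ker Sm := by
    intro x w hw
    rw [LinearMap.mem_ker] at hw ⊢
    have h1 : Sm (T x w) = T x (Sm w) := by
      rw [hSm, LinearMap.sum_apply, LinearMap.sum_apply, map_sum]
      exact Finset.sum_congr rfl fun j _ => hcpow x j w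
    rw [h1, hw, map_zero]
  -- the common eigenvector
  obtain ⟨W, hW1, hW2, -, hW4⟩ := DIM_common (fun i => T ⟨R i, hR1 i⟩)
    (fun i j v => hTcomm _ _ v) (LinearMap.ker Sm) hkne (fun i w hw => hkinv _ w hw)
    Finset.univ
  obtain ⟨v, hvW, hv0⟩ := (Submodule.ne_bot_iff W).mp hW2
  have hchar : ∀ x : {x : k // ‖x‖ ≤ 1}, ∃ μ : ℂ, T x v = μ • v := by
    rintro ⟨x, hx⟩
    obtain ⟨i, hi⟩ := hR3 x hx
    obtain ⟨μ, hμ⟩ := hW4 i (Finset.mem_univ i)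
    refine ⟨μ, ?_⟩
    have h1 : ‖x - R i‖ ≤ 1 := (DIM_sub_le _ _).trans (max_le hx (hR1 i))
    have h2 : T ⟨x, hx⟩ = T ⟨R i, hR1 i⟩ := by
      have h3 := hTmul (R i) (x - R i) (hR1 i) h1
      rw [hTone _ h1 hi, mul_one] at h3
      rw [h3]
      congr 1
      apply Subtype.ext
      show x = R i + (x - R i)
      ring
    rw [h2]
    exact hμ v hvW
  choose ψ hψ using hchar
  have hψmul : ∀ x y (hx : ‖x‖ ≤ 1) (hy : ‖y‖ ≤ 1),
      ψ ⟨x + y, hadd hx hy⟩ = ψ ⟨x, hx⟩ * ψ ⟨y, hy⟩ := by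
    intro x y hx hy
    have h1 : T ⟨x + y, hadd hx hy⟩ v = (ψ ⟨x, hx⟩ * ψ ⟨y, hy⟩) • v := by
      rw [← hTmul]
      show T ⟨x, hx⟩ (T ⟨y, hy⟩ v) = _
      rw [hψ, map_smul, hψ, smul_smul, mul_comm]
    rw [hψ] at h1
    exact smul_left_injective ℂ hv0 h1
  have hψt : ψ ⟨t, ht1⟩ ≠ 1 := by
    intro h
    have h1 : T ⟨t, ht1⟩ v = v := by rw [hψ, h, one_smul]
    have h2 : ∀ j : ℕ, (T ⟨t, ht1⟩ ^ j) v = v := by
      intro j
      induction j with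
      | zero => rfl
      | succ j ih =>
        rw [pow_succ]
        show (T ⟨t, ht1⟩ ^ j) (T ⟨t, ht1⟩ v) = v
        rw [h1, ih]
    have h3 : Sm v = 0 := LinearMap.mem_ker.mp (hW1 hvW)
    rw [hSm, LinearMap.sum_apply, Finset.sum_congr rfl fun j _ => h2 j, Finset.sum_const,
      Finset.card_range, ← Nat.cast_smul_eq_nsmul ℂ] at h3
    rcases smul_eq_zero.mp h3 with h4 | h4
    · exact hm0 (Nat.cast_eq_zero.mp h4)
    · exact hv0 h4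
  have hψ0 : ∀ x (hx : ‖x‖ ≤ 1), ψ ⟨x, hx⟩ ≠ 0 := by
    intro x hx h
    have hnx : ‖-x‖ ≤ 1 := by rwa [norm_neg]
    have h1 := hψmul x (-x) hx hnx
    rw [h, zero_mul] at h1
    have h2 : T ⟨x + -x, hadd hx hnx⟩ = 1 := by
      apply hTone
      rw [add_neg_cancel, norm_zero]
      positivity
    have h3 := hψ ⟨x + -x, hadd hx hnx⟩
    rw [h2, h1, zero_smul] at h3
    exact hv0 h3
  -- the vectors
  have hinv1 : ∀ i, ‖(u i ^ 2)⁻¹‖ = 1 := by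
    intro i
    rw [norm_inv, norm_pow, hu1, one_pow, inv_one]
  obtain ⟨χ, hχ⟩ : ∃ χ : Fin n → {x : k // ‖x‖ ≤ 1} → ℂ,
      χ = fun i x => ψ ⟨(u i ^ 2)⁻¹ * x.1, hmul (hinv1 i).le x.2⟩ := ⟨_, rfl⟩
  have hχx : ∀ i x (hx : ‖x‖ ≤ 1), χ i ⟨x, hx⟩ = ψ ⟨(u i ^ 2)⁻¹ * x, hmul (hinv1 i).le hx⟩ :=
    fun i x hx => by rw [hχ]
  have hχinj : Function.Injective χ := by
    intro i j hij
    apply hu2
    by_contra hlt
    rw [not_le] at hlt
    have hne : u i ^ 2 - u j ^ 2 ≠ 0 := by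
      intro h0
      rw [h0, norm_zero] at hlt
      have : (0 : ℝ) < ((L.q : ℝ) ^ r)⁻¹ := by positivity
      linarith
    -- the norm is at least `q^(-(r-1))`
    have hge : ((L.q : ℝ) ^ (r - 1))⁻¹ ≤ ‖u i ^ 2 - u j ^ 2‖ := by
      obtain ⟨z, hz⟩ := L.disc _ hne
      rw [hz] at hlt ⊢
      rw [← zpow_natCast, ← zpow_neg] at hlt ⊢
      rw [zpow_lt_zpow_iff_right₀ hq1] at hlt
      rw [zpow_le_zpow_iff_right₀ hq1]
      omega
    obtain ⟨w, hw⟩ : ∃ w, w = (u i ^ 2)⁻¹ - (u j ^ 2)⁻¹ := ⟨_, rfl⟩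
    have hui := pow_ne_zero 2 (hu0 i)
    have huj := pow_ne_zero 2 (hu0 j)
    have hwn : ‖w‖ = ‖u i ^ 2 - u j ^ 2‖ := by
      have h1 : w = -(u i ^ 2 - u j ^ 2) * (u i ^ 2)⁻¹ * (u j ^ 2)⁻¹ := by
        rw [hw]
        exact DIM_inv_sub hui huj
      rw [h1, norm_mul, norm_mul, norm_neg, hinv1, hinv1, mul_one, mul_one]
    have hw0 : w ≠ 0 := by
      intro h0
      rw [h0, norm_zero] at hwn
      exact hne (norm_eq_zero.mp hwn.symm)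
    have hxn : ‖t / w‖ ≤ 1 := by
      rw [norm_div, div_le_one (norm_pos_iff.mpr hw0), hwn]
      exact ht.trans hge
    have h1 := congrFun hij ⟨t / w, hxn⟩
    rw [hχx, hχx] at h1
    have h2 : ‖(u j ^ 2)⁻¹ * (t / w)‖ ≤ 1 := hmul (hinv1 j).le hxn
    have h3 := hψmul ((u j ^ 2)⁻¹ * (t / w)) t h2 ht1
    have h4 : (⟨(u i ^ 2)⁻¹ * (t / w), hmul (hinv1 i).le hxn⟩ : {x : k // ‖x‖ ≤ 1}) =
        ⟨(u j ^ 2)⁻¹ * (t / w) + t, hadd h2 ht1⟩ := by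
      apply Subtype.ext
      show (u i ^ 2)⁻¹ * (t / w) = (u j ^ 2)⁻¹ * (t / w) + t
      have h5 : (u i ^ 2)⁻¹ = w + (u j ^ 2)⁻¹ := by
        rw [hw]
        ring
      rw [h5, add_mul, mul_div_cancel₀ _ hw0]
      ring
    rw [h4, h3] at h1
    have h6 : ψ ⟨t, ht1⟩ = 1 := by
      apply mul_left_cancel₀ (hψ0 _ h2)
      rw [h1, mul_one]
    exact hψt h6
  have hdm : ∀ i, dia (u i) (hu0 i) ∈ KK L 0 := fun i => DIM_dia L (hu1 i) (hu0 i)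
  obtain ⟨b, hb⟩ : ∃ b : Fin n → E, b = fun i => π ⟨dia (u i) (hu0 i), hdm i⟩ v := ⟨_, rfl⟩
  have hbi : ∀ i, b i = π ⟨dia (u i) (hu0 i), hdm i⟩ v := fun i => by rw [hb]
  have hb0 : ∀ i, b i ≠ 0 := by
    intro i h
    rw [hbi] at h
    apply hv0
    have h1 : (π (⟨dia (u i) (hu0 i), hdm i⟩⁻¹) * π ⟨dia (u i) (hu0 i), hdm i⟩) v = v := by
      rw [← map_mul, inv_mul_cancel, map_one]
      rfl
    rw [← h1]
    show π (⟨dia (u i) (hu0 i), hdm i⟩⁻¹) (π ⟨dia (u i) (hu0 i), hdm i⟩ v) = 0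
    rw [h, map_zero]
  have hbT : ∀ i x, T x (b i) = χ i x • b i := by
    rintro i ⟨x, hx⟩
    rw [hχx, hTx, hbi]
    have hx' : ‖(u i ^ 2)⁻¹ * x‖ ≤ 1 := hmul (hinv1 i).le hx
    have h1 : (⟨upp x, hup hx⟩ : KK L 0) * ⟨dia (u i) (hu0 i), hdm i⟩ =
        ⟨dia (u i) (hu0 i), hdm i⟩ * ⟨upp ((u i ^ 2)⁻¹ * x), hup hx'⟩ :=
      Subtype.ext (DIM_dia_upp (u i) (hu0 i) x)
    have h2 : π ⟨upp x, hup hx⟩ (π ⟨dia (u i) (hu0 i), hdm i⟩ v) =
        (π (⟨upp x, hup hx⟩ * ⟨dia (u i) (hu0 i), hdm i⟩)) v := by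
      rw [map_mul]
      rfl
    rw [h2, h1, map_mul]
    show π ⟨dia (u i) (hu0 i), hdm i⟩ (π ⟨upp ((u i ^ 2)⁻¹ * x), hup hx'⟩ v) = _
    rw [← hTx _ hx', hψ, map_smul]
  have hind := (Module.End.independent_iInf_maxGenEigenspace_of_forall_mapsTo T (by
    intro x y φ
    apply Module.End.mapsTo_maxGenEigenspace_of_comm
    apply LinearMap.ext
    intro w
    exact hTcomm y x w)).comp hχinj
  have hlin : LinearIndependent ℂ b := by
    apply hind.linearIndependent _ _ hb0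
    intro i
    show b i ∈ ⨅ x, Module.End.maxGenEigenspace (T x) (χ i x)
    rw [Submodule.mem_iInf]
    intro x
    rw [Module.End.mem_maxGenEigenspace]
    refine ⟨1, ?_⟩
    rw [pow_one]
    have := hbT i x
    simp [this]
  have hcard := hlin.fintype_card_le_finrank
  rw [Fintype.card_fin] at hcard
  refine hn.trans ?_
  exact_mod_cast hcard

end Pool.PL
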