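import Pool.Agent.Work.MP_972ac7_P.Interface1

set_option autoImplicit false

/-! # THEOREM P, block DMG -/

noncomputable section

namespace Pool.PL

variable {k : Type}

/-- the Weyl element -/
def DMG_w [NormedField k] : SL2 k := ⟨!![0, 1; -1, 0], by simp [Matrix.det_fin_two]⟩

theorem DMG_w_mem [NormedField k] [IsUltrametricDist k] (L : LocF k) : DMG_w ∈ KK L 0 := by
  rw [mem_KK]
  refine ⟨?_, ?_⟩
  · unfold nm
    rw [mnm_le]
    intro i j
    fin_cases i <;> fin_cases j <;> simp [DMG_w]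
  · unfold dnm
    rw [mnm_le]
    intro i j
    fin_cases i <;> fin_cases j <;> simp [DMG_w]

theorem DMG_low_mem [NormedField k] [IsUltrametricDist k] (L : LocF k) : low (-1 : k) ∈ KK L 0 := by
  rw [mem_KK]
  refine ⟨?_, ?_⟩
  · unfold nm
    rw [mnm_le]
    intro i j
    fin_cases i <;> fin_cases j <;> simp [low]
  · unfold dnm
    rw [mnm_le]
    intro i j
    fin_cases i <;> fin_cases j <;> simp [low]

theorem DMG_low_eq [NormedField k] (x : k) : low x = DMG_w * upp (-x) * DMG_w⁻¹ := by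
  ext i j
  fin_cases i <;> fin_cases j <;>
    simp [low, DMG_w, upp, Matrix.mul_apply, Fin.sum_univ_two, Matrix.adjugate_fin_two]

theorem DMG_dia_eq [NormedField k] (u : k) (hu : u ≠ 0) :
    dia u hu = low ((u - 1) / u) * (low (-1) * upp (u - 1) * (low (-1))⁻¹) * upp (-((u - 1) / u)) := by
  ext i j
  fin_cases i <;> fin_cases j <;>
    simp [low, dia, upp, Matrix.mul_apply, Fin.sum_univ_two, Matrix.adjugate_fin_two] <;>
    field_simp <;> ring

theorem DMG_dec [NormedField k] (κ : SL2 k) (h : κ.1 0 0 ≠ 0) :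
    κ = low (κ.1 1 0 / κ.1 0 0) * dia (κ.1 0 0) h * upp (κ.1 0 1 / κ.1 0 0) := by
  have hdet : κ.1 0 0 * κ.1 1 1 - κ.1 0 1 * κ.1 1 0 = 1 := by
    have := κ.2
    rwa [Matrix.det_fin_two] at this
  ext i j
  fin_cases i <;> fin_cases j
  · simp [low, dia, upp, Matrix.mul_apply, Fin.sum_univ_two]
  · simp [low, dia, upp, Matrix.mul_apply, Fin.sum_univ_two]
    field_simp
  · simp [low, dia, upp, Matrix.mul_apply, Fin.sum_univ_two]
    field_simp
  · simp [low, dia, upp, Matrix.mul_apply, Fin.sum_univ_two]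
    field_simp
    linear_combination hdet

theorem p_DMG : Stmt_DMG := by
  intro k _ _ L r hr H hH κ hκ
  have hq : (1 : ℝ) < L.q := L.one_lt
  have he1 : ((L.q : ℝ) ^ (r - 1))⁻¹ < 1 := by
    apply inv_lt_one_of_one_lt₀
    exact one_lt_pow₀ hq (by omega)
  rw [mem_KK] at hκ
  obtain ⟨-, h2⟩ := hκ
  unfold dnm at h2
  rw [mnm_le] at h2
  have h00 : ‖κ.1 0 0 - 1‖ ≤ ((L.q : ℝ) ^ (r - 1))⁻¹ := by simpa using h2 0 0
  have h01 : ‖κ.1 0 1‖ ≤ ((L.q : ℝ) ^ (r - 1))⁻¹ := by simpa using h2 0 1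
  have h10 : ‖κ.1 1 0‖ ≤ ((L.q : ℝ) ^ (r - 1))⁻¹ := by simpa using h2 1 0
  have hu1 : ‖κ.1 0 0‖ = 1 := by
    have h3 : ‖κ.1 0 0 - 1‖ < ‖(1 : k)‖ := by
      rw [norm_one]
      exact lt_of_le_of_lt h00 he1
    rw [norm_one] at h3
    apply le_antisymm
    · have h4 := IsUltrametricDist.norm_add_le_max (κ.1 0 0 - 1) 1
      rw [sub_add_cancel, norm_one] at h4
      exact le_trans h4 (max_le h3.le le_rfl)
    · have h4 := IsUltrametricDist.norm_add_le_max (κ.1 0 0) (-(κ.1 0 0 - 1))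
      have h5 : κ.1 0 0 + -(κ.1 0 0 - 1) = 1 := by ring
      rw [h5, norm_one, norm_neg] at h4
      rcases le_max_iff.1 h4 with h6 | h6
      · exact h6
      · exact absurd h3 (not_lt.2 h6)
  have hu0 : κ.1 0 0 ≠ 0 := by
    intro h
    rw [h, norm_zero] at hu1
    exact zero_ne_one hu1
  have hup : ∀ t : k, ‖t‖ ≤ ((L.q : ℝ) ^ (r - 1))⁻¹ → upp t ∈ H := by
    intro t ht
    have := hH 1 (KK L 0).one_mem t ht
    simpa using this
  have hlow : ∀ t : k, ‖t‖ ≤ ((L.q : ℝ) ^ (r - 1))⁻¹ → low t ∈ H := by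
    intro t ht
    rw [DMG_low_eq]
    exact hH _ (DMG_w_mem L) _ (by rwa [norm_neg])
  have hdiv : ∀ x : k, ‖x / κ.1 0 0‖ = ‖x‖ := by
    intro x
    rw [norm_div, hu1, div_one]
  have hdia : dia (κ.1 0 0) hu0 ∈ H := by
    rw [DMG_dia_eq]
    refine H.mul_mem (H.mul_mem (hlow _ ?_) (hH _ (DMG_low_mem L) _ h00)) (hup _ ?_)
    · rw [hdiv]
      exact h00
    · rw [norm_neg, hdiv]
      exact h00
  rw [DMG_dec κ hu0]
  refine H.mul_mem (H.mul_mem (hlow _ ?_) hdia) (hup _ ?_)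
  · rw [hdiv]
    exact h10
  · rw [hdiv]
    exact h01

end Pool.PL
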