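import Pool.Agent.Work.MP_972ac7_P.Interface1

set_option autoImplicit false

/-! # THEOREM P, block DMS -/

noncomputable section

namespace Pool.PL

theorem DMS_sub {k : Type} [NormedField k] [IsUltrametricDist k] (x y : k) :
    ‖x - y‖ ≤ max ‖x‖ ‖y‖ := by
  have h := IsUltrametricDist.norm_add_le_max x (-y)
  rwa [← sub_eq_add_neg, norm_neg] at h

/-- counting residues in a ball -/
theorem DMS_cnt (hRES : Stmt_RES) {k : Type} [NormedField k] [IsUltrametricDist k] (L : LocF k)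
    (r e N : ℕ) (R : Fin N → k)
    (hinj : ∀ i j, ‖R i - R j‖ ≤ ((L.q : ℝ) ^ r)⁻¹ → i = j) (z w : k) (hw : w ≠ 0)
    (hwe : ‖w‖ * ((L.q : ℝ) ^ e)⁻¹ ≤ ((L.q : ℝ) ^ r)⁻¹) (s : Finset (Fin N))
    (hs : ∀ i ∈ s, ‖R i - z‖ ≤ ‖w‖) : s.card ≤ L.q ^ e := by
  obtain ⟨R', -, -, hR'⟩ := hRES k L e
  have hw0 : 0 < ‖w‖ := norm_pos_iff.2 hw
  have h1 : ∀ i : s, ∃ j, ‖(R i - z) / w - R' j‖ ≤ ((L.q : ℝ) ^ e)⁻¹ := by
    intro i
    apply hR'
    rw [norm_div, div_le_one hw0]
    exact hs i i.2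
  choose f hf using h1
  have h2 : Function.Injective f := by
    intro i i' h
    apply Subtype.ext
    apply hinj
    have h3 : ‖(R i - z) / w - (R i' - z) / w‖ ≤ ((L.q : ℝ) ^ e)⁻¹ := by
      have h4 : (R i - z) / w - (R i' - z) / w =
          ((R i - z) / w - R' (f i)) - ((R i' - z) / w - R' (f i')) := by
        rw [h]
        ring
      rw [h4]
      exact le_trans (DMS_sub _ _) (max_le (hf i) (hf i'))
    have h5 : (R i : k) - R i' = w * ((R i - z) / w - (R i' - z) / w) := by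
      field_simp
      ring
    rw [h5, norm_mul]
    exact le_trans (mul_le_mul_of_nonneg_left h3 hw0.le) hwe
  have h6 := Fintype.card_le_of_injective f h2
  simpa using h6

theorem p_DMS (hRES : Stmt_RES) : Stmt_DMS := by
  intro k _ _ L h2
  classical
  have hq : (1 : ℝ) < L.q := L.one_lt
  have hq0 : (0 : ℝ) < L.q := L.q_pos
  -- the norm of two
  obtain ⟨e, he⟩ : ∃ e : ℕ, ‖(2 : k)‖ = ((L.q : ℝ) ^ e)⁻¹ := by
    obtain ⟨n, hn⟩ := L.disc 2 h2
    have h1 : ‖(2 : k)‖ ≤ 1 := by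
      have := IsUltrametricDist.norm_natCast_le_one k 2
      simpa using this
    have h3 : n ≤ 0 := by
      by_contra h
      rw [not_le] at h
      have : (1 : ℝ) < (L.q : ℝ) ^ n := one_lt_zpow₀ hq h
      rw [hn] at h1
      linarith
    refine ⟨(-n).toNat, ?_⟩
    rw [hn, ← zpow_natCast, ← zpow_neg, Int.toNat_of_nonneg (by omega), neg_neg]
  refine ⟨(4 * (L.q : ℝ) ^ e)⁻¹, by positivity, ?_⟩
  intro r hr
  obtain ⟨R, hR1, hR2, hR3⟩ := hRES k L r
  have hR4 : ∀ i : Fin (L.q ^ r), ∃ j, ‖R i ^ 2 - R j‖ ≤ ((L.q : ℝ) ^ r)⁻¹ := by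
    intro i
    apply hR3
    rw [norm_pow]
    exact pow_le_one₀ (norm_nonneg _) (hR1 i)
  choose F hF using hR4
  have hFeq : ∀ i j, ‖R i ^ 2 - R j ^ 2‖ ≤ ((L.q : ℝ) ^ r)⁻¹ → F i = F j := by
    intro i j h
    apply hR2
    have h1 : R (F i) - R (F j) = (R i ^ 2 - R j ^ 2) - (R i ^ 2 - R (F i)) + (R j ^ 2 - R (F j)) := by
      ring
    rw [h1]
    refine le_trans (IsUltrametricDist.norm_add_le_max _ _) (max_le ?_ (hF j))
    exact le_trans (DMS_sub _ _) (max_le h (hF i))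
  have hFeq' : ∀ i j, F i = F j → ‖R i ^ 2 - R j ^ 2‖ ≤ ((L.q : ℝ) ^ r)⁻¹ := by
    intro i j h
    have h1 : R i ^ 2 - R j ^ 2 = (R i ^ 2 - R (F i)) - (R j ^ 2 - R (F j)) := by
      rw [h]
      ring
    rw [h1]
    exact le_trans (DMS_sub _ _) (max_le (hF i) (hF j))
  -- units and non units
  set U : Finset (Fin (L.q ^ r)) := Finset.univ.filter fun i => ‖R i‖ = 1 with hU
  set V : Finset (Fin (L.q ^ r)) := Finset.univ.filter fun i => ¬ ‖R i‖ = 1 with hV
  have hUV : U.card + V.card = L.q ^ r := by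
    have := Finset.card_filter_add_card_filter_not (s := (Finset.univ : Finset (Fin (L.q ^ r))))
      (fun i => ‖R i‖ = 1)
    rw [Finset.card_univ, Fintype.card_fin] at this
    exact this
  have hVc : V.card ≤ L.q ^ (r - 1) := by
    refine DMS_cnt hRES L r (r - 1) _ R hR2 0 L.ϖ L.ϖ_ne ?_ V ?_
    · rw [L.norm_ϖ, ← mul_inv, ← pow_succ', Nat.sub_add_cancel hr]
    · intro i hi
      rw [hV, Finset.mem_filter] at hi
      have h1 : ‖R i‖ < 1 := lt_of_le_of_ne (hR1 i) hi.2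
      rw [sub_zero, L.norm_ϖ]
      by_cases h0 : R i = 0
      · rw [h0, norm_zero]
        positivity
      · obtain ⟨n, hn⟩ := L.disc _ h0
        have h3 : n < 0 := by
          by_contra h
          rw [not_lt] at h
          have : (1 : ℝ) ≤ (L.q : ℝ) ^ n := one_le_zpow₀ hq.le h
          rw [hn] at h1
          linarith
        rw [hn, ← zpow_neg_one]
        exact zpow_le_zpow_right₀ hq.le (by omega)
  have hfib : ∀ a ∈ U.image F, (U.filter fun x => F x = a).card ≤ 2 * L.q ^ e := by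
    intro a ha
    rw [Finset.mem_image] at ha
    obtain ⟨i, hi, hia⟩ := ha
    set w : k := L.ϖ ^ r / L.ϖ ^ e with hw
    have hwn : ‖w‖ = ((L.q : ℝ) ^ r)⁻¹ * (L.q : ℝ) ^ e := by
      rw [hw, norm_div, norm_pow, norm_pow, L.norm_ϖ, inv_pow, inv_pow, div_eq_mul_inv, inv_inv]
    have hw0 : w ≠ 0 := div_ne_zero (pow_ne_zero _ L.ϖ_ne) (pow_ne_zero _ L.ϖ_ne)
    have hwe : ‖w‖ * ((L.q : ℝ) ^ e)⁻¹ ≤ ((L.q : ℝ) ^ r)⁻¹ := by
      rw [hwn, mul_assoc, mul_inv_cancel₀ (by positivity), mul_one]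
    have h1 : (U.filter fun x => F x = a) ⊆
        (Finset.univ.filter fun x => ‖R x - R i‖ ≤ ‖w‖) ∪
          (Finset.univ.filter fun x => ‖R x - (-R i)‖ ≤ ‖w‖) := by
      intro x hx
      rw [Finset.mem_filter] at hx
      have h3 := hFeq' x i (by rw [hx.2, hia])
      have h4 : R x ^ 2 - R i ^ 2 = (R x - R i) * (R x - (-R i)) := by ring
      rw [h4, norm_mul] at h3
      have hi1 : ‖R i‖ = 1 := by
        rw [hU, Finset.mem_filter] at hi
        exact hi.2
      have h5 : ((L.q : ℝ) ^ e)⁻¹ ≤ max ‖R x - R i‖ ‖R x - (-R i)‖ := by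
        have h6 : (2 : k) * R i = -((R x - R i) - (R x - (-R i))) := by ring
        have h7 : ‖(2 : k) * R i‖ ≤ max ‖R x - R i‖ ‖R x - (-R i)‖ := by
          rw [h6, norm_neg]
          exact DMS_sub _ _
        rwa [norm_mul, hi1, mul_one, he] at h7
      rw [Finset.mem_union, Finset.mem_filter, Finset.mem_filter]
      have hqe : (0 : ℝ) < (L.q : ℝ) ^ e := by positivity
      rcases le_max_iff.1 h5 with h6 | h6
      · right
        refine ⟨Finset.mem_univ _, ?_⟩
        rw [hwn]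
        have h7 : ((L.q : ℝ) ^ e)⁻¹ * ‖R x - (-R i)‖ ≤ ((L.q : ℝ) ^ r)⁻¹ :=
          le_trans (mul_le_mul_of_nonneg_right h6 (norm_nonneg _)) h3
        rw [inv_mul_le_iff₀ hqe] at h7
        linarith
      · left
        refine ⟨Finset.mem_univ _, ?_⟩
        rw [hwn]
        have h7 : ‖R x - R i‖ * ((L.q : ℝ) ^ e)⁻¹ ≤ ((L.q : ℝ) ^ r)⁻¹ :=
          le_trans (mul_le_mul_of_nonneg_left h6 (norm_nonneg _)) h3
        rw [mul_inv_le_iff₀ hqe] at h7
        exact h7
    refine le_trans (Finset.card_le_card h1) (le_trans (Finset.card_union_le _ _) ?_)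
    rw [two_mul]
    refine add_le_add ?_ ?_
    · exact DMS_cnt hRES L r e _ R hR2 (R i) w hw0 hwe _ (by
        intro x hx
        rw [Finset.mem_filter] at hx
        exact hx.2)
    · exact DMS_cnt hRES L r e _ R hR2 (-R i) w hw0 hwe _ (by
        intro x hx
        rw [Finset.mem_filter] at hx
        exact hx.2)
  have hcard := Finset.card_le_mul_card_image (f := F) U (2 * L.q ^ e) hfib
  -- representatives
  have hrep : ∀ a : (U.image F), ∃ i, i ∈ U ∧ F i = a := by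
    intro a
    have := a.2
    rw [Finset.mem_image] at this
    exact this
  choose g hg1 hg2 using hrep
  refine ⟨(U.image F).card, fun t => R (g ((U.image F).equivFin.symm t)), ?_, ?_, ?_⟩
  · have h1 : L.q ^ r ≤ 2 * L.q ^ e * (U.image F).card + L.q ^ (r - 1) := by
      omega
    have h3 : 2 * L.q ^ (r - 1) ≤ L.q ^ r := by
      have : L.q ^ r = L.q * L.q ^ (r - 1) := by
        rw [← pow_succ', Nat.sub_add_cancel hr]
      rw [this]
      exact Nat.mul_le_mul_right _ L.two_le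
    have h4 : L.q ^ r ≤ 4 * L.q ^ e * (U.image F).card := by
      nlinarith
    have h5 : (L.q : ℝ) ^ r ≤ 4 * (L.q : ℝ) ^ e * ((U.image F).card : ℝ) := by
      exact_mod_cast h4
    rw [inv_mul_le_iff₀ (by positivity)]
    exact h5
  · intro t
    exact (Finset.mem_filter.1 (hg1 ((U.image F).equivFin.symm t))).2
  · intro s t h
    have h1 := hFeq _ _ h
    rw [hg2, hg2] at h1
    exact (U.image F).equivFin.symm.injective (Subtype.ext h1)

end Pool.PL
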