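import Pool.Agent.Work.MP_972ac7_P.Interface1

set_option autoImplicit false

/-! # Block DNS: density of the projections (helper70) -/

open MeasureTheory

noncomputable section

namespace Pool.PL

open Pool.TFD Pool.TC

/-- the image in `G ⧸ Γ` of the set of the `y` whose components `i ≠ P` are in `KK t` -/
def DNS_A {ι : Type} {k : ι → Type} [∀ i, NormedField (k i)]
    [∀ i, IsUltrametricDist (k i)] (L : ∀ i, LocF (k i)) (Γ : Subgroup (GG k)) (P : ι) (t : ℕ) :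
    Set (GG k ⧸ Γ) :=
  {x | ∃ y : GG k, (QuotientGroup.mk y : GG k ⧸ Γ) = x ∧ ∀ i, i ≠ P → y i ∈ KK (L i) t}

lemma DNS_smul {ι : Type} {k : ι → Type} [∀ i, NormedField (k i)]
    [∀ i, IsUltrametricDist (k i)] (L : ∀ i, LocF (k i)) (Γ : Subgroup (GG k)) (P : ι) (t : ℕ)
    (κ : GG k) (hκ : ∀ i, i ≠ P → κ i ∈ KK (L i) t) {x : GG k ⧸ Γ} (hx : x ∈ DNS_A L Γ P t) :
    κ • x ∈ DNS_A L Γ P t := by
  obtain ⟨y, rfl, hy⟩ := hx
  refine ⟨κ * y, rfl, fun i hi => ?_⟩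
  exact (KK (L i) t).mul_mem (hκ i hi) (hy i hi)

open Classical in
/-- its indicator function -/
def DNS_f {ι : Type} {k : ι → Type} [∀ i, NormedField (k i)]
    [∀ i, IsUltrametricDist (k i)] (L : ∀ i, LocF (k i)) (Γ : Subgroup (GG k)) (P : ι) (t : ℕ) :
    GG k ⧸ Γ → ℂ :=
  fun x => if x ∈ DNS_A L Γ P t then 1 else 0

lemma DNS_tr {ι : Type} {k : ι → Type} [∀ i, NormedField (k i)]
    [∀ i, IsUltrametricDist (k i)] (L : ∀ i, LocF (k i)) (Γ : Subgroup (GG k)) (P : ι) (t : ℕ)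
    (κ : GG k) (hκ : ∀ i, i ≠ P → κ i ∈ KK (L i) t) :
    tr κ (DNS_f L Γ P t) = DNS_f L Γ P t := by
  funext x
  unfold tr DNS_f
  have h1 : κ⁻¹ • x ∈ DNS_A L Γ P t ↔ x ∈ DNS_A L Γ P t := by
    constructor
    · intro h
      have h2 := DNS_smul L Γ P t κ hκ h
      rwa [smul_inv_smul] at h2
    · exact DNS_smul L Γ P t κ⁻¹ (fun i hi => (KK (L i) t).inv_mem (hκ i hi))
  by_cases h : x ∈ DNS_A L Γ P t
  · rw [if_pos h, if_pos (h1.2 h)]
  · rw [if_neg h, if_neg (fun h2 => h (h1.1 h2))]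

theorem p_DNS (hERG : Stmt_ERG) (hPTO : Stmt_PTO) (_hPNR : Stmt_PNR) (hMEX : Stmt_MEX) :
    Stmt_DNS := by
  intro ι _ _ k _ _ _ L Γ m hLat hm hinv h2 P
  -- everything is in `K t * Γ` up to the factor `P`
  have key : ∀ (t : ℕ) (x : GG k), ∃ y : GG k, (∀ i, i ≠ P → y i ∈ KK (L i) t) ∧
      y⁻¹ * x ∈ Γ := by
    intro t
    obtain ⟨M, hM1, hM2⟩ := hMEX (L P).q (L P).two_le
    obtain ⟨c, hc⟩ := hERG ι k L Γ m hLat hm hinv h2 P M hM1 hM2
      (Function.update (fun _ => t) P 0) (Function.update_self _ _ _) (DNS_f L Γ P t)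
      (by
        rw [mem_Inv]
        intro κ hκ
        apply DNS_tr
        intro i hi
        have h3 := mem_KG.1 hκ i
        rwa [Function.update_of_ne hi] at h3)
      (by
        apply DNS_tr
        intro i hi
        unfold aW
        rw [Pi.mulSingle_eq_of_ne hi]
        exact (KK (L i) t).one_mem)
    have h1 : DNS_f L Γ P t (QuotientGroup.mk 1) = 1 := by
      unfold DNS_f
      rw [if_pos]
      exact ⟨1, rfl, fun i _ => (KK (L i) t).one_mem⟩
    have hc1 : c = 1 := by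
      rw [← h1, hc]
    intro x
    have h3 : DNS_f L Γ P t (QuotientGroup.mk x) = 1 := by
      rw [hc, hc1]
    have h4 : (QuotientGroup.mk x : GG k ⧸ Γ) ∈ DNS_A L Γ P t := by
      by_contra h5
      unfold DNS_f at h3
      rw [if_neg h5] at h3
      exact zero_ne_one h3
    obtain ⟨y, hy1, hy2⟩ := h4
    exact ⟨y, hy2, QuotientGroup.eq.1 hy1⟩
  -- density
  intro g
  rw [mem_closure_iff]
  intro o ho hgo
  have hnhds : {x : GG (fun i : {i : ι // i ≠ P} => k i.1) | x * g ∈ o} ∈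
      nhds (1 : GG (fun i : {i : ι // i ≠ P} => k i.1)) := by
    have hcont : Continuous (fun x : GG (fun i : {i : ι // i ≠ P} => k i.1) => x * g) :=
      continuous_id.mul continuous_const
    apply (ho.preimage hcont).mem_nhds
    change (1 : GG (fun i : {i : ι // i ≠ P} => k i.1)) * g ∈ o
    rw [one_mul]
    exact hgo
  obtain ⟨t, ht⟩ := (hPTO {i : ι // i ≠ P} (fun i => k i.1) (fun i => L i.1)).2.2.2.2.2 _ hnhds
  obtain ⟨y, hy1, hy2⟩ := key t (fun i => if h : i ≠ P then g ⟨i, h⟩ else 1)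
  refine ⟨_, ?_, ⟨⟨_, hy2⟩, rfl⟩⟩
  have h5 : (fun i : {i : ι // i ≠ P} => (y⁻¹ : GG k) i.1) ∈
      KG (fun i : {i : ι // i ≠ P} => L i.1) (fun _ => t) := by
    rw [mem_KG]
    intro i
    exact (KK (L i.1) t).inv_mem (hy1 i.1 i.2)
  have h6 := ht h5
  have h7 : (fun i : {i : ι // i ≠ P} => (y⁻¹ : GG k) i.1) * g ∈ o := h6
  convert h7 using 1
  funext i
  change (y i.1)⁻¹ * (if h : i.1 ≠ P then g ⟨i.1, h⟩ else 1) = (y i.1)⁻¹ * g i
  rw [dif_pos i.2]

end Pool.PL
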