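import Pool.Agent.Work.MP_972ac7_P.Interface1

set_option autoImplicit false

/-! # THEOREM P, block DSC: discreteness and representatives of the double cosets -/

open MeasureTheory

noncomputable section

namespace Pool.PL

/-- representatives of the double cosets -/
theorem DSC_reps {G : Type} [Group G] (Γ K K0 : Subgroup G)
    (hn : ∀ κ ∈ K0, ∀ x ∈ K, κ * x * κ⁻¹ ∈ K) (hf : K.relIndex K0 ≠ 0) (N : ℕ) (g : Fin N → G)
    (hg : ∀ x : G, ∃ i, ∃ κ ∈ K0, ∃ γ ∈ Γ, x = κ * g i * γ)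
    (htr : ∀ x : G, ∀ γ ∈ Γ, x * γ * x⁻¹ ∈ K → γ = 1) :
    ∃ (N' : ℕ) (h : Fin N' → G), (∀ x : G, ∃ i, ∃ κ ∈ K, ∃ γ ∈ Γ, x = κ * h i * γ) ∧
      (∀ i j, ∀ κ ∈ K, ∀ γ ∈ Γ, κ * h i * γ = h j → i = j ∧ κ = 1 ∧ γ = 1) := by
  classical
  let r : Setoid G :=
    { r := fun x y => ∃ κ ∈ K, ∃ γ ∈ Γ, y = κ * x * γ
      iseqv :=
        { refl := fun x => ⟨1, K.one_mem, 1, Γ.one_mem, by simp⟩
          symm := by
            rintro x y ⟨κ, hκ, γ, hγ, rfl⟩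
            exact ⟨κ⁻¹, K.inv_mem hκ, γ⁻¹, Γ.inv_mem hγ, by group⟩
          trans := by
            rintro x y z ⟨κ, hκ, γ, hγ, rfl⟩ ⟨κ', hκ', γ', hγ', rfl⟩
            exact ⟨κ' * κ, K.mul_mem hκ' hκ, γ * γ', Γ.mul_mem hγ hγ', by group⟩ } }
  have hQ0 : Finite (K0 ⧸ K.subgroupOf K0) := Nat.finite_of_card_ne_zero hf
  let F : Fin N × (K0 ⧸ K.subgroupOf K0) → Quotient r :=
    fun p => Quotient.mk r (((Quotient.out p.2 : K0) : G) * g p.1)
  have hF : Function.Surjective F := by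
    intro c
    obtain ⟨x, rfl⟩ := Quotient.exists_rep c
    obtain ⟨i, κ, hκ, γ, hγ, hx⟩ := hg x
    obtain ⟨u, hu⟩ := QuotientGroup.mk_out_eq_mul (K.subgroupOf K0) (⟨κ, hκ⟩ : K0)
    refine ⟨(i, QuotientGroup.mk (⟨κ, hκ⟩ : K0)), ?_⟩
    apply Quotient.sound
    have hu2 : ((u : K0) : G) ∈ K := Subgroup.mem_subgroupOf.mp u.2
    have hu3 : ((Quotient.out (QuotientGroup.mk (⟨κ, hκ⟩ : K0) : K0 ⧸ K.subgroupOf K0) : K0) : G) =
        κ * ((u : K0) : G) := by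
      have := congrArg (fun z : K0 => (z : G)) hu
      exact this
    show ∃ κ' ∈ K, ∃ γ' ∈ Γ, x = κ' * (((Quotient.out (QuotientGroup.mk (⟨κ, hκ⟩ : K0) :
      K0 ⧸ K.subgroupOf K0) : K0) : G) * g i) * γ'
    refine ⟨κ * ((u : K0) : G)⁻¹ * κ⁻¹, hn κ hκ _ (K.inv_mem hu2), γ, hγ, ?_⟩
    rw [hu3, hx]
    group
  have hfin : Finite (Quotient r) := Finite.of_surjective F hF
  obtain ⟨N', ⟨e⟩⟩ := Finite.exists_equiv_fin (Quotient r)
  refine ⟨N', fun i => Quotient.out (e.symm i), fun x => ?_, fun i j κ hκ γ hγ hij => ?_⟩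
  · refine ⟨e (Quotient.mk r x), ?_⟩
    have h1 : Quotient.mk r (Quotient.out (Quotient.mk r x)) = Quotient.mk r x := Quotient.out_eq _
    have h2 := Quotient.exact h1
    obtain ⟨κ, hκ, γ, hγ, h3⟩ := h2
    refine ⟨κ, hκ, γ, hγ, ?_⟩
    show x = κ * Quotient.out (e.symm (e (Quotient.mk r x))) * γ
    rw [Equiv.symm_apply_apply]
    exact h3
  · have h1 : Quotient.mk r (Quotient.out (e.symm i)) = Quotient.mk r (Quotient.out (e.symm j)) :=
      Quotient.sound ⟨κ, hκ, γ, hγ, hij.symm⟩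
    rw [Quotient.out_eq, Quotient.out_eq] at h1
    have h2 : i = j := e.symm.injective h1
    subst h2
    set x : G := Quotient.out (e.symm i) with hx
    have h3 : x * γ * x⁻¹ = κ⁻¹ := by
      have h4 : x * γ = κ⁻¹ * x := by
        rw [eq_inv_mul_iff_mul_eq, ← mul_assoc]
        exact hij
      rw [h4]
      group
    have h5 : γ = 1 := htr x γ hγ (by rw [h3]; exact K.inv_mem hκ)
    refine ⟨rfl, ?_, h5⟩
    rw [h5] at h3
    have h6 : κ⁻¹ = 1 := by rw [← h3]; group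
    exact inv_eq_one.mp h6

theorem p_DSC (hPTO : Stmt_PTO) (hPNR : Stmt_PNR) : Stmt_DSC := by
  classical
  intro ι _ _ k _ _ _ L Γ hnt hLat
  obtain ⟨hnorm, hmono, hrel, -, -, hone⟩ := hPNR ι k L
  obtain ⟨-, -, -, -, hopen, -⟩ := hPTO ι k L
  obtain ⟨W, v, hWv⟩ := exists_pair_ne ι
  obtain ⟨N, g, hg⟩ := hLat.classes
  -- the finite sets
  have hfin : ∀ i, (cset L Γ W v (g i) 0 0).Finite := by
    intro i
    obtain ⟨C, -, hC⟩ := hLat.count W v hWv (g i)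
    exact (hC 0 0).1
  have hmem : ∀ i, ∀ γ : Γ, g i * γ * (g i)⁻¹ ∈ KG L 0 → γ ∈ cset L Γ W v (g i) 0 0 := by
    intro i γ hγ
    rw [mem_KG] at hγ
    refine ⟨hγ v, ?_, fun u _ _ => hγ u⟩
    rw [pow_zero]
    exact (mem_KK.mp (hγ W)).1
  -- the level
  have hlev : ∀ i, ∀ γ : Γ, ∃ s : ι → ℕ, γ ≠ 1 → g i * γ * (g i)⁻¹ ∉ KG L s := by
    intro i γ
    by_cases hγ : γ = 1
    · exact ⟨0, fun h => absurd hγ h⟩
    · by_contra hcon
      push Not at hcon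
      have h1 : g i * γ * (g i)⁻¹ = 1 := hone _ fun s => (hcon s).2
      apply hγ
      have h2 : ((γ : Γ) : GG k) = 1 := by
        have h3 : (γ : GG k) = (g i)⁻¹ * (g i * γ * (g i)⁻¹) * g i := by group
        rw [h3, h1]
        group
      exact_mod_cast h2
  choose s₀ hs₀ using hlev
  set s : ι → ℕ := Finset.univ.sup fun i => (hfin i).toFinset.sup (s₀ i) with hs
  have hstar : ∀ i, ∀ γ : Γ, g i * γ * (g i)⁻¹ ∈ KG L s → γ = 1 := by
    intro i γ hγ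
    by_contra hne
    have h0 : g i * γ * (g i)⁻¹ ∈ KG L 0 := hmono 0 s (fun _ => Nat.zero_le _) hγ
    have h1 := hmem i γ h0
    have h2 : s₀ i γ ≤ s := by
      rw [hs]
      refine le_trans ?_ (Finset.le_sup (f := fun i => (hfin i).toFinset.sup (s₀ i))
        (Finset.mem_univ i))
      exact Finset.le_sup (f := s₀ i) ((hfin i).mem_toFinset.mpr h1)
    exact hs₀ i γ hne (hmono _ _ h2 hγ)
  have htr : ∀ x : GG k, ∀ γ ∈ Γ, x * γ * x⁻¹ ∈ KG L s → γ = 1 := by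
    intro x γ hγ hx
    obtain ⟨i, κ, hκ, γ', hγ', hx'⟩ := hg x
    have h1 : g i * (γ' * γ * γ'⁻¹) * (g i)⁻¹ ∈ KG L s := by
      have h2 := hnorm s κ⁻¹ ((KG L 0).inv_mem hκ) _ hx
      have h3 : κ⁻¹ * (x * γ * x⁻¹) * κ⁻¹⁻¹ = g i * (γ' * γ * γ'⁻¹) * (g i)⁻¹ := by
        rw [hx']
        group
      rwa [h3] at h2
    have h4 : (⟨γ' * γ * γ'⁻¹, Γ.mul_mem (Γ.mul_mem hγ' hγ) (Γ.inv_mem hγ')⟩ : Γ) = 1 :=
      hstar i _ h1
    have h5 : γ' * γ * γ'⁻¹ = 1 := congrArg (fun z : Γ => (z : GG k)) h4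
    have h6 : γ = γ'⁻¹ * (γ' * γ * γ'⁻¹) * γ' := by group
    rw [h6, h5]
    group
  refine ⟨?_, s, DSC_reps Γ (KG L s) (KG L 0) (hnorm s) (hrel s) N g hg htr⟩
  apply discreteTopology_of_isOpen_singleton_one
  have h1 : ({1} : Set Γ) = (fun γ : Γ => (γ : GG k)) ⁻¹' (KG L s : Set (GG k)) := by
    ext γ
    constructor
    · intro h
      have h2 : γ = 1 := h
      rw [h2]
      exact (KG L s).one_mem
    · intro h
      have h2 : (1 : GG k) * γ * (1 : GG k)⁻¹ ∈ KG L s := by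
        rw [one_mul, inv_one, mul_one]
        exact h
      have h3 := htr 1 γ γ.2 h2
      show γ = 1
      exact_mod_cast h3
  rw [h1]
  exact (hopen s).1.preimage continuous_subtype_val

end Pool.PL
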