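import Pool.Agent.Work.MP_972ac7_P.Interface2
import Pool.Agent.Work.MP_972ac7_C.B_QUF

set_option autoImplicit false

/-! # Block END -/

open MeasureTheory NumberField IsDedekindDomain
open scoped Quaternion

noncomputable section

namespace Pool.PL

open Pool.TFD Pool.TC

/-- the split primes dividing `n` -/
abbrev END_I {F : Type} [Field F] [NumberField F] (a b n : 𝓞 F) : Type :=
  {w : HeightOneSpectrum (𝓞 F) // n ∈ w.asIdeal ∧ SplitAt a b w}

/-- the completions -/
abbrev END_k {F : Type} [Field F] [NumberField F] (a b n : 𝓞 F) (i : END_I a b n) : Type :=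
  i.1.adicCompletion F

theorem p_END (hTRN : Stmt_TRN) (hPFM : Stmt_PFM) (hADC : Stmt_ADC) (hANI : Stmt_ANI)
    (hINJ : Stmt_INJ) (hCNT : Stmt_CNT) (hCL3 : Stmt_CL3) (hFIN : Stmt_FIN) : Stmt_END := by
  classical
  intro F _ _ _ a b n ha hb hn hvw
  have hTR : TR F := hTRN F
  have hσ : Nonempty (F →+* ℝ) := by
    have h1 := hTR.card
    have h2 : 0 < Module.finrank ℚ F := Module.finrank_pos
    rw [← h1] at h2
    exact Fintype.card_pos_iff.1 h2
  obtain ⟨σ₀⟩ := hσ
  have ha0 : (a : F) ≠ 0 := by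
    intro h
    have := ha σ₀
    rw [h, map_zero] at this
    exact lt_irrefl _ this
  have hfin : Finite (END_I a b n) := by
    have h1 := (hPFM F hTR).2.2.2 n hn
    exact (h1.subset (fun w (hw : n ∈ w.asIdeal ∧ SplitAt a b w) => hw.1)).to_subtype
  haveI : Fintype (END_I a b n) := Fintype.ofFinite _
  have hnt : Nontrivial (END_I a b n) := by
    obtain ⟨v, w, hne, hv, hw, hsv, hsw⟩ := hvw
    exact ⟨⟨⟨v, hv, hsv⟩, ⟨w, hw, hsw⟩, fun h => hne (congrArg Subtype.val h)⟩⟩
  haveI hU : ∀ i, IsUltrametricDist (END_k a b n i) := fun i => (hADC F i.1).1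
  haveI hP : ∀ i, ProperSpace (END_k a b n i) := fun i => (hADC F i.1).2.1
  have h2 : ∀ i, (2 : END_k a b n i) ≠ 0 := fun i => (hADC F i.1).2.2.1
  have he : ∀ w : HeightOneSpectrum (𝓞 F), ∀ x : F,
      ‖(algebraMap F (w.adicCompletion F) x)‖ = av w x := fun w => (hADC F w).2.2.2.1
  have ho : ∀ w : HeightOneSpectrum (𝓞 F), ∀ x : 𝓞 F, algebraMap (𝓞 F) (w.adicCompletion F) x =
      algebraMap F (w.adicCompletion F) (x : F) := fun w => (hADC F w).2.2.2.2.1
  have hLx : ∀ w : HeightOneSpectrum (𝓞 F), ∃ L : LocF (w.adicCompletion F),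
      L.q = Ideal.absNorm w.asIdeal := fun w => (hADC F w).2.2.2.2.2
  choose LL hLL using hLx
  have hsp : ∀ i : END_I a b n, ∃ x y : END_k a b n i,
      x ^ 2 - (algebraMap F (END_k a b n i)) (a : F) * y ^ 2 =
        (algebraMap F (END_k a b n i)) (b : F) := by
    intro i
    obtain ⟨x, y, h⟩ := i.2.2
    refine ⟨x, y, ?_⟩
    rw [ho, ho] at h
    exact h
  choose X Y hXY using hsp
  have hnsp : ∀ w : HeightOneSpectrum (𝓞 F), n ∈ w.asIdeal →
      (∀ i : END_I a b n, w ≠ i.1) →
      ∃ C : ℝ, ∀ z : ℍ[F, (a : F), (b : F)], nrq z = 1 → CB w z C := by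
    intro w hw hwi
    have hns : ¬ SplitAt a b w := fun h => hwi ⟨w, hw, h⟩ rfl
    obtain ⟨hUw, hPw, h2w, hew, how, L, hL⟩ := hADC F w
    haveI := hPw
    have hinj : Function.Injective (algebraMap F (w.adicCompletion F)) :=
      (algebraMap F (w.adicCompletion F)).injective
    have haw : (algebraMap F (w.adicCompletion F)) (a : F) ≠ 0 :=
      (map_ne_zero _).2 ha0
    have hnex : ¬ ∃ x y : w.adicCompletion F,
        x ^ 2 - (algebraMap F (w.adicCompletion F)) (a : F) * y ^ 2 =
          (algebraMap F (w.adicCompletion F)) (b : F) := by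
      rintro ⟨x, y, h⟩
      apply hns
      refine ⟨x, y, ?_⟩
      rw [how, how]
      exact h
    obtain ⟨C, hC⟩ := hANI (w.adicCompletion F) L h2w _ _ haw hnex
    refine ⟨C, fun z hz => ?_⟩
    have hz' : (algebraMap F (w.adicCompletion F)) (nrq z) = 1 := by
      rw [hz, map_one]
    have h3 := hC ![(algebraMap F (w.adicCompletion F)) z.re,
      (algebraMap F (w.adicCompletion F)) z.imI,
      (algebraMap F (w.adicCompletion F)) z.imJ,
      (algebraMap F (w.adicCompletion F)) z.imK] (by
        rw [← hz']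
        simp [nrq])
    refine ⟨?_, ?_, ?_, ?_⟩
    · rw [← hew]
      simpa using h3 0
    · rw [← hew]
      simpa using h3 1
    · rw [← hew]
      simpa using h3 2
    · rw [← hew]
      simpa using h3 3
  let D : Ctx F (END_I a b n) (END_k a b n) :=
    { tr := hTR
      a := a
      b := b
      n := n
      ha := ha
      hb := hb
      hn := hn
      v := fun i => i.1
      inj := Subtype.val_injective
      e := fun i => algebraMap F (END_k a b n i)
      he := fun i x => he i.1 x
      L := fun i => LL i.1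
      hq := fun i => hLL i.1
      x := X
      y := Y
      spl := hXY
      div := fun i => i.2.1
      nsp := hnsp }
  have hlat : Lat D.L D.Γ :=
    { classes := hCL3 F (END_I a b n) (END_k a b n) D
      count := fun W v hWv g => hCNT F (END_I a b n) (END_k a b n) D W v hWv g }
  have hg : FTGap D.Γ := hFIN (END_I a b n) (END_k a b n) D.L D.Γ hnt hlat h2
  obtain ⟨E⟩ := (hINJ F (END_I a b n) (END_k a b n) D hnt.to_nonempty).2
  exact p_QUF D.Γ (GU a b n) E.toMonoidHom E.surjective hg

end Pool.PL
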