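import Pool.Agent.Work.MP_972ac7_P.Interface1

set_option autoImplicit false

/-! # Block ERG: ergodicity (helper25) -/

open MeasureTheory

noncomputable section

namespace Pool.PL

open Pool.TFD Pool.TC

/-- the stabilizer of a function -/
def ERG_st {G : Type} [Group G] {Γ : Subgroup G} (f : G ⧸ Γ → ℂ) : Subgroup G where
  carrier := {g | tr g f = f}
  mul_mem' := by
    intro a b ha hb
    change tr (a * b) f = f
    rw [tr_mul]
    rw [show tr b f = f from hb]
    exact ha
  one_mem' := tr_one f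
  inv_mem' := by
    intro a ha
    change tr a⁻¹ f = f
    have h1 : tr a⁻¹ (tr a f) = f := by
      rw [← tr_mul, inv_mul_cancel, tr_one]
    rwa [show tr a f = f from ha] at h1

lemma ERG_mem {G : Type} [Group G] {Γ : Subgroup G} (f : G ⧸ Γ → ℂ) (g : G) :
    g ∈ ERG_st f ↔ tr g f = f := Iff.rfl

lemma ERG_comm {G : Type} [Group G] {Γ : Subgroup G} (f : G ⧸ Γ → ℂ) (a g : G)
    (h : a * g = g * a) (ha : tr a f = f) : tr a (tr g f) = tr g f := by
  rw [← tr_mul, h, tr_mul, ha]

lemma ERG_com {ι : Type} [DecidableEq ι] {k : ι → Type} [∀ i, NormedField (k i)]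
    (W v : ι) (h : W ≠ v) (x : SL2 (k W)) (y : SL2 (k v)) :
    (Pi.mulSingle W x : GG k) * Pi.mulSingle v y = Pi.mulSingle v y * Pi.mulSingle W x := by
  have h1 : Commute (Pi.mulSingle W x : GG k) (Pi.mulSingle v y) :=
    Pi.mulSingle_commute (f := fun i => SL2 (k i)) h x y
  exact h1

/-- conjugation by an element of the factor `v` -/
lemma ERG_conj {ι : Type} [Fintype ι] [DecidableEq ι] {k : ι → Type} [∀ i, NormedField (k i)]
    [∀ i, IsUltrametricDist (k i)] (hKNR : Stmt_KNR) (L : ∀ i, LocF (k i)) (s : ι → ℕ) (v : ι)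
    (r₀ : ℕ) (x : SL2 (k v)) :
    ∃ r', ∀ r, r' ≤ r → ∀ κ ∈ KG L (Function.update s v r),
      (Pi.mulSingle v x : GG k)⁻¹ * κ * Pi.mulSingle v x ∈ KG L (Function.update s v r₀) := by
  obtain ⟨-, hmono, -, -, h5, -⟩ := hKNR (k v) (L v)
  obtain ⟨r', hr'⟩ := h5 x⁻¹ r₀
  refine ⟨r', fun r hr κ hκ => ?_⟩
  rw [mem_KG] at hκ ⊢
  intro i
  by_cases hi : i = v
  · subst hi
    have h1 := hκ i
    rw [Function.update_self] at h1 ⊢
    have h2 := hr' (κ i) (hmono r' r hr h1)
    rw [inv_inv] at h2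
    simpa using h2
  · have h1 := hκ i
    rw [Function.update_of_ne hi] at h1 ⊢
    simpa [Pi.mulSingle_eq_of_ne hi] using h1

lemma ERG_single {ι : Type} [DecidableEq ι] {k : ι → Type} [∀ i, NormedField (k i)]
    [∀ i, IsUltrametricDist (k i)] (L : ∀ i, LocF (k i)) (s : ι → ℕ) (v : ι)
    (x : SL2 (k v)) (hx : x ∈ KK (L v) (s v)) : (Pi.mulSingle v x : GG k) ∈ KG L s := by
  rw [mem_KG]
  intro i
  by_cases hi : i = v
  · subst hi
    rw [Pi.mulSingle_eq_same]
    exact hx
  · rw [Pi.mulSingle_eq_of_ne hi]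
    exact (KK (L i) (s i)).one_mem

theorem p_ERG (hSX : Stmt_SX) (hPRJ : Stmt_PRJ) (hPNR : Stmt_PNR) (hKNR : Stmt_KNR)
    (hGEN : Stmt_GEN) (hIPL : Stmt_IPL) (hORB : Stmt_ORB) : Stmt_ERG := by
  intro ι _ _ k _ _ _ L Γ m hLat hm hinv h2 W M hM hMq s hsW f hf haf
  obtain ⟨-, hPmono, -⟩ := hPNR ι k L
  have hzero : ∀ (t : ι → ℕ) (g : GG k ⧸ Γ → ℂ), g ∈ Inv Γ (KG L t) → sq m g = 0 → g = 0 := by
    intro t g hg h0
    obtain ⟨hO1, hO2⟩ := hORB ι k L Γ m hLat hm hinv t
    exact (hIPL (GG k) Γ (KG L t) m hm hO1 hO2).2.2.1 g hg h0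
  have hup : ∀ (v : ι) (r r' : ℕ), r ≤ r' →
      KG L (Function.update s v r') ≤ KG L (Function.update s v r) := by
    intro v r r' hr
    apply hPmono
    intro i
    by_cases hi : i = v
    · subst hi
      rw [Function.update_self, Function.update_self]
      exact hr
    · rw [Function.update_of_ne hi, Function.update_of_ne hi]
  -- the factors different from `W`
  have hv : ∀ v : ι, W ≠ v → ∀ x : SL2 (k v), tr (Pi.mulSingle v x : GG k) f = f := by
    intro v hWv
    obtain ⟨r₀, hr₀⟩ := hSX ι k L Γ m hLat hm hinv W v hWv (h2 v) s hsW M hM hMq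
    -- one step
    have hstep : ∀ r, r₀ < r → ∀ g ∈ Inv Γ (KG L (Function.update s v r)),
        tr (aW L W M) g = g → g ∈ Inv Γ (KG L (Function.update s v (r - 1))) := by
      intro r hr g hg hag
      obtain ⟨n, κ, hn, hκ, hP⟩ := hPRJ ι k L Γ m hLat hm hinv s v r
      obtain ⟨g₁, hg₁⟩ : ∃ g₁ : GG k ⧸ Γ → ℂ,
          g₁ = fun x => (n : ℂ)⁻¹ * ∑ i, tr (Pi.mulSingle v (κ i) : GG k) g x := ⟨_, rfl⟩
      obtain ⟨hP1, hP2, -⟩ := hP g hg g₁ hg₁
      have hag₁ : tr (aW L W M) g₁ = g₁ := by
        have h3 : ∀ i, tr (aW L W M) (tr (Pi.mulSingle v (κ i) : GG k) g) =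
            tr (Pi.mulSingle v (κ i) : GG k) g := by
          intro i
          apply ERG_comm _ _ _ _ hag
          exact ERG_com W v hWv _ _
        funext x
        rw [hg₁]
        change (n : ℂ)⁻¹ * ∑ i, tr (Pi.mulSingle v (κ i) : GG k) g ((aW L W M)⁻¹ • x) = _
        congr 1
        apply Finset.sum_congr rfl
        intro i _
        exact congrFun (h3 i) x
      have hd : (fun x => g x - g₁ x) ∈ Inv Γ (KG L (Function.update s v r)) := by
        have h3 : g₁ ∈ Inv Γ (KG L (Function.update s v r)) :=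
          Inv_mono (hup v (r - 1) r (Nat.sub_le r 1)) hP1
        exact (Inv Γ (KG L (Function.update s v r))).sub_mem hg h3
      have hsq := hr₀ r hr _ hd hP2
      have h0 : (fun x => tr (aW L W M) (fun x => g x - g₁ x) x - (g x - g₁ x)) =
          fun _ => (0 : ℂ) := by
        funext x
        have h3 := congrFun hag x
        have h4 := congrFun hag₁ x
        simp only [tr] at h3 h4 ⊢
        rw [h3, h4, sub_self]
      have hsq0 : sq m (fun x => g x - g₁ x) = 0 := by
        apply le_antisymm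
        · refine hsq.trans ?_
          rw [h0]
          simp [sq]
        · exact integral_nonneg fun x => by positivity
      have h3 := hzero _ _ hd hsq0
      have h4 : g = g₁ := by
        funext x
        have h5 := congrFun h3 x
        exact sub_eq_zero.mp h5
      rw [h4]
      exact hP1
    have hall : ∀ n, ∀ g ∈ Inv Γ (KG L (Function.update s v (r₀ + n))),
        tr (aW L W M) g = g → g ∈ Inv Γ (KG L (Function.update s v r₀)) := by
      intro n
      induction n with
      | zero => exact fun g hg _ => hg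
      | succ n ih =>
        intro g hg hag
        apply ih g _ hag
        exact hstep (r₀ + (n + 1)) (by omega) g hg hag
    have hall' : ∀ r, ∀ g ∈ Inv Γ (KG L (Function.update s v r)),
        tr (aW L W M) g = g → g ∈ Inv Γ (KG L (Function.update s v r₀)) := by
      intro r g hg hag
      apply hall r g _ hag
      exact Inv_mono (hup v r (r₀ + r) (by omega)) hg
    have hf0 : f ∈ Inv Γ (KG L (Function.update s v r₀)) := by
      apply hall' (s v) f _ haf
      rw [Function.update_eq_self]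
      exact hf
    have htop : (ERG_st f).comap (MonoidHom.mulSingle (fun i => SL2 (k i)) v) = ⊤ := by
      apply (hGEN (k v) (L v)).2.1 _ r₀
      intro g x hx
      rw [Subgroup.mem_comap, ERG_mem]
      change tr (Pi.mulSingle v (g * x * g⁻¹) : GG k) f = f
      obtain ⟨r', hr'⟩ := ERG_conj hKNR L s v r₀ (g⁻¹)
      have h3 : tr (Pi.mulSingle v g⁻¹ : GG k) f ∈ Inv Γ (KG L (Function.update s v r')) := by
        intro κ hκ
        have h4 := hf0 _ (hr' r' le_rfl κ hκ)
        have h5 : κ * (Pi.mulSingle v g⁻¹ : GG k) =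
            (Pi.mulSingle v g⁻¹ : GG k) * ((Pi.mulSingle v g⁻¹ : GG k)⁻¹ * κ *
              Pi.mulSingle v g⁻¹) := by group
        rw [← tr_mul, h5, tr_mul, h4]
      have h6 := hall' r' _ h3 (ERG_comm _ _ _ (ERG_com W v hWv _ _) haf)
      have h7 := h6 (Pi.mulSingle v x : GG k) (ERG_single L _ v x (by
        rw [Function.update_self]
        exact hx))
      have h8 : (Pi.mulSingle v (g * x * g⁻¹) : GG k) =
          (Pi.mulSingle v g⁻¹ : GG k)⁻¹ * (Pi.mulSingle v x * Pi.mulSingle v g⁻¹) := by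
        rw [← Pi.mulSingle_inv, ← Pi.mulSingle_mul, ← Pi.mulSingle_mul, inv_inv, mul_assoc]
      rw [h8, tr_mul, tr_mul, h7, ← tr_mul, inv_mul_cancel, tr_one]
    intro x
    have h3 : x ∈ (ERG_st f).comap (MonoidHom.mulSingle (fun i => SL2 (k i)) v) := by
      rw [htop]
      trivial
    exact h3
  -- the factor `W`
  have hW : ∀ x : SL2 (k W), tr (Pi.mulSingle W x : GG k) f = f := by
    have htop : (ERG_st f).comap (MonoidHom.mulSingle (fun i => SL2 (k i)) W) = ⊤ := by
      apply (hGEN (k W) (L W)).2.2 _ M hM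
      · intro x hx
        apply hf
        apply ERG_single
        rw [hsW]
        exact hx
      · exact haf
    intro x
    have h3 : x ∈ (ERG_st f).comap (MonoidHom.mulSingle (fun i => SL2 (k i)) W) := by
      rw [htop]
      trivial
    exact h3
  have hG : ∀ g : GG k, g ∈ ERG_st f := by
    intro g
    apply Subgroup.pi_mem_of_mulSingle_mem
    intro i
    by_cases hi : W = i
    · subst hi
      exact hW (g W)
    · exact hv i hi (g i)
  refine ⟨f ((1 : GG k) : GG k ⧸ Γ), ?_⟩
  funext x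
  induction x using QuotientGroup.induction_on with
  | H g =>
    have h3 := congrFun (hG g⁻¹) ((1 : GG k) : GG k ⧸ Γ)
    simp only [tr, inv_inv] at h3
    have h4 : g • ((1 : GG k) : GG k ⧸ Γ) = ((g : GG k) : GG k ⧸ Γ) := by
      have h5 : g • ((1 : GG k) : GG k ⧸ Γ) = ((g • (1 : GG k) : GG k) : GG k ⧸ Γ) := rfl
      rw [h5, smul_eq_mul, mul_one]
    rw [h4] at h3
    exact h3

end Pool.PL
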