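import Pool.Agent.Work.MP_972ac7_P.Interface1

set_option autoImplicit false

/-! # THEOREM P, block EVD: the dimension from pointwise bounds -/

open MeasureTheory

noncomputable section

namespace Pool.PL

section aux

variable {X : Type} [MeasurableSpace X] {m : Measure X}

theorem EVD_sq_int {f : X → ℂ} (hf : MemLp f 2 m) : Integrable (fun x => ‖f x‖ ^ 2) m :=
  (memLp_two_iff_integrable_sq_norm hf.1).1 hf

theorem EVD_mul_int {f g : X → ℂ} (hf : MemLp f 2 m) (hg : MemLp g 2 m) :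
    Integrable (fun x => (starRingEnd ℂ) (f x) * g x) m := by
  refine Integrable.mono ((EVD_sq_int hf).add (EVD_sq_int hg))
    ((Complex.continuous_conj.comp_aestronglyMeasurable hf.1).mul hg.1) ?_
  refine Filter.Eventually.of_forall fun x => ?_
  show ‖(starRingEnd ℂ) (f x) * g x‖ ≤ ‖‖f x‖ ^ 2 + ‖g x‖ ^ 2‖
  rw [norm_mul, RCLike.norm_conj, Real.norm_of_nonneg (by positivity)]
  nlinarith [sq_nonneg (‖f x‖ - ‖g x‖), norm_nonneg (f x), norm_nonneg (g x)]

theorem EVD_ip_self (f : X → ℂ) : ip m f f = ((sq m f : ℝ) : ℂ) := by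
  unfold ip sq
  rw [← integral_complex_ofReal]
  refine integral_congr_ae (Filter.Eventually.of_forall fun x => ?_)
  show (starRingEnd ℂ) (f x) * f x = ((‖f x‖ ^ 2 : ℝ) : ℂ)
  rw [Complex.conj_mul']
  push_cast
  rfl

theorem EVD_conj (f g : X → ℂ) : (starRingEnd ℂ) (ip m g f) = ip m f g := by
  unfold ip
  rw [← integral_conj]
  refine integral_congr_ae (Filter.Eventually.of_forall fun x => ?_)
  show (starRingEnd ℂ) ((starRingEnd ℂ) (g x) * f x) = (starRingEnd ℂ) (f x) * g x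
  rw [map_mul, Complex.conj_conj, mul_comm]

theorem EVD_add {f g h : X → ℂ} (hf : MemLp f 2 m) (hg : MemLp g 2 m) (hh : MemLp h 2 m) :
    ip m (f + g) h = ip m f h + ip m g h := by
  unfold ip
  rw [← integral_add (EVD_mul_int hf hh) (EVD_mul_int hg hh)]
  refine integral_congr_ae (Filter.Eventually.of_forall fun x => ?_)
  show (starRingEnd ℂ) (f x + g x) * h x = _
  rw [map_add, add_mul]

theorem EVD_smul (c : ℂ) (f g : X → ℂ) : ip m (c • f) g = (starRingEnd ℂ) c * ip m f g := by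
  unfold ip
  rw [← integral_const_mul]
  refine integral_congr_ae (Filter.Eventually.of_forall fun x => ?_)
  show (starRingEnd ℂ) (c * f x) * g x = _
  rw [map_mul, mul_assoc]

/-- the scalar product on the space `E` -/
@[reducible] def EVD_core (E : Submodule ℂ (X → ℂ)) (hL : ∀ f ∈ E, MemLp f 2 m)
    (h0 : ∀ f ∈ E, sq m f = 0 → f = 0) : InnerProductSpace.Core ℂ E where
  inner f g := ip m (f : X → ℂ) (g : X → ℂ)
  conj_inner_symm f g := EVD_conj _ _
  re_inner_nonneg f := by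
    show 0 ≤ RCLike.re (ip m (f : X → ℂ) (f : X → ℂ))
    rw [EVD_ip_self]
    show 0 ≤ ((sq m (f : X → ℂ) : ℝ) : ℂ).re
    rw [Complex.ofReal_re]
    exact integral_nonneg fun x => by positivity
  add_left f g h := EVD_add (hL _ f.2) (hL _ g.2) (hL _ h.2)
  smul_left f g c := EVD_smul c _ _
  definite f hf := by
    have h1 : ip m (f : X → ℂ) (f : X → ℂ) = 0 := hf
    rw [EVD_ip_self] at h1
    exact Subtype.ext (h0 _ f.2 (by exact_mod_cast h1))

/-- an orthonormal basis -/
theorem EVD_basis (E : Submodule ℂ (X → ℂ)) (hE : FiniteDimensional ℂ E)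
    (hL : ∀ f ∈ E, MemLp f 2 m) (h0 : ∀ f ∈ E, sq m f = 0 → f = 0) :
    ∃ b : Fin (Module.finrank ℂ E) → E, ∀ c : Fin (Module.finrank ℂ E) → ℂ,
      sq m ((∑ i, c i • b i : E) : X → ℂ) = ∑ i, ‖c i‖ ^ 2 := by
  let core := EVD_core (m := m) E hL h0
  let _ : NormedAddCommGroup E := core.toNormedAddCommGroup
  let _ : InnerProductSpace ℂ E := InnerProductSpace.ofCore core.toCore
  let b := stdOrthonormalBasis ℂ E
  refine ⟨b, fun c => ?_⟩
  have h1 : inner ℂ (∑ i, c i • b i) (∑ i, c i • b i) = ((∑ i, ‖c i‖ ^ 2 : ℝ) : ℂ) := by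
    have h2 := b.orthonormal.inner_sum c c Finset.univ
    rw [h2]
    push_cast
    refine Finset.sum_congr rfl fun i _ => ?_
    rw [Complex.conj_mul']
  have h3 : inner ℂ (∑ i, c i • b i) (∑ i, c i • b i) =
      ip m ((∑ i, c i • b i : E) : X → ℂ) ((∑ i, c i • b i : E) : X → ℂ) := rfl
  rw [h3, EVD_ip_self] at h1
  exact_mod_cast h1

end aux

theorem p_EVD : Stmt_EVD := by
  classical
  intro X _ m hm E hE hL h0 B hB hb
  obtain ⟨b, hbas⟩ := EVD_basis (m := m) E hE hL h0
  have hval : ∀ (c : Fin (Module.finrank ℂ E) → ℂ) (x : X), ((∑ i, c i • b i : E) : X → ℂ) x =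
      ∑ i, c i * (b i : X → ℂ) x := by
    intro c x
    rw [Submodule.coe_sum, Finset.sum_apply]
    rfl
  have hpt : ∀ x : X, ∑ i, ‖(b i : X → ℂ) x‖ ^ 2 ≤ B := by
    intro x
    set S := ∑ i, ‖(b i : X → ℂ) x‖ ^ 2 with hS
    have hS0 : 0 ≤ S := Finset.sum_nonneg fun i _ => by positivity
    have h1 := hb _ (∑ i, (starRingEnd ℂ) ((b i : X → ℂ) x) • b i : E).2 x
    rw [hbas, hval] at h1
    have h2 : ∑ i, (starRingEnd ℂ) ((b i : X → ℂ) x) * (b i : X → ℂ) x = ((S : ℝ) : ℂ) := by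
      rw [hS]
      push_cast
      refine Finset.sum_congr rfl fun i _ => ?_
      rw [Complex.conj_mul']
    have h3 : ∑ i, ‖(starRingEnd ℂ) ((b i : X → ℂ) x)‖ ^ 2 = S := by
      rw [hS]
      refine Finset.sum_congr rfl fun i _ => ?_
      rw [RCLike.norm_conj]
    rw [h2, h3, Complex.norm_real, Real.norm_of_nonneg hS0] at h1
    rcases eq_or_lt_of_le hS0 with h4 | h4
    · rw [← h4]
      exact hB
    · rw [pow_two] at h1
      exact le_of_mul_le_mul_right h1 h4
  have hone : ∀ i, ∫ x, ‖(b i : X → ℂ) x‖ ^ 2 ∂m = 1 := by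
    intro i
    have h1 := hbas (Pi.single i 1)
    have h2 : (∑ j, (Pi.single i (1 : ℂ) : Fin (Module.finrank ℂ E) → ℂ) j • b j : E) = b i := by
      rw [Finset.sum_eq_single i]
      · simp
      · intro j _ hj
        rw [Pi.single_eq_of_ne hj, zero_smul]
      · intro h
        exact absurd (Finset.mem_univ i) h
    rw [h2] at h1
    have h3 : ∑ j, ‖(Pi.single i (1 : ℂ) : Fin (Module.finrank ℂ E) → ℂ) j‖ ^ 2 = 1 := by
      rw [Finset.sum_eq_single i]
      · simp
      · intro j _ hj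
        rw [Pi.single_eq_of_ne hj]
        simp
      · intro h
        exact absurd (Finset.mem_univ i) h
    rw [h3] at h1
    exact h1
  have hint : ∀ i, Integrable (fun x => ‖(b i : X → ℂ) x‖ ^ 2) m := fun i =>
    EVD_sq_int (hL _ (b i).2)
  calc (Module.finrank ℂ E : ℝ) = ∑ _i : Fin (Module.finrank ℂ E), (1 : ℝ) := by simp
    _ = ∑ i, ∫ x, ‖(b i : X → ℂ) x‖ ^ 2 ∂m := Finset.sum_congr rfl fun i _ => (hone i).symm
    _ = ∫ x, ∑ i, ‖(b i : X → ℂ) x‖ ^ 2 ∂m := by
        rw [integral_finsetSum _ fun i _ => hint i]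
    _ ≤ ∫ _x, B ∂m := integral_mono (integrable_finsetSum _ fun i _ => hint i)
        (integrable_const B) hpt
    _ = B := by simp

end Pool.PL
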