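import Pool.Agent.Work.MP_972ac7_P.Interface1

set_option autoImplicit false

/-! # THEOREM P, block GPV (helper68): the gap at all levels -/

open MeasureTheory

noncomputable section

namespace Pool.PL

open Pool.TFD Pool.TC

theorem GPV_conj {X : Type} [MeasurableSpace X] (m : Measure X) (f g : X → ℂ) :
    (starRingEnd ℂ) (ip m f g) = ip m g f := by
  unfold ip
  rw [← integral_conj]
  refine integral_congr_ae (Filter.Eventually.of_forall fun x => ?_)
  simp only [map_mul, Complex.conj_conj]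
  ring

theorem GPV_sq_nonneg {X : Type} [MeasurableSpace X] (m : Measure X) (f : X → ℂ) :
    0 ≤ sq m f := integral_nonneg fun x => by positivity

theorem GPV_ip_one {X : Type} [MeasurableSpace X] (m : Measure X) (f : X → ℂ) :
    ip m (fun _ => 1) f = ∫ x, f x ∂m := by
  unfold ip
  simp

theorem GPV_hk_add {G : Type} [Group G] {Γ : Subgroup G} {J : Type} [Fintype J] (S : J → G)
    (a : G) (f g : G ⧸ Γ → ℂ) : hk S a (f + g) = hk S a f + hk S a g := by
  funext x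
  simp only [hk, Pi.add_apply, Finset.sum_add_distrib, mul_add]

theorem GPV_hk_smul {G : Type} [Group G] {Γ : Subgroup G} {J : Type} [Fintype J] (S : J → G)
    (a : G) (c : ℂ) (f : G ⧸ Γ → ℂ) : hk S a (c • f) = c • hk S a f := by
  funext x
  simp only [hk, Pi.smul_apply, smul_eq_mul, ← Finset.mul_sum]
  ring

theorem GPV_hk_one {G : Type} [Group G] {Γ : Subgroup G} {J : Type} [Fintype J] [Nonempty J]
    (S : J → G) (a : G) : hk S a (fun _ : G ⧸ Γ => (1 : ℂ)) = fun _ => 1 := by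
  funext x
  simp only [hk, Finset.sum_const, Finset.card_univ, nsmul_eq_mul, mul_one]
  exact inv_mul_cancel₀ (by exact_mod_cast Fintype.card_ne_zero)

theorem GPV_lev (hHKI : Stmt_HKI) (hHKS : Stmt_HKS) (hIPL : Stmt_IPL) (hORB : Stmt_ORB)
    {ι : Type} [Fintype ι] [DecidableEq ι] {k : ι → Type} [∀ i, NormedField (k i)]
    [∀ i, IsUltrametricDist (k i)] [∀ i, ProperSpace (k i)] {L : ∀ i, LocF (k i)}
    {Γ : Subgroup (GG k)} {m : Measure (GG k ⧸ Γ)} (hLat : Lat L Γ)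
    (hm : IsProbabilityMeasure m) (hinv : ∀ g : GG k, MeasurePreserving (fun x => g • x) m m)
    {W : ι} {M : ℕ} {J : Type} [Fintype J] [Nonempty J] {S : J → SL2 (k W)}
    (hS : IsReps (L W) (2 * M) S) (σ : ι → ℕ) (hσ : σ W = 0) :
    FiniteDimensional ℂ (Inv Γ (KG L σ)) ∧
    ∃ (B : Inv Γ (KG L σ) →ₗ⋆[ℂ] Inv Γ (KG L σ) →ₗ[ℂ] ℂ)
      (T : Inv Γ (KG L σ) →ₗ[ℂ] Inv Γ (KG L σ)), (∀ f g, B f g = ip m f.1 g.1) ∧
      (∀ f, B f f = (sq m f.1 : ℂ)) ∧
      (∀ f, (T f).1 = hk (SW W S) (aW L W M) f.1) ∧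
      (∀ f g, (starRingEnd ℂ) (B f g) = B g f) ∧
      (∀ f g, B (T f) g = B f (T g)) ∧
      (∀ f, f ≠ 0 → 0 < (B f f).re) ∧
      ∀ f, sq m (fun x => tr (aW L W M) f.1 x - f.1 x) = 2 * sq m f.1 - 2 * (B (T f) f).re := by
  obtain ⟨hfin, hO⟩ := hORB ι k L Γ m hLat hm hinv σ
  obtain ⟨hfd, -, hz, B, hB1, hB2⟩ := hIPL (GG k) Γ (KG L σ) m hm hfin hO
  have hI := hHKI ι k L Γ W M J S hS σ hσ
  have hs := hHKS ι k L Γ m hLat hm hinv W M J S hS σ hσ
  refine ⟨hfd, B, { toFun := fun f => ⟨hk (SW W S) (aW L W M) f.1, (hI f.1 f.2).1⟩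
                    map_add' := fun f g => Subtype.ext (GPV_hk_add _ _ _ _)
                    map_smul' := fun c f => Subtype.ext (GPV_hk_smul _ _ _ _) },
    hB1, hB2, fun f => rfl, ?_, ?_, ?_, ?_⟩
  · intro f g
    rw [hB1, hB1]
    exact GPV_conj m _ _
  · intro f g
    rw [hB1, hB1]
    show ip m (hk (SW W S) (aW L W M) f.1) g.1 = ip m f.1 (hk (SW W S) (aW L W M) g.1)
    rw [(hs f.1 f.2 g.1 g.2).1, ← GPV_conj m (hk (SW W S) (aW L W M) g.1),
      (hs g.1 g.2 f.1 f.2).1, (hs g.1 g.2 f.1 f.2).2.1, GPV_conj]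
  · intro f hf
    rw [hB2, Complex.ofReal_re]
    refine lt_of_le_of_ne (GPV_sq_nonneg m _) fun h => hf ?_
    exact Subtype.ext (hz f.1 f.2 h.symm)
  · intro f
    rw [(hs f.1 f.2 f.1 f.2).2.2.2, hB1]
    show _ = 2 * sq m f.1 - 2 * (ip m (hk (SW W S) (aW L W M) f.1) f.1).re
    rw [(hs f.1 f.2 f.1 f.2).1]

/-- if the distance of `f` and its translate is zero, they agree -/
theorem GPV_fix (hIPL : Stmt_IPL) (hORB : Stmt_ORB) (hPNR : Stmt_PNR)
    {ι : Type} [Fintype ι] [DecidableEq ι] {k : ι → Type} [∀ i, NormedField (k i)]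
    [∀ i, IsUltrametricDist (k i)] [∀ i, ProperSpace (k i)] {L : ∀ i, LocF (k i)}
    {Γ : Subgroup (GG k)} {m : Measure (GG k ⧸ Γ)} (hLat : Lat L Γ)
    (hm : IsProbabilityMeasure m) (hinv : ∀ g : GG k, MeasurePreserving (fun x => g • x) m m)
    (σ : ι → ℕ) (a : GG k) (f : GG k ⧸ Γ → ℂ) (hf : f ∈ Inv Γ (KG L σ))
    (h0 : sq m (fun x => tr a f x - f x) = 0) : tr a f = f := by
  obtain ⟨-, hmono, -, -, hcj, -⟩ := hPNR ι k L
  obtain ⟨s', hs'⟩ := hcj a⁻¹ σ
  have hle1 : KG L (s' ⊔ σ) ≤ KG L s' := hmono s' _ le_sup_left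
  have hle2 : KG L (s' ⊔ σ) ≤ KG L σ := hmono σ _ le_sup_right
  obtain ⟨hfin, hO⟩ := hORB ι k L Γ m hLat hm hinv (s' ⊔ σ)
  obtain ⟨-, -, hz, -⟩ := hIPL (GG k) Γ (KG L (s' ⊔ σ)) m hm hfin hO
  have h1 : tr a f ∈ Inv Γ (KG L (s' ⊔ σ)) := by
    intro κ hκ
    have h2 : κ * a = a * (a⁻¹ * κ * (a⁻¹)⁻¹) := by group
    rw [← tr_mul, h2, tr_mul, hf _ (hs' κ (hle1 hκ))]
  have h2 : f ∈ Inv Γ (KG L (s' ⊔ σ)) := Inv_mono hle2 hf
  have h3 : (fun x => tr a f x - f x) ∈ Inv Γ (KG L (s' ⊔ σ)) :=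
    (Inv Γ (KG L (s' ⊔ σ))).sub_mem h1 h2
  have h4 := hz _ h3 h0
  funext x
  have h5 := congrFun h4 x
  exact sub_eq_zero.1 h5

theorem p_GPV (hSX : Stmt_SX) (hPRJ : Stmt_PRJ) (hHKI : Stmt_HKI) (hHKS : Stmt_HKS)
    (hIPL : Stmt_IPL) (hORB : Stmt_ORB) (hSPC : Stmt_SPC) (hERG : Stmt_ERG)
    (hREPS : Stmt_REPS) (hPNR : Stmt_PNR) : Stmt_GPV := by
  intro ι _ _ k _ _ _ L Γ m hLat hm hinv h2 W v hWv M hM hM44 s hsW
  obtain ⟨n, S, hn, hS⟩ := hREPS (k W) (L W) (2 * M)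
  have : Nonempty (Fin n) := ⟨⟨0, hn⟩⟩
  obtain ⟨r₀, hr₀⟩ := hSX ι k L Γ m hLat hm hinv W v hWv (h2 v) s hsW M hM hM44
  have hup : ∀ r : ℕ, (Function.update s v r) W = 0 := fun r => by
    rw [Function.update_of_ne hWv, hsW]
  have hmono : ∀ r r' : ℕ, r ≤ r' → Inv Γ (KG L (Function.update s v r)) ≤
      Inv Γ (KG L (Function.update s v r')) := by
    intro r r' hr
    refine Inv_mono ((hPNR ι k L).2.1 _ _ ?_)
    intro i
    by_cases hi : i = v
    · subst hi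
      rw [Function.update_self, Function.update_self]
      exact hr
    · rw [Function.update_of_ne hi, Function.update_of_ne hi]
  -- the level `r₀`
  have hbase : ∃ c : ℝ, 0 < c ∧ c ≤ 1 ∧ ∀ f ∈ Inv Γ (KG L (Function.update s v r₀)),
      ∫ x, f x ∂m = 0 → c * sq m f ≤ sq m (fun x => tr (aW L W M) f x - f x) := by
    obtain ⟨hfd, B, T, hB1, hB2, hT, hBc, hBs, hBp, hQ⟩ := GPV_lev hHKI hHKS hIPL hORB hLat hm
      hinv hS (Function.update s v r₀) (hup r₀)
    set one : Inv Γ (KG L (Function.update s v r₀)) := ⟨fun _ => 1, fun κ _ => rfl⟩ with hone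
    have hTone : T one = one := Subtype.ext ((hT one).trans (GPV_hk_one _ _))
    set V := LinearMap.ker (B one) with hV
    have hmemV : ∀ f : Inv Γ (KG L (Function.update s v r₀)), f ∈ V ↔ ∫ x, f.1 x ∂m = 0 := by
      intro f
      rw [hV, LinearMap.mem_ker, hB1]
      show ip m (fun _ => 1) f.1 = 0 ↔ _
      rw [GPV_ip_one]
    have hTV : ∀ x ∈ V, T x ∈ V := by
      intro x hx
      rw [hV, LinearMap.mem_ker] at hx ⊢
      rw [← hBs, hTone]
      exact hx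
    obtain ⟨c', hc', hgap⟩ := hSPC V (B.domRestrict₁₂ V V) (fun x y => hBc x.1 y.1)
      (fun x hx => hBp x.1 (fun h => hx (Subtype.ext h))) (T.restrict hTV)
      (fun x y => hBs x.1 y.1) 1 (by
        intro lam hlam x hx
        have hx1 : T x.1 = (lam : ℂ) • x.1 := congrArg Subtype.val hx
        have hq := hQ x.1
        have hre : (B (T x.1) x.1).re = lam * sq m x.1.1 := by
          rw [hx1, map_smulₛₗ, LinearMap.smul_apply, hB2, Complex.conj_ofReal, smul_eq_mul,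
            ← Complex.ofReal_mul, Complex.ofReal_re]
        rw [hre] at hq
        have hsq := GPV_sq_nonneg m x.1.1
        have hsq' := GPV_sq_nonneg m (fun y => tr (aW L W M) x.1.1 y - x.1.1 y)
        have h0 : sq m (fun y => tr (aW L W M) x.1.1 y - x.1.1 y) = 0 := by
          refine le_antisymm ?_ hsq'
          rw [hq]
          nlinarith
        have hfix := GPV_fix hIPL hORB hPNR hLat hm hinv _ _ _ x.1.2 h0
        obtain ⟨c, hc⟩ := hERG ι k L Γ m hLat hm hinv h2 W M hM hM44 _ (hup r₀) x.1.1 x.1.2 hfix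
        have hint := (hmemV x.1).1 x.2
        rw [hc] at hint
        have hc0 : c = 0 := by simpa using hint
        refine Subtype.ext (Subtype.ext ?_)
        rw [hc, hc0]
        rfl)
    refine ⟨2 * (1 - max c' (1 / 2)), ?_, ?_, ?_⟩
    · have : max c' (1 / 2) < 1 := max_lt hc' (by norm_num)
      linarith
    · have : 1 / 2 ≤ max c' (1 / 2) := le_max_right _ _
      linarith
    · intro f hf hint
      have h1 := hgap ⟨⟨f, hf⟩, (hmemV ⟨f, hf⟩).2 hint⟩
      have h3 := hQ ⟨f, hf⟩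
      have h4 : (B (T ⟨f, hf⟩) ⟨f, hf⟩).re ≤ c' * (B ⟨f, hf⟩ ⟨f, hf⟩).re := h1
      rw [hB2, Complex.ofReal_re] at h4
      have h5 : c' * sq m f ≤ max c' (1 / 2) * sq m f :=
        mul_le_mul_of_nonneg_right (le_max_left _ _) (GPV_sq_nonneg m f)
      simp only at h3 h4
      rw [h3]
      linarith
  obtain ⟨c, hc0, hc1, hbase⟩ := hbase
  -- induction
  have hind : ∀ j : ℕ, ∀ f ∈ Inv Γ (KG L (Function.update s v (r₀ + j))),
      ∫ x, f x ∂m = 0 → c * sq m f ≤ sq m (fun x => tr (aW L W M) f x - f x) := by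
    intro j
    induction j with
    | zero => exact hbase
    | succ j ih =>
      intro f hf hint
      obtain ⟨N, κ, hN, hκ, hprj⟩ := hPRJ ι k L Γ m hLat hm hinv s v (r₀ + (j + 1))
      obtain ⟨hf₁, horth, hsqs⟩ := hprj f hf _ rfl
      have hr1 : r₀ + (j + 1) - 1 = r₀ + j := by omega
      rw [hr1] at hf₁ horth
      set f₁ : GG k ⧸ Γ → ℂ :=
        fun x => (N : ℂ)⁻¹ * ∑ i, tr (Pi.mulSingle v (κ i) : GG k) f x with hf₁def
      set f₂ : GG k ⧸ Γ → ℂ := fun x => f x - f₁ x with hf₂def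
      have hf₁' := hmono (r₀ + j) (r₀ + (j + 1)) (by omega) hf₁
      have hf₂ : f₂ ∈ Inv Γ (KG L (Function.update s v (r₀ + (j + 1)))) :=
        (Inv Γ (KG L (Function.update s v (r₀ + (j + 1))))).sub_mem hf hf₁'
      obtain ⟨hfd, B, T, hB1, hB2, hT, hBc, hBs, hBp, hQ⟩ := GPV_lev hHKI hHKS hIPL hORB hLat hm
        hinv hS (Function.update s v (r₀ + (j + 1))) (hup _)
      set x₁ : Inv Γ (KG L (Function.update s v (r₀ + (j + 1)))) := ⟨f₁, hf₁'⟩ with hx₁
      set x₂ : Inv Γ (KG L (Function.update s v (r₀ + (j + 1)))) := ⟨f₂, hf₂⟩ with hx₂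
      have hsum : (⟨f, hf⟩ : Inv Γ (KG L (Function.update s v (r₀ + (j + 1))))) = x₁ + x₂ := by
        refine Subtype.ext ?_
        funext x
        show f x = f₁ x + (f x - f₁ x)
        ring
      have hx12 : B (T x₁) x₂ = 0 := by
        rw [hB1, hT]
        exact horth _ ((hHKI ι k L Γ W M (Fin n) S hS _ (hup (r₀ + j)) f₁ hf₁).1)
      have hx21 : B (T x₂) x₁ = 0 := by
        rw [hBs, ← hBc, hx12, map_zero]
      have hBB : (B (T ⟨f, hf⟩) ⟨f, hf⟩).re = (B (T x₁) x₁).re + (B (T x₂) x₂).re := by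
        have e : B (T (x₁ + x₂)) (x₁ + x₂) =
            (B (T x₁) x₁ + B (T x₁) x₂) + (B (T x₂) x₁ + B (T x₂) x₂) := by
          rw [map_add T, map_add B, LinearMap.add_apply, map_add, map_add]
        rw [hsum, e, hx12, hx21, add_zero, zero_add, Complex.add_re]
      have h1 := hQ ⟨f, hf⟩
      have h3 := hQ x₁
      have h4 := hQ x₂
      have hint2 : ∫ x, f₂ x ∂m = 0 := by
        have := horth (fun _ => 1) (fun κ _ => rfl)
        rwa [GPV_ip_one] at this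
      have hint1 : ∫ x, f₁ x ∂m = 0 := by
        have h5 : B ⟨fun _ => 1, fun κ _ => rfl⟩ ⟨f, hf⟩ = ∫ x, f x ∂m := by
          rw [hB1]; exact GPV_ip_one m f
        have h6 : B ⟨fun _ => 1, fun κ _ => rfl⟩ x₁ = ∫ x, f₁ x ∂m := by
          rw [hB1]; exact GPV_ip_one m f₁
        have h7 : B ⟨fun _ => 1, fun κ _ => rfl⟩ x₂ = ∫ x, f₂ x ∂m := by
          rw [hB1]; exact GPV_ip_one m f₂
        rw [hsum, map_add, h6, h7, hint2, add_zero, hint] at h5
        exact h5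
      have hih := ih f₁ hf₁ hint1
      have hsx := hr₀ (r₀ + (j + 1)) (by omega) f₂ hf₂ (by rw [hr1]; exact horth)
      have hq2 := GPV_sq_nonneg m f₂
      have h8 : c * sq m f₂ ≤ sq m f₂ := mul_le_of_le_one_left hq2 hc1
      rw [hBB] at h1
      simp only [hx₁, hx₂] at h1 h3 h4
      rw [h1, hsqs, mul_add]
      linarith
  refine ⟨c, hc0, fun r f hf hint => ?_⟩
  rcases le_total r r₀ with hr | hr
  · exact hbase f (hmono r r₀ hr hf) hint
  · obtain ⟨j, rfl⟩ := Nat.exists_eq_add_of_le hr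
    exact hind j f hf hint

end Pool.PL
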