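import Pool.Agent.Work.MP_972ac7_P.Interface1

set_option autoImplicit false

open MeasureTheory

noncomputable section

namespace Pool.PL

section one

variable {k : Type} [NormedField k] [IsUltrametricDist k]

theorem HKI_mem (L : LocF k) (g : SL2 k) (h : nm g ≤ 1) : g ∈ KK L 0 := by
  refine ⟨h, ?_⟩
  rw [pow_zero, inv_one]
  unfold dnm
  rw [sub_eq_add_neg]
  refine mnm_add_le h ?_
  rw [mnm_le]
  intro i j
  fin_cases i <;> fin_cases j <;> simp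

theorem HKI_ent (p r p' r' : k) (A : Matrix (Fin 2) (Fin 2) k) :
    !![p, 0; 0, r] * A * !![p', 0; 0, r'] =
      !![p * A 0 0 * p', p * A 0 1 * r'; r * A 1 0 * p', r * A 1 1 * r'] := by
  conv_lhs => rw [Matrix.eta_fin_two A]
  rw [Matrix.mul_fin_two, Matrix.mul_fin_two]
  simp

/-- conjugation by `a` maps the group of level `2 M` to that of level `0` -/
theorem HKI_conj (L : LocF k) (M : ℕ) (κ : SL2 k) (h : κ ∈ KK L (2 * M)) :
    (aa L M)⁻¹ * κ * aa L M ∈ KK L 0 := by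
  apply HKI_mem
  have hϖ : L.ϖ ^ M ≠ 0 := pow_ne_zero _ L.ϖ_ne
  have hq := L.q_pos
  have hn1 : ‖L.ϖ ^ M‖ = ((L.q : ℝ) ^ M)⁻¹ := by rw [norm_pow, L.norm_ϖ, inv_pow]
  have hn2 : ‖(L.ϖ ^ M)⁻¹‖ = (L.q : ℝ) ^ M := by rw [norm_inv, hn1, inv_inv]
  have hent : ∀ i j, ‖(κ : Matrix (Fin 2) (Fin 2) k) i j‖ ≤ 1 := mnm_le.1 h.1
  have h10 : ‖(κ : Matrix (Fin 2) (Fin 2) k) 1 0‖ ≤ ((L.q : ℝ) ^ (2 * M))⁻¹ := by
    have := mnm_le.1 h.2 1 0
    simpa using this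
  have hqM : (1 : ℝ) ≤ (L.q : ℝ) ^ M := one_le_pow₀ L.one_lt.le
  have hinv : ((aa L M)⁻¹ : SL2 k).1 = !![L.ϖ ^ M, 0; 0, (L.ϖ ^ M)⁻¹] := by
    show Matrix.adjugate _ = _
    rw [Matrix.adjugate_fin_two]
    simp [aa, dia]
  have haa : (aa L M : SL2 k).1 = !![(L.ϖ ^ M)⁻¹, 0; 0, L.ϖ ^ M] := by
    simp [aa, dia]
  unfold nm
  rw [mnm_le]
  have hmul : (((aa L M)⁻¹ * κ * aa L M : SL2 k) : Matrix (Fin 2) (Fin 2) k) =
      !![L.ϖ ^ M * (κ : Matrix (Fin 2) (Fin 2) k) 0 0 * (L.ϖ ^ M)⁻¹,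
        L.ϖ ^ M * (κ : Matrix (Fin 2) (Fin 2) k) 0 1 * L.ϖ ^ M;
        (L.ϖ ^ M)⁻¹ * (κ : Matrix (Fin 2) (Fin 2) k) 1 0 * (L.ϖ ^ M)⁻¹,
        (L.ϖ ^ M)⁻¹ * (κ : Matrix (Fin 2) (Fin 2) k) 1 1 * L.ϖ ^ M] := by
    rw [Matrix.SpecialLinearGroup.coe_mul, Matrix.SpecialLinearGroup.coe_mul, hinv, haa, HKI_ent]
  have h1 : ((L.q : ℝ) ^ M)⁻¹ ≤ 1 := inv_le_one_of_one_le₀ hqM
  have h0 : (0 : ℝ) ≤ ((L.q : ℝ) ^ M)⁻¹ := by positivity
  have b00 : ‖L.ϖ ^ M * (κ : Matrix (Fin 2) (Fin 2) k) 0 0 * (L.ϖ ^ M)⁻¹‖ ≤ 1 := by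
    rw [mul_comm (L.ϖ ^ M), mul_assoc, mul_inv_cancel₀ hϖ, mul_one]
    exact hent 0 0
  have b11 : ‖(L.ϖ ^ M)⁻¹ * (κ : Matrix (Fin 2) (Fin 2) k) 1 1 * L.ϖ ^ M‖ ≤ 1 := by
    rw [mul_comm (L.ϖ ^ M)⁻¹, mul_assoc, inv_mul_cancel₀ hϖ, mul_one]
    exact hent 1 1
  have b01 : ‖L.ϖ ^ M * (κ : Matrix (Fin 2) (Fin 2) k) 0 1 * L.ϖ ^ M‖ ≤ 1 := by
    rw [norm_mul, norm_mul, hn1]
    have h2 : ((L.q : ℝ) ^ M)⁻¹ * ‖(κ : Matrix (Fin 2) (Fin 2) k) 0 1‖ ≤ 1 :=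
      mul_le_one₀ h1 (norm_nonneg _) (hent 0 1)
    exact mul_le_one₀ h2 h0 h1
  have b10 : ‖(L.ϖ ^ M)⁻¹ * (κ : Matrix (Fin 2) (Fin 2) k) 1 0 * (L.ϖ ^ M)⁻¹‖ ≤ 1 := by
    rw [norm_mul, norm_mul, hn2]
    calc (L.q : ℝ) ^ M * ‖(κ : Matrix (Fin 2) (Fin 2) k) 1 0‖ * (L.q : ℝ) ^ M
        ≤ (L.q : ℝ) ^ M * ((L.q : ℝ) ^ (2 * M))⁻¹ * (L.q : ℝ) ^ M := by
          gcongr
      _ = 1 := by
          rw [two_mul, pow_add]
          have : (L.q : ℝ) ^ M ≠ 0 := by positivity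
          field_simp
  intro i j
  rw [hmul]
  fin_cases i <;> fin_cases j
  · exact b00
  · exact b01
  · exact b10
  · exact b11

/-- left multiplication by `κ` permutes the representatives -/
theorem HKI_perm (L : LocF k) (t : ℕ) {J : Type} [Fintype J] (S : J → SL2 k) (hS : IsReps L t S)
    (κ : SL2 k) (hκ : κ ∈ KK L 0) :
    ∃ π : J ≃ J, ∀ j, (S (π j))⁻¹ * (κ * S j) ∈ KK L t := by
  classical
  have h1 : ∀ j, ∃ j', (S j')⁻¹ * (κ * S j) ∈ KK L t := fun j =>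
    (hS.2 (κ * S j) (mul_mem hκ (hS.1 j))).exists
  choose p hp using h1
  have hinj : Function.Injective p := by
    intro i j hij
    have e1 : (S i)⁻¹ * S j ∈ KK L t := by
      have := mul_mem (inv_mem (hp i)) (hp j)
      rw [hij] at this
      have e : ((S (p j))⁻¹ * (κ * S i))⁻¹ * ((S (p j))⁻¹ * (κ * S j)) = (S i)⁻¹ * S j := by
        group
      rwa [e] at this
    have e2 : (S j)⁻¹ * S j ∈ KK L t := by
      rw [inv_mul_cancel]; exact one_mem _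
    exact (hS.2 (S j) (hS.1 j)).unique e1 e2
  exact ⟨Equiv.ofBijective p (Finite.injective_iff_bijective.mp hinj), hp⟩

end one

section prod

variable {ι : Type} [DecidableEq ι] {k : ι → Type} [∀ i, NormedField (k i)]
  [∀ i, IsUltrametricDist (k i)]

theorem HKI_single_mem (L : ∀ i, LocF (k i)) (W : ι) (s : ι → ℕ) (hs : s W = 0) (h : SL2 (k W))
    (hh : h ∈ KK (L W) 0) : (Pi.mulSingle W h : GG k) ∈ KG L s := by
  rw [mem_KG]
  intro i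
  by_cases hi : i = W
  · subst hi
    rw [Pi.mulSingle_eq_same, hs]
    exact hh
  · rw [Pi.mulSingle_eq_of_ne hi]
    exact one_mem _

omit [DecidableEq ι] [∀ i, IsUltrametricDist (k i)] in
theorem HKI_inv {Γ : Subgroup (GG k)} {K : Subgroup (GG k)} {f : GG k ⧸ Γ → ℂ} (hf : f ∈ Inv Γ K)
    {h : GG k} (hh : h ∈ K) (x : GG k ⧸ Γ) : f (h⁻¹ • x) = f x := congrFun (hf h hh) x

/-- elements with trivial coordinate at `W` commute with the factor `W` -/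
theorem HKI_comm (W : ι) (κ : GG k) (h : SL2 (k W)) :
    Function.update κ W 1 * Pi.mulSingle W h = Pi.mulSingle W h * Function.update κ W 1 := by
  funext i
  rw [Pi.mul_apply, Pi.mul_apply]
  by_cases hi : i = W
  · subst hi
    simp
  · rw [Pi.mulSingle_eq_of_ne hi, mul_one, one_mul]

theorem HKI_word (L : ∀ i, LocF (k i)) (W : ι) (M : ℕ) {J : Type} (S : J → SL2 (k W)) (j : J) :
    SW W S j * aW L W M = Pi.mulSingle W (S j * aa (L W) M) := by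
  unfold SW aW
  rw [Pi.mulSingle_mul]

theorem HKI_split (W : ι) (κ : GG k) : κ = Function.update κ W 1 * Pi.mulSingle W (κ W) := by
  funext i
  rw [Pi.mul_apply]
  by_cases hi : i = W
  · subst hi
    simp
  · rw [Pi.mulSingle_eq_of_ne hi, mul_one, Function.update_of_ne hi]

theorem HKI_update_mem (L : ∀ i, LocF (k i)) (W : ι) (s : ι → ℕ) (κ : GG k) (hκ : κ ∈ KG L s) :
    (Function.update κ W 1 : GG k) ∈ KG L s := by
  rw [mem_KG] at hκ ⊢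
  intro i
  by_cases hi : i = W
  · subst hi
    rw [Function.update_self]
    exact one_mem _
  · rw [Function.update_of_ne hi]
    exact hκ i

/-- the key identity in the group -/
theorem HKI_key (L : ∀ i, LocF (k i)) (W : ι) (M : ℕ) (x y h : SL2 (k W)) (κ : GG k)
    (e1 : κ W * x = y * h) :
    (Pi.mulSingle W x : GG k)⁻¹ * κ⁻¹ =
        (Pi.mulSingle W h : GG k)⁻¹ * ((Function.update κ W 1 : GG k)⁻¹ *
          (Pi.mulSingle W y : GG k)⁻¹) := by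
  have e2 : κ * Pi.mulSingle W x =
      (Pi.mulSingle W y * Function.update κ W 1) * Pi.mulSingle W h := by
    conv_lhs => rw [HKI_split W κ]
    rw [mul_assoc, ← Pi.mulSingle_mul, e1, Pi.mulSingle_mul, ← mul_assoc, HKI_comm]
  rw [← mul_inv_rev, e2, mul_inv_rev, mul_inv_rev]

theorem HKI_kinv (W : ι) (κ : GG k) :
    κ⁻¹ = (Pi.mulSingle W (κ W) : GG k)⁻¹ * (Function.update κ W 1 : GG k)⁻¹ := by
  rw [← mul_inv_rev, ← HKI_split W κ]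

theorem HKI_sum (L : ∀ i, LocF (k i)) (Γ : Subgroup (GG k)) (W : ι) (M : ℕ) {J : Type}
    [Fintype J] (S : J → SL2 (k W)) (f : GG k ⧸ Γ → ℂ) (x : GG k ⧸ Γ) :
    hk (SW W S) (aW L W M) f x = (Fintype.card J : ℂ)⁻¹ *
      ∑ j, f ((Pi.mulSingle W (S j * aa (L W) M) : GG k)⁻¹ • x) := by
  unfold hk
  simp_rw [HKI_word]

theorem HKI_one (L : ∀ i, LocF (k i)) (Γ : Subgroup (GG k)) (W : ι) (M : ℕ) {J : Type}
    [Fintype J] (S : J → SL2 (k W)) (hS : IsReps (L W) (2 * M) S) (s : ι → ℕ) (hs : s W = 0)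
    (f : GG k ⧸ Γ → ℂ) (hf : f ∈ Inv Γ (KG L s)) (κ : GG k) (hκ : κ ∈ KG L s)
    (hκ0 : κ W ∈ KK (L W) 0) (x : GG k ⧸ Γ) :
    hk (SW W S) (aW L W M) f (κ⁻¹ • x) = hk (SW W S) (aW L W M) f x := by
  obtain ⟨π, hπ⟩ := HKI_perm (L W) (2 * M) S hS (κ W) hκ0
  rw [HKI_sum, HKI_sum]
  congr 1
  rw [← Equiv.sum_comp π (fun j => f ((Pi.mulSingle W (S j * aa (L W) M) : GG k)⁻¹ • x))]
  refine Finset.sum_congr rfl fun j _ => ?_
  obtain ⟨h, hh⟩ : ∃ h : SL2 (k W),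
      h = (aa (L W) M)⁻¹ * ((S (π j))⁻¹ * (κ W * S j)) * aa (L W) M := ⟨_, rfl⟩
  have hmem : h ∈ KK (L W) 0 := by
    rw [hh]
    exact HKI_conj (L W) M _ (hπ j)
  have e1 : κ W * (S j * aa (L W) M) = S (π j) * aa (L W) M * h := by
    rw [hh]; group
  rw [← mul_smul, HKI_key L W M _ _ h κ e1, mul_smul,
    HKI_inv hf (HKI_single_mem L W s hs h hmem), mul_smul, HKI_inv hf (HKI_update_mem L W s κ hκ)]

end prod

theorem p_HKI (_hKNR : Stmt_KNR) : Stmt_HKI := by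
  intro ι _ k _ _ L Γ W M J _ S hS s hs f hf
  have h0 : ∀ κ ∈ KG L s, κ W ∈ KK (L W) 0 := by
    intro κ hκ
    rw [mem_KG] at hκ
    exact HKI_mem (L W) _ (hκ W).1
  have hinv : hk (SW W S) (aW L W M) f ∈ Inv Γ (KG L s) := by
    intro κ hκ
    funext x
    exact HKI_one L Γ W M S hS s hs f hf κ hκ (h0 κ hκ) x
  refine ⟨hinv, fun κ hκ => ?_⟩
  have hκW : (Pi.mulSingle W (κ W) : GG k) ∈ KG L s :=
    HKI_single_mem L W s hs _ (mem_KG.1 hκ W)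
  funext x
  have r1 : tr κ (hk (SW W S) (aW L W M) f) x =
      hk (SW W S) (aW L W M) f ((Function.update κ W 1 : GG k)⁻¹ • x) := by
    show hk (SW W S) (aW L W M) f (κ⁻¹ • x) = _
    rw [HKI_kinv W κ, mul_smul, HKI_inv hinv hκW]
  rw [r1, HKI_sum, HKI_sum]
  congr 1
  refine Finset.sum_congr rfl fun j _ => ?_
  show f (κ⁻¹ • ((Pi.mulSingle W (S j * aa (L W) M) : GG k)⁻¹ • x)) = _
  rw [HKI_kinv W κ, mul_smul, HKI_inv hf hκW, ← mul_smul, ← mul_smul, ← mul_inv_rev,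
    ← mul_inv_rev, HKI_comm]

end Pool.PL
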