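import Pool.Agent.Work.MP_972ac7_P.Interface1

set_option autoImplicit false

/-! # THEOREM P, part I: block HKS, the Hecke operator is symmetric (helper98) -/

open MeasureTheory

noncomputable section

namespace Pool.PL

open Pool.TFD Pool.TC

section HKSgen

variable {G : Type} [Group G] [MeasurableSpace G] {Γ : Subgroup G} (m : Measure (G ⧸ Γ))

theorem HKS_integral (hm : ∀ g : G, MeasurePreserving (fun x => g • x) m m) {E : Type}
    [NormedAddCommGroup E] [NormedSpace ℝ E] (g : G) (F : G ⧸ Γ → E) :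
    ∫ x, F (g • x) ∂m = ∫ x, F x ∂m := by
  let e : (G ⧸ Γ) ≃ᵐ (G ⧸ Γ) :=
    { toFun := fun x => g • x
      invFun := fun x => g⁻¹ • x
      left_inv := inv_smul_smul g
      right_inv := smul_inv_smul g
      measurable_toFun := (hm g).measurable
      measurable_invFun := (hm g⁻¹).measurable }
  have he : MeasurePreserving e m m := hm g
  exact he.integral_comp' F

/-- measurable and bounded -/
def HKSBd (f : G ⧸ Γ → ℂ) : Prop := Measurable f ∧ ∃ C : ℝ, ∀ x, ‖f x‖ ≤ C

theorem HKS_bd_tr (hm : ∀ g : G, MeasurePreserving (fun x => g • x) m m) {f : G ⧸ Γ → ℂ}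
    (hf : HKSBd f) (g : G) : HKSBd (fun x => f (g • x)) := by
  obtain ⟨h1, C, h2⟩ := hf
  exact ⟨h1.comp (hm g).measurable, C, fun x => h2 _⟩

theorem HKS_int [IsProbabilityMeasure m] {f f' : G ⧸ Γ → ℂ} (hf : HKSBd f) (hf' : HKSBd f') :
    Integrable (fun x => (starRingEnd ℂ) (f x) * f' x) m := by
  obtain ⟨h1, C, h2⟩ := hf
  obtain ⟨h3, C', h4⟩ := hf'
  refine Integrable.of_bound ?_ (C * C') ?_
  · apply Measurable.aestronglyMeasurable
    exact (Complex.continuous_conj.measurable.comp h1).mul h3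
  · refine Filter.Eventually.of_forall fun x => ?_
    rw [norm_mul, RCLike.norm_conj]
    exact mul_le_mul (h2 x) (h4 x) (norm_nonneg _) ((norm_nonneg _).trans (h2 x))

theorem HKS_int_sq [IsProbabilityMeasure m] {f : G ⧸ Γ → ℂ} (hf : HKSBd f) :
    Integrable (fun x => ‖f x‖ ^ 2) m := by
  obtain ⟨h1, C, h2⟩ := hf
  refine Integrable.of_bound ?_ (C ^ 2) ?_
  · exact (h1.norm.pow_const 2).aestronglyMeasurable
  · refine Filter.Eventually.of_forall fun x => ?_
    rw [Real.norm_of_nonneg (by positivity)]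
    exact pow_le_pow_left₀ (norm_nonneg _) (h2 x) 2

theorem HKS_gen [IsProbabilityMeasure m]
    (hm : ∀ g : G, MeasurePreserving (fun x => g • x) m m) (K : Subgroup G)
    {J : Type} [Fintype J] [Nonempty J] (S : J → G) (hS : ∀ j, S j ∈ K) (a w : G) (hw : w ∈ K)
    (haw : a⁻¹ = w * a * w⁻¹) (f f' : G ⧸ Γ → ℂ) (hf : f ∈ Inv Γ K) (hf' : f' ∈ Inv Γ K)
    (hb : HKSBd f) (hb' : HKSBd f') :
    ip m (hk S a f) f' = ip m (tr a f) f' ∧
      ip m (tr a f) f' = ip m f (tr a f') ∧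
      sq m (tr a f) = sq m f ∧
      sq m (fun x => tr a f x - f x) = 2 * sq m f - 2 * (ip m (tr a f) f).re := by
  have hinv : ∀ κ ∈ K, ∀ x, f (κ • x) = f x := by
    intro κ hκ x
    have h1 := congrFun (hf κ⁻¹ (K.inv_mem hκ)) x
    simpa only [tr, inv_inv] using h1
  have hinv' : ∀ κ ∈ K, ∀ x, f' (κ • x) = f' x := by
    intro κ hκ x
    have h1 := congrFun (hf' κ⁻¹ (K.inv_mem hκ)) x
    simpa only [tr, inv_inv] using h1
  refine ⟨?_, ?_, ?_, ?_⟩
  · unfold ip
    have h1 : ∀ j, ∫ x, (starRingEnd ℂ) (f ((S j * a)⁻¹ • x)) * f' x ∂m =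
        ∫ x, (starRingEnd ℂ) (f (a⁻¹ • x)) * f' x ∂m := by
      intro j
      rw [← HKS_integral m hm (S j) fun x => (starRingEnd ℂ) (f ((S j * a)⁻¹ • x)) * f' x]
      congr 1
      funext x
      rw [hinv' (S j) (hS j), mul_inv_rev, mul_smul, inv_smul_smul]
    have h2 : ∀ x, (starRingEnd ℂ) (hk S a f x) * f' x =
        (Fintype.card J : ℂ)⁻¹ * ∑ j, (starRingEnd ℂ) (f ((S j * a)⁻¹ • x)) * f' x := by
      intro x
      unfold hk
      rw [map_mul, map_inv₀, map_natCast, map_sum, mul_assoc, Finset.sum_mul]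
    simp only [h2]
    rw [integral_const_mul, integral_finset_sum _ fun j _ => HKS_int m (HKS_bd_tr m hm hb _) hb']
    simp only [h1]
    rw [Finset.sum_const, Finset.card_univ, nsmul_eq_mul, ← mul_assoc, inv_mul_cancel₀, one_mul]
    · rfl
    · exact_mod_cast Fintype.card_ne_zero
  · unfold ip tr
    rw [← HKS_integral m hm a fun x => (starRingEnd ℂ) (f (a⁻¹ • x)) * f' x]
    rw [← HKS_integral m hm w fun x => (starRingEnd ℂ) (f x) * f' (a⁻¹ • x)]
    congr 1
    funext x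
    have h1 : a⁻¹ • w • x = w • a • x := by
      rw [haw, mul_smul, mul_smul, inv_smul_smul]
    rw [inv_smul_smul, h1, hinv w hw, hinv' w hw]
  · unfold sq tr
    exact HKS_integral m hm a⁻¹ fun x => ‖f x‖ ^ 2
  · have h3 : sq m (tr a f) = sq m f := by
      unfold sq tr
      exact HKS_integral m hm a⁻¹ fun x => ‖f x‖ ^ 2
    have hbt : HKSBd (tr a f) := HKS_bd_tr m hm hb a⁻¹
    have h4 : ∀ x, ‖tr a f x - f x‖ ^ 2 =
        ‖tr a f x‖ ^ 2 + ‖f x‖ ^ 2 - 2 * ((starRingEnd ℂ) (tr a f x) * f x).re := by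
      intro x
      rw [← Complex.normSq_eq_norm_sq, ← Complex.normSq_eq_norm_sq, ← Complex.normSq_eq_norm_sq,
        Complex.normSq_apply, Complex.normSq_apply, Complex.normSq_apply]
      simp only [Complex.sub_re, Complex.sub_im, Complex.mul_re, Complex.conj_re, Complex.conj_im]
      ring
    have hi := HKS_int m hbt hb
    have h5 : (∫ x, ((starRingEnd ℂ) (tr a f x) * f x).re ∂m) = (ip m (tr a f) f).re := by
      unfold ip
      exact integral_re hi
    have h6 : sq m (fun x => tr a f x - f x) = sq m (tr a f) + sq m f -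
        2 * ∫ x, ((starRingEnd ℂ) (tr a f x) * f x).re ∂m := by
      unfold sq
      simp only [h4]
      rw [integral_sub, integral_add, integral_const_mul]
      · exact HKS_int_sq m hbt
      · exact HKS_int_sq m hb
      · exact (HKS_int_sq m hbt).add (HKS_int_sq m hb)
      · exact hi.re.const_mul 2
    rw [h6, h5, h3]
    ring

end HKSgen

section HKSw

variable {k : Type} [NormedField k]

/-- the Weyl element -/
def HKSwel (k : Type) [NormedField k] : SL2 k := ⟨!![0, 1; -1, 0], by simp [Matrix.det_fin_two]⟩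

theorem HKS_wel_mem [IsUltrametricDist k] (L : LocF k) : HKSwel k ∈ KK L 0 := by
  rw [mem_KK]
  unfold nm dnm
  rw [mnm_le, mnm_le]
  constructor
  · intro i j
    fin_cases i <;> fin_cases j <;> simp [HKSwel]
  · intro i j
    fin_cases i <;> fin_cases j <;> simp [HKSwel]

theorem HKS_conj (t : k) (ht : t ≠ 0) :
    (dia t ht)⁻¹ = HKSwel k * dia t ht * (HKSwel k)⁻¹ := by
  rw [eq_mul_inv_iff_mul_eq, inv_mul_eq_iff_eq_mul]
  ext i j
  rw [Matrix.SpecialLinearGroup.coe_mul, Matrix.SpecialLinearGroup.coe_mul]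
  fin_cases i <;> fin_cases j <;>
    simp [dia, HKSwel, Matrix.mul_apply, Fin.sum_univ_two, ht]

end HKSw

theorem p_HKS (hIPL : Stmt_IPL) (hORB : Stmt_ORB) (_hHKI : Stmt_HKI) : Stmt_HKS := by
  intro ι _ _ k _ _ _ L Γ m hL hm1 hm W M J _ _ S hS s hs f hf f' hf'
  obtain ⟨-, h2, -, -⟩ := hIPL (GG k) Γ (KG L s) m hm1 (hORB ι k L Γ m hL hm1 hm s).1
    (hORB ι k L Γ m hL hm1 hm s).2
  have hb : HKSBd f := ⟨(h2 f hf).1, (h2 f hf).2.1⟩
  have hb' : HKSBd f' := ⟨(h2 f' hf').1, (h2 f' hf').2.1⟩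
  have hsingle : ∀ κ : SL2 (k W), κ ∈ KK (L W) 0 → (Pi.mulSingle W κ : GG k) ∈ KG L s := by
    intro κ hκ
    rw [mem_KG]
    intro i
    by_cases hi : i = W
    · subst hi
      rw [Pi.mulSingle_eq_same, hs]
      exact hκ
    · rw [Pi.mulSingle_eq_of_ne hi]
      exact (KK (L i) (s i)).one_mem
  refine HKS_gen m hm (KG L s) (SW W S) ?_ (aW L W M) (Pi.mulSingle W (HKSwel (k W))) ?_ ?_
    f f' hf hf' hb hb'
  · intro j
    exact hsingle (S j) (hS.1 j)
  · exact hsingle _ (HKS_wel_mem (L W))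
  · unfold aW aa
    rw [← Pi.mulSingle_inv, ← Pi.mulSingle_inv, ← Pi.mulSingle_mul, ← Pi.mulSingle_mul,
      ← HKS_conj]

end Pool.PL
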