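import Pool.Agent.Work.MP_972ac7_P.Interface1

set_option autoImplicit false

/-! # THEOREM P, block IPL: the space of the invariant functions (helper57) -/

open MeasureTheory

noncomputable section

namespace Pool.PL

section

variable {G : Type} [Group G] {Γ K : Subgroup G}

theorem IPL_orbit {f : G ⧸ Γ → ℂ} (hf : f ∈ Inv Γ K) {x y : G ⧸ Γ}
    (h : y ∈ MulAction.orbit K x) : f y = f x := by
  obtain ⟨κ, rfl⟩ := h
  have h1 := congrFun (hf (κ : G) κ.2) ((κ : G) • x)
  simp only [tr, inv_smul_smul] at h1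
  exact h1.symm

theorem IPL_out (x : G ⧸ Γ) :
    x ∈ MulAction.orbit K (Quotient.out (Quotient.mk (MulAction.orbitRel K (G ⧸ Γ)) x)) := by
  have h1 := Quotient.mk_out (s := MulAction.orbitRel K (G ⧸ Γ)) x
  exact (MulAction.orbitRel K (G ⧸ Γ)).symm h1

theorem IPL_val {f : G ⧸ Γ → ℂ} (hf : f ∈ Inv Γ K) (x : G ⧸ Γ) :
    f x = f (Quotient.out (Quotient.mk (MulAction.orbitRel K (G ⧸ Γ)) x)) :=
  IPL_orbit hf (IPL_out x)

/-- the values at representatives of the orbits -/
def IPL_ev (Γ K : Subgroup G) :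
    Inv Γ K →ₗ[ℂ] (MulAction.orbitRel.Quotient K (G ⧸ Γ) → ℂ) where
  toFun f q := f.1 (Quotient.out q)
  map_add' _ _ := rfl
  map_smul' _ _ := rfl

theorem IPL_ev_inj : Function.Injective (IPL_ev Γ K) := by
  intro f g h
  apply Subtype.ext
  funext x
  rw [IPL_val f.2 x, IPL_val g.2 x]
  exact congrFun h _

end

theorem IPL_basic (G : Type) [Group G] [MeasurableSpace G] (Γ K : Subgroup G)
    (hfin : Finite (MulAction.orbitRel.Quotient K (G ⧸ Γ)))
    (horb : ∀ x : G ⧸ Γ, MeasurableSet (MulAction.orbit K x)) :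
    ∀ f ∈ Inv Γ K, Measurable f ∧ ∃ C : ℝ, ∀ x, ‖f x‖ ≤ C := by
  intro f hf
  constructor
  · intro s _
    have h1 : f ⁻¹' s = ⋃ q : {q : MulAction.orbitRel.Quotient K (G ⧸ Γ) //
        f (Quotient.out q) ∈ s}, MulAction.orbit K (Quotient.out q.1) := by
      ext x
      simp only [Set.mem_preimage, Set.mem_iUnion]
      constructor
      · intro hx
        rw [IPL_val hf x] at hx
        exact ⟨⟨_, hx⟩, IPL_out x⟩
      · rintro ⟨q, hq⟩
        rw [IPL_orbit hf hq]
        exact q.2
    rw [h1]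
    exact MeasurableSet.iUnion fun q => horb _
  · obtain ⟨C, hC⟩ := (Set.finite_range
      fun q : MulAction.orbitRel.Quotient K (G ⧸ Γ) => ‖f (Quotient.out q)‖).bddAbove
    refine ⟨C, fun x => ?_⟩
    rw [IPL_val hf x]
    exact hC ⟨_, rfl⟩

theorem p_IPL : Stmt_IPL := by
  intro G _ _ Γ K m hm hfin horb
  have hb := IPL_basic G Γ K hfin fun x => (horb x).1
  have hint : ∀ f ∈ Inv Γ K, ∀ g ∈ Inv Γ K,
      Integrable (fun x => (starRingEnd ℂ) (f x) * g x) m := by
    intro f hf g hg
    obtain ⟨hf1, C, hC⟩ := hb f hf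
    obtain ⟨hg1, C', hC'⟩ := hb g hg
    refine Integrable.of_bound
      (((Complex.continuous_conj.measurable.comp hf1).mul hg1).aestronglyMeasurable) (C * C')
      (Filter.Eventually.of_forall fun x => ?_)
    rw [norm_mul, RCLike.norm_conj]
    exact mul_le_mul (hC x) (hC' x) (norm_nonneg _) ((norm_nonneg _).trans (hC x))
  refine ⟨?_, ?_, ?_, ?_⟩
  · have := hfin
    exact Module.Finite.of_injective (IPL_ev Γ K) IPL_ev_inj
  · intro f hf
    obtain ⟨hf1, C, hC⟩ := hb f hf
    exact ⟨hf1, ⟨C, hC⟩, MemLp.of_bound hf1.aestronglyMeasurable C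
      (Filter.Eventually.of_forall hC)⟩
  · intro f hf h0
    obtain ⟨hf1, C, hC⟩ := hb f hf
    have h1 : Integrable (fun x => ‖f x‖ ^ 2) m := by
      refine Integrable.of_bound ((hf1.norm.pow_const 2).aestronglyMeasurable) (C ^ 2)
        (Filter.Eventually.of_forall fun x => ?_)
      rw [Real.norm_of_nonneg (by positivity)]
      exact pow_le_pow_left₀ (norm_nonneg _) (hC x) 2
    have h2 : (fun x => ‖f x‖ ^ 2) =ᵐ[m] 0 :=
      (integral_eq_zero_iff_of_nonneg (fun x => by positivity) h1).1 h0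
    funext x
    by_contra hx
    have h3 : m (MulAction.orbit K x) = 0 := by
      refine measure_mono_null (fun y hy => ?_) (ae_iff.1 h2)
      show ¬ (‖f y‖ ^ 2 = 0)
      rw [IPL_orbit hf hy]
      have : ‖f x‖ ≠ 0 := norm_ne_zero_iff.2 hx
      positivity
    have h4 := (horb x).2
    rw [h3] at h4
    simp at h4
  · refine ⟨LinearMap.mk₂'ₛₗ (starRingEnd ℂ) (RingHom.id ℂ) (fun f g => ip m f.1 g.1)
      ?_ ?_ ?_ ?_, fun f g => rfl, fun f => ?_⟩
    · intro f f' g
      show ip m (f.1 + f'.1) g.1 = _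
      unfold ip
      rw [← integral_add (hint _ f.2 _ g.2) (hint _ f'.2 _ g.2)]
      refine integral_congr_ae (Filter.Eventually.of_forall fun x => ?_)
      show (starRingEnd ℂ) (f.1 x + f'.1 x) * g.1 x = _
      rw [map_add, add_mul]
    · intro c f g
      show ip m (c • f.1) g.1 = (starRingEnd ℂ) c • ip m f.1 g.1
      unfold ip
      rw [smul_eq_mul, ← integral_const_mul]
      refine integral_congr_ae (Filter.Eventually.of_forall fun x => ?_)
      show (starRingEnd ℂ) (c * f.1 x) * g.1 x = _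
      rw [map_mul, mul_assoc]
    · intro f g g'
      show ip m f.1 (g.1 + g'.1) = _
      unfold ip
      rw [← integral_add (hint _ f.2 _ g.2) (hint _ f.2 _ g'.2)]
      refine integral_congr_ae (Filter.Eventually.of_forall fun x => ?_)
      show (starRingEnd ℂ) (f.1 x) * (g.1 x + g'.1 x) = _
      rw [mul_add]
    · intro c f g
      show ip m f.1 (c • g.1) = (RingHom.id ℂ) c • ip m f.1 g.1
      unfold ip
      rw [RingHom.id_apply, smul_eq_mul, ← integral_const_mul]
      refine integral_congr_ae (Filter.Eventually.of_forall fun x => ?_)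
      show (starRingEnd ℂ) (f.1 x) * (c * g.1 x) = c * ((starRingEnd ℂ) (f.1 x) * g.1 x)
      ring
    · show ip m f.1 f.1 = _
      unfold ip sq
      rw [← integral_complex_ofReal]
      refine integral_congr_ae (Filter.Eventually.of_forall fun x => ?_)
      show (starRingEnd ℂ) (f.1 x) * f.1 x = _
      rw [Complex.conj_mul']
      push_cast
      rfl

end Pool.PL
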