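import Pool.Agent.Work.MP_972ac7_P.Interface1

set_option autoImplicit false

/-! # THEOREM P, block KNR: the congruence subgroups -/

open MeasureTheory

noncomputable section

namespace Pool.PL

section KNR

variable {k : Type} [NormedField k]

theorem KNR_mnm_mul3 [IsUltrametricDist k] (A B C : Matrix (Fin 2) (Fin 2) k) :
    mnm (A * B * C) ≤ mnm A * mnm B * mnm C :=
  le_trans (mnm_mul_le _ _) (mul_le_mul_of_nonneg_right (mnm_mul_le _ _) (mnm_nonneg _))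

theorem KNR_conj (g x : SL2 k) : ((g * x * g⁻¹ : SL2 k) : Matrix (Fin 2) (Fin 2) k) - 1 =
    (g : Matrix (Fin 2) (Fin 2) k) * ((x : Matrix (Fin 2) (Fin 2) k) - 1) *
      ((g⁻¹ : SL2 k) : Matrix (Fin 2) (Fin 2) k) := by
  have h : (g : Matrix (Fin 2) (Fin 2) k) * ((g⁻¹ : SL2 k) : Matrix (Fin 2) (Fin 2) k) = 1 := by
    rw [← Matrix.SpecialLinearGroup.coe_mul, mul_inv_cancel, Matrix.SpecialLinearGroup.coe_one]
  rw [Matrix.SpecialLinearGroup.coe_mul, Matrix.SpecialLinearGroup.coe_mul, mul_sub, sub_mul,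
    mul_one, h]

theorem KNR_dnm_conj [IsUltrametricDist k] (g x : SL2 k) :
    dnm (g * x * g⁻¹) ≤ nm g * dnm x * nm g := by
  unfold dnm
  rw [KNR_conj]
  have h := KNR_mnm_mul3 (g : Matrix (Fin 2) (Fin 2) k) ((x : Matrix (Fin 2) (Fin 2) k) - 1)
    ((g⁻¹ : SL2 k) : Matrix (Fin 2) (Fin 2) k)
  have h2 : mnm ((g⁻¹ : SL2 k) : Matrix (Fin 2) (Fin 2) k) = nm g := nm_inv g
  rw [h2] at h
  exact h

theorem KNR_nm_le [IsUltrametricDist k] (x : SL2 k) (h : dnm x ≤ 1) : nm x ≤ 1 := by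
  unfold nm
  have h1 : (x : Matrix (Fin 2) (Fin 2) k) = ((x : Matrix (Fin 2) (Fin 2) k) - 1) + 1 := by abel
  rw [h1]
  refine mnm_add_le h ?_
  rw [mnm_le]
  intro i j
  fin_cases i <;> fin_cases j <;> simp

theorem KNR_pow_le (L : LocF k) {r r' : ℕ} (h : r ≤ r') :
    ((L.q : ℝ) ^ r')⁻¹ ≤ ((L.q : ℝ) ^ r)⁻¹ := by
  have h1 : (0 : ℝ) < (L.q : ℝ) ^ r := pow_pos L.q_pos r
  exact inv_anti₀ h1 (pow_le_pow_right₀ L.one_lt.le h)

theorem KNR_pow_one (L : LocF k) (r : ℕ) : ((L.q : ℝ) ^ r)⁻¹ ≤ 1 := by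
  have h := KNR_pow_le L (Nat.zero_le r)
  rw [pow_zero, inv_one] at h
  exact h

/-- an injection up to the subgroup bounds the index -/
theorem KNR_index {G : Type} [Group G] (H : Subgroup G) {T : Type} [Fintype T] (F : G → T)
    (hF : ∀ x y, F x = F y → x⁻¹ * y ∈ H) : H.index ≠ 0 ∧ H.index ≤ Fintype.card T := by
  have hinj : Function.Injective fun c : G ⧸ H => F c.out := by
    intro c c' h
    have h1 := hF _ _ h
    rw [← QuotientGroup.eq, QuotientGroup.out_eq', QuotientGroup.out_eq'] at h1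
    exact h1
  have hfin : Finite (G ⧸ H) := Finite.of_injective _ hinj
  refine ⟨?_, ?_⟩
  · unfold Subgroup.index
    exact Nat.card_pos.ne'
  · unfold Subgroup.index
    rw [← Nat.card_eq_fintype_card]
    exact Nat.card_le_card_of_injective _ hinj

theorem KNR_det (κ : SL2 k) : κ.1 0 0 * κ.1 1 1 - κ.1 0 1 * κ.1 1 0 = 1 := by
  have h := κ.2
  rw [Matrix.det_fin_two] at h
  exact h

variable [IsUltrametricDist k]

theorem KNR_add_le {x y : k} {c : ℝ} (hx : ‖x‖ ≤ c) (hy : ‖y‖ ≤ c) : ‖x + y‖ ≤ c :=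
  le_trans (IsUltrametricDist.norm_add_le_max _ _) (max_le hx hy)

theorem KNR_sub_le {x y : k} {c : ℝ} (hx : ‖x‖ ≤ c) (hy : ‖y‖ ≤ c) : ‖x - y‖ ≤ c := by
  rw [sub_eq_add_neg]
  exact KNR_add_le hx (by rw [norm_neg]; exact hy)

omit [IsUltrametricDist k] in
theorem KNR_mul_le {x y : k} {c : ℝ} (hx : ‖x‖ ≤ 1) (hy : ‖y‖ ≤ c) : ‖x * y‖ ≤ c := by
  rw [norm_mul]
  calc ‖x‖ * ‖y‖ ≤ 1 * c := mul_le_mul hx hy (norm_nonneg _) zero_le_one
    _ = c := one_mul c

/-- three entries determine the fourth: `a d = 1 + b c` -/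
theorem KNR_fourth {a b c d a' b' c' d' : k} {ε : ℝ}
    (hb' : ‖b'‖ ≤ 1) (hc : ‖c‖ ≤ 1)
    (ha1 : ‖a‖ = 1) (ha1' : ‖a'‖ = 1) (hd : ‖d‖ ≤ 1) (h : a * d - b * c = 1)
    (h' : a' * d' - b' * c' = 1) (ea : ‖a - a'‖ ≤ ε) (eb : ‖b - b'‖ ≤ ε) (ec : ‖c - c'‖ ≤ ε) :
    ‖d - d'‖ ≤ ε := by
  have key : a * a' * (d - d') = a * ((b - b') * c + b' * (c - c')) - (a - a') * (a * d) := by
    have e1 : a * d = 1 + b * c := by rw [← h]; ring
    have e2 : a' * d' = 1 + b' * c' := by rw [← h']; ring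
    have e3 : a * a' * (d - d') = a' * (a * d) - a * (a' * d') := by ring
    rw [e3, e2]
    have e4 : a' * (a * d) = a * (a * d) - (a - a') * (a * d) := by ring
    rw [e4, e1]
    ring
  have h1 : ‖d - d'‖ = ‖a * a' * (d - d')‖ := by
    rw [norm_mul, norm_mul, ha1, ha1', one_mul, one_mul]
  rw [h1, key]
  refine KNR_sub_le (KNR_mul_le ha1.le (KNR_add_le ?_ (KNR_mul_le hb' ec))) ?_
  · rw [mul_comm]
    exact KNR_mul_le hc eb
  · rw [mul_comm]
    exact KNR_mul_le (KNR_mul_le ha1.le hd) ea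

theorem KNR_norm_eq {a a' : k} (ha' : ‖a'‖ = 1) (h : ‖a - a'‖ < 1) : ‖a‖ = 1 := by
  have h1 : a = (a - a') + a' := by ring
  have h2 : ‖a - a'‖ ≠ ‖a'‖ := by
    rw [ha']
    exact h.ne
  rw [h1, IsUltrametricDist.norm_add_eq_max_of_norm_ne_norm h2, ha', max_eq_right h.le]

end KNR

theorem KNR_card (hRES : Stmt_RES) (k : Type) [NormedField k] [IsUltrametricDist k] (L : LocF k)
    (r : ℕ) : (KK L r).relIndex (KK L 0) ≠ 0 ∧ (KK L r).relIndex (KK L 0) ≤ L.q ^ (3 * r) := by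
  classical
  rcases Nat.eq_zero_or_pos r with rfl | hr
  · rw [Subgroup.relIndex_self, mul_zero, pow_zero]
    exact ⟨one_ne_zero, le_rfl⟩
  obtain ⟨R, -, -, hR⟩ := hRES k L r
  have hεlt : ((L.q : ℝ) ^ r)⁻¹ < 1 := by
    apply inv_lt_one_of_one_lt₀
    exact one_lt_pow₀ L.one_lt (by omega)
  set ε : ℝ := ((L.q : ℝ) ^ r)⁻¹ with hε
  let res : k → Fin (L.q ^ r) := fun x =>
    if h : ‖x‖ ≤ 1 then (hR x h).choose else ⟨0, pow_pos (by have := L.two_le; omega) r⟩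
  have hres : ∀ x y : k, ‖x‖ ≤ 1 → ‖y‖ ≤ 1 → res x = res y → ‖x - y‖ ≤ ε := by
    intro x y hx hy hxy
    have h1 : res x = (hR x hx).choose := dif_pos hx
    have h2 : res y = (hR y hy).choose := dif_pos hy
    have h3 := (hR x hx).choose_spec
    have h4 := (hR y hy).choose_spec
    rw [← h1] at h3
    rw [← h2, ← hxy] at h4
    have h5 : x - y = (x - R (res x)) - (y - R (res x)) := by ring
    rw [h5]
    exact KNR_sub_le h3 h4
  let F : KK L 0 → Fin (L.q ^ r) × Fin (L.q ^ r) × Fin (L.q ^ r) := fun κ =>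
    (res (κ.1.1 0 0), res (κ.1.1 1 0), if ‖κ.1.1 0 0‖ = 1 then res (κ.1.1 0 1) else res (κ.1.1 1 1))
  have hF : ∀ x y, F x = F y → x⁻¹ * y ∈ (KK L r).subgroupOf (KK L 0) := by
    intro x y hxy
    rw [Subgroup.mem_subgroupOf]
    obtain ⟨e1, e2, e3⟩ := by simpa only [F, Prod.mk.injEq] using hxy
    have hx : ∀ i j, ‖x.1.1 i j‖ ≤ 1 := mnm_le.1 x.2.1
    have hy : ∀ i j, ‖y.1.1 i j‖ ≤ 1 := mnm_le.1 y.2.1
    have ea := hres _ _ (hx 0 0) (hy 0 0) e1
    have ec := hres _ _ (hx 1 0) (hy 1 0) e2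
    have dx := KNR_det x.1
    have dy := KNR_det y.1
    have hiff : ‖x.1.1 0 0‖ = 1 ↔ ‖y.1.1 0 0‖ = 1 := by
      constructor
      · intro h
        refine KNR_norm_eq h ?_
        rw [norm_sub_rev]
        exact lt_of_le_of_lt ea hεlt
      · intro h
        exact KNR_norm_eq h (lt_of_le_of_lt ea hεlt)
    have hall : ‖x.1.1 0 1 - y.1.1 0 1‖ ≤ ε ∧ ‖x.1.1 1 1 - y.1.1 1 1‖ ≤ ε := by
      by_cases hc : ‖x.1.1 0 0‖ = 1
      · have hc' := hiff.1 hc
        rw [if_pos hc, if_pos hc'] at e3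
        have eb := hres _ _ (hx 0 1) (hy 0 1) e3
        exact ⟨eb, KNR_fourth (hy 0 1) (hx 1 0) hc hc' (hx 1 1) dx dy ea eb ec⟩
      · have hc' : ¬ ‖y.1.1 0 0‖ = 1 := fun h => hc (hiff.2 h)
        rw [if_neg hc, if_neg hc'] at e3
        have ed := hres _ _ (hx 1 1) (hy 1 1) e3
        have hunit : ∀ z : KK L 0, ¬ ‖z.1.1 0 0‖ = 1 → ‖z.1.1 1 0‖ = 1 := by
          intro z hz
          have hz1 : ∀ i j, ‖z.1.1 i j‖ ≤ 1 := mnm_le.1 z.2.1
          have hz0 : ‖z.1.1 0 0‖ < 1 := lt_of_le_of_ne (hz1 0 0) hz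
          have dz := KNR_det z.1
          by_contra hne
          have hz2 : ‖z.1.1 1 0‖ < 1 := lt_of_le_of_ne (hz1 1 0) hne
          have h1 : ‖z.1.1 0 0 * z.1.1 1 1‖ < 1 := by
            rw [norm_mul]
            calc _ ≤ ‖z.1.1 0 0‖ * 1 :=
                  mul_le_mul_of_nonneg_left (hz1 1 1) (norm_nonneg _)
              _ < 1 := by rw [mul_one]; exact hz0
          have h2 : ‖z.1.1 0 1 * z.1.1 1 0‖ < 1 := by
            rw [norm_mul]
            calc _ ≤ 1 * ‖z.1.1 1 0‖ :=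
                  mul_le_mul_of_nonneg_right (hz1 0 1) (norm_nonneg _)
              _ < 1 := by rw [one_mul]; exact hz2
          have h3 : ‖z.1.1 0 0 * z.1.1 1 1 - z.1.1 0 1 * z.1.1 1 0‖ < 1 := by
            rw [sub_eq_add_neg]
            refine lt_of_le_of_lt (IsUltrametricDist.norm_add_le_max _ _) (max_lt h1 ?_)
            rw [norm_neg]
            exact h2
          rw [dz, norm_one] at h3
          exact lt_irrefl _ h3
        have hx2 := hunit x hc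
        have hy2 := hunit y hc'
        refine ⟨?_, ed⟩
        have dx' : x.1.1 1 0 * (-x.1.1 0 1) - (-x.1.1 0 0) * x.1.1 1 1 = 1 := by
          linear_combination dx
        have dy' : y.1.1 1 0 * (-y.1.1 0 1) - (-y.1.1 0 0) * y.1.1 1 1 = 1 := by
          linear_combination dy
        have h1 := KNR_fourth (a := x.1.1 1 0) (b := -x.1.1 0 0) (c := x.1.1 1 1)
          (d := -x.1.1 0 1) (a' := y.1.1 1 0) (b' := -y.1.1 0 0) (c' := y.1.1 1 1)
          (d' := -y.1.1 0 1) (ε := ε) (by rw [norm_neg]; exact hy 0 0) (hx 1 1) hx2 hy2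
          (by rw [norm_neg]; exact hx 0 1) dx' dy' ec
          (by rw [show -x.1.1 0 0 - -y.1.1 0 0 = -(x.1.1 0 0 - y.1.1 0 0) by ring, norm_neg]
              exact ea) ed
        rw [show -x.1.1 0 1 - -y.1.1 0 1 = -(x.1.1 0 1 - y.1.1 0 1) by ring, norm_neg] at h1
        exact h1
    rw [mem_KK]
    have hmem : ((x⁻¹ * y : KK L 0) : SL2 k) = x.1⁻¹ * y.1 := rfl
    rw [hmem]
    have hdiff : (x.1⁻¹ * y.1 : SL2 k).1 - 1 = (x.1⁻¹ : SL2 k).1 * (y.1.1 - x.1.1) := by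
      have h : (x.1⁻¹ : SL2 k).1 * x.1.1 = 1 := by
        have := Matrix.SpecialLinearGroup.coe_mul (x.1⁻¹ : SL2 k) x.1
        rw [inv_mul_cancel, Matrix.SpecialLinearGroup.coe_one] at this
        exact this.symm
      rw [mul_sub, h]
      congr 1
    have hd : dnm (x.1⁻¹ * y.1) ≤ ε := by
      unfold dnm
      rw [hdiff]
      refine le_trans (mnm_mul_le _ _) ?_
      have h1 : mnm (x.1⁻¹ : SL2 k).1 ≤ 1 := by
        have : mnm (x.1⁻¹ : SL2 k).1 = nm x.1 := nm_inv x.1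
        rw [this]
        exact x.2.1
      have h2 : mnm (y.1.1 - x.1.1) ≤ ε := by
        rw [mnm_le]
        intro i j
        rw [Matrix.sub_apply, norm_sub_rev]
        fin_cases i <;> fin_cases j
        · exact ea
        · exact hall.1
        · exact ec
        · exact hall.2
      calc _ ≤ 1 * ε := mul_le_mul h1 h2 (mnm_nonneg _) zero_le_one
        _ = ε := one_mul ε
    exact ⟨KNR_nm_le _ (le_trans hd hεlt.le), hd⟩
  have h := KNR_index ((KK L r).subgroupOf (KK L 0)) F hF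
  refine ⟨h.1, le_trans h.2 ?_⟩
  rw [Fintype.card_prod, Fintype.card_prod, Fintype.card_fin, ← pow_add, ← pow_add]
  apply le_of_eq
  congr 1
  ring

theorem p_KNR (hRES : Stmt_RES) : Stmt_KNR := by
  intro k _ _ L
  refine ⟨?_, ?_, fun r => (KNR_card hRES k L r).1, fun r => (KNR_card hRES k L r).2, ?_, ?_⟩
  · intro r κ hκ x hx
    have h0 : dnm (κ * x * κ⁻¹) ≤ ((L.q : ℝ) ^ r)⁻¹ := by
      refine le_trans (KNR_dnm_conj κ x) ?_
      have h1 : 0 ≤ dnm x := mnm_nonneg _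
      have h2 : 0 ≤ nm κ := mnm_nonneg _
      calc nm κ * dnm x * nm κ ≤ 1 * dnm x * 1 :=
            mul_le_mul (mul_le_mul_of_nonneg_right hκ.1 h1) hκ.1 h2
              (mul_nonneg zero_le_one h1)
        _ = dnm x := by ring
        _ ≤ _ := hx.2
    exact ⟨KNR_nm_le _ (le_trans h0 (KNR_pow_one L r)), h0⟩
  · intro r r' hr x hx
    exact ⟨hx.1, le_trans hx.2 (KNR_pow_le L hr)⟩
  · intro g r
    obtain ⟨s, hs⟩ := pow_unbounded_of_one_lt (nm g * nm g) L.one_lt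
    refine ⟨s + r, fun x hx => ?_⟩
    have h0 : dnm (g * x * g⁻¹) ≤ ((L.q : ℝ) ^ r)⁻¹ := by
      refine le_trans (KNR_dnm_conj g x) ?_
      have hp : (0 : ℝ) < (L.q : ℝ) ^ s := pow_pos L.q_pos s
      have hp' : (0 : ℝ) < (L.q : ℝ) ^ r := pow_pos L.q_pos r
      have h1 : 0 ≤ dnm x := mnm_nonneg _
      calc nm g * dnm x * nm g = (nm g * nm g) * dnm x := by ring
        _ ≤ (L.q : ℝ) ^ s * ((L.q : ℝ) ^ (s + r))⁻¹ :=
            mul_le_mul hs.le hx.2 h1 hp.le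
        _ = ((L.q : ℝ) ^ r)⁻¹ := by
            rw [pow_add, mul_inv, ← mul_assoc, mul_inv_cancel₀ hp.ne', one_mul]
    exact ⟨KNR_nm_le _ (le_trans h0 (KNR_pow_one L r)), h0⟩
  · intro g hg
    have h0 : dnm g ≤ 0 := by
      refine ge_of_tendsto' (x := Filter.atTop) (f := fun r : ℕ => ((L.q : ℝ) ^ r)⁻¹) ?_
        fun r => (hg r).2
      exact (tendsto_pow_atTop_atTop_of_one_lt L.one_lt).inv_tendsto_atTop
    have h1 := mnm_le.1 h0
    apply Subtype.ext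
    have h2 : (g : Matrix (Fin 2) (Fin 2) k) = 1 := by
      ext i j
      have h3 := h1 i j
      have h4 := norm_le_zero_iff.1 h3
      rw [Matrix.sub_apply] at h4
      exact sub_eq_zero.1 h4
    rw [h2]
    rfl

end Pool.PL
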