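import Pool.Agent.Work.MP_972ac7_P.Interface2

set_option autoImplicit false

/-! # THEOREM P, part II: block LPT, many integers in a box (helper98) -/

open MeasureTheory NumberField IsDedekindDomain

noncomputable section

namespace Pool.PL

open Pool.TFD Pool.TC

theorem p_LPT : Stmt_LPT := by
  classical
  intro F _ _ hTR
  obtain ⟨d, hd⟩ : ∃ d : ℕ, d = Fintype.card (F →+* ℝ) := ⟨_, rfl⟩
  let b := NumberField.RingOfIntegers.basis F
  have hcard : Fintype.card (Module.Free.ChooseBasisIndex ℤ (𝓞 F)) = d := by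
    rw [hd, hTR.card, ← NumberField.RingOfIntegers.rank F]
    exact (Module.finrank_eq_card_basis b).symm
  obtain ⟨C₀, hC₀⟩ : ∃ x : ℝ, x = 1 + ∑ σ : F →+* ℝ, ∑ i, |σ ((b i : 𝓞 F) : F)| := ⟨_, rfl⟩
  have hsum : ∀ σ : F →+* ℝ, ∑ i, |σ ((b i : 𝓞 F) : F)| ≤ C₀ := by
    intro σ
    have h1 : ∑ i, |σ ((b i : 𝓞 F) : F)| ≤ ∑ σ : F →+* ℝ, ∑ i, |σ ((b i : 𝓞 F) : F)| :=
      Finset.single_le_sum (f := fun σ : F →+* ℝ => ∑ i, |σ ((b i : 𝓞 F) : F)|)
        (fun τ _ => Finset.sum_nonneg fun i _ => abs_nonneg _) (Finset.mem_univ σ)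
    linarith
  have hC₀1 : 1 ≤ C₀ := by
    have h1 : 0 ≤ ∑ σ : F →+* ℝ, ∑ i, |σ ((b i : 𝓞 F) : F)| :=
      Finset.sum_nonneg fun τ _ => Finset.sum_nonneg fun i _ => abs_nonneg _
    linarith
  have hC₀0 : 0 < C₀ := by linarith
  refine ⟨(C₀⁻¹) ^ d, by positivity, ?_⟩
  intro B hB
  obtain ⟨K, hK⟩ : ∃ K : ℕ, K = ⌊B / C₀⌋₊ := ⟨_, rfl⟩
  have hK1 : (K : ℝ) ≤ B / C₀ := by
    rw [hK]
    exact Nat.floor_le (by positivity)
  have hK2 : B / C₀ ≤ (K : ℝ) + 1 := by
    rw [hK]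
    exact (Nat.lt_floor_add_one _).le
  let f : (Module.Free.ChooseBasisIndex ℤ (𝓞 F) → ℕ) → 𝓞 F := fun m => ∑ i, ((m i : ℕ) : ℤ) • b i
  have hf : Function.Injective f := by
    intro m m' h
    have h1 : b.equivFun.symm (fun i => ((m i : ℕ) : ℤ)) =
        b.equivFun.symm (fun i => ((m' i : ℕ) : ℤ)) := by
      rw [Module.Basis.equivFun_symm_apply, Module.Basis.equivFun_symm_apply]
      exact h
    have h2 := b.equivFun.symm.injective h1
    funext i
    exact_mod_cast congrFun h2 i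
  refine ⟨(Fintype.piFinset fun _ => Finset.range (K + 1)).image f, ?_, ?_⟩
  · rw [Finset.card_image_of_injective _ hf, Fintype.card_piFinset]
    simp only [Finset.card_range, Finset.prod_const, Finset.card_univ, hcard]
    rw [← hd, ← mul_pow, inv_mul_eq_div]
    push_cast
    exact pow_le_pow_left₀ (by positivity) hK2 d
  · intro y hy σ
    rw [Finset.mem_image] at hy
    obtain ⟨m, hm, rfl⟩ := hy
    rw [Fintype.mem_piFinset] at hm
    have h1 : σ ((f m : 𝓞 F) : F) = ∑ i, (m i : ℝ) * σ ((b i : 𝓞 F) : F) := by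
      have h2 : (σ.comp (algebraMap (𝓞 F) F)) (f m) =
          ∑ i, (m i : ℝ) * (σ.comp (algebraMap (𝓞 F) F)) (b i) := by
        simp only [f, map_sum, zsmul_eq_mul, Int.cast_natCast, map_mul, map_natCast]
      exact h2
    rw [h1]
    calc |∑ i, (m i : ℝ) * σ ((b i : 𝓞 F) : F)|
        ≤ ∑ i, |(m i : ℝ) * σ ((b i : 𝓞 F) : F)| := Finset.abs_sum_le_sum_abs _ _
      _ ≤ ∑ i, (K : ℝ) * |σ ((b i : 𝓞 F) : F)| := by
          refine Finset.sum_le_sum fun i _ => ?_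
          rw [abs_mul, abs_of_nonneg (Nat.cast_nonneg _)]
          have h3 : (m i : ℝ) ≤ K := by
            have := Finset.mem_range.1 (hm i)
            exact_mod_cast Nat.lt_succ_iff.1 this
          exact mul_le_mul_of_nonneg_right h3 (abs_nonneg _)
      _ = (K : ℝ) * ∑ i, |σ ((b i : 𝓞 F) : F)| := by rw [Finset.mul_sum]
      _ ≤ (B / C₀) * C₀ := mul_le_mul hK1 (hsum σ)
          (Finset.sum_nonneg fun i _ => abs_nonneg _) (by positivity)
      _ = B := by field_simp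

end Pool.PL
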