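import Pool.Agent.Work.MP_972ac7_P.Interface1

set_option autoImplicit false

open MeasureTheory

noncomputable section

namespace Pool.PL

open Pool.TFD Pool.TC

/-- the least mass of an orbit is positive -/
theorem MAS_min {G : Type} [Group G] [MeasurableSpace G] (Γ K : Subgroup G)
    (m : Measure (G ⧸ Γ)) (hfin : Finite (MulAction.orbitRel.Quotient K (G ⧸ Γ)))
    (hpos : ∀ x : G ⧸ Γ, 0 < (m (MulAction.orbit K x)).toReal) :
    ∃ c : ℝ, 0 < c ∧ ∀ x : G ⧸ Γ, c ≤ (m (MulAction.orbit K x)).toReal := by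
  have hne : Nonempty (MulAction.orbitRel.Quotient K (G ⧸ Γ)) :=
    ⟨Quotient.mk'' ((1 : G) : G ⧸ Γ)⟩
  obtain ⟨q₀, hq₀⟩ := Finite.exists_min
    (fun q : MulAction.orbitRel.Quotient K (G ⧸ Γ) => (m q.orbit).toReal)
  refine ⟨(m q₀.orbit).toReal, ?_, ?_⟩
  · induction q₀ using Quotient.inductionOn' with
    | h y =>
      rw [MulAction.orbitRel.Quotient.orbit_mk]
      exact hpos y
  · intro x
    have h1 := hq₀ (Quotient.mk'' x)
    simp only [MulAction.orbitRel.Quotient.orbit_mk] at h1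
    exact h1

/-- representatives -/
theorem MAS_reps {A : Type} [Group A] (K K' : Subgroup A) (hKK : K'.relIndex K ≠ 0) :
    ∃ κ : Fin (K'.relIndex K) → A, ∀ h ∈ K, ∃ i, (κ i)⁻¹ * h ∈ K' := by
  have h0 : (K'.subgroupOf K).index ≠ 0 := hKK
  have hfi : (K'.subgroupOf K).FiniteIndex := ⟨h0⟩
  have hfin : Finite (K ⧸ K'.subgroupOf K) := Subgroup.finite_quotient_of_finiteIndex
  let e : Fin (K'.relIndex K) ≃ (K ⧸ K'.subgroupOf K) :=
    (Finite.equivFin _).symm
  refine ⟨fun i => ((e i).out : K), ?_⟩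
  intro h hh
  let h' : K := ⟨h, hh⟩
  refine ⟨e.symm (h' : K ⧸ K'.subgroupOf K), ?_⟩
  have h1 : ((e (e.symm (h' : K ⧸ K'.subgroupOf K))).out : K ⧸ K'.subgroupOf K) =
      (h' : K ⧸ K'.subgroupOf K) := by
    rw [QuotientGroup.out_eq', Equiv.apply_symm_apply]
  rw [QuotientGroup.eq, Subgroup.mem_subgroupOf] at h1
  exact h1

/-- the mass of the orbit of the larger group -/
theorem MAS_cover {G : Type} [Group G] [MeasurableSpace G] (Γ K K' : Subgroup G)
    (m : Measure (G ⧸ Γ)) [IsProbabilityMeasure m]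
    (hinv : ∀ g : G, MeasurePreserving (fun x => g • x) m m) (hKK : K'.relIndex K ≠ 0)
    (x : G ⧸ Γ) (hme : MeasurableSet (MulAction.orbit K' x)) :
    (m (MulAction.orbit K x)).toReal ≤
      (K'.relIndex K : ℝ) * (m (MulAction.orbit K' x)).toReal := by
  obtain ⟨κ, hκ⟩ := MAS_reps K K' hKK
  have hsub : MulAction.orbit K x ⊆
      ⋃ i, (fun y : G ⧸ Γ => (κ i)⁻¹ • y) ⁻¹' (MulAction.orbit K' x) := by
    rintro y ⟨⟨h, hh⟩, rfl⟩
    obtain ⟨i, hi⟩ := hκ h hh
    rw [Set.mem_iUnion]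
    refine ⟨i, ⟨⟨(κ i)⁻¹ * h, hi⟩, ?_⟩⟩
    change ((κ i)⁻¹ * h) • x = (κ i)⁻¹ • (h • x)
    rw [mul_smul]
  have h1 : m (MulAction.orbit K x) ≤ (K'.relIndex K : ENNReal) * m (MulAction.orbit K' x) := by
    calc m (MulAction.orbit K x) ≤
        m (⋃ i, (fun y : G ⧸ Γ => (κ i)⁻¹ • y) ⁻¹' (MulAction.orbit K' x)) :=
          measure_mono hsub
      _ ≤ ∑ i, m ((fun y : G ⧸ Γ => (κ i)⁻¹ • y) ⁻¹' (MulAction.orbit K' x)) :=
          measure_iUnion_fintype_le m _
      _ = ∑ _i : Fin (K'.relIndex K), m (MulAction.orbit K' x) := by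
          refine Finset.sum_congr rfl fun i _ => ?_
          exact (hinv (κ i)⁻¹).measure_preimage hme.nullMeasurableSet
      _ = (K'.relIndex K : ENNReal) * m (MulAction.orbit K' x) := by
          rw [Finset.sum_const, Finset.card_univ, Fintype.card_fin, nsmul_eq_mul]
  have h2 : (K'.relIndex K : ENNReal) * m (MulAction.orbit K' x) ≠ ⊤ :=
    ENNReal.mul_ne_top (ENNReal.natCast_ne_top _) (measure_ne_top m _)
  have h3 := ENNReal.toReal_mono h2 h1
  rw [ENNReal.toReal_mul, ENNReal.toReal_natCast] at h3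
  exact h3

theorem p_MAS (hPNR : Stmt_PNR) (hORB : Stmt_ORB) : Stmt_MAS := by
  intro ι _ _ k _ _ _ L Γ m hLat hprob hinv s v
  obtain ⟨h1, h2⟩ := hORB ι k L Γ m hLat hprob hinv (Function.update s v 0)
  obtain ⟨c₀, hc₀, hmin⟩ := MAS_min Γ (KG L (Function.update s v 0)) m h1 fun x => (h2 x).2
  refine ⟨c₀, hc₀, ?_⟩
  intro r x
  obtain ⟨-, -, -, hidx, -, -⟩ := hPNR ι k L
  obtain ⟨hi0, hile⟩ := hidx s v r
  obtain ⟨-, h3⟩ := hORB ι k L Γ m hLat hprob hinv (Function.update s v r)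
  have h4 := MAS_cover Γ (KG L (Function.update s v 0)) (KG L (Function.update s v r)) m hinv
    hi0 x (h3 x).1
  have h5 : ((KG L (Function.update s v r)).relIndex (KG L (Function.update s v 0)) : ℝ) ≤
      (((L v).q : ℝ) ^ r) ^ 3 := by
    rw [← pow_mul, mul_comm r 3]
    exact_mod_cast hile
  have h6 : 0 ≤ (m (MulAction.orbit (KG L (Function.update s v r)) x)).toReal :=
    ENNReal.toReal_nonneg
  have h7 : c₀ ≤ (((L v).q : ℝ) ^ r) ^ 3 *
      (m (MulAction.orbit (KG L (Function.update s v r)) x)).toReal :=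
    le_trans (hmin x) (le_trans h4 (mul_le_mul_of_nonneg_right h5 h6))
  have hQ : 0 < (((L v).q : ℝ) ^ r) ^ 3 := pow_pos (pow_pos (L v).q_pos r) 3
  rw [← div_eq_mul_inv, div_le_iff₀ hQ, mul_comm]
  exact h7

end Pool.PL
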