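import Pool.Agent.Work.MP_972ac7_P.Interface1

set_option autoImplicit false

/-! # Block MEA of THEOREM P: the invariant measure of a lattice -/

open MeasureTheory

namespace Pool.PL

theorem p_MEA (hPTO : Stmt_PTO) (hUNI : Stmt_UNI) (hMSR : Stmt_MSR) (hDSC : Stmt_DSC) :
    Stmt_MEA := by
  intro ι _ _ k _ _ _ L Γ hι hL
  obtain ⟨hdisc, s, N, h, h1, h2⟩ := hDSC ι k L Γ hι hL
  obtain ⟨i1, i2, i3, i4, i5, -⟩ := hPTO ι k L
  exact ⟨hdisc, hMSR (GG k) Γ (KG L s) N h (i5 s).2 (i5 s).1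
    (fun μ hμ => hUNI ι k L μ hμ) h1 h2⟩

end Pool.PL
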