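import Pool.Agent.Work.MP_972ac7_P.Interface1

set_option autoImplicit false

noncomputable section

namespace Pool.PL

theorem p_MEX : Stmt_MEX := by
  intro q hq
  have h1 : Filter.Tendsto (fun M : ℕ => ((M : ℝ) ^ 44) / ((2 : ℝ) ^ M)) Filter.atTop (nhds 0) := by
    have := tendsto_pow_const_div_const_pow_of_one_lt 44 (r := (2 : ℝ)) (by norm_num)
    exact this
  have h2 : ∀ᶠ M : ℕ in Filter.atTop, ((M : ℝ) ^ 44) / ((2 : ℝ) ^ M) < 1 / (6 : ℝ) ^ 44 :=
    h1.eventually_lt_const (by positivity)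
  obtain ⟨M, hM, h1M⟩ := (h2.and (Filter.eventually_ge_atTop 1)).exists
  refine ⟨M, h1M, ?_⟩
  have h3 : (M : ℝ) ^ 44 * 6 ^ 44 < 2 ^ M := by
    rw [div_lt_div_iff₀ (by positivity) (by positivity), one_mul] at hM
    exact hM
  have h4 : (4 * M + 2) ^ 44 ≤ (6 * M) ^ 44 := Nat.pow_le_pow_left (by omega) 44
  have h5 : (6 * M) ^ 44 ≤ 2 ^ M := by
    have : (((6 * M) ^ 44 : ℕ) : ℝ) < ((2 ^ M : ℕ) : ℝ) := by
      push_cast
      rw [mul_pow, mul_comm]
      exact h3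
    exact le_of_lt (by exact_mod_cast this)
  exact h4.trans (h5.trans (Nat.pow_le_pow_left hq M))

end Pool.PL
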