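import Pool.Agent.Work.MP_972ac7_P.Interface2

set_option autoImplicit false

noncomputable section

namespace Pool.PL

theorem MIN_adj {k : Type} [NormedField k] (M : Matrix (Fin 2) (Fin 2) k) :
    mnm M.adjugate = mnm M := by
  rw [Matrix.adjugate_fin_two]
  unfold mnm
  simp [max_comm, max_left_comm, max_assoc]

theorem p_MIN : Stmt_MIN := by
  intro k _ _ L M M' hM hM' hdet hne hdiff
  obtain ⟨E, hE⟩ : ∃ E : Matrix (Fin 2) (Fin 2) k, E = M.det⁻¹ • ((M' - M) * M.adjugate) :=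
    ⟨_, rfl⟩
  have hE1 : mnm E ≤ 1 := by
    rw [hE, mnm_le]
    intro i j
    rw [Matrix.smul_apply, smul_eq_mul, norm_mul, norm_inv]
    have h1 : ‖((M' - M) * M.adjugate) i j‖ ≤ ‖M.det‖ := by
      refine (le_mnm _ i j).trans ((mnm_mul_le _ _).trans ?_)
      rw [MIN_adj]
      calc mnm (M' - M) * mnm M ≤ ‖M.det‖ * 1 :=
            mul_le_mul hdiff hM (mnm_nonneg _) (norm_nonneg _)
        _ = ‖M.det‖ := mul_one _
    have h2 : 0 < ‖M.det‖ := norm_pos_iff.2 hne
    rw [inv_mul_le_iff₀ h2, mul_one]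
    exact h1
  have hone : mnm (1 : Matrix (Fin 2) (Fin 2) k) ≤ 1 := by
    rw [mnm_le]
    intro i j
    fin_cases i <;> fin_cases j <;> simp
  have hκM : (1 + E) * M = M' := by
    rw [add_mul, one_mul, hE, Matrix.smul_mul, Matrix.mul_assoc, Matrix.adjugate_mul,
      Matrix.mul_smul, Matrix.mul_one, smul_smul, inv_mul_cancel₀ hne, one_smul]
    abel
  have hκdet : (1 + E).det = 1 := by
    have h3 : (1 + E).det * M.det = M'.det := by rw [← Matrix.det_mul, hκM]
    rw [← hdet] at h3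
    exact mul_right_cancel₀ hne (h3.trans (one_mul _).symm)
  refine ⟨⟨1 + E, hκdet⟩, ?_, hκM.symm⟩
  rw [mem_KK]
  refine ⟨mnm_add_le hone hE1, ?_⟩
  unfold dnm
  change mnm (1 + E - 1) ≤ _
  rw [add_sub_cancel_left, pow_zero, inv_one]
  exact hE1

end Pool.PL
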