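import Pool.Agent.Work.MP_972ac7_P.Interface1

set_option autoImplicit false

/-! # THEOREM P, block MSR: the invariant probability measure (helper57) -/

open MeasureTheory

noncomputable section

namespace Pool.PL

section

variable {G : Type} [Group G] {Γ K : Subgroup G} {N : ℕ} {h : Fin N → G}

/-- the fundamental domain -/
def MSR_D (K : Subgroup G) (h : Fin N → G) : Set G := ⋃ i, (fun x => x * (h i)⁻¹) ⁻¹' (K : Set G)

theorem MSR_mem {x : G} : x ∈ MSR_D K h ↔ ∃ i, ∃ κ ∈ K, x = κ * h i := by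
  unfold MSR_D
  simp only [Set.mem_iUnion, Set.mem_preimage, SetLike.mem_coe]
  constructor
  · rintro ⟨i, hi⟩
    exact ⟨i, _, hi, by group⟩
  · rintro ⟨i, κ, hκ, rfl⟩
    exact ⟨i, by rwa [mul_inv_cancel_right]⟩

theorem MSR_existsUnique (hc : ∀ x : G, ∃ i, ∃ κ ∈ K, ∃ γ ∈ Γ, x = κ * h i * γ)
    (hu : ∀ i j, ∀ κ ∈ K, ∀ γ ∈ Γ, κ * h i * γ = h j → i = j ∧ κ = 1 ∧ γ = 1) (x : G) :
    ∃! g : Γ.op, g • x ∈ MSR_D K h := by
  obtain ⟨i, κ, hκ, γ, hγ, hx⟩ := hc x
  refine ⟨⟨MulOpposite.op γ⁻¹, Γ.inv_mem hγ⟩, ?_, ?_⟩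
  · show x * γ⁻¹ ∈ MSR_D K h
    exact MSR_mem.2 ⟨i, κ, hκ, by rw [hx, mul_inv_cancel_right]⟩
  · rintro ⟨g, hg⟩ hg'
    have hgx : x * MulOpposite.unop g ∈ MSR_D K h := hg'
    have hg1 : MulOpposite.unop g ∈ Γ := hg
    obtain ⟨j, κ', hκ', h1⟩ := MSR_mem.1 hgx
    have h2 : (κ'⁻¹ * κ) * h i * (γ * MulOpposite.unop g) = h j := by
      have h3 : κ * h i * γ * MulOpposite.unop g = κ' * h j := by rw [← hx]; exact h1
      calc (κ'⁻¹ * κ) * h i * (γ * MulOpposite.unop g)
          = κ'⁻¹ * (κ * h i * γ * MulOpposite.unop g) := by group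
        _ = h j := by rw [h3]; group
    obtain ⟨-, -, h4⟩ := hu i j _ (K.mul_mem (K.inv_mem hκ') hκ) _ (Γ.mul_mem hγ hg1) h2
    have h5 : MulOpposite.unop g = γ⁻¹ := eq_inv_of_mul_eq_one_right h4
    apply Subtype.ext
    show g = MulOpposite.op γ⁻¹
    rw [← h5, MulOpposite.op_unop]

end

theorem p_MSR : Stmt_MSR := by
  intro G _ _ _ _ _ _ _ _ Γ K N h hKc hKo hright hc hu
  -- an index
  obtain ⟨i0, -⟩ := hc 1
  -- discreteness
  have hdisc : DiscreteTopology Γ := by
    apply discreteTopology_of_isOpen_singleton_one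
    have h1 : ({1} : Set Γ) = (fun x : Γ => h i0 * (x : G) * (h i0)⁻¹) ⁻¹' (K : Set G) := by
      ext x
      simp only [Set.mem_singleton_iff, Set.mem_preimage, SetLike.mem_coe]
      constructor
      · rintro rfl
        simp
      · intro hx
        have h2 : (h i0 * (x : G) * (h i0)⁻¹)⁻¹ * h i0 * (x : G) = h i0 := by group
        obtain ⟨-, -, h3⟩ := hu i0 i0 _ (K.inv_mem hx) _ x.2 h2
        exact Subtype.ext h3
    rw [h1]
    exact hKo.preimage (by fun_prop)
  have hcount : Countable Γ := by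
    have : SecondCountableTopology Γ := inferInstance
    exact TopologicalSpace.separableSpace_iff_countable.1 inferInstance
  have hcop : Countable Γ.op := (Γ.equivOp).symm.injective.countable
  -- Haar measure
  set μ : Measure G := Measure.haar with hμ
  have hr : μ.IsMulRightInvariant := hright μ inferInstance
  have hDo : IsOpen (MSR_D K h) :=
    isOpen_iUnion fun i => hKo.preimage (by fun_prop)
  have hDm : MeasurableSet (MSR_D K h) := hDo.measurableSet
  have hpos : μ (MSR_D K h) ≠ 0 := by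
    have h1 : (MSR_D K h).Nonempty := ⟨h i0, MSR_mem.2 ⟨i0, 1, K.one_mem, (one_mul _).symm⟩⟩
    exact (hDo.measure_pos μ h1).ne'
  have hfin : μ (MSR_D K h) ≠ ⊤ := by
    have h1 : μ (MSR_D K h) ≤ ∑ i, μ ((fun x => x * (h i)⁻¹) ⁻¹' (K : Set G)) :=
      measure_iUnion_fintype_le μ _
    have h2 : ∀ i, μ ((fun x => x * (h i)⁻¹) ⁻¹' (K : Set G)) = μ (K : Set G) := fun i =>
      measure_preimage_mul_right μ _ _
    rw [Finset.sum_congr rfl fun i _ => h2 i] at h1
    refine ne_top_of_le_ne_top ?_ h1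
    exact ENNReal.sum_ne_top.2 fun _ _ => hKc.measure_ne_top
  have hmk : Measurable (QuotientGroup.mk : G → G ⧸ Γ) := measurable_quotient_mk''
  have hfd : ∀ g : G, IsFundamentalDomain Γ.op ((fun x => g * x) ⁻¹' (MSR_D K h)) μ := by
    intro g
    apply IsFundamentalDomain.mk'
    · exact ((measurable_const_mul g) hDm).nullMeasurableSet
    · intro x
      obtain ⟨γ, h1, h2⟩ := MSR_existsUnique hc hu (g * x)
      have hcm : ∀ γ : Γ.op, γ • (g * x) = g * (γ • x) := fun γ =>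
        mul_assoc g x (MulOpposite.unop (γ : Gᵐᵒᵖ))
      refine ⟨γ, ?_, ?_⟩
      · have h3 := h1
        rw [hcm] at h3
        exact h3
      · intro γ' h3
        apply h2
        show γ' • (g * x) ∈ MSR_D K h
        rw [hcm]
        exact h3
  set m : Measure (G ⧸ Γ) := (μ (MSR_D K h))⁻¹ • Measure.map (QuotientGroup.mk : G → G ⧸ Γ)
    (μ.restrict (MSR_D K h)) with hm
  have hm0 : ∀ E : Set (G ⧸ Γ), MeasurableSet E → m E = (μ (MSR_D K h))⁻¹ *
      μ (((QuotientGroup.mk : G → G ⧸ Γ) ⁻¹' E) ∩ MSR_D K h) := by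
    intro E hE
    rw [hm, Measure.smul_apply, Measure.map_apply hmk hE, Measure.restrict_apply (hmk hE),
      smul_eq_mul]
  refine ⟨m, ⟨?_⟩, fun g => ?_⟩
  · rw [hm0 _ MeasurableSet.univ, Set.preimage_univ, Set.univ_inter]
    exact ENNReal.inv_mul_cancel hpos hfin
  · have hsm : Measurable (fun x : G ⧸ Γ => g • x) := by
      apply QuotientGroup.measurable_from_quotient.2
      exact hmk.comp (measurable_const_mul g)
    refine ⟨hsm, ?_⟩
    ext E hE
    rw [Measure.map_apply hsm hE, hm0 _ (hsm hE), hm0 _ hE]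
    congr 1
    set A : Set G := (QuotientGroup.mk : G → G ⧸ Γ) ⁻¹' E with hA
    have hAm : MeasurableSet A := hmk hE
    have h1 : (QuotientGroup.mk : G → G ⧸ Γ) ⁻¹' ((fun x => g • x) ⁻¹' E) =
      (fun x => g * x) ⁻¹' A := rfl
    have h2 : (fun x => g * x) ⁻¹' A ∩ MSR_D K h =
        (fun x => g * x) ⁻¹' (A ∩ (fun x => g⁻¹ * x) ⁻¹' MSR_D K h) := by
      ext x
      simp only [Set.mem_inter_iff, Set.mem_preimage, inv_mul_cancel_left]
    rw [h1, h2, measure_preimage_mul]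
    have h3 := (hfd g⁻¹).measure_set_eq (hfd 1) hAm (by
      intro γ
      ext x
      show QuotientGroup.mk (γ • x) ∈ E ↔ QuotientGroup.mk x ∈ E
      have : (QuotientGroup.mk (γ • x) : G ⧸ Γ) = QuotientGroup.mk x := by
        apply QuotientGroup.eq.2
        show (x * MulOpposite.unop (γ : Gᵐᵒᵖ))⁻¹ * x ∈ Γ
        rw [mul_inv_rev, inv_mul_cancel_right]
        exact Γ.inv_mem γ.2
      rw [this])
    rw [h3]
    simp only [one_mul]
    rfl

end Pool.PL
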