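import Pool.Agent.Work.MP_972ac7_P.Interface1

set_option autoImplicit false

/-! # THEOREM P, block NRM: the norm on `SL2` -/

open MeasureTheory

noncomputable section

namespace Pool.PL

open Pool.TFD Pool.TC

theorem NRM_att {k : Type} [NormedField k] (m : Matrix (Fin 2) (Fin 2) k) :
    ∃ i j, mnm m = ‖m i j‖ := by
  unfold mnm
  rcases max_choice (max ‖m 0 0‖ ‖m 0 1‖) (max ‖m 1 0‖ ‖m 1 1‖) with h | h <;> rw [h]
  · rcases max_choice ‖m 0 0‖ ‖m 0 1‖ with h' | h' <;> rw [h']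
    · exact ⟨0, 0, rfl⟩
    · exact ⟨0, 1, rfl⟩
  · rcases max_choice ‖m 1 0‖ ‖m 1 1‖ with h' | h' <;> rw [h']
    · exact ⟨1, 0, rfl⟩
    · exact ⟨1, 1, rfl⟩

theorem NRM_one_le {k : Type} [NormedField k] [IsUltrametricDist k] (g : SL2 k) : 1 ≤ nm g := by
  have h1 : (g : Matrix (Fin 2) (Fin 2) k) 0 0 * (g : Matrix (Fin 2) (Fin 2) k) 1 1 +
      -((g : Matrix (Fin 2) (Fin 2) k) 0 1 * (g : Matrix (Fin 2) (Fin 2) k) 1 0) = 1 := by
    have h := g.2
    rw [Matrix.det_fin_two] at h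
    rw [← sub_eq_add_neg]
    exact h
  have h2 : ‖(1 : k)‖ ≤ nm g * nm g := by
    rw [← h1]
    refine (IsUltrametricDist.norm_add_le_max _ _).trans (max_le ?_ ?_)
    · rw [norm_mul]
      exact mul_le_mul (le_mnm _ 0 0) (le_mnm _ 1 1) (norm_nonneg _) (mnm_nonneg _)
    · rw [norm_neg, norm_mul]
      exact mul_le_mul (le_mnm _ 0 1) (le_mnm _ 1 0) (norm_nonneg _) (mnm_nonneg _)
  rw [norm_one] at h2
  have h3 : 0 ≤ nm g := mnm_nonneg _
  by_contra hcon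
  push Not at hcon
  have : nm g * nm g < 1 := by nlinarith
  linarith

theorem NRM_le_left {k : Type} [NormedField k] [IsUltrametricDist k] (L : LocF k) {κ : SL2 k}
    (hκ : κ ∈ KK L 0) (g : SL2 k) : nm (κ * g) ≤ nm g := by
  calc nm (κ * g) ≤ nm κ * nm g := nm_mul_le _ _
    _ ≤ 1 * nm g := mul_le_mul_of_nonneg_right (mem_KK.1 hκ).1 (mnm_nonneg _)
    _ = nm g := one_mul _

theorem NRM_le_right {k : Type} [NormedField k] [IsUltrametricDist k] (L : LocF k) {κ : SL2 k}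
    (hκ : κ ∈ KK L 0) (g : SL2 k) : nm (g * κ) ≤ nm g := by
  calc nm (g * κ) ≤ nm g * nm κ := nm_mul_le _ _
    _ ≤ nm g * 1 := mul_le_mul_of_nonneg_left (mem_KK.1 hκ).1 (mnm_nonneg _)
    _ = nm g := mul_one _

theorem p_NRM : Stmt_NRM := by
  intro k _ _ L
  have hq := L.q_pos
  refine ⟨?_, ?_, ?_, ?_⟩
  · intro g
    obtain ⟨i, j, hij⟩ := NRM_att (g : Matrix (Fin 2) (Fin 2) k)
    have h1 : nm g = ‖(g : Matrix (Fin 2) (Fin 2) k) i j‖ := hij
    have h2 := NRM_one_le g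
    have h3 : (g : Matrix (Fin 2) (Fin 2) k) i j ≠ 0 := by
      intro h
      rw [h1, h, norm_zero] at h2
      linarith
    obtain ⟨n, hn⟩ := L.disc _ h3
    rw [h1, hn] at h2
    have h4 : 0 ≤ n := by
      by_contra hcon
      push Not at hcon
      exact absurd h2 (not_le.2 (zpow_lt_one_of_neg₀ L.one_lt hcon))
    refine ⟨n.toNat, ?_⟩
    rw [h1, hn, ← zpow_natCast, Int.toNat_of_nonneg h4]
  · intro κ hκ g
    refine ⟨le_antisymm (NRM_le_left L hκ g) ?_, le_antisymm (NRM_le_right L hκ g) ?_⟩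
    · have h := NRM_le_left L ((KK L 0).inv_mem hκ) (κ * g)
      rwa [inv_mul_cancel_left] at h
    · have h := NRM_le_right L ((KK L 0).inv_mem hκ) (g * κ)
      rwa [mul_inv_cancel_right] at h
  · intro g
    rw [mem_KK]
    constructor
    · exact fun h => h.1
    · intro h
      refine ⟨h, ?_⟩
      rw [pow_zero, inv_one]
      unfold dnm
      rw [sub_eq_add_neg]
      apply mnm_add_le h
      rw [mnm_le]
      intro i j
      rw [Matrix.neg_apply, norm_neg, Matrix.one_apply]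
      split_ifs
      · rw [norm_one]
      · rw [norm_zero]
        exact zero_le_one
  · intro M
    have h1 : ‖(L.ϖ ^ M)⁻¹‖ = (L.q : ℝ) ^ M := by
      rw [norm_inv, norm_pow, L.norm_ϖ, inv_pow, inv_inv]
    have h2 : ‖L.ϖ ^ M‖ = ((L.q : ℝ) ^ M)⁻¹ := by
      rw [norm_pow, L.norm_ϖ, inv_pow]
    have h3 : (1 : ℝ) ≤ (L.q : ℝ) ^ M := one_le_pow₀ L.one_lt.le
    have h4 : ((L.q : ℝ) ^ M)⁻¹ ≤ (L.q : ℝ) ^ M := (inv_le_one_of_one_le₀ h3).trans h3
    change mnm (!![(L.ϖ ^ M)⁻¹, 0; 0, ((L.ϖ ^ M)⁻¹)⁻¹] : Matrix (Fin 2) (Fin 2) k) = _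
    apply le_antisymm
    · rw [mnm_le]
      intro i j
      fin_cases i <;> fin_cases j
      · exact h1.le
      · change ‖(0 : k)‖ ≤ _
        rw [norm_zero]
        linarith
      · change ‖(0 : k)‖ ≤ _
        rw [norm_zero]
        linarith
      · change ‖((L.ϖ ^ M)⁻¹)⁻¹‖ ≤ _
        rw [inv_inv, h2]
        exact h4
    · rw [← h1]
      exact le_mnm (!![(L.ϖ ^ M)⁻¹, 0; 0, ((L.ϖ ^ M)⁻¹)⁻¹] : Matrix (Fin 2) (Fin 2) k) 0 0

end Pool.PL
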