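import Pool.Agent.Work.MP_972ac7_P.Interface1

set_option autoImplicit false

/-! # THEOREM P, block ORB (helper54): orbits of the congruence subgroups on the quotient -/

open MeasureTheory

noncomputable section

namespace Pool.PL

open Pool.TFD Pool.TC

/-- representatives of the left cosets -/
theorem ORB_cos {G : Type} [Group G] {H K : Subgroup G} (h : H.relIndex K ≠ 0) :
    ∃ (n : ℕ) (t : Fin n → G), ∀ κ ∈ K, ∃ j, ∃ x ∈ H, κ = t j * x := by
  have hfi : (H.subgroupOf K).FiniteIndex := ⟨h⟩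
  obtain ⟨n, ⟨ε⟩⟩ := Finite.exists_equiv_fin (K ⧸ H.subgroupOf K)
  refine ⟨n, fun j => ((ε.symm j).out : K), fun κ hκ => ?_⟩
  obtain ⟨q, hq⟩ : ∃ q : K ⧸ H.subgroupOf K, q = QuotientGroup.mk ⟨κ, hκ⟩ := ⟨_, rfl⟩
  refine ⟨ε q, ((q.out : K) : G)⁻¹ * κ, ?_, ?_⟩
  · have h1 : (QuotientGroup.mk q.out : K ⧸ H.subgroupOf K) = QuotientGroup.mk ⟨κ, hκ⟩ := by
      rw [← hq]
      exact QuotientGroup.out_eq' q
    have h2 := QuotientGroup.eq.1 h1
    exact Subgroup.mem_subgroupOf.1 h2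
  · show κ = ((ε.symm (ε q)).out : K) * (((q.out : K) : G)⁻¹ * κ)
    rw [Equiv.symm_apply_apply, mul_inv_cancel_left]

/-- the elements of an orbit -/
theorem ORB_mem {G X : Type} [Group G] [MulAction G X] {K : Subgroup G} {x y : X} :
    y ∈ MulAction.orbit K x ↔ ∃ κ ∈ K, κ • x = y := by
  constructor
  · rintro ⟨κ, hκ⟩
    exact ⟨κ, κ.2, hκ⟩
  · rintro ⟨κ, hκ, h⟩
    exact ⟨⟨κ, hκ⟩, h⟩

theorem ORB_meas {G : Type} [Group G] [TopologicalSpace G] [IsTopologicalGroup G]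
    [MeasurableSpace G] [BorelSpace G] (Γ K : Subgroup G) (hK : IsOpen (K : Set G))
    (x : G ⧸ Γ) : MeasurableSet (MulAction.orbit K x) := by
  rw [measurableSet_quotient]
  refine IsOpen.measurableSet ?_
  rw [isOpen_iff_mem_nhds]
  intro h hh
  have hc : Continuous fun z : G => z * h⁻¹ := continuous_mul_const _
  have hn : (fun z : G => z * h⁻¹) ⁻¹' (K : Set G) ∈ nhds h := by
    refine (hK.preimage hc).mem_nhds ?_
    show h * h⁻¹ ∈ K
    rw [mul_inv_cancel]
    exact K.one_mem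
  refine Filter.mem_of_superset hn ?_
  intro z hz
  have hz1 : z * h⁻¹ ∈ K := hz
  obtain ⟨κ, hκ, hκx⟩ := ORB_mem.1 (show (QuotientGroup.mk h : G ⧸ Γ) ∈ MulAction.orbit K x from hh)
  refine ORB_mem.2 ⟨z * h⁻¹ * κ, K.mul_mem hz1 hκ, ?_⟩
  rw [mul_smul, hκx]
  show (QuotientGroup.mk (z * h⁻¹ * h) : G ⧸ Γ) = QuotientGroup.mk z
  rw [inv_mul_cancel_right]

theorem p_ORB (hPTO : Stmt_PTO) (hPNR : Stmt_PNR) : Stmt_ORB := by
  intro ι _ _ k _ _ _ L Γ m hL hm hinv s
  obtain ⟨_, _, _, hB, hop, _⟩ := hPTO ι k L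
  obtain ⟨_, _, hidx, _, hconj, _⟩ := hPNR ι k L
  obtain ⟨N, g, hg⟩ := hL.classes
  have hmeas : ∀ (s : ι → ℕ) (x : GG k ⧸ Γ), MeasurableSet (MulAction.orbit (KG L s) x) :=
    fun s x => ORB_meas Γ (KG L s) (hop s).1 x
  refine ⟨?_, fun x => ⟨hmeas s x, ?_⟩⟩
  · -- finitely many orbits
    obtain ⟨n, t, ht⟩ := ORB_cos (hidx s)
    refine Finite.of_surjective (fun p : Fin n × Fin N =>
      (Quotient.mk'' ((t p.1)⁻¹ • (QuotientGroup.mk (g p.2) : GG k ⧸ Γ)) :
        MulAction.orbitRel.Quotient (KG L s) (GG k ⧸ Γ))) ?_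
    intro q
    induction q using Quotient.inductionOn' with
    | h y =>
      induction y using QuotientGroup.induction_on with
      | H z =>
        obtain ⟨i, κ, hκ, γ, hγ, hz⟩ := hg z
        obtain ⟨j, x, hx, hjx⟩ := ht κ⁻¹ ((KG L 0).inv_mem hκ)
        refine ⟨(j, i), ?_⟩
        refine Quotient.sound' ?_
        rw [MulAction.orbitRel_apply]
        refine ORB_mem.2 ⟨x, hx, ?_⟩
        have h1 : (QuotientGroup.mk z : GG k ⧸ Γ) = QuotientGroup.mk (κ * g i) := by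
          refine QuotientGroup.eq.2 ?_
          have h2 : z⁻¹ * (κ * g i) = γ⁻¹ := by
            rw [hz]
            group
          rw [h2]
          exact Γ.inv_mem hγ
        have h3 : κ = x⁻¹ * (t j)⁻¹ := by
          rw [← inv_inv κ, hjx, mul_inv_rev]
        rw [h1]
        show (QuotientGroup.mk (x * (κ * g i)) : GG k ⧸ Γ) = QuotientGroup.mk ((t j)⁻¹ * g i)
        congr 1
        rw [h3]
        group
  · -- positive mass
    refine ENNReal.toReal_pos (fun h0 => ?_) (measure_ne_top m _)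
    -- all small orbits are null sets
    have hsmall : ∀ y : GG k ⧸ Γ, ∃ s' : ι → ℕ, m (MulAction.orbit (KG L s') y) = 0 := by
      intro y
      obtain ⟨h, hh⟩ : ∃ h : GG k, y = h • x := by
        obtain ⟨a, rfl⟩ := QuotientGroup.mk_surjective x
        obtain ⟨b, rfl⟩ := QuotientGroup.mk_surjective y
        refine ⟨b * a⁻¹, ?_⟩
        show (QuotientGroup.mk b : GG k ⧸ Γ) = QuotientGroup.mk (b * a⁻¹ * a)
        rw [inv_mul_cancel_right]
      obtain ⟨s', hs'⟩ := hconj h⁻¹ s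
      refine ⟨s', ?_⟩
      have h1 : m ((fun x => h⁻¹ • x) ⁻¹' (MulAction.orbit (KG L s) x)) = 0 := by
        rw [(hinv h⁻¹).measure_preimage (hmeas s x).nullMeasurableSet]
        exact h0
      refine measure_mono_null ?_ h1
      intro z hz
      obtain ⟨κ, hκ, hκz⟩ := ORB_mem.1 hz
      refine ORB_mem.2 ⟨h⁻¹ * κ * h⁻¹⁻¹, hs' κ hκ, ?_⟩
      show (h⁻¹ * κ * h⁻¹⁻¹) • x = h⁻¹ • z
      rw [← hκz, hh, inv_inv, mul_smul, mul_smul]
    have hbig : ∀ y : GG k ⧸ Γ, m (MulAction.orbit (KG L 0) y) = 0 := by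
      intro y
      obtain ⟨s', hs'⟩ := hsmall y
      obtain ⟨n, t, ht⟩ := ORB_cos (hidx s')
      have h1 : ∀ j, m ((fun x => (t j)⁻¹ • x) ⁻¹' (MulAction.orbit (KG L s') y)) = 0 := by
        intro j
        rw [(hinv (t j)⁻¹).measure_preimage (hmeas s' y).nullMeasurableSet]
        exact hs'
      refine measure_mono_null ?_ (measure_iUnion_null h1)
      intro z hz
      obtain ⟨κ, hκ, hκz⟩ := ORB_mem.1 hz
      obtain ⟨j, x', hx', hj⟩ := ht κ hκ
      refine Set.mem_iUnion.2 ⟨j, ?_⟩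
      refine ORB_mem.2 ⟨x', hx', ?_⟩
      show x' • y = (t j)⁻¹ • z
      rw [← hκz, hj, mul_smul, inv_smul_smul]
    have huniv : m Set.univ = 0 := by
      refine measure_mono_null ?_ (measure_iUnion_null fun i : Fin N =>
        hbig (QuotientGroup.mk (g i)))
      intro y _
      obtain ⟨z, rfl⟩ := QuotientGroup.mk_surjective y
      obtain ⟨i, κ, hκ, γ, hγ, hz⟩ := hg z
      refine Set.mem_iUnion.2 ⟨i, ?_⟩
      refine ORB_mem.2 ⟨κ, hκ, ?_⟩
      show (QuotientGroup.mk (κ * g i) : GG k ⧸ Γ) = QuotientGroup.mk z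
      refine QuotientGroup.eq.2 ?_
      have h2 : (κ * g i)⁻¹ * z = γ := by
        rw [hz]
        group
      rw [h2]
      exact hγ
    rw [measure_univ] at huniv
    exact one_ne_zero huniv

end Pool.PL
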