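import Pool.Agent.Work.MP_972ac7_P.Interface2

set_option autoImplicit false

/-! # THEOREM P, block PFM: the product formula -/

open MeasureTheory NumberField IsDedekindDomain
open scoped Quaternion

noncomputable section

namespace Pool.PL

open Pool.TFD Pool.TC

theorem PFM_fin {F : Type} [Field F] [NumberField F] (n : 𝓞 F) (hn : n ≠ 0) :
    {w : HeightOneSpectrum (𝓞 F) | n ∈ w.asIdeal}.Finite := by
  have h1 : Ideal.span {n} ≠ 0 := by simp [hn]
  have h2 := Ideal.finite_factors h1
  refine h2.subset ?_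
  intro w hw
  change w.asIdeal ∣ Ideal.span {n}
  rw [Ideal.dvd_span_singleton]
  exact hw

theorem PFM_prod {F : Type} [Field F] [NumberField F] (hT : TR F) (z : 𝓞 F) (hz : z ≠ 0) :
    ∏ᶠ w : HeightOneSpectrum (𝓞 F), av w (z : F) = (Nm (z : F))⁻¹ := by
  have h1 := FinitePlace.prod_eq_inv_abs_norm_int (K := F) hz
  rw [← finprod_comp_equiv FinitePlace.equivHeightOneSpectrum.symm] at h1
  have h2 : ∀ w : HeightOneSpectrum (𝓞 F),
      (FinitePlace.equivHeightOneSpectrum.symm w : FinitePlace F) (z : F) = av w (z : F) := by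
    intro w
    rw [FinitePlace.equivHeightOneSpectrum_symm_apply, FinitePlace.norm_embedding]
    rfl
  simp only [h2] at h1
  rw [h1]
  congr 1
  rw [← hT.norm]
  have h3 : ((Algebra.norm ℤ z : ℤ) : ℚ) = Algebra.norm ℚ (z : F) := Algebra.coe_norm_int z
  rw [← h3]
  norm_cast

theorem PFM_supp {F : Type} [Field F] [NumberField F] (z : 𝓞 F) (hz : z ≠ 0)
    (w : HeightOneSpectrum (𝓞 F)) : ∃ S : Finset (HeightOneSpectrum (𝓞 F)), w ∈ S ∧
      ∀ w', w' ∉ S → av w' (z : F) = 1 := by
  classical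
  refine ⟨insert w (PFM_fin z hz).toFinset, Finset.mem_insert_self _ _, ?_⟩
  intro w' hw'
  rw [av_int_eq_one_iff]
  intro h
  apply hw'
  rw [Finset.mem_insert]
  right
  rw [Set.Finite.mem_toFinset]
  exact h

theorem PFM_two {F : Type} [Field F] [NumberField F] (hT : TR F) (z : 𝓞 F) (hz : z ≠ 0)
    (S : Finset (HeightOneSpectrum (𝓞 F))) (hS : ∀ w, w ∉ S → av w (z : F) = 1) :
    Nm (z : F) * ∏ w ∈ S, av w (z : F) = 1 := by
  have h1 := PFM_prod hT z hz
  rw [finprod_eq_prod_of_mulSupport_subset (s := S)] at h1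
  · have h2 : (z : F) ≠ 0 := by
      rw [ne_eq, RingOfIntegers.coe_eq_zero_iff]
      exact hz
    rw [h1]
    exact mul_inv_cancel₀ (Nm_pos h2).ne'
  · intro w hw
    by_contra hcon
    exact hw (hS w hcon)

theorem p_PFM : Stmt_PFM := by
  classical
  intro F _ _ hT
  refine ⟨?_, fun z hz S hS => PFM_two hT z hz S hS, ?_, fun n hn => PFM_fin n hn⟩
  · intro z hz w
    obtain ⟨S, hw, hS⟩ := PFM_supp z hz w
    have h1 := PFM_two hT z hz S hS
    rw [← Finset.mul_prod_erase S _ hw] at h1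
    have h2 : ∏ w' ∈ S.erase w, av w' (z : F) ≤ 1 :=
      Finset.prod_le_one (fun w' _ => av_nonneg w' _) (fun w' _ => av_int w' z)
    have h3 : 0 ≤ Nm (z : F) * av w (z : F) := mul_nonneg (Nm_nonneg _) (av_nonneg w _)
    calc (1 : ℝ) = Nm (z : F) * av w (z : F) * ∏ w' ∈ S.erase w, av w' (z : F) := by
          rw [← h1]; ring
      _ ≤ Nm (z : F) * av w (z : F) * 1 := mul_le_mul_of_nonneg_left h2 h3
      _ = Nm (z : F) * av w (z : F) := mul_one _
  · intro z hz
    have h1 : ∀ w : HeightOneSpectrum (𝓞 F), w.valuation F z ≤ 1 := by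
      intro w
      by_contra hcon
      push Not at hcon
      have h2 := hz w
      have h3 := WithZeroMulInt.toNNReal_strictMono (HeightOneSpectrum.one_lt_absNorm_nnreal w) hcon
      rw [map_one] at h3
      have h4 : av w z = ((WithZeroMulInt.toNNReal (HeightOneSpectrum.absNorm_ne_zero w)
        (w.valuation F z) : NNReal) : ℝ) := rfl
      rw [h4] at h2
      have h5 : (1 : ℝ) < ((WithZeroMulInt.toNNReal (HeightOneSpectrum.absNorm_ne_zero w)
        (w.valuation F z) : NNReal) : ℝ) := by exact_mod_cast h3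
      linarith
    obtain ⟨z', hz'⟩ := HeightOneSpectrum.mem_integers_of_valuation_le_one F z h1
    exact ⟨z', hz'⟩

end Pool.PL
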