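import Pool.Agent.Work.MP_972ac7_P.Interface2

set_option autoImplicit false

open MeasureTheory NumberField IsDedekindDomain
open scoped Quaternion

noncomputable section

namespace Pool.PL

open Pool.TFD Pool.TC

theorem PGL_cls (hRES : Stmt_RES) {k : Type} [NormedField k] [IsUltrametricDist k] (L : LocF k)
    (a r : ℕ) : ∃ c : k → Fin (L.q ^ r), ∀ x x' : k, ‖x‖ ≤ (L.q : ℝ) ^ a → ‖x'‖ ≤ (L.q : ℝ) ^ a →
      c x = c x' → ‖x - x'‖ ≤ (L.q : ℝ) ^ a * ((L.q : ℝ) ^ r)⁻¹ := by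
  obtain ⟨R, -, -, hR⟩ := hRES k L r
  have hq := L.q_pos
  have hpos : 0 < L.q ^ r := pow_pos (by have := L.two_le; omega) r
  have hex : ∀ x : k, ∃ i : Fin (L.q ^ r), ‖L.ϖ ^ a * x‖ ≤ 1 →
      ‖L.ϖ ^ a * x - R i‖ ≤ ((L.q : ℝ) ^ r)⁻¹ := by
    intro x
    by_cases h : ‖L.ϖ ^ a * x‖ ≤ 1
    · obtain ⟨i, hi⟩ := hR _ h
      exact ⟨i, fun _ => hi⟩
    · exact ⟨⟨0, hpos⟩, fun h' => absurd h' h⟩
  choose c hc using hex
  have hn : ‖L.ϖ ^ a‖ = ((L.q : ℝ) ^ a)⁻¹ := by rw [norm_pow, L.norm_ϖ, inv_pow]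
  have hqa : 0 < (L.q : ℝ) ^ a := pow_pos hq a
  have h1 : ∀ x : k, ‖x‖ ≤ (L.q : ℝ) ^ a → ‖L.ϖ ^ a * x‖ ≤ 1 := by
    intro x hx
    rw [norm_mul, hn, inv_mul_le_iff₀ hqa, mul_one]
    exact hx
  refine ⟨c, fun x x' hx hx' hcc => ?_⟩
  have e1 := hc x (h1 x hx)
  have e2 := hc x' (h1 x' hx')
  rw [← hcc] at e2
  have e3 : ‖L.ϖ ^ a * (x - x')‖ ≤ ((L.q : ℝ) ^ r)⁻¹ := by
    have e4 : L.ϖ ^ a * (x - x') = (L.ϖ ^ a * x - R (c x)) - (L.ϖ ^ a * x' - R (c x)) := by ring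
    rw [e4]
    rw [sub_eq_add_neg]
    refine (IsUltrametricDist.norm_add_le_max _ _).trans (max_le e1 ?_)
    rw [norm_neg]
    exact e2
  rw [norm_mul, hn, inv_mul_le_iff₀ hqa] at e3
  exact e3

theorem PGL_pow {q : ℕ} (hq : 2 ≤ q) {D : ℝ} (hD : 1 ≤ D) :
    ∃ a : ℕ, D ≤ (q : ℝ) ^ a ∧ (q : ℝ) ^ a ≤ q * D := by
  have hq1 : (1 : ℝ) < q := by exact_mod_cast (by omega : 1 < q)
  have hex : ∃ a : ℕ, D ≤ (q : ℝ) ^ a := by
    obtain ⟨n, hn⟩ := pow_unbounded_of_one_lt D hq1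
    exact ⟨n, hn.le⟩
  classical
  refine ⟨Nat.find hex, Nat.find_spec hex, ?_⟩
  rcases Nat.eq_zero_or_pos (Nat.find hex) with h | h
  · rw [h, pow_zero]
    nlinarith
  · have h1 := Nat.find_min hex (m := Nat.find hex - 1) (by omega)
    rw [not_le] at h1
    have h2 : (q : ℝ) ^ Nat.find hex = q * (q : ℝ) ^ (Nat.find hex - 1) := by
      rw [← pow_succ']
      congr 1
      omega
    rw [h2]
    exact mul_le_mul_of_nonneg_left h1.le (by linarith)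

theorem p_PGL (hCAR : Stmt_CAR) (hRES : Stmt_RES) (_hNRM : Stmt_NRM) : Stmt_PGL := by
  intro k _ _ L g D hD
  obtain ⟨j, κ, hκ, κ', hκ', hg⟩ := hCAR k L g
  have hq := L.q_pos
  have hq1 := L.one_lt
  have hqj : 0 < (L.q : ℝ) ^ j := pow_pos hq j
  refine ⟨((L.q : ℝ) ^ j)⁻¹, inv_pos.2 hqj, fun s hs hsε => ?_⟩
  obtain ⟨b, hb, hjb⟩ : ∃ b : ℕ, ‖s‖ = ((L.q : ℝ) ^ b)⁻¹ ∧ j ≤ b := by
    obtain ⟨n, hn⟩ := L.disc s hs
    have h1 : (L.q : ℝ) ^ n ≤ (L.q : ℝ) ^ (-(j : ℤ)) := by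
      rw [← hn, zpow_neg, zpow_natCast]
      exact hsε
    have h2 : n ≤ -(j : ℤ) := (zpow_le_zpow_iff_right₀ hq1).1 h1
    refine ⟨(-n).toNat, ?_, by omega⟩
    rw [hn, ← zpow_natCast, ← zpow_neg]
    congr 1
    omega
  obtain ⟨a, ha1, ha2⟩ := PGL_pow L.two_le hD
  obtain ⟨c0, hc0⟩ := PGL_cls hRES L a (a + b + j)
  obtain ⟨c1, hc1⟩ := PGL_cls hRES L a (a + b - j)
  refine ⟨Fintype.card (Fin (L.q ^ (a + b + j)) × Fin (L.q ^ (a + b + j)) ×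
    Fin (L.q ^ (a + b - j)) × Fin (L.q ^ (a + b - j))), fun m => Fintype.equivFin _
      (c0 ((((κ' : SL2 k) : Matrix (Fin 2) (Fin 2) k) * m) 0 0),
        c0 ((((κ' : SL2 k) : Matrix (Fin 2) (Fin 2) k) * m) 0 1),
        c1 ((((κ' : SL2 k) : Matrix (Fin 2) (Fin 2) k) * m) 1 0),
        c1 ((((κ' : SL2 k) : Matrix (Fin 2) (Fin 2) k) * m) 1 1)), ?_, ?_⟩
  · rw [Fintype.card_prod, Fintype.card_prod, Fintype.card_prod, Fintype.card_fin,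
      Fintype.card_fin, hb]
    push_cast
    have e1 : (L.q : ℝ) ^ (a + b + j) * ((L.q : ℝ) ^ (a + b + j) *
        ((L.q : ℝ) ^ (a + b - j) * (L.q : ℝ) ^ (a + b - j))) = ((L.q : ℝ) ^ (a + b)) ^ 4 := by
      rw [← pow_add, ← pow_add, ← pow_add, ← pow_mul]
      congr 1
      omega
    rw [e1, ← mul_pow]
    have e2 : (L.q : ℝ) ^ (a + b) * ((L.q : ℝ) ^ b)⁻¹ = (L.q : ℝ) ^ a := by
      rw [pow_add, mul_assoc, mul_inv_cancel₀ (pow_pos hq b).ne', mul_one]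
    rw [e2]
    exact pow_le_pow_left₀ (pow_nonneg hq.le a) ha2 4
  · intro m m' hm hm' hcl
    have hcl' := (Fintype.equivFin _).injective hcl
    simp only [Prod.mk.injEq] at hcl'
    obtain ⟨h00, h01, h10, h11⟩ := hcl'
    have hbd : ∀ (m : Matrix (Fin 2) (Fin 2) k), mnm m ≤ D → ∀ i c,
        ‖(((κ' : SL2 k) : Matrix (Fin 2) (Fin 2) k) * m) i c‖ ≤ (L.q : ℝ) ^ a := by
      intro m hm i c
      refine (le_mnm _ i c).trans ((mnm_mul_le _ _).trans ?_)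
      have h1 : mnm ((κ' : SL2 k) : Matrix (Fin 2) (Fin 2) k) ≤ 1 := hκ'.1
      calc mnm ((κ' : SL2 k) : Matrix (Fin 2) (Fin 2) k) * mnm m ≤ 1 * D :=
            mul_le_mul h1 hm (mnm_nonneg _) zero_le_one
        _ = D := one_mul D
        _ ≤ _ := ha1
    have g00 := hc0 _ _ (hbd m hm 0 0) (hbd m' hm' 0 0) h00
    have g01 := hc0 _ _ (hbd m hm 0 1) (hbd m' hm' 0 1) h01
    have g10 := hc1 _ _ (hbd m hm 1 0) (hbd m' hm' 1 0) h10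
    have g11 := hc1 _ _ (hbd m hm 1 1) (hbd m' hm' 1 1) h11
    obtain ⟨δ, hδ⟩ : ∃ δ : Matrix (Fin 2) (Fin 2) k,
        δ = ((κ' : SL2 k) : Matrix (Fin 2) (Fin 2) k) * (m - m') := ⟨_, rfl⟩
    have hδe : ∀ i c, δ i c = (((κ' : SL2 k) : Matrix (Fin 2) (Fin 2) k) * m) i c -
        (((κ' : SL2 k) : Matrix (Fin 2) (Fin 2) k) * m') i c := by
      intro i c
      rw [hδ, mul_sub, Matrix.sub_apply]
    rw [← hδe] at g00 g01 g10 g11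
    have e3 : (g : Matrix (Fin 2) (Fin 2) k) * (m - m') = ((κ : SL2 k) : Matrix (Fin 2) (Fin 2) k) *
        (((aa L j : SL2 k) : Matrix (Fin 2) (Fin 2) k) * δ) := by
      rw [hg, Matrix.SpecialLinearGroup.coe_mul, Matrix.SpecialLinearGroup.coe_mul, hδ,
        mul_assoc, mul_assoc]
    rw [e3]
    refine (mnm_mul_le _ _).trans ?_
    have hκ1 : mnm ((κ : SL2 k) : Matrix (Fin 2) (Fin 2) k) ≤ 1 := hκ.1
    refine le_trans (mul_le_of_le_one_left (mnm_nonneg _) hκ1) ?_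
    have r0 : (L.q : ℝ) ^ j * ((L.q : ℝ) ^ a * ((L.q : ℝ) ^ (a + b + j))⁻¹) =
        ((L.q : ℝ) ^ b)⁻¹ := by
      have : (L.q : ℝ) ^ (a + b + j) = (L.q : ℝ) ^ j * (L.q : ℝ) ^ a * (L.q : ℝ) ^ b := by
        rw [← pow_add, ← pow_add]
        congr 1
        omega
      rw [this]
      have h1 := (pow_pos hq a).ne'
      have h2 := (pow_pos hq j).ne'
      have h3 := (pow_pos hq b).ne'
      field_simp
    have r1 : ((L.q : ℝ) ^ j)⁻¹ * ((L.q : ℝ) ^ a * ((L.q : ℝ) ^ (a + b - j))⁻¹) =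
        ((L.q : ℝ) ^ b)⁻¹ := by
      have : (L.q : ℝ) ^ (a + b - j) * (L.q : ℝ) ^ j = (L.q : ℝ) ^ a * (L.q : ℝ) ^ b := by
        rw [← pow_add, ← pow_add]
        congr 1
        omega
      have h1 := (pow_pos hq a).ne'
      have h2 := (pow_pos hq j).ne'
      have h3 := (pow_pos hq b).ne'
      have h4 := (pow_pos hq (a + b - j)).ne'
      field_simp
      rw [mul_comm ((L.q : ℝ) ^ j), this]
    have hE : ∀ i c, (((aa L j : SL2 k) : Matrix (Fin 2) (Fin 2) k) * δ) i c =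
        (if i = 0 then (L.ϖ ^ j)⁻¹ else L.ϖ ^ j) * δ i c := by
      intro i c
      rw [Matrix.mul_apply, Fin.sum_univ_two]
      fin_cases i
      · simp [aa, dia]
      · simp [aa, dia]
    have hn : ‖L.ϖ ^ j‖ = ((L.q : ℝ) ^ j)⁻¹ := by rw [norm_pow, L.norm_ϖ, inv_pow]
    have hn' : ‖(L.ϖ ^ j)⁻¹‖ = (L.q : ℝ) ^ j := by rw [norm_inv, hn, inv_inv]
    rw [mnm_le, hb]
    have k0 : ∀ x : k, ‖x‖ ≤ (L.q : ℝ) ^ a * ((L.q : ℝ) ^ (a + b + j))⁻¹ →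
        ‖(L.ϖ ^ j)⁻¹ * x‖ ≤ ((L.q : ℝ) ^ b)⁻¹ := by
      intro x hx
      rw [norm_mul, hn', ← r0]
      exact mul_le_mul_of_nonneg_left hx hqj.le
    have k1 : ∀ x : k, ‖x‖ ≤ (L.q : ℝ) ^ a * ((L.q : ℝ) ^ (a + b - j))⁻¹ →
        ‖L.ϖ ^ j * x‖ ≤ ((L.q : ℝ) ^ b)⁻¹ := by
      intro x hx
      rw [norm_mul, hn, ← r1]
      exact mul_le_mul_of_nonneg_left hx (inv_pos.2 hqj).le
    rw [Fin.forall_fin_two, Fin.forall_fin_two, Fin.forall_fin_two, hE, hE, hE, hE,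
      if_pos rfl, if_neg (by decide)]
    exact ⟨⟨k0 _ g00, k0 _ g01⟩, ⟨k1 _ g10, k1 _ g11⟩⟩

end Pool.PL
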