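import Pool.Agent.Work.MP_972ac7_P.Interface1

set_option autoImplicit false

/-! # THEOREM P: block PNR (finite products: normality and indices) -/

open MeasureTheory

noncomputable section

namespace Pool.PL

open Pool.TFD Pool.TC

section

variable {ι : Type} [Fintype ι] [DecidableEq ι] {k : ι → Type} [∀ i, NormedField (k i)]
  [∀ i, IsUltrametricDist (k i)]

omit [Fintype ι] [DecidableEq ι] in
theorem PNR_map_le (L : ∀ i, LocF (k i)) (s : ι → ℕ) (i : ι) :
    (KG L s).map (Pi.evalMonoidHom (fun i => SL2 (k i)) i) ≤ KK (L i) (s i) := by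
  intro x hx
  obtain ⟨g, hg, rfl⟩ := Subgroup.mem_map.1 hx
  exact mem_KG.1 hg i

theorem PNR_rel {G : Type} [Group G] {H K K' : Subgroup G} (hK : K' ≤ K) (h : H.relIndex K ≠ 0) :
    H.relIndex K' ≠ 0 := by
  refine Subgroup.relIndex_ne_zero_trans h ?_
  rw [Subgroup.relIndex_eq_one.2 hK]
  exact one_ne_zero

end

theorem p_PNR (hKNR : Stmt_KNR) : Stmt_PNR := by
  intro ι _ _ k _ _ L
  refine ⟨?_, ?_, ?_, ?_, ?_, ?_⟩
  · intro s κ hκ x hx
    rw [mem_KG] at hκ hx ⊢
    intro i
    exact (hKNR (k i) (L i)).1 (s i) (κ i) (hκ i) (x i) (hx i)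
  · intro s s' h g hg
    rw [mem_KG] at hg ⊢
    intro i
    exact (hKNR (k i) (L i)).2.1 (s i) (s' i) (h i) (hg i)
  · intro s
    have h1 : KG L s = ⨅ i, (KK (L i) (s i)).comap (Pi.evalMonoidHom (fun i => SL2 (k i)) i) := by
      ext g
      rw [mem_KG, Subgroup.mem_iInf]
      rfl
    rw [h1]
    refine Subgroup.relIndex_iInf_ne_zero fun i => ?_
    rw [Subgroup.relIndex_comap]
    exact PNR_rel (PNR_map_le L 0 i) ((hKNR (k i) (L i)).2.2.1 (s i))
  · intro s v r
    have h1 : KG L (Function.update s v r) = KG L (Function.update s v 0) ⊓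
        (KK (L v) r).comap (Pi.evalMonoidHom (fun i => SL2 (k i)) v) := by
      ext g
      rw [Subgroup.mem_inf, mem_KG, mem_KG]
      constructor
      · intro h
        refine ⟨fun i => ?_, ?_⟩
        · by_cases hi : i = v
          · subst hi
            have h2 := h i
            rw [Function.update_self] at h2 ⊢
            exact (hKNR (k i) (L i)).2.1 0 r (Nat.zero_le r) h2
          · have h2 := h i
            rw [Function.update_of_ne hi] at h2 ⊢
            exact h2
        · have h2 := h v
          rw [Function.update_self] at h2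
          exact h2
      · rintro ⟨h, h'⟩ i
        by_cases hi : i = v
        · subst hi
          rw [Function.update_self]
          exact h'
        · have h2 := h i
          rw [Function.update_of_ne hi] at h2 ⊢
          exact h2
    have h2 : (KG L (Function.update s v r)).relIndex (KG L (Function.update s v 0)) =
        (KK (L v) r).relIndex ((KG L (Function.update s v 0)).map
          (Pi.evalMonoidHom (fun i => SL2 (k i)) v)) := by
      rw [h1, Subgroup.inf_relIndex_left, Subgroup.relIndex_comap]
    have h3 : (KG L (Function.update s v 0)).map (Pi.evalMonoidHom (fun i => SL2 (k i)) v) ≤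
        KK (L v) 0 := by
      have h4 := PNR_map_le L (Function.update s v 0) v
      rw [Function.update_self] at h4
      exact h4
    have h5 := (hKNR (k v) (L v)).2.2.1 r
    rw [h2]
    exact ⟨PNR_rel h3 h5, (Subgroup.relIndex_le_of_le_right h3 h5).trans
      ((hKNR (k v) (L v)).2.2.2.1 r)⟩
  · intro g s
    choose s' hs' using fun i => (hKNR (k i) (L i)).2.2.2.2.1 (g i) (s i)
    refine ⟨s', fun x hx => ?_⟩
    rw [mem_KG] at hx ⊢
    intro i
    exact hs' i (x i) (hx i)
  · intro g hg
    funext i
    exact (hKNR (k i) (L i)).2.2.2.2.2 (g i) fun r => mem_KG.1 (hg fun _ => r) i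

end Pool.PL
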