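import Pool.Agent.Work.MP_972ac7_P.Interface1

set_option autoImplicit false

open MeasureTheory

noncomputable section

namespace Pool.PL

open Pool.TFD Pool.TC

section abs

variable {G : Type} [Group G] [MeasurableSpace G] {Γ : Subgroup G}

theorem PRJ_ip_tr (m : Measure (G ⧸ Γ)) (κ : G) (hκ : MeasurePreserving (fun x => κ⁻¹ • x) m m)
    (f' f : G ⧸ Γ → ℂ) (hf' : Measurable f') (hf : Measurable f) (hinv : tr κ f' = f') :
    ip m f' (tr κ f) = ip m f' f := by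
  unfold ip
  have h1 : Measurable fun x => (starRingEnd ℂ) (f' x) * f x :=
    (Complex.continuous_conj.measurable.comp hf').mul hf
  have h2 : ∫ x, (starRingEnd ℂ) (f' x) * f x ∂m =
      ∫ x, (starRingEnd ℂ) (f' (κ⁻¹ • x)) * f (κ⁻¹ • x) ∂m := by
    have h3 := integral_map (μ := m) hκ.measurable.aemeasurable
      (f := fun x => (starRingEnd ℂ) (f' x) * f x) h1.aestronglyMeasurable
    rw [hκ.map_eq] at h3
    exact h3
  rw [h2]
  refine integral_congr_ae (Filter.Eventually.of_forall fun x => ?_)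
  have h4 := congrFun hinv x
  simp only [tr] at h4 ⊢
  rw [h4]

theorem PRJ_int (m : Measure (G ⧸ Γ)) [IsProbabilityMeasure m] (f' f : G ⧸ Γ → ℂ)
    (hf' : Measurable f') (hf : Measurable f) (hb' : ∃ C : ℝ, ∀ x, ‖f' x‖ ≤ C)
    (hb : ∃ C : ℝ, ∀ x, ‖f x‖ ≤ C) :
    Integrable (fun x => (starRingEnd ℂ) (f' x) * f x) m := by
  obtain ⟨C', hC'⟩ := hb'
  obtain ⟨C, hC⟩ := hb
  have h1 : Measurable fun x => (starRingEnd ℂ) (f' x) * f x :=
    (Complex.continuous_conj.measurable.comp hf').mul hf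
  refine Integrable.of_bound h1.aestronglyMeasurable (C' * C)
    (Filter.Eventually.of_forall fun x => ?_)
  rw [norm_mul, RCLike.norm_conj]
  exact mul_le_mul (hC' x) (hC x) (norm_nonneg _) (le_trans (norm_nonneg _) (hC' x))

/-- the abstract form: averages over representatives of `K / K'` -/
theorem PRJ_abs (m : Measure (G ⧸ Γ)) [IsProbabilityMeasure m]
    (hinv : ∀ g : G, MeasurePreserving (fun x => g • x) m m) (K K' : Subgroup G)
    (hK : ∀ f ∈ Inv Γ K, Measurable f ∧ (∃ C : ℝ, ∀ x, ‖f x‖ ≤ C))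
    (hK' : ∀ f ∈ Inv Γ K', Measurable f ∧ (∃ C : ℝ, ∀ x, ‖f x‖ ≤ C))
    (n : ℕ) (hn : 0 < n) (κ : Fin n → G) (hκ : ∀ i, κ i ∈ K)
    (hσ : ∀ h ∈ K, ∃ σ : Equiv.Perm (Fin n), ∀ i, (κ (σ i))⁻¹ * h * κ i ∈ K')
    (f : G ⧸ Γ → ℂ) (hf : f ∈ Inv Γ K') (f₁ : G ⧸ Γ → ℂ)
    (hf₁ : f₁ = fun x => (n : ℂ)⁻¹ * ∑ i, tr (κ i) f x) :
    f₁ ∈ Inv Γ K ∧ (∀ f' ∈ Inv Γ K, ip m f' (fun x => f x - f₁ x) = 0) ∧
      sq m f = sq m f₁ + sq m (fun x => f x - f₁ x) := by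
  have hn0 : (n : ℂ) ≠ 0 := by exact_mod_cast hn.ne'
  have hA : f₁ ∈ Inv Γ K := by
    intro h hh
    obtain ⟨σ, hσ1⟩ := hσ h hh
    funext x
    have h1 : tr h f₁ x = (n : ℂ)⁻¹ * ∑ i, tr (h * κ i) f x := by
      rw [hf₁]
      simp only [tr_mul]
      rfl
    have h2 : ∀ i, tr (h * κ i) f = tr (κ (σ i)) f := by
      intro i
      have h3 : h * κ i = κ (σ i) * ((κ (σ i))⁻¹ * h * κ i) := by group
      rw [h3, tr_mul, hf _ (hσ1 i)]
    rw [h1, hf₁]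
    simp only [h2]
    rw [Equiv.sum_comp σ (fun i => tr (κ i) f x)]
  obtain ⟨hmf, hbf⟩ := hK' f hf
  obtain ⟨hmf₁, hbf₁⟩ := hK f₁ hA
  have hint : ∀ f' ∈ Inv Γ K, ∀ g : G, Integrable (fun x => (starRingEnd ℂ) (f' x) * tr g f x) m := by
    intro f' hf' g
    obtain ⟨hm', hb'⟩ := hK f' hf'
    refine PRJ_int m f' (tr g f) hm' (hmf.comp (hinv g⁻¹).measurable) hb' ?_
    obtain ⟨C, hC⟩ := hbf
    exact ⟨C, fun x => hC _⟩
  have hB : ∀ f' ∈ Inv Γ K, ip m f' (fun x => f x - f₁ x) = 0 := by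
    intro f' hf'
    obtain ⟨hm', hb'⟩ := hK f' hf'
    have h1 : ip m f' f₁ = ip m f' f := by
      have h2 : ip m f' f₁ = (n : ℂ)⁻¹ * ∑ i, ip m f' (tr (κ i) f) := by
        unfold ip
        rw [← integral_finsetSum _ (fun i _ => hint f' hf' (κ i)), ← integral_const_mul]
        refine integral_congr_ae (Filter.Eventually.of_forall fun x => ?_)
        rw [hf₁]
        simp only []
        rw [← Finset.mul_sum]
        ring
      rw [h2]
      have h3 : ∀ i, ip m f' (tr (κ i) f) = ip m f' f := fun i =>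
        PRJ_ip_tr m (κ i) (hinv (κ i)⁻¹) f' f hm' hmf (hf' (κ i) (hκ i))
      simp only [h3]
      rw [Finset.sum_const, Finset.card_univ, Fintype.card_fin, nsmul_eq_mul, ← mul_assoc,
        inv_mul_cancel₀ hn0, one_mul]
    have h4 : ip m f' (fun x => f x - f₁ x) = ip m f' f - ip m f' f₁ := by
      unfold ip
      rw [← integral_sub (PRJ_int m f' f hm' hmf hb' hbf) (PRJ_int m f' f₁ hm' hmf₁ hb' hbf₁)]
      refine integral_congr_ae (Filter.Eventually.of_forall fun x => ?_)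
      simp only []
      ring
    rw [h4, h1, sub_self]
  refine ⟨hA, hB, ?_⟩
  have hC := hB f₁ hA
  have hmd : Measurable fun x => f x - f₁ x := hmf.sub hmf₁
  have hbd : ∃ C : ℝ, ∀ x, ‖f x - f₁ x‖ ≤ C := by
    obtain ⟨C, hC⟩ := hbf
    obtain ⟨C', hC'⟩ := hbf₁
    exact ⟨C + C', fun x => le_trans (norm_sub_le _ _) (add_le_add (hC x) (hC' x))⟩
  have hsqint : ∀ φ : G ⧸ Γ → ℂ, Measurable φ → (∃ C : ℝ, ∀ x, ‖φ x‖ ≤ C) →
      Integrable (fun x => ‖φ x‖ ^ 2) m := by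
    rintro φ hφ ⟨C, hC⟩
    refine Integrable.of_bound (hφ.norm.pow_const 2).aestronglyMeasurable (C ^ 2)
      (Filter.Eventually.of_forall fun x => ?_)
    rw [Real.norm_of_nonneg (by positivity)]
    exact pow_le_pow_left₀ (norm_nonneg _) (hC x) 2
  have hcr : Integrable (fun x => (starRingEnd ℂ) (f₁ x) * (f x - f₁ x)) m :=
    PRJ_int m f₁ _ hmf₁ hmd hbf₁ hbd
  have hre : ∫ x, ((starRingEnd ℂ) (f₁ x) * (f x - f₁ x)).re ∂m = 0 := by
    have h5 := integral_re hcr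
    have h6 : ∫ x, RCLike.re ((starRingEnd ℂ) (f₁ x) * (f x - f₁ x)) ∂m =
        ∫ x, ((starRingEnd ℂ) (f₁ x) * (f x - f₁ x)).re ∂m := rfl
    rw [← h6, h5]
    unfold ip at hC
    rw [hC]
    rfl
  have hcr' : Integrable (fun x => ((starRingEnd ℂ) (f₁ x) * (f x - f₁ x)).re) m := hcr.re
  unfold sq
  have h7 : ∀ x, ‖f x‖ ^ 2 = (‖f₁ x‖ ^ 2 + ‖f x - f₁ x‖ ^ 2) +
      2 * ((starRingEnd ℂ) (f₁ x) * (f x - f₁ x)).re := by
    intro x
    have h8 : f x = f₁ x + (f x - f₁ x) := by ring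
    have h9 : ‖f₁ x + (f x - f₁ x)‖ ^ 2 = (‖f₁ x‖ ^ 2 + ‖f x - f₁ x‖ ^ 2) +
        2 * ((starRingEnd ℂ) (f₁ x) * (f x - f₁ x)).re := by
      simp only [← Complex.normSq_eq_norm_sq, Complex.normSq_apply, Complex.add_re,
        Complex.add_im, Complex.sub_re, Complex.sub_im, Complex.mul_re, Complex.conj_re,
        Complex.conj_im]
      ring
    rw [← h9, ← h8]
  have h10 : ∫ x, ‖f x‖ ^ 2 ∂m = ∫ x, ((‖f₁ x‖ ^ 2 + ‖f x - f₁ x‖ ^ 2) +
      2 * ((starRingEnd ℂ) (f₁ x) * (f x - f₁ x)).re) ∂m :=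
    integral_congr_ae (Filter.Eventually.of_forall fun x => h7 x)
  have hi1 : Integrable (fun x => ‖f₁ x‖ ^ 2) m := hsqint f₁ hmf₁ hbf₁
  have hi2 : Integrable (fun x => ‖f x - f₁ x‖ ^ 2) m := hsqint _ hmd hbd
  have hi3 : Integrable (fun x => ‖f₁ x‖ ^ 2 + ‖f x - f₁ x‖ ^ 2) m := hi1.add hi2
  rw [h10, integral_add hi3 (hcr'.const_mul 2), integral_add hi1 hi2, integral_const_mul, hre]
  ring

end abs

theorem PRJ_eval_same {ι : Type} [DecidableEq ι] {k : ι → Type} [∀ i, NormedField (k i)]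
    (W : ι) (a b : SL2 (k W)) (h : GG k) :
    ((Pi.mulSingle W a : GG k)⁻¹ * h * (Pi.mulSingle W b : GG k)) W = a⁻¹ * h W * b := by
  simp only [Pi.mul_apply, Pi.inv_apply, Pi.mulSingle_eq_same]

theorem PRJ_eval_ne {ι : Type} [DecidableEq ι] {k : ι → Type} [∀ i, NormedField (k i)]
    (W u : ι) (hu : u ≠ W) (a b : SL2 (k W)) (h : GG k) :
    ((Pi.mulSingle W a : GG k)⁻¹ * h * (Pi.mulSingle W b : GG k)) u = h u := by
  simp only [Pi.mul_apply, Pi.inv_apply, Pi.mulSingle_eq_of_ne hu, inv_one, one_mul, mul_one]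

theorem PRJ_mulSingle_mem {ι : Type} [DecidableEq ι] {k : ι → Type} [∀ i, NormedField (k i)]
    [∀ i, IsUltrametricDist (k i)] (L : ∀ i, LocF (k i)) (s : ι → ℕ) (v : ι) (t : ℕ)
    (a : SL2 (k v)) (ha : a ∈ KK (L v) t) :
    (Pi.mulSingle v a : GG k) ∈ KG L (Function.update s v t) := by
  rw [mem_KG]
  intro u
  by_cases hu : u = v
  · subst hu
    rw [Pi.mulSingle_eq_same, Function.update_self]
    exact ha
  · rw [Pi.mulSingle_eq_of_ne hu]
    exact one_mem _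

/-- representatives with the permutations -/
theorem PRJ_reps {A : Type} [Group A] (K K' : Subgroup A) (hKK : K'.relIndex K ≠ 0) :
    ∃ (n : ℕ) (κ : Fin n → A), 0 < n ∧ (∀ i, κ i ∈ K) ∧
      ∀ h ∈ K, ∃ σ : Equiv.Perm (Fin n), ∀ i, (κ (σ i))⁻¹ * h * κ i ∈ K' := by
  have h0 : (K'.subgroupOf K).index ≠ 0 := hKK
  have hfi : (K'.subgroupOf K).FiniteIndex := ⟨h0⟩
  have hfin : Finite (K ⧸ K'.subgroupOf K) := Subgroup.finite_quotient_of_finiteIndex
  let e : Fin (Nat.card (K ⧸ K'.subgroupOf K)) ≃ (K ⧸ K'.subgroupOf K) :=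
    (Finite.equivFin _).symm
  refine ⟨Nat.card (K ⧸ K'.subgroupOf K), fun i => ((e i).out : K), Nat.card_pos,
    fun i => ((e i).out : K).2, ?_⟩
  intro h hh
  let h' : K := ⟨h, hh⟩
  refine ⟨(e.trans (MulAction.toPerm h')).trans e.symm, ?_⟩
  intro i
  have h1 : e (((e.trans (MulAction.toPerm h')).trans e.symm) i) = h' • e i := by
    simp [Equiv.trans_apply]
  have h2 : ((e (((e.trans (MulAction.toPerm h')).trans e.symm) i)).out : K ⧸ K'.subgroupOf K) =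
      ((h' * (e i).out : K) : K ⧸ K'.subgroupOf K) := by
    rw [QuotientGroup.out_eq', h1]
    conv_lhs => rw [← QuotientGroup.out_eq' (e i)]
    rfl
  rw [QuotientGroup.eq, Subgroup.mem_subgroupOf] at h2
  have h3 : ((((e (((e.trans (MulAction.toPerm h')).trans e.symm) i)).out : K)⁻¹ *
      (h' * (e i).out) : K) : A) = (((e (((e.trans (MulAction.toPerm h')).trans e.symm) i)).out : K) : A)⁻¹ *
      h * ((e i).out : K) := by
    rw [mul_assoc]
    rfl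
  rw [h3] at h2
  exact h2

theorem p_PRJ (hKNR : Stmt_KNR) (_hPNR : Stmt_PNR) (hORB : Stmt_ORB) (hIPL : Stmt_IPL) :
    Stmt_PRJ := by
  intro ι _ _ k _ _ _ L Γ m hLat hprob hinv s v r
  obtain ⟨-, hmono, hidx, -, -, -⟩ := hKNR (k v) (L v)
  have hrel : (KK (L v) r).relIndex (KK (L v) (r - 1)) ≠ 0 := by
    have h1 := Subgroup.relIndex_mul_relIndex (KK (L v) r) (KK (L v) (r - 1)) (KK (L v) 0)
      (hmono _ _ (Nat.sub_le r 1)) (hmono _ _ (Nat.zero_le _))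
    intro h2
    rw [h2, zero_mul] at h1
    exact hidx r h1.symm
  obtain ⟨n, κ, hn, hκ, hσ⟩ := PRJ_reps (KK (L v) (r - 1)) (KK (L v) r) hrel
  refine ⟨n, κ, hn, hκ, ?_⟩
  intro f hf f₁ hf₁
  have hbd : ∀ s' : ι → ℕ, ∀ f ∈ Inv Γ (KG L s'), Measurable f ∧ (∃ C : ℝ, ∀ x, ‖f x‖ ≤ C) := by
    intro s' f hf
    obtain ⟨h1, h2⟩ := hORB ι k L Γ m hLat hprob hinv s'
    obtain ⟨-, h3, -, -⟩ := hIPL (GG k) Γ (KG L s') m hprob h1 h2
    obtain ⟨h4, h5, -⟩ := h3 f hf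
    exact ⟨h4, h5⟩
  refine PRJ_abs m hinv (KG L (Function.update s v (r - 1))) (KG L (Function.update s v r))
    (hbd _) (hbd _) n hn (fun i => (Pi.mulSingle v (κ i) : GG k))
    (fun i => PRJ_mulSingle_mem L s v (r - 1) (κ i) (hκ i)) ?_ f hf f₁ hf₁
  intro h hh
  rw [mem_KG] at hh
  have hv := hh v
  rw [Function.update_self] at hv
  obtain ⟨σ, hσ1⟩ := hσ (h v) hv
  refine ⟨σ, fun i => ?_⟩
  rw [mem_KG]
  intro u
  by_cases hu : u = v
  · subst hu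
    rw [PRJ_eval_same, Function.update_self]
    exact hσ1 i
  · have h1 := hh u
    rw [Function.update_of_ne hu] at h1
    rw [PRJ_eval_ne v u hu, Function.update_of_ne hu]
    exact h1

end Pool.PL
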