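import Pool.Agent.Work.MP_972ac7_P.Interface1

set_option autoImplicit false

open MeasureTheory

noncomputable section

namespace Pool.PL

open Pool.TFD Pool.TC

theorem PTO_anti {k : Type} [NormedField k] [IsUltrametricDist k] (L : LocF k) {r t : ℕ}
    (h : r ≤ t) : KK L t ≤ KK L r := by
  intro g hg
  rw [mem_KK] at hg ⊢
  refine ⟨hg.1, hg.2.trans ?_⟩
  have h1 : (0 : ℝ) < (L.q : ℝ) ^ r := pow_pos L.q_pos r
  exact inv_anti₀ h1 (pow_le_pow_right₀ L.one_lt.le h)

theorem PTO_coe {ι : Type} {k : ι → Type} [∀ i, NormedField (k i)]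
    [∀ i, IsUltrametricDist (k i)] (L : ∀ i, LocF (k i)) (s : ι → ℕ) :
    (KG L s : Set (GG k)) = Set.pi Set.univ fun i => (KK (L i) (s i) : Set (SL2 (k i))) := by
  ext g
  rw [SetLike.mem_coe, mem_KG]
  simp

theorem p_PTO (hTOP : Stmt_TOP) : Stmt_PTO := by
  intro ι _ k _ _ _ L
  have h := fun i => hTOP (k i) (L i)
  have h1 : ∀ i, LocallyCompactSpace (SL2 (k i)) := fun i => (h i).1
  have h2 : ∀ i, SecondCountableTopology (SL2 (k i)) := fun i => (h i).2.1
  have h3 : ∀ i, T2Space (SL2 (k i)) := fun i => (h i).2.2.1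
  refine ⟨inferInstance, inferInstance, inferInstance, inferInstance, ?_, ?_⟩
  · intro s
    rw [PTO_coe]
    exact ⟨isOpen_set_pi Set.finite_univ fun i _ => ((h i).2.2.2.1 (s i)).1,
      isCompact_univ_pi fun i => ((h i).2.2.2.1 (s i)).2⟩
  · intro U hU
    rw [nhds_pi, Filter.mem_pi] at hU
    obtain ⟨I, -, t, ht, hI⟩ := hU
    choose r hr using fun i => (h i).2.2.2.2 (t i) (ht i)
    obtain ⟨T, hT⟩ := (Set.finite_range r).bddAbove
    refine ⟨T, fun g hg => hI fun i _ => hr i ?_⟩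
    rw [SetLike.mem_coe, mem_KG] at hg
    exact PTO_anti (L i) (hT ⟨i, rfl⟩) (hg i)

end Pool.PL
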