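import Pool.Agent.Work.MP_972ac7_P.Interface1

set_option autoImplicit false

/-! # Block REPS -/

namespace Pool.PL

theorem p_REPS (hKNR : Stmt_KNR) : Stmt_REPS := by
  intro k _ _ L t
  obtain ⟨-, -, h3, -, -, -⟩ := hKNR k L
  have hfi : ((KK L t).subgroupOf (KK L 0)).FiniteIndex := ⟨h3 t⟩
  obtain ⟨n, ⟨e⟩⟩ := Finite.exists_equiv_fin ((KK L 0) ⧸ (KK L t).subgroupOf (KK L 0))
  have hn : 0 < n := by
    rcases Nat.eq_zero_or_pos n with h | h
    · exfalso
      subst h
      exact (e (QuotientGroup.mk 1)).elim0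
    · exact h
  have key : ∀ (q : (KK L 0) ⧸ (KK L t).subgroupOf (KK L 0)) (κ : SL2 k) (hκ : κ ∈ KK L 0),
      (((Quotient.out q : KK L 0) : SL2 k))⁻¹ * κ ∈ KK L t ↔
        q = QuotientGroup.mk ⟨κ, hκ⟩ := by
    intro q κ hκ
    have h1 : (QuotientGroup.mk (Quotient.out q : KK L 0) :
        (KK L 0) ⧸ (KK L t).subgroupOf (KK L 0)) = q := Quotient.out_eq' q
    constructor
    · intro h
      rw [← h1]
      exact QuotientGroup.eq.2 (by rw [Subgroup.mem_subgroupOf]; exact h)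
    · intro h
      rw [← h1] at h
      have h2 := QuotientGroup.eq.1 h
      rw [Subgroup.mem_subgroupOf] at h2
      exact h2
  refine ⟨n, fun j => ((Quotient.out (e.symm j) : KK L 0) : SL2 k), hn, fun j => Subtype.property _,
    fun κ hκ => ⟨e (QuotientGroup.mk ⟨κ, hκ⟩), ?_, ?_⟩⟩
  · refine (key _ κ hκ).2 ?_
    rw [Equiv.symm_apply_apply]
  · intro j hj
    have h1 := (key _ κ hκ).1 hj
    rw [← h1, Equiv.apply_symm_apply]

end Pool.PL
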