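import Pool.Agent.Work.MP_972ac7_P.Interface1

set_option autoImplicit false

/-! # THEOREM P, block SGP: the strong gap -/

open MeasureTheory

namespace Pool.PL

section aux

variable {X : Type} [MeasurableSpace X] {m : Measure X}

theorem SGP_int {f : X → ℂ} (h : MemLp f 2 m) : Integrable (fun x => ‖f x‖ ^ 2) m :=
  (memLp_two_iff_integrable_sq_norm h.1).1 h

theorem SGP_nn (f : X → ℂ) : 0 ≤ sq m f := integral_nonneg fun _ => sq_nonneg _

theorem SGP_neg (f g : X → ℂ) : sq m (fun x => f x - g x) = sq m (fun x => g x - f x) := by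
  unfold sq
  congr 1
  funext x
  rw [norm_sub_rev]

theorem SGP_add {f g : X → ℂ} (hf : MemLp f 2 m) (hg : MemLp g 2 m) :
    sq m (fun x => f x + g x) ≤ 2 * sq m f + 2 * sq m g := by
  unfold sq
  rw [← integral_const_mul, ← integral_const_mul, ← integral_add ((SGP_int hf).const_mul 2)
    ((SGP_int hg).const_mul 2)]
  refine integral_mono (SGP_int (hf.add hg)) (((SGP_int hf).const_mul 2).add
    ((SGP_int hg).const_mul 2)) fun x => ?_
  have h1 := norm_add_le (f x) (g x)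
  have h2 := norm_nonneg (f x + g x)
  have h3 := sq_nonneg (‖f x‖ - ‖g x‖)
  show ‖f x + g x‖ ^ 2 ≤ 2 * ‖f x‖ ^ 2 + 2 * ‖g x‖ ^ 2
  nlinarith [norm_nonneg (f x), norm_nonneg (g x)]

theorem SGP_comp {f : X → ℂ} (hf : MemLp f 2 m) {T : X → X} (hT : MeasurePreserving T m m) :
    sq m (fun x => f (T x)) = sq m f := by
  unfold sq
  have h1 : AEStronglyMeasurable (fun x => ‖f x‖ ^ 2) (Measure.map T m) := by
    rw [hT.map_eq]
    exact (SGP_int hf).1
  have h2 := integral_map hT.measurable.aemeasurable h1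
  rw [hT.map_eq] at h2
  exact h2.symm

end aux

theorem p_SGP (hGPV : Stmt_GPV) (hCX1 : Stmt_CX1) (hCX2 : Stmt_CX2) (hCX3 : Stmt_CX3)
    (hORB : Stmt_ORB) (hIPL : Stmt_IPL) : Stmt_SGP := by
  intro ι _ _ k _ _ _ L Γ m hL hm hinv h2 W P hWP M hM hMq
  obtain ⟨c, hc, hgap⟩ := hGPV ι k L Γ m hL hm hinv h2 W P hWP M hM hMq 0 rfl
  have hA : 0 < 54 / c + 8 := by positivity
  refine ⟨Real.sqrt (1 / (2 * (54 / c + 8))), Real.sqrt_pos.2 (by positivity), ?_⟩
  intro φ hφ hφ0
  have hδ : Real.sqrt (1 / (2 * (54 / c + 8))) ^ 2 = 1 / (2 * (54 / c + 8)) :=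
    Real.sq_sqrt (by positivity)
  rw [hδ]
  by_contra hcon
  rw [not_or] at hcon
  obtain ⟨hκ, ha⟩ := hcon
  rw [not_le] at ha
  set D := 1 / (2 * (54 / c + 8)) * sq m φ with hD
  have hDpos : 0 < D := lt_of_le_of_lt (SGP_nn _) ha
  have hφpos : 0 < sq m φ := by
    by_contra h3
    have h4 : sq m φ = 0 := le_antisymm (not_lt.1 h3) (SGP_nn φ)
    rw [hD, h4, mul_zero] at hDpos
    exact lt_irrefl _ hDpos
  have hκ' : ∀ κ ∈ KG L 0, κ P = 1 → sq m (fun x => tr κ φ x - φ x) ≤ D := by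
    intro κ h3 h4
    by_contra h5
    exact hκ ⟨κ, h3, h4, (not_le.1 h5).le⟩
  obtain ⟨t, ht⟩ := hCX2 ι k L Γ m ⟨⟨W, P, hWP⟩⟩ hL hm hinv φ hφ D hDpos
  have ht2 := hCX3 ι k L Γ m hL hm hinv P φ hφ D hκ' t
  obtain ⟨o1, o2⟩ := hORB ι k L Γ m hL hm hinv (Function.update 0 P t)
  obtain ⟨o3, o4⟩ := hORB ι k L Γ m hL hm hinv (fun _ => t)
  obtain ⟨f1, f2, -, -⟩ := hCX1 (GG k) Γ (KG L (Function.update 0 P t)) m hm o1 o2 φ hφ
  obtain ⟨g1, -, -, -⟩ := hCX1 (GG k) Γ (KG L fun _ => t) m hm o3 o4 φ hφ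
  have fM := ((hIPL (GG k) Γ (KG L (Function.update 0 P t)) m hm o1 o2).2.1 _ f1).2.2
  have gM := ((hIPL (GG k) Γ (KG L fun _ => t) m hm o3 o4).2.1 _ g1).2.2
  set f := cex m (KG L (Function.update 0 P t)) φ with hf
  set g := cex m (KG L fun _ => t) φ with hg
  have e1 : sq m (fun x => φ x - f x) ≤ 4 * D := by
    have e2 := SGP_add (m := m) (hφ.sub gM) (gM.sub fM)
    have e3 : (fun x => φ x - f x) = fun x => (φ - g) x + (g - f) x := by
      funext x
      simp only [Pi.sub_apply]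
      ring
    have e4 : sq m (g - f) ≤ D := by
      have e5 := SGP_neg (m := m) f g
      have e6 : sq m (g - f) = sq m (fun x => g x - f x) := rfl
      rw [e6, ← e5]
      exact ht2
    have e7 : sq m (φ - g) ≤ D := ht
    rw [e3]
    linarith
  have hf0 : ∫ x, f x ∂m = 0 := f2.trans hφ0
  have e8 := hgap t f f1 hf0
  -- the translate
  have hT : MeasurePreserving (fun x : GG k ⧸ Γ => (aW L W M)⁻¹ • x) m m := hinv _
  have e9 : sq m (fun x => tr (aW L W M) f x - f x) ≤ 2 * (4 * D) + 2 * (2 * D + 2 * (4 * D)) := by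
    have M1 : MemLp (fun x : GG k ⧸ Γ => (f - φ) ((aW L W M)⁻¹ • x)) 2 m :=
      (fM.sub hφ).comp_measurePreserving hT
    have M2 : MemLp (fun x : GG k ⧸ Γ => φ ((aW L W M)⁻¹ • x)) 2 m :=
      hφ.comp_measurePreserving hT
    have M3 := SGP_add (m := m) M1 ((M2.sub hφ).add (hφ.sub fM))
    have M4 := SGP_add (m := m) (M2.sub hφ) (hφ.sub fM)
    have M5 := SGP_comp (fM.sub hφ) hT
    have M6 : (fun x => tr (aW L W M) f x - f x) = fun x : GG k ⧸ Γ =>
        (f - φ) ((aW L W M)⁻¹ • x) +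
          (((fun x : GG k ⧸ Γ => φ ((aW L W M)⁻¹ • x)) - φ) + (φ - f)) x := by
      funext x
      simp only [Pi.sub_apply, Pi.add_apply, tr]
      ring
    have M7 : sq m (f - φ) ≤ 4 * D := by
      have M8 : sq m (f - φ) = sq m (fun x => φ x - f x) := SGP_neg (m := m) f φ
      rw [M8]
      exact e1
    have M9 : sq m (φ - f) ≤ 4 * D := e1
    have M10 : sq m ((fun x : GG k ⧸ Γ => φ ((aW L W M)⁻¹ • x)) - φ) ≤ D := ha.le
    have M11 : sq m (((fun x : GG k ⧸ Γ => φ ((aW L W M)⁻¹ • x)) - φ) + (φ - f)) ≤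
        2 * D + 2 * (4 * D) := by
      refine M4.trans ?_
      linarith
    rw [M6]
    refine M3.trans ?_
    rw [M5]
    linarith
  have e10 : c * sq m f ≤ 28 * D := by
    refine e8.trans (e9.trans ?_)
    linarith
  have e11 : sq m φ ≤ 2 * sq m f + 2 * (4 * D) := by
    have e12 := SGP_add (m := m) fM (hφ.sub fM)
    have e13 : (fun x => f x + (φ - f) x) = φ := by
      funext x
      simp only [Pi.sub_apply]
      ring
    rw [e13] at e12
    have e14 : sq m (φ - f) ≤ 4 * D := e1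
    linarith
  have e15 : sq m f ≤ 28 * D / c := by
    rw [le_div_iff₀ hc]
    linarith
  have e16 : sq m φ ≤ (56 / c + 8) * D := by
    have e17 : 28 * D / c = 28 / c * D := by ring
    rw [e17] at e15
    have e18 : (56 / c + 8) * D = 2 * (28 / c * D) + 8 * D := by ring
    rw [e18]
    linarith
  have e19 : (56 / c + 8) * D < sq m φ := by
    have e20 : (56 / c + 8) ≤ 56 / 54 * (54 / c + 8) := by
      have : 56 / 54 * (54 / c + 8) = 56 / c + 56 / 54 * 8 := by
        field_simp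
      rw [this]
      linarith
    have e21 : (54 / c + 8) * D = 1 / 2 * sq m φ := by
      rw [hD]
      field_simp
    calc (56 / c + 8) * D ≤ 56 / 54 * (54 / c + 8) * D :=
          mul_le_mul_of_nonneg_right e20 hDpos.le
      _ = 56 / 54 * (1 / 2 * sq m φ) := by rw [mul_assoc, e21]
      _ < sq m φ := by linarith
  exact absurd e16 (not_le.2 e19)

end Pool.PL
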