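import Pool.Agent.Work.MP_972ac7_P.Interface1

set_option autoImplicit false

/-! # Block SMM of THEOREM P: summation -/

namespace Pool.PL

theorem SMM_geom (t : ℝ) (ht : 3 / 2 ≤ t) (J : ℕ) :
    ∑ j ∈ Finset.range (J + 1), t ^ j ≤ 3 * t ^ J := by
  induction J with
  | zero => simp
  | succ J ih =>
    rw [Finset.sum_range_succ]
    have h1 : 0 < t ^ J := by positivity
    have h2 : 3 * t ^ J ≤ 2 * (t ^ J * t) := by nlinarith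
    rw [pow_succ]
    linarith

theorem SMM_half (x : ℝ) (hx : 2 ≤ x) (J : ℕ) :
    ∑ j ∈ Finset.range (J + 1), (x ^ j)⁻¹ ≤ 2 := by
  have h : ∀ J : ℕ, ∑ j ∈ Finset.range (J + 1), (x ^ j)⁻¹ ≤ 2 - (x ^ J)⁻¹ := by
    intro J
    induction J with
    | zero => norm_num
    | succ J ih =>
      rw [Finset.sum_range_succ]
      have h1 : 0 < (x ^ J)⁻¹ := by positivity
      have h2 : (x ^ (J + 1))⁻¹ * x = (x ^ J)⁻¹ := by
        rw [pow_succ]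
        field_simp
      have h3 : 0 < (x ^ (J + 1))⁻¹ := by positivity
      nlinarith
  have h1 : 0 < (x ^ J)⁻¹ := by positivity
  linarith [h J]

theorem SMM_rp (u : ℝ) (hu : 0 ≤ u) (a b c : ℕ) (h : a * b = 3 * c) :
    (u ^ a) ^ ((b : ℝ) / 3) = u ^ c := by
  rw [← Real.rpow_natCast, ← Real.rpow_mul hu, ← Real.rpow_natCast]
  congr 1
  have h' : (a : ℝ) * b = 3 * c := by exact_mod_cast h
  linarith

theorem SMM_num (Y Q : ℝ) (hY : 0 < Y) (hQ : 1 ≤ Q) (h : Y ^ 5 ≤ Q ^ 11) :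
    (1 + Y / Q ^ 2) * ((Q ^ (5 / 3 : ℝ))⁻¹ * Y ^ (2 / 3 : ℝ)) ≤ 2 := by
  obtain ⟨u, hu1, hu⟩ : ∃ u : ℝ, 1 ≤ u ∧ u ^ 15 = Q := by
    refine ⟨Q ^ ((15 : ℕ) : ℝ)⁻¹, Real.one_le_rpow hQ (by positivity), ?_⟩
    exact Real.rpow_inv_natCast_pow (by linarith) (by norm_num)
  have hu0 : 0 < u := by linarith
  have hY1 : Y ≤ u ^ 33 := by
    refine le_of_pow_le_pow_left₀ (n := 5) (by norm_num) (by positivity) ?_
    calc Y ^ 5 ≤ Q ^ 11 := h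
      _ = (u ^ 33) ^ 5 := by rw [← hu]; ring
  have hY2 : Y ^ (2 / 3 : ℝ) ≤ u ^ 22 := by
    refine (Real.rpow_le_rpow hY.le hY1 (by norm_num)).trans (le_of_eq ?_)
    have := SMM_rp u hu0.le 33 2 22 (by norm_num)
    exact_mod_cast this
  have hQ1 : Q ^ (5 / 3 : ℝ) = u ^ 25 := by
    rw [← hu]
    have := SMM_rp u hu0.le 15 5 25 (by norm_num)
    exact_mod_cast this
  have h1 : 1 + Y / Q ^ 2 ≤ 2 * u ^ 3 := by
    have h2 : Y / Q ^ 2 ≤ u ^ 3 := by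
      rw [← hu, div_le_iff₀ (by positivity)]
      refine hY1.trans (le_of_eq ?_)
      ring
    have h3 : 1 ≤ u ^ 3 := one_le_pow₀ hu1
    linarith
  have h4 : (Q ^ (5 / 3 : ℝ))⁻¹ * Y ^ (2 / 3 : ℝ) ≤ (u ^ 25)⁻¹ * u ^ 22 := by
    rw [hQ1]
    exact mul_le_mul_of_nonneg_left hY2 (by positivity)
  calc (1 + Y / Q ^ 2) * ((Q ^ (5 / 3 : ℝ))⁻¹ * Y ^ (2 / 3 : ℝ))
      ≤ (2 * u ^ 3) * ((u ^ 25)⁻¹ * u ^ 22) := by
        refine mul_le_mul h1 h4 (by positivity) (by positivity)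
    _ = 2 := by
        field_simp

theorem p_SMM : Stmt_SMM := by
  classical
  intro q hq C Q J hC hQ hJ A _ n hn hA
  have hq2 : (2 : ℝ) ≤ q := by exact_mod_cast hq
  have hq0 : (0 : ℝ) < q := by linarith
  have hQ0 : 0 < Q := by linarith
  set t : ℝ := (q : ℝ) ^ (2 / 3 : ℝ) with ht
  have ht1 : 3 / 2 ≤ t := by
    have h1 : (2 : ℝ) ^ (2 / 3 : ℝ) ≤ t := Real.rpow_le_rpow (by norm_num) hq2 (by norm_num)
    have h2 : (3 / 2 : ℝ) ≤ (2 : ℝ) ^ (2 / 3 : ℝ) := by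
      refine le_of_pow_le_pow_left₀ (n := 3) (by norm_num) (by positivity) ?_
      rw [← Real.rpow_natCast ((2 : ℝ) ^ (2 / 3 : ℝ)) 3, ← Real.rpow_mul (by norm_num)]
      norm_num
    linarith
  -- each term
  have hterm : ∀ a, (n a)⁻¹ ≤ ∑ j ∈ Finset.range (J + 1),
      (if n a ≤ (q : ℝ) ^ j then ((q : ℝ) ^ j)⁻¹ else 0) := by
    intro a
    obtain ⟨j, hj, hja⟩ := hn a
    have h1 : (if n a ≤ (q : ℝ) ^ j then ((q : ℝ) ^ j)⁻¹ else 0) = (n a)⁻¹ := by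
      rw [if_pos hja.le, hja]
    rw [← h1]
    refine Finset.single_le_sum (f := fun j => if n a ≤ (q : ℝ) ^ j then ((q : ℝ) ^ j)⁻¹ else 0)
      (fun i _ => ?_) (Finset.mem_range.2 (by omega))
    split_ifs
    · positivity
    · exact le_rfl
  have hcard : ∀ j, ∑ a, (if n a ≤ (q : ℝ) ^ j then ((q : ℝ) ^ j)⁻¹ else 0) =
      (Nat.card {a // n a ≤ (q : ℝ) ^ j} : ℝ) * ((q : ℝ) ^ j)⁻¹ := by
    intro j
    rw [← Finset.sum_filter, Finset.sum_const, nsmul_eq_mul, Nat.card_eq_fintype_card,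
      Fintype.card_subtype]
  have hj : ∀ j ∈ Finset.range (J + 1), (Nat.card {a // n a ≤ (q : ℝ) ^ j} : ℝ) *
      ((q : ℝ) ^ j)⁻¹ ≤ 2 * ((q : ℝ) ^ j)⁻¹ +
        C * ((1 + (q : ℝ) ^ J / Q ^ 2) * ((Q ^ (5 / 3 : ℝ))⁻¹ * t ^ j)) := by
    intro j hj
    have hj' : j ≤ J := by have := Finset.mem_range.1 hj; omega
    have hx : (0 : ℝ) < (q : ℝ) ^ j := by positivity
    refine (mul_le_mul_of_nonneg_right (hA j hj') (inv_nonneg.2 hx.le)).trans ?_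
    have h1 : ((q : ℝ) ^ j / Q) ^ (5 / 3 : ℝ) * ((q : ℝ) ^ j)⁻¹ =
        (Q ^ (5 / 3 : ℝ))⁻¹ * t ^ j := by
      have h2 : ((q : ℝ) ^ j) ^ (5 / 3 : ℝ) = (q : ℝ) ^ j * t ^ j := by
        have h3 : t ^ j = ((q : ℝ) ^ j) ^ (2 / 3 : ℝ) := by
          rw [ht, ← Real.rpow_natCast, ← Real.rpow_natCast, ← Real.rpow_mul hq0.le,
            ← Real.rpow_mul hq0.le, mul_comm]
        rw [h3]
        have h4 : (5 / 3 : ℝ) = 1 + 2 / 3 := by norm_num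
        rw [h4, Real.rpow_add hx, Real.rpow_one]
      rw [Real.div_rpow hx.le hQ0.le, h2]
      have h5 : 0 < Q ^ (5 / 3 : ℝ) := by positivity
      field_simp
    have h6 : (1 + (q : ℝ) ^ j / Q ^ 2) ≤ 1 + (q : ℝ) ^ J / Q ^ 2 := by
      have h7 : (q : ℝ) ^ j ≤ (q : ℝ) ^ J := pow_le_pow_right₀ (by linarith) hj'
      have h8 : (q : ℝ) ^ j / Q ^ 2 ≤ (q : ℝ) ^ J / Q ^ 2 :=
        div_le_div_of_nonneg_right h7 (by positivity)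
      linarith
    have h9 : 0 ≤ C * ((Q ^ (5 / 3 : ℝ))⁻¹ * t ^ j) := by positivity
    calc (2 + C * ((q : ℝ) ^ j / Q) ^ (5 / 3 : ℝ) * (1 + (q : ℝ) ^ j / Q ^ 2)) *
          ((q : ℝ) ^ j)⁻¹
        = 2 * ((q : ℝ) ^ j)⁻¹ + C * (((q : ℝ) ^ j / Q) ^ (5 / 3 : ℝ) * ((q : ℝ) ^ j)⁻¹) *
          (1 + (q : ℝ) ^ j / Q ^ 2) := by ring
      _ = 2 * ((q : ℝ) ^ j)⁻¹ + (C * ((Q ^ (5 / 3 : ℝ))⁻¹ * t ^ j)) *
          (1 + (q : ℝ) ^ j / Q ^ 2) := by rw [h1]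
      _ ≤ 2 * ((q : ℝ) ^ j)⁻¹ + (C * ((Q ^ (5 / 3 : ℝ))⁻¹ * t ^ j)) *
          (1 + (q : ℝ) ^ J / Q ^ 2) := by
          have := mul_le_mul_of_nonneg_left h6 h9
          linarith
      _ = _ := by ring
  have hY : (0 : ℝ) < (q : ℝ) ^ J := by positivity
  have htJ : t ^ J = ((q : ℝ) ^ J) ^ (2 / 3 : ℝ) := by
    rw [ht, ← Real.rpow_natCast, ← Real.rpow_natCast, ← Real.rpow_mul hq0.le,
      ← Real.rpow_mul hq0.le, mul_comm]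
  calc ∑ a, (n a)⁻¹ ≤ ∑ a, ∑ j ∈ Finset.range (J + 1),
      (if n a ≤ (q : ℝ) ^ j then ((q : ℝ) ^ j)⁻¹ else 0) :=
        Finset.sum_le_sum fun a _ => hterm a
    _ = ∑ j ∈ Finset.range (J + 1), (Nat.card {a // n a ≤ (q : ℝ) ^ j} : ℝ) *
        ((q : ℝ) ^ j)⁻¹ := by
        rw [Finset.sum_comm]
        exact Finset.sum_congr rfl fun j _ => hcard j
    _ ≤ ∑ j ∈ Finset.range (J + 1), (2 * ((q : ℝ) ^ j)⁻¹ +
        C * ((1 + (q : ℝ) ^ J / Q ^ 2) * ((Q ^ (5 / 3 : ℝ))⁻¹ * t ^ j))) :=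
        Finset.sum_le_sum hj
    _ = 2 * ∑ j ∈ Finset.range (J + 1), ((q : ℝ) ^ j)⁻¹ +
        C * ((1 + (q : ℝ) ^ J / Q ^ 2) * ((Q ^ (5 / 3 : ℝ))⁻¹ *
          ∑ j ∈ Finset.range (J + 1), t ^ j)) := by
        rw [Finset.sum_add_distrib, ← Finset.mul_sum, ← Finset.mul_sum, ← Finset.mul_sum,
          ← Finset.mul_sum]
    _ ≤ 2 * 2 + C * ((1 + (q : ℝ) ^ J / Q ^ 2) * ((Q ^ (5 / 3 : ℝ))⁻¹ * (3 * t ^ J))) := by
        have h1 := SMM_half q hq2 J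
        have h2 := SMM_geom t ht1 J
        have h3 : 0 ≤ (Q ^ (5 / 3 : ℝ))⁻¹ := by positivity
        have h4 : 0 ≤ 1 + (q : ℝ) ^ J / Q ^ 2 := by positivity
        have h5 := mul_le_mul_of_nonneg_left (mul_le_mul_of_nonneg_left
          (mul_le_mul_of_nonneg_left h2 h3) h4) hC
        linarith
    _ = 4 + 3 * C * ((1 + (q : ℝ) ^ J / Q ^ 2) * ((Q ^ (5 / 3 : ℝ))⁻¹ *
          ((q : ℝ) ^ J) ^ (2 / 3 : ℝ))) := by
        rw [htJ]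
        ring
    _ ≤ 4 + 3 * C * 2 := by
        have h1 := SMM_num ((q : ℝ) ^ J) Q hY hQ hJ
        have h2 := mul_le_mul_of_nonneg_left h1 (by positivity : (0 : ℝ) ≤ 3 * C)
        linarith
    _ = 4 + 6 * C := by ring

end Pool.PL
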