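import Pool.Agent.Work.MP_972ac7_P.Interface1

set_option autoImplicit false

noncomputable section

namespace Pool.PL

theorem p_SPC : Stmt_SPC := by
  intro V _ _ _ B hsym hpos T hT c hc
  classical
  let core : InnerProductSpace.Core ℂ V :=
    { inner := fun x y => B x y
      conj_inner_symm := fun x y => hsym y x
      re_inner_nonneg := fun x => by
        by_cases hx : x = 0
        · subst hx; simp
        · exact (hpos x hx).le
      add_left := fun x y z => by simp
      smul_left := fun x y r => by simp
      definite := fun x hx => by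
        by_contra hne
        have h := hpos x hne
        rw [show (B x) x = 0 from hx] at h
        simp at h }
  letI : NormedAddCommGroup V := core.toNormedAddCommGroup
  letI : InnerProductSpace ℂ V := InnerProductSpace.ofCore core.toCore
  have hin : ∀ x y : V, inner ℂ x y = B x y := fun x y => rfl
  have hTs : T.IsSymmetric := fun x y => by
    rw [hin, hin]; exact hT x y
  set n := Module.finrank ℂ V with hn
  let b := hTs.eigenvectorBasis hn.symm
  let lam := hTs.eigenvalues hn.symm
  have hb : ∀ i, T (b i) = (lam i : ℂ) • b i := fun i => hTs.apply_eigenvectorBasis hn.symm i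
  have hlt : ∀ i, lam i < c := by
    intro i
    by_contra hge
    push Not at hge
    have h0 := hc (lam i) hge (b i) (hb i)
    have h1 := b.orthonormal.1 i
    rw [h0] at h1
    simp at h1
  have hexp : ∀ x : V, (B (T x) x).re = ∑ i, lam i * ‖inner ℂ (b i) x‖ ^ 2 := by
    intro x
    rw [← hin, ← b.sum_inner_mul_inner (T x) x, Complex.re_sum]
    refine Finset.sum_congr rfl fun i _ => ?_
    have h1 : inner ℂ (T x) (b i) = (lam i : ℂ) * inner ℂ x (b i) := by
      rw [hTs x (b i), hb i, inner_smul_right]
    rw [h1, mul_assoc, Complex.re_ofReal_mul, ← inner_conj_symm x (b i)]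
    congr 1
    rw [mul_comm, Complex.mul_conj]
    rw [Complex.ofReal_re, Complex.normSq_eq_norm_sq]
  have hexp2 : ∀ x : V, (B x x).re = ∑ i, ‖inner ℂ (b i) x‖ ^ 2 := by
    intro x
    rw [← hin, ← b.sum_inner_mul_inner x x, Complex.re_sum]
    refine Finset.sum_congr rfl fun i _ => ?_
    rw [← inner_conj_symm x (b i)]
    rw [mul_comm, Complex.mul_conj]
    rw [Complex.ofReal_re, Complex.normSq_eq_norm_sq]
  obtain ⟨c', hc', hle⟩ : ∃ c' : ℝ, c' < c ∧ ∀ i, lam i ≤ c' := by
    by_cases hne : Nonempty (Fin n)
    · obtain ⟨i0, hi0⟩ := Finite.exists_max lam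
      exact ⟨lam i0, hlt i0, hi0⟩
    · exact ⟨c - 1, by linarith, fun i => (hne ⟨i⟩).elim⟩
  refine ⟨c', hc', fun x => ?_⟩
  rw [hexp, hexp2, Finset.mul_sum]
  exact Finset.sum_le_sum fun i _ => mul_le_mul_of_nonneg_right (hle i) (by positivity)

end Pool.PL
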