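import Pool.Agent.Work.MP_972ac7_P.Interface1

set_option autoImplicit false

/-! # THEOREM P, part I, block SUP -/

open MeasureTheory

noncomputable section

namespace Pool.PL

open Pool.TFD Pool.TC

section SUPsec

variable {k : Type} [NormedField k] [IsUltrametricDist k]

theorem SUP_sub_le (x y : k) : ‖x - y‖ ≤ max ‖x‖ ‖y‖ := by
  have := IsUltrametricDist.norm_add_le_max x (-y)
  rwa [← sub_eq_add_neg, norm_neg] at this

omit [IsUltrametricDist k] in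
theorem SUP_norm_pow (L : LocF k) (i : ℕ) : ‖L.ϖ ^ i‖ = ((L.q : ℝ) ^ i)⁻¹ := by
  rw [norm_pow, L.norm_ϖ, inv_pow]

omit [IsUltrametricDist k] in
theorem SUP_norm_pow_inv (L : LocF k) (i : ℕ) : ‖(L.ϖ ^ i)⁻¹‖ = (L.q : ℝ) ^ i := by
  rw [norm_inv, SUP_norm_pow, inv_inv]

omit [IsUltrametricDist k] in
theorem SUP_det (A : SL2 k) : A.1 0 0 * A.1 1 1 - A.1 0 1 * A.1 1 0 = 1 := by
  rw [← Matrix.det_fin_two]
  exact A.2

theorem SUP_unit (L : LocF k) {A : SL2 k} (hA : A ∈ KK L 0) (h : ‖A.1 0 0‖ < 1) :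
    ‖A.1 0 1‖ = 1 ∧ ‖A.1 1 0‖ = 1 := by
  have hn : ∀ i j, ‖A.1 i j‖ ≤ 1 := mnm_le.mp hA.1
  have h1 : (1 : ℝ) ≤ max ‖A.1 0 0 * A.1 1 1‖ ‖A.1 0 1 * A.1 1 0‖ := by
    have := SUP_sub_le (A.1 0 0 * A.1 1 1) (A.1 0 1 * A.1 1 0)
    rwa [SUP_det, norm_one] at this
  have h2 : ‖A.1 0 0 * A.1 1 1‖ < 1 := by
    rw [norm_mul]
    exact mul_lt_one_of_nonneg_of_lt_one_left (norm_nonneg _) h (hn 1 1)
  have h3 : (1 : ℝ) ≤ ‖A.1 0 1‖ * ‖A.1 1 0‖ := by
    rw [← norm_mul]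
    rcases le_max_iff.mp h1 with h4 | h4
    · exact absurd h4 (not_le.mpr h2)
    · exact h4
  have b1 := hn 0 1
  have b2 := hn 1 0
  have b3 := norm_nonneg (A.1 0 1)
  have b4 := norm_nonneg (A.1 1 0)
  constructor
  · nlinarith
  · nlinarith

theorem SUP_cong (L : LocF k) {r : ℕ} {A B : SL2 k} (hA : A ∈ KK L 0) (h : A⁻¹ * B ∈ KK L r)
    (i j : Fin 2) : ‖B.1 i j - A.1 i j‖ ≤ ((L.q : ℝ) ^ r)⁻¹ := by
  have h1 : B.1 - A.1 = A.1 * ((A⁻¹ * B : SL2 k).1 - 1) := by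
    have h2 : A.1 * (A⁻¹ * B : SL2 k).1 = B.1 := by
      rw [← Matrix.SpecialLinearGroup.coe_mul, mul_inv_cancel_left]
    rw [mul_sub, h2, mul_one]
  have h3 : mnm (B.1 - A.1) ≤ ((L.q : ℝ) ^ r)⁻¹ := by
    rw [h1]
    refine (mnm_mul_le _ _).trans ?_
    calc mnm A.1 * mnm ((A⁻¹ * B : SL2 k).1 - 1) ≤ 1 * ((L.q : ℝ) ^ r)⁻¹ :=
          mul_le_mul hA.1 h.2 (mnm_nonneg _) zero_le_one
      _ = _ := one_mul _
  have := mnm_le.mp h3 i j
  rwa [Matrix.sub_apply] at this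

theorem SUP_uniq (L : LocF k) {t : ℕ} {J : Type} {S : J → SL2 k} (hS : IsReps L t S) {i j : J}
    (h : (S i)⁻¹ * S j ∈ KK L t) : i = j := by
  obtain ⟨l, -, hl⟩ := hS.2 (S j) (hS.1 j)
  have h1 := hl i h
  have h2 := hl j (by
    show (S j)⁻¹ * S j ∈ KK L t
    rw [inv_mul_cancel]
    exact one_mem _)
  rw [h1, h2]

/-- the conjugate of the congruence subgroup of level `2 M` -/
theorem SUP_conj (L : LocF k) (h0 : ∀ g : SL2 k, g ∈ KK L 0 ↔ nm g ≤ 1) {M : ℕ} {κ : SL2 k}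
    (h : κ ∈ KK L (2 * M)) : (aa L M)⁻¹ * κ * aa L M ∈ KK L 0 := by
  rw [h0]
  show mnm _ ≤ 1
  rw [mnm_le]
  have hn : ∀ i j, ‖κ.1 i j‖ ≤ 1 := mnm_le.mp h.1
  have hc : ‖κ.1 1 0‖ ≤ ((L.q : ℝ) ^ (2 * M))⁻¹ := by
    have := mnm_le.mp h.2 1 0
    rw [Matrix.sub_apply] at this
    simpa using this
  have hϖ : L.ϖ ^ M ≠ 0 := pow_ne_zero _ L.ϖ_ne
  have e1 : ((aa L M)⁻¹ * κ * aa L M : SL2 k).1 =
      !![κ.1 0 0, L.ϖ ^ M * κ.1 0 1 * L.ϖ ^ M;
        (L.ϖ ^ M)⁻¹ * κ.1 1 0 * (L.ϖ ^ M)⁻¹, κ.1 1 1] := by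
    rw [Matrix.SpecialLinearGroup.coe_mul, Matrix.SpecialLinearGroup.coe_mul,
      Matrix.SpecialLinearGroup.coe_inv, Matrix.adjugate_fin_two]
    show (!![_, _; _, _] : Matrix (Fin 2) (Fin 2) k) * κ.1 * !![(L.ϖ ^ M)⁻¹, 0; 0, (L.ϖ ^ M)⁻¹⁻¹] = _
    rw [Matrix.eta_fin_two κ.1, Matrix.mul_fin_two, Matrix.mul_fin_two]
    ext i j
    fin_cases i <;> fin_cases j <;> simp [aa, dia] <;> field_simp
  rw [e1]
  intro i j
  fin_cases i <;> fin_cases j
  · exact hn 0 0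
  · show ‖L.ϖ ^ M * κ.1 0 1 * L.ϖ ^ M‖ ≤ 1
    have h1 : ‖L.ϖ ^ M‖ ≤ 1 := by
      rw [SUP_norm_pow]
      exact inv_le_one_of_one_le₀ (one_le_pow₀ L.one_lt.le)
    rw [norm_mul, norm_mul]
    exact mul_le_one₀ (mul_le_one₀ h1 (norm_nonneg _) (hn 0 1)) (norm_nonneg _) h1
  · show ‖(L.ϖ ^ M)⁻¹ * κ.1 1 0 * (L.ϖ ^ M)⁻¹‖ ≤ 1
    have hq : (0 : ℝ) < (L.q : ℝ) ^ M := pow_pos L.q_pos M
    rw [norm_mul, norm_mul, SUP_norm_pow_inv]
    rw [two_mul, pow_add, mul_inv] at hc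
    calc (L.q : ℝ) ^ M * ‖κ.1 1 0‖ * (L.q : ℝ) ^ M
        ≤ (L.q : ℝ) ^ M * (((L.q : ℝ) ^ M)⁻¹ * ((L.q : ℝ) ^ M)⁻¹) * (L.q : ℝ) ^ M := by gcongr
      _ = 1 := by field_simp
  · exact hn 1 1

end SUPsec

theorem p_SUP (hCAR : Stmt_CAR) (hRES : Stmt_RES) (hNRM : Stmt_NRM) (hKNR : Stmt_KNR) :
    Stmt_SUP := by
  intro k _ _ L M J _ S hS
  classical
  obtain ⟨n1, n2, n3, n4⟩ := hNRM k L
  have hq := L.q_pos
  have hq1 := L.one_lt
  obtain ⟨F, hF⟩ : ∃ F : SL2 k → ℝ, F = fun g => ∑ j, (nm (g * (S j * aa L M)))⁻¹ := ⟨_, rfl⟩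
  have hFg : ∀ g, F g = ∑ j, (nm (g * (S j * aa L M)))⁻¹ := fun g => by rw [hF]
  have hleft : ∀ κ ∈ KK L 0, ∀ g, F (κ * g) = F g := by
    intro κ hκ g
    rw [hFg, hFg]
    refine Finset.sum_congr rfl fun j _ => ?_
    rw [mul_assoc, (n2 κ hκ _).1]
  have hright : ∀ κ ∈ KK L 0, ∀ g, F (g * κ) = F g := by
    intro κ hκ g
    have hex : ∀ j, ∃ j', (S j')⁻¹ * (κ * S j) ∈ KK L (2 * M) := by
      intro j
      obtain ⟨j', h1, -⟩ := hS.2 (κ * S j) (mul_mem hκ (hS.1 j))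
      exact ⟨j', h1⟩
    choose f hf using hex
    have hfinj : Function.Injective f := by
      intro i j hij
      apply SUP_uniq L hS
      have h1 := mul_mem (inv_mem (hf i)) (hf j)
      rw [hij] at h1
      have h2 : ((S (f j))⁻¹ * (κ * S i))⁻¹ * ((S (f j))⁻¹ * (κ * S j)) = (S i)⁻¹ * S j := by
        group
      rwa [h2] at h1
    have hfb : Function.Bijective f := Finite.injective_iff_bijective.mp hfinj
    rw [hFg, hFg]
    rw [← Function.Bijective.sum_comp hfb fun j => (nm (g * (S j * aa L M)))⁻¹]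
    refine Finset.sum_congr rfl fun j _ => ?_
    congr 1
    have h1 := SUP_conj L n3 (hf j)
    have h2 := (n2 _ h1 (g * (S (f j) * aa L M))).2
    rw [← h2]
    congr 1
    group
  -- reduction to `aa L i`
  suffices hmain : ∀ i : ℕ, F (aa L i) ≤ Fintype.card J * (rho L M * ((L.q : ℝ) ^ i)⁻¹) by
    intro g
    obtain ⟨i, κ, hκ, κ', hκ', rfl⟩ := hCAR k L g
    have h1 := hmain i
    rw [← hFg, hright κ' hκ', hleft κ hκ, (n2 κ' hκ' _).2, (n2 κ hκ _).1, n4]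
    exact h1
  intro i
  -- the count
  have hcount : ∀ t, t ≤ 2 * M →
      (L.q : ℝ) ^ t * ((Finset.univ.filter fun j => ‖(S j).1 0 0‖ ≤ ((L.q : ℝ) ^ t)⁻¹).card : ℝ) ≤
        Fintype.card J := by
    intro t ht
    rcases Nat.eq_zero_or_pos t with h0 | hpos
    · subst h0
      rw [pow_zero, one_mul]
      exact_mod_cast Finset.card_le_univ _
    obtain ⟨R, r1, r2, r3⟩ := hRES k L t
    have hlt1 : ((L.q : ℝ) ^ t)⁻¹ < 1 := inv_lt_one_of_one_lt₀ (one_lt_pow₀ hq1 (by omega))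
    have hle2 : ((L.q : ℝ) ^ (2 * M))⁻¹ ≤ ((L.q : ℝ) ^ t)⁻¹ :=
      inv_anti₀ (pow_pos hq t) (pow_le_pow_right₀ hq1.le ht)
    have hupp : ∀ x : k, ‖x‖ ≤ 1 → upp x ∈ KK L 0 := by
      intro x hx
      rw [n3]
      show mnm _ ≤ 1
      rw [mnm_le]
      intro a b
      fin_cases a <;> fin_cases b <;> simp [upp]
      exact hx
    have hex : ∀ (x : Fin (L.q ^ t)) (j : J), ∃ j', (S j')⁻¹ * (upp (R x) * S j) ∈
        KK L (2 * M) := by
      intro x j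
      obtain ⟨j', h1, -⟩ := hS.2 (upp (R x) * S j) (mul_mem (hupp _ (r1 x)) (hS.1 j))
      exact ⟨j', h1⟩
    choose f hf using hex
    have hinj : Set.InjOn (fun p : Fin (L.q ^ t) × J => f p.1 p.2)
        ((Finset.univ ×ˢ (Finset.univ.filter fun j => ‖(S j).1 0 0‖ ≤ ((L.q : ℝ) ^ t)⁻¹) :
          Finset (Fin (L.q ^ t) × J)) : Set (Fin (L.q ^ t) × J)) := by
      rintro ⟨x1, j1⟩ h1 ⟨x2, j2⟩ h2 heq
      have heq' : f x1 j1 = f x2 j2 := heq
      have a1 : ‖(S j1).1 0 0‖ ≤ ((L.q : ℝ) ^ t)⁻¹ := by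
        have := (Finset.mem_product.mp (Finset.mem_coe.mp h1)).2
        exact (Finset.mem_filter.mp this).2
      have a2 : ‖(S j2).1 0 0‖ ≤ ((L.q : ℝ) ^ t)⁻¹ := by
        have := (Finset.mem_product.mp (Finset.mem_coe.mp h2)).2
        exact (Finset.mem_filter.mp this).2
      have g1 := (SUP_unit L (hS.1 j1) (a1.trans_lt hlt1)).2
      have c1 := SUP_cong L (hS.1 (f x1 j1)) (hf x1 j1)
      have c2 := SUP_cong L (hS.1 (f x2 j2)) (hf x2 j2)
      rw [heq'] at c1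
      have e1 : ∀ (x : k) (A : SL2 k), (upp x * A).1 0 0 = A.1 0 0 + x * A.1 1 0 ∧
          (upp x * A).1 1 0 = A.1 1 0 := by
        intro x A
        rw [Matrix.SpecialLinearGroup.coe_mul, Matrix.mul_apply, Matrix.mul_apply,
          Fin.sum_univ_two, Fin.sum_univ_two]
        simp [upp]
      have d1 := c1 0 0
      have d2 := c2 0 0
      have d3 := c1 1 0
      have d4 := c2 1 0
      rw [(e1 _ _).1] at d1 d2
      rw [(e1 _ _).2] at d3 d4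
      -- `(x1 - x2) ga1` is small
      have hx : ‖(R x1 - R x2) * (S j1).1 1 0‖ ≤ ((L.q : ℝ) ^ t)⁻¹ := by
        have h5 : (R x1 - R x2) * (S j1).1 1 0 =
            (((S j1).1 0 0 + R x1 * (S j1).1 1 0 - (S (f x2 j2)).1 0 0) -
              ((S j2).1 0 0 + R x2 * (S j2).1 1 0 - (S (f x2 j2)).1 0 0)) +
            (((S j2).1 0 0 - (S j1).1 0 0) -
              R x2 * (((S j1).1 1 0 - (S (f x2 j2)).1 1 0) -
                ((S j2).1 1 0 - (S (f x2 j2)).1 1 0))) := by ring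
        rw [h5]
        refine (IsUltrametricDist.norm_add_le_max _ _).trans (max_le ?_ ?_)
        · exact (SUP_sub_le _ _).trans (max_le (d1.trans hle2) (d2.trans hle2))
        · refine (SUP_sub_le _ _).trans (max_le ?_ ?_)
          · exact (SUP_sub_le _ _).trans (max_le a2 a1)
          · rw [norm_mul]
            have h6 : ‖(S j1).1 1 0 - (S (f x2 j2)).1 1 0 -
                ((S j2).1 1 0 - (S (f x2 j2)).1 1 0)‖ ≤ ((L.q : ℝ) ^ t)⁻¹ :=
              (SUP_sub_le _ _).trans (max_le (d3.trans hle2) (d4.trans hle2))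
            exact (mul_le_of_le_one_left (norm_nonneg _) (r1 x2)).trans h6
      rw [norm_mul, g1, mul_one] at hx
      have hx12 := r2 x1 x2 hx
      subst hx12
      have hj : j1 = j2 := by
        apply SUP_uniq L hS
        have h1 := mul_mem (inv_mem (hf x1 j1)) (hf x1 j2)
        rw [heq'] at h1
        have h2 : ((S (f x1 j2))⁻¹ * (upp (R x1) * S j1))⁻¹ *
            ((S (f x1 j2))⁻¹ * (upp (R x1) * S j2)) = (S j1)⁻¹ * S j2 := by
          group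
        rwa [h2] at h1
      rw [hj]
    have hcard := Finset.card_le_card_of_injOn (t := (Finset.univ : Finset J)) _
      (fun p _ => Finset.mem_univ _) hinj
    rw [Finset.card_product, Finset.card_univ, Fintype.card_fin, Finset.card_univ] at hcard
    exact_mod_cast hcard
  -- the pointwise bound
  have hpt : ∀ j, (nm (aa L i * (S j * aa L M)))⁻¹ ≤ ((L.q : ℝ) ^ (i + M))⁻¹ *
      ∑ t ∈ Finset.range (2 * M + 1),
        if ‖(S j).1 0 0‖ ≤ ((L.q : ℝ) ^ t)⁻¹ then (L.q : ℝ) ^ t else 0 := by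
    intro j
    have hSj := hS.1 j
    suffices hex : ∃ t ≤ 2 * M, ‖(S j).1 0 0‖ ≤ ((L.q : ℝ) ^ t)⁻¹ ∧
        (nm (aa L i * (S j * aa L M)))⁻¹ ≤ ((L.q : ℝ) ^ (i + M))⁻¹ * (L.q : ℝ) ^ t by
      obtain ⟨t, ht, h1, h2⟩ := hex
      refine h2.trans (mul_le_mul_of_nonneg_left ?_ (by positivity))
      have h3 := Finset.single_le_sum (s := Finset.range (2 * M + 1))
        (f := fun t => if ‖(S j).1 0 0‖ ≤ ((L.q : ℝ) ^ t)⁻¹ then (L.q : ℝ) ^ t else 0)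
        (fun t _ => by split_ifs <;> positivity) (Finset.mem_range.mpr (by omega : t < 2 * M + 1))
      simp only [h1, if_true] at h3
      exact h3
    rcases Nat.eq_zero_or_pos M with hM | hM
    · subst hM
      refine ⟨0, le_rfl, ?_, ?_⟩
      · rw [pow_zero, inv_one]
        exact mnm_le.mp hSj.1 0 0
      · have h1 : aa L 0 ∈ KK L 0 := by
          rw [n3, n4, pow_zero]
        rw [(n2 _ (mul_mem hSj h1) _).2, n4, add_zero, pow_zero, mul_one]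
    have hmat : (aa L i * (S j * aa L M)).1 0 0 = (L.ϖ ^ i)⁻¹ * ((S j).1 0 0 * (L.ϖ ^ M)⁻¹) ∧
        (aa L i * (S j * aa L M)).1 0 1 = (L.ϖ ^ i)⁻¹ * ((S j).1 0 1 * L.ϖ ^ M) := by
      rw [Matrix.SpecialLinearGroup.coe_mul, Matrix.SpecialLinearGroup.coe_mul,
        Matrix.mul_apply, Matrix.mul_apply, Fin.sum_univ_two, Fin.sum_univ_two,
        Matrix.mul_apply, Matrix.mul_apply, Matrix.mul_apply, Matrix.mul_apply,
        Fin.sum_univ_two, Fin.sum_univ_two, Fin.sum_univ_two, Fin.sum_univ_two]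
      simp [aa, dia]
    have hnm1 : (L.q : ℝ) ^ i * (‖(S j).1 0 0‖ * (L.q : ℝ) ^ M) ≤
        nm (aa L i * (S j * aa L M)) := by
      have := le_mnm (aa L i * (S j * aa L M)).1 0 0
      rw [hmat.1, norm_mul, norm_mul, SUP_norm_pow_inv, SUP_norm_pow_inv] at this
      exact this
    have hnm2 : (L.q : ℝ) ^ i * (‖(S j).1 0 1‖ * ((L.q : ℝ) ^ M)⁻¹) ≤
        nm (aa L i * (S j * aa L M)) := by
      have := le_mnm (aa L i * (S j * aa L M)).1 0 1
      rw [hmat.2, norm_mul, norm_mul, SUP_norm_pow_inv, SUP_norm_pow] at this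
      exact this
    by_cases hc : ‖(S j).1 0 0‖ ≤ ((L.q : ℝ) ^ (2 * M))⁻¹
    · refine ⟨2 * M, le_rfl, hc, ?_⟩
      have hlt : ((L.q : ℝ) ^ (2 * M))⁻¹ < 1 :=
        inv_lt_one_of_one_lt₀ (one_lt_pow₀ hq1 (by omega))
      rw [(SUP_unit L hSj (hc.trans_lt hlt)).1, one_mul] at hnm2
      have h1 : ((L.q : ℝ) ^ (i + M))⁻¹ * (L.q : ℝ) ^ (2 * M) =
          ((L.q : ℝ) ^ i * ((L.q : ℝ) ^ M)⁻¹)⁻¹ := by
        rw [pow_add, two_mul, pow_add]
        field_simp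
      rw [h1]
      exact inv_anti₀ (by positivity) hnm2
    · rw [not_le] at hc
      have hne : (S j).1 0 0 ≠ 0 := by
        intro h0
        rw [h0, norm_zero] at hc
        have : (0 : ℝ) < ((L.q : ℝ) ^ (2 * M))⁻¹ := by positivity
        linarith
      obtain ⟨z, hz⟩ := L.disc _ hne
      have hle : ‖(S j).1 0 0‖ ≤ 1 := mnm_le.mp hSj.1 0 0
      have hz1 : z ≤ 0 := by
        rw [hz] at hle
        by_contra hcon
        exact absurd hle (not_le.mpr (one_lt_zpow₀ hq1 (by omega)))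
      have hz2 : -(2 * M : ℤ) < z := by
        rw [hz, ← zpow_natCast, ← zpow_neg] at hc
        rw [zpow_lt_zpow_iff_right₀ hq1] at hc
        push_cast at hc
        exact hc
      obtain ⟨t, ht⟩ : ∃ t : ℕ, z = -(t : ℤ) := ⟨z.natAbs, by omega⟩
      have hval : ‖(S j).1 0 0‖ = ((L.q : ℝ) ^ t)⁻¹ := by
        rw [hz, ht, zpow_neg, zpow_natCast]
      refine ⟨t, by omega, hval.le, ?_⟩
      rw [hval] at hnm1
      have h1 : ((L.q : ℝ) ^ (i + M))⁻¹ * (L.q : ℝ) ^ t =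
          ((L.q : ℝ) ^ i * (((L.q : ℝ) ^ t)⁻¹ * (L.q : ℝ) ^ M))⁻¹ := by
        rw [pow_add]
        field_simp
      rw [h1]
      exact inv_anti₀ (by positivity) hnm1
  rw [hFg]
  calc ∑ j, (nm (aa L i * (S j * aa L M)))⁻¹
      ≤ ∑ j, ((L.q : ℝ) ^ (i + M))⁻¹ * ∑ t ∈ Finset.range (2 * M + 1),
        (if ‖(S j).1 0 0‖ ≤ ((L.q : ℝ) ^ t)⁻¹ then (L.q : ℝ) ^ t else 0) :=
        Finset.sum_le_sum fun j _ => hpt j
    _ = ((L.q : ℝ) ^ (i + M))⁻¹ * ∑ t ∈ Finset.range (2 * M + 1),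
        ((L.q : ℝ) ^ t *
          ((Finset.univ.filter fun j => ‖(S j).1 0 0‖ ≤ ((L.q : ℝ) ^ t)⁻¹).card : ℝ)) := by
        rw [← Finset.mul_sum, Finset.sum_comm]
        congr 1
        refine Finset.sum_congr rfl fun t _ => ?_
        rw [← Finset.sum_filter, Finset.sum_const, nsmul_eq_mul, mul_comm]
    _ ≤ ((L.q : ℝ) ^ (i + M))⁻¹ * ∑ t ∈ Finset.range (2 * M + 1), (Fintype.card J : ℝ) := by
        refine mul_le_mul_of_nonneg_left ?_ (by positivity)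
        exact Finset.sum_le_sum fun t ht => hcount t (by
          have := Finset.mem_range.mp ht
          omega)
    _ = Fintype.card J * (rho L M * ((L.q : ℝ) ^ i)⁻¹) := by
        rw [Finset.sum_const, Finset.card_range, nsmul_eq_mul, pow_add]
        unfold rho
        push_cast
        field_simp

end Pool.PL
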