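import Pool.Agent.Work.MP_972ac7_P.Interface1

set_option autoImplicit false

open MeasureTheory

noncomputable section

namespace Pool.PL

theorem SX_conj {X : Type} [MeasurableSpace X] (m : Measure X) (f g : X → ℂ) :
    (starRingEnd ℂ) (ip m g f) = ip m f g := by
  unfold ip
  rw [← integral_conj]
  congr 1
  funext x
  simp only [map_mul, Complex.conj_conj]
  ring

/-- invariance of the integral -/
theorem SX_int {G : Type} [Group G] {Γ : Subgroup G} [MeasurableSpace (G ⧸ Γ)]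
    (m : Measure (G ⧸ Γ)) (hinv : ∀ g : G, MeasurePreserving (fun x : G ⧸ Γ => g • x) m m)
    (g : G) (F : G ⧸ Γ → ℂ) : ∫ x, F (g • x) ∂m = ∫ x, F x ∂m := by
  obtain ⟨e, he⟩ : ∃ e : (G ⧸ Γ) ≃ᵐ (G ⧸ Γ), ∀ x, e x = g • x := by
    refine ⟨{ toFun := fun x => g • x
              invFun := fun x => g⁻¹ • x
              left_inv := fun x => inv_smul_smul g x
              right_inv := fun x => smul_inv_smul g x
              measurable_toFun := (hinv g).measurable
              measurable_invFun := (hinv g⁻¹).measurable }, fun x => rfl⟩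
  have hmp : MeasurePreserving e m m := by
    have h1 : (e : G ⧸ Γ → G ⧸ Γ) = fun x => g • x := funext he
    rw [h1]
    exact hinv g
  have h2 := hmp.integral_comp' F
  simp only [he] at h2
  exact h2

theorem SX_ip {G : Type} [Group G] {Γ : Subgroup G} [MeasurableSpace (G ⧸ Γ)]
    (m : Measure (G ⧸ Γ)) (hinv : ∀ g : G, MeasurePreserving (fun x : G ⧸ Γ => g • x) m m)
    (g : G) (f f' : G ⧸ Γ → ℂ) : ip m f' (tr g f) = ip m (tr g⁻¹ f') f := by
  have h := SX_int m hinv g⁻¹ (fun x => (starRingEnd ℂ) (f' (g • x)) * f x)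
  unfold ip
  simp only [tr, inv_inv]
  rw [← h]
  congr 1
  funext x
  rw [smul_inv_smul]

theorem SX_tr_add {G : Type} [Group G] {Γ : Subgroup G} (g : G) (f f' : G ⧸ Γ → ℂ) :
    tr g (f + f') = tr g f + tr g f' := rfl

theorem SX_tr_smul {G : Type} [Group G] {Γ : Subgroup G} (g : G) (c : ℂ) (f : G ⧸ Γ → ℂ) :
    tr g (c • f) = c • tr g f := rfl

theorem SX_hk_add {G : Type} [Group G] {Γ : Subgroup G} {J : Type} [Fintype J] (S : J → G)
    (a : G) (f f' : G ⧸ Γ → ℂ) : hk S a (f + f') = hk S a f + hk S a f' := by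
  funext x
  simp only [hk, Pi.add_apply, Finset.sum_add_distrib, mul_add]

theorem SX_hk_smul {G : Type} [Group G] {Γ : Subgroup G} {J : Type} [Fintype J] (S : J → G)
    (a : G) (c : ℂ) (f : G ⧸ Γ → ℂ) : hk S a (c • f) = c • hk S a f := by
  funext x
  simp only [hk, Pi.smul_apply, smul_eq_mul, ← Finset.mul_sum]
  ring

theorem SX_single {ι : Type} [DecidableEq ι] {k : ι → Type} [∀ i, NormedField (k i)]
    [∀ i, IsUltrametricDist (k i)] (L : ∀ i, LocF (k i)) (v : ι) (s : ι → ℕ) (κ : SL2 (k v))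
    (hκ : κ ∈ KK (L v) (s v)) : (Pi.mulSingle v κ : GG k) ∈ KG L s := by
  rw [mem_KG]
  intro i
  by_cases h : i = v
  · subst h
    rw [Pi.mulSingle_eq_same]
    exact hκ
  · rw [Pi.mulSingle_eq_of_ne h]
    exact Subgroup.one_mem _

/-- `tr g` as a linear map -/
def SX_trL {G : Type} [Group G] (Γ : Subgroup G) (g : G) : (G ⧸ Γ → ℂ) →ₗ[ℂ] (G ⧸ Γ → ℂ) where
  toFun := tr g
  map_add' := SX_tr_add g
  map_smul' := SX_tr_smul g

/-- `hk` as a linear map -/
def SX_hkL {G : Type} [Group G] (Γ : Subgroup G) {J : Type} [Fintype J] (S : J → G) (a : G) :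
    (G ⧸ Γ → ℂ) →ₗ[ℂ] (G ⧸ Γ → ℂ) where
  toFun := hk S a
  map_add' := SX_hk_add S a
  map_smul' := SX_hk_smul S a

theorem SX_norm {G : Type} [Group G] {Γ K : Subgroup G} {g : G}
    (hg : ∀ x ∈ K, g⁻¹ * x * g ∈ K) {f : G ⧸ Γ → ℂ} (hf : f ∈ Inv Γ K) : tr g f ∈ Inv Γ K := by
  rw [mem_Inv]
  intro κ hκ
  have h1 : κ * g = g * (g⁻¹ * κ * g) := by group
  rw [← tr_mul, h1, tr_mul, hf _ (hg κ hκ)]

theorem SX_sq_nonneg {X : Type} [MeasurableSpace X] (m : Measure X) (f : X → ℂ) : 0 ≤ sq m f :=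
  integral_nonneg fun x => by positivity

theorem p_SX (hDIM : Stmt_DIM) (hIPL : Stmt_IPL) (hEVD : Stmt_EVD) (hSPC : Stmt_SPC)
    (hARI : Stmt_ARI) (hHKI : Stmt_HKI) (hHKS : Stmt_HKS) (hSXB : Stmt_SXB) (hORB : Stmt_ORB)
    (hPNR : Stmt_PNR) (hREPS : Stmt_REPS) : Stmt_SX := by
  intro ι _ _ k _ _ _ L Γ m hLat hm hinv W v hWv h2 s hsW M hM hMq
  classical
  obtain ⟨n, S, hn, hS⟩ := hREPS (k W) (L W) (2 * M)
  have hne : Nonempty (Fin n) := ⟨⟨0, hn⟩⟩
  obtain ⟨c, hc, hDIM'⟩ := hDIM (k v) (L v) h2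
  obtain ⟨C, hC, hSXB'⟩ := hSXB ι k L Γ m hLat hm hinv W v hWv s hsW M (Fin n) S hS
  obtain ⟨r₀, hr₀⟩ := hARI (L W).q M (L v).q (L W).two_le hM hMq (L v).two_le C c hC hc
  refine ⟨max r₀ 1, fun r hr f hf horth => ?_⟩
  have hr0 : r₀ ≤ r := le_trans (le_max_left _ _) hr.le
  have hr2 : 2 ≤ r := lt_of_le_of_lt (le_max_right _ _) hr
  have hWr : ∀ r', (Function.update s v r') W = 0 := fun r' => by
    rw [Function.update_of_ne hWv]
    exact hsW
  obtain ⟨hP1, hP2, -, -, -, -⟩ := hPNR ι k L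
  have hlevel : (Function.update s v (r - 1)) ≤ (Function.update s v r) := by
    intro i
    by_cases h : i = v
    · subst h
      rw [Function.update_self, Function.update_self]
      exact Nat.sub_le r 1
    · rw [Function.update_of_ne h, Function.update_of_ne h]
  obtain ⟨K, hK⟩ : ∃ K, K = KG L (Function.update s v r) := ⟨_, rfl⟩
  obtain ⟨K', hK'⟩ : ∃ K', K' = KG L (Function.update s v (r - 1)) := ⟨_, rfl⟩
  have hKK' : K ≤ K' := by
    rw [hK, hK']
    exact hP2 _ _ hlevel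
  have hInv : Inv Γ K' ≤ Inv Γ K := Inv_mono hKK'
  have hORB' := hORB ι k L Γ m hLat hm hinv (Function.update s v r)
  rw [← hK] at hORB'
  obtain ⟨hfd, hmem, hzero, B, hB, hBB⟩ := hIPL (GG k) Γ K m hm hORB'.1 hORB'.2
  rw [← hK] at hf
  rw [← hK'] at horth
  have hIK := hHKI ι k L Γ W M (Fin n) S hS (Function.update s v r) (hWr r)
  rw [← hK] at hIK
  have hIK' := hHKI ι k L Γ W M (Fin n) S hS (Function.update s v (r - 1)) (hWr (r - 1))
  rw [← hK'] at hIK'
  have hSK := hHKS ι k L Γ m hLat hm hinv W M (Fin n) S hS (Function.update s v r) (hWr r)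
  rw [← hK] at hSK
  have hXB := hSXB' r
  rw [← hK] at hXB
  -- the operator
  obtain ⟨T, hT⟩ : ∃ T : (GG k ⧸ Γ → ℂ) →ₗ[ℂ] (GG k ⧸ Γ → ℂ), ∀ f, T f =
      hk (SW W S) (aW L W M) f := ⟨SX_hkL Γ _ _, fun f => rfl⟩
  have hTK : ∀ f ∈ Inv Γ K, T f ∈ Inv Γ K := fun f hf => by
    rw [hT]
    exact (hIK f hf).1
  have hTK' : ∀ f ∈ Inv Γ K', T f ∈ Inv Γ K' := fun f hf => by
    rw [hT]
    exact (hIK' f hf).1
  have hTsym : ∀ f ∈ Inv Γ K, ∀ f' ∈ Inv Γ K, ip m (T f) f' = ip m f (T f') := by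
    intro f hf f' hf'
    have h1 := hSK f hf f' hf'
    have h3 := hSK f' hf' f hf
    rw [hT, hT, h1.1, ← SX_conj m f, h3.1, h3.2.1, SX_conj]
  have hipadd : ∀ f' ∈ Inv Γ K, ∀ f ∈ Inv Γ K, ∀ g ∈ Inv Γ K,
      ip m f' (f + g) = ip m f' f + ip m f' g := by
    intro f' hf' f hf g hg
    have h1 := hB ⟨f', hf'⟩ (⟨f, hf⟩ + ⟨g, hg⟩)
    rw [map_add, hB, hB] at h1
    exact h1.symm
  have hipsmul : ∀ f' ∈ Inv Γ K, ∀ f ∈ Inv Γ K, ∀ z : ℂ,
      ip m f' (z • f) = z * ip m f' f := by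
    intro f' hf' f hf z
    have h1 := hB ⟨f', hf'⟩ (z • ⟨f, hf⟩)
    rw [map_smul, hB] at h1
    exact h1.symm
  have hip0 : ∀ f' : GG k ⧸ Γ → ℂ, ip m f' 0 = 0 := by
    intro f'
    unfold ip
    simp
  -- the space of the new vectors
  obtain ⟨V, hV⟩ : ∃ V : Submodule ℂ (GG k ⧸ Γ → ℂ), ∀ f, f ∈ V ↔
      (f ∈ Inv Γ K ∧ ∀ f' ∈ Inv Γ K', ip m f' f = 0) := by
    refine ⟨{ carrier := {f | f ∈ Inv Γ K ∧ ∀ f' ∈ Inv Γ K', ip m f' f = 0}
              add_mem' := ?_
              zero_mem' := ?_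
              smul_mem' := ?_ }, fun f => Iff.rfl⟩
    · rintro a b ⟨ha, ha'⟩ ⟨hb, hb'⟩
      refine ⟨Submodule.add_mem _ ha hb, fun f' hf' => ?_⟩
      rw [hipadd f' (hInv hf') a ha b hb, ha' f' hf', hb' f' hf', add_zero]
    · exact ⟨Submodule.zero_mem _, fun f' _ => hip0 f'⟩
    · rintro z a ⟨ha, ha'⟩
      refine ⟨Submodule.smul_mem _ z ha, fun f' hf' => ?_⟩
      rw [hipsmul f' (hInv hf') a ha z, ha' f' hf', mul_zero]
  have hVle : V ≤ Inv Γ K := fun f hf => ((hV f).1 hf).1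
  have hfdV : FiniteDimensional ℂ V := by
    have := hfd
    exact Submodule.finiteDimensional_of_le hVle
  have hTV : ∀ f ∈ V, T f ∈ V := by
    intro f hf
    obtain ⟨hf1, hf2⟩ := (hV f).1 hf
    refine (hV _).2 ⟨hTK f hf1, fun f' hf' => ?_⟩
    rw [← hTsym f' (hInv hf') f hf1]
    exact hf2 _ (hTK' f' hf')
  -- the eigenvectors
  have heig : ∀ lam : ℝ, 1 / 2 ≤ lam → ∀ f ∈ V, T f = (lam : ℂ) • f → f = 0 := by
    intro lam hlam f₀ hf₀ hTf₀
    by_contra hf₀ne
    have hlam0 : 0 < lam := by linarith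
    obtain ⟨E, hE⟩ : ∃ E : Submodule ℂ (GG k ⧸ Γ → ℂ), ∀ f, f ∈ E ↔
        (f ∈ V ∧ T f = (lam : ℂ) • f) := by
      refine ⟨V ⊓ LinearMap.ker (T - (lam : ℂ) • LinearMap.id), fun f => ?_⟩
      rw [Submodule.mem_inf, LinearMap.mem_ker, LinearMap.sub_apply, LinearMap.smul_apply,
        LinearMap.id_apply, sub_eq_zero]
    have hEV : E ≤ V := fun f hf => ((hE f).1 hf).1
    have hfdE : FiniteDimensional ℂ E := by
      have := hfdV
      exact Submodule.finiteDimensional_of_le hEV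
    -- the action of `KK (L v) 0`
    have hmem0 : ∀ κ ∈ KK (L v) 0, (Pi.mulSingle v κ : GG k) ∈ KG L 0 :=
      fun κ hκ => SX_single L v 0 κ hκ
    have hnorm : ∀ κ ∈ KK (L v) 0, ∀ s' : ι → ℕ, ∀ x ∈ KG L s',
        (Pi.mulSingle v κ : GG k)⁻¹ * x * (Pi.mulSingle v κ : GG k) ∈ KG L s' := by
      intro κ hκ s' x hx
      have h1 := hP1 s' (Pi.mulSingle v κ : GG k)⁻¹ (Subgroup.inv_mem _ (hmem0 κ hκ)) x hx
      rwa [inv_inv] at h1
    have hact : ∀ κ ∈ KK (L v) 0, ∀ f ∈ E, tr (Pi.mulSingle v κ : GG k) f ∈ E := by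
      intro κ hκ f hf
      obtain ⟨hfV, hTf⟩ := (hE f).1 hf
      obtain ⟨hf1, hf2⟩ := (hV f).1 hfV
      refine (hE _).2 ⟨(hV _).2 ⟨?_, fun f' hf' => ?_⟩, ?_⟩
      · refine SX_norm (fun x hx => ?_) hf1
        rw [hK] at hx ⊢
        exact hnorm κ hκ _ x hx
      · rw [SX_ip m hinv]
        apply hf2
        refine SX_norm (fun x hx => ?_) hf'
        rw [inv_inv]
        rw [hK'] at hx ⊢
        exact hP1 _ _ (hmem0 κ hκ) x hx
      · rw [hT, (hIK f hf1).2 _ (hmem0 κ hκ), ← hT, hTf]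
        rfl
    obtain ⟨π, hπ⟩ : ∃ π : KK (L v) 0 →* (E →ₗ[ℂ] E), ∀ κ f, ((π κ f : E) : GG k ⧸ Γ → ℂ) =
        tr (Pi.mulSingle v (κ : SL2 (k v)) : GG k) f := by
      refine ⟨{ toFun := fun κ => (SX_trL Γ (Pi.mulSingle v (κ : SL2 (k v)) : GG k)).restrict
                  (fun f hf => hact κ κ.2 f hf)
                map_one' := ?_
                map_mul' := ?_ }, fun κ f => rfl⟩
      · ext1 f
        apply Subtype.ext
        change tr (Pi.mulSingle v ((1 : KK (L v) 0) : SL2 (k v)) : GG k) f.1 = f.1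
        rw [Subgroup.coe_one, Pi.mulSingle_one, tr_one]
      · intro x y
        ext1 f
        apply Subtype.ext
        change tr (Pi.mulSingle v ((x * y : KK (L v) 0) : SL2 (k v)) : GG k) f.1 =
          tr (Pi.mulSingle v (x : SL2 (k v)) : GG k) (tr (Pi.mulSingle v (y : SL2 (k v)) : GG k) f.1)
        rw [Subgroup.coe_mul, Pi.mulSingle_mul, tr_mul]
    have hdim : c * ((L v).q : ℝ) ^ r ≤ Module.finrank ℂ E := by
      refine hDIM' r hr2 E π ?_ ?_ ?_
      · intro κ hκ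
        ext1 f
        apply Subtype.ext
        rw [hπ]
        have hfK : (f : GG k ⧸ Γ → ℂ) ∈ Inv Γ K := hVle (hEV f.2)
        have h1 : (Pi.mulSingle v (κ : SL2 (k v)) : GG k) ∈ K := by
          rw [hK]
          apply SX_single
          rw [Function.update_self]
          exact hκ
        rw [hfK _ h1]
        rfl
      · intro f hfix
        obtain ⟨hf1, hf2⟩ := (hV _).1 (hEV f.2)
        have hfK' : (f : GG k ⧸ Γ → ℂ) ∈ Inv Γ K' := by
          rw [mem_Inv]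
          intro x hx
          rw [hK', mem_KG] at hx
          have hxv : x v ∈ KK (L v) (r - 1) := by
            have := hx v
            rwa [Function.update_self] at this
          have hsplit : x = (Pi.mulSingle v (x v) : GG k) * Function.update x v 1 := by
            funext i
            by_cases h : i = v
            · subst h
              rw [Pi.mul_apply, Pi.mulSingle_eq_same, Function.update_self, mul_one]
            · rw [Pi.mul_apply, Pi.mulSingle_eq_of_ne h, Function.update_of_ne h, one_mul]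
          have hy : (Function.update x v 1 : GG k) ∈ K := by
            rw [hK, mem_KG]
            intro i
            by_cases h : i = v
            · subst h
              have h0 : (Function.update x i 1 : GG k) i = 1 := Function.update_self _ _ _
              rw [h0]
              exact Subgroup.one_mem _
            · rw [Function.update_of_ne h, Function.update_of_ne h]
              have := hx i
              rwa [Function.update_of_ne h] at this
          have hxv0 : x v ∈ KK (L v) 0 := by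
            rw [mem_KK] at hxv ⊢
            refine ⟨hxv.1, le_trans hxv.2 ?_⟩
            rw [pow_zero, inv_one]
            exact inv_le_one_of_one_le₀ (one_le_pow₀ (L v).one_lt.le)
          rw [hsplit, tr_mul, hf1 _ hy]
          have h3 := congrArg Subtype.val (hfix ⟨x v, hxv0⟩ hxv)
          rw [hπ] at h3
          exact h3
        have h4 := hf2 _ hfK'
        have h5 : (sq m (f : GG k ⧸ Γ → ℂ) : ℂ) = 0 := by
          rw [← hBB ⟨_, hf1⟩, hB]
          exact h4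
        have h6 : sq m (f : GG k ⧸ Γ → ℂ) = 0 := by exact_mod_cast h5
        exact Subtype.ext (hzero _ hf1 h6)
      · exact ⟨⟨⟨f₀, (hE _).2 ⟨hf₀, hTf₀⟩⟩, 0, fun h => hf₀ne (congrArg Subtype.val h)⟩⟩
    -- the upper bound
    obtain ⟨N, hN1, hN2⟩ := hr₀ r hr0
    have hEK : ∀ f ∈ E, f ∈ Inv Γ K := fun f hf => hVle (hEV hf)
    have hρ0 : 0 ≤ rho (L W) M := by
      unfold rho
      have := (L W).q_pos
      positivity
    have hqv := (L v).q_pos
    have hup := hEVD (GG k ⧸ Γ) m hm E hfdE (fun f hf => (hmem f (hEK f hf)).2.2)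
      (fun f hf => hzero f (hEK f hf))
      (C * (((L v).q : ℝ) ^ r) ^ 3 * rho (L W) M ^ (2 * N) * (lam ^ (2 * N))⁻¹)
      (by have : (0 : ℝ) ≤ C := by positivity
          positivity) (by
        intro f hf x
        have h1 := hXB N hN1 f (hEK f hf) lam hlam0.le (by
          rw [← hT, ((hE f).1 hf).2]
          rfl) x
        have h7 : 0 < lam ^ (2 * N) := by positivity
        calc ‖f x‖ ^ 2 = (lam ^ (2 * N) * ‖f x‖ ^ 2) * (lam ^ (2 * N))⁻¹ := by
              field_simp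
          _ ≤ (C * (((L v).q : ℝ) ^ r) ^ 3 * rho (L W) M ^ (2 * N) * sq m f) *
              (lam ^ (2 * N))⁻¹ := mul_le_mul_of_nonneg_right h1 (by positivity)
          _ = _ := by ring)
    have h8 : (lam ^ (2 * N))⁻¹ ≤ ((1 / 2 : ℝ) ^ (2 * N))⁻¹ := by
      apply inv_anti₀ (by positivity)
      exact pow_le_pow_left₀ (by norm_num) hlam _
    have h9 : C * (((L v).q : ℝ) ^ r) ^ 3 * rho (L W) M ^ (2 * N) * (lam ^ (2 * N))⁻¹ ≤
        C * (((L v).q : ℝ) ^ r) ^ 3 * rho (L W) M ^ (2 * N) * ((1 / 2 : ℝ) ^ (2 * N))⁻¹ :=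
      mul_le_mul_of_nonneg_left h8 (by positivity)
    have h10 : C * (((L v).q : ℝ) ^ r) ^ 3 * rho (L W) M ^ (2 * N) * ((1 / 2 : ℝ) ^ (2 * N))⁻¹ <
        c * ((L v).q : ℝ) ^ r := by
      rw [← div_eq_mul_inv, div_lt_iff₀ (by positivity)]
      exact hN2
    linarith
  -- conclusion
  obtain ⟨BV, hBV⟩ : ∃ BV : V →ₗ⋆[ℂ] V →ₗ[ℂ] ℂ, ∀ x y, BV x y = ip m x.1 y.1 := by
    refine ⟨(LinearMap.lcomp ℂ ℂ (Submodule.inclusion hVle)).comp
      (B.comp (Submodule.inclusion hVle)), fun x y => ?_⟩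
    exact hB _ _
  obtain ⟨c', hc', hfin⟩ := hSPC V BV (fun x y => by rw [hBV, hBV, SX_conj]) (fun x hx => by
      have hxK : x.1 ∈ Inv Γ K := hVle x.2
      have h1 : BV x x = (sq m x.1 : ℂ) := by
        rw [hBV, ← hBB ⟨_, hxK⟩, hB]
      rw [h1, Complex.ofReal_re]
      refine lt_of_le_of_ne (SX_sq_nonneg m _) (fun h => hx ?_)
      exact Subtype.ext (hzero _ hxK h.symm)) (T.restrict hTV) (fun x y => by
      rw [hBV, hBV]
      exact hTsym _ (hVle x.2) _ (hVle y.2)) (1 / 2) (fun lam hlam x hx => by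
      apply Subtype.ext
      exact heig lam hlam x.1 x.2 (congrArg Subtype.val hx))
  have hfV : f ∈ V := (hV f).2 ⟨hf, horth⟩
  have h11 := hfin ⟨f, hfV⟩
  rw [hBV, hBV] at h11
  have h12 : ip m f f = (sq m f : ℂ) := by
    rw [← hBB ⟨f, hf⟩, hB]
  have h13 := hSK f hf f hf
  have h14 : ((T.restrict hTV ⟨f, hfV⟩ : V) : GG k ⧸ Γ → ℂ) = hk (SW W S) (aW L W M) f := hT f
  change (ip m ((T.restrict hTV ⟨f, hfV⟩ : V) : GG k ⧸ Γ → ℂ) f).re ≤ c' * (ip m f f).re at h11
  rw [h14, h13.1, h12, Complex.ofReal_re] at h11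
  rw [h13.2.2.2]
  have h15 := SX_sq_nonneg m f
  nlinarith

end Pool.PL
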