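import Pool.Agent.Work.MP_972ac7_P.Interface1

set_option autoImplicit false

open MeasureTheory

noncomputable section

namespace Pool.PL

open Pool.TFD Pool.TC

theorem SXB_iter {G : Type} [Group G] {Γ : Subgroup G} {J : Type} [Fintype J] [Nonempty J]
    (S : J → G) (a : G) (f : G ⧸ Γ → ℂ) (lam : ℂ) (h : hk S a f = fun x => lam * f x) (n : ℕ) :
    ∀ x : G ⧸ Γ, ∑ w : Fin n → J, f (((List.ofFn fun i => S (w i) * a).prod)⁻¹ • x) =
      (Fintype.card J : ℂ) ^ n * (lam ^ n * f x) := by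
  have hc : (Fintype.card J : ℂ) ≠ 0 := by
    exact_mod_cast Fintype.card_ne_zero
  have h1 : ∀ x, ∑ j, f ((S j * a)⁻¹ • x) = (Fintype.card J : ℂ) * (lam * f x) := by
    intro x
    have h2 := congrFun h x
    simp only [hk] at h2
    rw [← h2, ← mul_assoc, mul_inv_cancel₀ hc, one_mul]
  induction n with
  | zero =>
    intro x
    simp
  | succ n ih =>
    intro x
    rw [← (Fin.consEquiv (fun _ : Fin (n + 1) => J)).sum_comp, Fintype.sum_prod_type]
    have h3 : ∀ j : J, ∑ w : Fin n → J,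
        f (((List.ofFn fun i : Fin (n + 1) =>
          S ((Fin.consEquiv (fun _ : Fin (n + 1) => J)) (j, w) i) * a).prod)⁻¹ • x) =
        (Fintype.card J : ℂ) ^ n * (lam ^ n * f ((S j * a)⁻¹ • x)) := by
      intro j
      rw [← ih ((S j * a)⁻¹ • x)]
      refine Finset.sum_congr rfl fun w _ => ?_
      congr 1
      rw [List.ofFn_succ, List.prod_cons, ← mul_smul]
      congr 1
      rw [← mul_inv_rev]
      rfl
    have h4 : ∑ j : J, ∑ w : Fin n → J,
        f (((List.ofFn fun i : Fin (n + 1) =>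
          S ((Fin.consEquiv (fun _ : Fin (n + 1) => J)) (j, w) i) * a).prod)⁻¹ • x) =
        ∑ j : J, (Fintype.card J : ℂ) ^ n * (lam ^ n * f ((S j * a)⁻¹ • x)) :=
      Finset.sum_congr rfl fun j _ => h3 j
    refine Eq.trans h4 ?_
    rw [← Finset.mul_sum, ← Finset.mul_sum, h1]
    ring

theorem SXB_word {ι : Type} [DecidableEq ι] {k : ι → Type} [∀ i, NormedField (k i)]
    (L : ∀ i, LocF (k i)) (W : ι) (M : ℕ) {J : Type} (S : J → SL2 (k W)) {n : ℕ}
    (w : Fin n → J) :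
    (List.ofFn fun i => SW W S (w i) * aW L W M).prod =
      (Pi.mulSingle W (word S (aa (L W) M) w) : GG k) := by
  have h1 : (Pi.mulSingle W (word S (aa (L W) M) w) : GG k) =
      (MonoidHom.mulSingle (fun i => SL2 (k i)) W) (word S (aa (L W) M) w) := rfl
  rw [h1]
  unfold word
  rw [map_list_prod, List.map_ofFn]
  congr 2
  funext i
  simp only [SW, aW, Function.comp]
  rw [MonoidHom.mulSingle_apply, Pi.mulSingle_mul]

theorem SXB_eval_same {ι : Type} [DecidableEq ι] {k : ι → Type} [∀ i, NormedField (k i)]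
    (W : ι) (a b : SL2 (k W)) (h : GG k) :
    ((Pi.mulSingle W a : GG k)⁻¹ * h * (Pi.mulSingle W b : GG k)) W = a⁻¹ * h W * b := by
  simp only [Pi.mul_apply, Pi.inv_apply, Pi.mulSingle_eq_same]

theorem SXB_eval_ne {ι : Type} [DecidableEq ι] {k : ι → Type} [∀ i, NormedField (k i)]
    (W u : ι) (hu : u ≠ W) (a b : SL2 (k W)) (h : GG k) :
    ((Pi.mulSingle W a : GG k)⁻¹ * h * (Pi.mulSingle W b : GG k)) u = h u := by
  simp only [Pi.mul_apply, Pi.inv_apply, Pi.mulSingle_eq_of_ne hu, inv_one, one_mul, mul_one]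

theorem SXB_KK0 {k : Type} [NormedField k] [IsUltrametricDist k] (L : LocF k) (t : ℕ) :
    KK L t ≤ KK L 0 := by
  intro g hg
  rw [mem_KK] at hg ⊢
  refine ⟨hg.1, le_trans hg.2 ?_⟩
  rw [pow_zero, inv_one]
  exact inv_le_one_of_one_le₀ (one_le_pow₀ (le_of_lt L.one_lt))

/-- membership in the open subgroup of the conjugate of a lattice element by two words -/
theorem SXB_mem {ι : Type} [DecidableEq ι] {k : ι → Type} [∀ i, NormedField (k i)]
    [∀ i, IsUltrametricDist (k i)] (L : ∀ i, LocF (k i)) (W v : ι) (hWv : W ≠ v) (s : ι → ℕ)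
    (hs : s W = 0) (r : ℕ) (a b : SL2 (k W)) (h : GG k)
    (hm : (Pi.mulSingle W a : GG k)⁻¹ * h * (Pi.mulSingle W b : GG k) ∈
      KG L (Function.update s v r)) :
    h v ∈ KK (L v) r ∧ a⁻¹ * h W * b ∈ KK (L W) 0 ∧
      ∀ u, u ≠ v → u ≠ W → h u ∈ KK (L u) 0 := by
  rw [mem_KG] at hm
  refine ⟨?_, ?_, ?_⟩
  · have h1 := hm v
    rw [SXB_eval_ne W v hWv.symm, Function.update_self] at h1
    exact h1
  · have h1 := hm W
    rw [SXB_eval_same, Function.update_of_ne hWv, hs] at h1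
    exact h1
  · intro u huv huW
    have h1 := hm u
    rw [SXB_eval_ne W u huW] at h1
    exact SXB_KK0 (L u) _ h1

/-- the sum of the reciprocals of the norms -/
theorem SXB_sum (hNRM : Stmt_NRM) (hSMM : Stmt_SMM) {ι : Type} [DecidableEq ι] {k : ι → Type}
    [∀ i, NormedField (k i)] [∀ i, IsUltrametricDist (k i)] (L : ∀ i, LocF (k i))
    (Γ : Subgroup (GG k)) (W v : ι) (C : ℝ) (hC : 0 < C) (g : GG k) (r N : ℕ)
    (hct : ∀ j : ℕ, (cset L Γ W v g r j).Finite ∧ (Nat.card (cset L Γ W v g r j) : ℝ) ≤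
        2 + C * (((L W).q : ℝ) ^ j / ((L v).q : ℝ) ^ r) ^ (5 / 3 : ℝ) *
          (1 + ((L W).q : ℝ) ^ j / (((L v).q : ℝ) ^ r) ^ 2))
    (hN : (((L W).q : ℝ) ^ N) ^ 5 ≤ (((L v).q : ℝ) ^ r) ^ 11) :
    ∑ γ ∈ (hct N).1.toFinset, (nm ((g * (γ : GG k) * g⁻¹ : GG k) W))⁻¹ ≤ 4 + 6 * C := by
  obtain ⟨hN1, -, -, -⟩ := hNRM (k W) (L W)
  have hq : (1 : ℝ) < (L W).q := (L W).one_lt
  have hQ : (1 : ℝ) ≤ ((L v).q : ℝ) ^ r := one_le_pow₀ (le_of_lt (L v).one_lt)
  rw [← Finset.sum_coe_sort]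
  refine hSMM (L W).q (L W).two_le C (((L v).q : ℝ) ^ r) N hC.le hQ hN
    {x // x ∈ (hct N).1.toFinset}
    (fun γ => nm ((g * ((γ : Γ) : GG k) * g⁻¹ : GG k) W)) ?_ ?_
  · rintro ⟨γ, hγ⟩
    obtain ⟨j, hj⟩ := hN1 ((g * (γ : GG k) * g⁻¹ : GG k) W)
    refine ⟨j, ?_, hj⟩
    rw [Set.Finite.mem_toFinset] at hγ
    have h1 : nm ((g * (γ : GG k) * g⁻¹ : GG k) W) ≤ ((L W).q : ℝ) ^ N := hγ.2.1
    rw [hj] at h1
    exact (pow_le_pow_iff_right₀ hq).1 h1
  · intro j _
    refine le_trans ?_ (hct j).2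
    have : Finite (cset L Γ W v g r j) := (hct j).1
    have h2 : Nat.card {a : {x // x ∈ (hct N).1.toFinset} //
        nm ((g * ((a : Γ) : GG k) * g⁻¹ : GG k) W) ≤ ((L W).q : ℝ) ^ j} ≤
        Nat.card (cset L Γ W v g r j) := by
      refine Nat.card_le_card_of_injective
        (fun a => (⟨(a.1 : Γ), ?_⟩ : cset L Γ W v g r j)) ?_
      · have h3 := a.1.2
        rw [Set.Finite.mem_toFinset] at h3
        exact ⟨h3.1, a.2, h3.2.2⟩
      · intro a b hab
        have h4 := Subtype.ext_iff.1 hab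
        exact Subtype.ext (Subtype.ext h4)
    exact_mod_cast h2

theorem SXB_sq_nonneg {X : Type} [MeasurableSpace X] (m : Measure X) (f : X → ℂ) :
    0 ≤ sq m f := integral_nonneg fun x => by positivity

theorem p_SXB (hNRM : Stmt_NRM) (hWLK : Stmt_WLK) (hMAS : Stmt_MAS) (hORB : Stmt_ORB)
    (hBES : Stmt_BES) (hSMM : Stmt_SMM) (hCTU : Stmt_CTU) (_hPNR : Stmt_PNR) : Stmt_SXB := by
  intro ι _ _ k _ _ _ L Γ m hLat hprob hinv W v hWv s hs M J _ _ S hS
  obtain ⟨c₀, hc₀, hmass⟩ := hMAS ι k L Γ m hLat hprob hinv s v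
  obtain ⟨C, hC, hct⟩ := hCTU ι k L Γ hLat W v hWv
  have hC' : 0 < 4 + 6 * C := by linarith
  refine ⟨(4 + 6 * C) / c₀, div_pos hC' hc₀, ?_⟩
  intro r n hn f hf lam hlam hk1 x
  obtain ⟨g, rfl⟩ := QuotientGroup.mk_surjective x
  obtain ⟨hfin, horb⟩ := hORB ι k L Γ m hLat hprob hinv (Function.update s v r)
  set Q : ℝ := ((L v).q : ℝ) ^ r with hQdef
  have hQ : 0 < Q := pow_pos (L v).q_pos r
  have hμ₀ : 0 < c₀ * (Q ^ 3)⁻¹ := by positivity
  have hfin2 := hct g r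
  have hsum := SXB_sum hNRM hSMM L Γ W v C hC g r (2 * n * M) hfin2 hn
  have hJ : (0 : ℝ) < Fintype.card J := by
    exact_mod_cast Fintype.card_pos
  -- the words
  have hB := hBES (GG k) Γ (KG L (Function.update s v r)) m hprob hfin (fun x => (horb x).1)
    (c₀ * (Q ^ 3)⁻¹) hμ₀ (fun x => hmass r x) (Fin n → J)
    (fun w => (Pi.mulSingle W (word S (aa (L W) M) w) : GG k)) g (hfin2 (2 * n * M)).1.toFinset
    (by
      intro w w' γ hm
      rw [Set.Finite.mem_toFinset]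
      obtain ⟨h1, h2, h3⟩ := SXB_mem L W v hWv s hs r _ _ _ hm
      exact ⟨h1, (hWLK (k W) (L W) M J S hS n _).2 w w' h2, h3⟩) f hf
  have hit := SXB_iter (SW W S) (aW L W M) f (lam : ℂ) hk1 n (g : GG k ⧸ Γ)
  have hcI : (Fintype.card (Fin n → J) : ℂ) = (Fintype.card J : ℂ) ^ n := by
    rw [Fintype.card_fun, Fintype.card_fin]
    push_cast
    rfl
  have hcI' : (Fintype.card (Fin n → J) : ℝ) = (Fintype.card J : ℝ) ^ n := by
    rw [Fintype.card_fun, Fintype.card_fin]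
    push_cast
    rfl
  have hJc : (Fintype.card J : ℂ) ≠ 0 := by
    exact_mod_cast Fintype.card_ne_zero
  have hL : (Fintype.card (Fin n → J) : ℂ)⁻¹ * ∑ w : Fin n → J,
      f ((Pi.mulSingle W (word S (aa (L W) M) w) : GG k)⁻¹ • (g : GG k ⧸ Γ)) =
      (lam : ℂ) ^ n * f (g : GG k ⧸ Γ) := by
    have h1 : ∑ w : Fin n → J,
        f ((Pi.mulSingle W (word S (aa (L W) M) w) : GG k)⁻¹ • (g : GG k ⧸ Γ)) =
        (Fintype.card J : ℂ) ^ n * ((lam : ℂ) ^ n * f (g : GG k ⧸ Γ)) := by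
      rw [← hit]
      refine Finset.sum_congr rfl fun w _ => ?_
      rw [SXB_word]
    rw [h1, hcI, ← mul_assoc, inv_mul_cancel₀ (pow_ne_zero n hJc), one_mul]
  have hnl : ‖(lam : ℂ) ^ n * f (g : GG k ⧸ Γ)‖ ^ 2 =
      lam ^ (2 * n) * ‖f (g : GG k ⧸ Γ)‖ ^ 2 := by
    rw [norm_mul, norm_pow, Complex.norm_real, Real.norm_of_nonneg hlam, mul_pow, ← pow_mul,
      mul_comm n 2]
  rw [hL, hnl, hcI'] at hB
  -- the sum over Φ
  have hρ : 0 ≤ rho (L W) M := by
    unfold rho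
    have := (L W).q_pos
    positivity
  have hcount : ∑ γ ∈ (hfin2 (2 * n * M)).1.toFinset,
      (Nat.card {p : (Fin n → J) × (Fin n → J) //
        (Pi.mulSingle W (word S (aa (L W) M) p.2) : GG k)⁻¹ * (g * (γ : GG k) * g⁻¹) *
          (Pi.mulSingle W (word S (aa (L W) M) p.1) : GG k) ∈
            KG L (Function.update s v r)} : ℝ) ≤
      (Fintype.card J : ℝ) ^ (2 * n) * (rho (L W) M ^ (2 * n) * (4 + 6 * C)) := by
    calc _ ≤ ∑ γ ∈ (hfin2 (2 * n * M)).1.toFinset, (Fintype.card J : ℝ) ^ (2 * n) *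
          (rho (L W) M ^ (2 * n) * (nm ((g * (γ : GG k) * g⁻¹ : GG k) W))⁻¹) := by
          refine Finset.sum_le_sum fun γ _ => ?_
          refine le_trans ?_ (hWLK (k W) (L W) M J S hS n ((g * (γ : GG k) * g⁻¹ : GG k) W)).1
          have h2 : Nat.card {p : (Fin n → J) × (Fin n → J) //
              (Pi.mulSingle W (word S (aa (L W) M) p.2) : GG k)⁻¹ * (g * (γ : GG k) * g⁻¹) *
                (Pi.mulSingle W (word S (aa (L W) M) p.1) : GG k) ∈
                  KG L (Function.update s v r)} ≤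
              Nat.card {p : (Fin n → J) × (Fin n → J) //
                (word S (aa (L W) M) p.2)⁻¹ * ((g * (γ : GG k) * g⁻¹ : GG k) W) *
                  word S (aa (L W) M) p.1 ∈ KK (L W) 0} := by
            refine Nat.card_le_card_of_injective (fun p => ⟨p.1, ?_⟩) ?_
            · exact (SXB_mem L W v hWv s hs r _ _ _ p.2).2.1
            · intro a b hab
              have h6 := Subtype.ext_iff.1 hab
              exact Subtype.ext h6
          exact_mod_cast h2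
      _ = (Fintype.card J : ℝ) ^ (2 * n) * (rho (L W) M ^ (2 * n) *
          ∑ γ ∈ (hfin2 (2 * n * M)).1.toFinset,
            (nm ((g * (γ : GG k) * g⁻¹ : GG k) W))⁻¹) := by
          rw [Finset.mul_sum, Finset.mul_sum]
      _ ≤ _ := by
          refine mul_le_mul_of_nonneg_left ?_ (by positivity)
          exact mul_le_mul_of_nonneg_left hsum (pow_nonneg hρ _)
  have hsq := SXB_sq_nonneg m f
  calc lam ^ (2 * n) * ‖f (g : GG k ⧸ Γ)‖ ^ 2 ≤ _ := hB
    _ ≤ sq m f * ((c₀ * (Q ^ 3)⁻¹)⁻¹ * (((Fintype.card J : ℝ) ^ n) ^ 2)⁻¹ *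
        ((Fintype.card J : ℝ) ^ (2 * n) * (rho (L W) M ^ (2 * n) * (4 + 6 * C)))) := by
        refine mul_le_mul_of_nonneg_left ?_ hsq
        refine mul_le_mul_of_nonneg_left hcount ?_
        positivity
    _ = (4 + 6 * C) / c₀ * Q ^ 3 * rho (L W) M ^ (2 * n) * sq m f := by
        have h5 : (Fintype.card J : ℝ) ^ (2 * n) = ((Fintype.card J : ℝ) ^ n) ^ 2 := by
          rw [← pow_mul, mul_comm]
        rw [h5]
        field_simp

end Pool.PL
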