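import Pool.Agent.Work.MP_972ac7_P.Interface1

set_option autoImplicit false

/-! # THEOREM P, block TOP: the topology of `SL2` -/

open MeasureTheory

noncomputable section

namespace Pool.PL

open Pool.TFD Pool.TC

theorem TOP_coord {k : Type} [NormedField k] (i j : Fin 2) :
    Continuous fun g : SL2 k => (g : Matrix (Fin 2) (Fin 2) k) i j := by
  have h1 : Continuous fun g : SL2 k => (g : Matrix (Fin 2) (Fin 2) k) :=
    continuous_subtype_val
  exact (continuous_apply j).comp ((continuous_apply i).comp h1)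

theorem TOP_eq {k : Type} [NormedField k] [IsUltrametricDist k] (L : LocF k) (r : ℕ) :
    (KK L r : Set (SL2 k)) =
      (⋂ i : Fin 2, ⋂ j : Fin 2, (fun g : SL2 k => (g : Matrix (Fin 2) (Fin 2) k) i j) ⁻¹'
        Metric.closedBall 0 1) ∩
      (⋂ i : Fin 2, ⋂ j : Fin 2, (fun g : SL2 k => (g : Matrix (Fin 2) (Fin 2) k) i j) ⁻¹'
        Metric.closedBall ((1 : Matrix (Fin 2) (Fin 2) k) i j) ((L.q : ℝ) ^ r)⁻¹) := by
  ext g
  rw [SetLike.mem_coe, mem_KK]
  unfold nm dnm
  rw [mnm_le, mnm_le]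
  simp only [Set.mem_inter_iff, Set.mem_iInter, Set.mem_preimage, Metric.mem_closedBall,
    dist_eq_norm, sub_zero, Matrix.sub_apply]

theorem TOP_cpt {k : Type} [NormedField k] [ProperSpace k] :
    IsCompact (⋂ i : Fin 2, ⋂ j : Fin 2,
      (fun g : SL2 k => (g : Matrix (Fin 2) (Fin 2) k) i j) ⁻¹' Metric.closedBall 0 1) := by
  have h1 : IsCompact {A : Fin 2 → Fin 2 → k | ∀ i j, A i j ∈ Metric.closedBall (0 : k) 1} := by
    have h2 : {A : Fin 2 → Fin 2 → k | ∀ i j, A i j ∈ Metric.closedBall (0 : k) 1} =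
        Set.pi Set.univ fun _ : Fin 2 => Set.pi Set.univ fun _ : Fin 2 =>
          Metric.closedBall (0 : k) 1 := by
      ext A
      constructor
      · exact fun h i _ j _ => h i j
      · exact fun h i j => h i trivial j trivial
    rw [h2]
    exact isCompact_univ_pi fun _ => isCompact_univ_pi fun _ => isCompact_closedBall _ _
  have h3 := (Matrix.SpecialLinearGroup.isClosedEmbedding_val (n := Fin 2) (R := k)).isCompact_preimage
    (K := {A : Matrix (Fin 2) (Fin 2) k | ∀ i j, A i j ∈ Metric.closedBall (0 : k) 1}) h1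
  have h4 : (⋂ i : Fin 2, ⋂ j : Fin 2,
      (fun g : SL2 k => (g : Matrix (Fin 2) (Fin 2) k) i j) ⁻¹' Metric.closedBall 0 1) =
      (fun g : SL2 k => (g : Matrix (Fin 2) (Fin 2) k)) ⁻¹'
        {A : Matrix (Fin 2) (Fin 2) k | ∀ i j, A i j ∈ Metric.closedBall (0 : k) 1} := by
    ext g
    simp only [Set.mem_iInter, Set.mem_preimage]
    rfl
  rw [h4]
  exact h3

theorem p_TOP : Stmt_TOP := by
  intro k _ _ _ L
  have hq := L.q_pos
  have he := Matrix.SpecialLinearGroup.isClosedEmbedding_val (n := Fin 2) (R := k)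
  have i1 : LocallyCompactSpace (Matrix (Fin 2) (Fin 2) k) :=
    inferInstanceAs (LocallyCompactSpace (Fin 2 → Fin 2 → k))
  have i2 : SecondCountableTopology (Matrix (Fin 2) (Fin 2) k) :=
    inferInstanceAs (SecondCountableTopology (Fin 2 → Fin 2 → k))
  have i3 : T2Space (Matrix (Fin 2) (Fin 2) k) :=
    inferInstanceAs (T2Space (Fin 2 → Fin 2 → k))
  refine ⟨he.locallyCompactSpace, he.isEmbedding.secondCountableTopology,
    he.isEmbedding.t2Space, ?_, ?_⟩
  · intro r
    have hpos : 0 < ((L.q : ℝ) ^ r)⁻¹ := inv_pos.2 (pow_pos hq r)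
    have hcl : IsClosed (KK L r : Set (SL2 k)) := by
      rw [TOP_eq]
      refine IsClosed.inter ?_ ?_
      · exact isClosed_iInter fun i => isClosed_iInter fun j =>
          Metric.isClosed_closedBall.preimage (TOP_coord i j)
      · exact isClosed_iInter fun i => isClosed_iInter fun j =>
          Metric.isClosed_closedBall.preimage (TOP_coord i j)
    refine ⟨?_, ?_⟩
    · rw [TOP_eq]
      refine IsOpen.inter ?_ ?_
      · exact isOpen_iInter_of_finite fun i => isOpen_iInter_of_finite fun j =>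
          (IsUltrametricDist.isOpen_closedBall _ one_ne_zero).preimage (TOP_coord i j)
      · exact isOpen_iInter_of_finite fun i => isOpen_iInter_of_finite fun j =>
          (IsUltrametricDist.isOpen_closedBall _ hpos.ne').preimage (TOP_coord i j)
    · refine TOP_cpt.of_isClosed_subset hcl ?_
      rw [TOP_eq]
      exact Set.inter_subset_left
  · intro U hU
    have hc : nhds (1 : SL2 k) = Filter.comap (fun g : SL2 k => (g : Matrix (Fin 2) (Fin 2) k))
        (nhds ((1 : SL2 k) : Matrix (Fin 2) (Fin 2) k)) := he.isInducing.nhds_eq_comap (1 : SL2 k)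
    rw [hc, Filter.mem_comap] at hU
    obtain ⟨V, hV, hVU⟩ := hU
    let o : Fin 2 → Fin 2 → k := fun i j => ((1 : SL2 k) : Matrix (Fin 2) (Fin 2) k) i j
    let V' : Set (Fin 2 → Fin 2 → k) := V
    have hV' : V' ∈ nhds o := hV
    obtain ⟨ε, hε, hb⟩ := Metric.mem_nhds_iff.1 hV'
    obtain ⟨r, hr⟩ := exists_pow_lt_of_lt_one hε (inv_lt_one_of_one_lt₀ L.one_lt)
    refine ⟨r, fun g hg => hVU ?_⟩
    let g' : Fin 2 → Fin 2 → k := fun i j => (g : Matrix (Fin 2) (Fin 2) k) i j
    have hg' : g' ∈ V' → (g : Matrix (Fin 2) (Fin 2) k) ∈ V := fun h => h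
    apply hg'
    apply hb
    rw [Metric.mem_ball, dist_pi_lt_iff hε]
    intro i
    rw [dist_pi_lt_iff hε]
    intro j
    rw [SetLike.mem_coe, mem_KK] at hg
    have h1 := hg.2
    unfold dnm at h1
    rw [mnm_le] at h1
    have h2 := h1 i j
    rw [Matrix.sub_apply] at h2
    rw [dist_eq_norm]
    rw [inv_pow] at hr
    exact lt_of_le_of_lt h2 hr

end Pool.PL
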