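import Pool.Agent.Work.MP_972ac7_P.Interface2

set_option autoImplicit false

/-! # THEOREM P, part II, block TRN: the arithmetic of a totally real field -/

open NumberField

noncomputable section

namespace Pool.PL

/-- the real embedding of a real place -/
def TRN_f (F : Type) [Field F] [NumberField F] [IsTotallyReal F] (w : InfinitePlace F) :
    F →+* ℝ :=
  InfinitePlace.embedding_of_isReal (IsTotallyReal.isReal w)

theorem TRN_isReal {F : Type} [Field F] (σ : F →+* ℝ) :
    ComplexEmbedding.IsReal (Complex.ofRealHom.comp σ) := by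
  rw [ComplexEmbedding.isReal_iff]
  ext x
  simp [ComplexEmbedding.conjugate]

/-- real embeddings and places -/
def TRN_e (F : Type) [Field F] [NumberField F] [IsTotallyReal F] :
    InfinitePlace F ≃ (F →+* ℝ) where
  toFun := TRN_f F
  invFun σ := InfinitePlace.mk (Complex.ofRealHom.comp σ)
  left_inv w := by
    have h : Complex.ofRealHom.comp (TRN_f F w) = w.embedding := by
      ext x
      exact InfinitePlace.embedding_of_isReal_apply (IsTotallyReal.isReal w) x
    show InfinitePlace.mk (Complex.ofRealHom.comp (TRN_f F w)) = w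
    rw [h, InfinitePlace.mk_embedding]
  right_inv σ := by
    ext x
    apply Complex.ofReal_injective
    have h1 := InfinitePlace.embedding_of_isReal_apply
      (IsTotallyReal.isReal (InfinitePlace.mk (Complex.ofRealHom.comp σ))) x
    rw [InfinitePlace.embedding_mk_eq_of_isReal (TRN_isReal σ)] at h1
    exact h1

theorem p_TRN : Stmt_TRN := by
  intro F _ _ _
  refine ⟨?_, ?_⟩
  · classical
    rw [← Fintype.card_congr (TRN_e F)]
    have h := InfinitePlace.card_add_two_mul_card_eq_rank F
    rw [IsTotallyReal.finrank F]
    unfold InfinitePlace.nrRealPlaces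
    refine Fintype.card_congr ⟨fun w => ⟨w, IsTotallyReal.isReal w⟩, fun w => w.1,
      fun w => rfl, fun w => rfl⟩
  · intro x
    have h := InfinitePlace.prod_eq_abs_norm x
    rw [Nm, ← Equiv.prod_comp (TRN_e F)]
    have h2 : (|((Algebra.norm ℚ x : ℚ) : ℝ)|) = ((|Algebra.norm ℚ x| : ℚ) : ℝ) := by
      rw [Rat.cast_abs]
    rw [h2, ← h]
    refine Finset.prod_congr rfl fun w _ => ?_
    rw [IsTotallyReal.mult_eq, pow_one]
    have h3 := InfinitePlace.norm_embedding_of_isReal (IsTotallyReal.isReal w) x
    rw [Real.norm_eq_abs] at h3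
    exact h3.symm

end Pool.PL
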