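import Pool.Agent.Work.MP_972ac7_P.Interface1

set_option autoImplicit false

/-! # Block UNI: the product of the groups `SL2` is unimodular (helper25) -/

open MeasureTheory
open scoped NNReal

noncomputable section

namespace Pool.PL

lemma UNI_upp {k : Type} [NormedField k] (t : k) (ht : t ≠ 0) (s : k) :
    dia t ht * upp s = upp ((t ^ 2 - 1) * s) * (upp s * dia t ht) := by
  apply Subtype.ext
  rw [Matrix.SpecialLinearGroup.coe_mul, Matrix.SpecialLinearGroup.coe_mul,
    Matrix.SpecialLinearGroup.coe_mul]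
  unfold upp dia
  ext i j
  fin_cases i <;> fin_cases j <;>
    simp [Matrix.mul_apply, Fin.sum_univ_two]
  field_simp
  ring

lemma UNI_low {k : Type} [NormedField k] (t : k) (ht : t ≠ 0) (s : k) :
    low s * dia t ht = dia t ht * low s * low ((t ^ 2 - 1) * s) := by
  apply Subtype.ext
  rw [Matrix.SpecialLinearGroup.coe_mul, Matrix.SpecialLinearGroup.coe_mul,
    Matrix.SpecialLinearGroup.coe_mul]
  unfold low dia
  ext i j
  fin_cases i <;> fin_cases j <;>
    simp [Matrix.mul_apply, Fin.sum_univ_two]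
  field_simp
  ring

/-- a homomorphism from `SL2` of a local field to `ℝ≥0` without zeros is trivial -/
lemma UNI_triv (hG : Stmt_GEN) (k : Type) [NormedField k] [IsUltrametricDist k] (L : LocF k)
    (χ : SL2 k →* ℝ≥0) (hpos : ∀ g, χ g ≠ 0) (g : SL2 k) : χ g = 1 := by
  have hϖ : L.ϖ ^ 2 - 1 ≠ 0 := by
    intro h
    have h1 : L.ϖ ^ 2 = 1 := sub_eq_zero.mp h
    have h2 := congrArg (fun x : k => ‖x‖) h1
    simp only [norm_pow, norm_one, L.norm_ϖ] at h2
    have h3 : ((L.q : ℝ)⁻¹) < 1 := inv_lt_one_of_one_lt₀ L.one_lt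
    have h4 : (0 : ℝ) < (L.q : ℝ)⁻¹ := inv_pos.mpr L.q_pos
    nlinarith
  have hu : ∀ t : k, χ (upp t) = 1 := by
    intro t
    have e := congrArg χ (UNI_upp L.ϖ L.ϖ_ne (t / (L.ϖ ^ 2 - 1)))
    rw [mul_div_cancel₀ t hϖ, map_mul, map_mul, map_mul,
      mul_comm (χ (upp (t / (L.ϖ ^ 2 - 1))))] at e
    have hne : χ (dia L.ϖ L.ϖ_ne) * χ (upp (t / (L.ϖ ^ 2 - 1))) ≠ 0 :=
      mul_ne_zero (hpos _) (hpos _)
    exact mul_right_cancel₀ hne (by rw [one_mul]; exact e.symm)
  have hl : ∀ t : k, χ (low t) = 1 := by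
    intro t
    have e := congrArg χ (UNI_low L.ϖ L.ϖ_ne (t / (L.ϖ ^ 2 - 1)))
    rw [mul_div_cancel₀ t hϖ, map_mul, map_mul, map_mul,
      mul_comm (χ (low (t / (L.ϖ ^ 2 - 1))))] at e
    have hne : χ (dia L.ϖ L.ϖ_ne) * χ (low (t / (L.ϖ ^ 2 - 1))) ≠ 0 :=
      mul_ne_zero (hpos _) (hpos _)
    exact mul_left_cancel₀ hne (by rw [mul_one]; exact e.symm)
  have hker : χ.ker = ⊤ := (hG k L).1 _ hu hl
  have : g ∈ χ.ker := by rw [hker]; exact Subgroup.mem_top g
  exact this

theorem p_UNI (hGEN : Stmt_GEN) (hPTO : Stmt_PTO) : Stmt_UNI := by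
  intro ι _ k _ _ _ L μ hμ
  obtain ⟨i1, i2, i3, i4, -, -⟩ := hPTO ι k L
  set χ : GG k →* ℝ≥0 := Measure.modularCharacter with hχ
  have hpos : ∀ g, χ g ≠ 0 := fun g => (Measure.modularCharacterFun_pos g).ne'
  classical
  have hone : ∀ g : GG k, g ∈ χ.ker := by
    intro g
    apply Subgroup.pi_mem_of_mulSingle_mem g
    intro i
    have := UNI_triv hGEN (k i) (L i) (χ.comp (MonoidHom.mulSingle
      (fun i => SL2 (k i)) i)) (fun g => hpos _) (g i)
    exact this
  constructor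
  intro g
  have hg : Measure.modularCharacterFun g = 1 := hone g
  rw [Measure.map_right_mul_eq_modularCharacterFun_smul μ g, hg, one_smul]

end Pool.PL
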