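import Pool.Agent.Work.MP_972ac7_P.Interface2

set_option autoImplicit false

/-! # THEOREM P, part II, block USQ -/

open NumberField IsDedekindDomain

namespace Pool.PL

theorem USQ_norm {F : Type} [Field F] [NumberField F] (h : TR F) (δ : 𝓞 F) :
    ((Ideal.absNorm (Ideal.span {δ}) : ℕ) : ℝ) = Nm (δ : F) := by
  rw [Ideal.absNorm_span_singleton, ← h.norm, ← Algebra.coe_norm_int]
  rw [Nat.cast_natAbs]
  push_cast
  rfl

/-- BLOCK USQ -/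
theorem p_USQ : Stmt_USQ := by
  classical
  intro F _ _ hF C
  haveI : Group.FG (𝓞 F)ˣ := Group.fg_iff_monoid_fg.mpr inferInstance
  haveI hfi : ((powMonoidHom (α := (𝓞 F)ˣ) 2).range).FiniteIndex :=
    Subgroup.finiteIndex_range_powMonoidHom_of_fg (𝓞 F)ˣ two_ne_zero
  haveI hfin : Finite ((𝓞 F)ˣ ⧸ (powMonoidHom (α := (𝓞 F)ˣ) 2).range) :=
    Subgroup.finite_quotient_of_finiteIndex
  -- the set of the elements
  set D : Set (𝓞 F) := {δ | δ ≠ 0 ∧ Nm (δ : F) ≤ C} with hD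
  -- the generator of the ideal of an element
  have hg : ∀ I : Ideal (𝓞 F), ∃ g : 𝓞 F, (∃ δ ∈ D, Ideal.span {δ} = I) → Ideal.span {g} = I := by
    intro I
    by_cases h : ∃ δ ∈ D, Ideal.span {δ} = I
    · obtain ⟨δ, -, h2⟩ := h
      exact ⟨δ, fun _ => h2⟩
    · exact ⟨0, fun h' => absurd h' h⟩
  choose g hg using hg
  have hv : ∀ δ : 𝓞 F, ∃ v : (𝓞 F)ˣ, δ ∈ D → δ = g (Ideal.span {δ}) * v := by
    intro δ
    by_cases h : δ ∈ D
    · have h1 := hg (Ideal.span {δ}) ⟨δ, h, rfl⟩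
      rw [Ideal.span_singleton_eq_span_singleton] at h1
      obtain ⟨v, hv⟩ := h1
      exact ⟨v, fun _ => hv.symm⟩
    · exact ⟨1, fun h' => absurd h' h⟩
  choose v hv using hv
  set f : 𝓞 F → Ideal (𝓞 F) × ((𝓞 F)ˣ ⧸ (powMonoidHom (α := (𝓞 F)ˣ) 2).range) :=
    fun δ => (Ideal.span {δ}, QuotientGroup.mk (v δ)) with hf
  have hfinI : (f '' D).Finite := by
    have h1 : f '' D ⊆ {I : Ideal (𝓞 F) | Ideal.absNorm I ≤ ⌊C⌋₊} ×ˢ Set.univ := by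
      rintro _ ⟨δ, hδ, rfl⟩
      refine ⟨?_, Set.mem_univ _⟩
      change Ideal.absNorm (Ideal.span {δ}) ≤ ⌊C⌋₊
      refine Nat.le_floor ?_
      rw [USQ_norm hF]
      exact hδ.2
    exact (Set.Finite.prod (Ideal.finite_setOfPred_absNorm_le _) Set.finite_univ).subset h1
  -- representatives
  have hr : ∀ p : Ideal (𝓞 F) × ((𝓞 F)ˣ ⧸ (powMonoidHom (α := (𝓞 F)ˣ) 2).range),
      ∃ δ : 𝓞 F, p ∈ f '' D → δ ∈ D ∧ f δ = p := by
    intro p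
    by_cases h : p ∈ f '' D
    · obtain ⟨δ, h1, h2⟩ := h
      exact ⟨δ, fun _ => ⟨h1, h2⟩⟩
    · exact ⟨0, fun h' => absurd h' h⟩
  choose r hr using hr
  refine ⟨hfinI.toFinset.image r, ?_, ?_⟩
  · intro δ hδ
    rw [Finset.mem_image] at hδ
    obtain ⟨p, hp, rfl⟩ := hδ
    exact (hr p (hfinI.mem_toFinset.mp hp)).1.1
  · intro δ hδ0 hδC
    have hδ : δ ∈ D := ⟨hδ0, hδC⟩
    have hp : f δ ∈ f '' D := ⟨δ, hδ, rfl⟩
    obtain ⟨h1, h2⟩ := hr (f δ) hp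
    refine ⟨r (f δ), Finset.mem_image.mpr ⟨f δ, hfinI.mem_toFinset.mpr hp, rfl⟩, ?_⟩
    have h3 : Ideal.span {r (f δ)} = Ideal.span {δ} := congrArg Prod.fst h2
    have h4 : (QuotientGroup.mk (v (r (f δ))) : (𝓞 F)ˣ ⧸ (powMonoidHom (α := (𝓞 F)ˣ) 2).range) =
        QuotientGroup.mk (v δ) := congrArg Prod.snd h2
    rw [QuotientGroup.eq] at h4
    obtain ⟨u, hu⟩ := h4
    refine ⟨u, ?_⟩
    have h5 := hv δ hδ
    have h6 := hv (r (f δ)) h1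
    rw [h3] at h6
    have h7 : v δ = v (r (f δ)) * u ^ 2 := by
      have h8 : u ^ 2 = (v (r (f δ)))⁻¹ * v δ := hu
      rw [h8, mul_inv_cancel_left]
    calc δ = g (Ideal.span {δ}) * (v δ : 𝓞 F) := h5
      _ = g (Ideal.span {δ}) * ((v (r (f δ)) * u ^ 2 : (𝓞 F)ˣ) : 𝓞 F) := by rw [← h7]
      _ = (g (Ideal.span {δ}) * (v (r (f δ)) : 𝓞 F)) * (u : 𝓞 F) ^ 2 := by
          rw [Units.val_mul, Units.val_pow_eq_pow_val, mul_assoc]
      _ = r (f δ) * (u : 𝓞 F) ^ 2 := by rw [← h6]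

end Pool.PL
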