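import Pool.Agent.Work.MP_972ac7_P.Interface1

set_option autoImplicit false

/-! # THEOREM P, block WLK: the random walk -/

open MeasureTheory

noncomputable section

namespace Pool.PL

section WLK

variable {k : Type} [NormedField k]

theorem WLK_word_zero {J : Type} (S : J → SL2 k) (a : SL2 k) (w : Fin 0 → J) :
    word S a w = 1 := by
  unfold word
  rw [List.ofFn_zero, List.prod_nil]

theorem WLK_word_succ {J : Type} (S : J → SL2 k) (a : SL2 k) {n : ℕ} (w : Fin (n + 1) → J) :
    word S a w = S (w 0) * a * word S a (fun i => w i.succ) := by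
  unfold word
  rw [List.ofFn_succ, List.prod_cons]

theorem WLK_word_cons {J : Type} (S : J → SL2 k) (a : SL2 k) {n : ℕ} (j : J) (w : Fin n → J) :
    word S a (Fin.cons j w : Fin (n + 1) → J) = S j * a * word S a w := by
  rw [WLK_word_succ]
  simp only [Fin.cons_zero, Fin.cons_succ]

variable [IsUltrametricDist k]

theorem WLK_pos (hNRM : Stmt_NRM) (L : LocF k) (g : SL2 k) : 0 < nm g := by
  obtain ⟨j, hj⟩ := (hNRM k L).1 g
  rw [hj]
  exact pow_pos L.q_pos j

theorem WLK_sum (hSUP : Stmt_SUP) (L : LocF k) (M : ℕ) (J : Type) [Fintype J]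
    (S : J → SL2 k) (hS : IsReps L (2 * M) S) (n : ℕ) : ∀ g : SL2 k,
    ∑ w : Fin n → J, (nm (g * word S (aa L M) w))⁻¹ ≤
      ((Fintype.card J : ℝ) * rho L M) ^ n * (nm g)⁻¹ := by
  have hr : 0 ≤ rho L M := by
    unfold rho
    have := L.q_pos
    positivity
  induction n with
  | zero =>
    intro g
    rw [Fintype.sum_unique, WLK_word_zero, mul_one, pow_zero, one_mul]
  | succ n ih =>
    intro g
    rw [← (Fin.consEquiv (fun _ : Fin (n + 1) => J)).sum_comp, Fintype.sum_prod_type]
    have h1 : ∀ j : J, ∑ w : Fin n → J,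
        (nm (g * word S (aa L M) ((Fin.consEquiv (fun _ : Fin (n + 1) => J)) (j, w))))⁻¹ ≤
          ((Fintype.card J : ℝ) * rho L M) ^ n * (nm (g * (S j * aa L M)))⁻¹ := by
      intro j
      have h2 := ih (g * (S j * aa L M))
      refine le_trans (le_of_eq ?_) h2
      apply Finset.sum_congr rfl
      intro w _
      change (nm (g * word S (aa L M) (Fin.cons j w : Fin (n + 1) → J)))⁻¹ = _
      rw [WLK_word_cons, mul_assoc g (S j * aa L M)]
    calc _ ≤ ∑ j : J, ((Fintype.card J : ℝ) * rho L M) ^ n * (nm (g * (S j * aa L M)))⁻¹ :=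
          Finset.sum_le_sum fun j _ => h1 j
      _ = ((Fintype.card J : ℝ) * rho L M) ^ n * ∑ j : J, (nm (g * (S j * aa L M)))⁻¹ := by
          rw [Finset.mul_sum]
      _ ≤ ((Fintype.card J : ℝ) * rho L M) ^ n *
            (Fintype.card J * (rho L M * (nm g)⁻¹)) :=
          mul_le_mul_of_nonneg_left (hSUP k L M J S hS g) (by positivity)
      _ = _ := by ring

theorem WLK_nm_word (hNRM : Stmt_NRM) (L : LocF k) (M : ℕ) (J : Type)
    (S : J → SL2 k) (hS : ∀ j, S j ∈ KK L 0) (n : ℕ) : ∀ w : Fin n → J,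
    nm (word S (aa L M) w) ≤ (L.q : ℝ) ^ (n * M) := by
  have hone : nm (1 : SL2 k) ≤ 1 := (KK L 0).one_mem.1
  induction n with
  | zero =>
    intro w
    rw [WLK_word_zero, zero_mul, pow_zero]
    exact hone
  | succ n ih =>
    intro w
    rw [WLK_word_succ]
    have h1 : nm (S (w 0) * aa L M) ≤ (L.q : ℝ) ^ M := by
      calc nm (S (w 0) * aa L M) ≤ nm (S (w 0)) * nm (aa L M) := nm_mul_le _ _
        _ ≤ 1 * (L.q : ℝ) ^ M := by
            rw [(hNRM k L).2.2.2 M]
            exact mul_le_mul_of_nonneg_right (hS (w 0)).1 (pow_nonneg L.q_pos.le M)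
        _ = _ := one_mul _
    calc _ ≤ nm (S (w 0) * aa L M) * nm (word S (aa L M) fun i => w i.succ) := nm_mul_le _ _
      _ ≤ (L.q : ℝ) ^ M * (L.q : ℝ) ^ (n * M) :=
          mul_le_mul h1 (ih _) (mnm_nonneg _) (pow_nonneg L.q_pos.le M)
      _ = _ := by
          rw [← pow_add]
          congr 1
          ring

end WLK

theorem p_WLK (hSUP : Stmt_SUP) (hNRM : Stmt_NRM) : Stmt_WLK := by
  classical
  intro k _ _ L M J _ S hS n g
  have hpos : ∀ x : SL2 k, 0 < nm x := WLK_pos hNRM L
  constructor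
  · have hfin : (Nat.card {p : (Fin n → J) × (Fin n → J) //
        (word S (aa L M) p.2)⁻¹ * g * word S (aa L M) p.1 ∈ KK L 0} : ℝ) =
        ∑ p : (Fin n → J) × (Fin n → J),
          if (word S (aa L M) p.2)⁻¹ * g * word S (aa L M) p.1 ∈ KK L 0 then (1 : ℝ) else 0 := by
      rw [Nat.card_eq_fintype_card, Fintype.card_subtype, Finset.sum_boole]
    rw [hfin]
    have h1 : ∀ p : (Fin n → J) × (Fin n → J),
        (if (word S (aa L M) p.2)⁻¹ * g * word S (aa L M) p.1 ∈ KK L 0 then (1 : ℝ) else 0) ≤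
          (nm ((word S (aa L M) p.2)⁻¹ * g * word S (aa L M) p.1))⁻¹ := by
      intro p
      split_ifs with h
      · exact one_le_inv_iff₀.2 ⟨hpos _, h.1⟩
      · exact inv_nonneg.2 (mnm_nonneg _)
    have hr : 0 ≤ rho L M := by
      unfold rho
      have := L.q_pos
      positivity
    calc _ ≤ ∑ p : (Fin n → J) × (Fin n → J),
          (nm ((word S (aa L M) p.2)⁻¹ * g * word S (aa L M) p.1))⁻¹ :=
          Finset.sum_le_sum fun p _ => h1 p
      _ = ∑ w' : Fin n → J, ∑ w : Fin n → J,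
          (nm ((word S (aa L M) w')⁻¹ * g * word S (aa L M) w))⁻¹ := by
          rw [Fintype.sum_prod_type_right]
      _ ≤ ∑ w' : Fin n → J, ((Fintype.card J : ℝ) * rho L M) ^ n *
            (nm ((word S (aa L M) w')⁻¹ * g))⁻¹ :=
          Finset.sum_le_sum fun w' _ => WLK_sum hSUP L M J S hS n _
      _ = ((Fintype.card J : ℝ) * rho L M) ^ n *
            ∑ w' : Fin n → J, (nm (g⁻¹ * word S (aa L M) w'))⁻¹ := by
          rw [Finset.mul_sum]
          apply Finset.sum_congr rfl
          intro w' _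
          rw [← nm_inv ((word S (aa L M) w')⁻¹ * g), mul_inv_rev, inv_inv]
      _ ≤ ((Fintype.card J : ℝ) * rho L M) ^ n *
            (((Fintype.card J : ℝ) * rho L M) ^ n * (nm g⁻¹)⁻¹) :=
          mul_le_mul_of_nonneg_left (WLK_sum hSUP L M J S hS n _) (by positivity)
      _ = _ := by
          rw [nm_inv, two_mul, pow_add, pow_add, mul_pow]
          ring
  · intro w w' h
    have hw := WLK_nm_word hNRM L M J S hS.1 n w
    have hw' := WLK_nm_word hNRM L M J S hS.1 n w'
    have hg : g = word S (aa L M) w' * ((word S (aa L M) w')⁻¹ * g * word S (aa L M) w) *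
        (word S (aa L M) w)⁻¹ := by group
    rw [hg]
    calc _ ≤ nm (word S (aa L M) w' * ((word S (aa L M) w')⁻¹ * g * word S (aa L M) w)) *
          nm (word S (aa L M) w)⁻¹ := nm_mul_le _ _
      _ ≤ (nm (word S (aa L M) w') * nm ((word S (aa L M) w')⁻¹ * g * word S (aa L M) w)) *
          nm (word S (aa L M) w)⁻¹ :=
          mul_le_mul_of_nonneg_right (nm_mul_le _ _) (mnm_nonneg _)
      _ ≤ ((L.q : ℝ) ^ (n * M) * 1) * (L.q : ℝ) ^ (n * M) := by
          rw [nm_inv]
          have h0 : (0 : ℝ) ≤ (L.q : ℝ) ^ (n * M) := pow_nonneg L.q_pos.le _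
          exact mul_le_mul (mul_le_mul hw' h.1 (mnm_nonneg _) h0) hw (mnm_nonneg _)
            (mul_nonneg h0 zero_le_one)
      _ = _ := by
          rw [mul_one, ← pow_add]
          congr 1
          ring

end Pool.PL
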