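import Pool.Agent.Work.MP_972ac7_C.Defs

set_option autoImplicit false

/-! # THEOREM P (MP_972ac7_al, note 3109), part I: lattices in products of `SL2` over local fields

Definitions. -/

open MeasureTheory

noncomputable section

namespace Pool.PL

/-- Nonarchimedean local field data: `q` is the number of elements of the residue field and `ϖ` a
uniformizer, `‖ϖ‖ = 1 / q`. -/
structure LocF (k : Type) [NormedField k] where
  q : ℕ
  two_le : 2 ≤ q
  ϖ : k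
  norm_ϖ : ‖ϖ‖ = (q : ℝ)⁻¹
  disc : ∀ x : k, x ≠ 0 → ∃ n : ℤ, ‖x‖ = (q : ℝ) ^ n
  rep : Fin q → k
  rep_le : ∀ i, ‖rep i‖ ≤ 1
  rep_inj : ∀ i j, ‖rep i - rep j‖ < 1 → i = j
  rep_surj : ∀ x : k, ‖x‖ ≤ 1 → ∃ i, ‖x - rep i‖ < 1

/-- `SL2` -/
abbrev SL2 (k : Type) [CommRing k] : Type := Matrix.SpecialLinearGroup (Fin 2) k

section one

variable {k : Type} [NormedField k]

theorem LocF.q_pos (L : LocF k) : (0 : ℝ) < L.q := by
  have := L.two_le
  exact_mod_cast (by omega : 0 < L.q)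

theorem LocF.one_lt (L : LocF k) : (1 : ℝ) < L.q := by
  have := L.two_le
  exact_mod_cast (by omega : 1 < L.q)

theorem LocF.ϖ_ne (L : LocF k) : L.ϖ ≠ 0 := by
  intro h
  have h1 := L.norm_ϖ
  rw [h, norm_zero] at h1
  exact absurd h1.symm (inv_ne_zero (ne_of_gt L.q_pos))

/-- the maximum of the norms of the entries -/
def mnm (m : Matrix (Fin 2) (Fin 2) k) : ℝ := max (max ‖m 0 0‖ ‖m 0 1‖) (max ‖m 1 0‖ ‖m 1 1‖)

theorem mnm_le {m : Matrix (Fin 2) (Fin 2) k} {c : ℝ} : mnm m ≤ c ↔ ∀ i j, ‖m i j‖ ≤ c := by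
  unfold mnm
  constructor
  · intro h i j
    fin_cases i <;> fin_cases j
    · exact le_trans (le_trans (le_max_left _ _) (le_max_left _ _)) h
    · exact le_trans (le_trans (le_max_right _ _) (le_max_left _ _)) h
    · exact le_trans (le_trans (le_max_left _ _) (le_max_right _ _)) h
    · exact le_trans (le_trans (le_max_right _ _) (le_max_right _ _)) h
  · intro h
    exact max_le (max_le (h 0 0) (h 0 1)) (max_le (h 1 0) (h 1 1))

theorem le_mnm (m : Matrix (Fin 2) (Fin 2) k) (i j : Fin 2) : ‖m i j‖ ≤ mnm m :=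
  mnm_le.1 le_rfl i j

theorem mnm_nonneg (m : Matrix (Fin 2) (Fin 2) k) : 0 ≤ mnm m :=
  le_trans (norm_nonneg _) (le_mnm m 0 0)

theorem mnm_add_le [IsUltrametricDist k] {m m' : Matrix (Fin 2) (Fin 2) k} {c : ℝ}
    (h : mnm m ≤ c) (h' : mnm m' ≤ c) : mnm (m + m') ≤ c := by
  rw [mnm_le] at h h' ⊢
  intro i j
  exact le_trans (IsUltrametricDist.norm_add_le_max _ _) (max_le (h i j) (h' i j))

theorem mnm_mul_le [IsUltrametricDist k] (m m' : Matrix (Fin 2) (Fin 2) k) :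
    mnm (m * m') ≤ mnm m * mnm m' := by
  rw [mnm_le]
  intro i j
  rw [Matrix.mul_apply, Fin.sum_univ_two]
  refine le_trans (IsUltrametricDist.norm_add_le_max _ _) (max_le ?_ ?_)
  · rw [norm_mul]
    exact mul_le_mul (le_mnm m i 0) (le_mnm m' 0 j) (norm_nonneg _) (mnm_nonneg m)
  · rw [norm_mul]
    exact mul_le_mul (le_mnm m i 1) (le_mnm m' 1 j) (norm_nonneg _) (mnm_nonneg m)

/-- `|g|`, the maximum of the norms of the entries -/
def nm (g : SL2 k) : ℝ := mnm (g : Matrix (Fin 2) (Fin 2) k)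

theorem nm_inv (g : SL2 k) : nm g⁻¹ = nm g := by
  unfold nm mnm
  rw [Matrix.SpecialLinearGroup.coe_inv, Matrix.adjugate_fin_two]
  simp only [Matrix.of_apply, Matrix.cons_val', Matrix.cons_val_zero, Matrix.cons_val_one,
    norm_neg]
  simp [max_comm, max_left_comm, max_assoc]

theorem nm_mul_le [IsUltrametricDist k] (g h : SL2 k) : nm (g * h) ≤ nm g * nm h := by
  unfold nm
  rw [Matrix.SpecialLinearGroup.coe_mul]
  exact mnm_mul_le _ _

/-- `|g - 1|` -/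
def dnm (g : SL2 k) : ℝ := mnm ((g : Matrix (Fin 2) (Fin 2) k) - 1)

theorem dnm_inv (g : SL2 k) : dnm g⁻¹ = dnm g := by
  unfold dnm mnm
  rw [Matrix.SpecialLinearGroup.coe_inv, Matrix.adjugate_fin_two]
  simp [max_comm, max_left_comm, max_assoc]

/-- the congruence subgroup of level `r` -/
def KK [IsUltrametricDist k] (L : LocF k) (r : ℕ) : Subgroup (SL2 k) where
  carrier := {g | nm g ≤ 1 ∧ dnm g ≤ ((L.q : ℝ) ^ r)⁻¹}
  mul_mem' := by
    intro g h hg hh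
    refine ⟨?_, ?_⟩
    · calc nm (g * h) ≤ nm g * nm h := nm_mul_le g h
        _ ≤ 1 * 1 := mul_le_mul hg.1 hh.1 (mnm_nonneg _) zero_le_one
        _ = 1 := one_mul 1
    · unfold dnm
      have h1 : ((g * h : SL2 k) : Matrix (Fin 2) (Fin 2) k) - 1 =
          ((g : Matrix (Fin 2) (Fin 2) k) - 1) * (h : Matrix (Fin 2) (Fin 2) k) +
            ((h : Matrix (Fin 2) (Fin 2) k) - 1) := by
        rw [Matrix.SpecialLinearGroup.coe_mul, sub_mul, one_mul]
        abel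
      rw [h1]
      apply mnm_add_le
      · refine le_trans (mnm_mul_le _ _) ?_
        calc _ ≤ ((L.q : ℝ) ^ r)⁻¹ * 1 :=
              mul_le_mul hg.2 hh.1 (mnm_nonneg _) (by positivity)
          _ = _ := mul_one _
      · exact hh.2
  one_mem' := by
    refine ⟨?_, ?_⟩
    · change nm (1 : SL2 k) ≤ 1
      unfold nm
      rw [mnm_le]
      intro i j
      fin_cases i <;> fin_cases j <;> simp
    · change dnm (1 : SL2 k) ≤ _
      unfold dnm
      rw [mnm_le]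
      intro i j
      simp
  inv_mem' := by
    intro g hg
    exact ⟨by rw [nm_inv]; exact hg.1, by rw [dnm_inv]; exact hg.2⟩

theorem mem_KK [IsUltrametricDist k] {L : LocF k} {r : ℕ} {g : SL2 k} :
    g ∈ KK L r ↔ nm g ≤ 1 ∧ dnm g ≤ ((L.q : ℝ) ^ r)⁻¹ := Iff.rfl

/-- the upper unipotent matrix -/
def upp (x : k) : SL2 k := ⟨!![1, x; 0, 1], by simp [Matrix.det_fin_two]⟩

/-- the lower unipotent matrix -/
def low (x : k) : SL2 k := ⟨!![1, 0; x, 1], by simp [Matrix.det_fin_two]⟩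

/-- the diagonal matrix with entries `t`, `t⁻¹` -/
def dia (t : k) (h : t ≠ 0) : SL2 k :=
  ⟨!![t, 0; 0, t⁻¹], by simp [Matrix.det_fin_two, h]⟩

/-- `a = diag(ϖ^(-M), ϖ^M)` -/
def aa (L : LocF k) (M : ℕ) : SL2 k :=
  dia (L.ϖ ^ M)⁻¹ (inv_ne_zero (pow_ne_zero _ L.ϖ_ne))

/-- `S` is a system of representatives of `KK L 0 / KK L t` -/
def IsReps [IsUltrametricDist k] (L : LocF k) (t : ℕ) {J : Type} (S : J → SL2 k) : Prop :=
  (∀ j, S j ∈ KK L 0) ∧ ∀ κ ∈ KK L 0, ∃! j, (S j)⁻¹ * κ ∈ KK L t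

/-- the word `(S (w 0) a) (S (w 1) a) ... (S (w (n-1)) a)` -/
def word {J : Type} (S : J → SL2 k) (a : SL2 k) {n : ℕ} (w : Fin n → J) : SL2 k :=
  (List.ofFn fun i => S (w i) * a).prod

/-- `ρ = (2 M + 1) q^(-M)` -/
def rho (L : LocF k) (M : ℕ) : ℝ := (2 * M + 1) / (L.q : ℝ) ^ M

/-- Borel structure on `SL2` -/
instance instMSL2 : MeasurableSpace (SL2 k) := borel _

instance instBSL2 : BorelSpace (SL2 k) := ⟨rfl⟩

end one

/-! ## Products -/

section prod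

variable {ι : Type} (k : ι → Type) [∀ i, NormedField (k i)]

/-- the product of the groups `SL2 (k i)` -/
abbrev GG : Type := ∀ i, SL2 (k i)

variable {k}

/-- the product of the congruence subgroups of levels `s i` -/
def KG [∀ i, IsUltrametricDist (k i)] (L : ∀ i, LocF (k i)) (s : ι → ℕ) : Subgroup (GG k) :=
  Subgroup.pi Set.univ fun i => KK (L i) (s i)

theorem mem_KG [∀ i, IsUltrametricDist (k i)] {L : ∀ i, LocF (k i)} {s : ι → ℕ} {g : GG k} :
    g ∈ KG L s ↔ ∀ i, g i ∈ KK (L i) (s i) := by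
  unfold KG
  rw [Subgroup.mem_pi]
  simp

open Classical in
/-- the set of the elements counted in (COUNT) -/
def cset [∀ i, IsUltrametricDist (k i)] (L : ∀ i, LocF (k i)) (Γ : Subgroup (GG k)) (W v : ι)
    (g : GG k) (r j : ℕ) : Set Γ :=
  {γ | (g * γ * g⁻¹ : GG k) v ∈ KK (L v) r ∧ nm ((g * γ * g⁻¹ : GG k) W) ≤ ((L W).q : ℝ) ^ j ∧
    ∀ u, u ≠ v → u ≠ W → (g * γ * g⁻¹ : GG k) u ∈ KK (L u) 0}

/-- A subgroup `Γ` of `∏ SL2 (k i)` with finitely many classes and with the counting property. -/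
structure Lat [∀ i, IsUltrametricDist (k i)] (L : ∀ i, LocF (k i)) (Γ : Subgroup (GG k)) :
    Prop where
  classes : ∃ (N : ℕ) (g : Fin N → GG k), ∀ x : GG k, ∃ i, ∃ κ ∈ KG L 0, ∃ γ ∈ Γ,
    x = κ * g i * γ
  count : ∀ (W v : ι), W ≠ v → ∀ g : GG k, ∃ C : ℝ, 0 < C ∧ ∀ r j : ℕ,
    (cset L Γ W v g r j).Finite ∧
    (Nat.card (cset L Γ W v g r j) : ℝ) ≤
      2 + C * (((L W).q : ℝ) ^ j / ((L v).q : ℝ) ^ r) ^ (5 / 3 : ℝ) *
        (1 + ((L W).q : ℝ) ^ j / (((L v).q : ℝ) ^ r) ^ 2)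

end prod

/-! ## Functions on `G ⧸ Γ` -/

section fns

variable {G : Type} [Group G]

/-- translation -/
def tr {Γ : Subgroup G} (g : G) (f : G ⧸ Γ → ℂ) : G ⧸ Γ → ℂ := fun x => f (g⁻¹ • x)

theorem tr_mul {Γ : Subgroup G} (g h : G) (f : G ⧸ Γ → ℂ) : tr (g * h) f = tr g (tr h f) := by
  funext x
  simp only [tr, mul_inv_rev, mul_smul]

theorem tr_one {Γ : Subgroup G} (f : G ⧸ Γ → ℂ) : tr 1 f = f := by
  funext x
  simp [tr]

/-- the space of the `K`-invariant functions on `G ⧸ Γ` -/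
def Inv (Γ K : Subgroup G) : Submodule ℂ (G ⧸ Γ → ℂ) where
  carrier := {f | ∀ κ ∈ K, tr κ f = f}
  add_mem' := by
    intro f g hf hg κ hκ
    funext x
    have h1 := congrFun (hf κ hκ) x
    have h2 := congrFun (hg κ hκ) x
    simp only [tr, Pi.add_apply] at h1 h2 ⊢
    rw [h1, h2]
  zero_mem' := by
    intro κ _
    rfl
  smul_mem' := by
    intro c f hf κ hκ
    funext x
    have h1 := congrFun (hf κ hκ) x
    simp only [tr, Pi.smul_apply] at h1 ⊢
    rw [h1]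

theorem mem_Inv {Γ K : Subgroup G} {f : G ⧸ Γ → ℂ} : f ∈ Inv Γ K ↔ ∀ κ ∈ K, tr κ f = f := Iff.rfl

theorem Inv_mono {Γ K K' : Subgroup G} (h : K' ≤ K) : Inv Γ K ≤ Inv Γ K' :=
  fun _ hf κ hκ => hf κ (h hκ)

/-- the scalar product -/
def ip {X : Type} [MeasurableSpace X] (m : Measure X) (f g : X → ℂ) : ℂ :=
  ∫ x, (starRingEnd ℂ) (f x) * g x ∂m

/-- the square of the norm -/
def sq {X : Type} [MeasurableSpace X] (m : Measure X) (f : X → ℂ) : ℝ := ∫ x, ‖f x‖ ^ 2 ∂m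

/-- the Hecke operator: the average of the translates by `S j * a` -/
def hk {Γ : Subgroup G} {J : Type} [Fintype J] (S : J → G) (a : G) (f : G ⧸ Γ → ℂ) :
    G ⧸ Γ → ℂ :=
  fun x => (Fintype.card J : ℂ)⁻¹ * ∑ j, f ((S j * a)⁻¹ • x)

/-- the conditional expectation on the `K`-invariant functions -/
def cex {Γ : Subgroup G} [MeasurableSpace (G ⧸ Γ)] (m : Measure (G ⧸ Γ)) (K : Subgroup G)
    (φ : G ⧸ Γ → ℂ) : G ⧸ Γ → ℂ :=
  fun x => (((m (MulAction.orbit K x)).toReal)⁻¹ : ℂ) * ∫ y in MulAction.orbit K x, φ y ∂m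

end fns

end Pool.PL
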