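import Pool.Agent.Work.MP_972ac7_P.Defs

set_option autoImplicit false

/-! # THEOREM P (MP_972ac7_al, note 3109), part II: definitions for the quaternion groups -/

open NumberField IsDedekindDomain
open scoped Quaternion

noncomputable section

namespace Pool.PL

section field

variable {F : Type} [Field F] [NumberField F]

/-- the normalized `w`-adic absolute value -/
def av (w : HeightOneSpectrum (𝓞 F)) (x : F) : ℝ := HeightOneSpectrum.adicAbv F w x

theorem av_mul (w : HeightOneSpectrum (𝓞 F)) (x y : F) : av w (x * y) = av w x * av w y :=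
  map_mul _ _ _

theorem av_add_le (w : HeightOneSpectrum (𝓞 F)) (x y : F) : av w (x + y) ≤ max (av w x) (av w y) :=
  HeightOneSpectrum.adicAbv_add_le_max F w x y

theorem av_neg (w : HeightOneSpectrum (𝓞 F)) (x : F) : av w (-x) = av w x :=
  (HeightOneSpectrum.adicAbv F w).map_neg x

theorem av_nonneg (w : HeightOneSpectrum (𝓞 F)) (x : F) : 0 ≤ av w x :=
  (HeightOneSpectrum.adicAbv F w).nonneg x

theorem av_int (w : HeightOneSpectrum (𝓞 F)) (x : 𝓞 F) : av w (x : F) ≤ 1 :=
  w.adicAbv_coe_le_one (HeightOneSpectrum.one_lt_absNorm_nnreal w) x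

theorem av_int_eq_one_iff (w : HeightOneSpectrum (𝓞 F)) (x : 𝓞 F) :
    av w (x : F) = 1 ↔ x ∉ w.asIdeal :=
  w.adicAbv_coe_eq_one_iff (HeightOneSpectrum.one_lt_absNorm_nnreal w) x

/-- the product of the real absolute values -/
def Nm (x : F) : ℝ := ∏ σ : F →+* ℝ, |σ x|

theorem Nm_mul (x y : F) : Nm (x * y) = Nm x * Nm y := by
  unfold Nm
  rw [← Finset.prod_mul_distrib]
  exact Finset.prod_congr rfl fun σ _ => by rw [map_mul, abs_mul]

theorem Nm_pow (x : F) (n : ℕ) : Nm (x ^ n) = Nm x ^ n := by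
  unfold Nm
  rw [← Finset.prod_pow]
  exact Finset.prod_congr rfl fun σ _ => by rw [map_pow, abs_pow]

theorem Nm_pos {x : F} (h : x ≠ 0) : 0 < Nm x :=
  Finset.prod_pos fun σ _ => abs_pos.2 ((map_ne_zero σ).2 h)

theorem Nm_nonneg (x : F) : 0 ≤ Nm x := Finset.prod_nonneg fun σ _ => abs_nonneg _

variable (F) in
/-- `F` is totally real: the real absolute values are all archimedean ones. -/
structure TR : Prop where
  card : Fintype.card (F →+* ℝ) = Module.finrank ℚ F
  norm : ∀ x : F, |((Algebra.norm ℚ x : ℚ) : ℝ)| = Nm x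

end field

/-- the norm form -/
def nrq {R : Type} [CommRing R] {a b : R} (z : ℍ[R, a, b]) : R :=
  z.re ^ 2 - a * z.imI ^ 2 - b * z.imJ ^ 2 + a * b * z.imK ^ 2

theorem nrq_mul {R : Type} [CommRing R] {a b : R} (z w : ℍ[R, a, b]) :
    nrq (z * w) = nrq z * nrq w := by
  simp only [nrq, QuaternionAlgebra.re_mul, QuaternionAlgebra.imI_mul, QuaternionAlgebra.imJ_mul,
    QuaternionAlgebra.imK_mul]
  ring

theorem nrq_star {R : Type} [CommRing R] {a b : R} (z : ℍ[R, a, b]) : nrq (star z) = nrq z := by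
  simp only [nrq, QuaternionAlgebra.re_star, QuaternionAlgebra.imI_star,
    QuaternionAlgebra.imJ_star, QuaternionAlgebra.imK_star]
  ring

theorem star_mul_self' {R : Type} [CommRing R] {a b : R} (z : ℍ[R, a, b]) :
    star z * z = ((nrq z : R) : ℍ[R, a, b]) ∧ z * star z = ((nrq z : R) : ℍ[R, a, b]) := by
  constructor <;>
  · ext <;> simp only [nrq, QuaternionAlgebra.re_mul, QuaternionAlgebra.imI_mul,
      QuaternionAlgebra.imJ_mul, QuaternionAlgebra.imK_mul, QuaternionAlgebra.re_star,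
      QuaternionAlgebra.imI_star, QuaternionAlgebra.imJ_star, QuaternionAlgebra.imK_star,
      QuaternionAlgebra.re_coe, QuaternionAlgebra.imI_coe, QuaternionAlgebra.imJ_coe,
      QuaternionAlgebra.imK_coe] <;> ring

theorem mem_unitary_iff_nrq {R : Type} [CommRing R] {a b : R} (z : ℍ[R, a, b]) :
    z ∈ unitary ℍ[R, a, b] ↔ nrq z = 1 := by
  rw [Unitary.mem_iff, (star_mul_self' z).1, (star_mul_self' z).2]
  constructor
  · intro h
    have := congrArg QuaternionAlgebra.re h.1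
    simpa using this
  · intro h
    rw [h]
    simp

section mat

variable {F k : Type} [Field F] [NormedField k]

/-- the matrix of a quaternion, for `x ^ 2 - e a * y ^ 2 = e b` -/
def mq (e : F →+* k) {a b : F} (x y : k) (z : ℍ[F, a, b]) : Matrix (Fin 2) (Fin 2) k :=
  !![e z.re + e z.imJ * x + e z.imK * (e a * y),
      e a * e z.imI - e z.imJ * (e a * y) - e z.imK * (e a * x);
    e z.imI + e z.imJ * y + e z.imK * x,
      e z.re - e z.imJ * x - e z.imK * (e a * y)]

theorem mq_mul (e : F →+* k) {a b : F} {x y : k} (h : x ^ 2 - e a * y ^ 2 = e b)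
    (z w : ℍ[F, a, b]) : mq e x y (z * w) = mq e x y z * mq e x y w := by
  have hb : e b = x ^ 2 - e a * y ^ 2 := h.symm
  ext i j
  fin_cases i <;> fin_cases j <;>
  · simp [mq, Matrix.mul_apply, Fin.sum_univ_two, hb]
    ring

theorem mq_one (e : F →+* k) {a b : F} (x y : k) : mq e x y (1 : ℍ[F, a, b]) = 1 := by
  ext i j
  fin_cases i <;> fin_cases j <;> simp [mq]

theorem mq_sub (e : F →+* k) {a b : F} (x y : k) (z w : ℍ[F, a, b]) :
    mq e x y (z - w) = mq e x y z - mq e x y w := by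
  ext i j
  fin_cases i <;> fin_cases j <;>
  · simp [mq]
    ring

theorem mq_det (e : F →+* k) {a b : F} {x y : k} (h : x ^ 2 - e a * y ^ 2 = e b)
    (z : ℍ[F, a, b]) : (mq e x y z).det = e (nrq z) := by
  have hb : e b = x ^ 2 - e a * y ^ 2 := h.symm
  simp [mq, nrq, Matrix.det_fin_two, hb]
  ring

/-- the homomorphism from the norm one group to `SL2` -/
def th (e : F →+* k) {a b : F} {x y : k} (h : x ^ 2 - e a * y ^ 2 = e b) :
    unitary ℍ[F, a, b] →* SL2 k where
  toFun z := ⟨mq e x y z.1, by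
    rw [mq_det e h, (mem_unitary_iff_nrq _).1 z.2, map_one]⟩
  map_one' := Subtype.ext (mq_one e x y)
  map_mul' z w := Subtype.ext (mq_mul e h z.1 w.1)

end mat

section quat

variable {F : Type} [Field F] [NumberField F]

/-- the coordinates of `z` have `w`-adic absolute value at most `c` -/
def CB (w : HeightOneSpectrum (𝓞 F)) {a b : F} (z : ℍ[F, a, b]) (c : ℝ) : Prop :=
  av w z.re ≤ c ∧ av w z.imI ≤ c ∧ av w z.imJ ≤ c ∧ av w z.imK ≤ c

/-- the `w`-integral elements -/
def OS (w : HeightOneSpectrum (𝓞 F)) : Subring F where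
  carrier := {x | av w x ≤ 1}
  mul_mem' := by
    intro s t hs ht
    change av w (s * t) ≤ 1
    rw [av_mul]
    exact mul_le_one₀ hs (av_nonneg w t) ht
  one_mem' := by
    change av w (1 : F) ≤ 1
    unfold av
    rw [map_one]
  add_mem' := by
    intro s t hs ht
    exact le_trans (av_add_le w s t) (max_le hs ht)
  zero_mem' := by
    change av w (0 : F) ≤ 1
    unfold av
    rw [map_zero]
    exact zero_le_one
  neg_mem' := by
    intro s hs
    change av w (-s) ≤ 1
    rw [av_neg]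
    exact hs

theorem mem_OS {w : HeightOneSpectrum (𝓞 F)} {x : F} : x ∈ OS w ↔ av w x ≤ 1 := Iff.rfl

theorem CB_mul {w : HeightOneSpectrum (𝓞 F)} {a b : F} (ha : a ∈ OS w) (hb : b ∈ OS w)
    {z z' : ℍ[F, a, b]} (h : CB w z 1) (h' : CB w z' 1) : CB w (z * z') 1 := by
  obtain ⟨h1, h2, h3, h4⟩ := h
  obtain ⟨k1, k2, k3, k4⟩ := h'
  rw [← mem_OS] at h1 h2 h3 h4 k1 k2 k3 k4
  have h0 : (0 : F) ∈ OS w := zero_mem _
  refine ⟨?_, ?_, ?_, ?_⟩
  · rw [← mem_OS, QuaternionAlgebra.re_mul]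
    exact sub_mem (add_mem (add_mem (add_mem (mul_mem h1 k1) (mul_mem (mul_mem ha h2) k2))
      (mul_mem (mul_mem hb h3) k3)) (mul_mem (mul_mem (mul_mem h0 hb) h3) k4))
      (mul_mem (mul_mem (mul_mem ha hb) h4) k4)
  · rw [← mem_OS, QuaternionAlgebra.imI_mul]
    exact add_mem (sub_mem (add_mem (add_mem (mul_mem h1 k2) (mul_mem h2 k1))
      (mul_mem (mul_mem h0 h2) k2)) (mul_mem (mul_mem hb h3) k4)) (mul_mem (mul_mem hb h4) k3)
  · rw [← mem_OS, QuaternionAlgebra.imJ_mul]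
    exact sub_mem (add_mem (add_mem (add_mem (mul_mem h1 k3) (mul_mem (mul_mem ha h2) k4))
      (mul_mem h3 k1)) (mul_mem (mul_mem h0 h3) k2)) (mul_mem (mul_mem ha h4) k2)
  · rw [← mem_OS, QuaternionAlgebra.imK_mul]
    exact add_mem (sub_mem (add_mem (add_mem (mul_mem h1 k4) (mul_mem h2 k3))
      (mul_mem (mul_mem h0 h2) k4)) (mul_mem h3 k2)) (mul_mem h4 k1)

theorem CB_star {w : HeightOneSpectrum (𝓞 F)} {a b : F} {z : ℍ[F, a, b]} {c : ℝ}
    (h : CB w z c) : CB w (star z) c := by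
  obtain ⟨h1, h2, h3, h4⟩ := h
  refine ⟨?_, ?_, ?_, ?_⟩
  · rw [QuaternionAlgebra.re_star, zero_mul, add_zero]
    exact h1
  · rw [QuaternionAlgebra.imI_star, av_neg]
    exact h2
  · rw [QuaternionAlgebra.imJ_star, av_neg]
    exact h3
  · rw [QuaternionAlgebra.imK_star, av_neg]
    exact h4

theorem CB_one (w : HeightOneSpectrum (𝓞 F)) {a b : F} : CB w (1 : ℍ[F, a, b]) 1 :=
  ⟨mem_OS.1 (one_mem _), mem_OS.1 (zero_mem _), mem_OS.1 (zero_mem _), mem_OS.1 (zero_mem _)⟩

/-- the norm one elements over `O[1/n]`: the coordinates are `w`-integral for all `w` that do not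
divide `n` -/
def GU (a b n : 𝓞 F) : Subgroup (unitary ℍ[F, (a : F), (b : F)]) where
  carrier := {z | ∀ w : HeightOneSpectrum (𝓞 F), n ∉ w.asIdeal → CB w z.1 1}
  mul_mem' := fun hz hz' w hw => CB_mul (av_int w a) (av_int w b) (hz w hw) (hz' w hw)
  one_mem' := fun w _ => CB_one w
  inv_mem' := fun hz w hw => CB_star (hz w hw)

theorem mem_GU {a b n : 𝓞 F} {z : unitary ℍ[F, (a : F), (b : F)]} :
    z ∈ GU a b n ↔ ∀ w : HeightOneSpectrum (𝓞 F), n ∉ w.asIdeal → CB w z.1 1 := Iff.rfl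

/-- The arithmetic data: a totally real field `F`, a totally definite quaternion algebra `(a, b)`,
an integer `n`, and the set `ι` of all split primes `v i` dividing `n` with the completions `k i`. -/
structure Ctx (F : Type) [Field F] [NumberField F] (ι : Type) (k : ι → Type)
    [∀ i, NormedField (k i)] where
  tr : TR F
  a : 𝓞 F
  b : 𝓞 F
  n : 𝓞 F
  ha : ∀ σ : F →+* ℝ, σ (a : F) < 0
  hb : ∀ σ : F →+* ℝ, σ (b : F) < 0
  hn : n ≠ 0
  v : ι → HeightOneSpectrum (𝓞 F)
  inj : Function.Injective v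
  e : ∀ i, F →+* k i
  he : ∀ i x, ‖e i x‖ = av (v i) x
  L : ∀ i, LocF (k i)
  hq : ∀ i, (L i).q = Ideal.absNorm (v i).asIdeal
  x : ∀ i, k i
  y : ∀ i, k i
  spl : ∀ i, x i ^ 2 - e i (a : F) * y i ^ 2 = e i (b : F)
  div : ∀ i, n ∈ (v i).asIdeal
  nsp : ∀ w : HeightOneSpectrum (𝓞 F), n ∈ w.asIdeal → (∀ i, w ≠ v i) →
    ∃ C : ℝ, ∀ z : ℍ[F, (a : F), (b : F)], nrq z = 1 → CB w z C

/-- `(a, b)` is split at `w` -/
def SplitAt (a b : 𝓞 F) (w : HeightOneSpectrum (𝓞 F)) : Prop :=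
  ∃ x y : w.adicCompletion F, x ^ 2 - algebraMap (𝓞 F) (w.adicCompletion F) a * y ^ 2 =
    algebraMap (𝓞 F) (w.adicCompletion F) b

/-- the quaternions over `O[1/n]` -/
abbrev HL (a b n : 𝓞 F) : Type :=
  ℍ[Localization.Away n, algebraMap (𝓞 F) (Localization.Away n) a,
    algebraMap (𝓞 F) (Localization.Away n) b]

variable {ι : Type} {k : ι → Type} [∀ i, NormedField (k i)]

/-- the matrix at the place `i` -/
def Ctx.mt (D : Ctx F ι k) (i : ι) (z : ℍ[F, (D.a : F), (D.b : F)]) :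
    Matrix (Fin 2) (Fin 2) (k i) := mq (D.e i) (D.x i) (D.y i) z

/-- the embedding of the norm one group in the product of the groups `SL2 (k i)` -/
def Ctx.Th (D : Ctx F ι k) : unitary ℍ[F, (D.a : F), (D.b : F)] →* GG k :=
  MonoidHom.pi fun i => th (D.e i) (D.spl i)

/-- the lattice -/
def Ctx.Γ (D : Ctx F ι k) : Subgroup (GG k) := (GU D.a D.b D.n).map D.Th

end quat

end Pool.PL
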