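import Pool.Agent.Work.MP_972ac7_P.B_ADC
import Pool.Agent.Work.MP_972ac7_P.B_ANG
import Pool.Agent.Work.MP_972ac7_P.B_ANI
import Pool.Agent.Work.MP_972ac7_P.B_ARI
import Pool.Agent.Work.MP_972ac7_P.B_BES
import Pool.Agent.Work.MP_972ac7_P.B_BOX
import Pool.Agent.Work.MP_972ac7_P.B_CAR
import Pool.Agent.Work.MP_972ac7_P.B_CL1
import Pool.Agent.Work.MP_972ac7_P.B_CL2
import Pool.Agent.Work.MP_972ac7_P.B_CL3
import Pool.Agent.Work.MP_972ac7_P.B_CN0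
import Pool.Agent.Work.MP_972ac7_P.B_CNA
import Pool.Agent.Work.MP_972ac7_P.B_CNS
import Pool.Agent.Work.MP_972ac7_P.B_CNT
import Pool.Agent.Work.MP_972ac7_P.B_CON
import Pool.Agent.Work.MP_972ac7_P.B_CTR
import Pool.Agent.Work.MP_972ac7_P.B_CTU
import Pool.Agent.Work.MP_972ac7_P.B_CX1
import Pool.Agent.Work.MP_972ac7_P.B_CX2
import Pool.Agent.Work.MP_972ac7_P.B_CX3
import Pool.Agent.Work.MP_972ac7_P.B_DEN
import Pool.Agent.Work.MP_972ac7_P.B_DFN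
import Pool.Agent.Work.MP_972ac7_P.B_DIM
import Pool.Agent.Work.MP_972ac7_P.B_DMG
import Pool.Agent.Work.MP_972ac7_P.B_DMS
import Pool.Agent.Work.MP_972ac7_P.B_DNS
import Pool.Agent.Work.MP_972ac7_P.B_DSC
import Pool.Agent.Work.MP_972ac7_P.B_END
import Pool.Agent.Work.MP_972ac7_P.B_ERG
import Pool.Agent.Work.MP_972ac7_P.B_EVD
import Pool.Agent.Work.MP_972ac7_P.B_FIN
import Pool.Agent.Work.MP_972ac7_P.B_GEN
import Pool.Agent.Work.MP_972ac7_P.B_GPV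
import Pool.Agent.Work.MP_972ac7_P.B_HKI
import Pool.Agent.Work.MP_972ac7_P.B_HKS
import Pool.Agent.Work.MP_972ac7_P.B_ICL
import Pool.Agent.Work.MP_972ac7_P.B_INJ
import Pool.Agent.Work.MP_972ac7_P.B_IPL
import Pool.Agent.Work.MP_972ac7_P.B_ISO
import Pool.Agent.Work.MP_972ac7_P.B_KNR
import Pool.Agent.Work.MP_972ac7_P.B_LCL
import Pool.Agent.Work.MP_972ac7_P.B_LPT
import Pool.Agent.Work.MP_972ac7_P.B_MAS
import Pool.Agent.Work.MP_972ac7_P.B_MEA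
import Pool.Agent.Work.MP_972ac7_P.B_MEX
import Pool.Agent.Work.MP_972ac7_P.B_MIN
import Pool.Agent.Work.MP_972ac7_P.B_MSR
import Pool.Agent.Work.MP_972ac7_P.B_NBD
import Pool.Agent.Work.MP_972ac7_P.B_NRM
import Pool.Agent.Work.MP_972ac7_P.B_ORB
import Pool.Agent.Work.MP_972ac7_P.B_PFM
import Pool.Agent.Work.MP_972ac7_P.B_PGL
import Pool.Agent.Work.MP_972ac7_P.B_PNR
import Pool.Agent.Work.MP_972ac7_P.B_PRJ
import Pool.Agent.Work.MP_972ac7_P.B_PTO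
import Pool.Agent.Work.MP_972ac7_P.B_REPS
import Pool.Agent.Work.MP_972ac7_P.B_RES
import Pool.Agent.Work.MP_972ac7_P.B_SGP
import Pool.Agent.Work.MP_972ac7_P.B_SMM
import Pool.Agent.Work.MP_972ac7_P.B_SPC
import Pool.Agent.Work.MP_972ac7_P.B_SUP
import Pool.Agent.Work.MP_972ac7_P.B_SX
import Pool.Agent.Work.MP_972ac7_P.B_SXB
import Pool.Agent.Work.MP_972ac7_P.B_TOP
import Pool.Agent.Work.MP_972ac7_P.B_TRN
import Pool.Agent.Work.MP_972ac7_P.B_UNI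
import Pool.Agent.Work.MP_972ac7_P.B_USQ
import Pool.Agent.Work.MP_972ac7_P.B_VPW
import Pool.Agent.Work.MP_972ac7_P.B_WLK
import Pool.Agent.Work.MP_972ac7_C.Gap

set_option autoImplicit false

/-! # THEOREM P (MP_972ac7_al): assembly of the blocks -/

open MeasureTheory NumberField IsDedekindDomain
open scoped Quaternion

namespace Pool.PL

open Pool.TFD Pool.TC

theorem t_TRN : Stmt_TRN := p_TRN
theorem t_PFM : Stmt_PFM := p_PFM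
theorem t_ADC : Stmt_ADC := p_ADC
theorem t_ANI : Stmt_ANI := p_ANI
theorem t_INJ : Stmt_INJ := p_INJ
theorem t_VPW : Stmt_VPW := p_VPW
theorem t_BOX : Stmt_BOX := p_BOX
theorem t_ANG : Stmt_ANG := p_ANG
theorem t_CON : Stmt_CON := p_CON t_PFM t_ANG
theorem t_CN0 : Stmt_CN0 := p_CN0
theorem t_DFN : Stmt_DFN := p_DFN
theorem t_CNA : Stmt_CNA := p_CNA t_PFM t_BOX t_CON t_CN0 t_DFN
theorem t_DEN : Stmt_DEN := p_DEN
theorem t_NBD : Stmt_NBD := p_NBD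
theorem t_CNS : Stmt_CNS := p_CNS t_PFM t_DEN t_NBD
theorem t_CNT : Stmt_CNT := p_CNT t_VPW t_CNA t_CNS
theorem t_LPT : Stmt_LPT := p_LPT
theorem t_CAR : Stmt_CAR := p_CAR
theorem t_RES : Stmt_RES := p_RES
theorem t_NRM : Stmt_NRM := p_NRM
theorem t_PGL : Stmt_PGL := p_PGL t_CAR t_RES t_NRM
theorem t_ICL : Stmt_ICL := p_ICL
theorem t_CL1 : Stmt_CL1 := p_CL1 t_PFM t_LPT t_NBD t_PGL t_ICL t_DFN
theorem t_USQ : Stmt_USQ := p_USQ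
theorem t_CL2 : Stmt_CL2 := p_CL2 t_PFM t_CL1 t_USQ t_DFN
theorem t_LCL : Stmt_LCL := p_LCL
theorem t_MIN : Stmt_MIN := p_MIN
theorem t_CL3 : Stmt_CL3 := p_CL3 t_PFM t_CL2 t_LCL t_RES t_MIN
theorem t_TOP : Stmt_TOP := p_TOP
theorem t_PTO : Stmt_PTO := p_PTO t_TOP
theorem t_GEN : Stmt_GEN := p_GEN
theorem t_UNI : Stmt_UNI := p_UNI t_GEN t_PTO
theorem t_MSR : Stmt_MSR := p_MSR
theorem t_KNR : Stmt_KNR := p_KNR t_RES
theorem t_PNR : Stmt_PNR := p_PNR t_KNR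
theorem t_DSC : Stmt_DSC := p_DSC t_PTO t_PNR
theorem t_MEA : Stmt_MEA := p_MEA t_PTO t_UNI t_MSR t_DSC
theorem t_DMG : Stmt_DMG := p_DMG
theorem t_DMS : Stmt_DMS := p_DMS t_RES
theorem t_DIM : Stmt_DIM := p_DIM t_DMG t_DMS t_RES
theorem t_IPL : Stmt_IPL := p_IPL
theorem t_EVD : Stmt_EVD := p_EVD
theorem t_SPC : Stmt_SPC := p_SPC
theorem t_ARI : Stmt_ARI := p_ARI
theorem t_HKI : Stmt_HKI := p_HKI t_KNR
theorem t_ORB : Stmt_ORB := p_ORB t_PTO t_PNR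
theorem t_HKS : Stmt_HKS := p_HKS t_IPL t_ORB t_HKI
theorem t_SUP : Stmt_SUP := p_SUP t_CAR t_RES t_NRM t_KNR
theorem t_WLK : Stmt_WLK := p_WLK t_SUP t_NRM
theorem t_MAS : Stmt_MAS := p_MAS t_PNR t_ORB
theorem t_BES : Stmt_BES := p_BES
theorem t_SMM : Stmt_SMM := p_SMM
theorem t_CTU : Stmt_CTU := p_CTU t_KNR t_NRM
theorem t_SXB : Stmt_SXB := p_SXB t_NRM t_WLK t_MAS t_ORB t_BES t_SMM t_CTU t_PNR
theorem t_REPS : Stmt_REPS := p_REPS t_KNR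
theorem t_SX : Stmt_SX := p_SX t_DIM t_IPL t_EVD t_SPC t_ARI t_HKI t_HKS t_SXB t_ORB t_PNR t_REPS
theorem t_PRJ : Stmt_PRJ := p_PRJ t_KNR t_PNR t_ORB t_IPL
theorem t_ERG : Stmt_ERG := p_ERG t_SX t_PRJ t_PNR t_KNR t_GEN t_IPL t_ORB
theorem t_GPV : Stmt_GPV := p_GPV t_SX t_PRJ t_HKI t_HKS t_IPL t_ORB t_SPC t_ERG t_REPS t_PNR
theorem t_CX1 : Stmt_CX1 := p_CX1
theorem t_CX2 : Stmt_CX2 := p_CX2 t_PTO t_ORB t_CX1 t_DSC
theorem t_CX3 : Stmt_CX3 := p_CX3 t_CX1 t_PNR t_ORB t_IPL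
theorem t_SGP : Stmt_SGP := p_SGP t_GPV t_CX1 t_CX2 t_CX3 t_ORB t_IPL
theorem t_MEX : Stmt_MEX := p_MEX
theorem t_DNS : Stmt_DNS := p_DNS t_ERG t_PTO t_PNR t_MEX
theorem t_CTR : Stmt_CTR := p_CTR t_GEN
theorem t_FIN : Stmt_FIN := p_FIN t_MEA t_SGP t_DNS t_CTR t_PTO t_TOP t_MEX
theorem t_END : Stmt_END := p_END t_TRN t_PFM t_ADC t_ANI t_INJ t_CNT t_CL3 t_FIN
theorem t_ISO : Stmt_ISO := p_ISO t_PFM

/-- The gap for the norm one group of the quaternions over `O[1/n]`. -/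
theorem gap_HL (F : Type) [Field F] [NumberField F] [IsTotallyReal F] (a b n : 𝓞 F)
    (ha : ∀ σ : F →+* ℝ, σ (a : F) < 0) (hb : ∀ σ : F →+* ℝ, σ (b : F) < 0) (hn : n ≠ 0)
    (h2 : ∃ v w : HeightOneSpectrum (𝓞 F), v ≠ w ∧ n ∈ v.asIdeal ∧ n ∈ w.asIdeal ∧
      SplitAt a b v ∧ SplitAt a b w) : FTGap (unitary (HL a b n)) := by
  obtain ⟨e⟩ := t_ISO F (t_TRN F) a b n hn
  exact p_QUF _ _ e.toMonoidHom e.surjective (t_END F a b n ha hb hn h2)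

/-- THEOREM P. -/
theorem theoremP (F : Type) [Field F] [NumberField F] [IsTotallyReal F] (a b n : 𝓞 F)
    (ha : ∀ σ : F →+* ℝ, σ (a : F) < 0) (hb : ∀ σ : F →+* ℝ, σ (b : F) < 0) (hn : n ≠ 0)
    (h2 : ∃ v w : HeightOneSpectrum (𝓞 F), v ≠ w ∧ n ∈ v.asIdeal ∧ n ∈ w.asIdeal ∧
      SplitAt a b v ∧ SplitAt a b w)
    (B : Subgroup (unitary (HL a b n))) (hB : B.FiniteIndex)
    (Γ : Type) [Group Γ] (f : B →* Γ) (hf : f.range.FiniteIndex) :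
    TracialGap Γ ∧ PropTau Γ := by
  have h := allC_comm _ Γ B hB f hf (gap_HL F a b n ha hb hn h2)
  exact ⟨tracialGap_of_FTGap Γ h, p_TAU Γ (p_FTF Γ h)⟩

end Pool.PL
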