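import Pool.Agent.Work.MP_972ac7_P.Defs
import Pool.Agent.Work.MP_972ac7_gen.Defs

set_option autoImplicit false

/-! # THEOREM P, part I: block statements

Files `B_X.lean` in `Pool/Agent/Work/MP_972ac7_P`, `import Pool.Agent.Work.MP_972ac7_P.Interface1`,
namespace `Pool.PL`, `theorem p_X (hA : Stmt_A) ... : Stmt_X` with exactly the blocks of the column
`uses` as hypotheses in that order.  Auxiliary lemmas with the prefix `X_`.  Definitions in `Defs.lean`: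
`LocF SL2 mnm nm dnm KK upp low dia aa IsReps word rho GG KG cset Lat tr Inv ip sq hk cex`. -/

open MeasureTheory

noncomputable section

namespace Pool.PL

open Pool.TFD Pool.TC

/-! ### One local field -/

/-- **RES** (80).  Residues modulo `ϖ^r`.  Induction: `x ≡ rep i`, `‖x - rep i‖ < 1` so `≤ 1/q` by `disc`,
`x = rep i + ϖ y`, `y ≡ R j mod ϖ^r`; the new representatives are `rep i + ϖ R j` (`finProdFinEquiv`, `pow_succ`). -/
def Stmt_RES : Prop :=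
  ∀ (k : Type) [NormedField k] [IsUltrametricDist k] (L : LocF k) (r : ℕ),
    ∃ R : Fin (L.q ^ r) → k, (∀ i, ‖R i‖ ≤ 1) ∧
      (∀ i j, ‖R i - R j‖ ≤ ((L.q : ℝ) ^ r)⁻¹ → i = j) ∧
      ∀ x : k, ‖x‖ ≤ 1 → ∃ i, ‖x - R i‖ ≤ ((L.q : ℝ) ^ r)⁻¹

/-- **NRM** (80).  `1 = ‖ad - bc‖ ≤ nm g ^ 2`, so `nm g ≥ 1`, the norm of an entry, a power of `q`.
`nm (κ g) ≤ nm g`, and `g = κ⁻¹ (κ g)`.  `nm g ≤ 1` implies `dnm g ≤ 1`. -/
def Stmt_NRM : Prop :=
  ∀ (k : Type) [NormedField k] [IsUltrametricDist k] (L : LocF k),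
    (∀ g : SL2 k, ∃ j : ℕ, nm g = (L.q : ℝ) ^ j) ∧
    (∀ κ ∈ KK L 0, ∀ g : SL2 k, nm (κ * g) = nm g ∧ nm (g * κ) = nm g) ∧
    (∀ g : SL2 k, g ∈ KK L 0 ↔ nm g ≤ 1) ∧
    (∀ M : ℕ, nm (aa L M) = (L.q : ℝ) ^ M)

/-- **TOP** (120).  `SL2 k` is a closed subset of the matrices (`Matrix.SpecialLinearGroup.isClosedEmbedding_val`
or the subtype topology), a proper metric space; `KK L r` is given by closed and open conditions. -/
def Stmt_TOP : Prop :=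
  ∀ (k : Type) [NormedField k] [IsUltrametricDist k] [ProperSpace k] (L : LocF k),
    LocallyCompactSpace (SL2 k) ∧ SecondCountableTopology (SL2 k) ∧ T2Space (SL2 k) ∧
    (∀ r, IsOpen (KK L r : Set (SL2 k)) ∧ IsCompact (KK L r : Set (SL2 k))) ∧
    (∀ U ∈ nhds (1 : SL2 k), ∃ r, (KK L r : Set (SL2 k)) ⊆ U)

/-- **KNR** (150), uses RES.  Normality: `κ x κ⁻¹ - 1 = κ (x - 1) κ⁻¹`.  Index: `κ = (al, be; ga, de)`; the residues
modulo `ϖ^r` (RES) of `al`, `ga` and of `be` if `‖al‖ = 1`, of `de` if `‖al‖ < 1` (then `‖ga‖ = 1`) determine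
all entries modulo `ϖ^r` (`de = (1 + be ga) / al`, `be = (al de - 1) / ga`), and if `κ' = κ` modulo `ϖ^r` then
`κ⁻¹ κ' - 1 = κ⁻¹ (κ' - κ)`.  So there are at most `q^(3r)` cosets (`r = 0` is trivial). -/
def Stmt_KNR : Prop :=
  ∀ (k : Type) [NormedField k] [IsUltrametricDist k] (L : LocF k),
    (∀ r, ∀ κ ∈ KK L 0, ∀ x ∈ KK L r, κ * x * κ⁻¹ ∈ KK L r) ∧
    (∀ r r', r ≤ r' → KK L r' ≤ KK L r) ∧
    (∀ r, (KK L r).relIndex (KK L 0) ≠ 0) ∧
    (∀ r, (KK L r).relIndex (KK L 0) ≤ L.q ^ (3 * r)) ∧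
    (∀ (g : SL2 k) (r : ℕ), ∃ r', ∀ x ∈ KK L r', g * x * g⁻¹ ∈ KK L r) ∧
    (∀ g : SL2 k, (∀ r, g ∈ KK L r) → g = 1)

/-- **REPS** (60), uses KNR.  Representatives of `KK L 0 / KK L t` (a finite set by KNR). -/
def Stmt_REPS : Prop :=
  ∀ (k : Type) [NormedField k] [IsUltrametricDist k] (L : LocF k) (t : ℕ),
    ∃ (n : ℕ) (S : Fin n → SL2 k), 0 < n ∧ IsReps L t S

/-- **CAR** (120).  Cartan decomposition.  Multiply by the Weyl element `(0, 1; -1, 0)` on both sides so that `al` has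
the maximal norm `q^j`; `low (-ga/al) * g * upp (-be/al) = dia al`, `al = ϖ^(-j) u`, `‖u‖ = 1`. -/
def Stmt_CAR : Prop :=
  ∀ (k : Type) [NormedField k] [IsUltrametricDist k] (L : LocF k) (g : SL2 k),
    ∃ j : ℕ, ∃ κ ∈ KK L 0, ∃ κ' ∈ KK L 0, g = κ * aa L j * κ'

/-- **GEN** (200).  (a) Gauss elimination.  (b) `upp x` with `‖x‖` small is in `H`; conjugates by `dia (ϖ^(-n))` give all
`upp x`, in the same way `low x`.  (c) `upp x`, `low x` with `‖x‖ ≤ 1` are in `KK L 0`; conjugate by powers of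
`aa L M` (`aa * upp x * aa⁻¹ = upp (ϖ^(-2M) x)`) and of its inverse. -/
def Stmt_GEN : Prop :=
  ∀ (k : Type) [NormedField k] [IsUltrametricDist k] (L : LocF k),
    (∀ H : Subgroup (SL2 k), (∀ x, upp x ∈ H) → (∀ x, low x ∈ H) → H = ⊤) ∧
    (∀ (H : Subgroup (SL2 k)) (r : ℕ), (∀ g, ∀ x ∈ KK L r, g * x * g⁻¹ ∈ H) → H = ⊤) ∧
    (∀ (H : Subgroup (SL2 k)) (M : ℕ), 1 ≤ M → KK L 0 ≤ H → aa L M ∈ H → H = ⊤)

/-- **SUP** (300), uses CAR RES NRM KNR.  The supersolution.  By CAR and since left multiplication by `KK L 0` permutes the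
cosets `S j KK(2M)` (and `aa⁻¹ KK(2M) aa ≤ KK L 0`, so `nm (g * (κ * aa))` depends only on the coset), assume
`g = aa L i`.  `κ = (al, be; ga, de)`: the entries of `g κ aa` have norms `‖al‖ q^(i+M)`, `‖be‖ q^(i-M)`, `‖ga‖ q^(M-i)`,
`‖de‖ q^(-i-M)`.  Let `n t` be the number of `j` with `‖al (S j)‖ ≤ q^(-t)`, `t ≤ 2M`: `q^t * n t ≤ card J`: for `t ≥ 1`, `ga` is a
unit, and for the `q^t` residues `x` modulo `ϖ^t` (RES) the sets of the cosets of `upp x * S j`, `‖al (S j)‖ ≤ q^(-t)`,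
are disjoint (`al + x ga` determines `x` modulo `ϖ^t`).  If `‖al‖ = q^(-t)`, `t < 2M`, then `1/nm ≤ q^(t-i-M)`; if
`‖al‖ ≤ q^(-2M)` then `‖be‖ = 1`, `1/nm ≤ q^(M-i)`.  The sum is at most
`card J * (∑ t in range (2M), q^(-t) q^(t-i-M) + q^(-2M) q^(M-i)) = card J * (2M+1) q^(-M) q^(-i)`. -/
def Stmt_SUP : Prop :=
  ∀ (k : Type) [NormedField k] [IsUltrametricDist k] (L : LocF k) (M : ℕ) (J : Type) [Fintype J]
    (S : J → SL2 k), IsReps L (2 * M) S → ∀ g : SL2 k,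
    ∑ j, (nm (g * (S j * aa L M)))⁻¹ ≤ Fintype.card J * (rho L M * (nm g)⁻¹)

/-- **WLK** (150), uses SUP NRM.  Random walk.  Induction on `n` (first letter, `Fin.consEquiv` or `List.ofFn_succ`):
`∑ w, 1/nm (g * word w) ≤ (card J * rho)^n / nm g`.  For fixed `w'`: the indicator of `word w'⁻¹ * g * word w ∈ KK L 0`
is at most `1 / nm` of it; sum over `w`, then `nm (word w'⁻¹ * g) = nm (g⁻¹ * word w')` (`nm_inv`) and sum over `w'`.
Support: `nm (word w) ≤ q^(n M)`, `g = word w' * κ * (word w)⁻¹`. -/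
def Stmt_WLK : Prop :=
  ∀ (k : Type) [NormedField k] [IsUltrametricDist k] (L : LocF k) (M : ℕ) (J : Type) [Fintype J]
    (S : J → SL2 k), IsReps L (2 * M) S → ∀ (n : ℕ) (g : SL2 k),
    (Nat.card {p : (Fin n → J) × (Fin n → J) //
      (word S (aa L M) p.2)⁻¹ * g * word S (aa L M) p.1 ∈ KK L 0} : ℝ) ≤
      (Fintype.card J : ℝ) ^ (2 * n) * (rho L M ^ (2 * n) * (nm g)⁻¹) ∧
    ∀ w w' : Fin n → J, (word S (aa L M) w')⁻¹ * g * word S (aa L M) w ∈ KK L 0 →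
      nm g ≤ (L.q : ℝ) ^ (2 * n * M)

/-- **DMG** (120).  `KK L (r-1)` is generated by conjugates of the `upp t`, `‖t‖ ≤ q^(-(r-1))`, `r ≥ 2`:
for `κ = (al, be; ga, de)` in `KK L (r-1)`, `‖al‖ = 1`: `κ = low (ga/al) * dia al * upp (be/al)`,
`dia u = low (t/u) * (low (-1) * upp t * low 1) * upp (-(t/u))`, `t = u - 1`, and `low t` is the conjugate of `upp (-t)` by
the Weyl element `(0, 1; -1, 0)` in `KK L 0`. -/
def Stmt_DMG : Prop :=
  ∀ (k : Type) [NormedField k] [IsUltrametricDist k] (L : LocF k) (r : ℕ), 2 ≤ r →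
    ∀ H : Subgroup (SL2 k), (∀ κ ∈ KK L 0, ∀ t : k, ‖t‖ ≤ ((L.q : ℝ) ^ (r - 1))⁻¹ →
      κ * upp t * κ⁻¹ ∈ H) → KK L (r - 1) ≤ H

/-- **DMS** (120), uses RES.  Many squares of units: if `‖2‖ ≥ q^(-e)` there are at least `q^r / (4 q^e)` units whose
squares are pairwise incongruent modulo `ϖ^r`: the residues modulo `ϖ^r` (RES) which are units are `q^r - q^(r-1) ≥ q^r/2`
many (the non units are `ϖ` times residues modulo `ϖ^(r-1)`); if `u^2 = u'^2` modulo `ϖ^r` then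
`max (‖u-u'‖, ‖u+u'‖) ≥ ‖2‖` (as `2u = (u-u') + (u+u')`), so the other one is at most `q^(e-r)`, and there are at most
`2 q^e` residues `u'` for a given `u`.  Take representatives of the classes (`r ≥ 1`). -/
def Stmt_DMS : Prop :=
  ∀ (k : Type) [NormedField k] [IsUltrametricDist k] (L : LocF k), (2 : k) ≠ 0 →
    ∃ c : ℝ, 0 < c ∧ ∀ r : ℕ, 1 ≤ r → ∃ (n : ℕ) (u : Fin n → k), c * (L.q : ℝ) ^ r ≤ n ∧
      (∀ i, ‖u i‖ = 1) ∧ ∀ i j, ‖u i ^ 2 - u j ^ 2‖ ≤ ((L.q : ℝ) ^ r)⁻¹ → i = j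

/-- **DIM** (300), uses DMG DMS RES.  The finite abelian group `N = {upp x : ‖x‖ ≤ 1}` modulo `KK L r` acts on `E`; `E` is the direct
sum of the spaces `E_ψ`, `ψ` in the characters of `N` trivial for `‖x‖ ≤ q^(-r)` (commuting operators of finite order; or the
projections `e_ψ = q^(-r) ∑ ψ(-x) π (upp x)`).  If all `ψ` with `E_ψ ≠ 0` are trivial for `‖x‖ ≤ q^(-(r-1))` then
the `upp t` with `‖t‖ ≤ q^(-(r-1))` act trivially, so do their conjugates, DMG: `KK L (r-1)` acts trivially,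
contradiction with `Nontrivial E`.  So some `ψ` with `E_ψ ≠ 0` is nontrivial there.  `dia u`, `‖u‖ = 1`, maps `E_ψ` to
`E_ψ'`, `ψ' x = ψ (u^(-2) x)`.  If `ψ (u^(-2) x) = ψ (u'^(-2) x)` for all `x` then `u^2 = u'^2` modulo `ϖ^r` (otherwise
`(u^(-2) - u'^(-2)) x` takes all values of norm `≤ q^(-(r-1))`).  The `u i` of DMS give `n` different
characters, so `dim E ≥ n ≥ c q^r`. -/
def Stmt_DIM : Prop :=
  ∀ (k : Type) [NormedField k] [IsUltrametricDist k] (L : LocF k), (2 : k) ≠ 0 →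
    ∃ c : ℝ, 0 < c ∧ ∀ r : ℕ, 2 ≤ r → ∀ (E : Type) [AddCommGroup E] [Module ℂ E]
      [FiniteDimensional ℂ E] (π : KK L 0 →* (E →ₗ[ℂ] E)),
      (∀ κ : KK L 0, (κ : SL2 k) ∈ KK L r → π κ = 1) →
      (∀ v : E, (∀ κ : KK L 0, (κ : SL2 k) ∈ KK L (r - 1) → π κ v = v) → v = 0) →
      Nontrivial E → c * (L.q : ℝ) ^ r ≤ Module.finrank ℂ E

/-! ### Products -/

/-- **PTO** (150), uses TOP.  Finite products: topology. -/
def Stmt_PTO : Prop :=
  ∀ (ι : Type) [Finite ι] (k : ι → Type) [∀ i, NormedField (k i)]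
    [∀ i, IsUltrametricDist (k i)] [∀ i, ProperSpace (k i)] (L : ∀ i, LocF (k i)),
    LocallyCompactSpace (GG k) ∧ SecondCountableTopology (GG k) ∧ T2Space (GG k) ∧
    BorelSpace (GG k) ∧
    (∀ s, IsOpen (KG L s : Set (GG k)) ∧ IsCompact (KG L s : Set (GG k))) ∧
    (∀ U ∈ nhds (1 : GG k), ∃ t : ℕ, (KG L (fun _ => t) : Set (GG k)) ⊆ U)

/-- **PNR** (150), uses KNR.  Finite products: normality and indices (`KG L s` is a product; the index of a product is the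
product of the indices, or use `Function.update` and the fibre over one coordinate). -/
def Stmt_PNR : Prop :=
  ∀ (ι : Type) [Fintype ι] [DecidableEq ι] (k : ι → Type) [∀ i, NormedField (k i)]
    [∀ i, IsUltrametricDist (k i)] (L : ∀ i, LocF (k i)),
    (∀ s, ∀ κ ∈ KG L 0, ∀ x ∈ KG L s, κ * x * κ⁻¹ ∈ KG L s) ∧
    (∀ s s' : ι → ℕ, s ≤ s' → KG L s' ≤ KG L s) ∧
    (∀ s, (KG L s).relIndex (KG L 0) ≠ 0) ∧
    (∀ (s : ι → ℕ) (v : ι) (r : ℕ),
      (KG L (Function.update s v r)).relIndex (KG L (Function.update s v 0)) ≠ 0 ∧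
      (KG L (Function.update s v r)).relIndex (KG L (Function.update s v 0)) ≤
        (L v).q ^ (3 * r)) ∧
    (∀ (g : GG k) (s : ι → ℕ), ∃ s' : ι → ℕ, ∀ x ∈ KG L s', g * x * g⁻¹ ∈ KG L s) ∧
    (∀ g : GG k, (∀ s, g ∈ KG L s) → g = 1)

/-- **CTR** (150), uses GEN.  `upp x` and `low x` are contractible (conjugate by `dia (ϖ^n)`, `dia (ϖ^(-n))`), so the
closure of the contractible elements is everything; for a product use `Pi.mulSingle`. -/
def Stmt_CTR : Prop :=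
  (∀ (k : Type) [NormedField k] [IsUltrametricDist k] (_ : LocF k), ContrGen (SL2 k)) ∧
  ∀ (ι : Type) [Finite ι] (k : ι → Type) [∀ i, NormedField (k i)]
    [∀ i, IsUltrametricDist (k i)] (_ : ∀ i, LocF (k i)), ContrGen (GG k)

/-- **UNI** (150), uses GEN PTO.  Unimodularity: the modular character (`MeasureTheory.Measure.modularCharacter` or
`modularCharacterFun`) is a homomorphism to a commutative group, and `upp x = [dia ϖ, upp y]` with
`(ϖ^2 - 1) y = x`, in the same way `low x`; these generate (GEN, `Pi.mulSingle`).  Compare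
`Pool/Agent/Work/MP_972ac7_sg/UNIM.lean` and `Pool/Agent/Work/MP_972ac7_sn/UNI.lean`. -/
def Stmt_UNI : Prop :=
  ∀ (ι : Type) [Finite ι] (k : ι → Type) [∀ i, NormedField (k i)]
    [∀ i, IsUltrametricDist (k i)] [∀ i, ProperSpace (k i)] (_ : ∀ i, LocF (k i))
    (μ : Measure (GG k)), μ.IsHaarMeasure → μ.IsMulRightInvariant

/-! ### The quotient -/

/-- **MSR** (250).  The invariant probability measure.  `D = ⋃ K h_i` is a fundamental domain of finite positive Haar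
measure for the right multiplication by `Γ` (`Γ` is discrete: `K ∩ h_0 Γ h_0⁻¹ = 1`, so countable); compare
`Pool/Agent/Work/MP_972ac7_sg/MEA.lean`, where `D = K` (`QuotientMeasureEqMeasurePreimage`,
`smulInvariantMeasure_quotient`). -/
def Stmt_MSR : Prop :=
  ∀ (G : Type) [Group G] [TopologicalSpace G] [IsTopologicalGroup G] [LocallyCompactSpace G]
    [SecondCountableTopology G] [T2Space G] [MeasurableSpace G] [BorelSpace G]
    (Γ K : Subgroup G) (N : ℕ) (h : Fin N → G), IsCompact (K : Set G) → IsOpen (K : Set G) →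
    (∀ μ : Measure G, μ.IsHaarMeasure → μ.IsMulRightInvariant) →
    (∀ x : G, ∃ i, ∃ κ ∈ K, ∃ γ ∈ Γ, x = κ * h i * γ) →
    (∀ i j, ∀ κ ∈ K, ∀ γ ∈ Γ, κ * h i * γ = h j → i = j ∧ κ = 1 ∧ γ = 1) →
    ∃ m : Measure (G ⧸ Γ), IsProbabilityMeasure m ∧
      ∀ g : G, MeasurePreserving (fun x => g • x) m m

/-- **DSC** (250), uses PTO PNR.  For the representatives `g i` of the classes the sets
`{γ : g i γ (g i)⁻¹ ∈ KG L 0}` are finite (`Lat.count` for some `W ≠ v`, `r = j = 0`).  Choose `s` such that no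
`γ ≠ 1` in these sets has `g i γ (g i)⁻¹ ∈ KG L s`.  Then `g Γ g⁻¹ ∩ KG L s = 1` for all `g = κ (g i) γ'`
(normality).  So `Γ` is discrete.  `KG L s` has finitely many double cosets too (finite index in `KG L 0`); choose one
representative `h` of each (`κ h γ = h`: `κ = h γ⁻¹ h⁻¹` in `KG L s`, so `γ = 1`). -/
def Stmt_DSC : Prop :=
  ∀ (ι : Type) [Fintype ι] [DecidableEq ι] (k : ι → Type) [∀ i, NormedField (k i)]
    [∀ i, IsUltrametricDist (k i)] [∀ i, ProperSpace (k i)] (L : ∀ i, LocF (k i))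
    (Γ : Subgroup (GG k)), Nontrivial ι → Lat L Γ →
    DiscreteTopology Γ ∧ ∃ (s : ι → ℕ) (N : ℕ) (h : Fin N → GG k),
      (∀ x : GG k, ∃ i, ∃ κ ∈ KG L s, ∃ γ ∈ Γ, x = κ * h i * γ) ∧
      (∀ i j, ∀ κ ∈ KG L s, ∀ γ ∈ Γ, κ * h i * γ = h j → i = j ∧ κ = 1 ∧ γ = 1)

/-- **MEA** (40), uses PTO UNI MSR DSC. -/
def Stmt_MEA : Prop :=
  ∀ (ι : Type) [Fintype ι] [DecidableEq ι] (k : ι → Type) [∀ i, NormedField (k i)]
    [∀ i, IsUltrametricDist (k i)] [∀ i, ProperSpace (k i)] (L : ∀ i, LocF (k i))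
    (Γ : Subgroup (GG k)), Nontrivial ι → Lat L Γ →
    DiscreteTopology Γ ∧ ∃ m : Measure (GG k ⧸ Γ), IsProbabilityMeasure m ∧
      ∀ g : GG k, MeasurePreserving (fun x => g • x) m m

/-- **ORB** (200), uses PTO PNR.  Orbits.  Finitely many: `KG L s` has finite index in `KG L 0` and `KG L 0` has
finitely many orbits (`Lat.classes`).  Measurable: the preimage in `GG k` is open.  Positive mass: if the orbit of `x` has
mass 0 then for `y = h • x` the orbit of `y` under the conjugate of `KG L s` by `h` has mass 0, it contains the orbit of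
`y` under `KG L s'` for some `s' ≥ s` (PNR), and the orbit of `y` under `KG L s` is a finite union of translates of
this one; so all orbits have mass 0, but the total mass is 1. -/
def Stmt_ORB : Prop :=
  ∀ (ι : Type) [Fintype ι] [DecidableEq ι] (k : ι → Type) [∀ i, NormedField (k i)]
    [∀ i, IsUltrametricDist (k i)] [∀ i, ProperSpace (k i)] (L : ∀ i, LocF (k i))
    (Γ : Subgroup (GG k)) (m : Measure (GG k ⧸ Γ)), Lat L Γ → IsProbabilityMeasure m →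
    (∀ g : GG k, MeasurePreserving (fun x => g • x) m m) → ∀ s : ι → ℕ,
    Finite (MulAction.orbitRel.Quotient (KG L s) (GG k ⧸ Γ)) ∧
    ∀ x : GG k ⧸ Γ, MeasurableSet (MulAction.orbit (KG L s) x) ∧
      0 < (m (MulAction.orbit (KG L s) x)).toReal

/-- **MAS** (150), uses PNR ORB.  The orbit of `x` under `K₀ = KG L (update s v 0)` is the union of at most `q^(3r)`
translates by elements of `K₀` of the orbit under the normal subgroup `KG L (update s v r)`, all of the same mass;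
`c₀` = the least mass of a `K₀`-orbit. -/
def Stmt_MAS : Prop :=
  ∀ (ι : Type) [Fintype ι] [DecidableEq ι] (k : ι → Type) [∀ i, NormedField (k i)]
    [∀ i, IsUltrametricDist (k i)] [∀ i, ProperSpace (k i)] (L : ∀ i, LocF (k i))
    (Γ : Subgroup (GG k)) (m : Measure (GG k ⧸ Γ)), Lat L Γ → IsProbabilityMeasure m →
    (∀ g : GG k, MeasurePreserving (fun x => g • x) m m) → ∀ (s : ι → ℕ) (v : ι),
    ∃ c₀ : ℝ, 0 < c₀ ∧ ∀ (r : ℕ) (x : GG k ⧸ Γ), c₀ * ((((L v).q : ℝ) ^ r) ^ 3)⁻¹ ≤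
      (m (MulAction.orbit (KG L (Function.update s v r)) x)).toReal

/-! ### Functions on the quotient (general) -/

/-- **IPL** (200).  `K`-invariant functions take finitely many values, on measurable sets of positive mass. -/
def Stmt_IPL : Prop :=
  ∀ (G : Type) [Group G] [MeasurableSpace G] (Γ K : Subgroup G) (m : Measure (G ⧸ Γ)),
    IsProbabilityMeasure m → Finite (MulAction.orbitRel.Quotient K (G ⧸ Γ)) →
    (∀ x : G ⧸ Γ, MeasurableSet (MulAction.orbit K x) ∧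
      0 < (m (MulAction.orbit K x)).toReal) →
    FiniteDimensional ℂ (Inv Γ K) ∧
    (∀ f ∈ Inv Γ K, Measurable f ∧ (∃ C : ℝ, ∀ x, ‖f x‖ ≤ C) ∧ MemLp f 2 m) ∧
    (∀ f ∈ Inv Γ K, sq m f = 0 → f = 0) ∧
    ∃ B : Inv Γ K →ₗ⋆[ℂ] Inv Γ K →ₗ[ℂ] ℂ, (∀ f g, B f g = ip m f.1 g.1) ∧
      (∀ f, B f f = (sq m f.1 : ℂ))

/-- **BES** (250).  Bessel.  Let `N = card I`, `x = g Γ`, `n_z` the number of `i` with `(w i)⁻¹ x` in the orbit `z`.  The left side is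
`|∑ z (n_z / N) f(z)|^2 ≤ ∑ m(z) |f(z)|^2 * ∑ (n_z / N)^2 / m(z) ≤ sq m f * μ₀⁻¹ N^(-2) ∑ n_z^2`, and `∑ n_z^2` is the
number of pairs `(i, i')` in the same orbit: `κ (w i)⁻¹ g Γ = (w i')⁻¹ g Γ`, i.e.
`(w i')⁻¹ (g γ g⁻¹) (w i) = κ` for some `γ`. -/
def Stmt_BES : Prop :=
  ∀ (G : Type) [Group G] [MeasurableSpace G] (Γ K : Subgroup G) (m : Measure (G ⧸ Γ)),
    IsProbabilityMeasure m → Finite (MulAction.orbitRel.Quotient K (G ⧸ Γ)) →
    (∀ x : G ⧸ Γ, MeasurableSet (MulAction.orbit K x)) → ∀ μ₀ : ℝ, 0 < μ₀ →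
    (∀ x : G ⧸ Γ, μ₀ ≤ (m (MulAction.orbit K x)).toReal) →
    ∀ (I : Type) [Fintype I] (w : I → G) (g : G) (Φ : Finset Γ),
      (∀ i i' (γ : Γ), (w i')⁻¹ * (g * (γ : G) * g⁻¹) * w i ∈ K → γ ∈ Φ) →
    ∀ f ∈ Inv Γ K, ‖(Fintype.card I : ℂ)⁻¹ * ∑ i, f ((w i)⁻¹ • (g : G ⧸ Γ))‖ ^ 2 ≤
      sq m f * (μ₀⁻¹ * ((Fintype.card I : ℝ) ^ 2)⁻¹ *
        ∑ γ ∈ Φ, (Nat.card {p : I × I // (w p.2)⁻¹ * (g * (γ : G) * g⁻¹) * w p.1 ∈ K} : ℝ))

/-- **EVD** (120).  Dimension from pointwise bounds.  Orthonormal basis `f_i` of `E`; for fixed `x` and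
`f = ∑ conj (f_i x) f_i`: `f x = ∑ |f_i x|^2`, `sq f = ∑ |f_i x|^2`, so `∑ |f_i x|^2 ≤ B`; integrate. -/
def Stmt_EVD : Prop :=
  ∀ (X : Type) [MeasurableSpace X] (m : Measure X), IsProbabilityMeasure m →
    ∀ (E : Submodule ℂ (X → ℂ)), FiniteDimensional ℂ E → (∀ f ∈ E, MemLp f 2 m) →
    (∀ f ∈ E, sq m f = 0 → f = 0) → ∀ B : ℝ, 0 ≤ B → (∀ f ∈ E, ∀ x, ‖f x‖ ^ 2 ≤ B * sq m f) →
    (Module.finrank ℂ E : ℝ) ≤ B

/-- **SPC** (100).  Spectral theorem in finite dimension (`InnerProductSpace.Core` from `B`,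
`LinearMap.IsSymmetric.eigenvectorBasis`). -/
def Stmt_SPC : Prop :=
  ∀ (V : Type) [AddCommGroup V] [Module ℂ V] [FiniteDimensional ℂ V]
    (B : V →ₗ⋆[ℂ] V →ₗ[ℂ] ℂ), (∀ x y, (starRingEnd ℂ) (B x y) = B y x) →
    (∀ x, x ≠ 0 → 0 < (B x x).re) → ∀ T : V →ₗ[ℂ] V, (∀ x y, B (T x) y = B x (T y)) →
    ∀ c : ℝ, (∀ lam : ℝ, c ≤ lam → ∀ x, T x = (lam : ℂ) • x → x = 0) →
    ∃ c' : ℝ, c' < c ∧ ∀ x, (B (T x) x).re ≤ c' * (B x x).re

/-! ### Numerical lemmas -/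

/-- **SMM** (200).  Summation: `∑ a, 1 / n a ≤ ∑ j ≤ J, A j q^(-j)`, `A j` the number of `a` with `n a ≤ q^j`;
`∑ 2 q^(-j) ≤ 4`; `∑ j ≤ J, q^(-j) (q^j/Q)^(5/3) (1 + q^j/Q^2) ≤ (1 + Y/Q^2) Q^(-5/3) ∑ q^(2j/3)`, `Y = q^J`, and
`∑ j ≤ J, q^(2j/3) ≤ 3 Y^(2/3)` (geometric, `1/(1 - 2^(-2/3)) ≤ 3`); `Y ≤ Q^(11/5)`:
`(1 + Y/Q^2) Q^(-5/3) Y^(2/3) ≤ 2 Q^(1/5) Q^(-5/3) Q^(22/15) = 2`. -/
def Stmt_SMM : Prop :=
  ∀ q : ℕ, 2 ≤ q → ∀ (C Q : ℝ) (J : ℕ), 0 ≤ C → 1 ≤ Q → ((q : ℝ) ^ J) ^ 5 ≤ Q ^ 11 →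
    ∀ (A : Type) [Fintype A] (n : A → ℝ), (∀ a, ∃ j : ℕ, j ≤ J ∧ n a = (q : ℝ) ^ j) →
    (∀ j : ℕ, j ≤ J → (Nat.card {a // n a ≤ (q : ℝ) ^ j} : ℝ) ≤
      2 + C * ((q : ℝ) ^ j / Q) ^ (5 / 3 : ℝ) * (1 + (q : ℝ) ^ j / Q ^ 2)) →
    ∑ a, (n a)⁻¹ ≤ 4 + 6 * C

/-- **MEX** (40).  Exponential beats polynomial. -/
def Stmt_MEX : Prop :=
  ∀ q : ℕ, 2 ≤ q → ∃ M : ℕ, 1 ≤ M ∧ (4 * M + 2) ^ 44 ≤ q ^ M

/-- **ARI** (200).  The exponents.  Given `r`, `Q = p^r`, take the largest `n` with `Y = q^(2 n M) ≤ Q^(11/5)`, i.e.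
`Y^5 ≤ Q^11`, so `Y q^(2M) > Q^(11/5)`.  `(4M+2)^(2n)` is at most `Y^(1/44)`.  The claim is
`Q^2 C < c (q^M / (4M+2))^(2n) = c Y / (4M+2)^(2n)`, and the right side is at least
`c Y^(43/44) ≥ c (Q^(11/5) q^(-2M))^(43/44) = c' Q^(43/20)`; true if `Q^(3/20) > C / c'`. -/
def Stmt_ARI : Prop :=
  ∀ q M p : ℕ, 2 ≤ q → 1 ≤ M → (4 * M + 2) ^ 44 ≤ q ^ M → 2 ≤ p → ∀ C c : ℝ, 0 < C → 0 < c →
    ∃ r₀ : ℕ, ∀ r : ℕ, r₀ ≤ r → ∃ n : ℕ, ((q : ℝ) ^ (2 * n * M)) ^ 5 ≤ ((p : ℝ) ^ r) ^ 11 ∧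
      C * ((p : ℝ) ^ r) ^ 3 * ((2 * M + 1) / (q : ℝ) ^ M) ^ (2 * n) <
        c * (p : ℝ) ^ r * (1 / 2 : ℝ) ^ (2 * n)

/-! ### The Hecke operator -/

/-- the element `a` of the factor `W` -/
def aW {ι : Type} [DecidableEq ι] {k : ι → Type} [∀ i, NormedField (k i)]
    (L : ∀ i, LocF (k i)) (W : ι) (M : ℕ) : GG k := Pi.mulSingle W (aa (L W) M)

/-- the representatives in the factor `W` -/
def SW {ι : Type} [DecidableEq ι] {k : ι → Type} [∀ i, NormedField (k i)] (W : ι) {J : Type}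
    (S : J → SL2 (k W)) : J → GG k := fun j => Pi.mulSingle W (S j)

/-- **HKI** (200), uses KNR.  The Hecke operator.  (1) For `f` in `Inv (KG L s)`, `s W = 0`, and `κ` in `KG L s`:
`f ((S j * a)⁻¹ κ⁻¹ x)`: the coordinates of `κ` outside `W` commute with `S j * a`; `κ_W S j = S j' * κ'`, `κ'` in
`KK L (2M)`, `j ↦ j'` is a bijection, `κ' a = a (a⁻¹ κ' a)`, `a⁻¹ κ' a` in `KK L 0` (entries `be ϖ^(2M)`,
`ga ϖ^(-2M)`).  (2) `tr κ` commutes with `hk` (on `Inv (KG L s)`) for `κ` in `KG L 0`, in the same way. -/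
def Stmt_HKI : Prop :=
  ∀ (ι : Type) [DecidableEq ι] (k : ι → Type) [∀ i, NormedField (k i)]
    [∀ i, IsUltrametricDist (k i)] (L : ∀ i, LocF (k i)) (Γ : Subgroup (GG k)) (W : ι) (M : ℕ)
    (J : Type) [Fintype J] (S : J → SL2 (k W)), IsReps (L W) (2 * M) S → ∀ s : ι → ℕ, s W = 0 →
    ∀ f ∈ Inv Γ (KG L s), hk (SW W S) (aW L W M) f ∈ Inv Γ (KG L s) ∧
      ∀ κ ∈ KG L 0, hk (SW W S) (aW L W M) (tr κ f) = tr κ (hk (SW W S) (aW L W M) f)

/-- **HKS** (200), uses IPL ORB HKI.  Selfadjointness.  For `f, f'` in `Inv (KG L s)`, `s W = 0`: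
`ip (tr (S j a) f) f' = ip (tr a f) f'` (`f'` is invariant under `S j`, `m` is invariant), so
`ip (hk f) f' = ip (tr a f) f'`.  With the Weyl element `w` at `W` (in `KG L s`): `a⁻¹ = w a w⁻¹`, so
`ip (tr a f) f' = ip f (tr a⁻¹ f') = ip f (tr a f')`. -/
def Stmt_HKS : Prop :=
  ∀ (ι : Type) [Fintype ι] [DecidableEq ι] (k : ι → Type) [∀ i, NormedField (k i)]
    [∀ i, IsUltrametricDist (k i)] [∀ i, ProperSpace (k i)] (L : ∀ i, LocF (k i))
    (Γ : Subgroup (GG k)) (m : Measure (GG k ⧸ Γ)), Lat L Γ → IsProbabilityMeasure m →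
    (∀ g : GG k, MeasurePreserving (fun x => g • x) m m) → ∀ (W : ι) (M : ℕ)
    (J : Type) [Fintype J] [Nonempty J] (S : J → SL2 (k W)), IsReps (L W) (2 * M) S →
    ∀ s : ι → ℕ, s W = 0 → ∀ f ∈ Inv Γ (KG L s), ∀ f' ∈ Inv Γ (KG L s),
      ip m (hk (SW W S) (aW L W M) f) f' = ip m (tr (aW L W M) f) f' ∧
      ip m (tr (aW L W M) f) f' = ip m f (tr (aW L W M) f') ∧
      sq m (tr (aW L W M) f) = sq m f ∧
      sq m (fun x => tr (aW L W M) f x - f x) = 2 * sq m f - 2 * (ip m (tr (aW L W M) f) f).re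

/-- **CTU** (200), uses KNR NRM.  COUNT uniformly in `g`: `g = κ (g i) γ'`, conjugation by `γ'` is a bijection of `cset L Γ W v g r j`
with `cset L Γ W v (κ * g i) r j`, and this is `cset L Γ W v (g i) r j` (normality of `KK L r` in `KK L 0`, bi-invariance of
`nm`); take the maximum of the constants for the `g i`. -/
def Stmt_CTU : Prop :=
  ∀ (ι : Type) [Fintype ι] [DecidableEq ι] (k : ι → Type) [∀ i, NormedField (k i)]
    [∀ i, IsUltrametricDist (k i)] (L : ∀ i, LocF (k i)) (Γ : Subgroup (GG k)), Lat L Γ →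
    ∀ W v : ι, W ≠ v → ∃ C : ℝ, 0 < C ∧ ∀ (g : GG k) (r j : ℕ),
      (cset L Γ W v g r j).Finite ∧ (Nat.card (cset L Γ W v g r j) : ℝ) ≤
        2 + C * (((L W).q : ℝ) ^ j / ((L v).q : ℝ) ^ r) ^ (5 / 3 : ℝ) *
          (1 + ((L W).q : ℝ) ^ j / (((L v).q : ℝ) ^ r) ^ 2)

/-- **SXB** (300), uses NRM WLK MAS ORB BES SMM CTU PNR.  The pointwise bound.  `hk` iterated: `lam^n f x` is the average of
`f ((Pi.mulSingle W (word S a w))⁻¹ x)` over `w : Fin n → J`.  BES with `K = KG L (update s v r)`,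
`μ₀ = c₀ Q^(-3)` (MAS), `Φ` = the finite set `cset L Γ W v g r (2 n M)` (if
`(word w')⁻¹ (g γ g⁻¹) (word w) ∈ K` then at `v`: in `KK r`; at `W`: WLK; elsewhere: `KK (s u) ≤ KK 0`).  The number of
pairs for `γ` is at most `card^(2n) rho^(2n) / nm ((g γ g⁻¹) W)` (WLK), SMM for `A = Φ`, `J = 2 n M`, CTU:
the sum of the `1 / nm` is at most `4 + 6 C`. -/
def Stmt_SXB : Prop :=
  ∀ (ι : Type) [Fintype ι] [DecidableEq ι] (k : ι → Type) [∀ i, NormedField (k i)]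
    [∀ i, IsUltrametricDist (k i)] [∀ i, ProperSpace (k i)] (L : ∀ i, LocF (k i))
    (Γ : Subgroup (GG k)) (m : Measure (GG k ⧸ Γ)), Lat L Γ → IsProbabilityMeasure m →
    (∀ g : GG k, MeasurePreserving (fun x => g • x) m m) → ∀ W v : ι, W ≠ v → ∀ s : ι → ℕ,
    s W = 0 → ∀ (M : ℕ) (J : Type) [Fintype J] [Nonempty J] (S : J → SL2 (k W)),
    IsReps (L W) (2 * M) S → ∃ C : ℝ, 0 < C ∧ ∀ r n : ℕ,
      (((L W).q : ℝ) ^ (2 * n * M)) ^ 5 ≤ (((L v).q : ℝ) ^ r) ^ 11 →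
      ∀ f ∈ Inv Γ (KG L (Function.update s v r)), ∀ lam : ℝ, 0 ≤ lam →
      hk (SW W S) (aW L W M) f = (fun x => (lam : ℂ) * f x) →
      ∀ x, lam ^ (2 * n) * ‖f x‖ ^ 2 ≤
        C * (((L v).q : ℝ) ^ r) ^ 3 * rho (L W) M ^ (2 * n) * sq m f

/-- **SX** (350), uses DIM IPL EVD SPC ARI HKI HKS SXB ORB PNR REPS.  New vectors have a gap.  `V` = the space of the `f` in
`Inv (KG L (update s v r))` orthogonal to `Inv (KG L (update s v (r-1)))`; `hk` is a symmetric operator on `V` (HKI, HKS: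
`hk` preserves both spaces and is symmetric).  Suppose `hk f = lam f`, `lam ≥ 1/2`, `f ≠ 0` in `V`.  `E` = this eigenspace
in `V`: `KK (L v) 0` acts on it by `tr (Pi.mulSingle v κ)` (`m` is invariant, `KG L (update s v (r-1))` is normal), trivially for
`KK (L v) r`, and a vector fixed by `KK (L v) (r-1)` is in `Inv (KG L (update s v (r-1)))` and orthogonal to
itself, so zero.  DIM: `dim E ≥ c Q`.  SXB and EVD: `dim E ≤ C Q^3 rho^(2n) lam^(-2n)`, contradiction to ARI for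
`r ≥ r₀`.  So SPC with `c = 1/2`: `Re ip (hk f) f ≤ sq f / 2`, and HKS. -/
def Stmt_SX : Prop :=
  ∀ (ι : Type) [Fintype ι] [DecidableEq ι] (k : ι → Type) [∀ i, NormedField (k i)]
    [∀ i, IsUltrametricDist (k i)] [∀ i, ProperSpace (k i)] (L : ∀ i, LocF (k i))
    (Γ : Subgroup (GG k)) (m : Measure (GG k ⧸ Γ)), Lat L Γ → IsProbabilityMeasure m →
    (∀ g : GG k, MeasurePreserving (fun x => g • x) m m) → ∀ W v : ι, W ≠ v → (2 : k v) ≠ 0 →
    ∀ s : ι → ℕ, s W = 0 → ∀ M : ℕ, 1 ≤ M → (4 * M + 2) ^ 44 ≤ (L W).q ^ M →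
    ∃ r₀ : ℕ, ∀ r : ℕ, r₀ < r → ∀ f ∈ Inv Γ (KG L (Function.update s v r)),
      (∀ f' ∈ Inv Γ (KG L (Function.update s v (r - 1))), ip m f' f = 0) →
      sq m f ≤ sq m (fun x => tr (aW L W M) f x - f x)

/-- **PRJ** (200), uses KNR PNR ORB IPL.  The average over the finite group `KG L s / KG L s'`, `s ≤ s'`: for `f` in
`Inv (KG L s')` there is `f₁` in `Inv (KG L s)` with `f - f₁` orthogonal to `Inv (KG L s)`; `f₁` is a finite average of
translates `tr κ f`, `κ` in `KG L s`. -/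
def Stmt_PRJ : Prop :=
  ∀ (ι : Type) [Fintype ι] [DecidableEq ι] (k : ι → Type) [∀ i, NormedField (k i)]
    [∀ i, IsUltrametricDist (k i)] [∀ i, ProperSpace (k i)] (L : ∀ i, LocF (k i))
    (Γ : Subgroup (GG k)) (m : Measure (GG k ⧸ Γ)), Lat L Γ → IsProbabilityMeasure m →
    (∀ g : GG k, MeasurePreserving (fun x => g • x) m m) → ∀ (s : ι → ℕ) (v : ι) (r : ℕ),
    ∃ (n : ℕ) (κ : Fin n → SL2 (k v)), 0 < n ∧ (∀ i, κ i ∈ KK (L v) (r - 1)) ∧
      ∀ f ∈ Inv Γ (KG L (Function.update s v r)), ∀ f₁ : GG k ⧸ Γ → ℂ,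
        (f₁ = fun x => (n : ℂ)⁻¹ * ∑ i, tr (Pi.mulSingle v (κ i) : GG k) f x) →
        f₁ ∈ Inv Γ (KG L (Function.update s v (r - 1))) ∧
        (∀ f' ∈ Inv Γ (KG L (Function.update s v (r - 1))), ip m f' (fun x => f x - f₁ x) = 0) ∧
        sq m f = sq m f₁ + sq m (fun x => f x - f₁ x)

/-- **ERG** (300), uses SX PRJ PNR KNR GEN IPL ORB.  Ergodicity.  Fix `v ≠ W`, `E_r` = the `f` in
`Inv (KG L (update s v r))` with `tr a f = f`.  For `r > r₀`: `f₁` of PRJ satisfies `tr a f₁ = f₁` (`a` commutes with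
the factor `v`), so `tr a (f - f₁) = f - f₁`, SX: `sq (f - f₁) ≤ 0`, so `f = f₁`: `E_r = E_(r-1)`.  So `E_r ≤ E_(r₀)` for
all `r`.  For `f` in `E_r₀` and `g` in the factor `v`: `tr g f` is in `E_r` for some `r` (KNR), so in `E_r₀`, so `f`
is invariant under `g⁻¹ KK (L v) r₀ g` for all `g`; GEN (b): under the factor `v`.  (The given `f` is in some `E_r`.)  For
all `v ≠ W`; and `f` is invariant under `KK (L W) 0` and `a`, GEN (c): under the factor `W`.  The factors generate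
`GG k` (`Pi.mulSingle`, `Subgroup.pi_mem_of_mulSingle_mem`), which is transitive. -/
def Stmt_ERG : Prop :=
  ∀ (ι : Type) [Fintype ι] [DecidableEq ι] (k : ι → Type) [∀ i, NormedField (k i)]
    [∀ i, IsUltrametricDist (k i)] [∀ i, ProperSpace (k i)] (L : ∀ i, LocF (k i))
    (Γ : Subgroup (GG k)) (m : Measure (GG k ⧸ Γ)), Lat L Γ → IsProbabilityMeasure m →
    (∀ g : GG k, MeasurePreserving (fun x => g • x) m m) → (∀ i, (2 : k i) ≠ 0) → ∀ W : ι,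
    ∀ M : ℕ, 1 ≤ M → (4 * M + 2) ^ 44 ≤ (L W).q ^ M → ∀ s : ι → ℕ, s W = 0 →
    ∀ f ∈ Inv Γ (KG L s), tr (aW L W M) f = f → ∃ c : ℂ, f = fun _ => c

/-- **GPV** (300), uses SX PRJ HKI HKS IPL ORB SPC ERG REPS PNR.  The gap at all levels.  On `V = {f ∈ Inv (KG L (update s v r₀)) : ∫ f = 0}`:
SPC with `c = 1`: if `hk f = lam f`, `lam ≥ 1`: `lam sq f = ip (tr a f) f`, Cauchy-Schwarz: equality, `tr a f = f`
(`sq (tr a f - f) = 2 sq f - 2 lam sq f ≤ 0`), ERG: `f` constant, so 0.  So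
`Re ip (hk f) f ≤ c' sq f` with `c' < 1` on `V`; take `c' ≥ 1/2`.  Induction on `r`: `f = f₁ + f₂` (PRJ), `hk` preserves
`Inv (KG L (update s v (r-1)))` and its orthogonal complement, so `ip (hk f) f = ip (hk f₁) f₁ + ip (hk f₂) f₂`, SX for `f₂`
(`r > r₀`).  So `Re ip (hk f) f ≤ c' sq f` for all `r ≥ r₀` (and `Inv` at a smaller level is contained in it), HKS. -/
def Stmt_GPV : Prop :=
  ∀ (ι : Type) [Fintype ι] [DecidableEq ι] (k : ι → Type) [∀ i, NormedField (k i)]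
    [∀ i, IsUltrametricDist (k i)] [∀ i, ProperSpace (k i)] (L : ∀ i, LocF (k i))
    (Γ : Subgroup (GG k)) (m : Measure (GG k ⧸ Γ)), Lat L Γ → IsProbabilityMeasure m →
    (∀ g : GG k, MeasurePreserving (fun x => g • x) m m) → (∀ i, (2 : k i) ≠ 0) →
    ∀ W v : ι, W ≠ v → ∀ M : ℕ, 1 ≤ M → (4 * M + 2) ^ 44 ≤ (L W).q ^ M → ∀ s : ι → ℕ,
    s W = 0 → ∃ c : ℝ, 0 < c ∧ ∀ r : ℕ, ∀ f ∈ Inv Γ (KG L (Function.update s v r)),
      ∫ x, f x ∂m = 0 → c * sq m f ≤ sq m (fun x => tr (aW L W M) f x - f x)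

/-! ### Strong gap -/

/-- **CX1** (200).  Conditional expectation on the `K`-invariant functions: elementary properties. -/
def Stmt_CX1 : Prop :=
  ∀ (G : Type) [Group G] [MeasurableSpace G] (Γ K : Subgroup G) (m : Measure (G ⧸ Γ)),
    IsProbabilityMeasure m → Finite (MulAction.orbitRel.Quotient K (G ⧸ Γ)) →
    (∀ x : G ⧸ Γ, MeasurableSet (MulAction.orbit K x) ∧
      0 < (m (MulAction.orbit K x)).toReal) →
    ∀ φ : G ⧸ Γ → ℂ, MemLp φ 2 m → cex m K φ ∈ Inv Γ K ∧ ∫ x, cex m K φ x ∂m = ∫ x, φ x ∂m ∧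
      sq m (cex m K φ) ≤ sq m φ ∧
      sq m φ = sq m (cex m K φ) + sq m (fun x => φ x - cex m K φ x)

/-- **CX2** (300), uses PTO ORB CX1 DSC.  `cex` for `KG L (fun _ => t)` converges to `φ` in `L²`: continuous functions are dense (`GG k ⧸ Γ` is a
compact space with a regular measure; or: the sets `KG L s g Γ` form a countable basis stable under finite
intersections up to finite unions), and for a continuous `φ` the oscillation on the orbits tends to 0 uniformly. -/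
def Stmt_CX2 : Prop :=
  ∀ (ι : Type) [Fintype ι] [DecidableEq ι] (k : ι → Type) [∀ i, NormedField (k i)]
    [∀ i, IsUltrametricDist (k i)] [∀ i, ProperSpace (k i)] (L : ∀ i, LocF (k i))
    (Γ : Subgroup (GG k)) (m : Measure (GG k ⧸ Γ)), Nontrivial ι → Lat L Γ → IsProbabilityMeasure m →
    (∀ g : GG k, MeasurePreserving (fun x => g • x) m m) → ∀ φ : GG k ⧸ Γ → ℂ, MemLp φ 2 m →
    ∀ ε : ℝ, 0 < ε → ∃ t : ℕ, sq m (fun x => φ x - cex m (KG L fun _ => t) φ x) ≤ ε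

/-- **CX3** (250), uses CX1 PNR ORB IPL.  `K₁ = KG L (fun _ => t)`, `K₂ = KG L (update 0 P t)`, `K₁` is normal in `K₂`, the representatives
`κ` of `K₂ / K₁` can be taken with `κ P = 1`; `cex K₂ φ` is the average of `tr κ (cex K₁ φ) = cex K₁ (tr κ φ)`.  So
`sq (cex K₂ φ - cex K₁ φ) ≤ max sq (cex K₁ (tr κ φ - φ)) ≤ δ`. -/
def Stmt_CX3 : Prop :=
  ∀ (ι : Type) [Fintype ι] [DecidableEq ι] (k : ι → Type) [∀ i, NormedField (k i)]
    [∀ i, IsUltrametricDist (k i)] [∀ i, ProperSpace (k i)] (L : ∀ i, LocF (k i))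
    (Γ : Subgroup (GG k)) (m : Measure (GG k ⧸ Γ)), Lat L Γ → IsProbabilityMeasure m →
    (∀ g : GG k, MeasurePreserving (fun x => g • x) m m) → ∀ (P : ι) (φ : GG k ⧸ Γ → ℂ),
    MemLp φ 2 m → ∀ δ : ℝ, (∀ κ ∈ KG L 0, κ P = 1 → sq m (fun x => tr κ φ x - φ x) ≤ δ) →
    ∀ t : ℕ, sq m (fun x => cex m (KG L (Function.update 0 P t)) φ x -
      cex m (KG L fun _ => t) φ x) ≤ δ

/-- **SGP** (200), uses GPV CX1 CX2 CX3 ORB IPL.  The strong gap.  Suppose `φ` is moved by less than `δ^2 sq φ` by all `κ` and by `a`.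
`f = cex (KG L (update 0 P t)) φ`: `sq (φ - f) ≤ 2 ε + 2 δ^2 sq φ` (CX2, CX3), `∫ f = 0`, GPV for
`s = 0`, `v = P`: `c sq f ≤ sq (tr a f - f) ≤ 3 (sq (tr a (f - φ)) + sq (tr a φ - φ) + sq (φ - f))`, and
`sq φ ≤ 2 sq f + 2 sq (φ - f)`; a contradiction for small `ε, δ` unless `sq φ = 0`. -/
def Stmt_SGP : Prop :=
  ∀ (ι : Type) [Fintype ι] [DecidableEq ι] (k : ι → Type) [∀ i, NormedField (k i)]
    [∀ i, IsUltrametricDist (k i)] [∀ i, ProperSpace (k i)] (L : ∀ i, LocF (k i))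
    (Γ : Subgroup (GG k)) (m : Measure (GG k ⧸ Γ)), Lat L Γ → IsProbabilityMeasure m →
    (∀ g : GG k, MeasurePreserving (fun x => g • x) m m) → (∀ i, (2 : k i) ≠ 0) →
    ∀ W P : ι, W ≠ P → ∀ M : ℕ, 1 ≤ M → (4 * M + 2) ^ 44 ≤ (L W).q ^ M →
    ∃ δ : ℝ, 0 < δ ∧ ∀ φ : GG k ⧸ Γ → ℂ, MemLp φ 2 m → ∫ x, φ x ∂m = 0 →
      (∃ κ ∈ KG L 0, κ P = 1 ∧ δ ^ 2 * sq m φ ≤ sq m (fun x => tr κ φ x - φ x)) ∨
      δ ^ 2 * sq m φ ≤ sq m (fun x => tr (aW L W M) φ x - φ x)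

/-- **DNS** (200), uses ERG PTO PNR MEX.  Density.  `H` = the closure of the projection of `Γ` to `GG'`, the product over the
`i ≠ P`.  If `g` is not in `H` there is a level `t` with `g` not in `KG' t * H` (`H` is closed).  The function
`x Γ ↦ 1` if `(x i)_(i ≠ P)` is in `KG' t * H` is well defined, invariant under `KG L (update (fun _ => t) P 0)` and under
the factor `P`, so constant by ERG (`W = P`, `M` of MEX), a contradiction. -/
def Stmt_DNS : Prop :=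
  ∀ (ι : Type) [Fintype ι] [DecidableEq ι] (k : ι → Type) [∀ i, NormedField (k i)]
    [∀ i, IsUltrametricDist (k i)] [∀ i, ProperSpace (k i)] (L : ∀ i, LocF (k i))
    (Γ : Subgroup (GG k)) (m : Measure (GG k ⧸ Γ)), Lat L Γ → IsProbabilityMeasure m →
    (∀ g : GG k, MeasurePreserving (fun x => g • x) m m) → (∀ i, (2 : k i) ≠ 0) → ∀ P : ι,
    Dense (Set.range fun (γ : Γ) (i : {i : ι // i ≠ P}) => (γ : GG k) i.1)

/-- the group `SL2 (k P) × ∏_(i ≠ P) SL2 (k i)` -/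
def splitE {ι : Type} [DecidableEq ι] (k : ι → Type) [∀ i, NormedField (k i)] (P : ι) :
    GG k ≃* SL2 (k P) × GG (fun i : {i : ι // i ≠ P} => k i.1) :=
  { Equiv.piSplitAt P (fun i => SL2 (k i)) with
    map_mul' := fun _ _ => rfl }

/-- **FIN** (350), uses MEA SGP DNS CTR PTO TOP MEX.  Part I.  Take `P ≠ W` in `ι`, `m` of MEA, transport everything by `splitE k P`
(a homeomorphism, `Homeomorph.piSplitAt`): `Γ' = Γ.map (splitE k P)`, `m'` = the image of `m` under the induced bijection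
`GG k ⧸ Γ → _ ⧸ Γ'`; the compact set of the second factor is the image of `{κ ∈ KG L 0 : κ P = 1} ∪ {a}`.  `allC` of
`Pool/Agent/Work/MP_972ac7_C/AllC.lean` for `Γ'`, `Δ = Γ`, `K = ⊤` (compare `gap_G1n` in
`Pool/Agent/Work/MP_972ac7_sn/Final.lean`; import `Pool.Agent.Work.MP_972ac7_C.Gap`). -/
def Stmt_FIN : Prop :=
  ∀ (ι : Type) [Fintype ι] [DecidableEq ι] (k : ι → Type) [∀ i, NormedField (k i)]
    [∀ i, IsUltrametricDist (k i)] [∀ i, ProperSpace (k i)] (L : ∀ i, LocF (k i))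
    (Γ : Subgroup (GG k)), Nontrivial ι → Lat L Γ → (∀ i, (2 : k i) ≠ 0) → FTGap Γ

end Pool.PL
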