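import Pool.Agent.Work.MP_972ac7_P.Defs2
import Pool.Agent.Work.MP_972ac7_P.Interface1

set_option autoImplicit false

/-! # THEOREM P, part II: block statements (number fields and quaternions)

Files `B_X.lean` in `Pool/Agent/Work/MP_972ac7_P`, `import Pool.Agent.Work.MP_972ac7_P.Interface2`,
namespace `Pool.PL`, `theorem p_X (hA : Stmt_A) ... : Stmt_X` with exactly the blocks of the column
`uses` as hypotheses in that order.  Auxiliary lemmas with the prefix `X_`.  Definitions in `Defs2.lean`: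
`av Nm TR nrq mq th OS CB GU Ctx SplitAt HL Ctx.mt Ctx.Th Ctx.Γ` with elementary lemmas
(`av_mul av_add_le av_int av_int_eq_one_iff Nm_mul Nm_pow Nm_pos nrq_mul star_mul_self' mem_unitary_iff_nrq
mq_mul mq_det CB_mul CB_star mem_GU`). -/

open MeasureTheory NumberField IsDedekindDomain
open scoped Quaternion

noncomputable section

namespace Pool.PL

open Pool.TFD Pool.TC

/-! ### Arithmetic of a totally real field -/

/-- **TRN** (120).  For a totally real field: `F →+* ℝ` corresponds to `F →+* ℂ` and to the infinite places, all of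
multiplicity 1 (`IsTotallyReal.mult_eq`, `InfinitePlace.prod_eq_abs_norm`, `NumberField.Embeddings.card`). -/
def Stmt_TRN : Prop := ∀ (F : Type) [Field F] [NumberField F] [IsTotallyReal F], TR F

/-- **PFM** (200).  Product formula: `NumberField.FinitePlace.prod_eq_inv_abs_norm_int` (`FinitePlace.norm_embedding`: the value at the
place of `w` is `av w`).  (1) all other factors of the finite places are at most 1.  (2) the finprod is a product over `S`.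
(3) an element of `F` which is integral at all `w` is integral (`HeightOneSpectrum.mem_integers_of_valuation_le_one`).
(4) finitely many `w` with `av w z ≠ 1`. -/
def Stmt_PFM : Prop :=
  ∀ (F : Type) [Field F] [NumberField F], TR F →
    (∀ z : 𝓞 F, z ≠ 0 → ∀ w : HeightOneSpectrum (𝓞 F), 1 ≤ Nm (z : F) * av w (z : F)) ∧
    (∀ z : 𝓞 F, z ≠ 0 → ∀ S : Finset (HeightOneSpectrum (𝓞 F)),
      (∀ w, w ∉ S → av w (z : F) = 1) → Nm (z : F) * ∏ w ∈ S, av w (z : F) = 1) ∧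
    (∀ z : F, (∀ w : HeightOneSpectrum (𝓞 F), av w z ≤ 1) → ∃ z' : 𝓞 F, (z' : F) = z) ∧
    (∀ n : 𝓞 F, n ≠ 0 → {w : HeightOneSpectrum (𝓞 F) | n ∈ w.asIdeal}.Finite)

/-- **DEN** (100).  Denominators.  For each `w` take a nonzero element of `w.asIdeal`; it has `av w ≤ 1/2` (the values are powers of
`absNorm ≥ 2`); a product of high powers. -/
def Stmt_DEN : Prop :=
  ∀ (F : Type) [Field F] [NumberField F] (S : Finset (HeightOneSpectrum (𝓞 F))) (R : ℝ),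
    ∃ c : 𝓞 F, c ≠ 0 ∧ ∀ w ∈ S, av w (c : F) * R ≤ 1

/-- **VPW** (120).  A generator of a power of `W` (finite class group: `W^h` is principal); `av w p = 1` for `w ≠ W` and
`av W p = q^(-h)` (`FinitePlace.norm_embedding_int`, `intValuation`, or PFM applied to `p`:
`Nm p = absNorm (W^h) = q^h`). -/
def Stmt_VPW : Prop :=
  ∀ (F : Type) [Field F] [NumberField F], TR F → ∀ W : HeightOneSpectrum (𝓞 F),
    ∃ (h : ℕ) (p : 𝓞 F), 1 ≤ h ∧ p ≠ 0 ∧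
      av W (p : F) = (((Ideal.absNorm W.asIdeal : ℕ) : ℝ) ^ h)⁻¹ ∧
      (∀ w, w ≠ W → av w (p : F) = 1) ∧
      Nm (p : F) = ((Ideal.absNorm W.asIdeal : ℕ) : ℝ) ^ h

/-- **BOX** (200).  `d = card (F →+* ℝ) ≥ 1`; choose `σ₀`, `P = ∏ (σ ≠ σ₀), 2 B σ`.  If `P = 0` there are no two different elements of `Z` (`M ≤ 0`).  Otherwise two
different elements of `Z` have `M ≤ |σ₀ (z - z')| P`, so the numbers `σ₀ z` in `[-B σ₀, B σ₀]` are `M/P`-separated: at most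
`1 + 2 B σ₀ P / M` (map `z` to the integer part of `(σ₀ z + B σ₀) P / M`, injective). -/
def Stmt_BOX : Prop :=
  ∀ (F : Type) [Field F] [NumberField F], TR F → ∀ (Z : Set (𝓞 F)) (B : (F →+* ℝ) → ℝ) (M : ℝ),
    (∀ σ, 0 ≤ B σ) → 0 < M → (∀ z ∈ Z, ∀ σ : F →+* ℝ, |σ (z : F)| ≤ B σ) →
    (∀ z ∈ Z, ∀ z' ∈ Z, z ≠ z' → M ≤ Nm ((z : F) - (z' : F))) →
    Z.Finite ∧ (Nat.card Z : ℝ) ≤
      1 + 2 ^ (Fintype.card (F →+* ℝ)) * (∏ σ, B σ) / M

/-- **ANG** (200).  Three points of an ellipse.  `(√c₁ x, √c₂ y) = √μ (cos t, sin t)`, `t ∈ (-π, π]`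
(`Complex.arg`), class = `⌊(t + π) K / (2π)⌋` (`t = π`: `K - 1`, or use `⌈⌉ - 1`).  The determinant times `√(c₁ c₂)` is
`μ (sin (t'' - t') + sin (t' - t) + sin (t - t''))` up to sign
`= 4 μ sin((t'-t)/2) sin((t''-t')/2) sin((t''-t)/2)` in absolute value, and `|sin u| ≤ min 1 |u|`. -/
def Stmt_ANG : Prop :=
  ∀ c₁ c₂ μ : ℝ, 0 < c₁ → 0 < c₂ → 0 ≤ μ → ∀ K : ℕ, 1 ≤ K → ∃ cl : ℝ × ℝ → Fin K,
    ∀ p p' p'' : ℝ × ℝ, c₁ * p.1 ^ 2 + c₂ * p.2 ^ 2 = μ → c₁ * p'.1 ^ 2 + c₂ * p'.2 ^ 2 = μ →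
    c₁ * p''.1 ^ 2 + c₂ * p''.2 ^ 2 = μ → cl p = cl p' → cl p = cl p'' →
    |(p'.1 - p.1) * (p''.2 - p.2) - (p''.1 - p.1) * (p'.2 - p.2)| ≤
      4 * μ / Real.sqrt (c₁ * c₂) * min 1 ((2 * Real.pi / K) ^ 3)

/-- **CON** (300), uses PFM ANG.  Points on a conic.  Three different points `p, p', p''` of `Z` are not collinear: on the line
`p + s (p' - p)` the form `c₁ X² + c₂ Y² - μ` is a polynomial in `s` of degree 2 (`c₁ u² + c₂ v² > 0` at a real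
embedding), with roots `0, 1` only.  So `Δ = (x'-x)(y''-y) - (x''-x)(y'-y) ≠ 0`, `av w Δ ≤ A²`, PFM (1): `Nm Δ ≥ A^(-2)`.
ANG with `K = 1` for the embeddings `σ ≠ σ₀` and with `K` for `σ₀`: if the three points have the same class at `σ₀` then
`Nm Δ ≤ C' Nm μ K^(-3)`, `C'` depending on `c₁, c₂`.  Take `K = ⌊(2 C' Nm μ A²)^(1/3)⌋ + 1`: contradiction, so each
class has at most 2 points, `card Z ≤ 2 K`.  (`μ = 0`: only the point 0.  No real embedding with `σ μ < 0` if `Z` is not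
empty.) -/
def Stmt_CON : Prop :=
  ∀ (F : Type) [Field F] [NumberField F], TR F → ∀ c₁ c₂ : 𝓞 F,
    (∀ σ : F →+* ℝ, 0 < σ (c₁ : F)) → (∀ σ : F →+* ℝ, 0 < σ (c₂ : F)) →
    ∃ C : ℝ, 0 < C ∧ ∀ (w : HeightOneSpectrum (𝓞 F)) (A : ℝ) (μ : F), 0 < A →
      ∀ Z : Set (𝓞 F × 𝓞 F),
      (∀ p ∈ Z, (c₁ : F) * (p.1 : F) ^ 2 + (c₂ : F) * (p.2 : F) ^ 2 = μ) →
      (∀ p ∈ Z, ∀ p' ∈ Z, av w ((p.1 : F) - (p'.1 : F)) ≤ A ∧
        av w ((p.2 : F) - (p'.2 : F)) ≤ A) →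
      Z.Finite ∧ (Nat.card Z : ℝ) ≤ 2 + C * (Nm μ * A ^ 2) ^ (1 / 3 : ℝ)

/-- **LPT** (150).  Many integers in a box: an integral basis `ω_i` (`d = finrank`), `|σ ω_i| ≤ C₀` for all `σ, i`; the
combinations `∑ m_i ω_i`, `0 ≤ m_i ≤ B / (d C₀)`: at least `(B / (d C₀))^d` different elements. -/
def Stmt_LPT : Prop :=
  ∀ (F : Type) [Field F] [NumberField F], TR F → ∃ c : ℝ, 0 < c ∧ ∀ B : ℝ, 1 ≤ B →
    ∃ Y : Finset (𝓞 F), c * B ^ (Fintype.card (F →+* ℝ)) ≤ (Y.card : ℝ) ∧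
      ∀ y ∈ Y, ∀ σ : F →+* ℝ, |σ (y : F)| ≤ B

/-- **USQ** (200).  Finitely many elements of bounded norm up to squares of units: finitely many ideals of bounded norm
(`Ideal.finite_setOf_absNorm_le`), a generator of each principal one, and `(𝓞 F)ˣ` modulo squares is finite (finitely
generated: `NumberField.Units`).  `Nm δ = absNorm (span {δ})` by `TR.norm`. -/
def Stmt_USQ : Prop :=
  ∀ (F : Type) [Field F] [NumberField F], TR F → ∀ C : ℝ, ∃ Δ : Finset (𝓞 F), (∀ δ ∈ Δ, δ ≠ 0) ∧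
    ∀ δ : 𝓞 F, δ ≠ 0 → Nm (δ : F) ≤ C → ∃ δ' ∈ Δ, ∃ u : (𝓞 F)ˣ, δ = δ' * (u : 𝓞 F) ^ 2

/-- **LCL** (150).  Finitely many residues: the `w`-integral elements of `F` modulo `{av w ≤ ε}`; `ε ≥ q^(-e)`: an element
with `av w x ≤ 1` is `y / z`, `z` in `𝓞 F` not in `w`; the class of `y z'` in `𝓞 F ⧸ w^e` (finite), `z z' ≡ 1`.  (Or: total boundedness
of the integers of the completion.) -/
def Stmt_LCL : Prop :=
  ∀ (F : Type) [Field F] [NumberField F] (w : HeightOneSpectrum (𝓞 F)) (ε : ℝ), 0 < ε →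
    ∃ (N : ℕ) (cl : F → Fin N), ∀ x y : F, av w x ≤ 1 → av w y ≤ 1 → cl x = cl y →
      av w (x - y) ≤ ε

/-- **ICL** (120).  Residues of integers with the exact number: `𝓞 F ⧸ w^e` has `absNorm^e` elements, and
`av w s = absNorm^(-e)` for some `e`; `av w (x - y) ≤ absNorm^(-e)` if and only if `x - y` is in `w^e`. -/
def Stmt_ICL : Prop :=
  ∀ (F : Type) [Field F] [NumberField F] (w : HeightOneSpectrum (𝓞 F)) (s : 𝓞 F), s ≠ 0 →
    ∃ (N : ℕ) (cl : 𝓞 F → Fin N), (N : ℝ) * av w (s : F) = 1 ∧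
      ∀ x y : 𝓞 F, cl x = cl y → av w ((x : F) - (y : F)) ≤ av w (s : F)

/-! ### Local lemmas -/

/-- **PGL** (250), uses CAR RES NRM.  Local pigeonhole.  `g = κ (aa L j) κ'` (CAR); `κ'` preserves `mnm` of matrices, so with
`m̃ = κ' m` the condition is `‖m̃ 0 c‖ ≤ ‖s‖ q^(-j)` and `‖m̃ 1 c‖ ≤ ‖s‖ q^j`, `c = 0, 1`, for the difference.  The ball of radius
`q^a` modulo the ball of radius `q^(-b)`, `a + b ≥ 0`, has `q^(a+b)` classes (RES, scaling by `ϖ^a`).  With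
`q^a` the smallest power (`a : ℤ`) which is at least `D` (so `q^a ≤ q D`) and `‖s‖ ≤ ε = q^(-j)`: in each column
`(q^a q^j / ‖s‖) (q^a q^(-j) / ‖s‖)` classes. -/
def Stmt_PGL : Prop :=
  ∀ (k : Type) [NormedField k] [IsUltrametricDist k] (L : LocF k) (g : SL2 k) (D : ℝ), 1 ≤ D →
    ∃ ε : ℝ, 0 < ε ∧ ∀ s : k, s ≠ 0 → ‖s‖ ≤ ε →
      ∃ (N : ℕ) (cl : Matrix (Fin 2) (Fin 2) k → Fin N), (N : ℝ) * ‖s‖ ^ 4 ≤ (L.q * D) ^ 4 ∧
        ∀ m m' : Matrix (Fin 2) (Fin 2) k, mnm m ≤ D → mnm m' ≤ D → cl m = cl m' →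
          mnm ((g : Matrix (Fin 2) (Fin 2) k) * (m - m')) ≤ ‖s‖

/-- **ANI** (150).  Anisotropic norm form.  If `N(z) = z₀² - a z₁² - b z₂² + ab z₃² = 0`, `z ≠ 0`: if `z₂² ≠ a z₃²` then
`b = (z₀² - a z₁²) / (z₂² - a z₃²) = x² - a y²`, `x = (z₀ z₂ - a z₁ z₃) / (z₂² - a z₃²)`,
`y = (z₁ z₂ - z₀ z₃) / (z₂² - a z₃²)`; otherwise `z₀² = a z₁²` too, so `a = c²` is a square, and
`b = x² - a y²` with `x = (1 + b)/2`, `y = (b - 1)/(2 c)` up to sign.  So `N` has no zero on the compact set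
`{max ‖z_i‖ = 1}`, `‖N(z)‖ ≥ δ > 0` there; scaling: `‖N(z)‖ ≥ δ max ‖z_i‖²` (scale by an element of the same norm). -/
def Stmt_ANI : Prop :=
  ∀ (k : Type) [NormedField k] [ProperSpace k] (_ : LocF k), (2 : k) ≠ 0 → ∀ a b : k, a ≠ 0 →
    (¬ ∃ x y : k, x ^ 2 - a * y ^ 2 = b) → ∃ C : ℝ, ∀ z : Fin 4 → k,
      z 0 ^ 2 - a * z 1 ^ 2 - b * z 2 ^ 2 + a * b * z 3 ^ 2 = 1 → ∀ i, ‖z i‖ ≤ C

/-- **MIN** (150).  Integral matrices with the same determinant and the same residues: `M' M⁻¹ = 1 + (M' - M) adj(M) / δ`. -/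
def Stmt_MIN : Prop :=
  ∀ (k : Type) [NormedField k] [IsUltrametricDist k] (L : LocF k)
    (M M' : Matrix (Fin 2) (Fin 2) k), mnm M ≤ 1 → mnm M' ≤ 1 → M.det = M'.det → M.det ≠ 0 →
    mnm (M' - M) ≤ ‖M.det‖ → ∃ κ ∈ KK L 0, M' = (κ : Matrix (Fin 2) (Fin 2) k) * M

/-! ### Quaternions -/

/-- **NBD** (150).  Entries of the matrix and coordinates bound each other: `re = (m11 + m22)/2`,
`imI = (m21 + m12/a)/2`, and with `u = (m11 - m22)/2`, `w = (m21 - m12/a)/2`: `imJ = (x u - a y w)/b`,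
`imK = (x w - y u)/b`. -/
def Stmt_NBD : Prop :=
  ∀ (F : Type) [Field F] [NumberField F] (ι : Type) (k : ι → Type) [∀ i, NormedField (k i)]
    [∀ i, IsUltrametricDist (k i)] (D : Ctx F ι k) (i : ι), ∃ C : ℝ, 1 ≤ C ∧
    (∀ (z : ℍ[F, (D.a : F), (D.b : F)]) (c : ℝ), CB (D.v i) z c → mnm (D.mt i z) ≤ C * c) ∧
    ∀ (z : ℍ[F, (D.a : F), (D.b : F)]) (c : ℝ), mnm (D.mt i z) ≤ c → CB (D.v i) z (C * c)

/-- **DFN** (120).  The norm form is definite at every `σ`. -/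
def Stmt_DFN : Prop :=
  ∀ (F : Type) [Field F] [NumberField F] (a b : 𝓞 F), (∀ σ : F →+* ℝ, σ (a : F) < 0) →
    (∀ σ : F →+* ℝ, σ (b : F) < 0) → TR F → ∃ C : ℝ, 0 < C ∧
    (∀ (z : ℍ[F, (a : F), (b : F)]) (σ : F →+* ℝ), σ z.re ^ 2 ≤ C * σ (nrq z) ∧
      σ z.imI ^ 2 ≤ C * σ (nrq z) ∧ σ z.imJ ^ 2 ≤ C * σ (nrq z) ∧
      σ z.imK ^ 2 ≤ C * σ (nrq z)) ∧
    (∀ (z : ℍ[F, (a : F), (b : F)]) (σ : F →+* ℝ) (B : ℝ), |σ z.re| ≤ B → |σ z.imI| ≤ B →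
      |σ z.imJ| ≤ B → |σ z.imK| ≤ B → σ (nrq z) ≤ C * B ^ 2) ∧
    ∀ z : ℍ[F, (a : F), (b : F)], nrq z = 0 → z = 0

/-- **INJ** (120).  `D.Th` is injective if there is a place (the entries of `mq` determine `z`: `NBD` formulas, or `mq` of a
difference is 0), so `D.Γ` is isomorphic to `GU`. -/
def Stmt_INJ : Prop :=
  ∀ (F : Type) [Field F] [NumberField F] (ι : Type) (k : ι → Type) [∀ i, NormedField (k i)]
    [∀ i, IsUltrametricDist (k i)] (D : Ctx F ι k), Nonempty ι →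
    Function.Injective D.Th ∧ Nonempty (D.Γ ≃* GU D.a D.b D.n)

/-- **ISO** (250), uses PFM.  The norm one group over `O[1/n]` (`Localization.Away n`, embedded in `F`): an element of `F` is in the
image if and only if it is `w`-integral for all `w` not dividing `n` (multiply by a power of `n`, finitely many `w` divide `n`: PFM (4),
and the values of `av w n` there are less than 1; PFM (3)). -/
def Stmt_ISO : Prop :=
  ∀ (F : Type) [Field F] [NumberField F], TR F → ∀ (a b n : 𝓞 F), n ≠ 0 →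
    Nonempty (GU a b n ≃* unitary (HL a b n))

/-! ### Counting -/

/-- **CN0** (150).  `(y₀ - cP)(y₀ + cP) = a y₁² + b y₂² - ab y₃²` has `av w ≤ C₁² / Q²`.  Let `η = av w (2c)`.
If `C₁/Q < η` then `av w (y₀ + cP) = av w (2cP + (y₀ - cP)) = η`, so `av w (y₀ - cP) ≤ C₁² / (η Q²)`; otherwise
`Q ≤ C₁/η` and `av w (y₀ - cP) ≤ 1 ≤ (C₁/η)² / Q²`. -/
def Stmt_CN0 : Prop :=
  ∀ (F : Type) [Field F] [NumberField F] (a b : 𝓞 F) (w : HeightOneSpectrum (𝓞 F)) (c : 𝓞 F),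
    c ≠ 0 → ∀ C₁ : ℝ, 0 < C₁ → ∃ C : ℝ, 0 < C ∧ ∀ (P : 𝓞 F) (Q : ℝ), av w (P : F) = 1 → 1 ≤ Q →
    ∀ y : Fin 4 → 𝓞 F,
      y 0 ^ 2 - a * y 1 ^ 2 - b * y 2 ^ 2 + a * b * y 3 ^ 2 = (c * P) ^ 2 →
      av w (((y 0 : 𝓞 F) : F) - (c : F) * (P : F)) ≤ C₁ / Q →
      (∀ i, i ≠ 0 → av w ((y i : 𝓞 F) : F) ≤ C₁ / Q) →
      av w (((y 0 : 𝓞 F) : F) - (c : F) * (P : F)) ≤ C / Q ^ 2

/-- **CNA** (350), uses PFM BOX CON CN0 DFN.  The count.  Let `Y = Nm P`.  All `|σ (y i)| ≤ C |σ (cP)|` (DFN).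
Possible `y 0`: BOX with `M = Q² / C` (two values differ by `av w ≤ C / Q²` (CN0), PFM (1)): at most `1 + C Y / Q²`.  Possible `y 3`:
BOX with `M = Q / C₁`: at most `1 + C Y / Q`.  For given `y 0`, `y 3`: CON for `(y 1, y 2)` with `c₁ = -a`, `c₂ = -b`,
`μ = (cP)² - y₀² - ab y₃²`, `0 ≤ σ μ ≤ σ (cP)²`, `A = C₁/Q`: at most `2 + C (Y/Q)^(2/3)`.  If `C Y < Q` then `y 1 = y 2 = y 3 = 0` (`Nm (y i) ≤ C Y`
but `1 ≤ Nm (y i) * C₁ / Q`), `y 0 = ± cP`: at most 2 elements.  Otherwise `Y/Q ≥ 1/C` and the product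
`(1 + C Y/Q²)(1 + C Y/Q)(2 + C (Y/Q)^(2/3))` is at most `C' (1 + Y/Q²) (Y/Q)^(5/3)`. -/
def Stmt_CNA : Prop :=
  ∀ (F : Type) [Field F] [NumberField F] (a b : 𝓞 F), (∀ σ : F →+* ℝ, σ (a : F) < 0) →
    (∀ σ : F →+* ℝ, σ (b : F) < 0) → TR F → ∀ (w : HeightOneSpectrum (𝓞 F)) (c : 𝓞 F),
    c ≠ 0 → ∀ C₁ : ℝ, 0 < C₁ → ∃ C : ℝ, 0 < C ∧ ∀ (P : 𝓞 F) (Q : ℝ), P ≠ 0 →
    av w (P : F) = 1 → 1 ≤ Q → ∀ Z : Set (Fin 4 → 𝓞 F),
      (∀ y ∈ Z, y 0 ^ 2 - a * y 1 ^ 2 - b * y 2 ^ 2 + a * b * y 3 ^ 2 = (c * P) ^ 2 ∧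
        av w (((y 0 : 𝓞 F) : F) - (c : F) * (P : F)) ≤ C₁ / Q ∧
        ∀ i, i ≠ 0 → av w ((y i : 𝓞 F) : F) ≤ C₁ / Q) →
      Z.Finite ∧ (Nat.card Z : ℝ) ≤
        2 + C * (Nm (P : F) / Q) ^ (5 / 3 : ℝ) * (1 + Nm (P : F) / Q ^ 2)

/-- **CNS** (300), uses PFM DEN NBD.  Clearing denominators.  For `z` in the set: at a place `u` the matrix of `z` is
`g_u⁻¹ (g_u z g_u⁻¹) g_u`, so `mnm ≤ nm(g_u)²` for `u ≠ W`, `≤ nm(g_W)² q_W^j` at `W`, and `mnm (mt v z - 1) ≤ nm(g_v)² q_v^(-r)`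
at `v` (`mt v (z - 1)`); NBD: coordinates.  At the nonsplit `w` dividing `n`: `D.nsp` (finitely many, PFM (4)); elsewhere
integral.  `c` from DEN for all `w` dividing `n`: `c * P * z` is integral everywhere, PFM (3). -/
def Stmt_CNS : Prop :=
  ∀ (F : Type) [Field F] [NumberField F] (ι : Type) [Finite ι] (k : ι → Type)
    [∀ i, NormedField (k i)] [∀ i, IsUltrametricDist (k i)] (D : Ctx F ι k) (W v : ι), W ≠ v →
    ∀ g : GG k, ∃ (c : 𝓞 F) (C₁ : ℝ), c ≠ 0 ∧ 0 < C₁ ∧ ∀ (r j : ℕ) (P : 𝓞 F),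
      av (D.v W) (P : F) ≤ (((D.L W).q : ℝ) ^ j)⁻¹ → ∀ z ∈ GU D.a D.b D.n,
      (g * D.Th z * g⁻¹) v ∈ KK (D.L v) r → nm ((g * D.Th z * g⁻¹) W) ≤ ((D.L W).q : ℝ) ^ j →
      (∀ u, u ≠ v → u ≠ W → (g * D.Th z * g⁻¹) u ∈ KK (D.L u) 0) →
      ∃ y : Fin 4 → 𝓞 F, ((y 0 : 𝓞 F) : F) = (c : F) * P * z.1.re ∧
        ((y 1 : 𝓞 F) : F) = (c : F) * P * z.1.imI ∧ ((y 2 : 𝓞 F) : F) = (c : F) * P * z.1.imJ ∧
        ((y 3 : 𝓞 F) : F) = (c : F) * P * z.1.imK ∧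
        av (D.v v) (((y 0 : 𝓞 F) : F) - (c : F) * (P : F)) ≤ C₁ / ((D.L v).q : ℝ) ^ r ∧
        ∀ i, i ≠ 0 → av (D.v v) ((y i : 𝓞 F) : F) ≤ C₁ / ((D.L v).q : ℝ) ^ r

/-- **CNT** (250), uses VPW CNA CNS.  COUNT for `D.Γ`.  `h, p` of VPW for `D.v W`, `P = p^t`, `t = ⌈j/h⌉`:
`av (D.v W) P = q^(-ht) ≤ q^(-j)`, `av (D.v v) P = 1`, `Nm P = q^(ht) ≤ q^h q^j`.  The map `γ = Th z ↦ y` of CNS is injective
(`y` determines `z`), its image satisfies the hypotheses of CNA for `w = D.v v`, `Q = q_v^r` (`nrq z = 1`). -/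
def Stmt_CNT : Prop :=
  ∀ (F : Type) [Field F] [NumberField F] (ι : Type) [Finite ι] (k : ι → Type)
    [∀ i, NormedField (k i)] [∀ i, IsUltrametricDist (k i)] (D : Ctx F ι k) (W v : ι), W ≠ v →
    ∀ g : GG k, ∃ C : ℝ, 0 < C ∧ ∀ r j : ℕ, (cset D.L D.Γ W v g r j).Finite ∧
      (Nat.card (cset D.L D.Γ W v g r j) : ℝ) ≤
        2 + C * (((D.L W).q : ℝ) ^ j / ((D.L v).q : ℝ) ^ r) ^ (5 / 3 : ℝ) *
          (1 + ((D.L W).q : ℝ) ^ j / (((D.L v).q : ℝ) ^ r) ^ 2)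

/-! ### Finitely many classes -/

/-- **CL1** (350), uses PFM LPT NBD PGL ICL DFN.  A short vector.  `T` = the finite set of the `w` dividing `n` (PFM (4)).  `s = n^t`, `t` large
(depending on `g`): `‖e i s‖ ≤ ε_i` (PGL with `g i` and `D_i` = the bound of NBD for `CB ≤ 1`).  For `y` in `(𝓞 F)^4` with
coordinates in the set `Y` of LPT for `B`: classes: at `i` the class of PGL of `mt i y` (`N_i ≤ C |s|_i^(-4)`), at the nonsplit `w` the
classes of ICL of the four coordinates (`|s|_w^(-4)`).  The number of all classes is at most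
`C ∏ (w ∈ T) |s|_w^(-4) = C Nm(s)^4` (PFM (2), `av w s = 1` outside `T`).  The number of `y` is at least `(c B^d)^4`.  Choose
`B ≥ 1` with `(c B^d)^4 > C Nm(s)^4`, `B^d ≤ C' Nm(s)` (`Nm s ≥ 1`).  Two different `y, y'` in the same class, `x = (y - y') / s`:
`mnm (g i * mt i x) ≤ 1`, `CB w x 1` at the nonsplit `w` and at the `w` not dividing `n`, and
`Nm (nrq x) ≤ ∏ σ, C (2B)² / σ(s)² = C'' B^(2d) / Nm(s)² ≤ C'''` (DFN; `σ (nrq x) ≥ 0`). -/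
def Stmt_CL1 : Prop :=
  ∀ (F : Type) [Field F] [NumberField F] (ι : Type) [Finite ι] (k : ι → Type)
    [∀ i, NormedField (k i)] [∀ i, IsUltrametricDist (k i)] (D : Ctx F ι k),
    ∃ C : ℝ, ∀ g : GG k, ∃ x : ℍ[F, (D.a : F), (D.b : F)], x ≠ 0 ∧
      (∀ w, D.n ∉ w.asIdeal → CB w x 1) ∧
      (∀ w, D.n ∈ w.asIdeal → (∀ i, w ≠ D.v i) → CB w x 1) ∧
      (∀ i, mnm ((g i : Matrix (Fin 2) (Fin 2) (k i)) * D.mt i x) ≤ 1) ∧ Nm (nrq x) ≤ C

/-- **CL2** (200), uses PFM CL1 USQ DFN.  The norm up to squares of units.  `δ = nrq x` is integral at all `w`: at `D.v i` it is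
`det (g i * mt i x)`; so `δ` is in `𝓞 F` (PFM (3)), nonzero (DFN).  USQ: `δ = δ' u²`, replace `x` by `u⁻¹ x` (the `w`-adic absolute values
of `u` are 1). -/
def Stmt_CL2 : Prop :=
  ∀ (F : Type) [Field F] [NumberField F] (ι : Type) [Finite ι] (k : ι → Type)
    [∀ i, NormedField (k i)] [∀ i, IsUltrametricDist (k i)] (D : Ctx F ι k),
    ∃ Δ : Finset (𝓞 F), (∀ δ ∈ Δ, δ ≠ 0) ∧ ∀ g : GG k,
      ∃ x : ℍ[F, (D.a : F), (D.b : F)], (∃ δ ∈ Δ, nrq x = (δ : F)) ∧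
      (∀ w, D.n ∉ w.asIdeal → CB w x 1) ∧
      (∀ i, mnm ((g i : Matrix (Fin 2) (Fin 2) (k i)) * D.mt i x) ≤ 1)

/-- **CL3** (350), uses PFM CL2 LCL RES MIN.  Finitely many classes.  Data of `g` with its `x` and `δ`: `δ`; for the finitely many `w` dividing
`δ` but not `n` (PFM (4)) the classes (LCL, `ε = av w δ`) of the four coordinates of `x`; for each `i` the residues (RES with
`q^(-r) ≤ ‖e i δ‖`) of the entries of `M_i = g i * mt i x`.  If `g, g'` have the same data let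
`z = x' * star x / δ`: `nrq z = 1`, `z = 1 + (x' - x) star x / δ` has `CB w z 1` for all `w` not dividing `n`, so `z` is
in `GU`; `M'_i = κ_i M_i` with `κ_i` in `KK 0` (MIN, `det M_i = e i δ`), and `M_i = g i mt i x`,
`M'_i = g' i mt i (z x) = g' i (Th z i) mt i x` (`z x = x'` as `star x * x = δ`), so
`g' i (Th z i) = κ_i g i` (`mt i x` is invertible).  So `g' ∈ KG 0 g Γ`; one representative for each value of the data. -/
def Stmt_CL3 : Prop :=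
  ∀ (F : Type) [Field F] [NumberField F] (ι : Type) [Finite ι] (k : ι → Type)
    [∀ i, NormedField (k i)] [∀ i, IsUltrametricDist (k i)] (D : Ctx F ι k),
    ∃ (N : ℕ) (g : Fin N → GG k), ∀ x : GG k, ∃ i, ∃ κ ∈ KG D.L 0, ∃ γ ∈ D.Γ,
      x = κ * g i * γ

/-! ### The completions and the end -/

/-- **ADC** (300).  The completion at `w` is a local field: `Valued.properSpace_iff_completeSpace_and_isDiscreteValuationRing_integer_and_finite_residueField`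
(`Mathlib/Topology/Algebra/Valued/LocallyCompact.lean`), `CompleteSpace` and the discrete valuation ring instance are in Mathlib
(`FinitePlace.lean`), the residue field is `𝓞 F ⧸ w` (every element of norm `≤ 1` is congruent to an element of `𝓞 F` modulo
the maximal ideal: `denseRange_algebraMap`, and an element `y/z` of `F` with `z` not in `w`), which has `absNorm` elements.  `ϖ`: an
element of `F` with valuation `exp (-1)` (`HeightOneSpectrum.valuation_exists_uniformizer`), norm: `FinitePlace.norm_def`. -/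
def Stmt_ADC : Prop :=
  ∀ (F : Type) [Field F] [NumberField F] (w : HeightOneSpectrum (𝓞 F)),
    IsUltrametricDist (w.adicCompletion F) ∧ ProperSpace (w.adicCompletion F) ∧
    (2 : w.adicCompletion F) ≠ 0 ∧
    (∀ x : F, ‖(algebraMap F (w.adicCompletion F) x)‖ = av w x) ∧
    (∀ x : 𝓞 F, algebraMap (𝓞 F) (w.adicCompletion F) x =
      algebraMap F (w.adicCompletion F) (x : F)) ∧
    ∃ L : LocF (w.adicCompletion F), L.q = Ideal.absNorm w.asIdeal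

/-- **END** (350), uses TRN PFM ADC ANI INJ CNT CL3 FIN.  `ι` = the split primes dividing `n` (`{w // n ∈ w.asIdeal ∧ SplitAt a b w}`, finite by PFM (4), nontrivial),
`k i` = the completion, `D : Ctx F ι k` (`nsp` from ANI and ADC).  `Lat D.L D.Γ` from CL3 and CNT, FIN: `FTGap D.Γ`, INJ:
`FTGap (GU a b n)` (`FTGap` is invariant under isomorphism: `Pool.TC.allC_comm` of `Pool/Agent/Work/MP_972ac7_C/AllC.lean`). -/
def Stmt_END : Prop :=
  ∀ (F : Type) [Field F] [NumberField F] [IsTotallyReal F] (a b n : 𝓞 F),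
    (∀ σ : F →+* ℝ, σ (a : F) < 0) → (∀ σ : F →+* ℝ, σ (b : F) < 0) → n ≠ 0 →
    (∃ v w : HeightOneSpectrum (𝓞 F), v ≠ w ∧ n ∈ v.asIdeal ∧ n ∈ w.asIdeal ∧
      SplitAt a b v ∧ SplitAt a b w) → FTGap (GU a b n)

end Pool.PL
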